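import Mathlib

/-! Integrals over discs through circle averages. -/

namespace Pool.Agent.Helper59.Hardy

open Complex Set Filter Topology Metric MeasureTheory
open scoped ENNReal

theorem circleMap_eq (w : ℂ) (r θ : ℝ) :
    circleMap w r θ = Complex.polarCoord.symm (r, θ) + w := by
  rw [Complex.polarCoord_symm_apply]
  simp only [circleMap]
  rw [Complex.exp_mul_I, ← Complex.ofReal_cos, ← Complex.ofReal_sin]
  ring

theorem lintegral_circle {G : ℂ → ℝ} {w : ℂ} {r : ℝ} (hr : 0 ≤ r)
    (hG : ContinuousOn G (sphere w r)) (hG0 : ∀ z ∈ sphere w r, 0 ≤ G z) :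
    ∫⁻ θ in Ioo (-Real.pi) Real.pi, ENNReal.ofReal (G (circleMap w r θ)) =
      ENNReal.ofReal (2 * Real.pi * Real.circleAverage G w r) := by
  have hc : Continuous fun θ => G (circleMap w r θ) := by
    rw [← continuousOn_univ]
    exact hG.comp (continuous_circleMap w r).continuousOn (fun θ _ => circleMap_mem_sphere w hr θ)
  have h1 : Real.circleAverage G w r = (2 * Real.pi)⁻¹ * ∫ θ in (-Real.pi)..Real.pi, G (circleMap w r θ) := by
    unfold Real.circleAverage
    rw [smul_eq_mul]
    congr 1
    have hp : Function.Periodic (fun θ => G (circleMap w r θ)) (2 * Real.pi) := by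
      intro θ
      simp only
      rw [periodic_circleMap]
    have h2 := hp.intervalIntegral_add_eq 0 (-Real.pi)
    rw [zero_add] at h2
    rw [h2]
    congr 1
    ring
  rw [h1, ← mul_assoc, mul_inv_cancel₀ (by positivity), one_mul,
    intervalIntegral.integral_of_le (by linarith [Real.pi_pos]), integral_Ioc_eq_integral_Ioo,
    ofReal_integral_eq_lintegral_ofReal]
  · exact (hc.integrableOn_Icc).mono_set Ioo_subset_Icc_self
  · exact Eventually.of_forall fun θ => hG0 _ (circleMap_mem_sphere w hr θ)

theorem polar_avg {G : ℂ → ℝ} {w : ℂ} {R : ℝ}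
    (hG : ContinuousOn G (ball w R)) (hG0 : ∀ z ∈ ball w R, 0 ≤ G z) :
    ∫⁻ z in ball w R, ENNReal.ofReal (G z) =
      ∫⁻ r in Ioo 0 R, ENNReal.ofReal (2 * Real.pi * r * Real.circleAverage G w r) := by
  classical
  set u : ℂ → ℝ≥0∞ := (ball w R).piecewise (fun z => ENNReal.ofReal (G z)) (fun _ => 0) with hu
  have hum : Measurable u := by
    apply ContinuousOn.measurable_piecewise
    · exact ENNReal.continuous_ofReal.comp_continuousOn hG
    · exact continuousOn_const
    · exact measurableSet_ball
  have h1 : ∫⁻ z in ball w R, ENNReal.ofReal (G z) = ∫⁻ z, u z := by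
    rw [← lintegral_indicator measurableSet_ball]
    congr 1
  rw [h1, ← lintegral_add_right_eq_self (μ := volume) u w, ← Complex.lintegral_comp_polarCoord_symm]
  have ht : polarCoord.target = Ioi (0 : ℝ) ×ˢ Ioo (-Real.pi) Real.pi := rfl
  rw [ht, Measure.volume_eq_prod, ← Measure.prod_restrict, lintegral_prod]
  · have h2 : ∫⁻ r in Ioo 0 R, ENNReal.ofReal (2 * Real.pi * r * Real.circleAverage G w r) =
        ∫⁻ r in Ioi 0, (Ioo 0 R).indicator
          (fun r => ENNReal.ofReal (2 * Real.pi * r * Real.circleAverage G w r)) r := by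
      rw [lintegral_indicator measurableSet_Ioo, Measure.restrict_restrict measurableSet_Ioo]
      congr 2
      ext x; simp only [mem_inter_iff, mem_Ioo, mem_Ioi]; tauto
    rw [h2]
    apply setLIntegral_congr_fun measurableSet_Ioi
    intro r hr
    rw [mem_Ioi] at hr
    simp only [smul_eq_mul]
    rw [lintegral_const_mul]
    · by_cases hrR : r < R
      · rw [indicator_of_mem (show r ∈ Ioo 0 R from ⟨hr, hrR⟩)]
        have h3 : ∀ θ, u (Complex.polarCoord.symm (r, θ) + w) = ENNReal.ofReal (G (circleMap w r θ)) := by
          intro θ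
          rw [← circleMap_eq, hu, piecewise_eq_of_mem]
          rw [mem_ball, dist_eq_norm]
          simpa [circleMap, abs_of_pos hr] using hrR
        simp_rw [h3]
        have hsub : sphere w r ⊆ ball w R := sphere_subset_ball hrR
        rw [lintegral_circle hr.le (hG.mono hsub) (fun z hz => hG0 z (hsub hz)),
          ← ENNReal.ofReal_mul hr.le]
        congr 1
        ring
      · rw [indicator_of_notMem (by simp [hrR])]
        have h3 : ∀ θ, u (Complex.polarCoord.symm (r, θ) + w) = 0 := by
          intro θ
          rw [← circleMap_eq, hu, piecewise_eq_of_notMem]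
          rw [mem_ball, dist_eq_norm]
          simpa [circleMap, abs_of_pos hr] using hrR
        simp_rw [h3]
        simp
    · apply hum.comp
      have : (fun θ : ℝ => Complex.polarCoord.symm (r, θ) + w) = fun θ => circleMap w r θ := by
        ext θ; rw [circleMap_eq]
      rw [this]
      exact (continuous_circleMap w r).measurable
  · apply Measurable.aemeasurable
    simp only [smul_eq_mul]
    apply Measurable.mul
    · exact ENNReal.measurable_ofReal.comp measurable_fst
    · apply hum.comp
      have : (fun p : ℝ × ℝ => Complex.polarCoord.symm p + w) = fun p => circleMap w p.1 p.2 := by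
        ext p; rw [circleMap_eq]
      rw [this]
      apply Continuous.measurable
      unfold circleMap
      fun_prop

end Pool.Agent.Helper59.Hardy
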