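import Mathlib

open Complex MeasureTheory Set Filter Topology
open scoped Real

namespace Pool.Agent.Helper59

theorem circleAverage_norm_sq_tsum_one {c : ℕ → ℂ} (hs : Summable fun n => ‖c n‖) :
    Real.circleAverage (fun z => ‖∑' n, c n * z ^ n‖ ^ 2) 0 1 = ∑' n, ‖c n‖ ^ 2 := by
  classical
  -- partial sums
  set P : ℕ → Polynomial ℂ := fun N => ∑ n ∈ Finset.range N, Polynomial.C (c n) * Polynomial.X ^ n
    with hP
  have hcoeff : ∀ N i, (P N).coeff i = if i < N then c i else 0 := by
    intro N i
    simp only [hP, Polynomial.finsetSum_coeff, Polynomial.coeff_C_mul, Polynomial.coeff_X_pow,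
      mul_ite, mul_one, mul_zero]
    rw [Finset.sum_ite_eq]
    simp
  have heval : ∀ N z, (P N).eval z = ∑ n ∈ Finset.range N, c n * z ^ n := by
    intro N z
    simp [hP, Polynomial.eval_finsetSum]
  have hsum : ∀ N, ∑ i ∈ (P N).support, ‖(P N).coeff i‖ ^ 2 = ∑ i ∈ Finset.range N, ‖c i‖ ^ 2 := by
    intro N
    have hsub : (P N).support ⊆ Finset.range N := by
      intro i hi
      rw [Polynomial.mem_support_iff, hcoeff] at hi
      by_contra h
      simp at h
      simp [not_lt.mpr h] at hi
    rw [Finset.sum_subset hsub]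
    · apply Finset.sum_congr rfl
      intro i hi
      rw [hcoeff, if_pos (Finset.mem_range.mp hi)]
    · intro i _ hi
      rw [Polynomial.notMem_support_iff] at hi
      simp [hi]
  have hsq : Summable fun n => ‖c n‖ ^ 2 := by
    have h0 : ∀ᶠ n in atTop, ‖c n‖ < 1 :=
      (tendsto_order.1 hs.tendsto_atTop_zero).2 1 one_pos
    refine Summable.of_norm_bounded_eventually_nat hs ?_
    filter_upwards [h0] with n hn
    rw [Real.norm_of_nonneg (by positivity)]
    nlinarith [norm_nonneg (c n)]
  have h1 : Tendsto (fun N => Real.circleAverage (fun z => ‖(P N).eval z‖ ^ 2) 0 1) atTop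
      (𝓝 (∑' n, ‖c n‖ ^ 2)) := by
    have := hsq.hasSum.tendsto_sum_nat
    refine this.congr fun N => ?_
    rw [← Polynomial.sum_sq_norm_coeff_eq_circleAverage, hsum]
  have h2 : Tendsto (fun N => Real.circleAverage (fun z => ‖(P N).eval z‖ ^ 2) 0 1) atTop
      (𝓝 (Real.circleAverage (fun z => ‖∑' n, c n * z ^ n‖ ^ 2) 0 1)) := by
    unfold Real.circleAverage
    refine Tendsto.const_smul ?_ _
    have hb : ∀ θ : ℝ, ‖circleMap 0 1 θ‖ = 1 := by intro θ; simp
    have hsumz : ∀ θ : ℝ, Summable fun n => c n * (circleMap 0 1 θ) ^ n := by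
      intro θ
      refine Summable.of_norm ?_
      simpa [norm_mul, norm_pow, hb] using hs
    refine intervalIntegral.tendsto_integral_filter_of_dominated_convergence
      (fun _ => (∑' n, ‖c n‖) ^ 2) ?_ ?_ ?_ ?_
    · refine Eventually.of_forall fun N => ?_
      apply Continuous.aestronglyMeasurable
      fun_prop
    · refine Eventually.of_forall fun N => Eventually.of_forall fun θ _ => ?_
      beta_reduce
      rw [Real.norm_of_nonneg (by positivity), heval]
      gcongr
      calc ‖∑ n ∈ Finset.range N, c n * circleMap 0 1 θ ^ n‖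
          ≤ ∑ n ∈ Finset.range N, ‖c n * circleMap 0 1 θ ^ n‖ := norm_sum_le _ _
        _ = ∑ n ∈ Finset.range N, ‖c n‖ := by simp [norm_mul, norm_pow, hb]
        _ ≤ ∑' n, ‖c n‖ := hs.sum_le_tsum _ (fun _ _ => norm_nonneg _)
    · exact intervalIntegrable_const
    · refine Eventually.of_forall fun θ _ => ?_
      have := (hsumz θ).hasSum.tendsto_sum_nat
      simp only [heval]
      exact (this.norm).pow 2
  exact tendsto_nhds_unique h2 h1

theorem circleAverage_norm_sq_tsum {c : ℕ → ℂ} {r : ℝ} (hr : 0 ≤ r)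
    (hs : Summable fun n => ‖c n‖ * r ^ n) :
    Real.circleAverage (fun z => ‖∑' n, c n * z ^ n‖ ^ 2) 0 r
      = ∑' n, ‖c n‖ ^ 2 * r ^ (2 * n) := by
  rw [Real.circleAverage_eq_circleAverage_zero_one]
  have h1 : Summable fun n => ‖c n * (r : ℂ) ^ n‖ := by
    simpa [norm_mul, norm_pow, abs_of_nonneg hr] using hs
  have := circleAverage_norm_sq_tsum_one h1
  calc _ = Real.circleAverage (fun z => ‖∑' n, c n * (r : ℂ) ^ n * z ^ n‖ ^ 2) 0 1 := by
        congr 1
        ext z
        congr 2
        apply tsum_congr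
        intro n
        rw [add_zero, mul_pow]
        ring
    _ = ∑' n, ‖c n * (r : ℂ) ^ n‖ ^ 2 := this
    _ = _ := by
        apply tsum_congr
        intro n
        rw [norm_mul, norm_pow, Complex.norm_real, Real.norm_of_nonneg hr, mul_pow]
        ring

end Pool.Agent.Helper59
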