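import Mathlib

/-! Definitions for the coefficient problem of alpha-convex functions (MP_1f2de8_an). -/

open Complex Metric Set

namespace Pool.Agent.Helper59.AC

/-- `n`-th Taylor coefficient at `0`. -/
noncomputable def coeff (f : ℂ → ℂ) (n : ℕ) : ℂ := iteratedDeriv n f 0 / (n.factorial : ℂ)

/-- The class `M(α)` of (normalised, univalent) `α`-convex functions in the unit disc.
At `z = 0` the expression in the last condition is to be read as its limit `1`. -/
def InM (α : ℝ) (f : ℂ → ℂ) : Prop :=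
  DifferentiableOn ℂ f (ball 0 1) ∧ InjOn f (ball 0 1) ∧ f 0 = 0 ∧ deriv f 0 = 1 ∧
    ∀ z ∈ ball (0 : ℂ) 1, z ≠ 0 →
      0 < (α * (1 + z * deriv (deriv f) z / deriv f z) + (1 - α) * (z * deriv f z / f z)).re

/-- `b_k = (2/α)_k / (k! (1 + α k))` -/
noncomputable def b (α : ℝ) (k : ℕ) : ℝ :=
  (∏ j ∈ Finset.range k, (2 / α + j) / (j + 1)) / (1 + α * k)

/-- `c_0 = 1`, `c_m = (1/m) ∑_{k=1}^m ((1+α) k - m) b_k c_{m-k}`. -/
noncomputable def c (α : ℝ) : ℕ → ℝ
  | 0 => 1
  | (m + 1) => (∑ k : Fin (m + 1),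
      ((1 + α) * ((k : ℕ) + 1) - (m + 1)) * b α ((k : ℕ) + 1) * c α (m - (k : ℕ))) / (m + 1)
termination_by m => m
decreasing_by omega

/-- The value of the coefficient problem: `A_n(α) = c_{n-1}`. -/
noncomputable def A (α : ℝ) (n : ℕ) : ℝ := c α (n - 1)

end Pool.Agent.Helper59.AC
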