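import Mathlib

/-! Taylor coefficients at the origin: calculus and estimates. -/

open Complex Metric Set Filter Topology Finset
open scoped Nat

noncomputable section

namespace Pool.Agent.Helper59.AC

/-- The `n`-th Taylor coefficient of `f` at the origin. -/
def cf (f : ℂ → ℂ) (n : ℕ) : ℂ := iteratedDeriv n f 0 / (n ! : ℂ)

lemma cf_zero (f : ℂ → ℂ) : cf f 0 = f 0 := by simp [cf]

lemma cf_one (f : ℂ → ℂ) : cf f 1 = deriv f 0 := by simp [cf]

lemma cf_congr {f g : ℂ → ℂ} (h : f =ᶠ[𝓝 0] g) (n : ℕ) : cf f n = cf g n := by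
  simp only [cf, h.iteratedDeriv_eq n]

lemma cf_add {f g : ℂ → ℂ} (hf : AnalyticAt ℂ f 0) (hg : AnalyticAt ℂ g 0) (n : ℕ) :
    cf (fun z => f z + g z) n = cf f n + cf g n := by
  have := iteratedDeriv_add (n := n) (x := (0:ℂ)) hf.contDiffAt hg.contDiffAt
  simp only [cf]
  rw [← add_div]
  congr 1

lemma cf_const_mul (c : ℂ) (f : ℂ → ℂ) (n : ℕ) :
    cf (fun z => c * f z) n = c * cf f n := by
  simp only [cf, iteratedDeriv_const_mul_field, mul_div_assoc]

lemma cf_sum {ι : Type*} (s : Finset ι) {f : ι → ℂ → ℂ} (hf : ∀ i ∈ s, AnalyticAt ℂ (f i) 0)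
    (n : ℕ) : cf (fun z => ∑ i ∈ s, f i z) n = ∑ i ∈ s, cf (f i) n := by
  simp only [cf]
  rw [iteratedDeriv_fun_sum (fun i hi => (hf i hi).contDiffAt), Finset.sum_div]

lemma cf_mul {f g : ℂ → ℂ} (hf : AnalyticAt ℂ f 0) (hg : AnalyticAt ℂ g 0) (n : ℕ) :
    cf (fun z => f z * g z) n = ∑ k ∈ range (n + 1), cf f k * cf g (n - k) := by
  simp only [cf]
  rw [iteratedDeriv_fun_mul hf.contDiffAt hg.contDiffAt, Finset.sum_div]
  apply Finset.sum_congr rfl
  intro k hk
  have hk' : k ≤ n := Nat.lt_succ_iff.1 (Finset.mem_range.1 hk)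
  have h1 : ((n.choose k : ℕ) : ℂ) * (k ! : ℂ) * ((n - k) ! : ℂ) = (n ! : ℂ) := by
    exact_mod_cast Nat.choose_mul_factorial_mul_factorial hk'
  have h2 : (n ! : ℂ) ≠ 0 := by exact_mod_cast Nat.factorial_ne_zero n
  have h3 : (k ! : ℂ) ≠ 0 := by exact_mod_cast Nat.factorial_ne_zero k
  have h4 : ((n - k) ! : ℂ) ≠ 0 := by exact_mod_cast Nat.factorial_ne_zero (n - k)
  rw [← h1]
  have h5 : ((n.choose k : ℕ) : ℂ) ≠ 0 := by
    exact_mod_cast (Nat.choose_pos hk').ne'
  field_simp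

lemma cf_deriv (f : ℂ → ℂ) (n : ℕ) : cf (deriv f) n = (n + 1) * cf f (n + 1) := by
  simp only [cf]
  rw [← iteratedDeriv_succ']
  have h2 : (n ! : ℂ) ≠ 0 := by exact_mod_cast Nat.factorial_ne_zero n
  have h3 : ((n : ℂ) + 1) ≠ 0 := by exact_mod_cast Nat.succ_ne_zero n
  rw [Nat.factorial_succ]
  push_cast
  field_simp

lemma cf_pow (k n : ℕ) : cf (fun z : ℂ => z ^ k) n = if n = k then 1 else 0 := by
  simp only [cf]
  rw [iteratedDeriv_fun_pow_zero]
  split_ifs with h
  · subst h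
    have h2 : (n ! : ℂ) ≠ 0 := by exact_mod_cast Nat.factorial_ne_zero n
    exact div_self h2
  · simp

lemma analyticAt_pow (k : ℕ) : AnalyticAt ℂ (fun z : ℂ => z ^ k) 0 :=
  analyticAt_id.pow k

lemma cf_pow_mul_of_le {g : ℂ → ℂ} (hg : AnalyticAt ℂ g 0) {k n : ℕ} (h : k ≤ n) :
    cf (fun z => z ^ k * g z) n = cf g (n - k) := by
  rw [cf_mul (analyticAt_pow k) hg, Finset.sum_eq_single k]
  · simp [cf_pow]
  · intro b _ hb
    simp [cf_pow, hb]
  · intro hk
    exact absurd (Finset.mem_range.2 (Nat.lt_succ_of_le h)) hk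

lemma cf_pow_mul_of_lt {g : ℂ → ℂ} (hg : AnalyticAt ℂ g 0) {k n : ℕ} (h : n < k) :
    cf (fun z => z ^ k * g z) n = 0 := by
  rw [cf_mul (analyticAt_pow k) hg]
  apply Finset.sum_eq_zero
  intro b hb
  have hb' : b ≠ k := by
    have := Finset.mem_range.1 hb
    omega
  simp [cf_pow, hb']

lemma cf_id_mul {g : ℂ → ℂ} (hg : AnalyticAt ℂ g 0) (n : ℕ) :
    cf (fun z => z * g z) (n + 1) = cf g n := by
  have := cf_pow_mul_of_le hg (k := 1) (n := n + 1) (by omega)
  simpa using this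

/-- Recursion for the coefficients of a solution of `z u' = c u`, `c 0 = 0`. -/
lemma cf_rec {u c : ℂ → ℂ} (hu : AnalyticAt ℂ u 0) (hc : AnalyticAt ℂ c 0) (hc0 : c 0 = 0)
    (h : (fun z => z * deriv u z) =ᶠ[𝓝 0] fun z => c z * u z) (n : ℕ) :
    ((n : ℂ) + 1) * cf u (n + 1) = ∑ k ∈ range (n + 1), cf c (k + 1) * cf u (n - k) := by
  have h1 := cf_congr h (n + 1)
  rw [cf_id_mul hu.deriv, cf_deriv, cf_mul hc hu, Finset.sum_range_succ'] at h1
  rw [h1, cf_zero c, hc0, zero_mul, add_zero]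
  apply Finset.sum_congr rfl
  intro k _
  congr 2
  omega

/-! ### circle averages -/

open Real (circleAverage) in
lemma circleAverage_inv_pow {r : ℝ} (hr : 0 < r) (k : ℕ) :
    circleAverage (fun z : ℂ => (z ^ (k + 1))⁻¹) 0 r = 0 := by
  have h0 : circleAverage (fun z : ℂ => z ^ (k + 1)) 0 r = 0 := by
    have := DiffContOnCl.circleAverage (f := fun z : ℂ => z ^ (k + 1)) (c := 0) (R := r)
      (Differentiable.diffContOnCl (by fun_prop))
    rw [this]; simp
  rw [Real.circleAverage] at h0 ⊢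
  have h1 : (∫ θ in (0:ℝ)..2 * Real.pi, (circleMap 0 r θ) ^ (k + 1)) = 0 := by
    rcases smul_eq_zero.1 h0 with h | h
    · exfalso
      have : (2 * Real.pi)⁻¹ ≠ 0 := by positivity
      exact this h
    · exact h
  have h2 : ∀ θ : ℝ, ((circleMap 0 r θ) ^ (k + 1))⁻¹ =
      (((r ^ 2) ^ (k + 1) : ℝ) : ℂ)⁻¹ * (starRingEnd ℂ) ((circleMap 0 r θ) ^ (k + 1)) := by
    intro θ
    have hne : circleMap 0 r θ ≠ 0 := by
      simpa using (circleMap_ne_center (c := 0) (R := r) (θ := θ) hr.ne')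
    have hn : (starRingEnd ℂ) (circleMap 0 r θ) * circleMap 0 r θ = ((r ^ 2 : ℝ) : ℂ) := by
      rw [mul_comm, Complex.mul_conj, Complex.normSq_eq_norm_sq]
      congr 2
      simp [abs_of_pos hr]
    rw [map_pow]
    have h3 : ((circleMap 0 r θ) ^ (k + 1)) * (((starRingEnd ℂ) (circleMap 0 r θ)) ^ (k + 1)) =
        (((r ^ 2) ^ (k + 1) : ℝ) : ℂ) := by
      rw [← mul_pow, mul_comm, hn]; push_cast; ring
    have h4 : ((((r ^ 2) ^ (k + 1) : ℝ)) : ℂ) ≠ 0 := by
      have : ((r ^ 2) ^ (k + 1) : ℝ) ≠ 0 := by positivity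
      exact_mod_cast this
    have h5 : (circleMap 0 r θ) ^ (k + 1) ≠ 0 := pow_ne_zero _ hne
    field_simp
    rw [← h3]
  simp only [h2]
  rw [intervalIntegral.integral_const_mul]
  have h3 : (∫ θ in (0:ℝ)..2 * Real.pi, (starRingEnd ℂ) ((circleMap 0 r θ) ^ (k + 1))) = 0 := by
    have := intervalIntegral.intervalIntegral_eq_integral_uIoc
      (fun θ => (starRingEnd ℂ) ((circleMap 0 r θ) ^ (k + 1))) 0 (2 * Real.pi) MeasureTheory.volume
    rw [intervalIntegral.integral_of_le (by positivity)]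
    rw [intervalIntegral.integral_of_le (by positivity)] at h1
    rw [integral_conj, h1]
    simp
  rw [h3]; simp

lemma circleAverage_conj (f : ℂ → ℂ) (r : ℝ) :
    Real.circleAverage (fun z => (starRingEnd ℂ) (f z)) 0 r =
      (starRingEnd ℂ) (Real.circleAverage f 0 r) := by
  rw [Real.circleAverage, Real.circleAverage]
  rw [intervalIntegral.integral_of_le (by positivity),
    intervalIntegral.integral_of_le (by positivity), integral_conj]
  simp only [Complex.real_smul, map_mul, Complex.conj_ofReal]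

/-- divided difference at the origin -/
lemma dslope_differentiableOn {f : ℂ → ℂ} {R : ℝ} (hR : 0 < R)
    (hf : DifferentiableOn ℂ f (ball 0 R)) : DifferentiableOn ℂ (dslope f 0) (ball 0 R) :=
  (Complex.differentiableOn_dslope (isOpen_ball.mem_nhds (mem_ball_self hR))).2 hf

lemma analyticAt_of_ball {f : ℂ → ℂ} {R : ℝ} (hR : 0 < R)
    (hf : DifferentiableOn ℂ f (ball 0 R)) : AnalyticAt ℂ f 0 :=
  hf.analyticAt (isOpen_ball.mem_nhds (mem_ball_self hR))

lemma eq_add_mul_dslope (f : ℂ → ℂ) (z : ℂ) : f z = f 0 + z * dslope f 0 z := by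
  have := sub_smul_dslope f 0 z
  simp only [sub_zero, smul_eq_mul] at this
  rw [this]; ring

lemma cf_dslope {f : ℂ → ℂ} {R : ℝ} (hR : 0 < R) (hf : DifferentiableOn ℂ f (ball 0 R)) (n : ℕ) :
    cf (dslope f 0) n = cf f (n + 1) := by
  have hd := analyticAt_of_ball hR (dslope_differentiableOn hR hf)
  have h1 : f = fun z => f 0 * z ^ 0 + z * dslope f 0 z := by
    funext z; simpa using eq_add_mul_dslope f z
  have h2 : cf f (n + 1) = cf (fun z => f 0 * z ^ 0 + z * dslope f 0 z) (n + 1) :=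
    congrArg (fun g => cf g (n + 1)) h1
  rw [cf_add (f := fun z => f 0 * z ^ 0) (g := fun z => z * dslope f 0 z)
    (analyticAt_const.mul (analyticAt_pow 0)) (analyticAt_id.mul hd), cf_const_mul,
    cf_pow, cf_id_mul hd] at h2
  simp at h2
  exact h2.symm

lemma cf_circle {R : ℝ} (n : ℕ) : ∀ {u : ℂ → ℂ}, DifferentiableOn ℂ u (ball 0 R) → ∀ {r : ℝ},
    0 < r → r < R → Real.circleAverage (fun z => (z ^ n)⁻¹ * u z) 0 r = cf u n := by
  induction n with
  | zero =>
    intro u hu r hr hrR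
    have := DiffContOnCl.circleAverage (f := u) (c := 0) (R := r)
      ((hu.diffContOnCl_ball (by rw [abs_of_pos hr]; exact closedBall_subset_ball hrR)))
    simpa [cf_zero] using this
  | succ n ih =>
    intro u hu r hr hrR
    have hR : 0 < R := hr.trans hrR
    have hd := dslope_differentiableOn hR hu
    rw [← cf_dslope hR hu n, ← ih hd hr hrR]
    have hint : ∀ (g : ℂ → ℂ), ContinuousOn g (sphere 0 r) → ∀ k : ℕ,
        CircleIntegrable (fun z => (z ^ k)⁻¹ * g z) 0 r := by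
      intro g hg k
      apply ContinuousOn.circleIntegrable hr.le
      apply ContinuousOn.mul _ hg
      apply ContinuousOn.inv₀ (by fun_prop)
      intro z hz
      apply pow_ne_zero
      intro h0
      rw [h0] at hz
      simp at hz
      exact hr.ne hz
    have hsub : sphere (0:ℂ) r ⊆ ball 0 R := sphere_subset_closedBall.trans
      (closedBall_subset_ball hrR)
    have e1 : Real.circleAverage (fun z => (z ^ (n + 1))⁻¹ * u z) 0 r =
        Real.circleAverage ((fun z => (z ^ (n + 1))⁻¹ * (fun _ => u 0) z) +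
          (fun z => (z ^ n)⁻¹ * dslope u 0 z)) 0 r := by
      apply Real.circleAverage_congr_sphere
      intro z hz
      have hz0 : z ≠ 0 := by
        intro h0
        rw [h0, abs_of_pos hr] at hz
        simp at hz
        exact hr.ne hz
      simp only [Pi.add_apply]
      rw [eq_add_mul_dslope u z]
      rw [mul_add]
      congr 1
      rw [pow_succ]
      field_simp
    rw [e1, Real.circleAverage_add (hint _ continuousOn_const _)
      (hint _ ((hd.continuousOn).mono hsub) _)]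
    have e2 : Real.circleAverage (fun z : ℂ => (z ^ (n + 1))⁻¹ * (fun _ => u 0) z) 0 r = 0 := by
      have e3 : (fun z : ℂ => (z ^ (n + 1))⁻¹ * (fun _ => u 0) z) =
          fun z : ℂ => (u 0) • (z ^ (n + 1))⁻¹ := by
        funext z; simp [mul_comm]
      rw [e3, Real.circleAverage_fun_smul, circleAverage_inv_pow hr, smul_zero]
    rw [e2, zero_add]

end Pool.Agent.Helper59.AC
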