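import Pool.Agent.Helper59.ACa

/-! Coefficient estimates: Caratheodory, square roots of starlike functions, Cesaro type bound. -/

open Complex Metric Set Filter Topology Finset

noncomputable section

namespace Pool.Agent.Helper59.AC

lemma norm_circleAverage_le (f : ℂ → ℂ) (r : ℝ) :
    ‖Real.circleAverage f 0 r‖ ≤ Real.circleAverage (fun z => ‖f z‖) 0 r := by
  rw [Real.circleAverage, Real.circleAverage, norm_smul, smul_eq_mul]
  have h1 : ‖(2 * Real.pi)⁻¹‖ = (2 * Real.pi)⁻¹ := by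
    rw [Real.norm_eq_abs, abs_of_pos (by positivity)]
  rw [h1]
  gcongr
  exact intervalIntegral.norm_integral_le_integral_norm (by positivity)

lemma sphere_ne_zero {r : ℝ} (hr : 0 < r) {z : ℂ} (hz : z ∈ sphere (0:ℂ) |r|) : z ≠ 0 ∧ ‖z‖ = r := by
  rw [abs_of_pos hr] at hz
  have : ‖z‖ = r := by simpa using hz
  refine ⟨?_, this⟩
  intro h0
  rw [h0, norm_zero] at this
  exact hr.ne this

/-- Caratheodory's coefficient bound. -/
lemma caratheodory {q : ℂ → ℂ} (hq : DifferentiableOn ℂ q (ball 0 1)) (h0 : q 0 = 1)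
    (hre : ∀ z ∈ ball (0:ℂ) 1, 0 ≤ (q z).re) (k : ℕ) : ‖cf q (k + 1)‖ ≤ 2 := by
  have key : ∀ r : ℝ, 0 < r → r < 1 → r ^ (k + 1) * ‖cf q (k + 1)‖ ≤ 2 := by
    intro r hr hr1
    have hsub : closedBall (0:ℂ) r ⊆ ball 0 1 := closedBall_subset_ball hr1
    have hsub' : sphere (0:ℂ) r ⊆ ball 0 1 := sphere_subset_closedBall.trans hsub
    have hcont : ContinuousOn q (sphere 0 r) := hq.continuousOn.mono hsub'
    have hdc : DiffContOnCl ℂ q (ball 0 |r|) := by
      rw [abs_of_pos hr]; exact hq.diffContOnCl_ball hsub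
    have e0 : Real.circleAverage (fun z => z ^ (k + 1) * q z) 0 r = 0 := by
      have h1 : DiffContOnCl ℂ (fun z => z ^ (k + 1) * q z) (ball 0 |r|) := by
        rw [abs_of_pos hr]
        apply DifferentiableOn.diffContOnCl_ball (U := ball 0 1) _ hsub
        exact (differentiable_pow (k + 1)).differentiableOn.mul hq
      have := DiffContOnCl.circleAverage h1
      rw [this]; simp
    have e1 : Real.circleAverage (fun z => (z ^ (k + 1))⁻¹ * (starRingEnd ℂ) (q z)) 0 r = 0 := by
      have h1 : Real.circleAverage (fun z => (z ^ (k + 1))⁻¹ * (starRingEnd ℂ) (q z)) 0 r =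
          Real.circleAverage (fun z => ((r ^ 2 : ℝ) ^ (k + 1))⁻¹ •
            (starRingEnd ℂ) (z ^ (k + 1) * q z)) 0 r := by
        apply Real.circleAverage_congr_sphere
        intro z hz
        obtain ⟨hz0, hzr⟩ := sphere_ne_zero hr hz
        simp only [map_mul, map_pow]
        have h2 : (starRingEnd ℂ) z = ((r ^ 2 : ℝ) : ℂ) * z⁻¹ := by
          have := Complex.mul_conj z
          rw [Complex.normSq_eq_norm_sq, hzr] at this
          rw [← this]; field_simp
        rw [h2, Complex.real_smul]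
        have h3 : ((r ^ 2 : ℝ) : ℂ) ≠ 0 := by
          have : (r ^ 2 : ℝ) ≠ 0 := by positivity
          exact_mod_cast this
        have h4 : (z ^ (k + 1))⁻¹ = (z⁻¹) ^ (k + 1) := by rw [inv_pow]
        rw [h4, mul_pow]
        push_cast
        push_cast at h3
        have h5 : ((r : ℂ) ^ 2) ^ (k + 1) ≠ 0 := pow_ne_zero _ h3
        field_simp
      rw [h1, Real.circleAverage_fun_smul, circleAverage_conj, e0]
      simp
    have e2 := cf_circle (k + 1) hq hr hr1
    have hi : ∀ (g : ℂ → ℂ), ContinuousOn g (sphere 0 r) →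
        CircleIntegrable (fun z => (z ^ (k + 1))⁻¹ * g z) 0 r := by
      intro g hg
      apply ContinuousOn.circleIntegrable hr.le
      apply ContinuousOn.mul _ hg
      apply ContinuousOn.inv₀ (by fun_prop)
      intro z hz
      apply pow_ne_zero
      exact (sphere_ne_zero hr (by rwa [abs_of_pos hr])).1
    have hconj : ContinuousOn (fun z => (starRingEnd ℂ) (q z)) (sphere 0 r) :=
      (Complex.continuous_conj.comp_continuousOn hcont)
    have e3 : Real.circleAverage (fun z => (z ^ (k + 1))⁻¹ * (2 * ((q z).re : ℂ))) 0 r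
        = cf q (k + 1) := by
      have h1 : (fun z => (z ^ (k + 1))⁻¹ * (2 * ((q z).re : ℂ))) =
          (fun z => (z ^ (k + 1))⁻¹ * q z) + (fun z => (z ^ (k + 1))⁻¹ * (starRingEnd ℂ) (q z)) := by
        funext z
        simp only [Pi.add_apply]
        rw [← mul_add]
        congr 1
        rw [Complex.add_conj]
        push_cast; ring
      rw [h1, Real.circleAverage_add (hi _ hcont) (hi _ hconj), e1, e2, add_zero]
    have e4 : Real.circleAverage (fun z => (q z).re) 0 r = 1 := by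
      have h1 := DiffContOnCl.circleAverage hdc
      have h2 := ContinuousLinearMap.circleAverage_comp_comm (c := (0:ℂ)) (R := r) (f := q)
        Complex.reCLM (hcont.circleIntegrable hr.le)
      have h3 : (Complex.reCLM ∘ q) = fun z => (q z).re := rfl
      rw [h3] at h2
      rw [h2, h1, h0]
      simp
    have e5 : ‖cf q (k + 1)‖ ≤ (r ^ (k + 1))⁻¹ * 2 := by
      rw [← e3]
      refine (norm_circleAverage_le _ _).trans ?_
      have h1 : Real.circleAverage (fun z => ‖(z ^ (k + 1))⁻¹ * (2 * ((q z).re : ℂ))‖) 0 r =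
          Real.circleAverage (fun z => ((r ^ (k + 1))⁻¹ * 2) • (q z).re) 0 r := by
        apply Real.circleAverage_congr_sphere
        intro z hz
        obtain ⟨hz0, hzr⟩ := sphere_ne_zero hr hz
        have hz1 : z ∈ ball (0:ℂ) 1 := by
          rw [mem_ball_zero_iff, hzr]; exact hr1
        simp only [norm_mul, norm_inv, norm_pow, hzr, smul_eq_mul]
        rw [Complex.norm_real, Real.norm_eq_abs, abs_of_nonneg (hre z hz1)]
        simp
        ring
      rw [h1, Real.circleAverage_fun_smul, e4]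
      simp
    have hp : 0 < r ^ (k + 1) := by positivity
    calc r ^ (k + 1) * ‖cf q (k + 1)‖ ≤ r ^ (k + 1) * ((r ^ (k + 1))⁻¹ * 2) := by gcongr
      _ = 2 := by field_simp
  have hlim : Tendsto (fun r : ℝ => r ^ (k + 1) * ‖cf q (k + 1)‖) (𝓝[<] 1)
      (𝓝 (1 ^ (k + 1) * ‖cf q (k + 1)‖)) := by
    apply Tendsto.mono_left _ nhdsWithin_le_nhds
    apply Continuous.tendsto
    fun_prop
  rw [one_pow, one_mul] at hlim
  refine le_of_tendsto hlim ?_
  filter_upwards [Ioo_mem_nhdsLT (show (0:ℝ) < 1 by norm_num)] with r hr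
  exact key r hr.1 hr.2

/-- coefficients of a solution of `z y' = (q-1)/2 y` -/
lemma norm_cf_le_one {q y : ℂ → ℂ} (hq : DifferentiableOn ℂ q (ball 0 1)) (h0 : q 0 = 1)
    (hre : ∀ z ∈ ball (0:ℂ) 1, 0 ≤ (q z).re) (hy : AnalyticAt ℂ y 0) (hy0 : y 0 = 1)
    (h : (fun z => z * deriv y z) =ᶠ[𝓝 0] fun z => (q z - 1) / 2 * y z) (n : ℕ) :
    ‖cf y n‖ ≤ 1 := by
  have hqa : AnalyticAt ℂ q 0 := analyticAt_of_ball one_pos hq
  set c : ℂ → ℂ := fun z => (q z - 1) / 2 with hc
  have hca : AnalyticAt ℂ c 0 := (hqa.sub analyticAt_const).div_const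
  have hc0 : c 0 = 0 := by simp [hc, h0]
  have hck : ∀ k, cf c (k + 1) = cf q (k + 1) / 2 := by
    intro k
    have h1 : c = fun z => (fun z => (1/2 : ℂ) * q z) z + (fun z => (-(1/2) : ℂ) * z ^ 0) z := by
      funext z; simp [hc]; ring
    rw [h1, cf_add (f := fun z => (1/2 : ℂ) * q z) (g := fun z => (-(1/2) : ℂ) * z ^ 0)
      (analyticAt_const.mul hqa) (analyticAt_const.mul (analyticAt_pow 0)),
      cf_const_mul, cf_const_mul, cf_pow]
    simp; ring
  have hrec := cf_rec hy hca hc0 h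
  induction n using Nat.strong_induction_on with
  | _ n ih =>
    rcases n with _ | n
    · rw [cf_zero, hy0]; simp
    · have h1 := hrec n
      have h2 : ‖((n : ℂ) + 1) * cf y (n + 1)‖ ≤ (n : ℝ) + 1 := by
        rw [h1]
        refine (norm_sum_le _ _).trans ?_
        calc ∑ k ∈ range (n + 1), ‖cf c (k + 1) * cf y (n - k)‖ ≤ ∑ k ∈ range (n + 1), (1:ℝ) := by
              apply Finset.sum_le_sum
              intro k hk
              rw [norm_mul, hck, norm_div]
              have h3 := caratheodory hq h0 hre k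
              have h4 := ih (n - k) (by omega)
              have h5 : ‖(2:ℂ)‖ = 2 := by simp
              rw [h5]
              have : ‖cf q (k + 1)‖ / 2 ≤ 1 := by linarith
              calc ‖cf q (k + 1)‖ / 2 * ‖cf y (n - k)‖ ≤ 1 * 1 := by gcongr
                _ = 1 := by norm_num
          _ = (n : ℝ) + 1 := by simp
      rw [norm_mul] at h2
      have h3 : ‖((n : ℂ) + 1)‖ = (n : ℝ) + 1 := by
        have : ((n : ℂ) + 1) = (((n : ℝ) + 1 : ℝ) : ℂ) := by push_cast; ring
        rw [this, Complex.norm_real, Real.norm_eq_abs, abs_of_pos (by positivity)]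
      rw [h3] at h2
      have h4 : (0:ℝ) < (n : ℝ) + 1 := by positivity
      nlinarith

/-- Taylor expansion with analytic remainder. -/
lemma taylor_rem {R : ℝ} (hR : 0 < R) (N : ℕ) : ∀ {u : ℂ → ℂ}, DifferentiableOn ℂ u (ball 0 R) →
    ∃ ρ : ℂ → ℂ, DifferentiableOn ℂ ρ (ball 0 R) ∧
      ∀ z, u z = (∑ k ∈ range N, cf u k * z ^ k) + z ^ N * ρ z := by
  induction N with
  | zero =>
    intro u hu
    exact ⟨u, hu, fun z => by simp⟩
  | succ N ih =>
    intro u hu
    obtain ⟨ρ, hρ, h⟩ := ih (dslope_differentiableOn hR hu)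
    refine ⟨ρ, hρ, fun z => ?_⟩
    rw [eq_add_mul_dslope u z, h z, Finset.sum_range_succ']
    simp only [cf_dslope hR hu, cf_zero, pow_zero, mul_one]
    rw [mul_add, Finset.mul_sum]
    have : ∀ k, z * (cf u (k + 1) * z ^ k) = cf u (k + 1) * z ^ (k + 1) := fun k => by ring
    simp only [this]
    ring

/-- Parseval for polynomials on a circle of radius `r`. -/
lemma parseval_poly (N : ℕ) (a : ℕ → ℂ) {r : ℝ} (hr : 0 < r) :
    Real.circleAverage (fun z => ‖∑ k ∈ range N, a k * z ^ k‖ ^ 2) 0 r =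
      ∑ k ∈ range N, ‖a k‖ ^ 2 * (r ^ k) ^ 2 := by
  rw [Real.circleAverage_eq_circleAverage_zero_one]
  set p : Polynomial ℂ := ∑ k ∈ range N, Polynomial.monomial k (a k * (r:ℂ) ^ k) with hp
  have h1 : ∀ z : ℂ, p.eval z = ∑ k ∈ range N, a k * ((r : ℂ) * z + 0) ^ k := by
    intro z
    rw [hp, Polynomial.eval_finsetSum]
    apply Finset.sum_congr rfl
    intro k _
    rw [Polynomial.eval_monomial, add_zero, mul_pow, mul_assoc]
  have h2 := Polynomial.sum_sq_norm_coeff_eq_circleAverage (p := p)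
  have h3 : ∀ k, p.coeff k = if k ∈ range N then a k * (r:ℂ) ^ k else 0 := by
    intro k
    rw [hp, Polynomial.finsetSum_coeff]
    simp only [Polynomial.coeff_monomial]
    rw [Finset.sum_ite_eq']
  have h4 : ∑ i ∈ p.support, ‖p.coeff i‖ ^ 2 = ∑ k ∈ range N, ‖a k‖ ^ 2 * (r ^ k) ^ 2 := by
    rw [Finset.sum_subset (s₂ := range N)]
    · apply Finset.sum_congr rfl
      intro k hk
      rw [h3, if_pos hk, norm_mul, norm_pow, Complex.norm_real, Real.norm_eq_abs, abs_of_pos hr,
        mul_pow]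
    · intro k hk
      by_contra h
      rw [Polynomial.mem_support_iff, h3, if_neg h] at hk
      exact hk rfl
    · intro k _ hk
      rw [Polynomial.notMem_support_iff] at hk
      rw [hk]; simp
  rw [← h4, h2]
  congr 1
  funext z
  simp only [h1]

/-- The Cesaro type bound. -/
lemma norm_cf_sq_mul_le {S r C : ℝ} (hr : 0 < r) (hrS : r < S) (hr1 : r ≤ 1)
    {y φ : ℂ → ℂ} (hy : DifferentiableOn ℂ y (ball 0 S)) (hφ : DifferentiableOn ℂ φ (ball 0 S))
    (hy1 : ∀ j, ‖cf y j‖ ≤ 1) (hC : ∀ z ∈ ball (0:ℂ) S, ‖φ z‖ ≤ C) (N : ℕ) :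
    ‖cf (fun z => y z ^ 2 * φ z) N‖ ≤ (r ^ N)⁻¹ * (C * (N + 1)) := by
  have hS : 0 < S := hr.trans hrS
  obtain ⟨ρ, hρ, hyρ⟩ := taylor_rem hS (N + 1) hy
  set Y : ℂ → ℂ := fun z => ∑ k ∈ range (N + 1), cf y k * z ^ k with hY
  have hYd : Differentiable ℂ Y := by
    rw [hY]
    fun_prop
  have hya := analyticAt_of_ball hS hy
  have hφa := analyticAt_of_ball hS hφ
  have hρa := analyticAt_of_ball hS hρ
  have hYa : AnalyticAt ℂ Y 0 := hYd.analyticAt 0
  have hC0 : 0 ≤ C := (norm_nonneg _).trans (hC 0 (mem_ball_self hS))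
  have e1 : cf (fun z => y z ^ 2 * φ z) N = cf (fun z => Y z ^ 2 * φ z) N := by
    have h1 : (fun z => y z ^ 2 * φ z) = fun z => (fun z => Y z ^ 2 * φ z) z +
        (fun z => z ^ (N + 1) * ((fun z => ρ z * (y z + Y z) * φ z) z)) z := by
      funext z
      simp only
      have h2 : y z = Y z + z ^ (N + 1) * ρ z := hyρ z
      have h3 : y z ^ 2 - Y z ^ 2 = z ^ (N + 1) * (ρ z * (y z + Y z)) := by
        have : y z - Y z = z ^ (N + 1) * ρ z := by rw [h2]; ring
        calc y z ^ 2 - Y z ^ 2 = (y z - Y z) * (y z + Y z) := by ring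
          _ = _ := by rw [this]; ring
      linear_combination φ z * h3
    rw [h1, cf_add, cf_pow_mul_of_lt _ (Nat.lt_succ_self N), add_zero]
    · exact (hρa.mul (hya.add hYa)).mul hφa
    · exact (hYa.pow 2).mul hφa
    · exact (analyticAt_pow (N + 1)).mul ((hρa.mul (hya.add hYa)).mul hφa)
  rw [e1, ← cf_circle N (R := S) (u := fun z => Y z ^ 2 * φ z)
    (((hYd.pow 2).differentiableOn).mul hφ) hr hrS]
  refine (norm_circleAverage_le _ _).trans ?_
  have hsub : sphere (0:ℂ) r ⊆ ball 0 S := sphere_subset_closedBall.trans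
    (closedBall_subset_ball hrS)
  have e2 : Real.circleAverage (fun z => ‖(z ^ N)⁻¹ * (Y z ^ 2 * φ z)‖) 0 r ≤
      Real.circleAverage (fun z => ((r ^ N)⁻¹ * C) • ‖Y z‖ ^ 2) 0 r := by
    apply Real.circleAverage_mono
    · apply ContinuousOn.circleIntegrable hr.le
      apply ContinuousOn.norm
      apply ContinuousOn.mul
      · apply ContinuousOn.inv₀ (by fun_prop)
        intro z hz
        exact pow_ne_zero _ (sphere_ne_zero hr (by rwa [abs_of_pos hr])).1
      · exact ((hYd.continuous.continuousOn).pow 2).mul (hφ.continuousOn.mono hsub)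
    · apply ContinuousOn.circleIntegrable hr.le
      have hc : Continuous (fun z => ((r ^ N)⁻¹ * C) • ‖Y z‖ ^ 2) := by
        have := hYd.continuous
        fun_prop
      exact hc.continuousOn
    · intro z hz
      obtain ⟨hz0, hzr⟩ := sphere_ne_zero hr hz
      have hzS : z ∈ ball (0:ℂ) S := by rw [mem_ball_zero_iff, hzr]; exact hrS
      rw [norm_mul, norm_mul, norm_inv, norm_pow, norm_pow, hzr, smul_eq_mul]
      have := hC z hzS
      calc (r ^ N)⁻¹ * (‖Y z‖ ^ 2 * ‖φ z‖) ≤ (r ^ N)⁻¹ * (‖Y z‖ ^ 2 * C) := by gcongr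
        _ = (r ^ N)⁻¹ * C * ‖Y z‖ ^ 2 := by ring
  refine e2.trans ?_
  rw [Real.circleAverage_fun_smul, smul_eq_mul, mul_assoc]
  gcongr
  have e3 := parseval_poly (N + 1) (cf y) hr
  rw [show (fun z => ‖Y z‖ ^ 2) = fun z => ‖∑ k ∈ range (N + 1), cf y k * z ^ k‖ ^ 2 from rfl, e3]
  calc ∑ k ∈ range (N + 1), ‖cf y k‖ ^ 2 * (r ^ k) ^ 2 ≤ ∑ k ∈ range (N + 1), (1:ℝ) := by
        apply Finset.sum_le_sum
        intro k _
        have h1 : ‖cf y k‖ ^ 2 ≤ 1 := pow_le_one₀ (norm_nonneg _) (hy1 k)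
        have h2 : (r ^ k) ^ 2 ≤ 1 := pow_le_one₀ (by positivity) (pow_le_one₀ hr.le hr1)
        calc ‖cf y k‖ ^ 2 * (r ^ k) ^ 2 ≤ 1 * 1 := by gcongr
          _ = 1 := by norm_num
    _ = (N : ℝ) + 1 := by simp

end Pool.Agent.Helper59.AC
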