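import Pool.Agent.Helper59.ACa
import Pool.Agent.Helper65.InvDisc

/-! Jack's lemma and the Briot-Bouquet subordination. -/

open Complex Metric Set Filter Topology

noncomputable section

namespace Pool.Agent.Helper59.AC

/-- Jack's lemma. -/
lemma jack {ω : ℂ → ℂ} {s : ℝ} (hω : DifferentiableOn ℂ ω (ball 0 s)) (h0 : ω 0 = 0)
    {z0 : ℂ} (hz : z0 ∈ ball (0:ℂ) s) (hz0 : z0 ≠ 0)
    (hmax : ∀ z, ‖z‖ ≤ ‖z0‖ → ‖ω z‖ ≤ ‖ω z0‖) (hne : ω z0 ≠ 0) :
    ∃ k : ℝ, 1 ≤ k ∧ z0 * deriv ω z0 = k * ω z0 := by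
  have hd : HasDerivAt ω (deriv ω z0) z0 :=
    ((hω z0 hz).differentiableAt (isOpen_ball.mem_nhds hz)).hasDerivAt
  set D := deriv ω z0 with hD
  -- tangential
  have ht : inner ℝ (ω z0) (D * (z0 * I)) = 0 := by
    have h1 : HasDerivAt (fun θ : ℝ => z0 * Complex.exp (θ * I)) (z0 * I) 0 := by
      have h2 : HasDerivAt (fun θ : ℝ => ((θ : ℂ) * I)) I 0 := by
        simpa using (Complex.ofRealCLM.hasDerivAt (x := (0:ℝ))).mul_const I
      have h3 := (h2.cexp).const_mul z0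
      simpa using h3
    have h4 : HasDerivAt (fun θ : ℝ => ω (z0 * Complex.exp (θ * I))) (D * (z0 * I)) 0 := by
      have h5 : HasDerivAt ω D (z0 * Complex.exp (((0:ℝ) : ℂ) * I)) := by simpa using hd
      exact h5.comp (0:ℝ) h1
    have h6 := h4.norm_sq
    have h7 : IsLocalMax (fun θ : ℝ => ‖ω (z0 * Complex.exp (θ * I))‖ ^ 2) 0 := by
      apply Filter.Eventually.of_forall
      intro θ
      have h8 : ‖z0 * Complex.exp ((θ:ℂ) * I)‖ ≤ ‖z0‖ := by
        rw [norm_mul, Complex.norm_exp_ofReal_mul_I, mul_one]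
      have h9 := hmax _ h8
      simp only [ofReal_zero, zero_mul, Complex.exp_zero, mul_one]
      gcongr
    have h10 := h7.hasDerivAt_eq_zero h6
    simp only [ofReal_zero, zero_mul, Complex.exp_zero, mul_one] at h10
    linarith
  -- radial
  have hr : ‖ω z0‖ ^ 2 ≤ inner ℝ (ω z0) (D * z0) := by
    have h1 : HasDerivAt (fun t : ℝ => ((t : ℂ) * z0)) z0 1 := by
      simpa using (Complex.ofRealCLM.hasDerivAt (x := (1:ℝ))).mul_const z0
    have h4 : HasDerivAt (fun t : ℝ => ω ((t : ℂ) * z0)) (D * z0) 1 := by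
      have h5 : HasDerivAt ω D (((1:ℝ) : ℂ) * z0) := by simpa using hd
      exact h5.comp (1:ℝ) h1
    have h6 := h4.norm_sq
    have h6' : HasDerivAt (fun t : ℝ => t ^ 2 * ‖ω z0‖ ^ 2) (2 * ‖ω z0‖ ^ 2) 1 := by
      simpa using (hasDerivAt_pow 2 (1:ℝ)).mul_const (‖ω z0‖ ^ 2)
    have h7 := h6.sub h6'
    have hle : ∀ t ∈ Icc (0:ℝ) 1, ‖ω ((t : ℂ) * z0)‖ ^ 2 - t ^ 2 * ‖ω z0‖ ^ 2 ≤ 0 := by
      intro t ht'
      rcases eq_or_lt_of_le ht'.2 with rfl | hlt
      · simp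
      · have hz0pos : 0 < ‖z0‖ := norm_pos_iff.2 hz0
        have h8 := Complex.dist_le_div_mul_dist_of_mapsTo_ball (f := ω) (c := 0) (R₁ := ‖z0‖)
          (R₂ := ‖ω z0‖) (z := (t : ℂ) * z0)
          (hω.mono (ball_subset_ball (le_of_lt (by simpa using hz)))) (by
            intro w hw
            rw [h0, mem_closedBall_zero_iff]
            exact hmax w (le_of_lt (by simpa using hw))) (by
            rw [mem_ball_zero_iff, norm_mul, Complex.norm_real, Real.norm_eq_abs,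
              abs_of_nonneg ht'.1]
            nlinarith)
        rw [h0, dist_zero_right, dist_zero_right, norm_mul, Complex.norm_real, Real.norm_eq_abs,
          abs_of_nonneg ht'.1] at h8
        have h9 : ‖ω z0‖ / ‖z0‖ * (t * ‖z0‖) = t * ‖ω z0‖ := by field_simp
        rw [h9] at h8
        have h10 : ‖ω ((t : ℂ) * z0)‖ ^ 2 ≤ (t * ‖ω z0‖) ^ 2 := by gcongr
        nlinarith
    by_contra hcon
    push Not at hcon
    have hneg : 2 * inner ℝ (ω (((1:ℝ) : ℂ) * z0)) (D * z0) - 2 * ‖ω z0‖ ^ 2 < 0 := by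
      simp only [ofReal_one, one_mul]
      linarith
    have h8 := h7.hasDerivWithinAt (s := Iio 1)
    have h9 := (hasDerivWithinAt_iff_tendsto_slope.1 h8).eventually_lt_const hneg
    simp only [sdiff_singleton_eq_self (show (1:ℝ) ∉ Iio 1 by simp)] at h9
    have h10 : Ioo (0:ℝ) 1 ∈ 𝓝[Iio 1] (1:ℝ) := Ioo_mem_nhdsLT (by norm_num)
    obtain ⟨t, h11, h12⟩ := (h9.and h10).exists
    rw [slope_def_field] at h11
    have h13 := hle t ⟨h12.1.le, h12.2.le⟩
    simp only [Pi.sub_apply, ofReal_one, one_mul, one_pow, sub_self, sub_zero] at h11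
    have h14 : (‖ω ((t : ℂ) * z0)‖ ^ 2 - t ^ 2 * ‖ω z0‖ ^ 2) / (t - 1) < 0 := by
      simpa using h11
    have h15 : t - 1 < 0 := by linarith [h12.2]
    rw [div_lt_iff_of_neg h15] at h14
    linarith
  have hn : 0 < ‖ω z0‖ := norm_pos_iff.2 hne
  -- z0 D / ω z0 is real
  set x := z0 * D / ω z0 with hx
  have hxe : z0 * D = x * ω z0 := by rw [hx]; field_simp
  have h1 : inner ℝ (ω z0) (D * z0) = x.re * ‖ω z0‖ ^ 2 := by
    rw [mul_comm D z0, hxe, Complex.inner]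
    rw [show (x * ω z0) * (starRingEnd ℂ) (ω z0) = x * (ω z0 * (starRingEnd ℂ) (ω z0)) by ring,
      Complex.mul_conj, Complex.normSq_eq_norm_sq, Complex.re_mul_ofReal]
  have h2 : inner ℝ (ω z0) (D * (z0 * I)) = - x.im * ‖ω z0‖ ^ 2 := by
    rw [show D * (z0 * I) = (z0 * D) * I by ring, hxe, Complex.inner]
    rw [show (x * ω z0 * I) * (starRingEnd ℂ) (ω z0) = (x * I) * (ω z0 * (starRingEnd ℂ) (ω z0)) by
      ring, Complex.mul_conj, Complex.normSq_eq_norm_sq, Complex.re_mul_ofReal]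
    simp
  have hn2 : 0 < ‖ω z0‖ ^ 2 := by positivity
  have him : x.im = 0 := by
    rw [h2] at ht
    have := mul_eq_zero.1 ht
    rcases this with h | h
    · linarith
    · exact absurd h hn2.ne'
  refine ⟨x.re, ?_, ?_⟩
  · rw [h1] at hr
    by_contra hcon
    push Not at hcon
    nlinarith
  · have : (x.re : ℂ) = x := by
      apply Complex.ext <;> simp [him]
    rw [this]; exact hxe

/-- The data of the extremal Briot-Bouquet solution. -/
structure PData (α : ℝ) (P : ℂ → ℂ) : Prop where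
  diff : DifferentiableOn ℂ P (ball 0 1)
  zero : P 0 = 1
  re_pos : ∀ z ∈ ball (0:ℂ) 1, 0 < (P z).re
  ode : ∀ z ∈ ball (0:ℂ) 1, P z + α * (z * deriv P z) / P z = (1 + z) / (1 - z)
  deriv_ne : ∀ z ∈ ball (0:ℂ) 1, deriv P z ≠ 0
  large : ∀ M : ℝ, ∃ ε > 0, ∀ z ∈ ball (0:ℂ) 1, ‖z - 1‖ < ε → M < ‖P z‖
  away : ∀ ε > 0, ∃ c > 0, ∀ z ∈ ball (0:ℂ) 1, ε ≤ ‖z - 1‖ → c ≤ (P z).re

/-- `ω` is a solution of `P ∘ ω = p` on the disc of radius `s` -/
def IsSub (P p ω : ℂ → ℂ) (s : ℝ) : Prop :=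
  DifferentiableOn ℂ ω (ball 0 s) ∧ ω 0 = 0 ∧ MapsTo ω (ball 0 s) (ball 0 1) ∧
    ∀ z ∈ ball (0:ℂ) s, P (ω z) = p z

lemma re_cayley {z : ℂ} (hz : z ≠ 1) : ((1 + z) / (1 - z)).re = (1 - ‖z‖ ^ 2) / ‖z - 1‖ ^ 2 := by
  have h1 : (1 : ℂ) - z ≠ 0 := sub_ne_zero.2 (Ne.symm hz)
  rw [Complex.div_re, ← Complex.normSq_eq_norm_sq, ← Complex.normSq_eq_norm_sq, Complex.normSq_apply,
    Complex.normSq_apply, Complex.normSq_apply]
  have h2 : (1 - z.re) * (1 - z.re) + z.im * z.im ≠ 0 := by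
    have := (Complex.normSq_pos.2 h1).ne'
    rw [Complex.normSq_apply] at this
    simpa using this
  simp
  have h3 : (z.re - 1) * (z.re - 1) + z.im * z.im = (1 - z.re) * (1 - z.re) + z.im * z.im := by ring
  rw [h3]
  field_simp
  ring

variable {α : ℝ} {P : ℂ → ℂ}

lemma apriori (hP : PData α P) {p : ℂ → ℂ} (hp : DifferentiableOn ℂ p (ball 0 1))
    (hpos : ∀ z ∈ ball (0:ℂ) 1, 0 < (p z + α * (z * deriv p z) / p z).re) {S : ℝ} (hS : 0 < S)
    (hS1 : S < 1) : ∃ ρ : ℝ, 0 < ρ ∧ ρ < 1 ∧ ∀ s : ℝ, s ≤ S → ∀ ω, IsSub P p ω s →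
      ∀ z ∈ ball (0:ℂ) s, ‖ω z‖ ≤ ρ := by
  have hp0 : ∀ z ∈ ball (0:ℂ) 1, p z ≠ 0 := by
    intro z hz h0
    have := hpos z hz
    rw [h0] at this
    simp at this
  have hsub : closedBall (0:ℂ) S ⊆ ball 0 1 := closedBall_subset_ball hS1
  have hp' : DifferentiableOn ℂ (deriv p) (ball 0 1) := hp.deriv isOpen_ball
  have hqc : ContinuousOn (fun z => (p z + α * (z * deriv p z) / p z).re) (closedBall 0 S) := by
    apply Complex.continuous_re.comp_continuousOn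
    apply ContinuousOn.add (hp.continuousOn.mono hsub)
    apply ContinuousOn.div
    · exact continuousOn_const.mul (continuousOn_id.mul (hp'.continuousOn.mono hsub))
    · exact hp.continuousOn.mono hsub
    · intro z hz; exact hp0 z (hsub hz)
  have hcomp : IsCompact (closedBall (0:ℂ) S) := isCompact_closedBall 0 S
  have hne : (closedBall (0:ℂ) S).Nonempty := ⟨0, mem_closedBall_self hS.le⟩
  obtain ⟨zm, hzm, hzmin⟩ := hcomp.exists_isMinOn hne hqc
  set δ := (p zm + α * (zm * deriv p zm) / p zm).re with hδ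
  have hδpos : 0 < δ := hpos zm (hsub hzm)
  have hδle : ∀ z ∈ closedBall (0:ℂ) S, δ ≤ (p z + α * (z * deriv p z) / p z).re :=
    fun z hz => hzmin hz
  obtain ⟨M, hM⟩ := hcomp.exists_bound_of_continuousOn (hp.continuousOn.mono hsub)
  obtain ⟨ε, hε, hlarge⟩ := hP.large M
  obtain ⟨c, hc, haway⟩ := hP.away ε hε
  set η := min δ c * ε ^ 2 with hη
  have hηpos : 0 < η := mul_pos (lt_min hδpos hc) (by positivity)
  set ρ := 1 - min η 1 / 4 with hρ
  have hm1 : min η 1 ≤ 1 := min_le_right _ _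
  have hm2 : 0 < min η 1 := lt_min hηpos one_pos
  have hρ0 : 0 < ρ := by rw [hρ]; linarith
  have hρ1 : ρ < 1 := by rw [hρ]; linarith
  refine ⟨ρ, hρ0, hρ1, ?_⟩
  intro s hsS ω hω z1 hz1
  obtain ⟨hωd, hω0, hωm, hωe⟩ := hω
  by_contra hcon
  push Not at hcon
  have hz1s : ‖z1‖ < s := by simpa using hz1
  have hcb : closedBall (0:ℂ) ‖z1‖ ⊆ ball 0 s := closedBall_subset_ball hz1s
  obtain ⟨z0, hz0, hz0max⟩ := (isCompact_closedBall (0:ℂ) ‖z1‖).exists_isMaxOn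
    ⟨0, mem_closedBall_self (norm_nonneg _)⟩ (hωd.continuousOn.mono hcb).norm
  have hz0n : ‖z0‖ ≤ ‖z1‖ := by simpa using hz0
  have hz0s : z0 ∈ ball (0:ℂ) s := hcb hz0
  have hbig : ρ < ‖ω z0‖ := by
    have : ‖ω z1‖ ≤ ‖ω z0‖ := hz0max (by simp : z1 ∈ closedBall (0:ℂ) ‖z1‖)
    linarith
  have hωne : ω z0 ≠ 0 := by
    intro h
    rw [h, norm_zero] at hbig
    linarith
  have hz0ne : z0 ≠ 0 := by
    intro h
    rw [h] at hωne
    exact hωne hω0
  obtain ⟨k, hk1, hk⟩ := jack hωd hω0 hz0s hz0ne (fun z hz => hz0max (by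
    rw [mem_closedBall_zero_iff]; exact hz.trans hz0n)) hωne
  set ζ := ω z0 with hζ
  have hζ1 : ζ ∈ ball (0:ℂ) 1 := hωm hz0s
  have hζn : ‖ζ‖ < 1 := by simpa using hζ1
  have hz0S : z0 ∈ closedBall (0:ℂ) S := by
    rw [mem_closedBall_zero_iff]
    linarith
  have hPζ : P ζ = p z0 := hωe z0 hz0s
  have hε1 : ε ≤ ‖ζ - 1‖ := by
    by_contra h
    push Not at h
    have := hlarge ζ hζ1 h
    rw [hPζ] at this
    exact absurd (hM z0 hz0S) (not_le.2 this)
  have hcre := haway ζ hζ1 hε1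
  have hζne1 : ζ ≠ 1 := by
    intro h
    rw [h] at hζn
    simp at hζn
  have hQ : ((1 + ζ) / (1 - ζ)).re < min δ c := by
    rw [re_cayley hζne1, div_lt_iff₀ (by
      have : 0 < ‖ζ - 1‖ := lt_of_lt_of_le hε hε1
      positivity)]
    have h1 : 1 - ‖ζ‖ ^ 2 < η := by
      have h2 : 1 - ‖ζ‖ ^ 2 < 1 - ρ ^ 2 := by nlinarith
      have h3 : 1 - ρ ^ 2 ≤ 2 * (1 - ρ) := by nlinarith
      have h4 : 2 * (1 - ρ) = min η 1 / 2 := by rw [hρ]; ring
      have h5 : min η 1 ≤ η := min_le_left _ _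
      linarith
    have h6 : η ≤ min δ c * ‖ζ - 1‖ ^ 2 := by
      rw [hη]
      have : 0 < min δ c := lt_min hδpos hc
      gcongr
    linarith
  have hderiv : deriv p z0 = deriv P ζ * deriv ω z0 := by
    have h1 : p =ᶠ[𝓝 z0] fun z => P (ω z) := by
      filter_upwards [isOpen_ball.mem_nhds hz0s] with z hz
      exact (hωe z hz).symm
    rw [h1.deriv_eq]
    have h2 : HasDerivAt P (deriv P ζ) (ω z0) :=
      ((hP.diff ζ hζ1).differentiableAt (isOpen_ball.mem_nhds hζ1)).hasDerivAt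
    have h3 : HasDerivAt ω (deriv ω z0) z0 :=
      ((hωd z0 hz0s).differentiableAt (isOpen_ball.mem_nhds hz0s)).hasDerivAt
    exact (h2.comp z0 h3).deriv
  have hPne : P ζ ≠ 0 := by
    intro h
    have := hP.re_pos ζ hζ1
    rw [h] at this
    simp at this
  have hode := hP.ode ζ hζ1
  have hq : p z0 + α * (z0 * deriv p z0) / p z0 =
      P ζ + (k : ℂ) * ((1 + ζ) / (1 - ζ) - P ζ) := by
    rw [← hPζ, hderiv, ← hode]
    have : z0 * (deriv P ζ * deriv ω z0) = deriv P ζ * (k * ζ) := by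
      rw [← hk]; ring
    rw [this]
    field_simp
    ring
  have hre := hδle z0 hz0S
  rw [hq] at hre
  have hre2 : (P ζ + (k : ℂ) * ((1 + ζ) / (1 - ζ) - P ζ)).re =
      (P ζ).re + k * (((1 + ζ) / (1 - ζ)).re - (P ζ).re) := by
    simp only [Complex.add_re, Complex.re_ofReal_mul, Complex.sub_re]
  rw [hre2] at hre
  have h7 : min δ c ≤ δ := min_le_left _ _
  have h8 : min δ c ≤ c := min_le_right _ _
  nlinarith

end Pool.Agent.Helper59.AC
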