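import Pool.Agent.Helper59.ACc

/-! Continuation: the subordination theorem. -/

open Complex Metric Set Filter Topology

noncomputable section

namespace Pool.Agent.Helper59.AC

variable {α : ℝ} {P : ℂ → ℂ}

/-- Uniform local inverses of `P` over `closedBall 0 ρ`. -/
lemma unif_inv (hP : PData α P) {ρ : ℝ} (hρ0 : 0 < ρ) (hρ1 : ρ < 1) :
    ∃ r > 0, r ≤ (1 - ρ) / 2 ∧ ∃ η > 0, ∀ ζ ∈ closedBall (0:ℂ) ρ, InjOn P (ball ζ r) ∧
      ∃ g : ℂ → ℂ, DifferentiableOn ℂ g (ball (P ζ) η) ∧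
      MapsTo g (ball (P ζ) η) (ball ζ (r / 2)) ∧
      (∀ y ∈ ball (P ζ) η, P (g y) = y) ∧ g (P ζ) = ζ := by
  have hPd : DifferentiableOn ℂ (deriv P) (ball 0 1) := hP.diff.deriv isOpen_ball
  set ρ' := (1 + ρ) / 2 with hρ'
  have hρ'1 : ρ' < 1 := by rw [hρ']; linarith
  have hρρ' : ρ < ρ' := by rw [hρ']; linarith
  have hsub : closedBall (0:ℂ) ρ ⊆ ball 0 1 := closedBall_subset_ball hρ1
  have hsub' : closedBall (0:ℂ) ρ' ⊆ ball 0 1 := closedBall_subset_ball hρ'1
  obtain ⟨zm, hzm, hmin⟩ := (isCompact_closedBall (0:ℂ) ρ).exists_isMinOn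
    ⟨0, mem_closedBall_self hρ0.le⟩ (hPd.continuousOn.mono hsub).norm
  set a0 := ‖deriv P zm‖ with ha0
  have ha0pos : 0 < a0 := norm_pos_iff.2 (hP.deriv_ne zm (hsub hzm))
  have ha0le : ∀ ζ ∈ closedBall (0:ℂ) ρ, a0 ≤ ‖deriv P ζ‖ := fun ζ hζ => hmin hζ
  have huc := (isCompact_closedBall (0:ℂ) ρ').uniformContinuousOn_of_continuous
    (hPd.continuousOn.mono hsub')
  rw [Metric.uniformContinuousOn_iff] at huc
  obtain ⟨r0, hr0, huc⟩ := huc (a0 / 4) (by positivity)
  set r := min r0 ((1 - ρ) / 2) with hr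
  have hrpos : 0 < r := lt_min hr0 (by linarith)
  have hrle : r ≤ (1 - ρ) / 2 := min_le_right _ _
  have hrr0 : r ≤ r0 := min_le_left _ _
  refine ⟨r, hrpos, hrle, a0 * (r / 2) / 4, by positivity, ?_⟩
  intro ζ hζ
  have hζn : ‖ζ‖ ≤ ρ := by simpa using hζ
  have hbs : ball ζ r ⊆ closedBall (0:ℂ) ρ' := by
    intro x hx
    rw [mem_closedBall_zero_iff]
    have h1 : ‖x - ζ‖ < r := by simpa [dist_eq_norm] using hx
    calc ‖x‖ = ‖(x - ζ) + ζ‖ := by ring_nf
      _ ≤ ‖x - ζ‖ + ‖ζ‖ := norm_add_le _ _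
      _ ≤ ρ' := by rw [hρ']; linarith
  have hζ' : ζ ∈ closedBall (0:ℂ) ρ' := by
    rw [mem_closedBall_zero_iff]; linarith
  have hane : deriv P ζ ≠ 0 := hP.deriv_ne ζ (hsub hζ)
  have hclose : ∀ x ∈ ball ζ r, ‖deriv P x - deriv P ζ‖ ≤ ‖deriv P ζ‖ / 4 := by
    intro x hx
    have h1 := huc x (hbs hx) ζ hζ' (lt_of_lt_of_le (by simpa using hx) hrr0)
    rw [dist_eq_norm] at h1
    have := ha0le ζ hζ
    linarith
  have hi1 := (Pool.Agent.Helper65.inv_disc hrpos hane (hP.diff.mono (hbs.trans hsub')) hclose).1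
  have hb2 : ball ζ (r / 2) ⊆ ball ζ r := ball_subset_ball (by linarith)
  obtain ⟨_, g, hg1, hg2, hg3, hg4⟩ := Pool.Agent.Helper65.inv_disc (K := P) (ζ := ζ)
    (a := deriv P ζ) (r := r / 2) (by positivity) hane
    (hP.diff.mono (hb2.trans (hbs.trans hsub'))) (fun x hx => hclose x (hb2 hx))
  have hη : ball (P ζ) (a0 * (r / 2) / 4) ⊆ ball (P ζ) (‖deriv P ζ‖ * (r / 2) / 4) := by
    apply ball_subset_ball
    have := ha0le ζ hζ
    gcongr
  refine ⟨hi1, g, hg1.mono hη, hg2.mono_left hη, fun y hy => hg3 y (hη hy), ?_⟩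
  apply hg4 ζ (mem_ball_self (by positivity))
  apply mem_ball_self
  have := norm_pos_iff.2 hane
  positivity

/-- The subordination theorem on the disc of radius `S < 1`. -/
theorem subordination (hP : PData α P) {p : ℂ → ℂ} (hp : DifferentiableOn ℂ p (ball 0 1))
    (hp1 : p 0 = 1) (hpos : ∀ z ∈ ball (0:ℂ) 1, 0 < (p z + α * (z * deriv p z) / p z).re)
    {S : ℝ} (hS : 0 < S) (hS1 : S < 1) : ∃ ω, IsSub P p ω S := by
  obtain ⟨ρ, hρ0, hρ1, hapr⟩ := apriori hP hp hpos hS hS1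
  obtain ⟨r, hr, hrle, η, hη, hinv⟩ := unif_inv hP hρ0 hρ1
  have hsub : closedBall (0:ℂ) S ⊆ ball 0 1 := closedBall_subset_ball hS1
  have huc := (isCompact_closedBall (0:ℂ) S).uniformContinuousOn_of_continuous
    (hp.continuousOn.mono hsub)
  rw [Metric.uniformContinuousOn_iff] at huc
  obtain ⟨τ, hτ, huc⟩ := huc η hη
  -- start
  have hstart : ∃ s0 : ℝ, 0 < s0 ∧ s0 ≤ S ∧ ∃ ω, IsSub P p ω s0 := by
    refine ⟨min (τ) S, lt_min hτ hS, min_le_right _ _, ?_⟩
    obtain ⟨_, g, hg1, hg2, hg3, hg4⟩ := hinv 0 (mem_closedBall_self hρ0.le)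
    rw [hP.zero] at hg1 hg2 hg3 hg4
    have hmem : ∀ z ∈ ball (0:ℂ) (min τ S), p z ∈ ball (1:ℂ) η := by
      intro z hz
      have hz' : ‖z‖ < min τ S := by simpa using hz
      have h1 := huc z (by rw [mem_closedBall_zero_iff]; exact (hz'.le.trans (min_le_right _ _))) 0
        (mem_closedBall_self hS.le) (by
          rw [dist_zero_right]; exact lt_of_lt_of_le hz' (min_le_left _ _))
      rw [hp1] at h1
      exact h1
    refine ⟨fun z => g (p z), ?_, ?_, ?_, ?_⟩
    · exact hg1.comp (hp.mono ((ball_subset_ball (min_le_right _ _)).trans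
        (ball_subset_ball hS1.le))) hmem
    · simp only [hp1, hg4]
    · intro z hz
      have h1 := hg2 (hmem z hz)
      exact ball_subset_ball (by linarith) h1
    · intro z hz
      exact hg3 _ (hmem z hz)
  -- step
  obtain ⟨c, hc0, hc1, hcτ⟩ : ∃ c : ℝ, 0 < c ∧ c < 1 ∧ (1 - c) * S < τ := by
    refine ⟨max (1/2) (1 - τ / (2 * S)), by positivity, ?_, ?_⟩
    · apply max_lt (by norm_num)
      have : 0 < τ / (2 * S) := by positivity
      linarith
    · have h1 : 1 - max (1/2) (1 - τ / (2 * S)) ≤ τ / (2 * S) := by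
        have := le_max_right (1/2) (1 - τ / (2 * S))
        linarith
      calc (1 - max (1/2) (1 - τ / (2 * S))) * S ≤ τ / (2 * S) * S := by gcongr
        _ = τ / 2 := by field_simp
        _ < τ := by linarith
  have hstep : ∀ s : ℝ, 0 < s → s ≤ S → (∃ ω, IsSub P p ω s) → ∃ ω, IsSub P p ω (min (s / c) S) := by
    intro s hs hsS hex
    obtain ⟨ω, hω⟩ := hex
    have hbd := hapr s hsS ω hω
    obtain ⟨hωd, hω0, hωm, hωe⟩ := hω
    set s' := min (s / c) S with hs'
    have hcmem : ∀ w ∈ ball (0:ℂ) s', (c : ℂ) * w ∈ ball (0:ℂ) s := by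
      intro w hw
      have hw' : ‖w‖ < s / c := lt_of_lt_of_le (mem_ball_zero_iff.1 hw) (min_le_left _ _)
      rw [mem_ball_zero_iff, norm_mul, Complex.norm_real, Real.norm_eq_abs, abs_of_pos hc0]
      rw [lt_div_iff₀ hc0] at hw'
      linarith
    have hwS : ∀ w ∈ ball (0:ℂ) s', ‖w‖ < S := fun w hw =>
      lt_of_lt_of_le (mem_ball_zero_iff.1 hw) (min_le_right _ _)
    have hpw : ∀ w ∈ ball (0:ℂ) s', p w ∈ ball (P (ω (c * w))) η := by
      intro w hw
      rw [hωe _ (hcmem w hw)]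
      have hw1 := hwS w hw
      apply huc w (by rw [mem_closedBall_zero_iff]; exact hw1.le)
      · rw [mem_closedBall_zero_iff, norm_mul, Complex.norm_real, Real.norm_eq_abs, abs_of_pos hc0]
        nlinarith [norm_nonneg w]
      · rw [dist_eq_norm]
        have : w - c * w = ((1 - c : ℝ) : ℂ) * w := by push_cast; ring
        rw [this, norm_mul, Complex.norm_real, Real.norm_eq_abs, abs_of_pos (by linarith)]
        have : (1 - c) * ‖w‖ ≤ (1 - c) * S := by
          apply mul_le_mul_of_nonneg_left hw1.le; linarith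
        linarith
    have hζ : ∀ w ∈ ball (0:ℂ) s', ω (c * w) ∈ closedBall (0:ℂ) ρ := fun w hw => by
      rw [mem_closedBall_zero_iff]; exact hbd _ (hcmem w hw)
    have hex : ∀ w : ℂ, ∃ x : ℂ, w ∈ ball (0:ℂ) s' → (x ∈ ball (ω (c * w)) (r / 2) ∧ P x = p w) := by
      intro w
      by_cases hw : w ∈ ball (0:ℂ) s'
      · obtain ⟨_, g, hg1, hg2, hg3, hg4⟩ := hinv _ (hζ w hw)
        exact ⟨g (p w), fun _ => ⟨hg2 (hpw w hw), hg3 _ (hpw w hw)⟩⟩
      · exact ⟨0, fun h => absurd h hw⟩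
    choose ω2 hω2 using hex
    have hs'pos : 0 < s' := lt_min (by positivity) hS
    refine ⟨ω2, ?_, ?_, ?_, ?_⟩
    · intro w0 hw0
      obtain ⟨hinj, g, hg1, hg2, hg3, hg4⟩ := hinv _ (hζ w0 hw0)
      have hωc : ContinuousAt (fun w => ω (c * w)) w0 := by
        have h1 : ContinuousAt ω ((c:ℂ) * w0) :=
          (hωd.continuousOn).continuousAt (isOpen_ball.mem_nhds (hcmem w0 hw0))
        exact ContinuousAt.comp (f := fun w => (c:ℂ) * w) h1 (by fun_prop)
      have hpc : ContinuousAt p w0 := by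
        apply (hp.continuousOn).continuousAt (isOpen_ball.mem_nhds _)
        exact hsub (by rw [mem_closedBall_zero_iff]; exact (hwS w0 hw0).le)
      have e1 : ∀ᶠ w in 𝓝 w0, ω (c * w) ∈ ball (ω (c * w0)) (r / 2) :=
        hωc (ball_mem_nhds _ (by positivity))
      have e2 : ∀ᶠ w in 𝓝 w0, p w ∈ ball (P (ω (c * w0))) η :=
        hpc (isOpen_ball.mem_nhds (hpw w0 hw0))
      have e3 : ∀ᶠ w in 𝓝 w0, w ∈ ball (0:ℂ) s' := isOpen_ball.mem_nhds hw0
      have e4 : ω2 =ᶠ[𝓝 w0] fun w => g (p w) := by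
        filter_upwards [e1, e2, e3] with w h1 h2 h3
        obtain ⟨h4, h5⟩ := hω2 w h3
        apply hinj
        · rw [mem_ball] at h1 h4 ⊢
          calc dist (ω2 w) (ω (c * w0)) ≤ dist (ω2 w) (ω (c * w)) + dist (ω (c * w)) (ω (c * w0)) :=
                dist_triangle _ _ _
            _ < r := by linarith
        · exact ball_subset_ball (by linarith) (hg2 h2)
        · rw [h5, hg3 _ h2]
      have h6 : DifferentiableAt ℂ (fun w => g (p w)) w0 := by
        have h7 : DifferentiableAt ℂ g (p w0) :=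
          (hg1 _ (hpw w0 hw0)).differentiableAt (isOpen_ball.mem_nhds (hpw w0 hw0))
        have h8 : DifferentiableAt ℂ p w0 := (hp w0 (hsub (by
          rw [mem_closedBall_zero_iff]; exact (hwS w0 hw0).le))).differentiableAt
          (isOpen_ball.mem_nhds (hsub (by
          rw [mem_closedBall_zero_iff]; exact (hwS w0 hw0).le)))
        exact h7.comp w0 h8
      exact (h6.congr_of_eventuallyEq e4).differentiableWithinAt
    · obtain ⟨h4, h5⟩ := hω2 0 (mem_ball_self hs'pos)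
      obtain ⟨hinj, _⟩ := hinv 0 (mem_closedBall_self hρ0.le)
      rw [mul_zero, hω0] at h4
      apply hinj
      · exact ball_subset_ball (by linarith) h4
      · exact mem_ball_self hr
      · rw [h5, hp1, hP.zero]
    · intro w hw
      obtain ⟨h4, _⟩ := hω2 w hw
      rw [mem_ball_zero_iff]
      have h5 := hbd _ (hcmem w hw)
      rw [mem_ball, dist_eq_norm] at h4
      calc ‖ω2 w‖ = ‖(ω2 w - ω (c * w)) + ω (c * w)‖ := by ring_nf
        _ ≤ ‖ω2 w - ω (c * w)‖ + ‖ω (c * w)‖ := norm_add_le _ _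
        _ < 1 := by linarith
    · intro w hw
      exact (hω2 w hw).2
  obtain ⟨s0, hs0, hs0S, hex0⟩ := hstart
  have hiter : ∀ n : ℕ, ∃ ω, IsSub P p ω (min (s0 / c ^ n) S) := by
    intro n
    induction n with
    | zero =>
      simp only [pow_zero, div_one]
      rw [min_eq_left hs0S]
      exact hex0
    | succ n ih =>
      have h1 := hstep _ (lt_min (by positivity) hS) (min_le_right _ _) ih
      have h2 : min (min (s0 / c ^ n) S / c) S = min (s0 / c ^ (n + 1)) S := by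
        rcases le_total (s0 / c ^ n) S with h | h
        · rw [min_eq_left h, pow_succ, div_div]
        · rw [min_eq_right h]
          have h3 : S ≤ S / c := by
            rw [le_div_iff₀ hc0]; nlinarith
          have h4 : S ≤ s0 / c ^ (n + 1) := by
            rw [pow_succ, ← div_div]
            calc S ≤ S / c := h3
              _ ≤ _ := by gcongr
          rw [min_eq_right h3, min_eq_right h4]
      rwa [h2] at h1
  obtain ⟨n, hn⟩ : ∃ n : ℕ, S ≤ s0 / c ^ n := by
    obtain ⟨n, hn⟩ := exists_pow_lt_of_lt_one (show 0 < s0 / S by positivity) hc1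
    refine ⟨n, ?_⟩
    rw [lt_div_iff₀ hS] at hn
    rw [le_div_iff₀ (by positivity)]
    linarith
  have := hiter n
  rwa [min_eq_right hn] at this

end Pool.Agent.Helper59.AC
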