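import Pool.Agent.Helper59.ACd

/-! The extremal Briot-Bouquet solution: the power series `V = 1/P`. -/

open Complex Metric Set Filter Topology

noncomputable section

namespace Pool.Agent.Helper59.AC

/-- coefficients of `V` -/
def Vc (α : ℝ) : ℕ → ℝ
  | 0 => 1
  | 1 => -2 / (1 + α)
  | (n + 2) => (α * (n + 1) - 1) / (1 + α * (n + 2)) * Vc α (n + 1)

variable {α : ℝ}

lemma Vc_rec (h0 : 0 < α) (n : ℕ) :
    (1 + α * (n + 1)) * Vc α (n + 1) + (1 - α * n) * Vc α n = if n = 0 then -1 else 0 := by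
  rcases n with _ | n
  · simp only [Vc]
    push_cast
    field_simp
    norm_num
    ring
  · rw [if_neg (Nat.succ_ne_zero n)]
    have : Vc α (n + 1 + 1) = (α * (n + 1) - 1) / (1 + α * (n + 2)) * Vc α (n + 1) := rfl
    rw [this]
    push_cast
    have h1 : 1 + α * ((n : ℝ) + 2) ≠ 0 := by positivity
    have h2 : 1 + α * ((n : ℝ) + 1 + 1) = 1 + α * ((n : ℝ) + 2) := by ring
    rw [h2]
    field_simp
    ring

lemma Vc_bound (h0 : 0 < α) (h1 : α < 1) : ∃ C : ℝ, ∃ n0 : ℕ, 2 ≤ n0 ∧ ∀ n, n0 ≤ n →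
    |Vc α n| * (((n:ℝ) - 1) * n * (n + 1)) ≤ C := by
  obtain ⟨n0, hn0⟩ := exists_nat_gt (1 / α + 2)
  have hn2 : 2 ≤ n0 := by
    have : (2:ℝ) < n0 := by
      have : 0 < 1 / α := by positivity
      linarith
    exact_mod_cast this.le
  refine ⟨|Vc α n0| * (((n0:ℝ) - 1) * n0 * (n0 + 1)), n0, hn2, ?_⟩
  intro n hn
  induction n, hn using Nat.le_induction with
  | base => exact le_rfl
  | succ n hn ih =>
    refine le_trans ?_ ih
    have hnr : (n0 : ℝ) ≤ n := by exact_mod_cast hn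
    have hαn : 1 < α * n := by
      have h2 : 1 / α < n := by linarith
      rw [div_lt_iff₀ h0] at h2
      linarith
    have hn1 : 1 ≤ n := by omega
    have hn1r : (1:ℝ) ≤ n := by exact_mod_cast hn1
    have hrec := Vc_rec h0 n
    rw [if_neg (by omega)] at hrec
    have h3 : 0 < 1 + α * ((n:ℝ) + 1) := by positivity
    have h4 : Vc α (n + 1) = (α * n - 1) / (1 + α * (n + 1)) * Vc α n := by
      field_simp
      linarith
    rw [h4, abs_mul, abs_div, abs_of_pos (by linarith : 0 < α * n - 1), abs_of_pos h3]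
    push_cast
    have h5 : (α * n - 1) / (1 + α * ((n:ℝ) + 1)) * ((n + 1 - 1) * (n + 1) * (n + 1 + 1)) ≤
        ((n:ℝ) - 1) * n * (n + 1) := by
      rw [div_mul_eq_mul_div, div_le_iff₀ h3]
      have h6 : (α * n - 1) * (n + 2) ≤ ((n:ℝ) - 1) * (1 + α * (n + 1)) := by nlinarith
      have h7 : 0 ≤ (n:ℝ) * (n + 1) := by positivity
      nlinarith
    calc (α * n - 1) / (1 + α * ((n:ℝ) + 1)) * |Vc α n| * ((n + 1 - 1) * (n + 1) * (n + 1 + 1))
        = |Vc α n| * ((α * n - 1) / (1 + α * ((n:ℝ) + 1)) * ((n + 1 - 1) * (n + 1) * (n + 1 + 1))) := by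
          ring
      _ ≤ |Vc α n| * (((n:ℝ) - 1) * n * (n + 1)) := by gcongr

lemma summable_nVc (h0 : 0 < α) (h1 : α < 1) : Summable (fun n : ℕ => (n:ℝ) * |Vc α n|) := by
  obtain ⟨C, n0, hn0, hC⟩ := Vc_bound h0 h1
  have hs : Summable (fun n : ℕ => 2 * C * (1 / (n:ℝ) ^ 2)) :=
    (Real.summable_one_div_nat_pow.2 (by norm_num)).mul_left _
  apply Summable.of_norm_bounded_eventually_nat hs
  filter_upwards [eventually_ge_atTop n0] with n hn
  have h2 := hC n hn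
  have hnr : (2:ℝ) ≤ n := by
    have : 2 ≤ n := by omega
    exact_mod_cast this
  rw [Real.norm_eq_abs, abs_of_nonneg (by positivity)]
  rw [mul_one_div, le_div_iff₀ (by positivity)]
  have h3 : 0 ≤ |Vc α n| := abs_nonneg _
  have h4 : (n:ℝ) ^ 2 ≤ 2 * (((n:ℝ) - 1) * (n + 1)) := by nlinarith
  calc (n:ℝ) * |Vc α n| * (n:ℝ) ^ 2 ≤ (n:ℝ) * |Vc α n| * (2 * (((n:ℝ) - 1) * (n + 1))) := by gcongr
    _ = 2 * (|Vc α n| * (((n:ℝ) - 1) * n * (n + 1))) := by ring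
    _ ≤ 2 * C := by linarith

lemma summable_Vc (h0 : 0 < α) (h1 : α < 1) : Summable (fun n : ℕ => |Vc α n|) := by
  apply Summable.of_norm_bounded_eventually_nat (summable_nVc h0 h1)
  filter_upwards [eventually_ge_atTop 1] with n hn
  rw [Real.norm_eq_abs, abs_abs]
  have : (1:ℝ) ≤ n := by exact_mod_cast hn
  nlinarith [abs_nonneg (Vc α n)]

/-- `V`, its Euler derivative `W = z V'` and derivative `V1 = V'`. -/
def V (α : ℝ) (z : ℂ) : ℂ := ∑' n : ℕ, (Vc α n : ℂ) * z ^ n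
def W (α : ℝ) (z : ℂ) : ℂ := ∑' n : ℕ, ((n : ℂ) * Vc α n) * z ^ n
def V1 (α : ℝ) (z : ℂ) : ℂ := ∑' n : ℕ, (((n + 1 : ℕ) : ℂ) * Vc α (n + 1)) * z ^ n

lemma norm_Vterm {z : ℂ} (hz : ‖z‖ ≤ 1) (n : ℕ) : ‖(Vc α n : ℂ) * z ^ n‖ ≤ |Vc α n| := by
  rw [norm_mul, norm_pow, Complex.norm_real, Real.norm_eq_abs]
  have : ‖z‖ ^ n ≤ 1 := pow_le_one₀ (norm_nonneg _) hz
  nlinarith [abs_nonneg (Vc α n)]

lemma norm_Wterm {z : ℂ} (hz : ‖z‖ ≤ 1) (n : ℕ) :
    ‖((n : ℂ) * Vc α n) * z ^ n‖ ≤ (n:ℝ) * |Vc α n| := by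
  rw [norm_mul, norm_pow, norm_mul, Complex.norm_real, Real.norm_eq_abs, Complex.norm_natCast]
  have : ‖z‖ ^ n ≤ 1 := pow_le_one₀ (norm_nonneg _) hz
  have h2 : 0 ≤ (n:ℝ) * |Vc α n| := by positivity
  nlinarith

lemma norm_V1term {z : ℂ} (hz : ‖z‖ ≤ 1) (n : ℕ) :
    ‖(((n + 1 : ℕ) : ℂ) * Vc α (n + 1)) * z ^ n‖ ≤ ((n + 1 : ℕ):ℝ) * |Vc α (n + 1)| := by
  rw [norm_mul, norm_pow, norm_mul, Complex.norm_real, Real.norm_eq_abs, Complex.norm_natCast]
  have : ‖z‖ ^ n ≤ 1 := pow_le_one₀ (norm_nonneg _) hz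
  have h2 : 0 ≤ ((n + 1 : ℕ):ℝ) * |Vc α (n + 1)| := by positivity
  nlinarith

lemma V_cont (h0 : 0 < α) (h1 : α < 1) : ContinuousOn (V α) (closedBall 0 1) :=
  continuousOn_tsum (fun n => by fun_prop) (summable_Vc h0 h1)
    (fun n z hz => norm_Vterm (mem_closedBall_zero_iff.1 hz) n)

lemma W_cont (h0 : 0 < α) (h1 : α < 1) : ContinuousOn (W α) (closedBall 0 1) :=
  continuousOn_tsum (fun n => by fun_prop) (summable_nVc h0 h1)
    (fun n z hz => norm_Wterm (mem_closedBall_zero_iff.1 hz) n)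

lemma V1_cont (h0 : 0 < α) (h1 : α < 1) : ContinuousOn (V1 α) (closedBall 0 1) :=
  continuousOn_tsum (fun n => by fun_prop) ((summable_nat_add_iff 1).2 (summable_nVc h0 h1))
    (fun n z hz => norm_V1term (mem_closedBall_zero_iff.1 hz) n)

lemma V_summable (h0 : 0 < α) (h1 : α < 1) {z : ℂ} (hz : ‖z‖ ≤ 1) :
    Summable (fun n : ℕ => (Vc α n : ℂ) * z ^ n) :=
  Summable.of_norm_bounded (summable_Vc h0 h1) (norm_Vterm hz)

lemma W_summable (h0 : 0 < α) (h1 : α < 1) {z : ℂ} (hz : ‖z‖ ≤ 1) :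
    Summable (fun n : ℕ => ((n : ℂ) * Vc α n) * z ^ n) :=
  Summable.of_norm_bounded (summable_nVc h0 h1) (norm_Wterm hz)

lemma V1_summable (h0 : 0 < α) (h1 : α < 1) {z : ℂ} (hz : ‖z‖ ≤ 1) :
    Summable (fun n : ℕ => (((n + 1 : ℕ) : ℂ) * Vc α (n + 1)) * z ^ n) :=
  Summable.of_norm_bounded ((summable_nat_add_iff 1).2 (summable_nVc h0 h1)) (norm_V1term hz)

lemma W_eq (h0 : 0 < α) (h1 : α < 1) {z : ℂ} (hz : ‖z‖ ≤ 1) : W α z = z * V1 α z := by
  rw [W, (W_summable h0 h1 hz).tsum_eq_zero_add, V1, ← tsum_mul_left]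
  simp only [Nat.cast_zero, zero_mul, zero_add]
  congr 1
  funext n
  ring

lemma V_zero : V α 0 = 1 := by
  rw [V, tsum_eq_single 0]
  · simp [Vc]
  · intro n hn; simp [hn]

lemma V1_zero : V1 α 0 = ((-2 / (1 + α) : ℝ) : ℂ) := by
  rw [V1, tsum_eq_single 0]
  · simp [Vc]
  · intro n hn; simp [hn]

/-- The differential equation on the closed disc. -/
lemma V_ode (h0 : 0 < α) (h1 : α < 1) {z : ℂ} (hz : ‖z‖ ≤ 1) :
    (1 - z) * (α * W α z) + (1 + z) * V α z = 1 - z := by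
  have hV := V_summable h0 h1 hz
  have hW := W_summable h0 h1 hz
  have e1 : (1 - z) * (α * W α z) + (1 + z) * V α z =
      (∑' n : ℕ, (α * ((n : ℂ) * Vc α n * z ^ n) + (Vc α n : ℂ) * z ^ n)) +
        ∑' n : ℕ, (z * ((Vc α n : ℂ) * z ^ n) - z * (α * ((n : ℂ) * Vc α n * z ^ n))) := by
    rw [(hW.mul_left (α:ℂ)).tsum_add hV, (hV.mul_left z).tsum_sub ((hW.mul_left (α:ℂ)).mul_left z),
      tsum_mul_left, tsum_mul_left, tsum_mul_left, tsum_mul_left]
    simp only [V, W]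
    ring
  rw [e1, ((hW.mul_left (α:ℂ)).add hV).tsum_eq_zero_add, add_assoc,
    ← Summable.tsum_add ((summable_nat_add_iff 1).2 ((hW.mul_left (α:ℂ)).add hV))
    ((hV.mul_left z).sub ((hW.mul_left (α:ℂ)).mul_left z))]
  have e2 : ∀ n : ℕ, (α * (((n + 1 : ℕ) : ℂ) * Vc α (n + 1) * z ^ (n + 1)) +
      (Vc α (n + 1) : ℂ) * z ^ (n + 1) +
      (z * ((Vc α n : ℂ) * z ^ n) - z * (α * ((n : ℂ) * Vc α n * z ^ n)))) =
      (if n = 0 then (-1 : ℂ) else 0) * z ^ (n + 1) := by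
    intro n
    have h := Vc_rec h0 n
    have h' : ((1 + α * (n + 1)) * Vc α (n + 1) + (1 - α * n) * Vc α n : ℂ) =
        if n = 0 then (-1 : ℂ) else 0 := by
      have := congrArg (fun x : ℝ => (x : ℂ)) h
      push_cast at this
      rw [this]
      split_ifs <;> simp
    rw [← h']
    push_cast
    ring
  simp only [e2]
  rw [tsum_eq_single 0]
  · simp [Vc]; ring
  · intro n hn; simp [hn]

lemma V_diff (h0 : 0 < α) (h1 : α < 1) : DifferentiableOn ℂ (V α) (ball 0 1) :=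
  differentiableOn_tsum_of_summable_norm (summable_Vc h0 h1)
    (fun n => by fun_prop) isOpen_ball
    (fun n z hz => norm_Vterm (le_of_lt (mem_ball_zero_iff.1 hz)) n)

lemma V1_diff (h0 : 0 < α) (h1 : α < 1) : DifferentiableOn ℂ (V1 α) (ball 0 1) :=
  differentiableOn_tsum_of_summable_norm ((summable_nat_add_iff 1).2 (summable_nVc h0 h1))
    (fun n => by fun_prop) isOpen_ball
    (fun n z hz => norm_V1term (le_of_lt (mem_ball_zero_iff.1 hz)) n)

lemma V_deriv (h0 : 0 < α) (h1 : α < 1) {z : ℂ} (hz : z ∈ ball (0:ℂ) 1) :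
    deriv (V α) z = V1 α z := by
  have h := hasSum_deriv_of_summable_norm (F := fun (n : ℕ) (z : ℂ) => (Vc α n : ℂ) * z ^ n)
    (summable_Vc h0 h1) (fun n => by fun_prop) isOpen_ball
    (fun n z hz => norm_Vterm (le_of_lt (mem_ball_zero_iff.1 hz)) n) hz
  have h2 : deriv (V α) z = ∑' n : ℕ, deriv (fun z : ℂ => (Vc α n : ℂ) * z ^ n) z := h.tsum_eq.symm
  rw [h2, h.summable.tsum_eq_zero_add, V1]
  simp only [pow_zero, mul_one, deriv_const', zero_add]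
  congr 1
  funext n
  rw [deriv_const_mul_field, deriv_pow_field]
  push_cast
  ring

end Pool.Agent.Helper59.AC
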