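import Pool.Agent.Helper59.ACe

/-! Boundary behaviour of `V` and construction of `P`. -/

open Complex Metric Set Filter Topology

noncomputable section

namespace Pool.Agent.Helper59.AC

variable {α : ℝ}

lemma V_dcc (h0 : 0 < α) (h1 : α < 1) : DiffContOnCl ℂ (V α) (ball 0 1) :=
  ⟨V_diff h0 h1, by rw [closure_ball _ one_ne_zero]; exact V_cont h0 h1⟩

lemma V_circle_deriv (h0 : 0 < α) (h1 : α < 1) (θ : ℝ) :
    HasDerivAt (fun θ : ℝ => V α (Complex.exp (θ * I))) (I * W α (Complex.exp (θ * I))) θ := by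
  have hd : ∀ (n : ℕ) (y : ℝ), HasDerivAt (fun y : ℝ => (Vc α n : ℂ) * (Complex.exp (y * I)) ^ n)
      (I * (((n:ℂ) * Vc α n) * (Complex.exp (y * I)) ^ n)) y := by
    intro n y
    have h2 : HasDerivAt (fun θ : ℝ => ((θ : ℂ) * I)) I y := by
      simpa using (Complex.ofRealCLM.hasDerivAt (x := y)).mul_const I
    have h3 := ((h2.cexp).pow n).const_mul (Vc α n : ℂ)
    refine h3.congr_deriv ?_
    rcases n with _ | n
    · simp
    · push_cast
      rw [pow_succ (Complex.exp (y * I)) n]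
      ring
  have h := hasDerivAt_tsum (y₀ := (0:ℝ)) (summable_nVc h0 h1) hd (by
    intro n y
    rw [norm_mul, Complex.norm_I, one_mul]
    exact norm_Wterm (by rw [Complex.norm_exp_ofReal_mul_I]) n) (by
    exact V_summable h0 h1 (by rw [Complex.norm_exp_ofReal_mul_I])) θ
  refine h.congr_deriv ?_
  rw [tsum_mul_left, W]

lemma V_circle_re (h0 : 0 < α) (h1 : α < 1) :
    ∃ K : ℝ, 0 < K ∧ ∀ θ ∈ Ioo (0:ℝ) (2 * Real.pi),
      (V α (Complex.exp (θ * I))).re = K * (Real.sin (θ / 2)) ^ (2 / α) := by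
  set A : ℝ → ℝ := fun θ => (V α (Complex.exp (θ * I))).re with hA
  have hAd : ∀ θ : ℝ, HasDerivAt A (I * W α (Complex.exp (θ * I))).re θ := fun θ => by
    have := (Complex.reCLM.hasFDerivAt.comp_hasDerivAt θ (V_circle_deriv h0 h1 θ))
    exact this
  have hode : ∀ θ : ℝ, α * Real.sin (θ / 2) * (I * W α (Complex.exp (θ * I))).re =
      Real.cos (θ / 2) * A θ := by
    intro θ
    set s := Real.sin (θ / 2) with hs
    set c := Real.cos (θ / 2) with hc
    have hsc : s ^ 2 + c ^ 2 = 1 := Real.sin_sq_add_cos_sq _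
    set e : ℂ := (c : ℂ) + s * I with he
    have hee : Complex.exp (θ * I) = e ^ 2 := by
      have h2 : Complex.exp ((θ / 2 : ℝ) * I) = e := by
        rw [Complex.exp_mul_I, ← Complex.ofReal_cos, ← Complex.ofReal_sin]
      rw [← h2, ← Complex.exp_nat_mul]
      congr 1
      push_cast
      ring
    have hI : I ^ 2 = -1 := Complex.I_sq
    have hsc' : (s:ℂ) ^ 2 + (c:ℂ) ^ 2 = 1 := by exact_mod_cast hsc
    have e1 : 1 - Complex.exp (θ * I) = -2 * I * s * e := by
      rw [hee, he]
      linear_combination (-1 : ℂ) * hsc' + (-((s:ℂ)^2)+ 2 * (s:ℂ)^2) * hI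
    have e2 : 1 + Complex.exp (θ * I) = 2 * c * e := by
      rw [hee, he]
      linear_combination (-1 : ℂ) * hsc' + (s:ℂ)^2 * hI
    have hene : e ≠ 0 := by
      intro h
      rw [h] at hee
      have := Complex.exp_ne_zero ((θ:ℂ) * I)
      rw [hee] at this
      simp at this
    have hz : ‖Complex.exp ((θ:ℂ) * I)‖ ≤ 1 := by rw [Complex.norm_exp_ofReal_mul_I]
    have h := V_ode h0 h1 hz
    rw [e1, e2] at h
    have h' : (α:ℂ) * s * (I * W α (Complex.exp (θ * I))) =
        c * V α (Complex.exp (θ * I)) + s * I := by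
      have h3 : (2 * e) * ((α:ℂ) * s * (I * W α (Complex.exp (θ * I)))) =
        (2 * e) * (c * V α (Complex.exp (θ * I)) + s * I) := by
        linear_combination (-1 : ℂ) * h
      exact mul_left_cancel₀ (mul_ne_zero two_ne_zero hene) h3
    have h4 := congrArg Complex.re h'
    rw [show (α:ℂ) * s * (I * W α (Complex.exp (θ * I))) =
      ((α * s : ℝ) : ℂ) * (I * W α (Complex.exp (θ * I))) by push_cast; ring,
      Complex.re_ofReal_mul, Complex.add_re, Complex.re_ofReal_mul] at h4
    have h5 : ((s:ℂ) * I).re = 0 := by simp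
    rw [h5, add_zero] at h4
    exact h4
  have hspos : ∀ θ ∈ Ioo (0:ℝ) (2 * Real.pi), 0 < Real.sin (θ / 2) := by
    intro θ hθ
    apply Real.sin_pos_of_pos_of_lt_pi
    · linarith [hθ.1]
    · linarith [hθ.2]
  set G : ℝ → ℝ := fun θ => A θ * (Real.sin (θ / 2)) ^ (-(2 / α)) with hG
  have hGd : ∀ θ ∈ Ioo (0:ℝ) (2 * Real.pi), HasDerivAt G 0 θ := by
    intro θ hθ
    have hsp := hspos θ hθ
    have h2 : HasDerivAt (fun θ : ℝ => Real.sin (θ / 2)) (Real.cos (θ / 2) * (1 / 2)) θ := by
      have := (Real.hasDerivAt_sin (θ / 2)).comp θ ((hasDerivAt_id θ).div_const 2)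
      exact this
    have h3 := h2.rpow_const (p := -(2 / α)) (Or.inl hsp.ne')
    have h4 := (hAd θ).mul h3
    refine h4.congr_deriv ?_
    have h5 := hode θ
    have h6 : Real.sin (θ / 2) ^ (-(2 / α)) = Real.sin (θ / 2) ^ (-(2 / α) - 1) *
        Real.sin (θ / 2) := by
      rw [← Real.rpow_add_one hsp.ne']
      congr 1; ring
    rw [h6]
    have h7 : (I * W α (Complex.exp (θ * I))).re * Real.sin (θ / 2) =
        (1 / α) * (Real.cos (θ / 2) * A θ) := by
      rw [← h5]; field_simp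
    calc (I * W α (Complex.exp (θ * I))).re * (Real.sin (θ / 2) ^ (-(2 / α) - 1) *
          Real.sin (θ / 2)) + A θ * (Real.cos (θ / 2) * (1 / 2) * -(2 / α) *
          Real.sin (θ / 2) ^ (-(2 / α) - 1))
        = Real.sin (θ / 2) ^ (-(2 / α) - 1) * ((I * W α (Complex.exp (θ * I))).re *
          Real.sin (θ / 2)) + A θ * (Real.cos (θ / 2) * (1 / 2) * -(2 / α) *
          Real.sin (θ / 2) ^ (-(2 / α) - 1)) := by ring
      _ = 0 := by rw [h7]; ring
  obtain ⟨K, hK⟩ := isOpen_Ioo.exists_is_const_of_deriv_eq_zero isPreconnected_Ioo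
    (f := G) (fun θ hθ => (hGd θ hθ).differentiableAt.differentiableWithinAt)
    (fun θ hθ => (hGd θ hθ).deriv)
  have hAK : ∀ θ ∈ Ioo (0:ℝ) (2 * Real.pi), A θ = K * (Real.sin (θ / 2)) ^ (2 / α) := by
    intro θ hθ
    have hsp := hspos θ hθ
    have h2 := hK θ hθ
    rw [← h2, hG]
    simp only
    rw [mul_assoc, ← Real.rpow_add hsp]
    simp
  refine ⟨K, ?_, hAK⟩
  by_contra hcon
  push Not at hcon
  have havg := DiffContOnCl.circleAverage (f := V α) (c := 0) (R := 1)
    (by rw [abs_one]; exact V_dcc h0 h1)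
  have hint : CircleIntegrable (V α) 0 1 := by
    apply ContinuousOn.circleIntegrable zero_le_one
    exact (V_cont h0 h1).mono sphere_subset_closedBall
  have h2 := ContinuousLinearMap.circleAverage_comp_comm (c := (0:ℂ)) (R := 1) (f := V α)
    Complex.reCLM hint
  rw [havg, V_zero] at h2
  have h3 : Real.circleAverage (Complex.reCLM ∘ V α) 0 1 ≤ 0 := by
    rw [Real.circleAverage, smul_eq_mul]
    apply mul_nonpos_of_nonneg_of_nonpos (by positivity)
    rw [intervalIntegral.integral_of_le (by positivity),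
      MeasureTheory.integral_Ioc_eq_integral_Ioo]
    apply MeasureTheory.setIntegral_nonpos measurableSet_Ioo
    intro θ hθ
    have h4 : (Complex.reCLM ∘ V α) (circleMap 0 1 θ) = A θ := by
      simp only [Function.comp, Complex.reCLM_apply, hA, circleMap, zero_add, Complex.ofReal_one,
        one_mul]
    rw [h4, hAK θ hθ]
    have := Real.rpow_nonneg (hspos θ hθ).le (2 / α)
    exact mul_nonpos_of_nonpos_of_nonneg hcon this
  rw [h2] at h3
  simp at h3
  linarith

end Pool.Agent.Helper59.AC
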