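import Pool.Agent.Helper59.ACf

/-! Construction of `P`. -/

open Complex Metric Set Filter Topology

noncomputable section

namespace Pool.Agent.Helper59.AC

variable {α : ℝ}

/-- strong minimum principle for the real part -/
lemma re_pos_of_sphere {f : ℂ → ℂ} (hf : DiffContOnCl ℂ f (ball 0 1))
    (hs : ∀ z ∈ sphere (0:ℂ) 1, 0 ≤ (f z).re) (h0 : 0 < (f 0).re) :
    ∀ z ∈ ball (0:ℂ) 1, 0 < (f z).re := by
  set g : ℂ → ℂ := fun z => Complex.exp (-f z) with hg
  have hgd : DiffContOnCl ℂ g (ball 0 1) :=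
    ⟨hf.differentiableOn.neg.cexp, Complex.continuous_exp.comp_continuousOn hf.continuousOn.neg⟩
  have hgn : ∀ z, ‖g z‖ = Real.exp (-(f z).re) := by
    intro z
    simp [hg, Complex.norm_exp]
  have hle : ∀ z ∈ ball (0:ℂ) 1, ‖g z‖ ≤ 1 := by
    intro z hz
    apply Complex.norm_le_of_forall_mem_frontier_norm_le isBounded_ball hgd _ (subset_closure hz)
    intro w hw
    rw [frontier_ball _ one_ne_zero] at hw
    rw [hgn]
    have := hs w hw
    exact Real.exp_le_one_iff.2 (by linarith)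
  intro z hz
  have h1 : 0 ≤ (f z).re := by
    have := hle z hz
    rw [hgn, Real.exp_le_one_iff] at this
    linarith
  rcases h1.lt_or_eq with h | h
  · exact h
  · exfalso
    have hmax : IsMaxOn (norm ∘ g) (ball (0:ℂ) 1) z := by
      intro w hw
      simp only [Function.comp, mem_ofPred_eq]
      rw [hgn z, ← h, neg_zero, Real.exp_zero]
      exact hle w hw
    have h2 := Complex.norm_eqOn_of_isPreconnected_of_isMaxOn
      (convex_ball (0:ℂ) 1).isPreconnected isOpen_ball hgd.differentiableOn hz hmax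
      (mem_ball_self zero_lt_one)
    simp only [Function.comp, Function.const] at h2
    rw [hgn, hgn, ← h, neg_zero, Real.exp_zero, Real.exp_eq_one_iff] at h2
    linarith

lemma sphere_param {z : ℂ} (hz : z ∈ sphere (0:ℂ) 1) (h1 : z ≠ 1) :
    ∃ θ ∈ Ioo (0:ℝ) (2 * Real.pi), z = Complex.exp (θ * I) := by
  have hn : ‖z‖ = 1 := mem_sphere_zero_iff_norm.1 hz
  have he : z = Complex.exp (Complex.arg z * I) := by
    conv_lhs => rw [← Complex.norm_mul_exp_arg_mul_I z, hn]
    simp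
  rcases lt_trichotomy (Complex.arg z) 0 with h | h | h
  · refine ⟨Complex.arg z + 2 * Real.pi, ⟨?_, ?_⟩, ?_⟩
    · linarith [Complex.neg_pi_lt_arg z, Real.pi_pos]
    · linarith
    · push_cast
      rw [add_mul, Complex.exp_add, Complex.exp_two_pi_mul_I, mul_one]
      exact he
  · exfalso
    rw [h] at he
    apply h1
    rw [he]; simp
  · exact ⟨Complex.arg z, ⟨h, by linarith [Complex.arg_le_pi z, Real.pi_pos]⟩, he⟩

lemma V_one (h0 : 0 < α) (h1 : α < 1) : V α 1 = 0 := by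
  have h := V_ode h0 h1 (z := 1) (by simp)
  have h2 : (2:ℂ) * V α 1 = 0 := by linear_combination h
  exact (mul_eq_zero.1 h2).resolve_left two_ne_zero

lemma V_sphere_pos (h0 : 0 < α) (h1 : α < 1) {z : ℂ} (hz : z ∈ sphere (0:ℂ) 1) (hz1 : z ≠ 1) :
    0 < (V α z).re := by
  obtain ⟨K, hK, hV⟩ := V_circle_re h0 h1
  obtain ⟨θ, hθ, rfl⟩ := sphere_param hz hz1
  rw [hV θ hθ]
  have hsp : 0 < Real.sin (θ / 2) := by
    apply Real.sin_pos_of_pos_of_lt_pi
    · linarith [hθ.1]
    · linarith [hθ.2]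
  have := Real.rpow_pos_of_pos hsp (2 / α)
  positivity

lemma V_re_pos (h0 : 0 < α) (h1 : α < 1) {z : ℂ} (hz : z ∈ ball (0:ℂ) 1) : 0 < (V α z).re := by
  apply re_pos_of_sphere (V_dcc h0 h1) _ _ z hz
  · intro w hw
    by_cases hw1 : w = 1
    · rw [hw1, V_one h0 h1]; simp
    · exact (V_sphere_pos h0 h1 hw hw1).le
  · rw [V_zero]; simp

lemma V_re_pos' (h0 : 0 < α) (h1 : α < 1) {z : ℂ} (hz : z ∈ closedBall (0:ℂ) 1) (hz1 : z ≠ 1) :
    0 < (V α z).re := by
  rcases (mem_closedBall_zero_iff.1 hz).lt_or_eq with h | h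
  · exact V_re_pos h0 h1 (mem_ball_zero_iff.2 h)
  · exact V_sphere_pos h0 h1 (mem_sphere_zero_iff_norm.2 h) hz1

lemma V_ne (h0 : 0 < α) (h1 : α < 1) {z : ℂ} (hz : z ∈ closedBall (0:ℂ) 1) (hz1 : z ≠ 1) :
    V α z ≠ 0 := by
  intro h
  have := V_re_pos' h0 h1 hz hz1
  rw [h] at this
  simp at this

lemma V_lower (h0 : 0 < α) (h1 : α < 1) {z : ℂ} (hz : z ∈ ball (0:ℂ) 1) :
    (1 - ‖z‖) ≤ (1 + ‖z‖) * ‖V α z‖ := by
  have hV := fun (w : ℂ) (hw : w ∈ ball (0:ℂ) 1) => V_re_pos h0 h1 hw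
  have hne : ∀ w ∈ ball (0:ℂ) 1, 1 + V α w ≠ 0 := by
    intro w hw h
    have := congrArg Complex.re h
    simp at this
    linarith [hV w hw]
  have hd : DifferentiableOn ℂ (fun w => (1 - V α w) / (1 + V α w)) (ball 0 1) :=
    ((V_diff h0 h1).const_sub 1).div ((V_diff h0 h1).const_add 1) hne
  have hm : MapsTo (fun w => (1 - V α w) / (1 + V α w)) (ball 0 1) (closedBall 0 1) := by
    intro w hw
    rw [mem_closedBall_zero_iff, norm_div, div_le_one (norm_pos_iff.2 (hne w hw))]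
    rw [← sq_le_sq₀ (norm_nonneg _) (norm_nonneg _), ← Complex.normSq_eq_norm_sq,
      ← Complex.normSq_eq_norm_sq, Complex.normSq_apply, Complex.normSq_apply]
    simp
    nlinarith [hV w hw]
  have h := Complex.norm_le_norm_of_mapsTo_ball (R := 1) hd hm (by simp [V_zero])
    (mem_ball_zero_iff.1 hz)
  rw [norm_div, div_le_iff₀ (norm_pos_iff.2 (hne z hz))] at h
  have h2 : 1 - ‖V α z‖ ≤ ‖1 - V α z‖ := by
    have := norm_sub_norm_le (1:ℂ) (V α z)
    simpa using this
  have h3 : ‖1 + V α z‖ ≤ 1 + ‖V α z‖ := by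
    have := norm_add_le (1:ℂ) (V α z)
    simpa using this
  have h4 : ‖z‖ * ‖1 + V α z‖ ≤ ‖z‖ * (1 + ‖V α z‖) := by gcongr
  linarith

lemma W_one (h0 : 0 < α) (h1 : α < 1) : 1 - α * W α 1 ≠ 0 := by
  have hW : ContinuousWithinAt (W α) (closedBall 0 1) 1 := W_cont h0 h1 1 (by simp)
  have hpath : Tendsto (fun r : ℝ => (r : ℂ)) (𝓝[<] 1) (𝓝[closedBall 0 1] 1) := by
    apply tendsto_nhdsWithin_iff.2 ⟨?_, ?_⟩
    · have : Tendsto (fun r : ℝ => (r : ℂ)) (𝓝 1) (𝓝 ((1:ℝ):ℂ)) :=
        Complex.continuous_ofReal.continuousAt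
      rw [Complex.ofReal_one] at this
      exact this.mono_left nhdsWithin_le_nhds
    · filter_upwards [Ioo_mem_nhdsLT (show (0:ℝ) < 1 by norm_num)] with r hr
      rw [mem_closedBall_zero_iff, Complex.norm_real, Real.norm_eq_abs, abs_of_pos hr.1]
      exact hr.2.le
  have hlim : Tendsto (fun r : ℝ => ‖1 - α * W α (r:ℂ)‖) (𝓝[<] 1) (𝓝 ‖1 - α * W α 1‖) := by
    have := hW.tendsto.comp hpath
    exact ((this.const_mul (α:ℂ)).const_sub 1).norm
  have hge : ∀ᶠ r : ℝ in 𝓝[<] 1, 1 ≤ ‖1 - α * W α (r:ℂ)‖ := by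
    filter_upwards [Ioo_mem_nhdsLT (show (0:ℝ) < 1 by norm_num)] with r hr
    have hnr : ‖(r:ℂ)‖ = r := by
      rw [Complex.norm_real, Real.norm_eq_abs, abs_of_pos hr.1]
    have h2 := V_lower h0 h1 (z := (r:ℂ)) (by rw [mem_ball_zero_iff, hnr]; exact hr.2)
    have h3 := V_ode h0 h1 (z := (r:ℂ)) (by rw [hnr]; exact hr.2.le)
    have h4 : (1 - (r:ℂ)) * (1 - α * W α r) = (1 + r) * V α r := by
      linear_combination (-1:ℂ) * h3
    have h5 := congrArg norm h4
    rw [norm_mul, norm_mul] at h5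
    have h6 : ‖(1:ℂ) - r‖ = 1 - r := by
      rw [← Complex.ofReal_one, ← Complex.ofReal_sub, Complex.norm_real, Real.norm_eq_abs,
        abs_of_pos (by linarith [hr.2])]
    have h7 : ‖(1:ℂ) + r‖ = 1 + r := by
      rw [← Complex.ofReal_one, ← Complex.ofReal_add, Complex.norm_real, Real.norm_eq_abs,
        abs_of_pos (by linarith [hr.1])]
    rw [h6, h7] at h5
    rw [hnr, ← h5] at h2
    have h8 : 0 < 1 - r := by linarith [hr.2]
    nlinarith
  have h2 := ge_of_tendsto hlim hge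
  intro h3
  rw [h3, norm_zero] at h2
  linarith

/-- the auxiliary function `-(α/2)(1-z)²V'/V` -/
def T (α : ℝ) (z : ℂ) : ℂ := -(α / 2) * (1 - z) ^ 2 * V1 α z / V α z

lemma T_cont (h0 : 0 < α) (h1 : α < 1) : ContinuousOn (T α) (closedBall 0 1) := by
  intro z hz
  by_cases hz1 : z = 1
  · subst hz1
    have hW : ContinuousWithinAt (W α) (closedBall 0 1) 1 := W_cont h0 h1 1 (by simp)
    have hV1 : ContinuousWithinAt (V1 α) (closedBall 0 1) 1 := V1_cont h0 h1 1 (by simp)
    have hc : ContinuousWithinAt (fun z => -(α / 2) * (1 - z) * (1 + z) * V1 α z / (1 - α * W α z))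
        (closedBall 0 1) 1 := by
      have hd1 : ContinuousWithinAt (fun z => 1 - α * W α z) (closedBall 0 1) 1 :=
        (hW.const_mul (α:ℂ)).const_sub 1
      have hd2 : ContinuousWithinAt (fun z => -(α / 2) * (1 - z) * (1 + z) * V1 α z)
          (closedBall 0 1) 1 := by
        apply ContinuousWithinAt.mul _ hV1
        exact (by fun_prop : Continuous (fun z : ℂ => -((α:ℂ) / 2) * (1 - z) * (1 + z))).continuousWithinAt
      exact ContinuousWithinAt.div hd2 hd1 (W_one h0 h1)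
    apply hc.congr_of_eventuallyEq
    · have hne : ∀ᶠ z in 𝓝[closedBall 0 1] (1:ℂ), 1 - α * W α z ≠ 0 := by
        have : ContinuousWithinAt (fun z => 1 - α * W α z) (closedBall 0 1) 1 :=
          (hW.const_mul (α:ℂ)).const_sub 1
        exact this.eventually_ne (W_one h0 h1)
      filter_upwards [hne, self_mem_nhdsWithin] with z hz2 hz3
      by_cases hz4 : z = 1
      · subst hz4
        simp [T]
      · have hVz := V_ne h0 h1 hz3 hz4
        have h3 := V_ode h0 h1 (mem_closedBall_zero_iff.1 hz3)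
        rw [T, div_eq_div_iff hVz hz2]
        linear_combination (((α:ℂ) / 2) * (1 - z) * V1 α z) * h3
    · simp [T]
  · have hVz := V_ne h0 h1 hz hz1
    apply ContinuousWithinAt.div _ (V_cont h0 h1 z hz) hVz
    apply ContinuousWithinAt.mul _ (V1_cont h0 h1 z hz)
    exact (by fun_prop : Continuous (fun z : ℂ => -((α:ℂ) / 2) * (1 - z) ^ 2)).continuousWithinAt

lemma T_re_pos (h0 : 0 < α) (h1 : α < 1) {z : ℂ} (hz : z ∈ ball (0:ℂ) 1) : 0 < (T α z).re := by
  have hdcc : DiffContOnCl ℂ (T α) (ball 0 1) := by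
    refine ⟨?_, by rw [closure_ball _ one_ne_zero]; exact T_cont h0 h1⟩
    intro w hw
    have hVw : V α w ≠ 0 := by
      intro h
      have := V_re_pos h0 h1 hw
      rw [h] at this
      simp at this
    apply DifferentiableWithinAt.div _ (V_diff h0 h1 w hw) hVw
    apply DifferentiableWithinAt.mul _ (V1_diff h0 h1 w hw)
    fun_prop
  apply re_pos_of_sphere hdcc _ _ z hz
  · intro w hw
    by_cases hw1 : w = 1
    · subst hw1; simp [T]
    · have hwc : w ∈ closedBall (0:ℂ) 1 := sphere_subset_closedBall hw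
      have hVw := V_ne h0 h1 hwc hw1
      have hVp := V_re_pos' h0 h1 hwc hw1
      have hwn : ‖w‖ = 1 := mem_sphere_zero_iff_norm.1 hw
      have hw0 : w ≠ 0 := by
        intro h; rw [h] at hwn; simp at hwn
      have h1w : (1:ℂ) - w ≠ 0 := sub_ne_zero.2 (Ne.symm hw1)
      have hode := V_ode h0 h1 hwn.le
      rw [W_eq h0 h1 hwn.le] at hode
      have hTe : T α w = (1 / 2) * ((1 - w) ^ 2 / w) * ((1 + w) / (1 - w) - (V α w)⁻¹) := by
        rw [T]
        field_simp
        linear_combination (-1 : ℂ) * hode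
      have hcw : w * (starRingEnd ℂ) w = 1 := by
        rw [Complex.mul_conj, Complex.normSq_eq_norm_sq, hwn]; simp
      have hww : (1 - w) ^ 2 / w = ((2 * (w.re - 1) : ℝ) : ℂ) := by
        rw [div_eq_iff hw0]
        have h3 : ((2 * w.re : ℝ) : ℂ) = w + (starRingEnd ℂ) w := (Complex.add_conj w).symm
        have h4 : ((2 * (w.re - 1) : ℝ) : ℂ) = w + (starRingEnd ℂ) w - 2 := by
          rw [← h3]; push_cast; ring
        rw [h4]
        linear_combination (-1:ℂ) * hcw
      rw [hww] at hTe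
      have hTe2 : T α w = ((w.re - 1 : ℝ) : ℂ) * ((1 + w) / (1 - w) - (V α w)⁻¹) := by
        rw [hTe]; push_cast; ring
      rw [hTe2, Complex.re_ofReal_mul, Complex.sub_re, re_cayley hw1, hwn]
      simp only [one_pow, sub_self, zero_div, zero_sub]
      have h5 : w.re ≤ 1 := by
        have := Complex.re_le_norm w
        rw [hwn] at this; exact this
      have h6 : 0 ≤ ((V α w)⁻¹).re := by
        rw [Complex.inv_re]
        exact div_nonneg hVp.le (Complex.normSq_nonneg _)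
      nlinarith
  · have : T α 0 = ((α / (1 + α) : ℝ) : ℂ) := by
      rw [T, V_zero, V1_zero]
      push_cast
      have h3 : (1 + (α:ℂ)) ≠ 0 := by
        have : (1 + α : ℝ) ≠ 0 := by positivity
        exact_mod_cast this
      field_simp
      ring
    rw [this, Complex.ofReal_re]
    positivity

lemma V1_ne (h0 : 0 < α) (h1 : α < 1) {z : ℂ} (hz : z ∈ ball (0:ℂ) 1) : V1 α z ≠ 0 := by
  intro h
  have := T_re_pos h0 h1 hz
  rw [T, h] at this
  simp at this

/-- the extremal solution `P = 1 / V` -/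
def PF (α : ℝ) (z : ℂ) : ℂ := (V α z)⁻¹

lemma V_ne_ball (h0 : 0 < α) (h1 : α < 1) {z : ℂ} (hz : z ∈ ball (0:ℂ) 1) : V α z ≠ 0 := by
  intro h
  have := V_re_pos h0 h1 hz
  rw [h] at this
  simp at this

theorem PF_data (h0 : 0 < α) (h1 : α < 1) : PData α (PF α) := by
  have hdV : ∀ z ∈ ball (0:ℂ) 1, HasDerivAt (V α) (V1 α z) z := by
    intro z hz
    have := ((V_diff h0 h1 z hz).differentiableAt (isOpen_ball.mem_nhds hz)).hasDerivAt
    rwa [V_deriv h0 h1 hz] at this
  have hdP : ∀ z ∈ ball (0:ℂ) 1, HasDerivAt (PF α) (-V1 α z / (V α z) ^ 2) z := by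
    intro z hz
    exact (hdV z hz).inv (V_ne_ball h0 h1 hz)
  refine ⟨?_, ?_, ?_, ?_, ?_, ?_, ?_⟩
  · intro z hz
    exact (hdP z hz).differentiableAt.differentiableWithinAt
  · simp [PF, V_zero]
  · intro z hz
    rw [PF, Complex.inv_re]
    exact div_pos (V_re_pos h0 h1 hz) (Complex.normSq_pos.2 (V_ne_ball h0 h1 hz))
  · intro z hz
    have hV := V_ne_ball h0 h1 hz
    have hz1 : (1:ℂ) - z ≠ 0 := by
      intro h
      have : z = 1 := (sub_eq_zero.1 h).symm
      rw [this] at hz; simp at hz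
    have hode := V_ode h0 h1 (le_of_lt (mem_ball_zero_iff.1 hz))
    rw [W_eq h0 h1 (le_of_lt (mem_ball_zero_iff.1 hz))] at hode
    rw [(hdP z hz).deriv, PF]
    field_simp
    linear_combination (-1:ℂ) * hode
  · intro z hz
    rw [(hdP z hz).deriv]
    exact div_ne_zero (neg_ne_zero.2 (V1_ne h0 h1 hz)) (pow_ne_zero _ (V_ne_ball h0 h1 hz))
  · intro M
    have hc : ContinuousWithinAt (V α) (closedBall 0 1) 1 := V_cont h0 h1 1 (by simp)
    rw [Metric.continuousWithinAt_iff] at hc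
    obtain ⟨ε, hε, hc⟩ := hc ((|M| + 1)⁻¹) (by positivity)
    refine ⟨ε, hε, fun z hz hz1 => ?_⟩
    have h3 := hc (ball_subset_closedBall hz) (by rwa [dist_eq_norm])
    rw [V_one h0 h1, dist_zero_right] at h3
    rw [PF, norm_inv]
    have h4 : 0 < ‖V α z‖ := norm_pos_iff.2 (V_ne_ball h0 h1 hz)
    have h5 : |M| + 1 < ‖V α z‖⁻¹ := by
      rw [lt_inv_comm₀ (by positivity) h4]; exact h3
    linarith [le_abs_self M]
  · intro ε hε
    set K : Set ℂ := closedBall (0:ℂ) 1 ∩ {z | ε ≤ ‖z - 1‖} with hK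
    have hKc : IsCompact K := by
      apply (isCompact_closedBall (0:ℂ) 1).inter_right
      exact isClosed_le continuous_const (by fun_prop)
    have hK1 : ∀ z ∈ K, z ≠ 1 := by
      rintro z ⟨_, hz2⟩ h
      rw [mem_ofPred_eq, h] at hz2
      simp at hz2
      linarith
    have hcont : ContinuousOn (fun z => (PF α z).re) K := by
      apply Complex.continuous_re.comp_continuousOn
      apply ContinuousOn.inv₀ ((V_cont h0 h1).mono inter_subset_left)
      intro z hz
      exact V_ne h0 h1 hz.1 (hK1 z hz)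
    have hpos : ∀ z ∈ K, 0 < (PF α z).re := by
      intro z hz
      rw [PF, Complex.inv_re]
      exact div_pos (V_re_pos' h0 h1 hz.1 (hK1 z hz))
        (Complex.normSq_pos.2 (V_ne h0 h1 hz.1 (hK1 z hz)))
    rcases K.eq_empty_or_nonempty with h | h
    · refine ⟨1, one_pos, fun z hz hz2 => ?_⟩
      have : z ∈ K := ⟨ball_subset_closedBall hz, hz2⟩
      rw [h] at this
      exact absurd this (notMem_empty _)
    · obtain ⟨z0, hz0, hmin⟩ := hKc.exists_isMinOn h hcont
      refine ⟨(PF α z0).re, hpos z0 hz0, fun z hz hz2 => ?_⟩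
      exact hmin ⟨ball_subset_closedBall hz, hz2⟩

end Pool.Agent.Helper59.AC
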