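import Pool.Agent.Helper59.ACDefs
import Pool.Agent.Helper59.ACb
import Pool.Agent.Helper59.ACg

/-! The upper bound for the coefficients of alpha-convex functions. -/

open Complex Metric Set Filter Topology Finset
open scoped Nat

noncomputable section

namespace Pool.Agent.Helper59.AC

lemma const_of_D_zero {u : ℂ → ℂ} {s : ℝ} (hu : DifferentiableOn ℂ u (ball 0 s))
    (h : ∀ z ∈ ball (0:ℂ) s, z ≠ 0 → deriv u z = 0) : ∀ z ∈ ball (0:ℂ) s, u z = u 0 := by
  intro z hz
  have hs : 0 < s := (norm_nonneg z).trans_lt (mem_ball_zero_iff.1 hz)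
  have hc : ContinuousOn (deriv u) (ball 0 s) := (hu.deriv isOpen_ball).continuousOn
  have hnh : ball (0:ℂ) s ∈ 𝓝 (0:ℂ) := isOpen_ball.mem_nhds (mem_ball_self hs)
  have h0 : deriv u 0 = 0 := by
    have h1 : Tendsto (deriv u) (𝓝[≠] 0) (𝓝 (deriv u 0)) :=
      (hc.continuousAt hnh).tendsto.mono_left nhdsWithin_le_nhds
    have h2 : Tendsto (deriv u) (𝓝[≠] 0) (𝓝 0) := by
      apply tendsto_const_nhds.congr'
      filter_upwards [self_mem_nhdsWithin, nhdsWithin_le_nhds hnh] with w hw hw2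
      exact (h w hw2 hw).symm
    exact tendsto_nhds_unique h1 h2
  have hd : ∀ w ∈ ball (0:ℂ) s, deriv u w = 0 := by
    intro w hw
    by_cases hw0 : w = 0
    · rw [hw0, h0]
    · exact h w hw hw0
  obtain ⟨c, hc⟩ := isOpen_ball.exists_is_const_of_deriv_eq_zero
    (convex_ball (0:ℂ) s).isPreconnected hu hd
  rw [hc z hz, hc 0 (mem_ball_self hs)]

/-- `p` cannot vanish. -/
lemma no_zero {α : ℝ} (hα : 0 < α) {p : ℂ → ℂ} (hp : DifferentiableOn ℂ p (ball 0 1))
    (hp1 : p 0 = 1)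
    (hpos : ∀ z ∈ ball (0:ℂ) 1, z ≠ 0 → p z ≠ 0 → 0 < (p z + α * (z * deriv p z) / p z).re) :
    ∀ z ∈ ball (0:ℂ) 1, p z ≠ 0 := by
  intro z1 hz1 hpz
  have hz10 : z1 ≠ 0 := by
    intro h; rw [h, hp1] at hpz; exact one_ne_zero hpz
  have hnh : ball (0:ℂ) 1 ∈ 𝓝 z1 := isOpen_ball.mem_nhds hz1
  have hA : AnalyticAt ℂ p z1 := hp.analyticAt hnh
  have hne : ¬ ∀ᶠ z in 𝓝 z1, p z = 0 := by
    intro hev
    have hAn : AnalyticOnNhd ℂ p (ball 0 1) := hp.analyticOnNhd isOpen_ball
    have := hAn.eqOn_zero_of_preconnected_of_eventuallyEq_zero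
      (convex_ball (0:ℂ) 1).isPreconnected hz1 hev
    have h2 := this (mem_ball_self one_pos)
    rw [hp1] at h2
    exact one_ne_zero h2
  obtain ⟨n, g, hg, hg0, hpg⟩ := hA.exists_eventuallyEq_pow_smul_nonzero_iff.2 hne
  have hn : n ≠ 0 := by
    rintro rfl
    have := hpg.self_of_nhds
    simp [hpz] at this
    exact hg0 this.symm
  have hpg' : (fun z => p z) =ᶠ[𝓝 z1] fun z => (z - z1) ^ n * g z := by
    filter_upwards [hpg] with z hz
    rw [hz, smul_eq_mul]
  have hgev : ∀ᶠ z in 𝓝 z1, g z ≠ 0 := hg.continuousAt.eventually_ne hg0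
  have hgan : ∀ᶠ z in 𝓝 z1, AnalyticAt ℂ g z := hg.eventually_analyticAt
  set B : ℂ → ℂ := fun z => p z + α * (z * deriv g z) / g z with hB
  have hBc : ContinuousAt B z1 := by
    apply ContinuousAt.add hA.continuousAt
    apply ContinuousAt.div _ hg.continuousAt hg0
    apply ContinuousAt.mul continuousAt_const
    exact continuousAt_id.mul hg.deriv.continuousAt
  have hev : ∀ᶠ z in 𝓝 z1, z ≠ z1 → 0 < (B z + α * n * (z / (z - z1))).re := by
    filter_upwards [hpg', hpg'.deriv, hgev, hgan, hnh, isOpen_ne.mem_nhds hz10]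
      with z h1 h2 h3 h4 h5 h6 hzz
    have hsub : z - z1 ≠ 0 := sub_ne_zero.2 hzz
    have hpz : p z ≠ 0 := by
      have h1' : p z = (z - z1) ^ n * g z := h1
      rw [h1']
      exact mul_ne_zero (pow_ne_zero _ hsub) h3
    have hd : HasDerivAt (fun z => (z - z1) ^ n * g z)
        ((n * (z - z1) ^ (n - 1) * 1) * g z + (z - z1) ^ n * deriv g z) z :=
      (((hasDerivAt_id z).sub_const z1).pow n).mul h4.differentiableAt.hasDerivAt
    rw [hd.deriv] at h2
    have h7 := hpos z h5 h6 hpz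
    have h8 : p z + α * (z * deriv p z) / p z = B z + α * n * (z / (z - z1)) := by
      have h1' : p z = (z - z1) ^ n * g z := h1
      have h2' : deriv p z = ((n * (z - z1) ^ (n - 1) * 1) * g z + (z - z1) ^ n * deriv g z) := h2
      rw [hB]
      simp only
      rw [add_assoc]
      congr 1
      rw [h2', h1']
      obtain ⟨m, rfl⟩ := Nat.exists_eq_succ_of_ne_zero hn
      simp only [Nat.succ_eq_add_one, Nat.add_sub_cancel]
      field_simp
      ring
    rwa [h8] at h7
  -- the path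
  have hpath : Tendsto (fun t : ℝ => z1 * (1 - (t:ℂ))) (𝓝[>] 0) (𝓝 z1) := by
    have : Continuous (fun t : ℝ => z1 * (1 - (t:ℂ))) := by fun_prop
    have h2 := (this.tendsto 0).mono_left (nhdsWithin_le_nhds (s := Ioi (0:ℝ)))
    simpa using h2
  have hBre : ∀ᶠ z in 𝓝 z1, (B z).re < (B z1).re + 1 :=
    (Complex.continuous_re.continuousAt.comp hBc).eventually_lt continuousAt_const
      (by simp)
  set C : ℝ := |(B z1).re + 1| + 1 with hC
  have hCpos : 0 < C := by positivity
  have hsm : ∀ᶠ t : ℝ in 𝓝[>] 0, t < min (1/2) (α / (2 * C)) :=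
    nhdsWithin_le_nhds (Iio_mem_nhds (by positivity))
  obtain ⟨t, ht1, ht2, ht3, ht0⟩ :=
    ((hpath.eventually hev).and ((hpath.eventually hBre).and (hsm.and self_mem_nhdsWithin))).exists
  have ht0' : 0 < t := ht0
  have htne : z1 * (1 - (t:ℂ)) ≠ z1 := by
    intro h
    have h2 : z1 * (t:ℂ) = 0 := by linear_combination (-1:ℂ) * h
    rcases mul_eq_zero.1 h2 with h3 | h3
    · exact hz10 h3
    · exact ht0'.ne' (by exact_mod_cast h3)
  have h1 := ht1 htne
  have h2 : z1 * (1 - (t:ℂ)) / (z1 * (1 - (t:ℂ)) - z1) = ((-((1 - t) / t) : ℝ) : ℂ) := by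
    have htc : (t:ℂ) ≠ 0 := by exact_mod_cast ht0'.ne'
    have h3 : z1 * (1 - (t:ℂ)) - z1 = -(z1 * t) := by ring
    rw [h3]
    push_cast
    field_simp
  rw [h2] at h1
  have h3 : (α:ℂ) * n * ((-((1 - t) / t) : ℝ) : ℂ) = ((-(α * n * ((1 - t) / t)) : ℝ) : ℂ) := by
    push_cast; ring
  rw [h3, Complex.add_re, Complex.ofReal_re] at h1
  have h4 : (1:ℝ) ≤ n := by exact_mod_cast Nat.one_le_iff_ne_zero.2 hn
  have h5 : t < 1 / 2 := ht3.trans_le (min_le_left _ _)
  have h6 : t < α / (2 * C) := ht3.trans_le (min_le_right _ _)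
  have h7 : C < α * ((1 - t) / t) := by
    rw [lt_div_iff₀ (by positivity)] at h6
    rw [← mul_div_assoc, lt_div_iff₀ ht0']
    nlinarith
  have h8 : α * ((1 - t) / t) ≤ α * n * ((1 - t) / t) := by
    have : 0 ≤ (1 - t) / t := div_nonneg (by linarith) ht0'.le
    have h9 : 0 ≤ α * ((1 - t) / t) := mul_nonneg hα.le this
    nlinarith
  have h9 : (B z1).re + 1 ≤ C := by
    rw [hC]; linarith [le_abs_self ((B z1).re + 1)]
  linarith

/-- Key factorisation. -/
lemma factor {α : ℝ} {g p L : ℂ → ℂ} (hg : DifferentiableOn ℂ g (ball 0 1)) (hg0 : g 0 = 1)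
    (hp : DifferentiableOn ℂ p (ball 0 1)) (hp1 : p 0 = 1)
    (hpre : ∀ z ∈ ball (0:ℂ) 1, 0 < (p z).re)
    (hgp : ∀ z ∈ ball (0:ℂ) 1, z * deriv g z = g z * (p z - 1))
    (hL : DifferentiableOn ℂ L (ball 0 1)) (hL0 : L 0 = 0)
    (hLq : ∀ z ∈ ball (0:ℂ) 1, z * deriv L z = p z + α * (z * deriv p z) / p z - 1) :
    ∀ z ∈ ball (0:ℂ) 1, g z * p z = Complex.exp (L z) * Complex.exp ((1 - α) * Complex.log (p z)) := by
  set u : ℂ → ℂ := fun z => g z * p z * Complex.exp (-(L z) - (1 - α) * Complex.log (p z)) with hu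
  have hslit : ∀ z ∈ ball (0:ℂ) 1, p z ∈ slitPlane := fun z hz => Or.inl (hpre z hz)
  have hat : ∀ {v : ℂ → ℂ}, DifferentiableOn ℂ v (ball 0 1) → ∀ z ∈ ball (0:ℂ) 1,
      HasDerivAt v (deriv v z) z := fun hv z hz =>
    ((hv z hz).differentiableAt (isOpen_ball.mem_nhds hz)).hasDerivAt
  have hud : ∀ z ∈ ball (0:ℂ) 1, HasDerivAt u
      ((deriv g z * p z + g z * deriv p z) * Complex.exp (-(L z) - (1 - α) * Complex.log (p z)) +
        g z * p z * (Complex.exp (-(L z) - (1 - α) * Complex.log (p z)) *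
          (-(deriv L z) - (1 - α) * (deriv p z / p z)))) z := by
    intro z hz
    exact ((hat hg z hz).mul (hat hp z hz)).mul
      (((hat hL z hz).neg.sub (((hat hp z hz).clog (hslit z hz)).const_mul (1 - (α:ℂ)))).cexp)
  have hconst := const_of_D_zero (u := u) (s := 1)
    (fun z hz => (hud z hz).differentiableAt.differentiableWithinAt) (by
      intro z hz hz0
      rw [(hud z hz).deriv]
      have hpz : p z ≠ 0 := by
        intro h
        have := hpre z hz
        rw [h] at this; simp at this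
      have h1 := hgp z hz
      have h2 := hLq z hz
      have h2' : z * deriv L z * p z = p z * p z + α * (z * deriv p z) - p z := by
        rw [h2]; field_simp
      have h3 : z * ((deriv g z * p z + g z * deriv p z) *
          Complex.exp (-(L z) - (1 - α) * Complex.log (p z)) +
        g z * p z * (Complex.exp (-(L z) - (1 - α) * Complex.log (p z)) *
          (-(deriv L z) - (1 - α) * (deriv p z / p z)))) = 0 := by
        set e := Complex.exp (-(L z) - (1 - α) * Complex.log (p z))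
        have h4 : p z * (deriv p z / p z) = deriv p z := by field_simp
        linear_combination (e * p z) * h1 - (e * g z) * h2' - (e * g z * (1 - α) * z) * h4
      exact (mul_eq_zero.1 h3).resolve_left hz0)
  intro z hz
  have h1 := hconst z hz
  have h2 : u 0 = 1 := by
    rw [hu]; simp [hg0, hp1, hL0]
  rw [h2, hu] at h1
  simp only at h1
  rw [← Complex.exp_add]
  have h3 : Complex.exp (L z + (1 - α) * Complex.log (p z)) =
      (Complex.exp (-(L z) - (1 - α) * Complex.log (p z)))⁻¹ := by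
    rw [← Complex.exp_neg]; congr 1; ring
  rw [h3]
  exact eq_inv_of_mul_eq_one_left h1

/-- the function `P^{1-α}` -/
def PiF (α : ℝ) (w : ℂ) : ℂ := Complex.exp ((1 - α) * Complex.log (PF α w))

lemma PiF_diff {α : ℝ} (h0 : 0 < α) (h1 : α < 1) : DifferentiableOn ℂ (PiF α) (ball 0 1) := by
  have hP := PF_data h0 h1
  apply DifferentiableOn.cexp
  apply DifferentiableOn.const_mul
  exact hP.diff.clog (fun z hz => Or.inl (hP.re_pos z hz))

/-- The upper bound, first form. -/
theorem upper_aux {α : ℝ} (h0 : 0 < α) (h1 : α < 1) {f : ℂ → ℂ} (hf : InM α f) (m : ℕ) :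
    ((m:ℝ) + 1) * ‖cf f (m + 1)‖ ≤ ∑ k ∈ range (m + 1), ‖cf (PiF α) k‖ * (((m - k : ℕ) : ℝ) + 1) := by
  obtain ⟨hfd, hinj, hf0, hf1, hcond⟩ := hf
  have hP := PF_data h0 h1
  set g : ℂ → ℂ := dslope f 0 with hg
  have hgd : DifferentiableOn ℂ g (ball 0 1) := dslope_differentiableOn one_pos hfd
  have hfg : ∀ z, f z = z * g z := by
    intro z
    have := eq_add_mul_dslope f z
    rw [hf0, zero_add] at this
    exact this
  have hg0 : g 0 = 1 := by rw [hg, dslope_same, hf1]
  have hgne : ∀ z ∈ ball (0:ℂ) 1, g z ≠ 0 := by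
    intro z hz hgz
    by_cases hz0 : z = 0
    · rw [hz0, hg0] at hgz; exact one_ne_zero hgz
    · apply hz0
      apply hinj hz (mem_ball_self one_pos)
      rw [hf0, hfg, hgz, mul_zero]
  have hat : ∀ {v : ℂ → ℂ}, DifferentiableOn ℂ v (ball 0 1) → ∀ z ∈ ball (0:ℂ) 1,
      HasDerivAt v (deriv v z) z := fun hv z hz =>
    ((hv z hz).differentiableAt (isOpen_ball.mem_nhds hz)).hasDerivAt
  have hf' : DifferentiableOn ℂ (deriv f) (ball 0 1) := hfd.deriv isOpen_ball
  have hfg' : ∀ z ∈ ball (0:ℂ) 1, deriv f z = g z + z * deriv g z := by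
    intro z hz
    have h2 : HasDerivAt (fun z => z * g z) (1 * g z + z * deriv g z) z :=
      (hasDerivAt_id z).mul (hat hgd z hz)
    have h3 : f = fun z => z * g z := funext hfg
    conv_lhs => rw [h3]
    rw [h2.deriv, one_mul]
  set p : ℂ → ℂ := fun z => deriv f z / g z with hp
  have hpd : DifferentiableOn ℂ p (ball 0 1) := hf'.div hgd hgne
  have hp1 : p 0 = 1 := by simp [hp, hf1, hg0]
  have hpg : ∀ z ∈ ball (0:ℂ) 1, g z * p z = deriv f z := by
    intro z hz
    have := hgne z hz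
    simp only [hp]
    field_simp
  have hgp : ∀ z ∈ ball (0:ℂ) 1, z * deriv g z = g z * (p z - 1) := by
    intro z hz
    have h2 := hfg' z hz
    have h3 := hpg z hz
    linear_combination (-1:ℂ) * h3 - h2
  have hqe : ∀ z ∈ ball (0:ℂ) 1, z ≠ 0 → p z ≠ 0 → p z + α * (z * deriv p z) / p z =
      α * (1 + z * deriv (deriv f) z / deriv f z) + (1 - α) * (z * deriv f z / f z) := by
    intro z hz hz0 hpz
    have hgz := hgne z hz
    have hfz : deriv f z ≠ 0 := by
      rw [← hpg z hz]; exact mul_ne_zero hgz hpz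
    have hdp : deriv p z = (deriv (deriv f) z * g z - deriv f z * deriv g z) / g z ^ 2 :=
      ((hat hf' z hz).div (hat hgd z hz) hgz).deriv
    rw [hfg z, hdp]
    have h2 := hfg' z hz
    have h3 : z * deriv g z = deriv f z - g z := by rw [h2]; ring
    simp only [hp]
    have h4 : z * ((deriv (deriv f) z * g z - deriv f z * deriv g z) / g z ^ 2) =
        (z * deriv (deriv f) z * g z - deriv f z * (deriv f z - g z)) / g z ^ 2 := by
      rw [← h3]; ring
    rw [h4]
    field_simp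
    ring
  have hpne := no_zero h0 hpd hp1 (fun z hz hz0 hpz => by
    rw [hqe z hz hz0 hpz]; exact hcond z hz hz0)
  have hpos : ∀ z ∈ ball (0:ℂ) 1, 0 < (p z + α * (z * deriv p z) / p z).re := by
    intro z hz
    by_cases hz0 : z = 0
    · rw [hz0, hp1]; simp
    · rw [hqe z hz hz0 (hpne z hz)]; exact hcond z hz hz0
  have hsub := fun (S : ℝ) (hS : 0 < S) (hS1 : S < 1) => subordination hP hpd hp1 hpos hS hS1
  have hpre : ∀ z ∈ ball (0:ℂ) 1, 0 < (p z).re := by
    intro z hz
    have hz' := mem_ball_zero_iff.1 hz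
    obtain ⟨ω, hω1, hω2, hω3, hω4⟩ := hsub ((1 + ‖z‖) / 2) (by positivity) (by linarith)
    have hzb : z ∈ ball (0:ℂ) ((1 + ‖z‖) / 2) := by
      rw [mem_ball_zero_iff]; linarith
    rw [← hω4 z hzb]
    exact hP.re_pos _ (hω3 hzb)
  -- the function `q` and the primitive
  set q : ℂ → ℂ := fun z => p z + α * (z * deriv p z) / p z with hq
  have hqd : DifferentiableOn ℂ q (ball 0 1) := by
    apply hpd.add
    apply DifferentiableOn.div _ hpd hpne
    apply DifferentiableOn.const_mul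
    exact differentiableOn_id.mul (hpd.deriv isOpen_ball)
  have hq0 : q 0 = 1 := by simp [hq, hp1]
  obtain ⟨L, hL0, hL⟩ := ((dslope_differentiableOn one_pos hqd).isExactOn_ball).with_val_at 0 0
  have hLd : DifferentiableOn ℂ L (ball 0 1) :=
    fun z hz => (hL z hz).differentiableAt.differentiableWithinAt
  have hLq : ∀ z ∈ ball (0:ℂ) 1, z * deriv L z = q z - 1 := by
    intro z hz
    rw [(hL z hz).deriv]
    have := eq_add_mul_dslope q z
    rw [hq0] at this
    rw [this]; ring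
  have hfac := factor hgd hg0 hpd hp1 hpre hgp hLd hL0 hLq
  set y : ℂ → ℂ := fun z => Complex.exp (L z / 2) with hy
  have hyd : DifferentiableOn ℂ y (ball 0 1) := (hLd.div_const 2).cexp
  have hy0 : y 0 = 1 := by simp [hy, hL0]
  have hyD : ∀ z ∈ ball (0:ℂ) 1, z * deriv y z = (q z - 1) / 2 * y z := by
    intro z hz
    have h2 : HasDerivAt y (Complex.exp (L z / 2) * (deriv L z / 2)) z :=
      ((hat hLd z hz).div_const 2).cexp
    rw [h2.deriv, ← hLq z hz, hy]
    simp only
    ring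
  have hy1 : ∀ j, ‖cf y j‖ ≤ 1 := by
    intro j
    apply norm_cf_le_one hqd hq0 (fun z hz => (hpos z hz).le) (analyticAt_of_ball one_pos hyd) hy0
    filter_upwards [isOpen_ball.mem_nhds (mem_ball_self (one_pos : (0:ℝ) < 1))] with z hz
    exact hyD z hz
  -- main estimate
  have hest : ∀ r S : ℝ, 0 < r → r < S → S < 1 →
      ((m:ℝ) + 1) * ‖cf f (m + 1)‖ ≤ ∑ k ∈ range (m + 1), ‖cf (PiF α) k‖ *
        ((r ^ (m - k))⁻¹ * ((1 / S) ^ k * (((m - k : ℕ) : ℝ) + 1))) := by
    intro r S hr hrS hS1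
    have hS : 0 < S := hr.trans hrS
    obtain ⟨ω, hω1, hω2, hω3, hω4⟩ := hsub S hS hS1
    have hbs : ball (0:ℂ) S ⊆ ball 0 1 := ball_subset_ball hS1.le
    set φ' : ℂ → ℂ := dslope ω 0 with hφ'
    have hφd : DifferentiableOn ℂ φ' (ball 0 S) := dslope_differentiableOn hS hω1
    have hωφ : ∀ z, ω z = z * φ' z := by
      intro z
      have := eq_add_mul_dslope ω z
      rw [hω2, zero_add] at this
      exact this
    have hφle : ∀ z ∈ ball (0:ℂ) S, ‖φ' z‖ ≤ 1 / S := by
      intro z hz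
      apply Complex.norm_dslope_le_div_of_mapsTo_ball hω1 _ hz
      rw [hω2]
      exact fun w hw => ball_subset_closedBall (hω3 hw)
    obtain ⟨ρ, hρd, hρ⟩ := taylor_rem one_pos (m + 1) (PiF_diff h0 h1)
    have hcfe : ((m:ℂ) + 1) * cf f (m + 1) = cf (fun z => (∑ k ∈ range (m + 1),
        cf (PiF α) k * (z ^ k * (y z ^ 2 * φ' z ^ k))) +
        z ^ (m + 1) * (y z ^ 2 * φ' z ^ (m + 1) * ρ (ω z))) m := by
      rw [← cf_deriv]
      apply cf_congr
      filter_upwards [isOpen_ball.mem_nhds (mem_ball_self hS)] with z hz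
      have hz1 := hbs hz
      rw [← hpg z hz1, hfac z hz1, ← hω4 z hz]
      have h2 : Complex.exp ((1 - α) * Complex.log (PF α (ω z))) = PiF α (ω z) := rfl
      have h3 : Complex.exp (L z) = y z ^ 2 := by
        rw [hy]; simp only
        rw [← Complex.exp_nat_mul]; congr 1; push_cast; ring
      rw [h2, h3, hρ (ω z), mul_add, Finset.mul_sum]
      congr 1
      · apply Finset.sum_congr rfl
        intro k _
        rw [hωφ z]; ring
      · have h4 : ω z ^ (m + 1) = z ^ (m + 1) * φ' z ^ (m + 1) := by rw [hωφ z, mul_pow]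
        rw [h4]; ring
    have hya : AnalyticAt ℂ y 0 := analyticAt_of_ball one_pos hyd
    have hφa : AnalyticAt ℂ φ' 0 := analyticAt_of_ball hS hφd
    have hωa : AnalyticAt ℂ ω 0 := analyticAt_of_ball hS hω1
    have hρa : AnalyticAt ℂ (fun z => ρ (ω z)) 0 := by
      have : AnalyticAt ℂ ρ (ω 0) := by rw [hω2]; exact analyticAt_of_ball one_pos hρd
      exact this.comp hωa
    have han : ∀ k, AnalyticAt ℂ (fun z => y z ^ 2 * φ' z ^ k) 0 := fun k =>
      (hya.pow 2).mul (hφa.pow k)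
    have han2 : AnalyticAt ℂ (fun z => y z ^ 2 * φ' z ^ (m + 1) * ρ (ω z)) 0 :=
      ((hya.pow 2).mul (hφa.pow (m + 1))).mul hρa
    have hterm : ∀ k, AnalyticAt ℂ (fun z => cf (PiF α) k * (z ^ k * (y z ^ 2 * φ' z ^ k))) 0 :=
      fun k => analyticAt_const.mul ((analyticAt_pow k).mul (han k))
    have hadd := cf_add (f := fun z => ∑ k ∈ range (m + 1),
        cf (PiF α) k * (z ^ k * (y z ^ 2 * φ' z ^ k)))
      (g := fun z => z ^ (m + 1) * (y z ^ 2 * φ' z ^ (m + 1) * ρ (ω z)))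
      (Finset.analyticAt_fun_sum _ (fun k _ => hterm k)) ((analyticAt_pow (m + 1)).mul han2) m
    rw [hadd, cf_pow_mul_of_lt han2 (Nat.lt_succ_self m), add_zero,
      cf_sum _ (fun k _ => hterm k)] at hcfe
    have hcfe2 : ((m:ℂ) + 1) * cf f (m + 1) = ∑ k ∈ range (m + 1), cf (PiF α) k *
        cf (fun z => y z ^ 2 * φ' z ^ k) (m - k) := by
      rw [hcfe]
      apply Finset.sum_congr rfl
      intro k hk
      rw [cf_const_mul, cf_pow_mul_of_le (han k) (Nat.lt_succ_iff.1 (Finset.mem_range.1 hk))]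
    have h3 : ((m:ℝ) + 1) * ‖cf f (m + 1)‖ = ‖((m:ℂ) + 1) * cf f (m + 1)‖ := by
      rw [norm_mul]
      congr 1
      have : ((m:ℂ) + 1) = ((m + 1 : ℕ) : ℂ) := by push_cast; ring
      rw [this, Complex.norm_natCast]; push_cast; ring
    rw [h3, hcfe2]
    refine (norm_sum_le _ _).trans (Finset.sum_le_sum ?_)
    intro k _
    rw [norm_mul]
    gcongr
    apply norm_cf_sq_mul_le hr hrS (hrS.trans hS1).le (hyd.mono hbs) (hφd.pow k) hy1
    intro z hz
    rw [Pi.pow_apply, norm_pow]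
    exact pow_le_pow_left₀ (norm_nonneg _) (hφle z hz) k
  -- limit
  set Bf : ℝ → ℝ := fun r => ∑ k ∈ range (m + 1), ‖cf (PiF α) k‖ *
        ((r ^ (m - k))⁻¹ * ((1 / ((1 + r) / 2)) ^ k * (((m - k : ℕ) : ℝ) + 1))) with hBf
  have hBc : ContinuousAt Bf 1 := by
    rw [hBf]
    apply tendsto_finsetSum
    intro k _
    have hc1 : ContinuousAt (fun r : ℝ => (r ^ (m - k))⁻¹) 1 :=
      (continuousAt_id.pow _).inv₀ (by simp)
    have hc2 : ContinuousAt (fun r : ℝ => (1 / ((1 + r) / 2)) ^ k) 1 := by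
      apply ContinuousAt.pow
      apply ContinuousAt.div continuousAt_const _ (by norm_num)
      fun_prop
    exact (continuousAt_const.mul (hc1.mul (hc2.mul continuousAt_const)))
  have hB1 : Bf 1 = ∑ k ∈ range (m + 1), ‖cf (PiF α) k‖ * (((m - k : ℕ) : ℝ) + 1) := by
    rw [hBf]
    simp only
    apply Finset.sum_congr rfl
    intro k _
    norm_num
  rw [← hB1]
  apply ge_of_tendsto (hBc.tendsto.mono_left (nhdsWithin_le_nhds (s := Iio 1)))
  filter_upwards [Ioo_mem_nhdsLT (show (0:ℝ) < 1 by norm_num)] with r hr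
  exact hest r ((1 + r) / 2) hr.1 (by linarith [hr.2]) (by linarith [hr.2])

end Pool.Agent.Helper59.AC
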