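import Pool.Agent.Helper59.ACh

/-! The extremal function and the explicit value. -/

open Complex Metric Set Filter Topology Finset
open scoped Nat

noncomputable section

namespace Pool.Agent.Helper59.AC

variable {α : ℝ}

lemma ball_nhds : ball (0:ℂ) 1 ∈ 𝓝 (0:ℂ) := isOpen_ball.mem_nhds (mem_ball_self one_pos)

lemma one_sub_ne {z : ℂ} (hz : z ∈ ball (0:ℂ) 1) : (1:ℂ) - z ≠ 0 := by
  intro h
  have : z = 1 := (sub_eq_zero.1 h).symm
  rw [this] at hz; simp at hz

lemma geom_diff : DifferentiableOn ℂ (fun z : ℂ => (1 - z)⁻¹) (ball 0 1) := by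
  intro z hz
  exact ((differentiableAt_const (1:ℂ)).sub differentiableAt_id |>.inv
    (one_sub_ne hz)).differentiableWithinAt

lemma cf_geom (n : ℕ) : cf (fun z : ℂ => (1 - z)⁻¹) n = 1 := by
  have ha : AnalyticAt ℂ (fun z : ℂ => (1 - z)⁻¹) 0 := analyticAt_of_ball one_pos geom_diff
  induction n with
  | zero => rw [cf_zero]; simp
  | succ n ih =>
    have h1 : (fun z : ℂ => (1 - z)⁻¹) =ᶠ[𝓝 0] fun z => z ^ 0 + z * (1 - z)⁻¹ := by
      filter_upwards [ball_nhds] with z hz
      have := one_sub_ne hz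
      field_simp
      ring
    rw [cf_congr h1, cf_add (g := fun z => z * (1 - z)⁻¹) (analyticAt_pow 0)
      (analyticAt_id.mul ha), cf_pow, if_neg (Nat.succ_ne_zero n), zero_add, cf_id_mul ha n]
    exact ih

lemma cf_geom2 (n : ℕ) : cf (fun z : ℂ => ((1 - z) ^ 2)⁻¹) n = (n:ℂ) + 1 := by
  have h1 : (fun z : ℂ => ((1 - z) ^ 2)⁻¹) =ᶠ[𝓝 0] deriv (fun z : ℂ => (1 - z)⁻¹) := by
    filter_upwards [ball_nhds] with z hz
    have h2 : HasDerivAt (fun z : ℂ => (1 - z)⁻¹) (-(-1) / (1 - z) ^ 2) z :=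
      ((hasDerivAt_id z).const_sub 1).inv (one_sub_ne hz)
    rw [h2.deriv]; simp
  rw [cf_congr h1, cf_deriv, cf_geom, mul_one]

lemma cf_cayley (n : ℕ) : cf (fun z : ℂ => (1 + z) / (1 - z)) (n + 1) = 2 := by
  have ha : AnalyticAt ℂ (fun z : ℂ => (1 - z)⁻¹) 0 := analyticAt_of_ball one_pos geom_diff
  have h1 : (fun z : ℂ => (1 + z) / (1 - z)) =ᶠ[𝓝 0] fun z => z ^ 0 + z * (2 * (1 - z)⁻¹) := by
    filter_upwards [ball_nhds] with z hz
    have := one_sub_ne hz
    field_simp
    ring
  have ha2 : AnalyticAt ℂ (fun z : ℂ => 2 * (1 - z)⁻¹) 0 := analyticAt_const.mul ha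
  rw [cf_congr h1, cf_add (g := fun z => z * (2 * (1 - z)⁻¹)) (analyticAt_pow 0)
    (analyticAt_id.mul ha2), cf_pow, if_neg (Nat.succ_ne_zero n), zero_add, cf_id_mul ha2 n,
    cf_const_mul, cf_geom, mul_one]

lemma cf_D {u : ℂ → ℂ} (hu : AnalyticAt ℂ u 0) (n : ℕ) :
    cf (fun z => z * deriv u z) n = n * cf u n := by
  rcases n with _ | n
  · rw [cf_zero]; simp
  · rw [cf_id_mul hu.deriv, cf_deriv]; push_cast; ring

lemma cayley_diff : DifferentiableOn ℂ (fun z : ℂ => (1 + z) / (1 - z)) (ball 0 1) := by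
  intro z hz
  exact (((differentiableAt_const (1:ℂ)).add differentiableAt_id).div
    ((differentiableAt_const (1:ℂ)).sub differentiableAt_id)
    (one_sub_ne hz)).differentiableWithinAt

lemma cf_sub {f g : ℂ → ℂ} (hf : AnalyticAt ℂ f 0) (hg : AnalyticAt ℂ g 0) (n : ℕ) :
    cf (fun z => f z - g z) n = cf f n - cf g n := by
  have h1 : (fun z => f z - g z) = fun z => f z + (-1) * g z := by funext z; ring
  rw [h1, cf_add (g := fun z => (-1) * g z) hf (analyticAt_const.mul hg), cf_const_mul]; ring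

/-- the coefficient data: `β (Q - P)` -/
lemma cf_QP {P : ℂ → ℂ} (hP : PData α P) (β : ℂ) (n : ℕ) :
    cf (fun z => β * ((1 + z) / (1 - z) - P z)) (n + 1) = β * (2 - cf P (n + 1)) := by
  rw [cf_const_mul, cf_sub (analyticAt_of_ball one_pos cayley_diff)
    (analyticAt_of_ball one_pos hP.diff), cf_cayley]

lemma QP_analytic {P : ℂ → ℂ} (hP : PData α P) (β : ℂ) :
    AnalyticAt ℂ (fun z => β * ((1 + z) / (1 - z) - P z)) 0 :=
  analyticAt_const.mul ((analyticAt_of_ball one_pos cayley_diff).sub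
    (analyticAt_of_ball one_pos hP.diff))

lemma P_ne {P : ℂ → ℂ} (hP : PData α P) {z : ℂ} (hz : z ∈ ball (0:ℂ) 1) : P z ≠ 0 := by
  intro h
  have := hP.re_pos z hz
  rw [h] at this; simp at this

lemma zP' {P : ℂ → ℂ} (h0 : 0 < α) (hP : PData α P) {z : ℂ} (hz : z ∈ ball (0:ℂ) 1) :
    z * deriv P z = (1 / α) * ((1 + z) / (1 - z) - P z) * P z := by
  have h := hP.ode z hz
  have hPz := P_ne hP hz
  have hα : (α:ℂ) ≠ 0 := by exact_mod_cast h0.ne'
  rw [← h]
  field_simp
  ring

/-- the coefficients of `P` are real -/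
lemma P_real {P : ℂ → ℂ} (h0 : 0 < α) (hP : PData α P) (n : ℕ) : ∃ r : ℝ, cf P n = r := by
  have hα : (α:ℂ) ≠ 0 := by exact_mod_cast h0.ne'
  induction n using Nat.strong_induction_on with
  | _ n ih =>
    rcases n with _ | n
    · exact ⟨1, by rw [cf_zero, hP.zero]; simp⟩
    · have hrec := cf_rec (u := P) (c := fun z => (1 / (α:ℂ)) * ((1 + z) / (1 - z) - P z))
        (analyticAt_of_ball one_pos hP.diff) (QP_analytic hP _) (by simp [hP.zero]) (by
          filter_upwards [ball_nhds] with z hz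
          exact zP' h0 hP hz) n
      simp only [cf_QP hP] at hrec
      rw [Finset.sum_range_succ, Nat.sub_self, cf_zero, hP.zero, mul_one] at hrec
      have hsum : ∃ r : ℝ, ∑ k ∈ range n, 1 / (α:ℂ) * (2 - cf P (k + 1)) * cf P (n - k) = r := by
        have hreal : ∀ k ∈ range n, ∃ r : ℝ, 1 / (α:ℂ) * (2 - cf P (k + 1)) * cf P (n - k) = r := by
          intro k hk
          have hk' := Finset.mem_range.1 hk
          obtain ⟨r1, h1⟩ := ih (k + 1) (by omega)
          obtain ⟨r2, h2⟩ := ih (n - k) (by omega)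
          exact ⟨1 / α * (2 - r1) * r2, by rw [h1, h2]; push_cast; ring⟩
        choose! rr hrr using hreal
        refine ⟨∑ k ∈ range n, rr k, ?_⟩
        push_cast
        exact Finset.sum_congr rfl hrr
      obtain ⟨R, hR⟩ := hsum
      rw [hR] at hrec
      refine ⟨(R + 2 / α) / (n + 1 + 1 / α), ?_⟩
      have hne : ((n:ℂ) + 1 + 1 / α) ≠ 0 := by
        have : ((n:ℝ) + 1 + 1 / α) ≠ 0 := by positivity
        exact_mod_cast this
      push_cast
      rw [eq_div_iff hne]
      linear_combination hrec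

lemma PiF_D (h0 : 0 < α) (h1 : α < 1) {z : ℂ} (hz : z ∈ ball (0:ℂ) 1) :
    z * deriv (PiF α) z = ((1 - α) / α) * ((1 + z) / (1 - z) - PF α z) * PiF α z := by
  have hP := PF_data h0 h1
  have hd : HasDerivAt (PF α) (deriv (PF α) z) z :=
    ((hP.diff z hz).differentiableAt (isOpen_ball.mem_nhds hz)).hasDerivAt
  have h2 : HasDerivAt (PiF α) (Complex.exp ((1 - α) * Complex.log (PF α z)) *
      ((1 - α) * (deriv (PF α) z / PF α z))) z :=
    ((hd.clog (Or.inl (hP.re_pos z hz))).const_mul (1 - (α:ℂ))).cexp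
  have h3 := zP' h0 hP hz
  have hPz := P_ne hP hz
  have hα : (α:ℂ) ≠ 0 := by exact_mod_cast h0.ne'
  have h4 : z * (deriv (PF α) z / PF α z) = (1 / α) * ((1 + z) / (1 - z) - PF α z) := by
    rw [← mul_div_assoc, h3]; field_simp
  rw [h2.deriv]
  have h5 : Complex.exp ((1 - α) * Complex.log (PF α z)) = PiF α z := rfl
  rw [h5]
  calc z * (PiF α z * ((1 - α) * (deriv (PF α) z / PF α z)))
      = PiF α z * (1 - α) * (z * (deriv (PF α) z / PF α z)) := by ring
    _ = _ := by rw [h4]; ring

/-- the coefficients of `P^{1-α}` are nonnegative -/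
lemma PiF_nonneg (h0 : 0 < α) (h1 : α < 1) (n : ℕ) : ∃ r : ℝ, 0 ≤ r ∧ cf (PiF α) n = r := by
  have hP := PF_data h0 h1
  have hα : (α:ℂ) ≠ 0 := by exact_mod_cast h0.ne'
  induction n using Nat.strong_induction_on with
  | _ n ih =>
    rcases n with _ | n
    · exact ⟨1, zero_le_one, by rw [cf_zero]; simp [PiF, hP.zero]⟩
    · have hrec := cf_rec (u := PiF α)
        (c := fun z => ((1 - α) / α : ℂ) * ((1 + z) / (1 - z) - PF α z))
        (analyticAt_of_ball one_pos (PiF_diff h0 h1)) (QP_analytic hP _) (by simp [hP.zero]) (by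
          filter_upwards [ball_nhds] with z hz
          exact PiF_D h0 h1 hz) n
      simp only [cf_QP hP] at hrec
      have hreal : ∀ k ∈ range (n + 1), ∃ r : ℝ, 0 ≤ r ∧
          (1 - α) / α * (2 - cf (PF α) (k + 1)) * cf (PiF α) (n - k) = r := by
        intro k hk
        have hk' := Finset.mem_range.1 hk
        obtain ⟨r1, h2⟩ := P_real h0 hP (k + 1)
        obtain ⟨r2, hr2, h3⟩ := ih (n - k) (by omega)
        have hcar := caratheodory hP.diff hP.zero (fun z hz => (hP.re_pos z hz).le) k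
        rw [h2, Complex.norm_real, Real.norm_eq_abs] at hcar
        have hr1 : r1 ≤ 2 := (le_abs_self _).trans hcar
        refine ⟨(1 - α) / α * (2 - r1) * r2, ?_, by rw [h2, h3]; push_cast; ring⟩
        have : 0 ≤ (1 - α) / α := div_nonneg (by linarith) h0.le
        have h4 : 0 ≤ 2 - r1 := by linarith
        positivity
      choose! rr hrr0 hrr using hreal
      rw [Finset.sum_congr rfl hrr] at hrec
      refine ⟨(∑ k ∈ range (n + 1), rr k) / (n + 1), ?_, ?_⟩
      · exact div_nonneg (Finset.sum_nonneg hrr0) (by positivity)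
      · have hne : ((n:ℂ) + 1) ≠ 0 := by exact_mod_cast Nat.succ_ne_zero n
        push_cast
        rw [eq_div_iff hne]
        linear_combination hrec

/-- Noshiro-Warschawski -/
lemma inj_of_re_deriv {Λ Λ' : ℂ → ℂ} {H : Set ℂ} (hH : Convex ℝ H)
    (hd : ∀ s ∈ H, HasDerivAt Λ (Λ' s) s) (hre : ∀ s ∈ H, 0 < (Λ' s).re) : InjOn Λ H := by
  intro a ha b hb hab
  by_contra hne
  set w := b - a with hw
  have hw0 : w ≠ 0 := sub_ne_zero.2 (Ne.symm hne)
  have hseg : ∀ t ∈ Icc (0:ℝ) 1, a + t * w ∈ H := by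
    intro t ht
    have := hH.add_smul_sub_mem ha hb ht
    rwa [Complex.real_smul] at this
  set ψ : ℝ → ℝ := fun t => ((starRingEnd ℂ) w * Λ (a + t * w)).re with hψ
  have hψd : ∀ t ∈ Icc (0:ℝ) 1, HasDerivAt ψ (((starRingEnd ℂ) w * (Λ' (a + t * w) * w)).re) t := by
    intro t ht
    have h1 : HasDerivAt (fun t : ℝ => a + (t:ℂ) * w) w t := by
      have := ((Complex.ofRealCLM.hasDerivAt (x := t)).mul_const w).const_add a
      simpa using this
    have h2 : HasDerivAt (fun t : ℝ => Λ (a + (t:ℂ) * w)) (Λ' (a + t * w) * w) t :=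
      (hd _ (hseg t ht)).comp t h1
    have h3 := h2.const_mul ((starRingEnd ℂ) w)
    exact (Complex.reCLM.hasFDerivAt.comp_hasDerivAt t h3)
  have hcont : ContinuousOn ψ (Icc 0 1) := fun t ht => (hψd t ht).continuousAt.continuousWithinAt
  obtain ⟨t, ht, ht0⟩ := exists_hasDerivAt_eq_zero (f := ψ) (zero_lt_one' ℝ) hcont (by
    simp only [hψ]
    have : a + ((1:ℝ):ℂ) * w = b := by rw [hw]; push_cast; ring
    rw [this, ← hab]; simp) (fun t ht => hψd t ⟨ht.1.le, ht.2.le⟩)
  have h1 : ((starRingEnd ℂ) w * (Λ' (a + t * w) * w)) =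
      ((‖w‖ ^ 2 : ℝ) : ℂ) * Λ' (a + t * w) := by
    have := Complex.mul_conj w
    rw [Complex.normSq_eq_norm_sq] at this
    rw [← this]; ring
  rw [h1, Complex.re_ofReal_mul] at ht0
  have h2 := hre _ (hseg t ⟨ht.1.le, ht.2.le⟩)
  have h3 : 0 < ‖w‖ ^ 2 := by
    have := norm_pos_iff.2 hw0
    positivity
  have := mul_pos h3 h2
  linarith

/-- The extremal function. -/
theorem extremal (h0 : 0 < α) (h1 : α < 1) : ∃ L : ℂ → ℂ, L 0 = 0 ∧
    DifferentiableOn ℂ L (ball 0 1) ∧ (∀ z ∈ ball (0:ℂ) 1, z * deriv L z = PF α z - 1) ∧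
    InM α (fun z => z * Complex.exp (L z)) ∧
    (∀ z ∈ ball (0:ℂ) 1, z ≠ 0 →
      (α * (1 + z * deriv (deriv (fun z => z * Complex.exp (L z))) z /
        deriv (fun z => z * Complex.exp (L z)) z) +
        (1 - α) * (z * deriv (fun z => z * Complex.exp (L z)) z / (z * Complex.exp (L z)))) =
        (1 + z) / (1 - z)) ∧
    ∀ m : ℕ, ((m:ℂ) + 1) * cf (fun z => z * Complex.exp (L z)) (m + 1) =
      ∑ k ∈ range (m + 1), cf (PiF α) k * (((m - k : ℕ) : ℂ) + 1) := by
  have hP := PF_data h0 h1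
  obtain ⟨L, hL0, hL⟩ := ((dslope_differentiableOn one_pos hP.diff).isExactOn_ball).with_val_at 0 0
  have hLd : DifferentiableOn ℂ L (ball 0 1) :=
    fun z hz => (hL z hz).differentiableAt.differentiableWithinAt
  have hLP : ∀ z ∈ ball (0:ℂ) 1, z * deriv L z = PF α z - 1 := by
    intro z hz
    rw [(hL z hz).deriv]
    have := eq_add_mul_dslope (PF α) z
    rw [hP.zero] at this
    rw [this]; ring
  have hat : ∀ {v : ℂ → ℂ}, DifferentiableOn ℂ v (ball 0 1) → ∀ z ∈ ball (0:ℂ) 1,
      HasDerivAt v (deriv v z) z := fun hv z hz =>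
    ((hv z hz).differentiableAt (isOpen_ball.mem_nhds hz)).hasDerivAt
  set F : ℂ → ℂ := fun z => z * Complex.exp (L z) with hF
  have hF' : ∀ z ∈ ball (0:ℂ) 1, HasDerivAt F (Complex.exp (L z) * PF α z) z := by
    intro z hz
    have h2 : HasDerivAt F (1 * Complex.exp (L z) + z * (Complex.exp (L z) * deriv L z)) z :=
      (hasDerivAt_id z).mul (hat hLd z hz).cexp
    refine h2.congr_deriv ?_
    have := hLP z hz
    linear_combination (Complex.exp (L z)) * this
  have hFd : DifferentiableOn ℂ F (ball 0 1) :=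
    fun z hz => (hF' z hz).differentiableAt.differentiableWithinAt
  have hGd : DifferentiableOn ℂ (fun z => Complex.exp (L z)) (ball 0 1) := hLd.cexp
  have hmain : ∀ z ∈ ball (0:ℂ) 1, z ≠ 0 →
      (α * (1 + z * deriv (deriv F) z / deriv F z) + (1 - α) * (z * deriv F z / F z)) =
        (1 + z) / (1 - z) := by
    intro z hz hz0
    have hPz := P_ne hP hz
    have hez := Complex.exp_ne_zero (L z)
    have hdd : deriv (deriv F) z = Complex.exp (L z) * deriv L z * PF α z +
        Complex.exp (L z) * deriv (PF α) z := by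
      have h2 : deriv F =ᶠ[𝓝 z] fun z => Complex.exp (L z) * PF α z := by
        filter_upwards [isOpen_ball.mem_nhds hz] with w hw
        exact (hF' w hw).deriv
      rw [h2.deriv_eq]
      exact ((hat hLd z hz).cexp.mul (hat hP.diff z hz)).deriv
    rw [← hP.ode z hz, hdd, (hF' z hz).deriv]
    have h3 := hLP z hz
    have h4 : z * (Complex.exp (L z) * deriv L z * PF α z + Complex.exp (L z) * deriv (PF α) z) =
        Complex.exp (L z) * ((PF α z - 1) * PF α z + z * deriv (PF α) z) := by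
      rw [← h3]; ring
    rw [h4]
    simp only [hF]
    field_simp
    ring
  refine ⟨L, hL0, hLd, hLP, ⟨hFd, ?_, by simp, ?_, ?_⟩, hmain, ?_⟩
  · -- injectivity
    have hΛ : InjOn (fun s : ℂ => s + L (Complex.exp s)) {s : ℂ | s.re < 0} := by
      have hexp : ∀ s ∈ {s : ℂ | s.re < 0}, Complex.exp s ∈ ball (0:ℂ) 1 := by
        intro s hs
        rw [mem_ball_zero_iff, Complex.norm_exp]
        exact Real.exp_lt_one_iff.2 hs
      apply inj_of_re_deriv (Λ' := fun s => PF α (Complex.exp s)) (convex_halfSpace_re_lt 0)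
      · intro s hs
        have h2 := (hasDerivAt_id s).add ((hat hLd _ (hexp s hs)).comp s (Complex.hasDerivAt_exp s))
        refine h2.congr_deriv ?_
        have := hLP _ (hexp s hs)
        linear_combination this
      · intro s hs
        exact hP.re_pos _ (hexp s hs)
    intro z1 hz1 z2 hz2 h12
    simp only at h12
    by_cases h10 : z1 = 0
    · rw [h10, zero_mul] at h12
      rcases mul_eq_zero.1 h12.symm with h | h
      · rw [h10, h]
      · exact absurd h (Complex.exp_ne_zero _)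
    by_cases h20 : z2 = 0
    · rw [h20, zero_mul] at h12
      rcases mul_eq_zero.1 h12 with h | h
      · exact absurd h h10
      · exact absurd h (Complex.exp_ne_zero _)
    have hs : ∀ z ∈ ball (0:ℂ) 1, z ≠ 0 → Complex.log z ∈ {s : ℂ | s.re < 0} := by
      intro z hz hz0
      rw [Set.mem_ofPred_eq, Complex.log_re]
      exact Real.log_neg (norm_pos_iff.2 hz0) (mem_ball_zero_iff.1 hz)
    have e1 := Complex.exp_log h10
    have e2 := Complex.exp_log h20
    have h3 : Complex.exp (Complex.log z1 + L (Complex.exp (Complex.log z1))) =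
        Complex.exp (Complex.log z2 + L (Complex.exp (Complex.log z2))) := by
      rw [Complex.exp_add, Complex.exp_add, e1, e2]; exact h12
    obtain ⟨n, hn⟩ := Complex.exp_eq_exp_iff_exists_int.1 h3
    have e3 : Complex.exp (Complex.log z2 + n * (2 * Real.pi * I)) = z2 := by
      rw [Complex.exp_periodic.int_mul n (Complex.log z2), e2]
    have h4 : Complex.log z1 = Complex.log z2 + n * (2 * Real.pi * I) := by
      apply hΛ (hs z1 hz1 h10)
      · rw [Set.mem_ofPred_eq]
        have h5 := hs z2 hz2 h20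
        rw [Set.mem_ofPred_eq] at h5
        have h6 : (Complex.log z2 + n * (2 * Real.pi * I)).re = (Complex.log z2).re := by
          simp
        rw [h6]; exact h5
      · simp only
        rw [e3, hn, e2]; ring
    rw [← e1, h4, e3]
  · rw [(hF' 0 (mem_ball_self one_pos)).deriv, hL0, hP.zero]; simp
  · intro z hz hz0
    rw [hmain z hz hz0, re_cayley (by rintro rfl; simp at hz)]
    have hz' := mem_ball_zero_iff.1 hz
    have h5 : 0 < ‖z - 1‖ := norm_pos_iff.2 (sub_ne_zero.2 (by rintro rfl; simp at hz))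
    have h6 : ‖z‖ ^ 2 < 1 := by
      have := norm_nonneg z
      nlinarith
    have h7 : 0 < 1 - ‖z‖ ^ 2 := by linarith
    positivity
  · intro m
    have hlq : DifferentiableOn ℂ (fun z : ℂ => -2 * Complex.log (1 - z)) (ball 0 1) := by
      intro z hz
      have hz' := mem_ball_zero_iff.1 hz
      have hsl : (1:ℂ) - z ∈ slitPlane := by
        left
        have := Complex.re_le_norm z
        simp; linarith
      have h2 : HasDerivAt (fun z : ℂ => Complex.log (1 - z)) (-1 / (1 - z)) z :=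
        ((hasDerivAt_id z).const_sub 1).clog hsl
      exact (h2.const_mul (-2)).differentiableAt.differentiableWithinAt
    have hfac := factor (α := α) (g := fun z => Complex.exp (L z)) (p := PF α)
      (L := fun z : ℂ => -2 * Complex.log (1 - z)) hGd (by simp [hL0]) hP.diff hP.zero hP.re_pos
      (by
        intro z hz
        rw [(hat hLd z hz).cexp.deriv, ← hLP z hz]; ring) hlq (by simp) (by
        intro z hz
        have hz' := mem_ball_zero_iff.1 hz
        have hsl : (1:ℂ) - z ∈ slitPlane := by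
          left
          have := Complex.re_le_norm z
          simp; linarith
        have h2 : HasDerivAt (fun z : ℂ => Complex.log (1 - z)) (-1 / (1 - z)) z :=
          ((hasDerivAt_id z).const_sub 1).clog hsl
        rw [hP.ode z hz, (h2.const_mul (-2)).deriv]
        have := one_sub_ne hz
        field_simp
        ring)
    rw [← cf_deriv]
    have hev : deriv F =ᶠ[𝓝 0] fun z => PiF α z * ((1 - z) ^ 2)⁻¹ := by
      filter_upwards [ball_nhds] with z hz
      rw [(hF' z hz).deriv]
      rw [hfac z hz]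
      have h3 : Complex.exp (-2 * Complex.log (1 - z)) = ((1 - z) ^ 2)⁻¹ := by
        rw [neg_mul, Complex.exp_neg]
        congr 1
        have := Complex.exp_nat_mul (Complex.log (1 - z)) 2
        push_cast at this
        rw [this, Complex.exp_log (one_sub_ne hz)]
      rw [h3, mul_comm]; rfl
    have ha2 : AnalyticAt ℂ (fun z : ℂ => ((1 - z) ^ 2)⁻¹) 0 := by
      have : AnalyticAt ℂ (fun z : ℂ => (1 - z) ^ 2) 0 := by fun_prop
      exact this.inv (by simp)
    rw [cf_congr hev, cf_mul (analyticAt_of_ball one_pos (PiF_diff h0 h1)) ha2]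
    apply Finset.sum_congr rfl
    intro k _
    rw [cf_geom2]

end Pool.Agent.Helper59.AC
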