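import Pool.Agent.Helper59.ACi

/-! The explicit value and the main theorem. -/

open Complex Metric Set Filter Topology Finset
open scoped Nat

noncomputable section

namespace Pool.Agent.Helper59.AC

variable {α : ℝ}

lemma c_rec (α : ℝ) (m : ℕ) : ((m:ℝ) + 1) * c α (m + 1) =
    ∑ k ∈ range (m + 1), ((1 + α) * (k + 1) - (m + 1)) * b α (k + 1) * c α (m - k) := by
  have h : c α (m + 1) = (∑ k : Fin (m + 1),
      ((1 + α) * ((k : ℕ) + 1) - (m + 1)) * b α ((k : ℕ) + 1) * c α (m - (k : ℕ))) / (m + 1) := by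
    rw [c]
  rw [h, Finset.sum_range]
  have : ((m:ℝ) + 1) ≠ 0 := by positivity
  field_simp

/-- coefficients of `E = exp (L / α)` -/
lemma cf_E (h0 : 0 < α) (h1 : α < 1) {L : ℂ → ℂ} (hL0 : L 0 = 0)
    (hLd : DifferentiableOn ℂ L (ball 0 1))
    (hLP : ∀ z ∈ ball (0:ℂ) 1, z * deriv L z = PF α z - 1) (n : ℕ) :
    cf (fun z => Complex.exp (L z / α)) n = b α n := by
  have hP := PF_data h0 h1
  have hα : (α:ℂ) ≠ 0 := by exact_mod_cast h0.ne'
  have hat : ∀ {v : ℂ → ℂ}, DifferentiableOn ℂ v (ball 0 1) → ∀ z ∈ ball (0:ℂ) 1,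
      HasDerivAt v (deriv v z) z := fun hv z hz =>
    ((hv z hz).differentiableAt (isOpen_ball.mem_nhds hz)).hasDerivAt
  set E : ℂ → ℂ := fun z => Complex.exp (L z / α) with hE
  have hEd : DifferentiableOn ℂ E (ball 0 1) := (hLd.div_const _).cexp
  have hE' : ∀ z ∈ ball (0:ℂ) 1, z * deriv E z = (PF α z - 1) / α * E z := by
    intro z hz
    have h2 : HasDerivAt E (Complex.exp (L z / α) * (deriv L z / α)) z :=
      ((hat hLd z hz).div_const _).cexp
    rw [h2.deriv, ← hLP z hz]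
    simp only [hE]
    ring
  set H : ℂ → ℂ := fun z => PF α z * E z with hH
  have hHd : DifferentiableOn ℂ H (ball 0 1) := hP.diff.mul hEd
  have hHa : AnalyticAt ℂ H 0 := analyticAt_of_ball one_pos hHd
  have hEa : AnalyticAt ℂ E 0 := analyticAt_of_ball one_pos hEd
  have hH' : ∀ z ∈ ball (0:ℂ) 1, z * deriv H z = (2 / α) * (z * (1 - z)⁻¹) * H z := by
    intro z hz
    have h2 : HasDerivAt H (deriv (PF α) z * E z + PF α z * deriv E z) z :=
      (hat hP.diff z hz).mul (hat hEd z hz)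
    rw [h2.deriv]
    have h3 := zP' h0 hP hz
    have h4 := hE' z hz
    have h5 := one_sub_ne hz
    calc z * (deriv (PF α) z * E z + PF α z * deriv E z)
        = (z * deriv (PF α) z) * E z + PF α z * (z * deriv E z) := by ring
      _ = _ := by
        rw [h3, h4]
        simp only [hH]
        field_simp
        ring
  have hHc : ∀ n : ℕ, cf H n = ((∏ j ∈ Finset.range n, (2 / α + j) / (j + 1) : ℝ) : ℂ) := by
    intro n
    induction n with
    | zero => rw [cf_zero]; simp [hH, hE, hL0, hP.zero]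
    | succ n ih =>
      have hev : (fun z => z * deriv H z - z * (z * deriv H z)) =ᶠ[𝓝 0]
          fun z => (2 / α) * (z * H z) := by
        filter_upwards [ball_nhds] with z hz
        have h2 := hH' z hz
        have h5 := one_sub_ne hz
        have h6 : z * deriv H z - z * (z * deriv H z) = (1 - z) * (z * deriv H z) := by ring
        rw [h6, h2]
        field_simp
      have hDa : AnalyticAt ℂ (fun z => z * deriv H z) 0 := analyticAt_id.mul hHa.deriv
      have h2 := cf_congr hev (n + 1)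
      rw [cf_sub (f := fun z => z * deriv H z) (g := fun z => z * (z * deriv H z)) hDa
        (analyticAt_id.mul hDa), cf_id_mul hDa, cf_D hHa, cf_D hHa, cf_const_mul,
        cf_id_mul hHa, ih] at h2
      rw [Finset.prod_range_succ]
      have hne : ((n:ℂ) + 1) ≠ 0 := by exact_mod_cast Nat.succ_ne_zero n
      push_cast at h2 ⊢
      have h3 : ((n:ℂ) + 1) * cf H (n + 1) = ((n:ℂ) + 1) *
          ((∏ x ∈ range n, (2 / (α:ℂ) + x) / (x + 1)) * ((2 / (α:ℂ) + n) / (n + 1))) := by
        have h4 : ((n:ℂ) + 1) *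
          ((∏ x ∈ range n, (2 / (α:ℂ) + x) / (x + 1)) * ((2 / (α:ℂ) + n) / (n + 1))) =
          (∏ x ∈ range n, (2 / (α:ℂ) + x) / (x + 1)) * (2 / (α:ℂ) + n) := by
          rw [mul_left_comm, mul_div_cancel₀ _ hne]
        rw [h4]
        linear_combination h2
      exact mul_left_cancel₀ hne h3
  have hEH : cf H n = (1 + α * n) * cf E n := by
    have hev : H =ᶠ[𝓝 0] fun z => E z + α * (z * deriv E z) := by
      filter_upwards [ball_nhds] with z hz
      rw [hE' z hz]
      simp only [hH]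
      field_simp
      ring
    have hDa : AnalyticAt ℂ (fun z => z * deriv E z) 0 := analyticAt_id.mul hEa.deriv
    rw [cf_congr hev, cf_add (g := fun z => α * (z * deriv E z)) hEa (analyticAt_const.mul hDa),
      cf_const_mul, cf_D hEa]
    ring
  have hne : (1 + (α:ℂ) * n) ≠ 0 := by
    have : (1 + α * n : ℝ) ≠ 0 := by positivity
    exact_mod_cast this
  rw [hHc] at hEH
  rw [b]
  push_cast at hEH ⊢
  rw [hEH]
  field_simp

lemma cf_M (h0 : 0 < α) (h1 : α < 1) {L : ℂ → ℂ} (hL0 : L 0 = 0)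
    (hLd : DifferentiableOn ℂ L (ball 0 1))
    (hLP : ∀ z ∈ ball (0:ℂ) 1, z * deriv L z = PF α z - 1) (n : ℕ) :
    cf (fun z => Complex.exp (L z)) n = c α n := by
  have hα : (α:ℂ) ≠ 0 := by exact_mod_cast h0.ne'
  have hat : ∀ {v : ℂ → ℂ}, DifferentiableOn ℂ v (ball 0 1) → ∀ z ∈ ball (0:ℂ) 1,
      HasDerivAt v (deriv v z) z := fun hv z hz =>
    ((hv z hz).differentiableAt (isOpen_ball.mem_nhds hz)).hasDerivAt
  set E : ℂ → ℂ := fun z => Complex.exp (L z / α) with hE
  set M : ℂ → ℂ := fun z => Complex.exp (L z) with hM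
  have hEd : DifferentiableOn ℂ E (ball 0 1) := (hLd.div_const _).cexp
  have hMd : DifferentiableOn ℂ M (ball 0 1) := hLd.cexp
  have hEa : AnalyticAt ℂ E 0 := analyticAt_of_ball one_pos hEd
  have hMa : AnalyticAt ℂ M 0 := analyticAt_of_ball one_pos hMd
  have hEb : ∀ k, cf E k = b α k := cf_E h0 h1 hL0 hLd hLP
  have hev : (fun z => E z * (z * deriv M z)) =ᶠ[𝓝 0] fun z => α * ((z * deriv E z) * M z) := by
    filter_upwards [ball_nhds] with z hz
    have h2 : HasDerivAt E (Complex.exp (L z / α) * (deriv L z / α)) z :=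
      ((hat hLd z hz).div_const _).cexp
    have h3 : HasDerivAt M (Complex.exp (L z) * deriv L z) z := (hat hLd z hz).cexp
    rw [h2.deriv, h3.deriv]
    simp only [hE, hM]
    field_simp
  have hDE : AnalyticAt ℂ (fun z => z * deriv E z) 0 := analyticAt_id.mul hEa.deriv
  have hDM : AnalyticAt ℂ (fun z => z * deriv M z) 0 := analyticAt_id.mul hMa.deriv
  have hkey : ∀ m : ℕ, ∑ k ∈ range (m + 1), (b α k : ℂ) * (((m - k : ℕ) : ℂ) * cf M (m - k)) =
      α * ∑ k ∈ range (m + 1), (k * (b α k : ℂ)) * cf M (m - k) := by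
    intro m
    have h2 := cf_congr hev m
    rw [cf_mul hEa hDM, cf_const_mul, cf_mul (f := fun z => z * deriv E z) hDE hMa] at h2
    simp only [cf_D hEa, cf_D hMa, hEb] at h2
    exact h2
  induction n using Nat.strong_induction_on with
  | _ n ih =>
    rcases n with _ | n
    · rw [cf_zero]; simp [hM, hL0, c]
    · have h2 := hkey (n + 1)
      rw [Finset.sum_range_succ' _ (n + 1), Finset.sum_range_succ' _ (n + 1)] at h2
      have hb0 : b α 0 = 1 := by simp [b]
      simp only [Nat.sub_zero, hb0, Nat.cast_zero, zero_mul, add_zero, Nat.add_sub_add_right,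
        Complex.ofReal_one, one_mul] at h2
      have hcr := congrArg (fun x : ℝ => (x : ℂ)) (c_rec α n)
      push_cast at hcr
      have hne : ((n:ℂ) + 1) ≠ 0 := by exact_mod_cast Nat.succ_ne_zero n
      apply mul_left_cancel₀ hne
      rw [hcr]
      have h3 : ((n:ℂ) + 1) * cf M (n + 1) =
          α * ∑ k ∈ range (n + 1), (((k + 1 : ℕ) : ℂ) * (b α (k + 1) : ℂ)) * cf M (n - k) -
          ∑ k ∈ range (n + 1), (b α (k + 1) : ℂ) * (((n - k : ℕ) : ℂ) * cf M (n - k)) := by
        rw [← h2]; push_cast; ring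
      rw [h3, Finset.mul_sum, ← Finset.sum_sub_distrib]
      apply Finset.sum_congr rfl
      intro k hk
      have hk' : k ≤ n := Nat.lt_succ_iff.1 (Finset.mem_range.1 hk)
      rw [ih (n - k) (by omega), Nat.cast_sub hk']
      push_cast
      ring

theorem main (h0 : 0 < α) (h1 : α < 1) :
    (∀ n : ℕ, 1 ≤ n → IsGreatest {x : ℝ | ∃ f : ℂ → ℂ, InM α f ∧ x = ‖coeff f n‖} (A α n)) ∧
    ∃ K : ℂ → ℂ, InM α K ∧ (∀ n : ℕ, 1 ≤ n → coeff K n = (A α n : ℂ)) ∧
      (∀ z ∈ ball (0 : ℂ) 1, z ≠ 0 →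
        (α * (1 + z * deriv (deriv K) z / deriv K z) + (1 - α) * (z * deriv K z / K z)) =
          (1 + z) / (1 - z)) ∧
      ∃ ℓ : ℂ → ℂ, DifferentiableOn ℂ ℓ (ball 0 1) ∧ ℓ 0 = 0 ∧
        ∀ z ∈ ball (0 : ℂ) 1, Complex.exp (ℓ z) = ∑' k : ℕ, (b α k : ℂ) * z ^ k ∧
          K z = z * Complex.exp (α * ℓ z) := by
  obtain ⟨L, hL0, hLd, hLP, hin, hmain, hcoef⟩ := extremal h0 h1
  have hα : (α:ℂ) ≠ 0 := by exact_mod_cast h0.ne'
  set K : ℂ → ℂ := fun z => z * Complex.exp (L z) with hK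
  have hMa : AnalyticAt ℂ (fun z => Complex.exp (L z)) 0 := analyticAt_of_ball one_pos hLd.cexp
  have hKc : ∀ m : ℕ, cf K (m + 1) = c α m := by
    intro m
    rw [hK, cf_id_mul hMa, cf_M h0 h1 hL0 hLd hLP]
  have hub : ∀ (f : ℂ → ℂ), InM α f → ∀ m : ℕ, ‖cf f (m + 1)‖ ≤ c α m := by
    intro f hf m
    have h2 := upper_aux h0 h1 hf m
    have h3 := hcoef m
    have h4 := fun k => PiF_nonneg h0 h1 k
    choose rr hrr0 hrr using h4
    have h5 : ∑ k ∈ range (m + 1), ‖cf (PiF α) k‖ * (((m - k : ℕ) : ℝ) + 1) =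
        ((m:ℝ) + 1) * c α m := by
      have h6 : ((∑ k ∈ range (m + 1), ‖cf (PiF α) k‖ * (((m - k : ℕ) : ℝ) + 1) : ℝ) : ℂ) =
          (((m:ℝ) + 1) * c α m : ℝ) := by
        have h7 : (((m:ℝ) + 1) * c α m : ℝ) = ((m:ℂ) + 1) * cf K (m + 1) := by
          rw [hKc]; push_cast; ring
        rw [h7, h3]
        push_cast
        apply Finset.sum_congr rfl
        intro k _
        rw [hrr k, Complex.norm_real, Real.norm_eq_abs, abs_of_nonneg (hrr0 k)]
      exact_mod_cast h6
    rw [h5] at h2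
    exact le_of_mul_le_mul_left h2 (by positivity)
  have hEd : DifferentiableOn ℂ (fun z => Complex.exp (L z / α)) (ball 0 1) :=
    (hLd.div_const _).cexp
  refine ⟨?_, K, hin, ?_, hmain, fun z => L z / α, hLd.div_const _, by simp [hL0], ?_⟩
  · intro n hn
    obtain ⟨m, rfl⟩ := Nat.exists_eq_add_of_le' hn
    constructor
    · refine ⟨K, hin, ?_⟩
      have h2 : coeff K (m + 1) = cf K (m + 1) := rfl
      rw [h2, hKc m]
      have h3 : 0 ≤ c α m := (norm_nonneg _).trans (hub K hin m)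
      rw [Complex.norm_real, Real.norm_eq_abs, abs_of_nonneg h3]
      rfl
    · rintro x ⟨f, hf, rfl⟩
      exact hub f hf m
  · intro n hn
    obtain ⟨m, rfl⟩ := Nat.exists_eq_add_of_le' hn
    exact hKc m
  · intro z hz
    constructor
    · have h2 := Complex.hasSum_taylorSeries_on_ball (f := fun z => Complex.exp (L z / α))
        (c := (0:ℂ)) (r := 1) (by simpa using hEd) (z := z) (by simpa using hz)
      have h3 := h2.tsum_eq
      simp only
      rw [← h3]
      congr 1
      funext k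
      rw [← cf_E h0 h1 hL0 hLd hLP k, cf]
      simp only [sub_zero, smul_eq_mul]
      ring
    · simp only [hK]
      congr 2
      field_simp

end Pool.Agent.Helper59.AC
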