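import Mathlib

/-! Change of variables for a (non-injective) holomorphic map of the disc. -/

namespace Pool.Agent.Helper59.Hardy

open Complex Set Filter Topology Metric MeasureTheory
open scoped ENNReal

theorem real_det (c : ℂ) :
    ((ContinuousLinearMap.toSpanSingleton ℂ c).restrictScalars ℝ : ℂ →L[ℝ] ℂ).det = ‖c‖ ^ 2 := by
  simp [ContinuousLinearMap.det, LinearMap.det_restrictScalars,
      Algebra.norm_complex_eq, Complex.normSq_eq_norm_sq]

theorem exists_pieces {ψ : ℂ → ℂ} (hψ : DifferentiableOn ℂ ψ (ball 0 1)) :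
    ∃ A : ℕ → Set ℂ, (∀ k, MeasurableSet (A k)) ∧ (∀ k, A k ⊆ ball 0 1) ∧
      (∀ k, InjOn ψ (A k)) ∧ Pairwise (fun i j => Disjoint (A i) (A j)) ∧
      ⋃ k, A k = {z | z ∈ ball (0 : ℂ) 1 ∧ deriv ψ z ≠ 0} := by
  set U : Set ℂ := {z | z ∈ ball (0 : ℂ) 1 ∧ deriv ψ z ≠ 0} with hU
  have hUm : MeasurableSet U := by
    apply MeasurableSet.inter measurableSet_ball
    exact (measurable_deriv ψ) (measurableSet_singleton 0).compl
  have hloc : ∀ z ∈ U, ∃ V : Set ℂ, IsOpen V ∧ z ∈ V ∧ InjOn ψ V := by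
    intro z hz
    have han : AnalyticAt ℂ ψ z := hψ.analyticAt (isOpen_ball.mem_nhds hz.1)
    have hsd : HasStrictDerivAt ψ (deriv ψ z) z := han.hasStrictDerivAt
    have hf := hsd.hasStrictFDerivAt_equiv hz.2
    refine ⟨(hf.toOpenPartialHomeomorph ψ).source, (hf.toOpenPartialHomeomorph ψ).open_source,
      hf.mem_toOpenPartialHomeomorph_source, ?_⟩
    have := (hf.toOpenPartialHomeomorph ψ).injOn
    rwa [hf.toOpenPartialHomeomorph_coe] at this
  choose! V hVo hVm hVi using hloc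
  obtain ⟨t, htU, htc, htcov⟩ := TopologicalSpace.countable_cover_nhdsWithin (f := V) (s := U)
    (fun x hx => mem_nhdsWithin_of_mem_nhds ((hVo x hx).mem_nhds (hVm x hx)))
  obtain ⟨W, hW⟩ : ∃ W : ℕ → Set ℂ, (∀ k, MeasurableSet (W k)) ∧ (∀ k, InjOn ψ (W k)) ∧
      U ⊆ ⋃ k, W k := by
    rcases t.eq_empty_or_nonempty with h | h
    · refine ⟨fun _ => ∅, fun _ => MeasurableSet.empty, fun _ => injOn_empty _, ?_⟩
      rw [h] at htcov
      simpa using htcov
    · obtain ⟨e, he⟩ := htc.exists_eq_range h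
      refine ⟨fun k => V (e k), fun k => ?_, fun k => ?_, ?_⟩
      · exact (hVo (e k) (htU (by rw [he]; exact mem_range_self k))).measurableSet
      · exact hVi (e k) (htU (by rw [he]; exact mem_range_self k))
      · intro x hx
        obtain ⟨y, hy, hxy⟩ := mem_iUnion₂.1 (htcov hx)
        rw [he] at hy
        obtain ⟨k, rfl⟩ := hy
        exact mem_iUnion.2 ⟨k, hxy⟩
  refine ⟨disjointed fun k => W k ∩ U, ?_, ?_, ?_, ?_, ?_⟩
  · intro k
    apply MeasurableSet.disjointed
    intro k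
    exact (hW.1 k).inter hUm
  · intro k
    exact (disjointed_subset _ k).trans (fun x hx => hx.2.1)
  · intro k
    exact ((hW.2.1 k).mono inter_subset_left).mono (disjointed_subset _ k)
  · exact disjoint_disjointed _
  · rw [iUnion_disjointed, ← iUnion_inter, inter_eq_right]
    exact hW.2.2

theorem area {ψ : ℂ → ℂ} (hψ : DifferentiableOn ℂ ψ (ball 0 1)) :
    ∃ N : ℂ → ℝ≥0∞, Measurable N ∧
      (∀ (w : ℂ) (B : ℝ≥0∞), (∀ Z : Finset ℂ, (∀ ζ ∈ Z, ‖ζ‖ < 1 ∧ ψ ζ = w) →
        ∑ ζ ∈ Z, ENNReal.ofReal (1 - ‖ζ‖ ^ 2) ≤ B) → N w ≤ B) ∧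
      ∀ F : ℂ → ℝ≥0∞, Measurable F →
        ∫⁻ z in ball 0 1, F (ψ z) * ENNReal.ofReal (‖deriv ψ z‖ ^ 2 * (1 - ‖z‖ ^ 2)) ≤
          ∫⁻ w, F w * N w := by
  classical
  obtain ⟨A, hAm, hAb, hAi, hAd, hAU⟩ := exists_pieces hψ
  have hemb : ∀ k, MeasurableEmbedding ((A k).domRestrict ψ) := fun k =>
    ContinuousOn.measurableEmbedding (hAm k) (hψ.continuousOn.mono (hAb k)) (hAi k)
  set u : ℕ → ℂ → ℝ≥0∞ := fun k => Function.extend ((A k).domRestrict ψ)
    (fun x : A k => ENNReal.ofReal (1 - ‖(x : ℂ)‖ ^ 2)) (fun _ => 0) with hu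
  have hum : ∀ k, Measurable (u k) := by
    intro k
    apply (hemb k).measurable_extend
    · have : Measurable fun z : ℂ => ENNReal.ofReal (1 - ‖z‖ ^ 2) := by fun_prop
      exact this.comp measurable_subtype_coe
    · exact measurable_const
  have huval : ∀ k, ∀ x ∈ A k, u k (ψ x) = ENNReal.ofReal (1 - ‖x‖ ^ 2) := by
    intro k x hx
    have := (hemb k).injective.extend_apply
      (fun x : A k => ENNReal.ofReal (1 - ‖(x : ℂ)‖ ^ 2)) (fun _ => 0) ⟨x, hx⟩
    exact this
  have huout : ∀ k w, (¬ ∃ x ∈ A k, ψ x = w) → u k w = 0 := by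
    intro k w h
    apply Function.extend_apply'
    rintro ⟨⟨x, hx⟩, hxw⟩
    exact h ⟨x, hx, hxw⟩
  refine ⟨fun w => ∑' k, u k w, Measurable.tsum hum, ?_, ?_⟩
  · intro w B hB
    simp only
    rw [ENNReal.tsum_eq_iSup_sum]
    apply iSup_le
    intro s
    -- indices with a preimage
    set s' := s.filter (fun k => ∃ x ∈ A k, ψ x = w) with hs'
    have h1 : ∑ k ∈ s, u k w = ∑ k ∈ s', u k w := by
      rw [hs', Finset.sum_filter]
      apply Finset.sum_congr rfl
      intro k _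
      split_ifs with h
      · rfl
      · exact huout k w h
    rw [h1]
    have hex : ∀ k ∈ s', ∃ x ∈ A k, ψ x = w := fun k hk => (Finset.mem_filter.1 hk).2
    choose! x hxA hxw using hex
    have hinj : ∀ i ∈ s', ∀ j ∈ s', x i = x j → i = j := by
      intro i hi j hj hij
      by_contra hne
      exact (Set.disjoint_left.1 (hAd hne)) (hxA i hi) (by rw [hij]; exact hxA j hj)
    have h2 := hB (s'.image x) (by
      intro ζ hζ
      obtain ⟨k, hk, rfl⟩ := Finset.mem_image.1 hζ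
      exact ⟨by simpa using hAb k (hxA k hk), hxw k hk⟩)
    rw [Finset.sum_image hinj] at h2
    refine le_trans (Finset.sum_le_sum ?_) h2
    intro k hk
    rw [← hxw k hk, huval k _ (hxA k hk)]
  · intro F hF
    have h0 : ∫⁻ z in ball 0 1, F (ψ z) * ENNReal.ofReal (‖deriv ψ z‖ ^ 2 * (1 - ‖z‖ ^ 2)) =
        ∫⁻ z in ⋃ k, A k, F (ψ z) * ENNReal.ofReal (‖deriv ψ z‖ ^ 2 * (1 - ‖z‖ ^ 2)) := by
      rw [← lintegral_indicator measurableSet_ball, ← lintegral_indicator (MeasurableSet.iUnion hAm)]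
      congr 1
      ext z
      by_cases hz : z ∈ ball (0 : ℂ) 1
      · by_cases hd : deriv ψ z = 0
        · rw [indicator_of_mem hz, indicator_of_notMem]
          · simp [hd]
          · rw [hAU]; exact fun h => h.2 hd
        · rw [indicator_of_mem hz, indicator_of_mem]
          rw [hAU]; exact ⟨hz, hd⟩
      · rw [indicator_of_notMem hz, indicator_of_notMem]
        rw [hAU]; exact fun h => hz h.1
    rw [h0, lintegral_iUnion hAm hAd]
    have h3 : ∫⁻ w, F w * ∑' k, u k w = ∑' k, ∫⁻ w, F w * u k w := by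
      have h5 := lintegral_tsum (μ := volume) (f := fun k w => F w * u k w)
        (fun k => (hF.mul (hum k)).aemeasurable)
      rw [← h5]
      simp_rw [ENNReal.tsum_mul_left]
    rw [h3]
    apply ENNReal.tsum_le_tsum
    intro k
    have h4 := lintegral_image_eq_lintegral_abs_det_fderiv_mul volume (hAm k) (f := ψ)
      (f' := fun z => (ContinuousLinearMap.toSpanSingleton ℂ (deriv ψ z)).restrictScalars ℝ)
      (fun z hz => by
        have hd : HasDerivAt ψ (deriv ψ z) z :=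
          (hψ.differentiableAt (isOpen_ball.mem_nhds (hAb k hz))).hasDerivAt
        exact (hd.hasFDerivAt.restrictScalars ℝ).hasFDerivWithinAt) (hAi k)
      (fun w => F w * u k w)
    calc ∫⁻ z in A k, F (ψ z) * ENNReal.ofReal (‖deriv ψ z‖ ^ 2 * (1 - ‖z‖ ^ 2))
        = ∫⁻ z in A k, ENNReal.ofReal |((ContinuousLinearMap.toSpanSingleton ℂ (deriv ψ z)).restrictScalars ℝ : ℂ →L[ℝ] ℂ).det| * (F (ψ z) * u k (ψ z)) := by
          apply setLIntegral_congr_fun (hAm k)
          intro z hz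
          simp only
          rw [real_det, huval k z hz, abs_of_nonneg (by positivity), ENNReal.ofReal_mul (by positivity)]
          ring
      _ = ∫⁻ w in ψ '' A k, F w * u k w := h4.symm
      _ ≤ ∫⁻ w, F w * u k w := setLIntegral_le_lintegral _ _

end Pool.Agent.Helper59.Hardy
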