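import Mathlib

/-! Circle extensions of minimal systems: a dichotomy. -/

namespace Pool.Agent.Helper59.NilMin

open Set Topology Filter Complex

section
variable {X : Type*} [TopologicalSpace X] [CompactSpace X] [T2Space X]

omit [T2Space X] in
theorem exists_min {T : X → X} {C₀ : Set X} (hC : IsClosed C₀) (hne : C₀.Nonempty)
    (hT : T ⁻¹' C₀ = C₀) : ∃ M ⊆ C₀, Minimal (fun M : Set X => IsClosed M ∧ M.Nonempty ∧ T ⁻¹' M = M) M := by
  have := zorn_superset_nonempty {M : Set X | IsClosed M ∧ M.Nonempty ∧ T ⁻¹' M = M} ?_ C₀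
    ⟨hC, hne, hT⟩
  · exact this
  · intro c hc hchain hcne
    refine ⟨⋂₀ c, ⟨?_, ?_, ?_⟩, fun s hs => sInter_subset_of_mem hs⟩
    · exact isClosed_sInter fun s hs => (hc hs).1
    · obtain ⟨s₀, hs₀⟩ := hcne
      have : Nonempty c := ⟨⟨s₀, hs₀⟩⟩
      rw [sInter_eq_iInter]
      apply IsCompact.nonempty_iInter_of_directed_nonempty_isCompact_isClosed
      · intro a b
        rcases hchain.total a.2 b.2 with h | h
        · exact ⟨a, subset_rfl, h⟩
        · exact ⟨b, h, subset_rfl⟩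
      · exact fun s => (hc s.2).2.1
      · exact fun s => (hc s.2).1.isCompact
      · exact fun s => (hc s.2).1
    · rw [preimage_sInter]
      apply Subset.antisymm
      · intro x hx s hs
        have h1 := mem_iInter₂.1 hx s hs
        rwa [(hc hs).2.2] at h1
      · intro x hx
        refine mem_iInter₂.2 fun s hs => ?_
        rw [(hc hs).2.2]
        exact hx s hs

theorem circle_ext (T : X → X)
    (ρ : ℝ → X → X) (hρc : Continuous fun p : ℝ × X => ρ p.1 p.2)
    (hρ0 : ∀ x, ρ 0 x = x) (hρadd : ∀ s t x, ρ (s + t) x = ρ s (ρ t x)) (hρ1 : ∀ x, ρ 1 x = x)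
    (hcomm : ∀ t x, T (ρ t x) = ρ t (T x))
    (hbase : ∀ C : Set X, IsClosed C → C.Nonempty → T ⁻¹' C = C → (∀ t, ρ t ⁻¹' C = C) → C = univ)
    {C₀ : Set X} (hC : IsClosed C₀) (hne : C₀.Nonempty)
    (hT : T ⁻¹' C₀ = C₀) (hC0 : C₀ ≠ univ) :
    ∃ k : ℕ, 0 < k ∧ ∃ F : X → ℂ, Continuous F ∧ (∀ x, ‖F x‖ = 1) ∧ (∀ x, F (T x) = F x) ∧
      ∀ t x, F (ρ t x) = exp (2 * Real.pi * I * (k * t)) * F x := by
  obtain ⟨M, hMC, hM⟩ := exists_min hC hne hT
  obtain ⟨⟨hMcl, hMne, hMT⟩, hMmin⟩ := hM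
  have hMuniv : M ≠ univ := by
    rintro rfl
    exact hC0 (univ_subset_iff.1 hMC)
  have hρt : ∀ t, Continuous (ρ t) := fun t => hρc.comp (by fun_prop : Continuous fun x : X => (t, x))
  have hinv : ∀ t x, ρ t (ρ (-t) x) = x := by
    intro t x; rw [← hρadd, add_neg_cancel, hρ0]
  have hinv' : ∀ t x, ρ (-t) (ρ t x) = x := by
    intro t x; rw [← hρadd, neg_add_cancel, hρ0]
  -- if ρ t maps some point of M into M then ρ t preserves M
  have hsub : ∀ t, (∃ x ∈ M, ρ t x ∈ M) → M ⊆ ρ t ⁻¹' M := by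
    rintro t ⟨x, hx, hxt⟩
    have h1 : M ⊆ ρ t ⁻¹' M ∩ M := by
      apply hMmin _ inter_subset_right
      refine ⟨(hMcl.preimage (hρt t)).inter hMcl, ⟨x, hxt, hx⟩, ?_⟩
      rw [preimage_inter, hMT]
      congr 1
      ext y
      simp only [mem_preimage]
      rw [← hcomm]
      change ρ t y ∈ T ⁻¹' M ↔ _
      rw [hMT]
    exact fun y hy => (h1 hy).1
  have hpres : ∀ t, (∃ x ∈ M, ρ t x ∈ M) → ρ t ⁻¹' M = M := by
    intro t h
    apply Subset.antisymm _ (hsub t h)
    intro y hy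
    obtain ⟨x, hx, hxt⟩ := h
    have h2 := hsub (-t) ⟨ρ t x, hxt, by rwa [hinv']⟩ hy
    simp only [mem_preimage, hinv'] at h2
    exact h2
  -- the stabiliser
  let H : AddSubgroup ℝ :=
    { carrier := {t | ρ t ⁻¹' M = M}
      zero_mem' := by ext x; simp [hρ0]
      add_mem' := by
        intro s t hs ht
        simp only [mem_ofPred_eq] at *
        ext x
        rw [mem_preimage, hρadd]
        change ρ t x ∈ ρ s ⁻¹' M ↔ _
        rw [hs]
        change x ∈ ρ t ⁻¹' M ↔ _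
        rw [ht]
      neg_mem' := by
        intro t ht
        simp only [mem_ofPred_eq] at *
        ext x
        rw [mem_preimage]
        conv_lhs => rw [← ht]
        rw [mem_preimage, hinv] }
  have hHmem : ∀ t, t ∈ H ↔ ρ t ⁻¹' M = M := fun t => Iff.rfl
  obtain ⟨m₀, hm₀⟩ := hMne
  have hHcl : IsClosed (H : Set ℝ) := by
    have : (H : Set ℝ) = (fun t => ρ t m₀) ⁻¹' M := by
      ext t
      constructor
      · intro ht
        have : m₀ ∈ ρ t ⁻¹' M := by rw [(hHmem t).1 ht]; exact hm₀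
        exact this
      · intro ht
        exact hpres t ⟨m₀, hm₀, ht⟩
    rw [this]
    exact hMcl.preimage (hρc.comp (by fun_prop : Continuous fun t : ℝ => (t, m₀)))
  have h1H : (1 : ℝ) ∈ H := by
    rw [hHmem]; ext x; simp [hρ1]
  have hcyc : ∃ a : ℝ, H = AddSubgroup.closure {a} := by
    rcases H.dense_or_cyclic with h | h
    · exfalso
      have hall : (H : Set ℝ) = univ := by rw [← hHcl.closure_eq, h.closure_eq]
      apply hMuniv
      apply hbase M hMcl ⟨m₀, hm₀⟩ hMT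
      intro t
      have : t ∈ (H : Set ℝ) := by rw [hall]; trivial
      exact this
    · exact h
  obtain ⟨a, ha⟩ := hcyc
  have hmema : ∀ t, t ∈ H → ∃ m : ℤ, (m : ℝ) * a = t := by
    intro t ht
    rw [ha, AddSubgroup.mem_closure_singleton] at ht
    obtain ⟨m, hm⟩ := ht
    exact ⟨m, by rw [← hm]; simp⟩
  obtain ⟨n, hn⟩ := hmema 1 h1H
  have hn0 : n ≠ 0 := by
    rintro rfl
    simp at hn
  -- k = |n|
  obtain ⟨k, hk0, hkey⟩ : ∃ k : ℕ, 0 < k ∧ ∀ t ∈ H, ∃ m : ℤ, (k : ℝ) * t = m := by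
    refine ⟨n.natAbs, Int.natAbs_pos.2 hn0, ?_⟩
    intro t ht
    obtain ⟨m, hm⟩ := hmema t ht
    have h1 : (n : ℝ) * t = m := by
      rw [← hm]
      calc (n : ℝ) * (m * a) = m * (n * a) := by ring
        _ = m := by rw [hn, mul_one]
    rcases Int.natAbs_eq n with h | h
    · refine ⟨m, ?_⟩
      have h3 : ((n.natAbs : ℕ) : ℝ) = (n : ℝ) := by
        rw [← Int.cast_natCast n.natAbs, ← h]
      rw [h3, h1]
    · refine ⟨-m, ?_⟩
      have h3 : ((n.natAbs : ℕ) : ℝ) = -(n : ℝ) := by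
        have h5 : ((n.natAbs : ℕ) : ℤ) = -n := by omega
        rw [← Int.cast_natCast n.natAbs, h5, Int.cast_neg]
      rw [h3]; push_cast; linarith
  -- saturation
  have hexp : ∀ s t : ℝ, s - t ∈ H → exp (2 * Real.pi * I * (k * s)) = exp (2 * Real.pi * I * (k * t)) := by
    intro s t hst
    obtain ⟨m, hm⟩ := hkey _ hst
    rw [Complex.exp_eq_exp_iff_exists_int]
    refine ⟨m, ?_⟩
    have : (k : ℂ) * s = k * t + m := by
      have h4 : (k : ℝ) * s = k * t + m := by linarith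
      exact_mod_cast h4
    rw [this]; ring
  have hint : ∀ (m : ℤ) x, ρ m x = x := by
    have hnat : ∀ (m : ℕ) x, ρ m x = x := by
      intro m
      induction m with
      | zero => intro x; simp [hρ0]
      | succ m ih => intro x; rw [Nat.cast_succ, hρadd, hρ1, ih]
    intro m x
    rcases Int.eq_nat_or_neg m with ⟨j, rfl | rfl⟩
    · exact_mod_cast hnat j x
    · have h1 := hinv' j x
      rw [hnat] at h1
      exact_mod_cast h1
  let Φ : (Icc (0:ℝ) 1) × M → X := fun p => ρ p.1 p.2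
  have hΦc : Continuous Φ := hρc.comp
    ((continuous_subtype_val.comp continuous_fst).prodMk
      (continuous_subtype_val.comp continuous_snd))
  have : CompactSpace M := isCompact_iff_compactSpace.1 hMcl.isCompact
  have hrange : range Φ = {x | ∃ t : ℝ, ∃ m ∈ M, x = ρ t m} := by
    ext x
    constructor
    · rintro ⟨⟨t, m⟩, rfl⟩
      exact ⟨t, m, m.2, rfl⟩
    · rintro ⟨t, m, hm, rfl⟩
      refine ⟨⟨⟨Int.fract t, ⟨Int.fract_nonneg t, (Int.fract_lt_one t).le⟩⟩, ⟨m, hm⟩⟩, ?_⟩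
      change ρ (Int.fract t) m = ρ t m
      conv_rhs => rw [← Int.fract_add_floor t, hρadd, hint]
  have hsurj : Function.Surjective Φ := by
    rw [← range_eq_univ]
    apply hbase
    · exact (isCompact_range hΦc).isClosed
    · exact ⟨m₀, by rw [hrange]; exact ⟨0, m₀, hm₀, (hρ0 _).symm⟩⟩
    · rw [hrange]
      ext x
      simp only [mem_preimage, mem_ofPred_eq]
      constructor
      · rintro ⟨t, m, hm, h⟩
        refine ⟨t, ρ (-t) x, ?_, (hinv t x).symm⟩
        rw [← hMT, mem_preimage, hcomm, h, hinv']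
        exact hm
      · rintro ⟨t, m, hm, rfl⟩
        refine ⟨t, T m, ?_, hcomm t m⟩
        rw [← hMT] at hm
        exact hm
    · intro s
      rw [hrange]
      ext x
      simp only [mem_preimage, mem_ofPred_eq]
      constructor
      · rintro ⟨t, m, hm, h⟩
        refine ⟨-s + t, m, hm, ?_⟩
        rw [hρadd, ← h, hinv']
      · rintro ⟨t, m, hm, rfl⟩
        exact ⟨s + t, m, hm, by rw [hρadd]⟩
  have hex : ∀ x, ∃ t : ℝ, ∃ m ∈ M, x = ρ t m := by
    intro x
    have : x ∈ range Φ := hsurj x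
    rw [hrange] at this
    exact this
  choose tt mm hmm hxx using hex
  set F : X → ℂ := fun x => exp (2 * Real.pi * I * (k * tt x)) with hF
  have hFval : ∀ t : ℝ, ∀ m ∈ M, F (ρ t m) = exp (2 * Real.pi * I * (k * t)) := by
    intro t m hm
    apply hexp
    apply hpres
    refine ⟨mm (ρ t m), hmm _, ?_⟩
    have h1 : mm (ρ t m) = ρ (-tt (ρ t m)) (ρ t m) := by
      have h0 := hinv' (tt (ρ t m)) (mm (ρ t m))
      rw [← hxx (ρ t m)] at h0
      exact h0.symm
    rw [h1, ← hρadd, ← hρadd]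
    have h2 : tt (ρ t m) - t + -tt (ρ t m) + t = 0 := by ring
    rw [h2, hρ0]
    exact hm
  refine ⟨k, hk0, F, ?_, ?_, ?_, ?_⟩
  · have hq : IsQuotientMap Φ := (hΦc.isClosedMap).isQuotientMap hΦc hsurj
    rw [hq.continuous_iff]
    have : F ∘ Φ = fun p => exp (2 * Real.pi * I * (k * (p.1 : ℝ))) := by
      ext p
      exact hFval p.1 p.2 p.2.2
    rw [this]
    fun_prop
  · intro x
    simp only [hF]
    rw [Complex.norm_exp]
    simp
  · intro x
    obtain ⟨t, m, hm, rfl⟩ : ∃ t : ℝ, ∃ m ∈ M, x = ρ t m := ⟨tt x, mm x, hmm x, hxx x⟩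
    rw [hcomm, hFval t m hm, hFval t (T m)]
    rw [← hMT] at hm
    exact hm
  · intro t x
    obtain ⟨s, m, hm, rfl⟩ : ∃ t : ℝ, ∃ m ∈ M, x = ρ t m := ⟨tt x, mm x, hmm x, hxx x⟩
    rw [← hρadd, hFval _ m hm, hFval _ m hm, ← Complex.exp_add]
    congr 1
    push_cast
    ring

end

end Pool.Agent.Helper59.NilMin
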