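import Mathlib

/-! The Hardy space `H²` of the unit disc, composition operators and spectra. -/

namespace Pool.Agent.Helper59.Hardy

/-- The open unit disc. -/
def disc : Set ℂ := Metric.ball 0 1

/-- The closed disc of radius `r` centred at `0`. -/
def closedDisc (r : ℝ) : Set ℂ := Metric.closedBall 0 r

/-- `φ` is a non-automorphic analytic self-map of the unit disc. -/
def NonAutSelfMap (φ : ℂ → ℂ) : Prop :=
  DifferentiableOn ℂ φ disc ∧ Set.MapsTo φ disc disc ∧ ¬ Set.BijOn φ disc disc

/-- The Hardy space `H²` of the unit disc: the square summable sequences `f 0, f 1, …` of complex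
numbers, `f n` being the `n`-th Taylor coefficient. -/
abbrev H2 : Type := lp (fun _ : ℕ => ℂ) 2

/-- The value at `z` of the function with Taylor coefficients `f`. -/
noncomputable def ev (f : H2) (z : ℂ) : ℂ := ∑' n, f n * z ^ n

/-- The bounded linear operators on `H²`. -/
abbrev Op : Type := H2 →L[ℂ] H2

/-- `C` is the composition operator `f ↦ f ∘ φ` on `H²`. -/
def IsComp (φ : ℂ → ℂ) (C : Op) : Prop :=
  ∀ f z, ‖z‖ < 1 → ev (C f) z = ev f (φ z)

/-- The function `A f - lam f`. -/
noncomputable def shift (A : Op) (lam : ℂ) (f : H2) : H2 := A f - lam • f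

/-- The spectrum of a bounded operator `A` on `H²`: the `lam` for which `A - lam` has no
bounded inverse. -/
def spec (A : Op) : Set ℂ :=
  {lam | ¬ ∃ S : Op, ∀ f, S (shift A lam f) = f ∧ shift A lam (S f) = f}

/-- The essential spectrum of a bounded operator `A` on `H²`: the `lam` for which `A - lam` has no
bounded inverse modulo the compact operators. -/
def essSpec (A : Op) : Set ℂ :=
  {lam | ¬ ∃ S : Op, IsCompactOperator (fun f => S (shift A lam f) - f) ∧
    IsCompactOperator (fun f => shift A lam (S f) - f)}

/-- `{a ^ n : n ≥ 1} ∪ {1}` -/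
def schroder (a : ℂ) : Set ℂ := {lam | ∃ n : ℕ, 1 ≤ n ∧ lam = a ^ n} ∪ {1}

end Pool.Agent.Helper59.Hardy
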