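import Mathlib
import Pool.Agent.Helper59.Parseval
import Pool.Agent.Helper59.HardyDefs

/-! The Hardy space `H²` as the space of square summable Taylor coefficients. -/

namespace Pool.Agent.Helper59.Hardy

open Complex Set Filter Topology
open scoped ComplexConjugate InnerProductSpace ENNReal

theorem hasSum_sq (f : H2) : HasSum (fun n => ‖f n‖ ^ 2) (‖f‖ ^ 2) := by
  have h := lp.hasSum_norm (p := 2) (by simp) f
  simpa using h

theorem summable_sq (f : H2) : Summable fun n => ‖f n‖ ^ 2 := (hasSum_sq f).summable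

theorem norm_sq (f : H2) : ‖f‖ ^ 2 = ∑' n, ‖f n‖ ^ 2 := (hasSum_sq f).tsum_eq.symm

theorem coeff_le (f : H2) (n : ℕ) : ‖f n‖ ≤ ‖f‖ := lp.norm_apply_le_norm (by simp) f n

/-- element of `H²` with given coefficients -/
noncomputable def mk (c : ℕ → ℂ) (h : Summable fun n => ‖c n‖ ^ 2) : H2 :=
  ⟨c, by
    apply memℓp_gen
    simpa using h⟩

@[simp] theorem mk_apply (c : ℕ → ℂ) (h : Summable fun n => ‖c n‖ ^ 2) (n : ℕ) :
    mk c h n = c n := rfl

theorem ext_coeff {f g : H2} (h : ∀ n, f n = g n) : f = g := lp.ext (funext h)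

theorem summable_norm_ev (f : H2) {r : ℝ} (hr0 : 0 ≤ r) (hr : r < 1) :
    Summable fun n => ‖f n‖ * r ^ n := by
  refine Summable.of_nonneg_of_le (fun n => by positivity)
    (fun n => mul_le_mul_of_nonneg_right (coeff_le f n) (by positivity)) ?_
  exact (summable_geometric_of_lt_one hr0 hr).mul_left _

theorem hasSum_ev (f : H2) {z : ℂ} (hz : ‖z‖ < 1) : HasSum (fun n => f n * z ^ n) (ev f z) := by
  apply Summable.hasSum
  apply Summable.of_norm
  simpa [norm_mul, norm_pow] using summable_norm_ev f (norm_nonneg z) hz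

theorem ker_summable {z : ℂ} (hz : ‖z‖ < 1) : Summable fun n : ℕ => ‖conj z ^ n‖ ^ 2 := by
  have h : ∀ n : ℕ, ‖conj z ^ n‖ ^ 2 = (‖z‖ ^ 2) ^ n := by
    intro n
    rw [norm_pow, RCLike.norm_conj, ← pow_mul, ← pow_mul, mul_comm]
  simp_rw [h]
  apply summable_geometric_of_lt_one (by positivity)
  nlinarith [norm_nonneg z]

/-- reproducing kernel -/
noncomputable def ker (z : ℂ) : H2 :=
  if h : ‖z‖ < 1 then mk (fun n => conj z ^ n) (ker_summable h) else 0

theorem ker_apply {z : ℂ} (hz : ‖z‖ < 1) (n : ℕ) : ker z n = conj z ^ n := by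
  unfold ker
  rw [dif_pos hz]
  rfl

theorem inner_ker {z : ℂ} (hz : ‖z‖ < 1) (f : H2) : ⟪ker z, f⟫_ℂ = ev f z := by
  rw [lp.inner_eq_tsum]
  unfold ev
  apply tsum_congr
  intro n
  rw [ker_apply hz, RCLike.inner_apply, map_pow, RCLike.conj_conj]

theorem norm_ker_sq {z : ℂ} (hz : ‖z‖ < 1) : ‖ker z‖ ^ 2 = (1 - ‖z‖ ^ 2)⁻¹ := by
  rw [norm_sq]
  have h : ∀ n : ℕ, ‖ker z n‖ ^ 2 = (‖z‖ ^ 2) ^ n := by
    intro n
    rw [ker_apply hz, norm_pow, RCLike.norm_conj, ← pow_mul, ← pow_mul, mul_comm]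
  simp_rw [h]
  apply tsum_geometric_of_lt_one (by positivity)
  nlinarith [norm_nonneg z]

theorem ev_add {z : ℂ} (hz : ‖z‖ < 1) (f g : H2) : ev (f + g) z = ev f z + ev g z := by
  rw [← inner_ker hz, inner_add_right, inner_ker hz, inner_ker hz]

theorem ev_sub {z : ℂ} (hz : ‖z‖ < 1) (f g : H2) : ev (f - g) z = ev f z - ev g z := by
  rw [← inner_ker hz, inner_sub_right, inner_ker hz, inner_ker hz]

theorem ev_smul {z : ℂ} (hz : ‖z‖ < 1) (c : ℂ) (f : H2) : ev (c • f) z = c * ev f z := by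
  rw [← inner_ker hz, inner_smul_right, inner_ker hz]

theorem ev_zero (z : ℂ) : ev 0 z = 0 := by
  unfold ev; simp

theorem ev_sum {z : ℂ} (hz : ‖z‖ < 1) {ι : Type*} (s : Finset ι) (f : ι → H2) :
    ev (∑ i ∈ s, f i) z = ∑ i ∈ s, ev (f i) z := by
  rw [← inner_ker hz, inner_sum]
  simp_rw [inner_ker hz]

theorem parseval (f : H2) {r : ℝ} (hr0 : 0 ≤ r) (hr : r < 1) :
    Real.circleAverage (fun z => ‖ev f z‖ ^ 2) 0 r = ∑' n, ‖f n‖ ^ 2 * r ^ (2 * n) :=
  circleAverage_norm_sq_tsum hr0 (summable_norm_ev f hr0 hr)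

theorem summable_parseval (f : H2) {r : ℝ} (hr0 : 0 ≤ r) (hr : r < 1) :
    Summable fun n => ‖f n‖ ^ 2 * r ^ (2 * n) := by
  refine Summable.of_nonneg_of_le (fun n => by positivity) (fun n => ?_) (summable_sq f)
  have : r ^ (2 * n) ≤ 1 := pow_le_one₀ hr0 hr.le
  nlinarith [sq_nonneg ‖f n‖]

theorem circleAverage_le (f : H2) {r : ℝ} (hr0 : 0 ≤ r) (hr : r < 1) :
    Real.circleAverage (fun z => ‖ev f z‖ ^ 2) 0 r ≤ ‖f‖ ^ 2 := by
  rw [parseval f hr0 hr, norm_sq]
  apply Summable.tsum_le_tsum _ (summable_parseval f hr0 hr) (summable_sq f)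
  intro n
  have : r ^ (2 * n) ≤ 1 := pow_le_one₀ hr0 hr.le
  nlinarith [sq_nonneg ‖f n‖]

theorem eq_zero_of_ev {f : H2} (h : ∀ z : ℂ, ‖z‖ < 1 → ev f z = 0) : f = 0 := by
  have h1 := parseval f (r := 1 / 2) (by norm_num) (by norm_num)
  have h2 : Real.circleAverage (fun z => ‖ev f z‖ ^ 2) 0 (1 / 2) = 0 := by
    rw [Real.circleAverage_congr_sphere (f₂ := fun _ => (0 : ℝ))]
    · exact Real.circleAverage_const _ _ _
    · intro z hz
      have : ‖z‖ = 1 / 2 := by simpa using hz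
      simp only
      rw [h z (by rw [this]; norm_num)]
      simp
  rw [h2] at h1
  apply ext_coeff
  intro n
  have h3 := (summable_parseval f (r := 1 / 2) (by norm_num) (by norm_num))
  have h4 : HasSum (fun n => ‖f n‖ ^ 2 * (1 / 2 : ℝ) ^ (2 * n)) 0 := by
    rw [h1]; exact h3.hasSum
  have h5 := (hasSum_zero_iff_of_nonneg (fun n => by positivity)).1 h4
  have h6 := congrFun h5 n
  simp only [Pi.zero_apply] at h6
  have h7 : ‖f n‖ ^ 2 = 0 := by
    rcases mul_eq_zero.1 h6 with h | h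
    · exact h
    · exfalso
      have : (0 : ℝ) < (1 / 2) ^ (2 * n) := by positivity
      linarith
  simpa using h7

theorem ext_ev {f g : H2} (h : ∀ z : ℂ, ‖z‖ < 1 → ev f z = ev g z) : f = g := by
  rw [← sub_eq_zero]
  apply eq_zero_of_ev
  intro z hz
  rw [ev_sub hz, h z hz, sub_self]

/-- the constant function one -/
noncomputable def one : H2 := lp.single 2 0 1

theorem one_zero : one 0 = 1 := by simp [one]

theorem one_succ (n : ℕ) : one (n + 1) = 0 := by simp [one]

theorem norm_one : ‖one‖ = 1 := by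
  unfold one
  rw [lp.norm_single (by norm_num)]
  simp

theorem ev_one (z : ℂ) : ev one z = 1 := by
  unfold ev
  rw [tsum_eq_single 0]
  · simp [one_zero]
  · intro n hn
    obtain ⟨m, rfl⟩ := Nat.exists_eq_succ_of_ne_zero hn
    rw [Nat.succ_eq_add_one, one_succ]; simp

theorem inner_one (f : H2) : ⟪one, f⟫_ℂ = f 0 := by
  unfold one
  rw [lp.inner_single_left]
  simp

theorem ev_at_zero (f : H2) : ev f 0 = f 0 := by
  unfold ev
  rw [tsum_eq_single 0]
  · simp
  · intro n hn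
    simp [hn]

theorem ker_zero : ker 0 = one := by
  apply ext_ev
  intro z hz
  rw [ev_one, ← inner_ker hz, ← inner_conj_symm, inner_ker (by simp), ev_at_zero, ker_apply hz]
  simp

/-- forward shift -/
noncomputable def Sh : H2 →ₗᵢ[ℂ] H2 where
  toFun f := mk (fun n => Nat.casesOn n 0 (fun m => f m)) (by
    rw [← summable_nat_add_iff 1]
    exact summable_sq f)
  map_add' f g := by
    apply ext_coeff
    intro n
    cases n <;> simp
  map_smul' c f := by
    apply ext_coeff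
    intro n
    cases n <;> simp
  norm_map' f := by
    have h : ∀ x y : ℝ, 0 ≤ x → 0 ≤ y → x ^ 2 = y ^ 2 → x = y := by
      intro x y hx hy hxy
      exact (sq_eq_sq₀ hx hy).1 hxy
    apply h _ _ (norm_nonneg _) (norm_nonneg _)
    rw [norm_sq f, norm_sq, Summable.tsum_eq_zero_add]
    · simp
    · rw [← summable_nat_add_iff 1]
      exact summable_sq f

@[simp] theorem Sh_zero (f : H2) : Sh f 0 = 0 := rfl

@[simp] theorem Sh_succ (f : H2) (n : ℕ) : Sh f (n + 1) = f n := rfl

theorem ev_Sh (f : H2) {z : ℂ} (hz : ‖z‖ < 1) : ev (Sh f) z = z * ev f z := by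
  have h := hasSum_ev (Sh f) hz
  have h2 := (hasSum_ev f hz).mul_left z
  have h3 : HasSum (fun n => Sh f n * z ^ n) (z * ev f z) := by
    rw [← hasSum_nat_add_iff' 1]
    simp only [Finset.range_one, Finset.sum_singleton, Sh_zero, zero_mul, sub_zero, Sh_succ]
    refine h2.congr_fun ?_
    intro n
    ring
  exact h.unique h3

/-- backward shift -/
noncomputable def Bh : H2 →L[ℂ] H2 :=
  LinearMap.mkContinuous
    { toFun := fun f => mk (fun n => f (n + 1)) ((summable_nat_add_iff 1).2 (summable_sq f))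
      map_add' := fun f g => by apply ext_coeff; intro n; simp
      map_smul' := fun c f => by apply ext_coeff; intro n; simp } 1 (by
    intro f
    rw [one_mul]
    apply le_of_sq_le_sq ?_ (norm_nonneg _)
    rw [norm_sq f, norm_sq, (summable_sq f).tsum_eq_zero_add]
    simp)

@[simp] theorem Bh_apply (f : H2) (n : ℕ) : Bh f n = f (n + 1) := rfl

end Pool.Agent.Helper59.Hardy
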