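import Mathlib
import Pool.Agent.Helper59.H2Basic

/-! Operators on the Hardy space: truncations, Blaschke factors, division. -/

namespace Pool.Agent.Helper59.Hardy

open Complex Set Filter Topology
open scoped ComplexConjugate InnerProductSpace ENNReal

theorem Sh_Bh (f : H2) : Sh (Bh f) = f - f 0 • one := by
  apply ext_coeff
  intro n
  cases n with
  | zero => simp [one_zero]
  | succ n => simp [one_succ]

theorem Bh_norm_le : ‖Bh‖ ≤ 1 := LinearMap.mkContinuous_norm_le _ zero_le_one _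

/-- truncation: keep the coefficients of index `≥ K` -/
noncomputable def P (K : ℕ) : H2 →L[ℂ] H2 :=
  LinearMap.mkContinuous
    { toFun := fun f => mk (fun n => if K ≤ n then f n else 0) (by
        refine Summable.of_nonneg_of_le (fun n => by positivity) (fun n => ?_) (summable_sq f)
        split_ifs with h
        · exact le_rfl
        · simp)
      map_add' := fun f g => by apply ext_coeff; intro n; simp only [mk_apply, lp.coeFn_add, Pi.add_apply]; split_ifs <;> simp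
      map_smul' := fun c f => by apply ext_coeff; intro n; simp only [mk_apply, lp.coeFn_smul, Pi.smul_apply, RingHom.id_apply]; split_ifs <;> simp } 1 (by
    intro f
    rw [one_mul]
    apply le_of_sq_le_sq ?_ (norm_nonneg _)
    rw [norm_sq f, norm_sq]
    apply Summable.tsum_le_tsum _ (summable_sq _) (summable_sq f)
    intro n
    simp only [LinearMap.coe_mk, AddHom.coe_mk, mk_apply]
    split_ifs with h
    · exact le_rfl
    · simp)

@[simp] theorem P_apply (K : ℕ) (f : H2) (n : ℕ) : P K f n = if K ≤ n then f n else 0 := rfl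

theorem P_norm_le (K : ℕ) : ‖P K‖ ≤ 1 := LinearMap.mkContinuous_norm_le _ zero_le_one _

theorem P_norm_apply_le (K : ℕ) (f : H2) : ‖P K f‖ ≤ ‖f‖ := by
  have := (P K).le_of_opNorm_le (P_norm_le K) f
  simpa using this

theorem P_eq_self {K : ℕ} {f : H2} (h : ∀ n < K, f n = 0) : P K f = f := by
  apply ext_coeff
  intro n
  rw [P_apply]
  split_ifs with hn
  · rfl
  · exact (h n (not_le.1 hn)).symm

theorem P_P (K : ℕ) (f : H2) : P K (P K f) = P K f := by
  apply P_eq_self
  intro n hn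
  rw [P_apply, if_neg (not_le.2 hn)]

theorem inner_P_left (K : ℕ) (f g : H2) : ⟪P K f, g⟫_ℂ = ⟪f, P K g⟫_ℂ := by
  rw [lp.inner_eq_tsum, lp.inner_eq_tsum]
  apply tsum_congr
  intro n
  rw [P_apply, P_apply]
  split_ifs <;> simp

theorem tendsto_P (f : H2) : Tendsto (fun K => P K f) atTop (𝓝 0) := by
  rw [tendsto_zero_iff_norm_tendsto_zero]
  have h1 : ∀ K, ‖P K f‖ ^ 2 = ∑' n, ‖f (n + K)‖ ^ 2 := by
    intro K
    rw [norm_sq, ← (summable_sq (P K f)).sum_add_tsum_nat_add K]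
    rw [Finset.sum_eq_zero, zero_add]
    · apply tsum_congr
      intro n
      rw [P_apply, if_pos (Nat.le_add_left K n)]
    · intro n hn
      rw [P_apply, if_neg (not_le.2 (Finset.mem_range.1 hn))]
      simp
  have h2 : Tendsto (fun K => ‖P K f‖ ^ 2) atTop (𝓝 0) := by
    simp_rw [h1]
    exact tendsto_sum_nat_add (fun n => ‖f n‖ ^ 2)
  have h3 := h2.sqrt
  simpa [Real.sqrt_sq (norm_nonneg _)] using h3

theorem one_sub_P_mem (K : ℕ) (f : H2) :
    (f - P K f) ∈ Submodule.span ℂ ((fun n => lp.single 2 n (1 : ℂ) : ℕ → H2) '' (Finset.range K)) := by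
  have : f - P K f = ∑ n ∈ Finset.range K, f n • (lp.single 2 n (1 : ℂ) : H2) := by
    apply ext_coeff
    intro m
    rw [lp.coeFn_sub, Pi.sub_apply, P_apply]
    have h2 : (∑ n ∈ Finset.range K, f n • (lp.single 2 n (1 : ℂ) : H2)) m =
        ∑ n ∈ Finset.range K, f n * (lp.single 2 n (1 : ℂ) : H2) m := by
      rw [lp.coeFn_sum, Finset.sum_apply]
      apply Finset.sum_congr rfl
      intro n _
      simp
    rw [h2]
    split_ifs with hm
    · rw [Finset.sum_eq_zero, sub_self]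
      intro n hn
      have : m ≠ n := by
        have := Finset.mem_range.1 hn
        omega
      simp [this]
    · rw [Finset.sum_eq_single m]
      · simp
      · intro n _ hn
        simp [Ne.symm hn]
      · intro h
        exact absurd (Finset.mem_range.2 (not_le.1 hm)) h
  rw [this]
  apply Submodule.sum_mem
  intro n hn
  apply Submodule.smul_mem
  apply Submodule.subset_span
  exact ⟨n, hn, rfl⟩

theorem compact_one_sub_P (K : ℕ) : IsCompactOperator (1 - P K : H2 →L[ℂ] H2) := by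
  set V : Submodule ℂ H2 :=
    Submodule.span ℂ ((fun n => lp.single 2 n (1 : ℂ) : ℕ → H2) '' (Finset.range K)) with hV
  have hfd : FiniteDimensional ℂ V := by
    apply FiniteDimensional.span_of_finite
    exact (Finset.finite_toSet _).image _
  have hmem : ∀ f, (1 - P K : H2 →L[ℂ] H2) f ∈ V := fun f => one_sub_P_mem K f
  let g : H2 →L[ℂ] V := (1 - P K : H2 →L[ℂ] H2).codRestrict V hmem
  have hg : IsCompactOperator g :=
    (isCompactOperator_id : IsCompactOperator (id : V → V)).comp_clm g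
  have : (⇑(1 - P K : H2 →L[ℂ] H2) : H2 → H2) = V.subtypeL ∘ g := by
    ext f; rfl
  rw [this]
  exact hg.clm_comp V.subtypeL

theorem norm_P_ker {z : ℂ} (hz : ‖z‖ < 1) (K : ℕ) : ‖P K (ker z)‖ = ‖z‖ ^ K * ‖ker z‖ := by
  have hx : ‖z‖ ^ 2 < 1 := by nlinarith [norm_nonneg z]
  apply (sq_eq_sq₀ (norm_nonneg _) (by positivity)).1
  rw [mul_pow, norm_sq (P K (ker z)), norm_sq, ← tsum_mul_left,
    ← (summable_sq (P K (ker z))).sum_add_tsum_nat_add K, Finset.sum_eq_zero, zero_add]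
  · apply tsum_congr
    intro n
    rw [P_apply, if_pos (Nat.le_add_left K n), ker_apply hz, ker_apply hz, pow_add, norm_mul,
      mul_pow, mul_comm]
    congr 1
    rw [norm_pow, RCLike.norm_conj]
  · intro n hn
    rw [P_apply, if_neg (not_le.2 (Finset.mem_range.1 hn))]
    simp

/-- Blaschke factor -/
noncomputable def b (w z : ℂ) : ℂ := (w - z) / (1 - conj w * z)

theorem one_sub_ne {w z : ℂ} (hw : ‖w‖ < 1) (hz : ‖z‖ < 1) : 1 - conj w * z ≠ 0 := by
  intro h
  have h1 : conj w * z = 1 := (sub_eq_zero.1 h).symm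
  have h2 : ‖w‖ * ‖z‖ = 1 := by
    rw [← RCLike.norm_conj w, ← norm_mul, h1, NormOneClass.norm_one]
  nlinarith [norm_nonneg w, norm_nonneg z]

theorem b_self (w : ℂ) : b w w = 0 := by simp [b]

theorem b_ne_zero {w z : ℂ} (hw : ‖w‖ < 1) (hz : ‖z‖ < 1) (h : z ≠ w) : b w z ≠ 0 := by
  unfold b
  exact div_ne_zero (sub_ne_zero.2 (Ne.symm h)) (one_sub_ne hw hz)

theorem b_zero (w : ℂ) : b w 0 = w := by simp [b]

/-- `‖b w z‖² = 1 - (1-|w|²)(1-|z|²)/|1-w̄z|²` -/
theorem norm_b_sq {w z : ℂ} (hw : ‖w‖ < 1) (hz : ‖z‖ < 1) :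
    1 - ‖b w z‖ ^ 2 = (1 - ‖w‖ ^ 2) * (1 - ‖z‖ ^ 2) / ‖1 - conj w * z‖ ^ 2 := by
  have h1 : ‖1 - conj w * z‖ ^ 2 ≠ 0 := by
    have := one_sub_ne hw hz
    positivity
  unfold b
  rw [norm_div, div_pow, eq_div_iff h1, sub_mul, div_mul_cancel₀ _ h1, one_mul]
  rw [← Complex.normSq_eq_norm_sq, ← Complex.normSq_eq_norm_sq, ← Complex.normSq_eq_norm_sq,
    ← Complex.normSq_eq_norm_sq, Complex.normSq_apply, Complex.normSq_apply,
    Complex.normSq_apply, Complex.normSq_apply]
  simp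
  ring

theorem norm_b_lt {w z : ℂ} (hw : ‖w‖ < 1) (hz : ‖z‖ < 1) : ‖b w z‖ < 1 := by
  have h := norm_b_sq hw hz
  have h1 : 0 < (1 - ‖w‖ ^ 2) * (1 - ‖z‖ ^ 2) / ‖1 - conj w * z‖ ^ 2 := by
    have := one_sub_ne hw hz
    have h2 : 0 < 1 - ‖w‖ ^ 2 := by nlinarith [norm_nonneg w]
    have h3 : 0 < 1 - ‖z‖ ^ 2 := by nlinarith [norm_nonneg z]
    positivity
  rw [← h] at h1
  nlinarith [norm_nonneg (b w z)]

theorem norm_b_comm (w z : ℂ) : ‖b w z‖ = ‖b z w‖ := by
  unfold b
  rw [norm_div, norm_div, norm_sub_rev w z]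
  congr 1
  rw [← RCLike.norm_conj (1 - conj z * w)]
  congr 1
  simp [mul_comm]

theorem b_b {w z : ℂ} (hw : ‖w‖ < 1) (hz : ‖z‖ < 1) : b w (b w z) = z := by
  have h1 := one_sub_ne hw hz
  have h2 := one_sub_ne hw (norm_b_lt hw hz)
  have h3 : 1 - conj w * b w z = (1 - conj w * w) / (1 - conj w * z) := by
    unfold b
    field_simp
    ring
  have h4 : w - b w z = z * (1 - conj w * w) / (1 - conj w * z) := by
    unfold b
    rw [eq_div_iff h1, sub_mul, div_mul_cancel₀ _ h1]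
    ring
  rw [h3] at h2
  have h5 : (1 - conj w * w) ≠ 0 := by
    intro h
    apply h2
    rw [h, zero_div]
  change (w - b w z) / (1 - conj w * b w z) = _
  rw [h3, h4, div_div_div_cancel_right₀ h1, mul_div_assoc, div_self h5, mul_one]

/-- multiplication by a Blaschke factor -/
theorem exists_mulB {w : ℂ} (hw : ‖w‖ < 1) : ∃ M : H2 →L[ℂ] H2, (∀ g, ‖M g‖ = ‖g‖) ∧
    (∀ g z, ‖z‖ < 1 → ev (M g) z = b w z * ev g z) ∧
    ∀ f, ev f w = 0 → ∃ q, M q = f := by
  set S : H2 →L[ℂ] H2 := Sh.toContinuousLinearMap with hS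
  have hSapp : ∀ f, S f = Sh f := fun f => rfl
  have hSn : ‖S‖ ≤ 1 := by
    apply ContinuousLinearMap.opNorm_le_bound _ zero_le_one
    intro f
    rw [hSapp, Sh.norm_map, one_mul]
  have hlt : ‖conj w • S‖ < 1 := by
    rw [norm_smul, RCLike.norm_conj]
    nlinarith [norm_nonneg w, norm_nonneg S]
  set U : (H2 →L[ℂ] H2)ˣ := Units.oneSub (conj w • S) hlt with hU
  have hUval : (U : H2 →L[ℂ] H2) = 1 - conj w • S := rfl
  set R : H2 →L[ℂ] H2 := (U⁻¹ : (H2 →L[ℂ] H2)ˣ).1 with hR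
  have hRU : ∀ g, R (g - conj w • Sh g) = g := by
    intro g
    have h : ((U⁻¹ : (H2 →L[ℂ] H2)ˣ).1 * (U : H2 →L[ℂ] H2)) g = g := by rw [U.inv_mul]; rfl
    exact h
  have hUR : ∀ g, R g - conj w • Sh (R g) = g := by
    intro g
    have h : ((U : H2 →L[ℂ] H2) * (U⁻¹ : (H2 →L[ℂ] H2)ˣ).1) g = g := by rw [U.mul_inv]; rfl
    exact h
  have hiso : ∀ x : H2, ‖w • x - Sh x‖ = ‖x - conj w • Sh x‖ := by
    intro x
    apply (sq_eq_sq₀ (norm_nonneg _) (norm_nonneg _)).1
    rw [@norm_sub_sq ℂ, @norm_sub_sq ℂ, norm_smul, norm_smul, inner_smul_left, inner_smul_right,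
      Sh.norm_map, RCLike.norm_conj]
    ring
  refine ⟨(w • (1 : H2 →L[ℂ] H2) - S) * R, ?_, ?_, ?_⟩
  · intro g
    change ‖w • R g - Sh (R g)‖ = ‖g‖
    rw [hiso, hUR]
  · intro g z hz
    change ev (w • R g - Sh (R g)) z = _
    have h1 : ev g z = (1 - conj w * z) * ev (R g) z := by
      conv_lhs => rw [← hUR g]
      rw [ev_sub hz, ev_smul hz, ev_Sh _ hz]
      ring
    rw [ev_sub hz, ev_smul hz, ev_Sh _ hz, h1]
    unfold b
    have := one_sub_ne hw hz
    rw [div_mul_eq_mul_div, eq_div_iff this]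
    ring
  · intro f hf
    -- `u = (1 - w B)⁻¹ B f`
    have hlt' : ‖w • Bh‖ < 1 := by
      rw [norm_smul]
      have := Bh_norm_le
      nlinarith [norm_nonneg w, norm_nonneg Bh]
    set V : (H2 →L[ℂ] H2)ˣ := Units.oneSub (w • Bh) hlt' with hV
    have hVval : (V : H2 →L[ℂ] H2) = 1 - w • Bh := rfl
    set u : H2 := (V⁻¹ : (H2 →L[ℂ] H2)ˣ).1 (Bh f) with hu
    have h1 : u - w • Bh u = Bh f := by
      have h : ((V : H2 →L[ℂ] H2) * (V⁻¹ : (H2 →L[ℂ] H2)ˣ).1) (Bh f) = Bh f := by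
        rw [V.mul_inv]; rfl
      exact h
    have h2 : Sh u - w • (u - u 0 • one) = f - f 0 • one := by
      rw [← Sh_Bh, ← Sh_Bh, ← h1, map_sub, map_smul]
    have h3 : Sh u - w • u = f - (f 0 + w * u 0) • one := by
      rw [smul_sub, smul_smul] at h2
      rw [add_smul]
      have : Sh u - w • u = (Sh u - (w • u - (w * u 0) • one)) - (w * u 0) • one := by abel
      rw [this, h2]
      abel
    have h4 : f 0 + w * u 0 = 0 := by
      have h5 := congrArg (fun g => ev g w) h3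
      simp only at h5
      rw [ev_sub hw, ev_Sh _ hw, ev_smul hw, ev_sub hw, ev_smul hw, ev_one, hf] at h5
      linear_combination h5
    rw [h4, zero_smul, sub_zero] at h3
    refine ⟨-(u - conj w • Sh u), ?_⟩
    change w • R (-(u - conj w • Sh u)) - Sh (R (-(u - conj w • Sh u))) = f
    rw [map_neg, hRU, map_neg, ← h3]
    simp
    abel

end Pool.Agent.Helper59.Hardy
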