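import Mathlib
import Pool.Agent.Helper59.H2Ops

/-! Finite Blaschke products, projections of `1` on kernels, composition operators. -/

namespace Pool.Agent.Helper59.Hardy

open Complex Set Filter Topology
open scoped ComplexConjugate InnerProductSpace ENNReal

theorem differentiableAt_ev (f : H2) {z : ℂ} (hz : ‖z‖ < 1) : DifferentiableAt ℂ (ev f) z := by
  obtain ⟨r, hr1, hr2⟩ := exists_between hz
  have h0 : 0 ≤ r := (norm_nonneg z).trans hr1.le
  have h := differentiableOn_tsum_of_summable_norm (F := fun n z => f n * z ^ n)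
    (U := Metric.ball (0 : ℂ) r) (summable_norm_ev f h0 hr2)
    (fun n => by fun_prop) Metric.isOpen_ball (by
      intro n w hw
      rw [norm_mul, norm_pow]
      have : ‖w‖ < r := by simpa using hw
      gcongr)
  exact h.differentiableAt (Metric.isOpen_ball.mem_nhds (by simpa using hr1))

theorem differentiableOn_ev (f : H2) : DifferentiableOn ℂ (ev f) (Metric.ball 0 1) :=
  fun _ hz => (differentiableAt_ev f (by simpa using hz)).differentiableWithinAt

theorem continuousOn_ev (f : H2) : ContinuousOn (ev f) (Metric.ball 0 1) :=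
  (differentiableOn_ev f).continuousOn

/-- finite Blaschke product with zeros the members of the list -/
noncomputable def bl (l : List ℂ) (z : ℂ) : ℂ := (l.map fun w => b w z).prod

theorem bl_nil (z : ℂ) : bl [] z = 1 := by simp [bl]

theorem bl_cons (w : ℂ) (l : List ℂ) (z : ℂ) : bl (w :: l) z = b w z * bl l z := by simp [bl]

theorem bl_append (l l' : List ℂ) (z : ℂ) : bl (l ++ l') z = bl l z * bl l' z := by simp [bl]

theorem bl_eq_zero {l : List ℂ} {w : ℂ} (h : w ∈ l) : bl l w = 0 := by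
  unfold bl
  rw [List.prod_eq_zero_iff]
  exact List.mem_map.2 ⟨w, h, b_self w⟩

theorem exists_mulL (l : List ℂ) (hl : ∀ w ∈ l, ‖w‖ < 1) (g : H2) :
    ∃ g' : H2, ‖g'‖ = ‖g‖ ∧ ∀ z, ‖z‖ < 1 → ev g' z = bl l z * ev g z := by
  induction l with
  | nil => exact ⟨g, rfl, fun z _ => by rw [bl_nil, one_mul]⟩
  | cons w l ih =>
    obtain ⟨g', h1, h2⟩ := ih (fun w' hw' => hl w' (List.mem_cons_of_mem _ hw'))
    obtain ⟨M, hM1, hM2, _⟩ := exists_mulB (hl w List.mem_cons_self)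
    refine ⟨M g', by rw [hM1, h1], fun z hz => ?_⟩
    rw [hM2 _ _ hz, h2 z hz, bl_cons]
    ring

theorem exists_div (Z : Finset ℂ) (hZ : ∀ w ∈ Z, ‖w‖ < 1) (f : H2) (hf : ∀ w ∈ Z, ev f w = 0) :
    ∃ q : H2, ‖q‖ = ‖f‖ ∧ ∀ z, ‖z‖ < 1 → ev f z = (∏ w ∈ Z, b w z) * ev q z := by
  classical
  induction Z using Finset.induction_on generalizing f with
  | empty => exact ⟨f, rfl, fun z _ => by simp⟩
  | insert w Z hw ih =>
    obtain ⟨M, hM1, hM2, hM3⟩ := exists_mulB (hZ w (Finset.mem_insert_self _ _))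
    obtain ⟨g, rfl⟩ := hM3 f (hf w (Finset.mem_insert_self _ _))
    obtain ⟨q, hq1, hq2⟩ := ih (fun w' hw' => hZ w' (Finset.mem_insert_of_mem hw')) g (by
      intro w' hw'
      have h1 := hf w' (Finset.mem_insert_of_mem hw')
      rw [hM2 _ _ (hZ w' (Finset.mem_insert_of_mem hw'))] at h1
      rcases mul_eq_zero.1 h1 with h2 | h2
      · exfalso
        apply b_ne_zero (hZ w (Finset.mem_insert_self _ _)) (hZ w' (Finset.mem_insert_of_mem hw')) _ h2
        rintro rfl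
        exact hw hw'
      · exact h2)
    refine ⟨q, by rw [hq1, hM1], fun z hz => ?_⟩
    rw [hM2 _ _ hz, hq2 z hz, Finset.prod_insert hw]
    ring

/-- projection of the constant `1` on the span of the kernels at the points of `Z` -/
theorem exists_h (Z : Finset ℂ) (hZ : ∀ w ∈ Z, ‖w‖ < 1) :
    ∃ h ∈ Submodule.span ℂ (ker '' (Z : Set ℂ)),
      (∀ v ∈ Submodule.span ℂ (ker '' (Z : Set ℂ)), ⟪v, h⟫_ℂ = ⟪v, one⟫_ℂ) ∧
      1 - (∏ w ∈ Z, ‖w‖) ^ 2 ≤ ‖h‖ ^ 2 := by
  set V := Submodule.span ℂ (ker '' (Z : Set ℂ)) with hV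
  have hfd : FiniteDimensional ℂ V := FiniteDimensional.span_of_finite ℂ ((Finset.finite_toSet Z).image _)
  set h : H2 := V.starProjection one with hh
  have hmem : h ∈ V := Submodule.starProjection_apply_mem V one
  have horth : ∀ v ∈ V, ⟪v, one - h⟫_ℂ = 0 := by
    intro v hv
    exact (Submodule.mem_orthogonal _ _).1 (Submodule.sub_starProjection_mem_orthogonal one) v hv
  refine ⟨h, hmem, ?_, ?_⟩
  · intro v hv
    have := horth v hv
    rw [inner_sub_right] at this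
    exact (sub_eq_zero.1 this).symm
  · set g : H2 := one - h with hg
    have hgZ : ∀ w ∈ Z, ev g w = 0 := by
      intro w hw
      rw [← inner_ker (hZ w hw)]
      exact horth _ (Submodule.subset_span ⟨w, hw, rfl⟩)
    obtain ⟨q, hq1, hq2⟩ := exists_div Z hZ g hgZ
    have h0 : g 0 = (∏ w ∈ Z, w) * q 0 := by
      have := hq2 0 (by simp)
      rw [ev_at_zero, ev_at_zero] at this
      simpa [b_zero] using this
    have hgg : ⟪g, g⟫_ℂ = g 0 := by
      have h1 : ⟪h, g⟫_ℂ = 0 := horth _ hmem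
      calc ⟪g, g⟫_ℂ = ⟪one - h, g⟫_ℂ := rfl
        _ = g 0 := by rw [inner_sub_left, h1, sub_zero, inner_one]
    have hn : ‖g‖ ^ 2 = ‖g 0‖ := by
      have h2 := congrArg norm hgg
      rw [inner_self_eq_norm_sq_to_K] at h2
      simpa using h2
    have hle : ‖g‖ ^ 2 ≤ (∏ w ∈ Z, ‖w‖) * ‖g‖ := by
      rw [hn, h0, norm_mul, norm_prod, ← hq1]
      exact mul_le_mul_of_nonneg_left (coeff_le q 0) (Finset.prod_nonneg fun w _ => norm_nonneg w)
    have hle2 : ‖g‖ ≤ ∏ w ∈ Z, ‖w‖ := by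
      by_cases hg0 : ‖g‖ = 0
      · rw [hg0]; exact Finset.prod_nonneg fun w _ => norm_nonneg w
      · have hpos : 0 < ‖g‖ := lt_of_le_of_ne (norm_nonneg _) (Ne.symm hg0)
        rw [sq] at hle
        exact le_of_mul_le_mul_right hle hpos
    have hpyth : ‖(one : H2)‖ ^ 2 = ‖h‖ ^ 2 + ‖g‖ ^ 2 := by
      have h3 : ⟪h, g⟫_ℂ = 0 := horth _ hmem
      have h4 : (one : H2) = h + g := by simp [hg]
      rw [h4]
      have := norm_add_sq_eq_norm_sq_add_norm_sq_of_inner_eq_zero (𝕜 := ℂ) h g h3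
      simp only [sq]
      exact this
    rw [norm_one] at hpyth
    have h5 : ‖g‖ ^ 2 ≤ (∏ w ∈ Z, ‖w‖) ^ 2 := pow_le_pow_left₀ (norm_nonneg _) hle2 2
    linarith

section Comp
variable {φ : ℂ → ℂ} {C : H2 →L[ℂ] H2}

theorem IsComp.adj_ker (hC : IsComp φ C) (hm : ∀ z, ‖z‖ < 1 → ‖φ z‖ < 1) {z : ℂ} (hz : ‖z‖ < 1) :
    C.adjoint (ker z) = ker (φ z) := by
  apply ext_inner_right ℂ
  intro f
  rw [ContinuousLinearMap.adjoint_inner_left, inner_ker hz, hC f z hz, inner_ker (hm z hz)]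

theorem IsComp.one (hC : IsComp φ C) : C one = one := by
  apply ext_ev
  intro z hz
  rw [hC _ z hz, ev_one, ev_one]

theorem iter_lt (hm : ∀ z, ‖z‖ < 1 → ‖φ z‖ < 1) (n : ℕ) : ∀ z, ‖z‖ < 1 → ‖φ^[n] z‖ < 1 := by
  induction n with
  | zero => intro z hz; simpa using hz
  | succ n ih => intro z hz; rw [Function.iterate_succ_apply]; exact ih _ (hm z hz)

theorem IsComp.pow (hC : IsComp φ C) (hm : ∀ z, ‖z‖ < 1 → ‖φ z‖ < 1) (n : ℕ) :
    IsComp (φ^[n]) (C ^ n) := by
  induction n with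
  | zero => intro f z _; simp
  | succ n ih =>
    intro f z hz
    rw [pow_succ, mul_apply_eq_comp, ih _ z hz, hC _ _ (iter_lt hm n z hz),
      Function.iterate_succ_apply']

theorem ev_bound (f : H2) {z : ℂ} (hz : ‖z‖ < 1) : ‖ev f z‖ ≤ ‖ker z‖ * ‖f‖ := by
  rw [← inner_ker hz]
  exact norm_inner_le_norm _ _

theorem norm_ker_le_two {z : ℂ} (hz : ‖z‖ ≤ 1 / 2) : ‖ker z‖ ≤ 2 := by
  have h1 := norm_ker_sq (z := z) (by linarith)
  have h2 : (1 - ‖z‖ ^ 2)⁻¹ ≤ 4 := by
    rw [inv_le_comm₀ (by nlinarith [norm_nonneg z]) (by norm_num)]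
    nlinarith [norm_nonneg z]
  nlinarith [norm_nonneg (ker z)]

/-- coefficient bound from a bound on a circle -/
theorem coeff_of_bound {f : H2} {r B : ℝ} (hr0 : 0 ≤ r) (hr : r < 1) (hB : 0 ≤ B)
    (h : ∀ z : ℂ, ‖z‖ = r → ‖ev f z‖ ≤ B) (n : ℕ) : ‖f n‖ * r ^ n ≤ B := by
  have h1 : Real.circleAverage (fun z => ‖ev f z‖ ^ 2) 0 r ≤ B ^ 2 := by
    apply Real.circleAverage_mono_on_of_le_circle
    · apply ContinuousOn.circleIntegrable hr0
      apply ContinuousOn.pow
      apply ContinuousOn.norm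
      apply (continuousOn_ev f).mono
      intro z hz
      have : ‖z‖ = r := by simpa using hz
      simp [this, hr]
    · intro z hz
      have : ‖z‖ = r := by simpa [abs_of_nonneg hr0] using hz
      exact pow_le_pow_left₀ (norm_nonneg _) (h z this) 2
  rw [parseval f hr0 hr] at h1
  have h2 := (summable_parseval f hr0 hr).le_tsum n (fun _ _ => by positivity)
  have h3 : (‖f n‖ * r ^ n) ^ 2 ≤ B ^ 2 := by
    calc (‖f n‖ * r ^ n) ^ 2 = ‖f n‖ ^ 2 * r ^ (2 * n) := by ring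
      _ ≤ _ := h2
      _ ≤ _ := h1
  exact le_of_sq_le_sq h3 hB

end Comp

end Pool.Agent.Helper59.Hardy
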