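import Mathlib
import Pool.Agent.Helper59.H2Comp

/-! Composition operators fixing the origin: action on low Taylor coefficients. -/

namespace Pool.Agent.Helper59.Hardy

open Complex Set Filter Topology
open scoped ComplexConjugate InnerProductSpace ENNReal

theorem ev_low_bound {K : ℕ} {f : H2} (hf : ∀ n < K, f n = 0) {z : ℂ} (hz : ‖z‖ < 1) :
    ‖ev f z‖ ≤ ‖z‖ ^ K * ‖ker z‖ * ‖f‖ := by
  rw [← inner_ker hz, ← P_eq_self hf, ← inner_P_left, ← norm_P_ker hz, P_eq_self hf]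
  exact norm_inner_le_norm _ _

theorem coeff_eq_zero {K : ℕ} {f : H2} {A : ℝ} (h : ∀ z : ℂ, ‖z‖ ≤ 1 / 2 → ‖ev f z‖ ≤ A * ‖z‖ ^ K) :
    ∀ n < K, f n = 0 := by
  intro n hn
  have hA : 0 ≤ A := by
    have hh : ‖(1 / 2 : ℂ)‖ = 1 / 2 := by simp
    have := h (1 / 2) hh.le
    have h2 : 0 ≤ A * ‖(1 / 2 : ℂ)‖ ^ K := (norm_nonneg _).trans this
    rw [hh] at h2
    have h3 : (0 : ℝ) < (1 / 2) ^ K := by positivity
    by_contra hneg
    nlinarith [mul_neg_of_neg_of_pos (not_le.1 hneg) h3]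
  have key : ∀ r : ℝ, 0 < r → r ≤ 1 / 2 → ‖f n‖ ≤ A * r := by
    intro r hr0 hr
    have h1 := coeff_of_bound (f := f) (r := r) (B := A * r ^ K) hr0.le (by linarith)
      (by positivity) (fun z hz => by rw [← hz]; exact h z (by rw [hz]; exact hr)) n
    have h2 : r ^ K ≤ r ^ (n + 1) := pow_le_pow_of_le_one hr0.le (by linarith) hn
    have h3 : ‖f n‖ * r ^ n ≤ A * r * r ^ n := by
      calc ‖f n‖ * r ^ n ≤ A * r ^ K := h1
        _ ≤ A * r ^ (n + 1) := by gcongr
        _ = A * r * r ^ n := by ring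
    exact le_of_mul_le_mul_right h3 (by positivity)
  have h4 : ‖f n‖ ≤ 0 := by
    by_contra hpos
    rw [not_le] at hpos
    rcases hA.eq_or_lt with hA0 | hA0
    · have := key (1 / 2) (by norm_num) le_rfl
      rw [← hA0] at this
      linarith
    · have h5 := key (min (1 / 2) (‖f n‖ / (2 * A))) (by positivity) (min_le_left _ _)
      have h6 : A * min (1 / 2) (‖f n‖ / (2 * A)) ≤ A * (‖f n‖ / (2 * A)) := by
        gcongr; exact min_le_right _ _
      have h7 : A * (‖f n‖ / (2 * A)) = ‖f n‖ / 2 := by field_simp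
      linarith
  simpa using h4

section
variable {φ : ℂ → ℂ} {C : H2 →L[ℂ] H2}

theorem IsComp.low (hC : IsComp φ C) (hle : ∀ z, ‖z‖ < 1 → ‖φ z‖ ≤ ‖z‖) {K : ℕ} {f : H2}
    (hf : ∀ n < K, f n = 0) : ∀ n < K, C f n = 0 := by
  apply coeff_eq_zero (A := 2 * ‖f‖)
  intro z hz
  have hz1 : ‖z‖ < 1 := by linarith
  have hz2 := hle z hz1
  rw [hC f z hz1]
  calc ‖ev f (φ z)‖ ≤ ‖φ z‖ ^ K * ‖ker (φ z)‖ * ‖f‖ := ev_low_bound hf (by linarith)
    _ ≤ ‖z‖ ^ K * 2 * ‖f‖ := by
        gcongr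
        exact norm_ker_le_two (by linarith)
    _ = 2 * ‖f‖ * ‖z‖ ^ K := by ring

theorem IsComp.P_comp (hC : IsComp φ C) (hle : ∀ z, ‖z‖ < 1 → ‖φ z‖ ≤ ‖z‖) (K : ℕ) (f : H2) :
    P K (C (P K f)) = C (P K f) := by
  apply P_eq_self
  apply hC.low hle
  intro n hn
  rw [P_apply, if_neg (not_le.2 hn)]

theorem IsComp.mul_pow (hC : IsComp φ C) (hle : ∀ z, ‖z‖ < 1 → ‖φ z‖ ≤ ‖z‖) (K n : ℕ) :
    (C * P K) ^ (n + 1) = C ^ (n + 1) * P K := by
  induction n with
  | zero => simp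
  | succ n ih =>
    rw [pow_succ, ih, pow_succ C (n + 1)]
    ext1 f
    simp only [mul_apply_eq_comp]
    rw [hC.P_comp hle]

/-- monomials -/
noncomputable def mon (n : ℕ) : H2 := lp.single 2 n 1

theorem mon_self (n : ℕ) : mon n n = 1 := by simp [mon]

theorem mon_ne {n m : ℕ} (h : m ≠ n) : mon n m = 0 := by simp [mon, h]

theorem ev_mon (n : ℕ) (z : ℂ) : ev (mon n) z = z ^ n := by
  unfold ev
  rw [tsum_eq_single n]
  · simp [mon_self]
  · intro m hm
    rw [mon_ne hm, zero_mul]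

theorem norm_mon (n : ℕ) : ‖mon n‖ = 1 := by
  unfold mon
  rw [lp.norm_single (by norm_num)]
  simp

theorem mon_zero : mon 0 = one := rfl

theorem IsComp.mon (hC : IsComp φ C) (h0 : φ 0 = 0) {a : ℂ} (hd : HasDerivAt φ a 0) (n : ℕ) :
    ∀ m ≤ n, (C (mon n) - a ^ n • mon n) m = 0 := by
  intro m hm
  have htend : Tendsto (fun z => (φ z / z) ^ n) (𝓝[≠] 0) (𝓝 (a ^ n)) := by
    apply Tendsto.pow
    have := hasDerivAt_iff_tendsto_slope.1 hd
    refine this.congr fun z => ?_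
    rw [slope_def_field, h0, sub_zero, sub_zero]
  have key : ∀ ε > 0, ‖(C (Hardy.mon n) - a ^ n • Hardy.mon n) m‖ ≤ ε := by
    intro ε hε
    have h1 := (Metric.tendsto_nhds.1 htend) ε hε
    rw [eventually_nhdsWithin_iff, Metric.eventually_nhds_iff] at h1
    obtain ⟨δ, hδ, h2⟩ := h1
    set r := min (δ / 2) (1 / 2) with hr
    have hr0 : 0 < r := by positivity
    have hr1 : r ≤ 1 / 2 := min_le_right _ _
    have hrδ : r < δ := lt_of_le_of_lt (min_le_left _ _) (by linarith)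
    have h3 := coeff_of_bound (f := C (Hardy.mon n) - a ^ n • Hardy.mon n) (r := r) (B := ε * r ^ n)
      hr0.le (by linarith) (by positivity) (fun z hz => by
        have hz1 : ‖z‖ < 1 := by rw [hz]; linarith
        have hz0 : z ≠ 0 := by
          intro h; rw [h] at hz; simp at hz; linarith
        rw [ev_sub hz1, ev_smul hz1, hC _ z hz1, ev_mon, ev_mon]
        have h4 := h2 (y := z) (by rw [dist_zero_right, hz]; exact hrδ) hz0
        rw [dist_eq_norm] at h4
        have h5 : φ z ^ n - a ^ n * z ^ n = z ^ n * ((φ z / z) ^ n - a ^ n) := by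
          rw [div_pow]; field_simp
        rw [h5, norm_mul, norm_pow, hz, mul_comm ε]
        gcongr) m
    have h6 : r ^ n ≤ r ^ m := pow_le_pow_of_le_one hr0.le (by linarith) hm
    have h7 : ‖(C (Hardy.mon n) - a ^ n • Hardy.mon n) m‖ * r ^ m ≤ ε * r ^ m := by
      refine h3.trans ?_
      gcongr
    exact le_of_mul_le_mul_right h7 (by positivity)
  have : ‖(C (Hardy.mon n) - a ^ n • Hardy.mon n) m‖ ≤ 0 := le_of_forall_pos_le_add (fun ε hε => by
    rw [zero_add]; exact key ε hε)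
  simpa using this

end

end Pool.Agent.Helper59.Hardy
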