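import Mathlib
import Pool.Agent.Helper59.H2Comp

/-! Schwarz-Pick type estimates. -/

namespace Pool.Agent.Helper59.Hardy

open Complex Set Filter Topology Metric
open scoped ComplexConjugate

/-- lower bound of the pseudo-hyperbolic distance in terms of the moduli -/
theorem norm_b_ge {w z : ℂ} (hw : ‖w‖ < 1) (hz : ‖z‖ < 1) :
    |‖z‖ - ‖w‖| ≤ ‖b w z‖ * (1 - ‖w‖ * ‖z‖) := by
  have h1 := norm_b_sq hw hz
  have hpos : 0 < 1 - ‖w‖ * ‖z‖ := by nlinarith [norm_nonneg w, norm_nonneg z]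
  have h2 : 1 - ‖w‖ * ‖z‖ ≤ ‖1 - conj w * z‖ := by
    calc 1 - ‖w‖ * ‖z‖ = ‖(1 : ℂ)‖ - ‖conj w * z‖ := by
          rw [norm_mul, RCLike.norm_conj, NormOneClass.norm_one]
      _ ≤ _ := norm_sub_norm_le _ _
  have h3 : (1 - ‖w‖ ^ 2) * (1 - ‖z‖ ^ 2) / ‖1 - conj w * z‖ ^ 2 ≤
      (1 - ‖w‖ ^ 2) * (1 - ‖z‖ ^ 2) / (1 - ‖w‖ * ‖z‖) ^ 2 := by
    have h4 : 0 ≤ 1 - ‖w‖ ^ 2 := by nlinarith [norm_nonneg w]
    have h5 : 0 ≤ 1 - ‖z‖ ^ 2 := by nlinarith [norm_nonneg z]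
    gcongr
  apply abs_le_of_sq_le_sq
  · rw [mul_pow]
    have h6 : ‖b w z‖ ^ 2 ≥ 1 - (1 - ‖w‖ ^ 2) * (1 - ‖z‖ ^ 2) / (1 - ‖w‖ * ‖z‖) ^ 2 := by linarith
    have h7 : (1 - (1 - ‖w‖ ^ 2) * (1 - ‖z‖ ^ 2) / (1 - ‖w‖ * ‖z‖) ^ 2) * (1 - ‖w‖ * ‖z‖) ^ 2 =
        (‖z‖ - ‖w‖) ^ 2 := by
      rw [sub_mul, div_mul_cancel₀ _ (by positivity)]
      ring
    rw [← h7]
    gcongr
  · positivity

theorem differentiableAt_b {w z : ℂ} (hw : ‖w‖ < 1) (hz : ‖z‖ < 1) :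
    DifferentiableAt ℂ (b w) z := by
  unfold b
  have := one_sub_ne hw hz
  fun_prop (disch := assumption)

theorem differentiableOn_b {w : ℂ} (hw : ‖w‖ < 1) : DifferentiableOn ℂ (b w) (ball 0 1) :=
  fun _ hz => (differentiableAt_b hw (by simpa using hz)).differentiableWithinAt

theorem mapsTo_b {w : ℂ} (hw : ‖w‖ < 1) : MapsTo (b w) (ball 0 1) (ball 0 1) := by
  intro z hz
  have hz' : ‖z‖ < 1 := by simpa using hz
  simpa using norm_b_lt hw hz'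

/-- divide a function bounded by one by a Blaschke factor -/
theorem div_step {F : ℂ → ℂ} (hF : DifferentiableOn ℂ F (ball 0 1))
    (hF1 : ∀ z, ‖z‖ < 1 → ‖F z‖ ≤ 1) {ζ : ℂ} (hζ : ‖ζ‖ < 1) (h0 : F ζ = 0) :
    ∃ F₁ : ℂ → ℂ, DifferentiableOn ℂ F₁ (ball 0 1) ∧ (∀ z, ‖z‖ < 1 → ‖F₁ z‖ ≤ 1) ∧
      ∀ z, ‖z‖ < 1 → F z = b ζ z * F₁ z := by
  set G : ℂ → ℂ := fun u => F (b ζ u) with hG
  have hGd : DifferentiableOn ℂ G (ball 0 1) := hF.comp (differentiableOn_b hζ) (mapsTo_b hζ)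
  have hG0 : G 0 = 0 := by simp only [hG, b_zero, h0]
  have hGmaps : MapsTo G (ball 0 1) (closedBall (G 0) 1) := by
    intro u hu
    rw [hG0]
    have hu' : ‖u‖ < 1 := by simpa using hu
    simpa using hF1 _ (norm_b_lt hζ hu')
  refine ⟨fun z => dslope G 0 (b ζ z), ?_, ?_, ?_⟩
  · have h1 : DifferentiableOn ℂ (dslope G 0) (ball 0 1) :=
      (differentiableOn_dslope (isOpen_ball.mem_nhds (mem_ball_self one_pos))).mpr hGd
    exact h1.comp (differentiableOn_b hζ) (mapsTo_b hζ)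
  · intro z hz
    have h2 := norm_dslope_le_div_of_mapsTo_ball hGd hGmaps (z := b ζ z)
      (by simpa using norm_b_lt hζ hz)
    simpa using h2
  · intro z hz
    have h3 := sub_smul_dslope G 0 (b ζ z)
    rw [sub_zero, hG0, sub_zero, smul_eq_mul] at h3
    simp only
    rw [h3]
    simp only [hG]
    rw [b_b hζ hz]

/-- Littlewood's inequality for finitely many zeros -/
theorem littlewood {F : ℂ → ℂ} (hF : DifferentiableOn ℂ F (ball 0 1))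
    (hF1 : ∀ z, ‖z‖ < 1 → ‖F z‖ ≤ 1) (Z : Finset ℂ) (hZ : ∀ ζ ∈ Z, ‖ζ‖ < 1)
    (h0 : ∀ ζ ∈ Z, F ζ = 0) {z : ℂ} (hz : ‖z‖ < 1) : ‖F z‖ ≤ ∏ ζ ∈ Z, ‖b ζ z‖ := by
  classical
  induction Z using Finset.induction_on generalizing F with
  | empty => simpa using hF1 z hz
  | insert ζ Z hζ ih =>
    obtain ⟨F₁, h1, h2, h3⟩ := div_step hF hF1 (hZ ζ (Finset.mem_insert_self _ _))
      (h0 ζ (Finset.mem_insert_self _ _))
    rw [h3 z hz, norm_mul, Finset.prod_insert hζ]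
    apply mul_le_mul_of_nonneg_left _ (norm_nonneg _)
    apply ih h1 h2 (fun w hw => hZ w (Finset.mem_insert_of_mem hw))
    intro w hw
    have h4 := h0 w (Finset.mem_insert_of_mem hw)
    rw [h3 w (hZ w (Finset.mem_insert_of_mem hw))] at h4
    rcases mul_eq_zero.1 h4 with h5 | h5
    · exfalso
      apply b_ne_zero (hZ ζ (Finset.mem_insert_self _ _)) (hZ w (Finset.mem_insert_of_mem hw)) _ h5
      rintro rfl
      exact hζ hw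
    · exact h5

/-- Littlewood's inequality for the preimages of a point -/
theorem littlewood' {ψ : ℂ → ℂ} (hψ : DifferentiableOn ℂ ψ (ball 0 1))
    (hm : ∀ z, ‖z‖ < 1 → ‖ψ z‖ < 1) {w : ℂ} (hw : ‖w‖ < 1) (Z : Finset ℂ)
    (hZ : ∀ ζ ∈ Z, ‖ζ‖ < 1) (h0 : ∀ ζ ∈ Z, ψ ζ = w) {z : ℂ} (hz : ‖z‖ < 1) :
    ‖b w (ψ z)‖ ≤ ∏ ζ ∈ Z, ‖b ζ z‖ := by
  apply littlewood (F := fun z => b w (ψ z)) _ _ Z hZ _ hz
  · exact (differentiableOn_b hw).comp hψ (fun z hz => by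
      simpa using hm z (by simpa using hz))
  · intro z hz
    exact (norm_b_lt hw (hm z hz)).le
  · intro ζ hζ
    simp only [h0 ζ hζ, b_self]

/-- Growth of a self-map fixing the origin -/
theorem growth {φ : ℂ → ℂ} (hφ : DifferentiableOn ℂ φ (ball 0 1))
    (hm : ∀ z, ‖z‖ < 1 → ‖φ z‖ < 1) (h0 : φ 0 = 0) (ha : ‖deriv φ 0‖ < 1) {z : ℂ} (hz : ‖z‖ < 1) :
    ‖φ z‖ * (1 + ‖deriv φ 0‖ * ‖z‖) ≤ ‖z‖ * (‖z‖ + ‖deriv φ 0‖) := by
  set g := dslope φ 0 with hg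
  have hgd : DifferentiableOn ℂ g (ball 0 1) :=
    (differentiableOn_dslope (isOpen_ball.mem_nhds (mem_ball_self one_pos))).mpr hφ
  have hmaps : MapsTo φ (ball 0 1) (closedBall (φ 0) 1) := by
    intro u hu
    rw [h0]
    simpa using (hm u (by simpa using hu)).le
  have hg1 : ∀ u, ‖u‖ < 1 → ‖g u‖ ≤ 1 := by
    intro u hu
    simpa using norm_dslope_le_div_of_mapsTo_ball hφ hmaps (z := u) (by simpa using hu)
  have hg0 : g 0 = deriv φ 0 := dslope_same φ 0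
  have hg2 : ∀ u, ‖u‖ < 1 → ‖g u‖ < 1 := by
    intro u hu
    refine lt_of_le_of_ne (hg1 u hu) ?_
    intro heq
    have h1 := affine_of_mapsTo_ball_of_norm_dslope_eq_div hφ hmaps (z₀ := u) (by simpa using hu)
      (by simpa using heq)
    have h2 : deriv φ 0 = g u := by
      have h3 : φ =ᶠ[𝓝 0] fun z => φ 0 + (z - 0) • dslope φ 0 u := by
        filter_upwards [isOpen_ball.mem_nhds (mem_ball_self (x := (0 : ℂ)) one_pos)] with z hz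
        exact h1 hz
      rw [h3.deriv_eq]
      simp [hg]
    rw [h2, heq] at ha
    exact lt_irrefl _ ha
  set c := deriv φ 0 with hc
  have hFd : DifferentiableOn ℂ (fun z => b c (g z)) (ball 0 1) :=
    (differentiableOn_b ha).comp hgd (fun z hz => by simpa using hg2 z (by simpa using hz))
  have h4 : ‖b c (g z)‖ ≤ ‖z‖ := by
    have h5 := littlewood hFd (fun z hz => (norm_b_lt ha (hg2 z hz)).le) {0} (by simp)
      (by intro ζ hζ; rw [Finset.mem_singleton] at hζ; subst hζ; rw [hg0, b_self]) hz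
    rw [Finset.prod_singleton, norm_b_comm 0 z, b_zero] at h5
    exact h5
  have h6 := norm_b_ge ha (hg2 z hz)
  have h7 : ‖φ z‖ = ‖z‖ * ‖g z‖ := by
    have h8 := sub_smul_dslope φ 0 z
    rw [sub_zero, h0, sub_zero, smul_eq_mul] at h8
    rw [← h8, norm_mul]
  have hpos : 0 < 1 - ‖c‖ * ‖g z‖ := by nlinarith [norm_nonneg c, norm_nonneg (g z), hg2 z hz]
  have h9 : ‖g z‖ - ‖c‖ ≤ ‖z‖ * (1 - ‖c‖ * ‖g z‖) := by
    calc ‖g z‖ - ‖c‖ ≤ |‖g z‖ - ‖c‖| := le_abs_self _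
      _ ≤ ‖b c (g z)‖ * (1 - ‖c‖ * ‖g z‖) := h6
      _ ≤ _ := by gcongr
  rw [h7]
  have h10 : ‖g z‖ * (1 + ‖c‖ * ‖z‖) ≤ ‖z‖ + ‖c‖ := by nlinarith
  calc ‖z‖ * ‖g z‖ * (1 + ‖c‖ * ‖z‖) = ‖z‖ * (‖g z‖ * (1 + ‖c‖ * ‖z‖)) := by ring
    _ ≤ _ := by gcongr

/-- consequences: quantitative contraction -/
theorem growth' {φ : ℂ → ℂ} (hφ : DifferentiableOn ℂ φ (ball 0 1))
    (hm : ∀ z, ‖z‖ < 1 → ‖φ z‖ < 1) (h0 : φ 0 = 0) (ha : ‖deriv φ 0‖ < 1) :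
    ∃ κ θ : ℝ, 1 < κ ∧ 0 < θ ∧ θ < 1 ∧ (∀ z, ‖z‖ < 1 → ‖φ z‖ ≤ ‖z‖) ∧
      (∀ z, ‖z‖ < 1 → 1 / 2 ≤ ‖z‖ → κ * (1 - ‖z‖) ≤ 1 - ‖φ z‖) ∧
      (∀ z, ‖z‖ ≤ 1 / 2 → ‖φ z‖ ≤ θ * ‖z‖) := by
  set a := ‖deriv φ 0‖ with hadef
  have ha0 : 0 ≤ a := norm_nonneg _
  refine ⟨3 / (2 + a), (1 + 2 * a) / (2 + a), ?_, by positivity, ?_, ?_, ?_, ?_⟩
  · rw [lt_div_iff₀ (by linarith)]; linarith
  · rw [div_lt_one (by linarith)]; linarith
  · intro z hz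
    have h1 := growth hφ hm h0 ha hz
    rw [← hadef] at h1
    have hx := norm_nonneg z
    have h2 : ‖z‖ * (‖z‖ + a) ≤ ‖z‖ * (1 + a * ‖z‖) := by
      apply mul_le_mul_of_nonneg_left _ hx
      nlinarith
    have h3 : 0 < 1 + a * ‖z‖ := by positivity
    exact le_of_mul_le_mul_right (h1.trans h2) h3
  · intro z hz hz2
    have h1 := growth hφ hm h0 ha hz
    rw [← hadef] at h1
    have hx := norm_nonneg z
    have h3 : 0 < 1 + a * ‖z‖ := by positivity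
    rw [div_mul_eq_mul_div, div_le_iff₀ (by linarith)]
    -- (1 - φ)(2+a) ≥ 3 (1 - x)
    have h4 : (1 - ‖z‖) * (1 + ‖z‖) ≤ (1 - ‖φ z‖) * (1 + a * ‖z‖) := by nlinarith
    have h5 : 3 * (1 + a * ‖z‖) ≤ (1 + ‖z‖) * (2 + a) := by nlinarith
    have h6 : 3 * (1 - ‖z‖) * (1 + a * ‖z‖) ≤ (1 - ‖φ z‖) * (2 + a) * (1 + a * ‖z‖) := by
      calc 3 * (1 - ‖z‖) * (1 + a * ‖z‖) = (1 - ‖z‖) * (3 * (1 + a * ‖z‖)) := by ring
        _ ≤ (1 - ‖z‖) * ((1 + ‖z‖) * (2 + a)) := by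
            apply mul_le_mul_of_nonneg_left h5; linarith
        _ = ((1 - ‖z‖) * (1 + ‖z‖)) * (2 + a) := by ring
        _ ≤ ((1 - ‖φ z‖) * (1 + a * ‖z‖)) * (2 + a) := by
            apply mul_le_mul_of_nonneg_right h4; linarith
        _ = _ := by ring
    exact le_of_mul_le_mul_right h6 h3
  · intro z hz2
    have h1 := growth hφ hm h0 ha (z := z) (by linarith)
    rw [← hadef] at h1
    have hx := norm_nonneg z
    have h3 : 0 < 1 + a * ‖z‖ := by positivity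
    rw [div_mul_eq_mul_div, le_div_iff₀ (by linarith)]
    have h5 : (‖z‖ + a) * (2 + a) ≤ (1 + 2 * a) * (1 + a * ‖z‖) := by
      nlinarith [mul_nonneg ha0 (sub_nonneg.2 hz2), mul_nonneg (mul_nonneg ha0 ha0) (sub_nonneg.2 hz2)]
    have h6 : ‖φ z‖ * (2 + a) * (1 + a * ‖z‖) ≤ (1 + 2 * a) * ‖z‖ * (1 + a * ‖z‖) := by
      calc ‖φ z‖ * (2 + a) * (1 + a * ‖z‖) = ‖φ z‖ * (1 + a * ‖z‖) * (2 + a) := by ring
        _ ≤ ‖z‖ * (‖z‖ + a) * (2 + a) := by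
            apply mul_le_mul_of_nonneg_right h1; linarith
        _ = ‖z‖ * ((‖z‖ + a) * (2 + a)) := by ring
        _ ≤ ‖z‖ * ((1 + 2 * a) * (1 + a * ‖z‖)) := by gcongr
        _ = _ := by ring
    exact le_of_mul_le_mul_right h6 h3

end Pool.Agent.Helper59.Hardy
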