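import Mathlib
import Pool.Agent.Helper59.H2Low
import Pool.Agent.Helper59.Schw

/-! The vectors `h` attached to finite sets of preimages. -/

namespace Pool.Agent.Helper59.Hardy

open Complex Set Filter Topology Metric
open scoped ComplexConjugate InnerProductSpace

/-- the vector attached to a finite set `Z` of preimages of `w` under `ψ` -/
structure IsH (ψ : ℂ → ℂ) (w : ℂ) (Z : Finset ℂ) (h : H2) : Prop where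
  lt : ∀ ζ ∈ Z, ‖ζ‖ < 1
  map : ∀ ζ ∈ Z, ψ ζ = w
  mem : h ∈ Submodule.span ℂ (ker '' (Z : Set ℂ))
  proj : ∀ v ∈ Submodule.span ℂ (ker '' (Z : Set ℂ)), ⟪v, h⟫_ℂ = ⟪v, one⟫_ℂ
  low : 1 - (∏ ζ ∈ Z, ‖ζ‖) ^ 2 ≤ ‖h‖ ^ 2

theorem exists_isH {ψ : ℂ → ℂ} {w : ℂ} {Z : Finset ℂ} (hZ : ∀ ζ ∈ Z, ‖ζ‖ < 1 ∧ ψ ζ = w) :
    ∃ h, IsH ψ w Z h := by
  obtain ⟨h, h1, h2, h3⟩ := exists_h Z (fun ζ hζ => (hZ ζ hζ).1)
  exact ⟨h, fun ζ hζ => (hZ ζ hζ).1, fun ζ hζ => (hZ ζ hζ).2, h1, h2, h3⟩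

theorem IsH.norm_le_one {ψ : ℂ → ℂ} {w : ℂ} {Z : Finset ℂ} {h : H2} (H : IsH ψ w Z h) :
    ‖h‖ ≤ 1 := by
  have h1 := H.proj h H.mem
  have h2 : ‖h‖ ^ 2 ≤ ‖h‖ * 1 := by
    have h3 := norm_inner_le_norm (𝕜 := ℂ) h one
    rw [← h1, norm_one, inner_self_eq_norm_sq_to_K] at h3
    simpa using h3
  nlinarith [norm_nonneg h]

theorem IsH.inner_eq_zero {ψ : ℂ → ℂ} {w : ℂ} {Z : Finset ℂ} {h : H2} (H : IsH ψ w Z h)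
    {g : H2} (hg : ∀ ζ ∈ Z, ev g ζ = 0) : ⟪h, g⟫_ℂ = 0 := by
  have hmem := H.mem
  refine Submodule.span_induction (p := fun x _ => ⟪x, g⟫_ℂ = 0) ?_ ?_ ?_ ?_ hmem
  · rintro _ ⟨ζ, hζ, rfl⟩
    rw [inner_ker (H.lt ζ hζ)]
    exact hg ζ hζ
  · simp
  · intro x y _ _ hx hy
    rw [inner_add_left, hx, hy, add_zero]
  · intro c x _ hx
    rw [inner_smul_left, hx, mul_zero]

theorem IsH.adj {ψ : ℂ → ℂ} {w : ℂ} {Z : Finset ℂ} {h : H2} (H : IsH ψ w Z h) {D : H2 →L[ℂ] H2}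
    (hD : IsComp ψ D) (hm : ∀ z, ‖z‖ < 1 → ‖ψ z‖ < 1) (hw : ‖w‖ < 1) :
    D.adjoint h = ((‖h‖ ^ 2 : ℝ) : ℂ) • ker w := by
  have hmem := H.mem
  have hc : ∃ c : ℂ, D.adjoint h = c • ker w := by
    refine Submodule.span_induction (p := fun x _ => ∃ c : ℂ, D.adjoint x = c • ker w) ?_ ?_ ?_ ?_ hmem
    · rintro _ ⟨ζ, hζ, rfl⟩
      refine ⟨1, ?_⟩
      rw [hD.adj_ker hm (H.lt ζ hζ), H.map ζ hζ, one_smul]
    · exact ⟨0, by simp⟩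
    · rintro x y _ _ ⟨c, hc⟩ ⟨d, hd⟩
      exact ⟨c + d, by rw [map_add, hc, hd, add_smul]⟩
    · rintro a x _ ⟨c, hc⟩
      exact ⟨a * c, by rw [map_smul, hc, smul_smul]⟩
  obtain ⟨c, hc⟩ := hc
  have h1 : ⟪one, D.adjoint h⟫_ℂ = ⟪one, h⟫_ℂ := by
    rw [ContinuousLinearMap.adjoint_inner_right, hD.one]
  have h2 : ⟪one, h⟫_ℂ = ((‖h‖ ^ 2 : ℝ) : ℂ) := by
    rw [← inner_conj_symm, ← H.proj h H.mem, inner_self_eq_norm_sq_to_K]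
    simp
  have h3 : ⟪one, D.adjoint h⟫_ℂ = c := by
    rw [hc, inner_smul_right, inner_one, ker_apply hw]
    simp
  rw [hc, ← h3, h1, h2]

theorem prod_bound (Z : Finset ℂ) (hZ : ∀ ζ ∈ Z, ‖ζ‖ < 1) :
    1 / 2 * min 1 (∑ ζ ∈ Z, (1 - ‖ζ‖ ^ 2)) ≤ 1 - (∏ ζ ∈ Z, ‖ζ‖) ^ 2 := by
  set x := ∑ ζ ∈ Z, (1 - ‖ζ‖ ^ 2) with hx
  have hx0 : 0 ≤ x := Finset.sum_nonneg fun ζ hζ => by nlinarith [hZ ζ hζ, norm_nonneg ζ]
  have h1 : (∏ ζ ∈ Z, ‖ζ‖) ^ 2 ≤ Real.exp (-x) := by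
    rw [← Finset.prod_pow, hx, ← Finset.sum_neg_distrib, Real.exp_sum]
    apply Finset.prod_le_prod
    · intro ζ _; positivity
    · intro ζ _
      have := Real.add_one_le_exp (-(1 - ‖ζ‖ ^ 2))
      linarith
  have h2 : 1 / 2 * min 1 x ≤ 1 - Real.exp (-x) := by
    have h3 : Real.exp (-x) * (1 + x) ≤ 1 := by
      have h4 : 1 + x ≤ Real.exp x := by linarith [Real.add_one_le_exp x]
      calc Real.exp (-x) * (1 + x) ≤ Real.exp (-x) * Real.exp x := by gcongr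
        _ = 1 := by rw [← Real.exp_add]; simp
    have h5 : 0 < Real.exp (-x) := Real.exp_pos _
    rcases le_total 1 x with h | h
    · rw [min_eq_left h]
      nlinarith
    · rw [min_eq_right h]
      nlinarith
  linarith

theorem P_adj_bound (D : H2 →L[ℂ] H2) (K : ℕ) (x : H2) :
    ‖P K (D.adjoint x)‖ ≤ ‖D * P K‖ * ‖x‖ := by
  have h1 : ‖P K (D.adjoint x)‖ ^ 2 ≤ ‖D * P K‖ * ‖x‖ * ‖P K (D.adjoint x)‖ := by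
    have h2 : ⟪P K (D.adjoint x), P K (D.adjoint x)⟫_ℂ = ⟪x, (D * P K) (P K (D.adjoint x))⟫_ℂ := by
      rw [mul_apply_eq_comp, P_P, inner_P_left, P_P]
      exact ContinuousLinearMap.adjoint_inner_left D _ _
    have h3 := congrArg norm h2
    rw [inner_self_eq_norm_sq_to_K] at h3
    have h4 : ‖P K (D.adjoint x)‖ ^ 2 = ‖⟪x, (D * P K) (P K (D.adjoint x))⟫_ℂ‖ := by simpa using h3
    rw [h4]
    calc _ ≤ ‖x‖ * ‖(D * P K) (P K (D.adjoint x))‖ := norm_inner_le_norm _ _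
      _ ≤ ‖x‖ * (‖D * P K‖ * ‖P K (D.adjoint x)‖) := by
          gcongr
          exact ContinuousLinearMap.le_opNorm _ _
      _ = _ := by ring
  rcases (norm_nonneg (P K (D.adjoint x))).eq_or_lt with h | h
  · rw [← h]; positivity
  · rw [sq] at h1
    exact le_of_mul_le_mul_right h1 h

/-- upper bound for the counting function near the circle -/
theorem count_upper {ψ : ℂ → ℂ} {D : H2 →L[ℂ] H2} (hD : IsComp ψ D)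
    (hm : ∀ z, ‖z‖ < 1 → ‖ψ z‖ < 1) {α : ℝ} (hα : 0 < α) {K : ℕ} (hK : ‖D * P K‖ ^ 2 ≤ 2 * α ^ 2)
    {w : ℂ} (hw : ‖w‖ < 1) (hw1 : 1 / 2 ≤ ‖w‖ ^ (2 * K)) (hw2 : 8 * α ^ 2 * (1 - ‖w‖ ^ 2) < 1)
    {Z : Finset ℂ} (hZ : ∀ ζ ∈ Z, ‖ζ‖ < 1 ∧ ψ ζ = w) :
    ∑ ζ ∈ Z, (1 - ‖ζ‖ ^ 2) ≤ 8 * α ^ 2 * (1 - ‖w‖ ^ 2) := by
  obtain ⟨h, H⟩ := exists_isH hZ
  have h1 := P_adj_bound D K h
  rw [H.adj hD hm hw, map_smul, norm_smul, norm_P_ker hw, Complex.norm_real,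
    Real.norm_of_nonneg (by positivity)] at h1
  have hpos : 0 < 1 - ‖w‖ ^ 2 := by nlinarith [norm_nonneg w]
  have h2 : ‖h‖ ^ 2 ≤ 4 * α ^ 2 * (1 - ‖w‖ ^ 2) := by
    by_cases hh : ‖h‖ = 0
    · have : 0 ≤ 4 * α ^ 2 * (1 - ‖w‖ ^ 2) := by positivity
      rw [hh]; linarith
    · have hh' : 0 < ‖h‖ := lt_of_le_of_ne (norm_nonneg _) (Ne.symm hh)
      have h3 : ‖h‖ * (‖w‖ ^ K * ‖ker w‖) ≤ ‖D * P K‖ := by
        apply le_of_mul_le_mul_left _ hh'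
        calc ‖h‖ * (‖h‖ * (‖w‖ ^ K * ‖ker w‖)) = ‖h‖ ^ 2 * (‖w‖ ^ K * ‖ker w‖) := by ring
          _ ≤ ‖D * P K‖ * ‖h‖ := h1
          _ = _ := by ring
      have h3' : 0 ≤ ‖h‖ * (‖w‖ ^ K * ‖ker w‖) := by positivity
      have h4 : (‖h‖ * (‖w‖ ^ K * ‖ker w‖)) ^ 2 ≤ 2 * α ^ 2 :=
        (pow_le_pow_left₀ h3' h3 2).trans hK
      have h5 : (‖h‖ * (‖w‖ ^ K * ‖ker w‖)) ^ 2 = ‖h‖ ^ 2 * ‖w‖ ^ (2 * K) / (1 - ‖w‖ ^ 2) := by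
        rw [mul_pow, mul_pow, norm_ker_sq hw]
        ring
      rw [h5, div_le_iff₀ hpos] at h4
      have h6 : ‖h‖ ^ 2 * (1 / 2) ≤ ‖h‖ ^ 2 * ‖w‖ ^ (2 * K) := by gcongr
      linarith
  have h7 := prod_bound Z (fun ζ hζ => (hZ ζ hζ).1)
  have h8 := H.low
  have h9 : 1 / 2 * min 1 (∑ ζ ∈ Z, (1 - ‖ζ‖ ^ 2)) ≤ 4 * α ^ 2 * (1 - ‖w‖ ^ 2) := by linarith
  rcases le_total 1 (∑ ζ ∈ Z, (1 - ‖ζ‖ ^ 2)) with h | h
  · rw [min_eq_left h] at h9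
    linarith
  · rw [min_eq_right h] at h9
    linarith

end Pool.Agent.Helper59.Hardy
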