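import Mathlib
import Pool.Agent.Helper59.Trans

/-! The core inequality: almost eigenvectors of the adjoint. -/

namespace Pool.Agent.Helper59.Hardy

open Complex Set Filter Topology Metric
open scoped ComplexConjugate InnerProductSpace

/-- contractive multipliers -/
def Good (B : ℂ → ℂ) : Prop :=
  ∀ g : H2, ∃ g' : H2, ‖g'‖ ≤ ‖g‖ ∧ ∀ z, ‖z‖ < 1 → ev g' z = B z * ev g z

theorem Good.one : Good fun _ => 1 := fun g => ⟨g, le_rfl, fun z _ => by rw [one_mul]⟩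

theorem Good.mul {A B : ℂ → ℂ} (hA : Good A) (hB : Good B) : Good fun z => A z * B z := by
  intro g
  obtain ⟨g₁, h1, h2⟩ := hB g
  obtain ⟨g₂, h3, h4⟩ := hA g₁
  exact ⟨g₂, h3.trans h1, fun z hz => by rw [h4 z hz, h2 z hz]; ring⟩

theorem Good.b {w : ℂ} (hw : ‖w‖ < 1) : Good (b w) := by
  intro g
  obtain ⟨M, h1, h2, _⟩ := exists_mulB hw
  exact ⟨M g, (h1 g).le, fun z hz => h2 g z hz⟩

theorem Good.prod {ι : Type*} (s : Finset ι) {B : ι → ℂ → ℂ} (hB : ∀ i ∈ s, Good (B i)) :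
    Good fun z => ∏ i ∈ s, B i z := by
  classical
  induction s using Finset.induction_on with
  | empty => simpa using Good.one
  | insert a s ha ih =>
    have h1 := (hB a (Finset.mem_insert_self _ _)).mul (ih fun i hi => hB i (Finset.mem_insert_of_mem hi))
    have h2 : (fun z => ∏ i ∈ insert a s, B i z) = fun z => B a z * ∏ i ∈ s, B i z := by
      ext z; rw [Finset.prod_insert ha]
    rw [h2]; exact h1

section
variable {φ : ℂ → ℂ} {C : H2 →L[ℂ] H2}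

theorem adj_pow_succ (C : H2 →L[ℂ] H2) (j : ℕ) (x : H2) :
    C.adjoint ((C ^ j).adjoint x) = (C ^ (j + 1)).adjoint x := by
  rw [pow_succ]
  change _ = ((C ^ j) ∘L C).adjoint x
  rw [ContinuousLinearMap.adjoint_comp]
  rfl

theorem adj_pow_add (C : H2 →L[ℂ] H2) (n l : ℕ) (x : H2) :
    (C ^ l).adjoint ((C ^ n).adjoint x) = (C ^ (n + l)).adjoint x := by
  rw [pow_add]
  change _ = ((C ^ n) ∘L (C ^ l)).adjoint x
  rw [ContinuousLinearMap.adjoint_comp]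
  rfl

theorem adj_h (hC : IsComp φ C) (hm : ∀ z, ‖z‖ < 1 → ‖φ z‖ < 1) {n : ℕ} {w : ℂ} (hw : ‖w‖ < 1)
    {Z : Finset ℂ} {h : H2} (H : IsH (φ^[n]) w Z h) (l : ℕ) :
    (C ^ (n + l)).adjoint h = ((‖h‖ ^ 2 : ℝ) : ℂ) • ker (φ^[l] w) := by
  rw [← adj_pow_add, H.adj (hC.pow hm n) (iter_lt hm n) hw, map_smul,
    (hC.pow hm l).adj_ker (iter_lt hm l) hw]

/-- the vectors `G_w` -/
noncomputable def Gv (C : H2 →L[ℂ] H2) (lam : ℂ) (J : ℕ) (x : H2) : H2 :=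
  ∑ j ∈ Finset.range (J + 1), ((conj lam)⁻¹) ^ j • (C ^ j).adjoint x

theorem Gv_eq (C : H2 →L[ℂ] H2) {lam : ℂ} (hlam : lam ≠ 0) (J : ℕ) (x : H2) :
    C.adjoint (Gv C lam J x) - conj lam • Gv C lam J x =
      ((conj lam)⁻¹) ^ J • (C ^ (J + 1)).adjoint x - conj lam • x := by
  have hl : conj lam ≠ 0 := by simpa using hlam
  unfold Gv
  induction J with
  | zero =>
    simp only [zero_add, Finset.range_one, Finset.sum_singleton, pow_zero, one_smul, pow_one]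
    have : (1 : H2 →L[ℂ] H2).adjoint x = x := by
      rw [← ContinuousLinearMap.star_eq_adjoint, star_one]; rfl
    rw [this]
  | succ J ih =>
    rw [Finset.sum_range_succ, map_add, smul_add]
    have h1 : C.adjoint (((conj lam)⁻¹) ^ (J + 1) • (C ^ (J + 1)).adjoint x) =
        ((conj lam)⁻¹) ^ (J + 1) • (C ^ (J + 1 + 1)).adjoint x := by
      rw [map_smul, adj_pow_succ]
    have h2 : conj lam • ((conj lam)⁻¹) ^ (J + 1) • (C ^ (J + 1)).adjoint x =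
        ((conj lam)⁻¹) ^ J • (C ^ (J + 1)).adjoint x := by
      rw [smul_smul]
      congr 1
      rw [pow_succ]
      field_simp
    rw [h1, h2]
    have h3 := ih
    rw [sub_eq_iff_eq_add] at h3
    rw [h3]
    abel

/-- pairing of `G_w` with a test function -/
theorem inner_Gv (hC : IsComp φ C) (hm : ∀ z, ‖z‖ < 1 → ‖φ z‖ < 1) {lam : ℂ}
    {n L : ℕ} {w : ℂ} (hw : ‖w‖ < 1) {Z : Finset ℂ} {h : H2} (H : IsH (φ^[n]) w Z h) {f : H2}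
    (h0 : ∀ j < n, ∀ ζ ∈ Z, ev f (φ^[j] ζ) = 0)
    (h1 : ∀ l, 1 ≤ l → l ≤ L → ev f (φ^[l] w) = 0) :
    ⟪Gv C lam (n + L) h, f⟫_ℂ = (lam⁻¹) ^ n * ((‖h‖ ^ 2 : ℝ) : ℂ) * ev f w := by
  unfold Gv
  rw [sum_inner]
  have hterm : ∀ j, ⟪((conj lam)⁻¹) ^ j • (C ^ j).adjoint h, f⟫_ℂ =
      (lam⁻¹) ^ j * ⟪(C ^ j).adjoint h, f⟫_ℂ := by
    intro j
    rw [inner_smul_left]
    congr 1
    simp
  simp_rw [hterm]
  rw [Finset.sum_eq_single n]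
  · have h2 := adj_h hC hm hw H 0
    rw [add_zero] at h2
    rw [h2, inner_smul_left, Function.iterate_zero, id, inner_ker hw]
    simp
    ring
  · intro j hj hjn
    rcases lt_or_gt_of_ne hjn with hlt | hgt
    · rw [ContinuousLinearMap.adjoint_inner_left, H.inner_eq_zero, mul_zero]
      intro ζ hζ
      rw [(hC.pow hm j) f ζ (H.lt ζ hζ)]
      exact h0 j hlt ζ hζ
    · obtain ⟨l, rfl⟩ := Nat.exists_eq_add_of_lt hgt
      have h2 := adj_h hC hm hw H (l + 1)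
      rw [← add_assoc] at h2
      rw [h2, inner_smul_left, inner_ker (iter_lt hm _ w hw), h1 (l + 1) (by omega) (by
        have := Finset.mem_range.1 hj; omega)]
      simp
  · intro h
    exact absurd (Finset.mem_range.2 (by omega)) h

theorem core (hC : IsComp φ C) (hm : ∀ z, ‖z‖ < 1 → ‖φ z‖ < 1) {lam : ℂ} (hlam : lam ≠ 0)
    {n L : ℕ} {S : Finset ℂ} (hS : ∀ w ∈ S, ‖w‖ < 1) {Z : ℂ → Finset ℂ} {h : ℂ → H2}
    (H : ∀ w ∈ S, IsH (φ^[n]) w (Z w) (h w)) (hpos : ∀ w ∈ S, 0 < ‖h w‖)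
    {Dm : ℂ → ℂ} (hDg : Good Dm) (hD0 : ∀ w ∈ S, ∀ j < n, ∀ ζ ∈ Z w, Dm (φ^[j] ζ) = 0)
    (hD1 : ∀ w ∈ S, ∀ l, 1 ≤ l → l ≤ L → Dm (φ^[l] w) = 0) {ε : ℝ} (hε : 0 < ε)
    (hlow : ∀ w ∈ S, ε ≤ ‖h w‖ * ‖ker w‖ * (‖Dm w‖ * ∏ w' ∈ S.erase w, ‖b w' w‖)) (c : ℂ → ℂ) :
    ε * (∑ w ∈ S, ‖c w‖ ^ 2) ≤ ‖lam‖ ^ n *
      ‖∑ w ∈ S, c w • Gv C lam (n + L) (((‖h w‖⁻¹ : ℝ) : ℂ) • h w)‖ * ∑ w ∈ S, ‖c w‖ := by
  classical
  -- the functions `g_w`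
  have hg : ∀ w ∈ S, ∃ g : H2, ‖g‖ ≤ 1 ∧ ∀ z, ‖z‖ < 1 →
      ev g z = (Dm z * ∏ w' ∈ S.erase w, b w' z) * (((‖ker w‖⁻¹ : ℝ) : ℂ) * ev (ker w) z) := by
    intro w hw
    have h1 : Good fun z => Dm z * ∏ w' ∈ S.erase w, b w' z :=
      hDg.mul (Good.prod _ fun w' hw' => Good.b (hS w' (Finset.mem_of_mem_erase hw')))
    obtain ⟨g, hg1, hg2⟩ := h1 (((‖ker w‖⁻¹ : ℝ) : ℂ) • ker w)
    refine ⟨g, ?_, fun z hz => ?_⟩
    · refine hg1.trans ?_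
      rw [norm_smul, Complex.norm_real, Real.norm_of_nonneg (by positivity)]
      rcases eq_or_ne ‖ker w‖ 0 with h0 | h0
      · rw [h0]; simp
      · rw [inv_mul_cancel₀ h0]
    · rw [hg2 z hz, ev_smul hz]
  choose! g hg1 hg2 using hg
  have hkpos : ∀ w ∈ S, 0 < ‖ker w‖ := by
    intro w hw
    have h1 := norm_ker_sq (hS w hw)
    have h2 : 0 < (1 - ‖w‖ ^ 2)⁻¹ := by
      have := hS w hw
      have h3 : 0 < 1 - ‖w‖ ^ 2 := by nlinarith [norm_nonneg w]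
      positivity
    rw [← h1] at h2
    refine lt_of_le_of_ne (norm_nonneg _) (fun h => ?_)
    rw [← h] at h2
    norm_num at h2
  -- value of g_w at w
  have hgw : ∀ w ∈ S, ‖ev (g w) w‖ = ‖ker w‖ * (‖Dm w‖ * ∏ w' ∈ S.erase w, ‖b w' w‖) := by
    intro w hw
    have hkk : ev (ker w) w = ((‖ker w‖ ^ 2 : ℝ) : ℂ) := by
      rw [← inner_ker (hS w hw), inner_self_eq_norm_sq_to_K]; simp
    rw [hg2 w hw w (hS w hw), hkk, norm_mul, norm_mul, norm_mul, norm_prod, Complex.norm_real,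
      Complex.norm_real, Real.norm_of_nonneg (by positivity), Real.norm_of_nonneg (by positivity)]
    have := (hkpos w hw).ne'
    field_simp
  have hgoff : ∀ w ∈ S, ∀ w' ∈ S, w' ≠ w → ev (g w') w = 0 := by
    intro w hw w' hw' hne
    have h1 : ∏ w'' ∈ S.erase w', b w'' w = 0 :=
      Finset.prod_eq_zero (Finset.mem_erase.2 ⟨hne.symm, hw⟩) (b_self w)
    rw [hg2 w' hw' w (hS w hw), h1]
    simp
  have hg00 : ∀ w' ∈ S, ∀ z, ‖z‖ < 1 → Dm z = 0 → ev (g w') z = 0 := by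
    intro w' hw' z hz h0
    rw [hg2 w' hw' z hz, h0]; simp
  -- phases
  set ph : ℂ → ℂ := fun w => conj ((lam⁻¹) ^ n * ev (g w) w) / ‖(lam⁻¹) ^ n * ev (g w) w‖ with hph
  have hph1 : ∀ w, ‖ph w‖ ≤ 1 := by
    intro w
    simp only [hph]
    rw [norm_div, RCLike.norm_conj, Complex.norm_real, norm_norm]
    exact div_self_le_one _
  have hph2 : ∀ w, ph w * ((lam⁻¹) ^ n * ev (g w) w) = ((‖(lam⁻¹) ^ n * ev (g w) w‖ : ℝ) : ℂ) := by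
    intro w
    simp only [hph]
    set y := (lam⁻¹) ^ n * ev (g w) w with hy
    by_cases hy0 : y = 0
    · simp [hy0]
    · rw [div_mul_eq_mul_div, mul_comm (conj y), Complex.mul_conj, Complex.normSq_eq_norm_sq]
      have : (‖y‖ : ℂ) ≠ 0 := by simpa using hy0
      rw [div_eq_iff this]
      push_cast; ring
  set f : H2 := ∑ w ∈ S, (c w * ph w) • g w with hf
  have hfn : ‖f‖ ≤ ∑ w ∈ S, ‖c w‖ := by
    rw [hf]
    refine (norm_sum_le _ _).trans (Finset.sum_le_sum fun w hw => ?_)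
    rw [norm_smul, norm_mul]
    have h1 := hph1 w
    have h2 := hg1 w hw
    have h3 := norm_nonneg (c w)
    calc ‖c w‖ * ‖ph w‖ * ‖g w‖ ≤ ‖c w‖ * 1 * 1 := by gcongr
      _ = ‖c w‖ := by ring
  have hf0 : ∀ z, ‖z‖ < 1 → Dm z = 0 → ev f z = 0 := by
    intro z hz h0
    rw [hf, ev_sum hz]
    apply Finset.sum_eq_zero
    intro w hw
    rw [ev_smul hz, hg00 w hw z hz h0, mul_zero]
  have hfw : ∀ w ∈ S, ev f w = c w * ph w * ev (g w) w := by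
    intro w hw
    rw [hf, ev_sum (hS w hw), Finset.sum_eq_single w]
    · rw [ev_smul (hS w hw)]
    · intro w' hw' hne
      rw [ev_smul (hS w hw), hgoff w hw w' hw' hne, mul_zero]
    · intro h; exact absurd hw h
  -- pairing
  have hlam1 : ‖lam⁻¹‖ ^ n = (‖lam‖ ^ n)⁻¹ := by rw [norm_inv, inv_pow]
  have hlamn : 0 < ‖lam‖ ^ n := by
    have : 0 < ‖lam‖ := norm_pos_iff.2 hlam
    positivity
  have hpair : ⟪∑ w ∈ S, c w • Gv C lam (n + L) (((‖h w‖⁻¹ : ℝ) : ℂ) • h w), f⟫_ℂ =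
      ((∑ w ∈ S, ‖c w‖ ^ 2 * (‖h w‖ * ((‖lam‖ ^ n)⁻¹ * ‖ev (g w) w‖)) : ℝ) : ℂ) := by
    rw [sum_inner, Complex.ofReal_sum]
    apply Finset.sum_congr rfl
    intro w hw
    have hGs : Gv C lam (n + L) (((‖h w‖⁻¹ : ℝ) : ℂ) • h w) =
        ((‖h w‖⁻¹ : ℝ) : ℂ) • Gv C lam (n + L) (h w) := by
      unfold Gv
      rw [Finset.smul_sum]
      apply Finset.sum_congr rfl
      intro j _
      rw [map_smul, smul_comm]
    rw [hGs, inner_smul_left, inner_smul_left,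
      inner_Gv hC hm (hS w hw) (H w hw)
        (fun j hj ζ hζ => hf0 _ (iter_lt hm j ζ ((H w hw).lt ζ hζ)) (hD0 w hw j hj ζ hζ))
        (fun l hl1 hl2 => hf0 _ (iter_lt hm l w (hS w hw)) (hD1 w hw l hl1 hl2)),
      hfw w hw]
    have h1 : (lam⁻¹) ^ n * ((‖h w‖ ^ 2 : ℝ) : ℂ) * (c w * ph w * ev (g w) w) =
        ((‖h w‖ ^ 2 : ℝ) : ℂ) * c w * (ph w * ((lam⁻¹) ^ n * ev (g w) w)) := by ring
    rw [h1, hph2 w, norm_mul, norm_pow, hlam1, Complex.conj_ofReal]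
    have h2 : conj (c w) * c w = ((‖c w‖ ^ 2 : ℝ) : ℂ) := by
      rw [mul_comm, Complex.mul_conj, Complex.normSq_eq_norm_sq]
    have h3 : ((‖h w‖⁻¹ : ℝ) : ℂ) * ((‖h w‖ ^ 2 : ℝ) : ℂ) = ((‖h w‖ : ℝ) : ℂ) := by
      rw [← Complex.ofReal_mul]
      congr 1
      have := (hpos w hw).ne'
      field_simp
    calc conj (c w) * (((‖h w‖⁻¹ : ℝ) : ℂ) * (((‖h w‖ ^ 2 : ℝ) : ℂ) * c w *
          (((‖lam‖ ^ n)⁻¹ * ‖ev (g w) w‖ : ℝ) : ℂ)))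
        = (conj (c w) * c w) * (((‖h w‖⁻¹ : ℝ) : ℂ) * ((‖h w‖ ^ 2 : ℝ) : ℂ)) *
          (((‖lam‖ ^ n)⁻¹ * ‖ev (g w) w‖ : ℝ) : ℂ) := by ring
      _ = _ := by rw [h2, h3]; push_cast; ring
  have hCS := norm_inner_le_norm (𝕜 := ℂ) (∑ w ∈ S, c w • Gv C lam (n + L) (((‖h w‖⁻¹ : ℝ) : ℂ) • h w)) f
  rw [hpair, Complex.norm_real, Real.norm_of_nonneg (Finset.sum_nonneg fun w hw => by positivity)] at hCS
  have hlow2 : (‖lam‖ ^ n)⁻¹ * (ε * ∑ w ∈ S, ‖c w‖ ^ 2) ≤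
      ∑ w ∈ S, ‖c w‖ ^ 2 * (‖h w‖ * ((‖lam‖ ^ n)⁻¹ * ‖ev (g w) w‖)) := by
    rw [Finset.mul_sum, Finset.mul_sum]
    apply Finset.sum_le_sum
    intro w hw
    have h1 := hlow w hw
    rw [hgw w hw]
    calc (‖lam‖ ^ n)⁻¹ * (ε * ‖c w‖ ^ 2) = (‖lam‖ ^ n)⁻¹ * ‖c w‖ ^ 2 * ε := by ring
      _ ≤ (‖lam‖ ^ n)⁻¹ * ‖c w‖ ^ 2 * (‖h w‖ * ‖ker w‖ * (‖Dm w‖ * ∏ w' ∈ S.erase w, ‖b w' w‖)) := by
          gcongr
      _ = _ := by ring
  have h4 : (‖lam‖ ^ n)⁻¹ * (ε * ∑ w ∈ S, ‖c w‖ ^ 2) ≤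
      ‖∑ w ∈ S, c w • Gv C lam (n + L) (((‖h w‖⁻¹ : ℝ) : ℂ) • h w)‖ * ∑ w ∈ S, ‖c w‖ :=
    hlow2.trans (hCS.trans (by gcongr))
  rw [inv_mul_le_iff₀ hlamn] at h4
  rw [mul_assoc]
  exact h4

end

end Pool.Agent.Helper59.Hardy
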