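import Mathlib
import Pool.Agent.Helper59.Schw
import Pool.Agent.Helper59.Core

/-! Lower bounds for Blaschke products along orbits. -/

namespace Pool.Agent.Helper59.Hardy

open Complex Set Filter Topology Metric
open scoped ComplexConjugate

/-- growth hypotheses on the symbol -/
structure Growth (φ : ℂ → ℂ) (k θ : ℝ) : Prop where
  diff : DifferentiableOn ℂ φ (ball 0 1)
  maps : ∀ z, ‖z‖ < 1 → ‖φ z‖ < 1
  zero : φ 0 = 0
  hk : 1 < k
  hθ0 : 0 < θ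
  hθ1 : θ < 1
  le : ∀ z, ‖z‖ < 1 → ‖φ z‖ ≤ ‖z‖
  big : ∀ z, ‖z‖ < 1 → 1 / 2 ≤ ‖z‖ → k ^ 2 * (1 - ‖z‖) ≤ 1 - ‖φ z‖
  small : ∀ z, ‖z‖ ≤ 1 / 2 → ‖φ z‖ ≤ θ * ‖z‖

theorem exists_growth {φ : ℂ → ℂ} (hφ : DifferentiableOn ℂ φ (ball 0 1))
    (hm : ∀ z, ‖z‖ < 1 → ‖φ z‖ < 1) (h0 : φ 0 = 0) (ha : ‖deriv φ 0‖ < 1) :
    ∃ k θ, Growth φ k θ := by
  obtain ⟨κ, θ, h1, h2, h3, h4, h5, h6⟩ := growth' hφ hm h0 ha
  refine ⟨Real.sqrt κ, θ, hφ, hm, h0, ?_, h2, h3, h4, ?_, h6⟩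
  · rw [Real.lt_sqrt (by norm_num)]; simpa using h1
  · intro z hz hz2
    rw [Real.sq_sqrt (by linarith)]
    exact h5 z hz hz2

section
variable {φ : ℂ → ℂ} {k θ : ℝ} (G : Growth φ k θ)
include G

theorem Growth.iter_lt (l : ℕ) : ∀ z, ‖z‖ < 1 → ‖φ^[l] z‖ < 1 := Hardy.iter_lt G.maps l

theorem Growth.iter_diff (l : ℕ) : DifferentiableOn ℂ (φ^[l]) (ball 0 1) := by
  induction l with
  | zero => simpa using differentiableOn_id
  | succ l ih =>
    rw [Function.iterate_succ']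
    exact G.diff.comp ih (fun z hz => by simpa using G.iter_lt l z (by simpa using hz))

theorem Growth.iter_zero (l : ℕ) : φ^[l] 0 = 0 := by
  induction l with
  | zero => rfl
  | succ l ih => rw [Function.iterate_succ_apply', ih, G.zero]

theorem Growth.iter_big (l : ℕ) {z : ℂ} (hz : ‖z‖ < 1) :
    min (1 / 2) ((k ^ 2) ^ l * (1 - ‖z‖)) ≤ 1 - ‖φ^[l] z‖ := by
  have hk := G.hk
  have hk2 : 1 ≤ k ^ 2 := one_le_pow₀ hk.le
  induction l with
  | zero => simp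
  | succ l ih =>
    rw [Function.iterate_succ_apply']
    set y := φ^[l] z with hy
    have hy1 : ‖y‖ < 1 := G.iter_lt l z hz
    rcases le_total (1 / 2) ‖y‖ with h | h
    · have h1 := G.big y hy1 h
      have h0 : 0 ≤ 1 - ‖y‖ := by linarith
      rcases le_total (1 / 2) ((k ^ 2) ^ l * (1 - ‖z‖)) with h2 | h2
      · rw [min_eq_left h2] at ih
        refine (min_le_left _ _).trans ?_
        nlinarith
      · rw [min_eq_right h2] at ih
        refine (min_le_right _ _).trans ?_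
        calc (k ^ 2) ^ (l + 1) * (1 - ‖z‖) = k ^ 2 * ((k ^ 2) ^ l * (1 - ‖z‖)) := by ring
          _ ≤ k ^ 2 * (1 - ‖y‖) := by gcongr
          _ ≤ _ := h1
    · refine (min_le_left _ _).trans ?_
      have := G.le y hy1
      linarith

theorem Growth.iter_small {l : ℕ} {z : ℂ} (hz : ‖z‖ < 1) (h : 1 / 2 ≤ (k ^ 2) ^ l * (1 - ‖z‖)) (j : ℕ) :
    ‖φ^[l + j] z‖ ≤ θ ^ j * (1 / 2) := by
  have hθ0 := G.hθ0
  have hθ1 := G.hθ1
  induction j with
  | zero =>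
    have h1 := G.iter_big l hz
    rw [min_eq_left h] at h1
    simp only [add_zero, pow_zero, one_mul]
    linarith
  | succ j ih =>
    rw [← add_assoc, Function.iterate_succ_apply']
    have h1 : ‖φ^[l + j] z‖ ≤ 1 / 2 := by
      refine ih.trans ?_
      have : θ ^ j ≤ 1 := pow_le_one₀ hθ0.le hθ1.le
      linarith
    refine (G.small _ h1).trans ?_
    calc θ * ‖φ^[l + j] z‖ ≤ θ * (θ ^ j * (1 / 2)) := by gcongr
      _ = _ := by ring

omit G in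
theorem b_lower {u z : ℂ} (hu : ‖u‖ < 1) (hz : ‖z‖ < 1) {q : ℝ} (hq : 1 ≤ q)
    (h : q * (1 - ‖u‖) ≤ 1 - ‖z‖) : 1 - 2 / (q + 1) ≤ ‖b u z‖ := by
  have h1 := norm_b_ge hu hz
  have hx : 0 < 1 - ‖u‖ := by linarith
  have hX : 0 < 1 - ‖z‖ := by linarith
  have h2 : (1 - ‖z‖) - (1 - ‖u‖) ≤ ‖b u z‖ * ((1 - ‖z‖) + (1 - ‖u‖)) := by
    calc (1 - ‖z‖) - (1 - ‖u‖) = -(‖z‖ - ‖u‖) := by ring
      _ ≤ |‖z‖ - ‖u‖| := neg_le_abs _
      _ ≤ ‖b u z‖ * (1 - ‖u‖ * ‖z‖) := h1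
      _ ≤ _ := by
          apply mul_le_mul_of_nonneg_left _ (norm_nonneg _)
          nlinarith
  have h3 : 1 - 2 / (q + 1) = (q - 1) / (q + 1) := by
    field_simp; ring
  rw [h3, div_le_iff₀ (by linarith)]
  set B := ‖b u z‖ with hB
  set X := 1 - ‖z‖
  set x := 1 - ‖u‖
  have hB1 : B < 1 := norm_b_lt hu hz
  -- X - x ≤ B (X + x), q x ≤ X
  have h4 : (1 - B) * X ≤ (1 + B) * x := by linarith
  have h5 : (1 - B) * (q * x) ≤ (1 + B) * x := by
    refine le_trans ?_ h4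
    apply mul_le_mul_of_nonneg_left h; linarith
  have h6 : (1 - B) * q ≤ 1 + B := by
    apply le_of_mul_le_mul_right _ hx
    linarith
  linarith

theorem Growth.factor {u v : ℂ} (hu : ‖u‖ < 1) (hv : ‖v‖ < 1) (huv : 1 - ‖u‖ ≤ k * (1 - ‖v‖))
    (hu2 : 1 - ‖u‖ ≤ 1 / 2) (i : ℕ) :
    1 - (2 / (k ^ (2 * i + 1) + 1) + 4 * (1 - ‖u‖)) ≤ ‖b u (φ^[i + 1] v)‖ := by
  have hk := G.hk
  have hk0 : 0 < k := by linarith
  have hx : 0 < 1 - ‖u‖ := by linarith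
  have hz := G.iter_lt (i + 1) v hv
  have h1 := G.iter_big (i + 1) hv
  have hkp : 1 ≤ k ^ (2 * i + 1) := one_le_pow₀ hk.le
  rcases le_total (1 / 2) ((k ^ 2) ^ (i + 1) * (1 - ‖v‖)) with h2 | h2
  · rw [min_eq_left h2] at h1
    have h3 := b_lower hu hz (q := 1 / (2 * (1 - ‖u‖))) (by
      rw [le_div_iff₀ (by linarith)]; linarith) (by
      have : 1 / (2 * (1 - ‖u‖)) * (1 - ‖u‖) = 1 / 2 := by field_simp
      rw [this]; exact h1)
    refine le_trans ?_ h3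
    have h4 : 2 / (1 / (2 * (1 - ‖u‖)) + 1) ≤ 4 * (1 - ‖u‖) := by
      rw [div_le_iff₀ (by positivity)]
      have : 4 * (1 - ‖u‖) * (1 / (2 * (1 - ‖u‖)) + 1) = 2 + 4 * (1 - ‖u‖) := by
        field_simp
        ring
      rw [this]; linarith
    have h5 : 0 ≤ 2 / (k ^ (2 * i + 1) + 1) := by positivity
    linarith
  · rw [min_eq_right h2] at h1
    have h3 := b_lower hu hz (q := k ^ (2 * i + 1)) hkp (by
      refine le_trans ?_ h1
      calc k ^ (2 * i + 1) * (1 - ‖u‖) ≤ k ^ (2 * i + 1) * (k * (1 - ‖v‖)) := by gcongr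
        _ = (k ^ 2) ^ (i + 1) * (1 - ‖v‖) := by rw [← pow_mul]; ring)
    refine le_trans ?_ h3
    linarith

omit G in
theorem exp_lower {y Y : ℝ} (hy : 0 ≤ y) (hyY : y ≤ Y) (hY : Y < 1) :
    Real.exp (-(y / (1 - Y))) ≤ 1 - y := by
  have h1 : 0 < 1 - y := by linarith
  have h2 : (1 - y)⁻¹ ≤ Real.exp (y / (1 - Y)) := by
    calc (1 - y)⁻¹ = y / (1 - y) + 1 := by field_simp; ring
      _ ≤ y / (1 - Y) + 1 := by
          have : y / (1 - y) ≤ y / (1 - Y) := div_le_div_of_nonneg_left hy (by linarith) (by linarith)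
          linarith
      _ ≤ _ := Real.add_one_le_exp _
  rw [Real.exp_neg]
  exact inv_le_of_inv_le₀ h1 h2

theorem Growth.prod_lower {u v : ℂ} (hu : ‖u‖ < 1) (hv : ‖v‖ < 1) (huv : 1 - ‖u‖ ≤ k * (1 - ‖v‖))
    (hu2 : 1 - ‖u‖ ≤ (k - 1) / (16 * (k + 1))) (L : ℕ) :
    Real.exp (-((2 / (k - 1) + 4 * (1 - ‖u‖) * L) / (3 * (k - 1) / (4 * (k + 1))))) ≤
      ∏ i ∈ Finset.range L, ‖b u (φ^[i + 1] v)‖ := by
  have hk := G.hk
  have hk0 : 0 < k := by linarith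
  have hk1 : 0 < k - 1 := by linarith
  have hx : 0 < 1 - ‖u‖ := by linarith
  have hu3 : 1 - ‖u‖ ≤ 1 / 2 := by
    refine hu2.trans ?_
    rw [div_le_div_iff₀ (by positivity) (by norm_num)]
    linarith
  set Y : ℝ := 2 / (k + 1) + (k - 1) / (4 * (k + 1)) with hY
  have hY1 : 1 - Y = 3 * (k - 1) / (4 * (k + 1)) := by
    rw [hY]; field_simp; ring
  have hYlt : Y < 1 := by
    have : 0 < 3 * (k - 1) / (4 * (k + 1)) := by positivity
    linarith
  set y : ℕ → ℝ := fun i => 2 / (k ^ (2 * i + 1) + 1) + 4 * (1 - ‖u‖) with hy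
  have hy0 : ∀ i, 0 ≤ y i := fun i => by simp only [hy]; positivity
  have hyY : ∀ i, y i ≤ Y := by
    intro i
    simp only [hy, hY]
    have h1 : k ≤ k ^ (2 * i + 1) := le_self_pow₀ hk.le (by omega)
    have h2 : 2 / (k ^ (2 * i + 1) + 1) ≤ 2 / (k + 1) := by gcongr
    have h3 : 4 * (1 - ‖u‖) ≤ (k - 1) / (4 * (k + 1)) := by
      calc 4 * (1 - ‖u‖) ≤ 4 * ((k - 1) / (16 * (k + 1))) := by gcongr
        _ = _ := by field_simp; ring
    linarith
  have hsum : ∑ i ∈ Finset.range L, y i ≤ 2 / (k - 1) + 4 * (1 - ‖u‖) * L := by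
    simp only [hy]
    rw [Finset.sum_add_distrib, Finset.sum_const, Finset.card_range, nsmul_eq_mul]
    have h1 : ∑ i ∈ Finset.range L, 2 / (k ^ (2 * i + 1) + 1) ≤ 2 / (k - 1) := by
      have h2 : ∀ i : ℕ, 2 / (k ^ (2 * i + 1) + 1) ≤ 2 * k⁻¹ * (k⁻¹) ^ i := by
        intro i
        have h3 : k ^ (i + 1) ≤ k ^ (2 * i + 1) + 1 := by
          have : k ^ (i + 1) ≤ k ^ (2 * i + 1) := pow_le_pow_right₀ hk.le (by omega)
          linarith
        calc 2 / (k ^ (2 * i + 1) + 1) ≤ 2 / k ^ (i + 1) := by gcongr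
          _ = _ := by rw [inv_pow, pow_succ]; field_simp
      have hki : k⁻¹ < 1 := inv_lt_one_of_one_lt₀ hk
      calc ∑ i ∈ Finset.range L, 2 / (k ^ (2 * i + 1) + 1)
          ≤ ∑ i ∈ Finset.range L, 2 * k⁻¹ * (k⁻¹) ^ i := Finset.sum_le_sum fun i _ => h2 i
        _ = 2 * k⁻¹ * ∑ i ∈ Finset.range L, (k⁻¹) ^ i := by rw [Finset.mul_sum]
        _ ≤ 2 * k⁻¹ * (1 - k⁻¹)⁻¹ := by
            gcongr
            rw [← tsum_geometric_of_lt_one (by positivity) hki]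
            exact (summable_geometric_of_lt_one (by positivity) hki).sum_le_tsum _
              (fun i _ => by positivity)
        _ = 2 / (k - 1) := by
            field_simp
    linarith
  calc Real.exp (-((2 / (k - 1) + 4 * (1 - ‖u‖) * L) / (3 * (k - 1) / (4 * (k + 1)))))
      ≤ Real.exp (-((∑ i ∈ Finset.range L, y i) / (1 - Y))) := by
        rw [hY1]
        apply Real.exp_le_exp.2
        apply neg_le_neg
        gcongr
    _ = ∏ i ∈ Finset.range L, Real.exp (-(y i / (1 - Y))) := by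
        rw [← Real.exp_sum, Finset.sum_neg_distrib, Finset.sum_div]
    _ ≤ ∏ i ∈ Finset.range L, ‖b u (φ^[i + 1] v)‖ := by
        apply Finset.prod_le_prod
        · intro i _; positivity
        · intro i _
          exact (exp_lower (hy0 i) (hyY i) hYlt).trans (G.factor hu hv huv hu3 i)

end

end Pool.Agent.Helper59.Hardy
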