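import Mathlib
import Pool.Agent.Helper59.PolarAvg
import Pool.Agent.Helper59.H2Comp

/-! Littlewood-Paley identity with weight `1 - |z|²`. -/

namespace Pool.Agent.Helper59.Hardy

open Complex Set Filter Topology Metric MeasureTheory
open scoped ENNReal

theorem integral_weight (n : ℕ) :
    ∫ r in (0:ℝ)..1, (r ^ (2 * n + 1) - r ^ (2 * n + 3)) = 1 / (2 * (n + 1) * (n + 2)) := by
  rw [intervalIntegral.integral_sub ((by fun_prop : Continuous fun r : ℝ => r ^ (2 * n + 1)).intervalIntegrable _ _)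
    ((by fun_prop : Continuous fun r : ℝ => r ^ (2 * n + 3)).intervalIntegrable _ _),
    integral_pow, integral_pow]
  push_cast
  have h1 : (n : ℝ) + 1 ≠ 0 := by positivity
  have h2 : (n : ℝ) + 2 ≠ 0 := by positivity
  have h3 : (2 * (n : ℝ) + 1 + 1) = 2 * (n + 1) := by ring
  have h4 : (2 * (n : ℝ) + 3 + 1) = 2 * (n + 2) := by ring
  rw [h3, h4]
  simp
  field_simp
  ring

theorem lp_identity {F : ℂ → ℂ} {c : ℕ → ℂ} (hF : ContinuousOn F (ball 0 1))
    (hs : ∀ r : ℝ, 0 ≤ r → r < 1 → Summable fun n => ‖c n‖ * r ^ n)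
    (hFc : ∀ z, ‖z‖ < 1 → F z = ∑' n, c n * z ^ n) :
    ∫⁻ z in ball (0 : ℂ) 1, ENNReal.ofReal (‖F z‖ ^ 2 * (1 - ‖z‖ ^ 2)) =
      ∑' n : ℕ, ENNReal.ofReal (Real.pi * ‖c n‖ ^ 2 / ((n + 1) * (n + 2))) := by
  rw [polar_avg]
  · have h1 : ∀ r ∈ Ioo (0:ℝ) 1,
        ENNReal.ofReal (2 * Real.pi * r * Real.circleAverage (fun z => ‖F z‖ ^ 2 * (1 - ‖z‖ ^ 2)) 0 r)
        = ∑' n : ℕ, ENNReal.ofReal (2 * Real.pi * ‖c n‖ ^ 2 * (r ^ (2 * n + 1) - r ^ (2 * n + 3))) := by
      intro r hr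
      have h2 : Real.circleAverage (fun z => ‖F z‖ ^ 2 * (1 - ‖z‖ ^ 2)) 0 r =
          (1 - r ^ 2) * ∑' n, ‖c n‖ ^ 2 * r ^ (2 * n) := by
        rw [← circleAverage_norm_sq_tsum hr.1.le (hs r hr.1.le hr.2), ← smul_eq_mul,
          ← Real.circleAverage_fun_smul]
        apply Real.circleAverage_congr_sphere
        intro z hz
        have hz' : ‖z‖ = r := by simpa [abs_of_pos hr.1] using hz
        simp only [smul_eq_mul]
        rw [hFc z (by rw [hz']; exact hr.2), hz']
        ring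
      have hsum : Summable fun n => ‖c n‖ ^ 2 * r ^ (2 * n) := by
        have h3 := hs r hr.1.le hr.2
        have h0 : ∀ᶠ n in atTop, ‖c n‖ * r ^ n < 1 :=
          (tendsto_order.1 h3.tendsto_atTop_zero).2 1 one_pos
        refine Summable.of_norm_bounded_eventually_nat h3 ?_
        filter_upwards [h0] with n hn
        have h5 : 0 ≤ ‖c n‖ * r ^ n := mul_nonneg (norm_nonneg _) (pow_nonneg hr.1.le _)
        have h6 : ‖c n‖ ^ 2 * r ^ (2 * n) = (‖c n‖ * r ^ n) ^ 2 := by ring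
        rw [h6, Real.norm_of_nonneg (by positivity)]
        nlinarith
      rw [h2, ← ENNReal.ofReal_tsum_of_nonneg]
      · congr 1
        rw [← mul_assoc, ← tsum_mul_left]
        apply tsum_congr
        intro n
        ring
      · intro n
        have : r ^ (2 * n + 3) ≤ r ^ (2 * n + 1) :=
          pow_le_pow_of_le_one hr.1.le hr.2.le (by omega)
        have h6 := sub_nonneg.2 this
        positivity
      · have := hsum.mul_left (2 * Real.pi * r * (1 - r ^ 2))
        refine this.congr fun n => ?_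
        ring
    rw [setLIntegral_congr_fun measurableSet_Ioo h1, lintegral_tsum]
    · apply tsum_congr
      intro n
      rw [← ofReal_integral_eq_lintegral_ofReal]
      · rw [← integral_Ioc_eq_integral_Ioo, ← intervalIntegral.integral_of_le zero_le_one,
          intervalIntegral.integral_const_mul, integral_weight]
        congr 1
        have h1 : (n : ℝ) + 1 ≠ 0 := by positivity
        have h2 : (n : ℝ) + 2 ≠ 0 := by positivity
        field_simp
      · exact (Continuous.integrableOn_Icc (by fun_prop)).mono_set Ioo_subset_Icc_self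
      · rw [EventuallyLE, ae_restrict_iff' measurableSet_Ioo]
        apply Eventually.of_forall
        intro r hr
        have : r ^ (2 * n + 3) ≤ r ^ (2 * n + 1) :=
          pow_le_pow_of_le_one hr.1.le hr.2.le (by omega)
        have h6 := sub_nonneg.2 this
        simp only [Pi.zero_apply]
        positivity
    · intro n
      apply Measurable.aemeasurable
      fun_prop
  · apply ContinuousOn.mul
    · exact (hF.norm).pow 2
    · fun_prop
  · intro z hz
    have hz' : ‖z‖ < 1 := by simpa using hz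
    have : 0 ≤ 1 - ‖z‖ ^ 2 := by nlinarith [norm_nonneg z]
    positivity

theorem summable_deriv_coeff (f : H2) {r : ℝ} (hr0 : 0 ≤ r) (hr : r < 1) :
    Summable fun n : ℕ => ‖((n : ℂ) + 1) * f (n + 1)‖ * r ^ n := by
  have h1 : Summable fun n : ℕ => ((n : ℝ) + 1) * r ^ n := by
    have h2 : Summable fun n : ℕ => (n : ℝ) ^ 1 * r ^ n :=
      summable_pow_mul_geometric_of_norm_lt_one 1 (by rwa [Real.norm_of_nonneg hr0])
    have h3 : Summable fun n : ℕ => r ^ n := summable_geometric_of_lt_one hr0 hr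
    refine (h2.add h3).congr fun n => ?_
    rw [pow_one]; ring
  refine Summable.of_nonneg_of_le (fun n => by positivity) (fun n => ?_) (h1.mul_left ‖f‖)
  rw [norm_mul]
  have h4 : ‖(n : ℂ) + 1‖ = (n : ℝ) + 1 := by
    have : ((n : ℂ) + 1) = ((n + 1 : ℕ) : ℂ) := by push_cast; ring
    rw [this, Complex.norm_natCast]; push_cast; ring
  rw [h4]
  have h5 := coeff_le f (n + 1)
  have h6 : 0 ≤ r ^ n := pow_nonneg hr0 n
  calc ((n : ℝ) + 1) * ‖f (n + 1)‖ * r ^ n ≤ ((n : ℝ) + 1) * ‖f‖ * r ^ n := by gcongr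
    _ = ‖f‖ * (((n : ℝ) + 1) * r ^ n) := by ring

theorem deriv_ev (f : H2) {z : ℂ} (hz : ‖z‖ < 1) :
    deriv (ev f) z = ∑' n : ℕ, ((n : ℂ) + 1) * f (n + 1) * z ^ n := by
  obtain ⟨r, hr1, hr2⟩ := exists_between hz
  have h0 : 0 ≤ r := (norm_nonneg z).trans hr1.le
  have h := hasSum_deriv_of_summable_norm (F := fun n z => f n * z ^ n)
    (U := Metric.ball (0 : ℂ) r) (summable_norm_ev f h0 hr2)
    (fun n => by fun_prop) Metric.isOpen_ball (by
      intro n w hw
      rw [norm_mul, norm_pow]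
      have : ‖w‖ < r := by simpa using hw
      gcongr) (z := z) (by simpa using hr1)
  have h1 : deriv (ev f) z = deriv (fun w => ∑' n, f n * w ^ n) z := rfl
  rw [h1, ← h.tsum_eq, h.summable.tsum_eq_zero_add]
  have h2 : deriv (fun w : ℂ => f 0 * w ^ 0) z = 0 := by simp
  rw [h2, zero_add]
  apply tsum_congr
  intro n
  rw [deriv_const_mul _ (by fun_prop), deriv_pow_field, Nat.add_sub_cancel]
  push_cast
  ring

theorem continuousOn_deriv_ev (f : H2) : ContinuousOn (deriv (ev f)) (ball 0 1) :=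
  ((differentiableOn_ev f).deriv isOpen_ball).continuousOn

theorem lp_eq (f : H2) :
    ∫⁻ z in ball (0 : ℂ) 1, ENNReal.ofReal (‖deriv (ev f) z‖ ^ 2 * (1 - ‖z‖ ^ 2)) =
      ∑' n : ℕ, ENNReal.ofReal (Real.pi * ‖f (n + 1)‖ ^ 2 * ((n + 1) / (n + 2))) := by
  rw [lp_identity (c := fun n => ((n : ℂ) + 1) * f (n + 1)) (continuousOn_deriv_ev f)
    (fun r hr0 hr => summable_deriv_coeff f hr0 hr) (fun z hz => deriv_ev f hz)]
  apply tsum_congr
  intro n
  congr 1
  rw [norm_mul]
  have h4 : ‖(n : ℂ) + 1‖ = (n : ℝ) + 1 := by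
    have : ((n : ℂ) + 1) = ((n + 1 : ℕ) : ℂ) := by push_cast; ring
    rw [this, Complex.norm_natCast]; push_cast; ring
  rw [h4]
  have h1 : (n : ℝ) + 1 ≠ 0 := by positivity
  have h2 : (n : ℝ) + 2 ≠ 0 := by positivity
  field_simp

theorem lp_upper (f : H2) :
    ∫⁻ z in ball (0 : ℂ) 1, ENNReal.ofReal (‖deriv (ev f) z‖ ^ 2 * (1 - ‖z‖ ^ 2)) ≤
      ENNReal.ofReal (Real.pi * ‖f‖ ^ 2) := by
  rw [lp_eq, norm_sq, (summable_sq f).tsum_eq_zero_add]
  have hs : Summable fun n => ‖f (n + 1)‖ ^ 2 := (summable_nat_add_iff 1).2 (summable_sq f)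
  calc _ ≤ ∑' n : ℕ, ENNReal.ofReal (Real.pi * ‖f (n + 1)‖ ^ 2) := by
        apply ENNReal.tsum_le_tsum
        intro n
        apply ENNReal.ofReal_le_ofReal
        have : ((n : ℝ) + 1) / (n + 2) ≤ 1 := by
          rw [div_le_one (by positivity)]; linarith
        have h2 : 0 ≤ Real.pi * ‖f (n + 1)‖ ^ 2 := by positivity
        nlinarith
    _ = ENNReal.ofReal (∑' n : ℕ, Real.pi * ‖f (n + 1)‖ ^ 2) := by
        rw [ENNReal.ofReal_tsum_of_nonneg (fun n => by positivity) (hs.mul_left _)]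
    _ ≤ _ := by
        apply ENNReal.ofReal_le_ofReal
        rw [tsum_mul_left]
        have : 0 ≤ ‖f 0‖ ^ 2 := by positivity
        have := Real.pi_pos
        nlinarith

theorem lp_lower (f : H2) :
    ENNReal.ofReal (Real.pi / 2 * (‖f‖ ^ 2 - ‖f 0‖ ^ 2)) ≤
    ∫⁻ z in ball (0 : ℂ) 1, ENNReal.ofReal (‖deriv (ev f) z‖ ^ 2 * (1 - ‖z‖ ^ 2)) := by
  rw [lp_eq, norm_sq, (summable_sq f).tsum_eq_zero_add, add_sub_cancel_left]
  have hs : Summable fun n => ‖f (n + 1)‖ ^ 2 := (summable_nat_add_iff 1).2 (summable_sq f)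
  rw [← tsum_mul_left, ENNReal.ofReal_tsum_of_nonneg (fun n => by positivity) (hs.mul_left _)]
  apply ENNReal.tsum_le_tsum
  intro n
  apply ENNReal.ofReal_le_ofReal
  have h1 : 1 / 2 ≤ ((n : ℝ) + 1) / (n + 2) := by
    rw [div_le_div_iff₀ (by norm_num) (by positivity)]; nlinarith
  have h2 : 0 ≤ Real.pi * ‖f (n + 1)‖ ^ 2 := by positivity
  nlinarith

end Pool.Agent.Helper59.Hardy
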