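import Mathlib
import Pool.Agent.Helper59.PolarAvg

/-! Sub-mean value property of `|h|²` on discs. -/

namespace Pool.Agent.Helper59.Hardy

open Complex Set Filter Topology Metric MeasureTheory
open scoped ENNReal

theorem circleAverage_ge {h : ℂ → ℂ} {w : ℂ} {r : ℝ} (hr : 0 ≤ r)
    (hd : DifferentiableOn ℂ h (closedBall w r)) :
    ‖h w‖ ^ 2 ≤ Real.circleAverage (fun z => ‖h z‖ ^ 2) w r := by
  have h1 : DiffContOnCl ℂ (fun z => h z ^ 2) (ball w |r|) := by
    rw [abs_of_nonneg hr]
    apply DifferentiableOn.diffContOnCl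
    exact (hd.mono closure_ball_subset_closedBall).pow 2
  have h2 := h1.circleAverage
  have h3 : ‖Real.circleAverage (fun z => h z ^ 2) w r‖ ≤
      Real.circleAverage (fun z => ‖h z‖ ^ 2) w r := by
    unfold Real.circleAverage
    rw [norm_smul, smul_eq_mul, Real.norm_of_nonneg (by positivity)]
    apply mul_le_mul_of_nonneg_left _ (by positivity)
    refine (intervalIntegral.norm_integral_le_integral_norm (by positivity)).trans_eq ?_
    apply intervalIntegral.integral_congr
    intro θ _
    simp only [norm_pow]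
  rw [h2, norm_pow] at h3
  exact h3

theorem submean {h : ℂ → ℂ} {w : ℂ} {R : ℝ} (hR : 0 < R)
    (hd : DifferentiableOn ℂ h (ball w R)) :
    ENNReal.ofReal (‖h w‖ ^ 2) * ENNReal.ofReal (Real.pi * R ^ 2) ≤
      ∫⁻ z in ball w R, ENNReal.ofReal (‖h z‖ ^ 2) := by
  rw [polar_avg (G := fun z => ‖h z‖ ^ 2) ((hd.continuousOn.norm).pow 2)
    (fun z _ => by positivity)]
  have h1 : ∫⁻ r in Ioo 0 R, ENNReal.ofReal (2 * Real.pi * r * ‖h w‖ ^ 2) =
      ENNReal.ofReal (‖h w‖ ^ 2) * ENNReal.ofReal (Real.pi * R ^ 2) := by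
    rw [← ofReal_integral_eq_lintegral_ofReal]
    · rw [← integral_Ioc_eq_integral_Ioo, ← intervalIntegral.integral_of_le hR.le,
        ← ENNReal.ofReal_mul (by positivity)]
      congr 1
      have : (fun r : ℝ => 2 * Real.pi * r * ‖h w‖ ^ 2) = fun r => (2 * Real.pi * ‖h w‖ ^ 2) * r := by
        ext r; ring
      rw [this, intervalIntegral.integral_const_mul, integral_id]
      ring
    · exact (Continuous.integrableOn_Icc (by fun_prop)).mono_set Ioo_subset_Icc_self
    · rw [EventuallyLE, ae_restrict_iff' measurableSet_Ioo]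
      apply Eventually.of_forall
      intro r hr
      have := hr.1
      simp only [Pi.zero_apply]
      positivity
  rw [← h1]
  apply setLIntegral_mono' measurableSet_Ioo
  intro r hr
  apply ENNReal.ofReal_le_ofReal
  have h2 := circleAverage_ge hr.1.le (hd.mono (closedBall_subset_ball hr.2))
  have h3 : 0 ≤ 2 * Real.pi * r := by have := hr.1; positivity
  exact mul_le_mul_of_nonneg_left h2 h3

end Pool.Agent.Helper59.Hardy
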