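import Mathlib
import Pool.Agent.Helper59.SubMean
import Pool.Agent.Helper59.Schw

/-! Thin subsets of the disc carry little Dirichlet mass. -/

namespace Pool.Agent.Helper59.Hardy

open Complex Set Filter Topology Metric MeasureTheory
open scoped ENNReal ComplexConjugate

theorem sep_or_cover {s : ℝ} (hs : 0 < s) (G : Set ℂ) (m : ℕ) :
    (∃ S : Finset ℂ, (∀ w ∈ S, w ∈ G) ∧ S.card = m ∧ ∀ w ∈ S, ∀ z ∈ S, w ≠ z → s ≤ ‖b w z‖) ∨
    (∃ S : Finset ℂ, (∀ w ∈ S, w ∈ G) ∧ S.card < m ∧ ∀ z ∈ G, ∃ w ∈ S, ‖b w z‖ < s) := by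
  classical
  induction m with
  | zero => exact Or.inl ⟨∅, by simp, by simp, by simp⟩
  | succ m ih =>
    rcases ih with ⟨S, h1, h2, h3⟩ | ⟨S, h1, h2, h3⟩
    · by_cases hcov : ∀ z ∈ G, ∃ w ∈ S, ‖b w z‖ < s
      · exact Or.inr ⟨S, h1, by omega, hcov⟩
      · push Not at hcov
        obtain ⟨z, hz, hz2⟩ := hcov
        have hzS : z ∉ S := by
          intro hzS
          have := hz2 z hzS
          rw [b_self, norm_zero] at this
          linarith
        refine Or.inl ⟨insert z S, ?_, ?_, ?_⟩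
        · intro w hw
          rcases Finset.mem_insert.1 hw with rfl | hw
          · exact hz
          · exact h1 w hw
        · rw [Finset.card_insert_of_notMem hzS, h2]
        · intro w hw y hy hne
          rcases Finset.mem_insert.1 hw with hw1 | hw1
          · rcases Finset.mem_insert.1 hy with hy1 | hy1
            · exact absurd (hw1.trans hy1.symm) hne
            · rw [norm_b_comm, hw1]; exact hz2 y hy1
          · rcases Finset.mem_insert.1 hy with hy1 | hy1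
            · rw [hy1]; exact hz2 w hw1
            · exact h3 w hw1 y hy1 hne
    · exact Or.inr ⟨S, h1, by omega, h3⟩

/-- pseudo-hyperbolic balls are small -/
theorem b_ball_subset {w z : ℂ} {s : ℝ} (hw : ‖w‖ < 1) (hz : ‖z‖ < 1)
    (hs2 : s ≤ 1 / 2) (h : ‖b w z‖ < s) : z ∈ ball w (4 * s * (1 - ‖w‖)) := by
  have hne := one_sub_ne hw hz
  have h1 : ‖w - z‖ < s * ‖1 - conj w * z‖ := by
    unfold b at h
    rwa [norm_div, div_lt_iff₀ (by positivity)] at h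
  have h2 : ‖1 - conj w * z‖ ≤ (1 - ‖w‖ ^ 2) + ‖w‖ * ‖w - z‖ := by
    have h3 : 1 - conj w * z = ((1 - ‖w‖ ^ 2 : ℝ) : ℂ) + conj w * (w - z) := by
      have h4 : conj w * w = ((‖w‖ ^ 2 : ℝ) : ℂ) := by
        rw [mul_comm, Complex.mul_conj, Complex.normSq_eq_norm_sq]
      push_cast
      rw [mul_sub, h4]
      push_cast; ring
    rw [h3]
    refine (norm_add_le _ _).trans ?_
    rw [norm_mul, RCLike.norm_conj, Complex.norm_real, Real.norm_of_nonneg]
    nlinarith [norm_nonneg w]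
  have hs0 : 0 < s := (norm_nonneg _).trans_lt h
  rw [mem_ball, dist_eq_norm, norm_sub_rev]
  have hw0 := norm_nonneg w
  have hd := norm_nonneg (w - z)
  have h5 : ‖w - z‖ < s * ((1 - ‖w‖ ^ 2) + ‖w‖ * ‖w - z‖) :=
    h1.trans_le (mul_le_mul_of_nonneg_left h2 hs0.le)
  have h6 : ‖w‖ * ‖w - z‖ ≤ ‖w - z‖ := by nlinarith
  have h7 : 1 - ‖w‖ ^ 2 ≤ 2 * (1 - ‖w‖) := by nlinarith
  have h8 : s * ((1 - ‖w‖ ^ 2) + ‖w‖ * ‖w - z‖) ≤ s * (2 * (1 - ‖w‖) + ‖w - z‖) := by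
    apply mul_le_mul_of_nonneg_left _ hs0.le
    linarith
  nlinarith

/-- the points `w` with `v` in the disc of radius `η (1 - |w|)` about `w` -/
def cone (η : ℝ) (v : ℂ) : Set ℂ := {w | ‖v - w‖ < η * (1 - ‖w‖)}

theorem cone_bounds {η : ℝ} (hη0 : 0 < η) (hη1 : η < 1) {v w : ℂ} (h : w ∈ cone η v) :
    ‖w‖ < 1 ∧ ‖v‖ < 1 ∧ (1 - η) * (1 - ‖w‖) ≤ 1 - ‖v‖ ∧ 1 - ‖v‖ ≤ (1 + η) * (1 - ‖w‖) := by
  have h1 : ‖v - w‖ < η * (1 - ‖w‖) := h
  have h2 : ‖w‖ < 1 := by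
    have := norm_nonneg (v - w)
    by_contra hcon
    rw [not_lt] at hcon
    nlinarith
  have h3 : ‖v‖ ≤ ‖w‖ + ‖v - w‖ := by
    have : v = w + (v - w) := by ring
    calc ‖v‖ = ‖w + (v - w)‖ := by rw [← this]
      _ ≤ _ := norm_add_le _ _
  have h4 : ‖w‖ ≤ ‖v‖ + ‖v - w‖ := by
    have : w = v - (v - w) := by ring
    calc ‖w‖ = ‖v - (v - w)‖ := by rw [← this]
      _ ≤ _ := norm_sub_le _ _
  refine ⟨h2, ?_, ?_, ?_⟩ <;> nlinarith

theorem volume_thin {η s : ℝ} (hη0 : 0 < η) (hη1 : η < 1) (hs0 : 0 < s) (hs2 : s ≤ 1 / 2)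
    {G : Set ℂ} {m : ℕ} {v : ℂ}
    (hG : ¬ ∃ S : Finset ℂ, (∀ w ∈ S, w ∈ G ∩ cone η v) ∧ S.card = m ∧
      ∀ w ∈ S, ∀ z ∈ S, w ≠ z → s ≤ ‖b w z‖) :
    volume (G ∩ cone η v) ≤ ENNReal.ofReal (m * (16 * Real.pi * s ^ 2 * (1 - ‖v‖) ^ 2 / (1 - η) ^ 2)) := by
  rcases sep_or_cover hs0 (G ∩ cone η v) m with h | ⟨S, h1, h2, h3⟩
  · exact absurd h hG
  · have hsub : G ∩ cone η v ⊆ ⋃ w ∈ S, ball w (4 * s * (1 - ‖w‖)) := by
      intro z hz
      obtain ⟨w, hw, hwz⟩ := h3 z hz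
      have hw' := cone_bounds hη0 hη1 (h1 w hw).2
      have hz' := cone_bounds hη0 hη1 hz.2
      exact mem_biUnion hw (b_ball_subset hw'.1 hz'.1 hs2 hwz)
    calc volume (G ∩ cone η v) ≤ volume (⋃ w ∈ S, ball w (4 * s * (1 - ‖w‖))) := measure_mono hsub
      _ ≤ ∑ w ∈ S, volume (ball w (4 * s * (1 - ‖w‖))) := measure_biUnion_finset_le _ _
      _ ≤ ∑ w ∈ S, ENNReal.ofReal (16 * Real.pi * s ^ 2 * (1 - ‖v‖) ^ 2 / (1 - η) ^ 2) := by
          apply Finset.sum_le_sum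
          intro w hw
          obtain ⟨c1, c2, c3, c4⟩ := cone_bounds hη0 hη1 (h1 w hw).2
          rw [Complex.volume_ball, ← ENNReal.ofReal_pow (by
            have : 0 ≤ 1 - ‖w‖ := by linarith
            positivity)]
          have hpi : (NNReal.pi : ℝ≥0∞) = ENNReal.ofReal Real.pi := by
            rw [ENNReal.ofReal, NNReal.pi]
            congr 1
            ext
            rw [Real.coe_toNNReal _ Real.pi_pos.le]
            rfl
          rw [hpi, ← ENNReal.ofReal_mul (by positivity)]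
          apply ENNReal.ofReal_le_ofReal
          have h5 : 0 < 1 - η := by linarith
          rw [le_div_iff₀ (by positivity)]
          have h6 : ((1 - η) * (1 - ‖w‖)) ^ 2 ≤ (1 - ‖v‖) ^ 2 := by
            apply pow_le_pow_left₀ _ c3
            have : 0 ≤ 1 - ‖w‖ := by linarith
            positivity
          calc (4 * s * (1 - ‖w‖)) ^ 2 * Real.pi * (1 - η) ^ 2
              = 16 * Real.pi * s ^ 2 * ((1 - η) * (1 - ‖w‖)) ^ 2 := by ring
            _ ≤ 16 * Real.pi * s ^ 2 * (1 - ‖v‖) ^ 2 := by gcongr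
      _ = (S.card : ℝ≥0∞) * ENNReal.ofReal (16 * Real.pi * s ^ 2 * (1 - ‖v‖) ^ 2 / (1 - η) ^ 2) := by
          rw [Finset.sum_const, nsmul_eq_mul]
      _ ≤ (m : ℝ≥0∞) * ENNReal.ofReal (16 * Real.pi * s ^ 2 * (1 - ‖v‖) ^ 2 / (1 - η) ^ 2) := by
          gcongr
      _ = _ := by
          rw [ENNReal.ofReal_mul (by positivity), ENNReal.ofReal_natCast]

end Pool.Agent.Helper59.Hardy
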