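import Mathlib
import Pool.Agent.Helper59.Thin

/-! Integral estimate over thin sets. -/

namespace Pool.Agent.Helper59.Hardy

open Complex Set Filter Topology Metric MeasureTheory
open scoped ENNReal ComplexConjugate

theorem thin_integral {η s : ℝ} (hη0 : 0 < η) (hη1 : η < 1) (hs0 : 0 < s) (hs2 : s ≤ 1 / 2)
    {G : Set ℂ} (hGm : MeasurableSet G) (hGb : G ⊆ ball 0 1) {m : ℕ}
    (hG : ∀ v, ¬ ∃ S : Finset ℂ, (∀ w ∈ S, w ∈ G ∩ cone η v) ∧ S.card = m ∧
      ∀ w ∈ S, ∀ z ∈ S, w ≠ z → s ≤ ‖b w z‖)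
    {h : ℂ → ℂ} (hh : Measurable h) (hd : DifferentiableOn ℂ h (ball 0 1)) :
    ∫⁻ w in G, ENNReal.ofReal (‖h w‖ ^ 2 * (1 - ‖w‖ ^ 2)) ≤
      ENNReal.ofReal (32 * (1 + η) / (η ^ 2 * (1 - η) ^ 2) * (m * s ^ 2)) *
        ∫⁻ v in ball (0 : ℂ) 1, ENNReal.ofReal (‖h v‖ ^ 2 * (1 - ‖v‖ ^ 2)) := by
  classical
  set k : ℂ → ℝ≥0∞ := fun w => ENNReal.ofReal (2 / (Real.pi * η ^ 2 * (1 - ‖w‖))) with hk
  set Hf : ℂ → ℝ≥0∞ := fun v => ENNReal.ofReal (‖h v‖ ^ 2) with hHf
  have hkm : Measurable k := by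
    apply ENNReal.measurable_ofReal.comp
    fun_prop
  have hHm : Measurable Hf := by
    apply ENNReal.measurable_ofReal.comp
    exact (hh.norm).pow_const 2
  set E : Set (ℂ × ℂ) := {p | p.1 ∈ G ∧ ‖p.2 - p.1‖ < η * (1 - ‖p.1‖)} with hE
  have hEm : MeasurableSet E := by
    have h2 : MeasurableSet {p : ℂ × ℂ | ‖p.2 - p.1‖ < η * (1 - ‖p.1‖)} :=
      measurableSet_lt (by fun_prop) (by fun_prop)
    exact (hGm.preimage measurable_fst).inter h2
  set f : ℂ → ℂ → ℝ≥0∞ := fun w v => E.indicator (fun p => k p.1 * Hf p.2) (w, v) with hf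
  have hfm : Measurable (Function.uncurry f) := by
    have h1 : Function.uncurry f = E.indicator (fun p => k p.1 * Hf p.2) := by
      ext ⟨w, v⟩; rfl
    rw [h1]
    apply Measurable.indicator _ hEm
    exact (hkm.comp measurable_fst).mul (hHm.comp measurable_snd)
  -- pointwise bound
  have hpt : ∀ w ∈ G, ENNReal.ofReal (‖h w‖ ^ 2 * (1 - ‖w‖ ^ 2)) ≤ ∫⁻ v, f w v := by
    intro w hw
    have hw1 : ‖w‖ < 1 := by simpa using hGb hw
    have hR : 0 < η * (1 - ‖w‖) := by
      have : 0 < 1 - ‖w‖ := by linarith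
      positivity
    have hsub : ball w (η * (1 - ‖w‖)) ⊆ ball 0 1 := by
      intro v hv
      rw [mem_ball, dist_eq_norm] at hv
      have := cone_bounds hη0 hη1 (v := v) (w := w) hv
      simpa using this.2.1
    have h1 := submean hR (hd.mono hsub)
    have h2 : ∫⁻ v, f w v = k w * ∫⁻ v in ball w (η * (1 - ‖w‖)), Hf v := by
      rw [← lintegral_const_mul _ hHm, ← lintegral_indicator measurableSet_ball]
      apply lintegral_congr
      intro v
      simp only [hf]
      by_cases hv : v ∈ ball w (η * (1 - ‖w‖))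
      · rw [indicator_of_mem hv, indicator_of_mem]
        rw [mem_ball, dist_eq_norm] at hv
        exact ⟨hw, hv⟩
      · rw [indicator_of_notMem hv, indicator_of_notMem]
        rintro ⟨_, h3⟩
        apply hv
        rw [mem_ball, dist_eq_norm]
        exact h3
    rw [h2]
    refine le_trans ?_ (mul_le_mul' le_rfl h1)
    have hpos : 0 < 1 - ‖w‖ := by linarith
    simp only [hk]
    rw [← ENNReal.ofReal_mul (by positivity), ← ENNReal.ofReal_mul (by positivity)]
    apply ENNReal.ofReal_le_ofReal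
    have h4 : 2 / (Real.pi * η ^ 2 * (1 - ‖w‖)) * (‖h w‖ ^ 2 * (Real.pi * (η * (1 - ‖w‖)) ^ 2)) =
        ‖h w‖ ^ 2 * (2 * (1 - ‖w‖)) := by
      have := Real.pi_ne_zero
      field_simp
    rw [h4]
    apply mul_le_mul_of_nonneg_left _ (by positivity)
    nlinarith [norm_nonneg w]
  have hη' : 0 < 1 - η := by linarith
  have hcm : ∀ v, MeasurableSet (G ∩ cone η v) := by
    intro v
    have h2 : MeasurableSet {w : ℂ | ‖v - w‖ < η * (1 - ‖w‖)} :=
      measurableSet_lt (by fun_prop) (by fun_prop)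
    exact hGm.inter h2
  have hin : ∀ v, ‖v‖ < 1 → ∫⁻ w, f w v ≤
      ENNReal.ofReal (32 * (1 + η) / (η ^ 2 * (1 - η) ^ 2) * (m * s ^ 2)) *
          ENNReal.ofReal (‖h v‖ ^ 2 * (1 - ‖v‖ ^ 2)) := by
    intro v hv1
    have hpos : 0 < 1 - ‖v‖ := by linarith
    set cc : ℝ≥0∞ := ENNReal.ofReal (2 * (1 + η) / (Real.pi * η ^ 2 * (1 - ‖v‖))) * Hf v with hcc
    have h5 : ∀ w, f w v ≤ (G ∩ cone η v).indicator (fun _ => cc) w := by
      intro w
      simp only [hf]
      by_cases hw : w ∈ G ∩ cone η v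
      · rw [indicator_of_mem hw, indicator_of_mem (show (w, v) ∈ E from ⟨hw.1, hw.2⟩)]
        apply mul_le_mul' _ le_rfl
        simp only [hk]
        apply ENNReal.ofReal_le_ofReal
        obtain ⟨c1, c2, c3, c4⟩ := cone_bounds hη0 hη1 hw.2
        have hw' : 0 < 1 - ‖w‖ := by linarith
        rw [div_le_div_iff₀ (by positivity) (by positivity)]
        have h6 : 2 * Real.pi * η ^ 2 * (1 - ‖v‖) ≤ 2 * Real.pi * η ^ 2 * ((1 + η) * (1 - ‖w‖)) := by
          gcongr
        linarith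
      · rw [indicator_of_notMem hw, indicator_of_notMem]
        rintro ⟨h6, h7⟩
        exact hw ⟨h6, h7⟩
    have h9 : ∫⁻ w, f w v ≤ cc * volume (G ∩ cone η v) := by
      refine (lintegral_mono h5).trans_eq ?_
      rw [lintegral_indicator (hcm v), setLIntegral_const]
    refine h9.trans ((mul_le_mul' le_rfl (volume_thin hη0 hη1 hs0 hs2 (hG v))).trans ?_)
    simp only [hcc, hHf]
    rw [← ENNReal.ofReal_mul (by positivity), ← ENNReal.ofReal_mul (by positivity),
      ← ENNReal.ofReal_mul (by positivity)]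
    apply ENNReal.ofReal_le_ofReal
    have h8 : 2 * (1 + η) / (Real.pi * η ^ 2 * (1 - ‖v‖)) * ‖h v‖ ^ 2 *
        (m * (16 * Real.pi * s ^ 2 * (1 - ‖v‖) ^ 2 / (1 - η) ^ 2)) =
        32 * (1 + η) / (η ^ 2 * (1 - η) ^ 2) * (m * s ^ 2) * (‖h v‖ ^ 2 * (1 - ‖v‖)) := by
      have := Real.pi_ne_zero
      field_simp
      ring
    rw [h8]
    apply mul_le_mul_of_nonneg_left _ (by positivity)
    apply mul_le_mul_of_nonneg_left _ (by positivity)
    nlinarith [norm_nonneg v]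
  have hout : ∀ v, ¬ ‖v‖ < 1 → ∫⁻ w, f w v = 0 := by
    intro v hv
    have : ∀ w, f w v = 0 := by
      intro w
      simp only [hf]
      rw [indicator_of_notMem]
      rintro ⟨h6, h7⟩
      apply hv
      exact (cone_bounds hη0 hη1 (v := v) (w := w) h7).2.1
    simp [this]
  calc ∫⁻ w in G, ENNReal.ofReal (‖h w‖ ^ 2 * (1 - ‖w‖ ^ 2))
      ≤ ∫⁻ w in G, ∫⁻ v, f w v := setLIntegral_mono' hGm hpt
    _ ≤ ∫⁻ w, ∫⁻ v, f w v := setLIntegral_le_lintegral _ _
    _ = ∫⁻ v, ∫⁻ w, f w v := lintegral_lintegral_swap hfm.aemeasurable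
    _ ≤ ∫⁻ v, (ball (0 : ℂ) 1).indicator (fun v =>
          ENNReal.ofReal (32 * (1 + η) / (η ^ 2 * (1 - η) ^ 2) * (m * s ^ 2)) *
          ENNReal.ofReal (‖h v‖ ^ 2 * (1 - ‖v‖ ^ 2))) v := by
        apply lintegral_mono
        intro v
        simp only
        by_cases hv : v ∈ ball (0 : ℂ) 1
        · rw [indicator_of_mem hv]
          exact hin v (by simpa using hv)
        · rw [indicator_of_notMem hv, hout v (by simpa using hv)]
    _ = _ := by
        rw [lintegral_indicator measurableSet_ball, lintegral_const_mul']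
        exact ENNReal.ofReal_ne_top

end Pool.Agent.Helper59.Hardy
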