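import Mathlib
import Pool.Agent.Helper59.Trans
import Pool.Agent.Helper59.ThinInt
import Pool.Agent.Helper59.Area
import Pool.Agent.Helper59.LPal

/-! Existence of separated points with many preimages. -/

namespace Pool.Agent.Helper59.Hardy

open Complex Set Filter Topology Metric MeasureTheory
open scoped ENNReal ComplexConjugate

theorem deriv_small {r δ : ℝ} (hr0 : 0 ≤ r) (hr : r < 1) (hδ : 0 < δ) :
    ∃ K : ℕ, 0 < K ∧ ∀ f : H2, (∀ n < K, f n = 0) → ‖f‖ ≤ 1 → ∀ w : ℂ, ‖w‖ ≤ r →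
      ‖deriv (ev f) w‖ ≤ δ := by
  have h1 : Summable fun n : ℕ => ((n : ℝ) + 1) * r ^ n := by
    have h2 : Summable fun n : ℕ => (n : ℝ) ^ 1 * r ^ n :=
      summable_pow_mul_geometric_of_norm_lt_one 1 (by rwa [Real.norm_of_nonneg hr0])
    have h3 : Summable fun n : ℕ => r ^ n := summable_geometric_of_lt_one hr0 hr
    refine (h2.add h3).congr fun n => ?_
    rw [pow_one]; ring
  have h4 := tendsto_sum_nat_add (fun n : ℕ => ((n : ℝ) + 1) * r ^ n)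
  obtain ⟨K, hK⟩ := ((tendsto_order.1 h4).2 δ hδ).exists
  refine ⟨K + 1, Nat.succ_pos K, fun f hf hf1 w hw => ?_⟩
  have hw1 : ‖w‖ < 1 := hw.trans_lt hr
  rw [deriv_ev f hw1]
  have h5 := summable_deriv_coeff f hr0 hr
  have h6 : ∀ n : ℕ, ‖((n : ℂ) + 1) * f (n + 1) * w ^ n‖ ≤ ‖((n : ℂ) + 1) * f (n + 1)‖ * r ^ n := by
    intro n
    rw [norm_mul _ (w ^ n), norm_pow]
    gcongr
  have h7 : ‖∑' n : ℕ, ((n : ℂ) + 1) * f (n + 1) * w ^ n‖ ≤
      ∑' n : ℕ, ‖((n : ℂ) + 1) * f (n + 1)‖ * r ^ n :=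
    tsum_of_norm_bounded h5.hasSum h6
  refine h7.trans (le_trans ?_ hK.le)
  rw [← h5.sum_add_tsum_nat_add K, Finset.sum_eq_zero, zero_add]
  · apply Summable.tsum_le_tsum _ ((summable_nat_add_iff K).2 h5) ((summable_nat_add_iff K).2 h1)
    intro n
    rw [norm_mul]
    have h8 : ‖((n + K : ℕ) : ℂ) + 1‖ = ((n + K : ℕ) : ℝ) + 1 := by
      have : (((n + K : ℕ) : ℂ) + 1) = ((n + K + 1 : ℕ) : ℂ) := by push_cast; ring
      rw [this, Complex.norm_natCast]; push_cast; ring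
    rw [h8]
    have h9 : ‖f (n + K + 1)‖ ≤ 1 := (coeff_le f _).trans hf1
    have h10 : 0 ≤ r ^ (n + K) := pow_nonneg hr0 _
    calc (((n + K : ℕ) : ℝ) + 1) * ‖f (n + K + 1)‖ * r ^ (n + K)
        ≤ (((n + K : ℕ) : ℝ) + 1) * 1 * r ^ (n + K) := by gcongr
      _ = _ := by ring
  · intro n hn
    rw [hf (n + 1) (by have := Finset.mem_range.1 hn; omega)]
    simp

theorem exists_points (m : ℕ) {η : ℝ} (hη0 : 0 < η) (hη1 : η < 1) :
    ∃ s : ℝ, 0 < s ∧ s ≤ 1 / 2 ∧ ∀ (ψ : ℂ → ℂ), DifferentiableOn ℂ ψ (ball 0 1) →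
      (∀ z, ‖z‖ < 1 → ‖ψ z‖ < 1) → ψ 0 = 0 → ∀ D : H2 →L[ℂ] H2, IsComp ψ D →
      ∀ α : ℝ, 0 < α → (∀ K, α ≤ ‖D * P K‖) → (∃ K, ‖D * P K‖ ^ 2 ≤ 2 * α ^ 2) →
      ∀ t₀ : ℝ, 0 < t₀ → ∃ (v : ℂ) (S : Finset ℂ), S.card = m ∧
        (∀ w ∈ S, w ∈ cone η v ∧ 1 - ‖w‖ < t₀) ∧
        (∀ w ∈ S, ∀ z ∈ S, w ≠ z → s ≤ ‖b w z‖) ∧
        ∀ w ∈ S, ∃ Z : Finset ℂ, (∀ ζ ∈ Z, ‖ζ‖ < 1 ∧ ψ ζ = w) ∧
          α ^ 2 / 16 * (1 - ‖w‖ ^ 2) ≤ ∑ ζ ∈ Z, (1 - ‖ζ‖ ^ 2) := by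
  have hη' : 0 < 1 - η := by linarith
  set Cη : ℝ := 32 * (1 + η) / (η ^ 2 * (1 - η) ^ 2) with hCη
  have hCη0 : 0 < Cη := by positivity
  set s : ℝ := 1 / (128 * (Cη * (m + 1)) + 2) with hs
  have hden : 0 < 128 * (Cη * (m + 1)) + 2 := by positivity
  have hs0 : 0 < s := by positivity
  have hs2 : s ≤ 1 / 2 := by
    rw [hs]
    apply one_div_le_one_div_of_le (by norm_num)
    have : 0 ≤ 128 * (Cη * (m + 1)) := by positivity
    linarith
  have hsm : Cη * (m * s ^ 2) ≤ 1 / 128 := by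
    have h1 : s ^ 2 ≤ s := by nlinarith
    have h2 : (128 * (Cη * (m + 1)) + 2) * s = 1 := by rw [hs]; field_simp
    have h3 : 128 * (Cη * (m * s)) ≤ (128 * (Cη * (m + 1)) + 2) * s := by
      have : 0 ≤ 128 * Cη * s + 2 * s := by positivity
      nlinarith
    have h4 : Cη * (m * s ^ 2) ≤ Cη * (m * s) := by gcongr
    linarith
  refine ⟨s, hs0, hs2, ?_⟩
  intro ψ hψ hm h0 D hD α hα hlow ⟨K₁, hK₁⟩ t₀ ht₀
  obtain ⟨N, hNm, hNB, hNF⟩ := area hψ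
  -- radius r₂
  obtain ⟨r₂, hr0, hr1, hrt, hrK, hrα⟩ : ∃ r₂ : ℝ, 0 ≤ r₂ ∧ r₂ < 1 ∧ 1 - r₂ < t₀ ∧
      1 / 2 ≤ r₂ ^ (2 * K₁) ∧ 8 * α ^ 2 * (1 - r₂ ^ 2) < 1 := by
    have e1 : ∀ᶠ r : ℝ in 𝓝[<] 1, 0 ≤ r := by
      apply mem_nhdsWithin_of_mem_nhds
      filter_upwards [lt_mem_nhds (show (0:ℝ) < 1 by norm_num)] with r hr using hr.le
    have e2 : ∀ᶠ r : ℝ in 𝓝[<] 1, r < 1 := self_mem_nhdsWithin
    have e3 : ∀ᶠ r : ℝ in 𝓝[<] 1, 1 - r < t₀ := by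
      apply mem_nhdsWithin_of_mem_nhds
      filter_upwards [lt_mem_nhds (show (1 - t₀ : ℝ) < 1 by linarith)] with r hr
      change 1 - r < t₀
      linarith
    have e4 : ∀ᶠ r : ℝ in 𝓝[<] 1, 1 / 2 ≤ r ^ (2 * K₁) := by
      have hc : Tendsto (fun r : ℝ => r ^ (2 * K₁)) (𝓝[<] 1) (𝓝 (1 ^ (2 * K₁))) :=
        ((continuous_pow (2 * K₁)).tendsto 1).mono_left nhdsWithin_le_nhds
      rw [one_pow] at hc
      filter_upwards [(tendsto_order.1 hc).1 (1 / 2) (by norm_num)] with r hr using hr.le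
    have e5 : ∀ᶠ r : ℝ in 𝓝[<] 1, 8 * α ^ 2 * (1 - r ^ 2) < 1 := by
      have hc : Tendsto (fun r : ℝ => 8 * α ^ 2 * (1 - r ^ 2)) (𝓝[<] 1) (𝓝 (8 * α ^ 2 * (1 - 1 ^ 2))) := by
        apply Tendsto.mono_left _ nhdsWithin_le_nhds
        apply Continuous.tendsto (by fun_prop)
      have hz : 8 * α ^ 2 * (1 - 1 ^ 2) = 0 := by ring
      rw [hz] at hc
      exact (tendsto_order.1 hc).2 1 (by norm_num)
    obtain ⟨r, h1, h2, h3, h4, h5⟩ := (e1.and (e2.and (e3.and (e4.and e5)))).exists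
    exact ⟨r, h1, h2, h3, h4, h5⟩
  -- upper bound for N
  have hNup : ∀ w : ℂ, r₂ ≤ ‖w‖ → ‖w‖ < 1 → N w ≤ ENNReal.ofReal (8 * α ^ 2 * (1 - ‖w‖ ^ 2)) := by
    intro w hw1 hw2
    apply hNB
    intro Z hZ
    rw [← ENNReal.ofReal_sum_of_nonneg (fun ζ hζ => by nlinarith [(hZ ζ hζ).1, norm_nonneg ζ])]
    apply ENNReal.ofReal_le_ofReal
    apply count_upper hD hm hα hK₁ hw2 _ _ hZ
    · exact hrK.trans (pow_le_pow_left₀ hr0 hw1 _)
    · have : r₂ ^ 2 ≤ ‖w‖ ^ 2 := pow_le_pow_left₀ hr0 hw1 2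
      have h8 : 0 < 8 * α ^ 2 := by positivity
      nlinarith
  have hNout : ∀ w : ℂ, ¬ ‖w‖ < 1 → N w = 0 := by
    intro w hw
    rw [← nonpos_iff_eq_zero]
    apply hNB
    intro Z hZ
    have hZe : Z = ∅ := by
      rw [Finset.eq_empty_iff_forall_notMem]
      intro ζ hζ
      obtain ⟨h1, h2⟩ := hZ ζ hζ
      exact hw (h2 ▸ hm ζ h1)
    rw [hZe]; simp
  set G : Set ℂ := {w | (r₂ ≤ ‖w‖ ∧ ‖w‖ < 1) ∧ ENNReal.ofReal (α ^ 2 / 16 * (1 - ‖w‖ ^ 2)) < N w} with hG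
  have hGm : MeasurableSet G := by
    have m1 : MeasurableSet {w : ℂ | r₂ ≤ ‖w‖} := measurableSet_le measurable_const measurable_norm
    have m2 : MeasurableSet {w : ℂ | ‖w‖ < 1} := measurableSet_lt measurable_norm measurable_const
    have m3 : MeasurableSet {w : ℂ | ENNReal.ofReal (α ^ 2 / 16 * (1 - ‖w‖ ^ 2)) < N w} :=
      measurableSet_lt (ENNReal.measurable_ofReal.comp (by fun_prop)) hNm
    exact (m1.inter m2).inter m3
  have hGb : G ⊆ ball 0 1 := fun w hw => by simpa using hw.1.2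
  -- each point of G has a set Z
  have hGZ : ∀ w ∈ G, ∃ Z : Finset ℂ, (∀ ζ ∈ Z, ‖ζ‖ < 1 ∧ ψ ζ = w) ∧
          α ^ 2 / 16 * (1 - ‖w‖ ^ 2) ≤ ∑ ζ ∈ Z, (1 - ‖ζ‖ ^ 2) := by
    intro w hw
    by_contra hcon
    push Not at hcon
    apply not_le.2 hw.2
    apply hNB
    intro Z hZ
    rw [← ENNReal.ofReal_sum_of_nonneg (fun ζ hζ => by nlinarith [(hZ ζ hζ).1, norm_nonneg ζ])]
    exact ENNReal.ofReal_le_ofReal (hcon Z hZ).le
  by_contra hcontra
  have hthin : ∀ v, ¬ ∃ S : Finset ℂ, (∀ w ∈ S, w ∈ G ∩ cone η v) ∧ S.card = m ∧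
      ∀ w ∈ S, ∀ z ∈ S, w ≠ z → s ≤ ‖b w z‖ := by
    rintro v ⟨S, hS1, hS2, hS3⟩
    apply hcontra
    refine ⟨v, S, hS2, fun w hw => ⟨(hS1 w hw).2, ?_⟩, hS3, fun w hw => hGZ w (hS1 w hw).1⟩
    have := (hS1 w hw).1.1.1
    linarith
  -- test function
  obtain ⟨K, hK0, hKd⟩ := deriv_small hr0 hr1 (δ := α / (4 * (‖D‖ + 1))) (by positivity)
  obtain ⟨x, hx1, hx2⟩ := (D * P K).exists_lt_apply_of_lt_opNorm (r := 7 / 10 * α)
    (by have := hlow K; linarith)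
  set f : H2 := P K x with hf
  have hfn : ∀ n < K, f n = 0 := fun n hn => by rw [hf, P_apply, if_neg (not_le.2 hn)]
  have hf1 : ‖f‖ ≤ 1 := (P_norm_apply_le K x).trans hx1.le
  have hDf : 7 / 10 * α < ‖D f‖ := hx2
  have hDf0 : (D f) 0 = 0 := by
    rw [← ev_at_zero, hD f 0 (by simp), h0, ev_at_zero]
    exact hfn 0 hK0
  -- derivative of D f
  have hder : ∀ z ∈ ball (0 : ℂ) 1, deriv (ev (D f)) z = deriv (ev f) (ψ z) * deriv ψ z := by
    intro z hz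
    have hz1 : ‖z‖ < 1 := by simpa using hz
    have h1 : ev (D f) =ᶠ[𝓝 z] fun y => ev f (ψ y) := by
      filter_upwards [isOpen_ball.mem_nhds hz] with y hy
      exact hD f y (by simpa using hy)
    rw [h1.deriv_eq]
    exact deriv_comp z (differentiableAt_ev f (hm z hz1)) (hψ.differentiableAt (isOpen_ball.mem_nhds hz))
  have hLP := lp_lower (D f)
  rw [hDf0, norm_zero] at hLP
  -- the function F
  set δ := α / (4 * (‖D‖ + 1)) with hδ
  set F : ℂ → ℝ≥0∞ := {w : ℂ | r₂ ≤ ‖w‖}.indicator (fun w => ENNReal.ofReal (‖deriv (ev f) w‖ ^ 2)) with hF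
  have hFm : Measurable F := by
    apply Measurable.indicator
    · apply ENNReal.measurable_ofReal.comp
      exact ((measurable_deriv (ev f)).norm).pow_const 2
    · exact measurableSet_le measurable_const (by fun_prop)
  have hsplit : ∀ z ∈ ball (0 : ℂ) 1,
      ENNReal.ofReal (‖deriv (ev (D f)) z‖ ^ 2 * (1 - ‖z‖ ^ 2)) ≤
      ENNReal.ofReal (δ ^ 2) * ENNReal.ofReal (‖deriv ψ z‖ ^ 2 * (1 - ‖z‖ ^ 2)) +
      F (ψ z) * ENNReal.ofReal (‖deriv ψ z‖ ^ 2 * (1 - ‖z‖ ^ 2)) := by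
    intro z hz
    rw [hder z hz, norm_mul, mul_pow, mul_assoc, ENNReal.ofReal_mul (by positivity), ← add_mul]
    apply mul_le_mul' _ le_rfl
    by_cases hr : r₂ ≤ ‖ψ z‖
    · rw [hF, indicator_of_mem (show ψ z ∈ {w : ℂ | r₂ ≤ ‖w‖} from hr)]
      exact le_add_self
    · refine le_trans ?_ le_self_add
      apply ENNReal.ofReal_le_ofReal
      exact pow_le_pow_left₀ (norm_nonneg _) (hKd f hfn hf1 _ (not_le.1 hr).le) 2
  have hψmon : ∀ z ∈ ball (0 : ℂ) 1, ψ z = ev (D (mon 1)) z := by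
    intro z hz
    rw [hD _ z (by simpa using hz), ev_mon, pow_one]
  have hDψ : ∀ z ∈ ball (0 : ℂ) 1, deriv ψ z = deriv (ev (D (mon 1))) z := by
    intro z hz
    apply Filter.EventuallyEq.deriv_eq
    filter_upwards [isOpen_ball.mem_nhds hz] with y hy using hψmon y hy
  have hI1 : ∫⁻ z in ball (0 : ℂ) 1, ENNReal.ofReal (‖deriv ψ z‖ ^ 2 * (1 - ‖z‖ ^ 2)) ≤
      ENNReal.ofReal (Real.pi * ‖D‖ ^ 2) := by
    have h1 : ∫⁻ z in ball (0 : ℂ) 1, ENNReal.ofReal (‖deriv ψ z‖ ^ 2 * (1 - ‖z‖ ^ 2)) =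
        ∫⁻ z in ball (0 : ℂ) 1, ENNReal.ofReal (‖deriv (ev (D (mon 1))) z‖ ^ 2 * (1 - ‖z‖ ^ 2)) := by
      apply setLIntegral_congr_fun measurableSet_ball
      intro z hz
      simp only
      rw [hDψ z hz]
    rw [h1]
    refine (lp_upper _).trans ?_
    apply ENNReal.ofReal_le_ofReal
    have h2 : ‖D (mon 1)‖ ≤ ‖D‖ := by
      have := D.le_opNorm (mon 1)
      rwa [norm_mon, mul_one] at this
    have := Real.pi_pos
    gcongr
  have hI2 : ∫⁻ w, F w * N w ≤ ENNReal.ofReal (α ^ 2 / 16) * ENNReal.ofReal Real.pi +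
      ENNReal.ofReal (8 * α ^ 2) * (ENNReal.ofReal (1 / 128) * ENNReal.ofReal Real.pi) := by
    have hfup : ∫⁻ w in ball (0 : ℂ) 1, ENNReal.ofReal (‖deriv (ev f) w‖ ^ 2 * (1 - ‖w‖ ^ 2)) ≤
        ENNReal.ofReal Real.pi := by
      refine (lp_upper f).trans ?_
      apply ENNReal.ofReal_le_ofReal
      have := Real.pi_pos
      have h1 : ‖f‖ ^ 2 ≤ 1 := by nlinarith [norm_nonneg f]
      nlinarith
    have hpt : ∀ w, F w * N w ≤
        (ball (0 : ℂ) 1).indicator (fun w => ENNReal.ofReal (α ^ 2 / 16) *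
          ENNReal.ofReal (‖deriv (ev f) w‖ ^ 2 * (1 - ‖w‖ ^ 2))) w +
        G.indicator (fun w => ENNReal.ofReal (8 * α ^ 2) *
          ENNReal.ofReal (‖deriv (ev f) w‖ ^ 2 * (1 - ‖w‖ ^ 2))) w := by
      intro w
      by_cases hw1 : ‖w‖ < 1
      · have hpos : 0 ≤ 1 - ‖w‖ ^ 2 := by nlinarith [norm_nonneg w]
        by_cases hwr : r₂ ≤ ‖w‖
        · rw [hF, indicator_of_mem (show w ∈ {w : ℂ | r₂ ≤ ‖w‖} from hwr)]
          by_cases hwG : w ∈ G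
          · rw [indicator_of_mem hwG]
            refine le_trans ?_ le_add_self
            refine (mul_le_mul' le_rfl (hNup w hwr hw1)).trans_eq ?_
            rw [← ENNReal.ofReal_mul (by positivity), ← ENNReal.ofReal_mul (by positivity)]
            congr 1; ring
          · rw [indicator_of_mem (show w ∈ ball (0 : ℂ) 1 by simpa using hw1)]
            refine le_trans ?_ le_self_add
            have hNw : N w ≤ ENNReal.ofReal (α ^ 2 / 16 * (1 - ‖w‖ ^ 2)) := by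
              by_contra hcon
              exact hwG ⟨⟨hwr, hw1⟩, not_le.1 hcon⟩
            refine (mul_le_mul' le_rfl hNw).trans_eq ?_
            rw [← ENNReal.ofReal_mul (by positivity), ← ENNReal.ofReal_mul (by positivity)]
            congr 1; ring
        · rw [hF, indicator_of_notMem (show w ∉ {w : ℂ | r₂ ≤ ‖w‖} from hwr), zero_mul]
          exact zero_le
      · rw [hNout w hw1, mul_zero]
        exact zero_le
    have hmeas : Measurable fun w => ENNReal.ofReal (‖deriv (ev f) w‖ ^ 2 * (1 - ‖w‖ ^ 2)) := by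
      apply ENNReal.measurable_ofReal.comp
      exact (((measurable_deriv (ev f)).norm).pow_const 2).mul (by fun_prop)
    refine (lintegral_mono hpt).trans ?_
    rw [lintegral_add_left (((hmeas.const_mul _)).indicator measurableSet_ball),
      lintegral_indicator measurableSet_ball, lintegral_indicator hGm,
      lintegral_const_mul _ hmeas, lintegral_const_mul _ hmeas]
    apply add_le_add
    · exact mul_le_mul' le_rfl hfup
    · apply mul_le_mul' le_rfl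
      refine (thin_integral hη0 hη1 hs0 hs2 hGm hGb hthin (measurable_deriv (ev f))
        ((differentiableOn_ev f).deriv isOpen_ball)).trans ?_
      exact mul_le_mul' (ENNReal.ofReal_le_ofReal hsm) hfup
  have hfinal : ENNReal.ofReal (Real.pi / 2 * (‖D f‖ ^ 2 - 0 ^ 2)) ≤
      ENNReal.ofReal (δ ^ 2) * ENNReal.ofReal (Real.pi * ‖D‖ ^ 2) +
      (ENNReal.ofReal (α ^ 2 / 16) * ENNReal.ofReal Real.pi +
      ENNReal.ofReal (8 * α ^ 2) * (ENNReal.ofReal (1 / 128) * ENNReal.ofReal Real.pi)) := by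
    refine hLP.trans ((setLIntegral_mono' measurableSet_ball hsplit).trans ?_)
    have hmeas : Measurable fun z => ENNReal.ofReal (‖deriv ψ z‖ ^ 2 * (1 - ‖z‖ ^ 2)) := by
      apply ENNReal.measurable_ofReal.comp
      exact (((measurable_deriv ψ).norm).pow_const 2).mul (by fun_prop)
    rw [lintegral_add_left (hmeas.const_mul _), lintegral_const_mul _ hmeas]
    apply add_le_add
    · exact mul_le_mul' le_rfl hI1
    · exact (hNF F hFm).trans hI2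
  have hpi := Real.pi_pos
  rw [← ENNReal.ofReal_mul (by positivity), ← ENNReal.ofReal_mul (by positivity),
    ← ENNReal.ofReal_mul (by positivity), ← ENNReal.ofReal_mul (by positivity),
    ← ENNReal.ofReal_add (by positivity) (by positivity),
    ← ENNReal.ofReal_add (by positivity) (by positivity),
    ENNReal.ofReal_le_ofReal_iff (by positivity)] at hfinal
  have hδD : δ ^ 2 * ‖D‖ ^ 2 ≤ α ^ 2 / 16 := by
    have h1 : δ * ‖D‖ ≤ α / 4 := by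
      rw [hδ, div_mul_eq_mul_div, div_le_div_iff₀ (by positivity) (by norm_num)]
      nlinarith [norm_nonneg D]
    have h2 : 0 ≤ δ * ‖D‖ := by positivity
    have h3 : (δ * ‖D‖) ^ 2 ≤ (α / 4) ^ 2 := pow_le_pow_left₀ h2 h1 2
    nlinarith
  have hDf2 : (7 / 10 * α) ^ 2 < ‖D f‖ ^ 2 := pow_lt_pow_left₀ hDf (by positivity) (by norm_num)
  have h5 : Real.pi / 2 * (7 / 10 * α) ^ 2 < Real.pi / 2 * ‖D f‖ ^ 2 := by gcongr
  have h6 : δ ^ 2 * (Real.pi * ‖D‖ ^ 2) ≤ Real.pi * (α ^ 2 / 16) := by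
    calc δ ^ 2 * (Real.pi * ‖D‖ ^ 2) = Real.pi * (δ ^ 2 * ‖D‖ ^ 2) := by ring
      _ ≤ _ := by gcongr
  have h7 : 0 < Real.pi * α ^ 2 := by positivity
  nlinarith

end Pool.Agent.Helper59.Hardy
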