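import Mathlib
import Pool.Agent.Helper59.Iter
import Pool.Agent.Helper59.Points

/-! If `C - λ` is right invertible modulo compacts, then `‖Cⁿ‖` is `O(|λ|ⁿ)` on high frequencies. -/

namespace Pool.Agent.Helper59.Hardy

open Complex Set Filter Topology Metric
open scoped ComplexConjugate InnerProductSpace

open Classical in
/-- the big Blaschke product -/
noncomputable def bigB (φ : ℂ → ℂ) (n L : ℕ) (S : Finset ℂ) (Z : ℂ → Finset ℂ) (z : ℂ) : ℂ :=
  ∏ w' ∈ S, ((∏ j ∈ Finset.range n, ∏ ζ ∈ (Z w').image (φ^[j]), b ζ z) *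
    ∏ l ∈ Finset.range L, b (φ^[l + 1] w') z)

section
variable {φ : ℂ → ℂ} {k θ : ℝ} (G : Growth φ k θ)
include G

theorem Growth.bigB_good {n L : ℕ} {S : Finset ℂ} {Z : ℂ → Finset ℂ} (hS : ∀ w ∈ S, ‖w‖ < 1)
    (hZ : ∀ w ∈ S, ∀ ζ ∈ Z w, ‖ζ‖ < 1) : Good (bigB φ n L S Z) := by
  classical
  apply Good.prod
  intro w' hw'
  apply Good.mul
  · apply Good.prod
    intro j _
    apply Good.prod
    intro ζ hζ
    obtain ⟨ξ, hξ, rfl⟩ := Finset.mem_image.1 hζ
    exact Good.b (G.iter_lt j ξ (hZ w' hw' ξ hξ))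
  · apply Good.prod
    intro l _
    exact Good.b (G.iter_lt (l + 1) w' (hS w' hw'))

omit G in
theorem bigB_zero1 {n L : ℕ} {S : Finset ℂ} {Z : ℂ → Finset ℂ} {w : ℂ} (hw : w ∈ S) {j : ℕ}
    (hj : j < n) {ζ : ℂ} (hζ : ζ ∈ Z w) : bigB φ n L S Z (φ^[j] ζ) = 0 := by
  classical
  unfold bigB
  apply Finset.prod_eq_zero hw
  rw [Finset.prod_eq_zero (Finset.mem_range.2 hj), zero_mul]
  exact Finset.prod_eq_zero (Finset.mem_image_of_mem _ hζ) (b_self _)

omit G in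
theorem bigB_zero2 {n L : ℕ} {S : Finset ℂ} {Z : ℂ → Finset ℂ} {w : ℂ} (hw : w ∈ S) {l : ℕ}
    (hl1 : 1 ≤ l) (hl : l ≤ L) : bigB φ n L S Z (φ^[l] w) = 0 := by
  classical
  unfold bigB
  apply Finset.prod_eq_zero hw
  obtain ⟨i, rfl⟩ := Nat.exists_eq_add_of_le' hl1
  rw [Finset.prod_eq_zero (f := fun l => b (φ^[l + 1] w) (φ^[i + 1] w))
    (Finset.mem_range.2 (show i < L by omega)) (b_self _), mul_zero]

/-- the constant in the lower bound -/
noncomputable def dl (k : ℝ) : ℝ := Real.exp (-((4 / (k - 1) + 4) / (3 * (k - 1) / (4 * (k + 1)))))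

theorem Growth.bigB_lower {n L : ℕ} {S : Finset ℂ} {Z : ℂ → Finset ℂ} (hS : ∀ w ∈ S, ‖w‖ < 1)
    (hZ : ∀ w ∈ S, ∀ ζ ∈ Z w, ‖ζ‖ < 1 ∧ φ^[n] ζ = w)
    (hcomp : ∀ w ∈ S, ∀ w' ∈ S, 1 - ‖w‖ ≤ k * (1 - ‖w'‖))
    (hsm : ∀ w ∈ S, 1 - ‖w‖ ≤ (k - 1) / (16 * (k + 1)))
    (hn : ∀ w ∈ S, (1 - ‖w‖) * n ≤ 1 / 2) (hL : ∀ w ∈ S, (1 - ‖w‖) * L ≤ 1 / 2)
    {w : ℂ} (hw : w ∈ S) : dl k ^ S.card ≤ ‖bigB φ n L S Z w‖ := by
  classical
  have hk := G.hk
  have hk1 : 0 < k - 1 := by linarith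
  unfold bigB
  rw [norm_prod, ← Finset.prod_const]
  apply Finset.prod_le_prod
  · intro i _; unfold dl; positivity
  · intro w' hw'
    rw [norm_mul, norm_prod, norm_prod]
    set c := 3 * (k - 1) / (4 * (k + 1)) with hc
    have hc0 : 0 < c := by positivity
    have h1 : Real.exp (-((2 / (k - 1) + 4 * (1 - ‖w'‖) * n) / c)) ≤
        ∏ j ∈ Finset.range n, ‖∏ ζ ∈ (Z w').image (φ^[j]), b ζ w‖ := by
      refine (G.prod_lower (hS w' hw') (hS w hw) (hcomp w' hw' w hw) (hsm w' hw') n).trans ?_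
      rw [← Finset.prod_range_reflect (fun i => ‖b w' (φ^[i + 1] w)‖)]
      apply Finset.prod_le_prod
      · intro j _; positivity
      · intro j hj
        have hj' := Finset.mem_range.1 hj
        have e1 : n - 1 - j + 1 = n - j := by omega
        rw [e1, norm_prod]
        apply littlewood' (G.iter_diff (n - j)) (G.iter_lt (n - j)) (hS w' hw')
        · intro ζ hζ
          obtain ⟨ξ, hξ, rfl⟩ := Finset.mem_image.1 hζ
          exact G.iter_lt j ξ (hZ w' hw' ξ hξ).1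
        · intro ζ hζ
          obtain ⟨ξ, hξ, rfl⟩ := Finset.mem_image.1 hζ
          rw [← Function.iterate_add_apply]
          have e2 : n - j + j = n := by omega
          rw [e2]
          exact (hZ w' hw' ξ hξ).2
        · exact hS w hw
    have h2 : Real.exp (-((2 / (k - 1) + 4 * (1 - ‖w‖) * L) / c)) ≤
        ∏ l ∈ Finset.range L, ‖b (φ^[l + 1] w') w‖ := by
      refine (G.prod_lower (hS w hw) (hS w' hw') (hcomp w hw w' hw') (hsm w hw) L).trans_eq ?_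
      apply Finset.prod_congr rfl
      intro l _
      rw [norm_b_comm]
    calc dl k ≤ Real.exp (-((2 / (k - 1) + 4 * (1 - ‖w'‖) * n) / c)) *
          Real.exp (-((2 / (k - 1) + 4 * (1 - ‖w‖) * L) / c)) := by
          rw [← Real.exp_add]
          unfold dl
          apply Real.exp_le_exp.2
          rw [← hc, ← neg_add, ← add_div]
          apply neg_le_neg
          apply div_le_div_of_nonneg_right _ hc0.le
          have e1 := hn w' hw'
          have e2 := hL w hw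
          have e3 : 4 / (k - 1) = 2 / (k - 1) + 2 / (k - 1) := by ring
          rw [e3]
          linarith
      _ ≤ _ := mul_le_mul h1 h2 (Real.exp_pos _).le (Finset.prod_nonneg fun _ _ => norm_nonneg _)

omit G in
theorem exists_rel {M : Type*} [AddCommGroup M] [Module ℂ M] [Module.Finite ℂ M]
    {S : Finset ℂ} (h : Module.finrank ℂ M < S.card) (V : ℂ → M) :
    ∃ c : ℂ → ℂ, ∑ w ∈ S, c w • V w = 0 ∧ ∃ w ∈ S, c w ≠ 0 := by
  classical
  have h1 : ¬ LinearIndependent ℂ (fun w : S => V w) := by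
    intro hli
    have := hli.fintype_card_le_finrank
    rw [Fintype.card_coe] at this
    omega
  rw [Fintype.not_linearIndependent_iff] at h1
  obtain ⟨g, hg1, ⟨i, hi⟩⟩ := h1
  refine ⟨fun w => if hw : w ∈ S then g ⟨w, hw⟩ else 0, ?_, i, i.2, ?_⟩
  · rw [← hg1, ← Finset.sum_coe_sort]
    apply Finset.sum_congr rfl
    intro w _
    simp
  · simpa using hi

omit G in
/-- choice of the number of further iterates -/
theorem exists_l {κ : ℝ} (hκ : 1 < κ) (n : ℕ) {A B : ℝ} (hA : 0 < A) (hB : 0 < B) :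
    ∃ τ₀ > 0, ∀ τ, 0 < τ → τ < τ₀ → ∃ l : ℕ, 1 / 2 ≤ κ ^ l * (A * τ) ∧ ((n : ℝ) + 2 * l) * (B * τ) ≤ 1 / 2 := by
  have ht := tendsto_pow_const_div_const_pow_of_one_lt 2 hκ
  obtain ⟨N₀, hN₀⟩ := eventually_atTop.1 ((tendsto_order.1 ht).2 (2 * A) (by positivity))
  set ε₀ : ℝ := min (1 / (N₀ + 1)) (1 / (2 * B * (n + 4))) with hε₀
  have hε₀pos : 0 < ε₀ := by positivity
  refine ⟨ε₀ ^ 2, by positivity, fun τ hτ hτ2 => ?_⟩
  set ε := Real.sqrt τ with hε
  have hεpos : 0 < ε := Real.sqrt_pos.2 hτ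
  have hετ : ε ^ 2 = τ := Real.sq_sqrt hτ.le
  have hεle : ε < ε₀ := by
    rw [← hετ] at hτ2
    exact lt_of_pow_lt_pow_left₀ 2 hε₀pos.le hτ2
  have hε1 : ε < 1 / (N₀ + 1) := hεle.trans_le (min_le_left _ _)
  have hε2 : ε < 1 / (2 * B * (n + 4)) := hεle.trans_le (min_le_right _ _)
  have hε3 : ε ≤ 1 := by
    refine hε1.le.trans ?_
    rw [div_le_one (by positivity)]
    have : (0 : ℝ) ≤ N₀ := Nat.cast_nonneg _
    linarith
  set l := ⌈1 / ε⌉₊ with hl
  have hl1 : 1 / ε ≤ l := Nat.le_ceil _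
  have hl2 : (l : ℝ) < 1 / ε + 1 := Nat.ceil_lt_add_one (by positivity)
  have hlN : N₀ ≤ l := by
    have h1 : (N₀ : ℝ) + 1 < 1 / ε := by
      rw [lt_div_iff₀ hεpos]
      rw [lt_div_iff₀ (by positivity)] at hε1
      linarith
    have : (N₀ : ℝ) ≤ l := by linarith
    exact_mod_cast this
  have hlpos : (0 : ℝ) < l := lt_of_lt_of_le (by positivity) hl1
  refine ⟨l, ?_, ?_⟩
  · have h1 := hN₀ l hlN
    have hκl : 0 < κ ^ l := by positivity
    rw [div_lt_iff₀ hκl] at h1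
    have h2 : 1 ≤ l * ε := by rwa [div_le_iff₀ hεpos] at hl1
    have h3 : 1 ≤ (l : ℝ) ^ 2 * τ := by
      rw [← hετ, ← mul_pow]
      exact one_le_pow₀ h2
    have h4 : (l : ℝ) ^ 2 * τ ≤ 2 * A * κ ^ l * τ := by gcongr
    linarith
  · have h1 : (l : ℝ) * τ ≤ ε + ε := by
      calc (l : ℝ) * τ ≤ (1 / ε + 1) * τ := by gcongr
        _ = ε + ε ^ 2 := by rw [← hετ]; field_simp
        _ ≤ ε + ε := by nlinarith
    have h2 : (n : ℝ) * τ ≤ n * ε := by
      have : τ ≤ ε := by rw [← hετ]; nlinarith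
      gcongr
    rw [lt_div_iff₀ (by positivity)] at hε2
    calc ((n : ℝ) + 2 * l) * (B * τ) = B * (n * τ + 2 * (l * τ)) := by ring
      _ ≤ B * (n * ε + 2 * (ε + ε)) := by gcongr
      _ = ε * (2 * B * (n + 4)) / 2 := by ring
      _ ≤ _ := by linarith

end

end Pool.Agent.Helper59.Hardy
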