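import Mathlib
import Pool.Agent.Helper59.ClaimA

/-! If `C - λ` is right invertible modulo compacts, then `‖Cⁿ‖` is `O(|λ|ⁿ)` on high frequencies. -/

namespace Pool.Agent.Helper59.Hardy

open Complex Set Filter Topology Metric
open scoped ComplexConjugate InnerProductSpace

section
variable {φ : ℂ → ℂ} {k θ : ℝ} {C : H2 →L[ℂ] H2} (G : Growth φ k θ)
include G

/-- upper bound for `(C† - λ̄) x`, `x = ∑ c_w G_w` -/
theorem Growth.upper (hC : IsComp φ C) {lam : ℂ} (hlam : lam ≠ 0) {N : ℕ}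
    (hN : θ ^ N ≤ (min 1 ‖lam‖) ^ 2) {n l₀ : ℕ} {S : Finset ℂ} (hS : ∀ w ∈ S, ‖w‖ < 1)
    (hl₀ : ∀ w ∈ S, 1 / 2 ≤ (k ^ 2) ^ l₀ * (1 - ‖w‖))
    {Z : ℂ → Finset ℂ} {h : ℂ → H2}
    (H : ∀ w ∈ S, IsH (φ^[n]) w (Z w) (h w)) (hpos : ∀ w ∈ S, 0 < ‖h w‖) {c : ℂ → ℂ}
    (hc : ∀ i < N, (∑ w ∈ S, c w • (((‖h w‖ : ℝ) : ℂ) • ker (φ^[n + 2 * l₀ + 1] w))) i = 0) :
    ‖C.adjoint (∑ w ∈ S, c w • Gv C lam (n + (n + 2 * l₀)) (((‖h w‖⁻¹ : ℝ) : ℂ) • h w)) -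
      conj lam • (∑ w ∈ S, c w • Gv C lam (n + (n + 2 * l₀)) (((‖h w‖⁻¹ : ℝ) : ℂ) • h w))‖ ≤
      (2 + ‖lam‖) * ∑ w ∈ S, ‖c w‖ := by
  set L := n + 2 * l₀ with hL
  set y : H2 := ∑ w ∈ S, c w • (((‖h w‖ : ℝ) : ℂ) • ker (φ^[L + 1] w)) with hy
  set u : ℂ → H2 := fun w => ((‖h w‖⁻¹ : ℝ) : ℂ) • h w with hu
  have hu1 : ∀ w, ‖u w‖ ≤ 1 := by
    intro w
    simp only [hu]
    rw [norm_smul, Complex.norm_real, Real.norm_of_nonneg (by positivity)]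
    rcases eq_or_ne ‖h w‖ 0 with h0 | h0
    · rw [h0]; simp
    · rw [inv_mul_cancel₀ h0]
  have hGw : ∀ w ∈ S, C.adjoint (Gv C lam (n + L) (u w)) - conj lam • Gv C lam (n + L) (u w) =
      ((conj lam)⁻¹) ^ (n + L) • (((‖h w‖ : ℝ) : ℂ) • ker (φ^[L + 1] w)) - conj lam • u w := by
    intro w hw
    rw [Gv_eq C hlam]
    congr 2
    simp only [hu]
    have h1 := adj_h hC G.maps (hS w hw) (H w hw) (L + 1)
    rw [map_smul, add_assoc, h1, smul_smul]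
    congr 1
    rw [← Complex.ofReal_mul]
    congr 1
    have := (hpos w hw).ne'
    field_simp
  have hsum : C.adjoint (∑ w ∈ S, c w • Gv C lam (n + L) (u w)) -
      conj lam • (∑ w ∈ S, c w • Gv C lam (n + L) (u w)) =
      ((conj lam)⁻¹) ^ (n + L) • y - conj lam • ∑ w ∈ S, c w • u w := by
    rw [map_sum, Finset.smul_sum, ← Finset.sum_sub_distrib, hy, Finset.smul_sum, Finset.smul_sum,
      ← Finset.sum_sub_distrib]
    apply Finset.sum_congr rfl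
    intro w hw
    rw [map_smul, smul_comm (conj lam), ← smul_sub, hGw w hw, smul_sub, smul_comm (c w),
      smul_comm (c w) (conj lam)]
  change ‖C.adjoint (∑ w ∈ S, c w • Gv C lam (n + L) (u w)) -
      conj lam • (∑ w ∈ S, c w • Gv C lam (n + L) (u w))‖ ≤ _
  rw [hsum]
  -- bound of y
  have hq0 : 0 < min 1 ‖lam‖ := lt_min one_pos (norm_pos_iff.2 hlam)
  set q := min 1 ‖lam‖ with hq
  have hq1 : q ≤ 1 := min_le_left _ _
  have hqlam : q ≤ ‖lam‖ := min_le_right _ _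
  have hlampos : 0 < ‖lam‖ := norm_pos_iff.2 hlam
  have hyP : P N y = y := P_eq_self hc
  have hθ0 := G.hθ0
  have hyb : ‖y‖ ≤ 2 * q ^ (2 * (n + l₀ + 1)) * ∑ w ∈ S, ‖c w‖ := by
    rw [← hyP, hy, map_sum, Finset.mul_sum]
    refine (norm_sum_le _ _).trans (Finset.sum_le_sum fun w hw => ?_)
    have e1 : L + 1 = l₀ + (n + l₀ + 1) := by omega
    have h1 := G.iter_small (hS w hw) (hl₀ w hw) (n + l₀ + 1)
    rw [← e1] at h1
    have hθp : θ ^ (n + l₀ + 1) ≤ 1 := pow_le_one₀ hθ0.le G.hθ1.le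
    have h2 : ‖φ^[L + 1] w‖ ≤ 1 / 2 := h1.trans (by linarith)
    rw [map_smul, map_smul, norm_smul, norm_smul, norm_P_ker (by linarith), Complex.norm_real,
      Real.norm_of_nonneg (norm_nonneg _)]
    have h3 : ‖φ^[L + 1] w‖ ^ N ≤ q ^ (2 * (n + l₀ + 1)) := by
      calc ‖φ^[L + 1] w‖ ^ N ≤ (θ ^ (n + l₀ + 1)) ^ N := by
            apply pow_le_pow_left₀ (norm_nonneg _)
            have : 0 ≤ θ ^ (n + l₀ + 1) := by positivity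
            linarith
        _ = (θ ^ N) ^ (n + l₀ + 1) := by rw [← pow_mul, ← pow_mul, mul_comm]
        _ ≤ (q ^ 2) ^ (n + l₀ + 1) := by gcongr
        _ = _ := by rw [← pow_mul]
    have h4 := norm_ker_le_two h2
    have h5 := (H w hw).norm_le_one
    calc ‖c w‖ * (‖h w‖ * (‖φ^[L + 1] w‖ ^ N * ‖ker (φ^[L + 1] w)‖))
        ≤ ‖c w‖ * (1 * (q ^ (2 * (n + l₀ + 1)) * 2)) := by gcongr
      _ = _ := by ring
  have hfac : ‖((conj lam)⁻¹) ^ (n + L)‖ * q ^ (2 * (n + l₀ + 1)) ≤ 1 := by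
    rw [norm_pow, norm_inv, RCLike.norm_conj, inv_pow, inv_mul_le_iff₀ (by positivity), mul_one]
    calc q ^ (2 * (n + l₀ + 1)) ≤ q ^ (n + L) := pow_le_pow_of_le_one hq0.le hq1 (by omega)
      _ ≤ ‖lam‖ ^ (n + L) := by gcongr
  have hA0 : 0 ≤ ∑ w ∈ S, ‖c w‖ := Finset.sum_nonneg fun _ _ => norm_nonneg _
  have hy2 : ‖((conj lam)⁻¹) ^ (n + L) • y‖ ≤ 2 * ∑ w ∈ S, ‖c w‖ := by
    rw [norm_smul]
    calc ‖((conj lam)⁻¹) ^ (n + L)‖ * ‖y‖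
        ≤ ‖((conj lam)⁻¹) ^ (n + L)‖ * (2 * q ^ (2 * (n + l₀ + 1)) * ∑ w ∈ S, ‖c w‖) := by gcongr
      _ = 2 * (‖((conj lam)⁻¹) ^ (n + L)‖ * q ^ (2 * (n + l₀ + 1))) * ∑ w ∈ S, ‖c w‖ := by ring
      _ ≤ 2 * 1 * ∑ w ∈ S, ‖c w‖ := by gcongr
      _ = _ := by ring
  have hu2 : ‖conj lam • ∑ w ∈ S, c w • u w‖ ≤ ‖lam‖ * ∑ w ∈ S, ‖c w‖ := by
    rw [norm_smul, RCLike.norm_conj]
    gcongr
    refine (norm_sum_le _ _).trans (Finset.sum_le_sum fun w hw => ?_)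
    rw [norm_smul]
    have := hu1 w
    have := norm_nonneg (c w)
    nlinarith
  refine (norm_sub_le _ _).trans ?_
  linarith

theorem Growth.claimA (hC : IsComp φ C) {lam : ℂ} (hlam : lam ≠ 0) {K₀ : ℕ} {s₀ : ℝ}
    (hs₀ : 0 < s₀)
    (hco : ∀ x : H2, (∀ j < K₀, x j = 0) → ‖x‖ ≤ s₀ * ‖C.adjoint x - conj lam • x‖) :
    ∃ C' > 0, ∀ (n : ℕ) (α : ℝ), 0 < α → (∀ K, α ≤ ‖C ^ n * P K‖) →
      (∃ K, ‖C ^ n * P K‖ ^ 2 ≤ 2 * α ^ 2) → α ≤ C' * ‖lam‖ ^ n := by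
  classical
  have hk := G.hk
  have hk1 : 0 < k - 1 := by linarith
  have hlampos : 0 < ‖lam‖ := norm_pos_iff.2 hlam
  have hq0 : 0 < min 1 ‖lam‖ := lt_min one_pos hlampos
  obtain ⟨N, hN⟩ := exists_pow_lt_of_lt_one (show 0 < (min 1 ‖lam‖) ^ 2 by positivity) G.hθ1
  set m := K₀ + N + 1 with hm
  set η : ℝ := (k - 1) / (k + 1) with hη
  have hη0 : 0 < η := by positivity
  have hη1 : η < 1 := by rw [hη, div_lt_one (by linarith)]; linarith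
  have hηk : (1 + η) = k * (1 - η) := by rw [hη]; field_simp; ring
  obtain ⟨s, hs0, hs2, hpoints⟩ := exists_points m hη0 hη1
  have hdl : 0 < dl k := Real.exp_pos _
  refine ⟨6 * (s₀ * (2 + ‖lam‖) * m) / (s ^ (m - 1) * dl k ^ m), by positivity, ?_⟩
  intro n α hα hlow hup
  -- choice of t₀
  have hη' : 0 < 1 - η := by linarith
  obtain ⟨τ₀, hτ₀, hl⟩ := exists_l (κ := k ^ 2) (one_lt_pow₀ hk (by norm_num)) n
    (A := 1 / (1 + η)) (B := 1 / (1 - η)) (by positivity) (by positivity)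
  set t₀ : ℝ := min (min ((k - 1) / (16 * (k + 1))) (8 / α ^ 2)) (τ₀ / (1 + η)) with ht₀
  have ht₀pos : 0 < t₀ := by positivity
  obtain ⟨v, S, hScard, hS1, hSsep, hSZ⟩ := hpoints (φ^[n]) (G.iter_diff n) (G.iter_lt n)
    (G.iter_zero n) (C ^ n) (hC.pow G.maps n) α hα hlow hup t₀ ht₀pos
  choose! Z hZ1 hZ2 using hSZ
  have hcone : ∀ w ∈ S, ‖w‖ < 1 ∧ ‖v‖ < 1 ∧ (1 - η) * (1 - ‖w‖) ≤ 1 - ‖v‖ ∧
      1 - ‖v‖ ≤ (1 + η) * (1 - ‖w‖) := fun w hw => cone_bounds hη0 hη1 (hS1 w hw).1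
  have hSlt : ∀ w ∈ S, ‖w‖ < 1 := fun w hw => (hcone w hw).1
  have hSne : S.Nonempty := by
    rw [← Finset.card_pos, hScard]; omega
  obtain ⟨w₀, hw₀⟩ := hSne
  have hvlt : ‖v‖ < 1 := (hcone w₀ hw₀).2.1
  -- choice of l₀
  obtain ⟨l₀, hl1, hl2⟩ := hl (1 - ‖v‖) (by linarith) (by
    have h1 := (hcone w₀ hw₀).2.2.2
    have h2 := (hS1 w₀ hw₀).2
    have h3 : t₀ ≤ τ₀ / (1 + η) := min_le_right _ _
    have h4 : 0 < 1 + η := by linarith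
    calc 1 - ‖v‖ ≤ (1 + η) * (1 - ‖w₀‖) := h1
      _ < (1 + η) * (τ₀ / (1 + η)) := by
          apply mul_lt_mul_of_pos_left _ h4
          exact h2.trans_le h3
      _ = τ₀ := by field_simp)
  set L := n + 2 * l₀ with hL
  have hcmp : ∀ w ∈ S, ∀ w' ∈ S, 1 - ‖w‖ ≤ k * (1 - ‖w'‖) := by
    intro w hw w' hw'
    have h1 := (hcone w hw).2.2.1
    have h2 := (hcone w' hw').2.2.2
    rw [hηk] at h2
    have h3 : (1 - η) * (1 - ‖w‖) ≤ (1 - η) * (k * (1 - ‖w'‖)) := by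
      refine (h1.trans h2).trans_eq ?_
      ring
    exact le_of_mul_le_mul_left h3 hη'
  have hsm : ∀ w ∈ S, 1 - ‖w‖ ≤ (k - 1) / (16 * (k + 1)) := by
    intro w hw
    exact (hS1 w hw).2.le.trans ((min_le_left _ _).trans (min_le_left _ _))
  have hsm2 : ∀ w ∈ S, 1 - ‖w‖ ≤ 8 / α ^ 2 := by
    intro w hw
    exact (hS1 w hw).2.le.trans ((min_le_left _ _).trans (min_le_right _ _))
  have hnL : ∀ w ∈ S, (1 - ‖w‖) * (n + 2 * l₀ : ℝ) ≤ 1 / 2 := by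
    intro w hw
    have h1 := (hcone w hw).2.2.1
    have h2 : 1 - ‖w‖ ≤ 1 / (1 - η) * (1 - ‖v‖) := by
      rw [one_div, ← div_eq_inv_mul, le_div_iff₀ hη']
      linarith
    have h3 : (0 : ℝ) ≤ (n : ℝ) + 2 * l₀ := by positivity
    calc (1 - ‖w‖) * (n + 2 * l₀ : ℝ) ≤ 1 / (1 - η) * (1 - ‖v‖) * (n + 2 * l₀ : ℝ) := by gcongr
      _ = (n + 2 * l₀ : ℝ) * (1 / (1 - η) * (1 - ‖v‖)) := by ring
      _ ≤ 1 / 2 := hl2
  have hl0w : ∀ w ∈ S, 1 / 2 ≤ (k ^ 2) ^ l₀ * (1 - ‖w‖) := by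
    intro w hw
    refine hl1.trans ?_
    have h2 := (hcone w hw).2.2.2
    have h3 : 1 / (1 + η) * (1 - ‖v‖) ≤ 1 - ‖w‖ := by
      rw [one_div, inv_mul_le_iff₀ (by linarith)]
      exact h2
    gcongr
  -- the vectors h
  have hex : ∀ w ∈ S, ∃ h, IsH (φ^[n]) w (Z w) h := fun w hw => exists_isH (hZ1 w hw)
  choose! h H using hex
  have hh2 : ∀ w ∈ S, α ^ 2 / 32 * (1 - ‖w‖ ^ 2) ≤ ‖h w‖ ^ 2 := by
    intro w hw
    have h1 := prod_bound (Z w) (H w hw).lt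
    have h2 := (H w hw).low
    have h3 := hZ2 w hw
    have h4 : α ^ 2 / 16 * (1 - ‖w‖ ^ 2) ≤ 1 := by
      have h5 := hsm2 w hw
      have h6 : 1 - ‖w‖ ^ 2 ≤ 2 * (1 - ‖w‖) := by nlinarith [sq_nonneg (1 - ‖w‖)]
      calc α ^ 2 / 16 * (1 - ‖w‖ ^ 2) ≤ α ^ 2 / 16 * (2 * (8 / α ^ 2)) := by
            gcongr
            linarith
        _ = 1 := by field_simp; norm_num
    have h7 : α ^ 2 / 16 * (1 - ‖w‖ ^ 2) ≤ min 1 (∑ ζ ∈ Z w, (1 - ‖ζ‖ ^ 2)) := le_min h4 h3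
    linarith
  have hpos : ∀ w ∈ S, 0 < ‖h w‖ := by
    intro w hw
    have h1 := hh2 w hw
    have h2 : 0 < 1 - ‖w‖ ^ 2 := by nlinarith [norm_nonneg w, hSlt w hw]
    have h3 : 0 < α ^ 2 / 32 * (1 - ‖w‖ ^ 2) := by positivity
    refine lt_of_le_of_ne (norm_nonneg _) (fun h0 => ?_)
    rw [← h0] at h1
    linarith
  have hhk : ∀ w ∈ S, α / 6 ≤ ‖h w‖ * ‖ker w‖ := by
    intro w hw
    have h2 : 0 < 1 - ‖w‖ ^ 2 := by nlinarith [norm_nonneg w, hSlt w hw]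
    apply le_of_sq_le_sq _ (by positivity)
    rw [mul_pow, norm_ker_sq (hSlt w hw), ← div_eq_mul_inv, le_div_iff₀ h2]
    have h3 := hh2 w hw
    have h4 : 0 < α ^ 2 * (1 - ‖w‖ ^ 2) := by positivity
    nlinarith
  -- the relation
  set V : ℂ → (Fin (K₀ + N) → ℂ) := fun w i =>
    if (i : ℕ) < K₀ then (Gv C lam (n + L) (((‖h w‖⁻¹ : ℝ) : ℂ) • h w)) i
    else ((((‖h w‖ : ℝ) : ℂ) • ker (φ^[L + 1] w) : H2)) (i - K₀) with hV
  obtain ⟨c, hc1, w₁, hw₁, hc2⟩ := exists_rel (S := S) (M := Fin (K₀ + N) → ℂ) (by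
    rw [Module.finrank_fin_fun, hScard]; omega) V
  set x : H2 := ∑ w ∈ S, c w • Gv C lam (n + L) (((‖h w‖⁻¹ : ℝ) : ℂ) • h w) with hx
  have hcoef : ∀ (g : ℂ → H2) (i : ℕ), (∑ w ∈ S, c w • g w) i = ∑ w ∈ S, c w * (g w) i := by
    intro g i
    rw [lp.coeFn_sum, Finset.sum_apply]
    apply Finset.sum_congr rfl
    intro w _
    simp
  have hx0 : ∀ j < K₀, x j = 0 := by
    intro j hj
    have h1 := congrFun hc1 ⟨j, by omega⟩
    rw [hx, hcoef]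
    rw [Finset.sum_apply] at h1
    simpa [hV, hj] using h1
  have hy0 : ∀ i < N, (∑ w ∈ S, c w • (((‖h w‖ : ℝ) : ℂ) • ker (φ^[n + 2 * l₀ + 1] w))) i = 0 := by
    intro i hi
    have h1 := congrFun hc1 ⟨K₀ + i, by omega⟩
    rw [hcoef]
    rw [Finset.sum_apply] at h1
    simpa [hV, hL] using h1
  have hup2 := G.upper hC hlam hN.le hSlt hl0w H hpos hy0
  have hx1 : ‖x‖ ≤ s₀ * ((2 + ‖lam‖) * ∑ w ∈ S, ‖c w‖) :=
    (hco x hx0).trans (by gcongr)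
  -- lower bound
  have hBlow : ∀ w ∈ S, α / 6 * (s ^ (m - 1) * dl k ^ m) ≤
      ‖h w‖ * ‖ker w‖ * (‖bigB φ n L S Z w‖ * ∏ w' ∈ S.erase w, ‖b w' w‖) := by
    intro w hw
    have h1 := G.bigB_lower (n := n) (L := L) hSlt hZ1 hcmp hsm (fun w hw => by
      have := hnL w hw
      have h3 : 0 ≤ (1 - ‖w‖) * (2 * l₀ : ℝ) := by
        have := hSlt w hw
        have h4 : 0 ≤ 1 - ‖w‖ := by linarith
        positivity
      have h5 : (1 - ‖w‖) * (n + 2 * l₀ : ℝ) = (1 - ‖w‖) * n + (1 - ‖w‖) * (2 * l₀ : ℝ) := by ring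
      linarith) (fun w hw => by
      have := hnL w hw
      rw [hL]; push_cast; exact this) hw
    rw [hScard] at h1
    have h2 : s ^ (m - 1) ≤ ∏ w' ∈ S.erase w, ‖b w' w‖ := by
      rw [← hScard, ← Finset.card_erase_of_mem hw, ← Finset.prod_const]
      apply Finset.prod_le_prod
      · intro i _; exact hs0.le
      · intro w' hw'
        exact hSsep w' (Finset.mem_of_mem_erase hw') w hw (Finset.ne_of_mem_erase hw')
    have h3 := hhk w hw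
    calc α / 6 * (s ^ (m - 1) * dl k ^ m) = α / 6 * (dl k ^ m * s ^ (m - 1)) := by ring
      _ ≤ ‖h w‖ * ‖ker w‖ * (‖bigB φ n L S Z w‖ * ∏ w' ∈ S.erase w, ‖b w' w‖) := by gcongr
  have hcore := core hC G.maps hlam hSlt H hpos (G.bigB_good hSlt (fun w hw ζ hζ => (hZ1 w hw ζ hζ).1))
    (fun w hw j hj ζ hζ => bigB_zero1 (φ := φ) (n := n) (L := L) (S := S) (Z := Z) hw hj hζ)
    (fun w hw l hl1 hl2 => bigB_zero2 (φ := φ) (n := n) (L := L) (S := S) (Z := Z) hw hl1 hl2)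
    (ε := α / 6 * (s ^ (m - 1) * dl k ^ m)) (by positivity) hBlow c
  set A₁ := ∑ w ∈ S, ‖c w‖ with hA₁
  set A₂ := ∑ w ∈ S, ‖c w‖ ^ 2 with hA₂
  have hA₂pos : 0 < A₂ := by
    apply Finset.sum_pos' (fun _ _ => by positivity)
    exact ⟨w₁, hw₁, by positivity⟩
  have hA : A₁ ^ 2 ≤ m * A₂ := by
    have := sq_sum_le_card_mul_sum_sq (s := S) (f := fun w => ‖c w‖)
    rw [hScard] at this
    exact_mod_cast this
  have hA1 : 0 ≤ A₁ := Finset.sum_nonneg fun _ _ => norm_nonneg _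
  have hfin : α / 6 * (s ^ (m - 1) * dl k ^ m) * A₂ ≤ ‖lam‖ ^ n * (s₀ * (2 + ‖lam‖) * m) * A₂ := by
    calc α / 6 * (s ^ (m - 1) * dl k ^ m) * A₂ ≤ ‖lam‖ ^ n * ‖x‖ * A₁ := hcore
      _ ≤ ‖lam‖ ^ n * (s₀ * ((2 + ‖lam‖) * A₁)) * A₁ := by gcongr
      _ = ‖lam‖ ^ n * (s₀ * (2 + ‖lam‖)) * A₁ ^ 2 := by ring
      _ ≤ ‖lam‖ ^ n * (s₀ * (2 + ‖lam‖)) * (m * A₂) := by gcongr
      _ = _ := by ring
  have hfin2 := le_of_mul_le_mul_right hfin hA₂pos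
  rw [div_mul_eq_mul_div, le_div_iff₀ (by positivity)]
  linarith

end

end Pool.Agent.Helper59.Hardy
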