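import Mathlib
import Pool.Agent.Helper65.RatComp

/-! The measure of maximal entropy of a rational function. -/

open Set MeasureTheory

namespace Pool.Agent.Helper59.EP

open Pool.Agent.Helper65

/-- `μ` is the measure of maximal entropy of the rational function `P` of degree at least two,
in the characterisation of Freire, Lopes and Mañé: the Borel probability measure (here on `ℂ`,
the point at infinity has measure zero) without atoms and with constant Jacobian `deg P`. -/
structure IsMME (P : RatFunc ℂ) (μ : Measure ℂ) : Prop where
  prob : μ univ = 1
  noAtoms : ∀ z, μ {z} = 0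
  jac : ∀ A : Set ℂ, MeasurableSet A → (∀ z ∈ A, P.denom.eval z ≠ 0) →
    InjOn (fun z => P.eval (RingHom.id ℂ) z) A →
    μ ((fun z => P.eval (RingHom.id ℂ) z) '' A) = deg P * μ A

end Pool.Agent.Helper59.EP
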