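import Mathlib
import Pool.Agent.Helper65.Base
import Pool.Agent.Helper65.Wd
import Pool.Agent.Helper56.Harm.A

/-! Exceptional lines of a lift; the cones `XiC`. -/

open Complex Metric Set Filter Topology InnerProductSpace

namespace Pool.Agent.Helper59.EP

open Pool.Agent.Helper65

/-- the line of `η` is the only line mapped to the line of `ξ` -/
def Only (f : C2 → C2) (ξ η : C2) : Prop := ∀ v, v ≠ 0 → wd (f v) ξ = 0 → wd v η = 0

lemma unit_ne {η : C2} (h : ‖η‖ = 1) : η ≠ 0 := by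
  rintro rfl
  simp at h

lemma par_lift {b : ℕ} {B : C2 → C2} (hB : IsLift b B) {v w : C2} (h : wd v w = 0) :
    wd (B v) (B w) = 0 := by
  by_cases hw : w = 0
  · subst hw
    by_cases hv : v = 0
    · rw [hv, wd_self]
    · have : (0 : C2) = (0 : ℂ) • v := by simp
      rw [this, hB.hom, wd_smul_right, wd_self, mul_zero]
  · obtain ⟨t, rfl⟩ := (par_iff hw).1 h
    rw [hB.hom, wd_smul_left, wd_self, mul_zero]

lemma exists_pre {d : ℕ} (hd : 1 ≤ d) {f : C2 → C2} (hf : IsLift d f) {ξ : C2} (hξ : ξ ≠ 0) :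
    ∃ v, v ≠ 0 ∧ wd (f v) ξ = 0 := by
  obtain ⟨κ, η, hκ, hη, h⟩ := hf.fac ξ hξ
  refine ⟨η ⟨0, by omega⟩, unit_ne (hη _), ?_⟩
  rw [h, Finset.prod_eq_zero (Finset.mem_univ (⟨0, by omega⟩ : Fin d)) (wd_self _), mul_zero]

lemma only_pow {d : ℕ} {f : C2 → C2} (hf : IsLift d f) {ξ η : C2} (hξ : ξ ≠ 0) (hη : η ≠ 0)
    (h : Only f ξ η) : ∃ κ : ℂ, κ ≠ 0 ∧ ∀ v, wd (f v) ξ = κ * (wd v η) ^ d := by
  obtain ⟨κ, e, hκ, he, hfac⟩ := hf.fac ξ hξ
  have h1 : ∀ i, ∃ t : ℂ, t ≠ 0 ∧ e i = t • η := by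
    intro i
    refine (par_iff' (unit_ne (he i)) hη).1 (h _ (unit_ne (he i)) ?_)
    rw [hfac, Finset.prod_eq_zero (Finset.mem_univ i) (wd_self _), mul_zero]
  choose t ht0 ht using h1
  refine ⟨κ * ∏ i, t i, mul_ne_zero hκ (Finset.prod_ne_zero_iff.2 fun i _ => ht0 i), fun v => ?_⟩
  rw [hfac, mul_assoc]
  congr 1
  rw [Finset.prod_congr rfl fun i _ => by rw [ht i, wd_smul_right], Finset.prod_mul_distrib]
  simp

lemma only_of_pow {d : ℕ} {f : C2 → C2} {ξ η : C2} {κ : ℂ} (hκ : κ ≠ 0)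
    (h : ∀ v, wd (f v) ξ = κ * (wd v η) ^ d) : Only f ξ η := by
  intro v _ h1
  rw [h] at h1
  rcases mul_eq_zero.1 h1 with h2 | h2
  · exact absurd h2 hκ
  · exact eq_zero_of_pow_eq_zero h2

lemma three {d : ℕ} (hd : 2 ≤ d) {f : C2 → C2} (hf : IsLift d f) {a b c x y z : C2}
    (ha : a ≠ 0) (hb : b ≠ 0) (hc : c ≠ 0) (hx : x ≠ 0) (hy : y ≠ 0) (hz : z ≠ 0)
    (h1 : Only f a x) (h2 : Only f b y) (h3 : Only f c z) :
    wd a b = 0 ∨ wd a c = 0 ∨ wd b c = 0 := by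
  by_contra hcon
  push Not at hcon
  obtain ⟨hab, hac, hbc⟩ := hcon
  obtain ⟨k1, hk1, e1⟩ := only_pow hf ha hx h1
  obtain ⟨k2, hk2, e2⟩ := only_pow hf hb hy h2
  obtain ⟨k3, hk3, e3⟩ := only_pow hf hc hz h3
  have hfx : wd (f x) a = 0 := by rw [e1, wd_self, zero_pow (by omega), mul_zero]
  have hfy : wd (f y) b = 0 := by rw [e2, wd_self, zero_pow (by omega), mul_zero]
  have hfz : wd (f z) c = 0 := by rw [e3, wd_self, zero_pow (by omega), mul_zero]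
  have key : ∀ {p q r s : C2}, p ≠ 0 → q ≠ 0 → wd (f p) r = 0 → wd (f q) s = 0 → wd r s ≠ 0 →
      wd p q ≠ 0 := by
    intro p q r s hp hq h1 h2 h3 h4
    apply h3
    have h5 := par_lift hf h4
    have h6 : wd (f p) s = 0 := par_trans (hf.nz q hq) h5 h2
    exact par_trans (hf.nz p hp) (wd_eq_zero_comm.1 h1) h6
  have hxy : wd x y ≠ 0 := key hx hy hfx hfy hab
  have hxz : wd x z ≠ 0 := key hx hz hfx hfz hac
  have hyz : wd y z ≠ 0 := key hy hz hfy hfz hbc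
  -- the identity
  have hid : ∀ v, wd a c * (k2 * (wd v y) ^ d) =
      wd a b * (k3 * (wd v z) ^ d) + wd b c * (k1 * (wd v x) ^ d) := by
    intro v
    rw [← e1, ← e2, ← e3]
    have := congrArg (wd (f v)) (wd_plucker a b c)
    rw [wd_add_right, wd_smul_right, wd_smul_right, wd_smul_right] at this
    exact this
  have hid2 : ∀ t : ℂ, wd a c * (k2 * (wd x y) ^ d) =
      wd a b * (k3 * (wd x z + t * wd y z) ^ d) + wd b c * (k1 * (t * wd y x) ^ d) := by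
    intro t
    have := hid (x + t • y)
    rw [wd_add_left, wd_add_left, wd_add_left, wd_smul_left, wd_smul_left, wd_smul_left,
      wd_self, wd_self, mul_zero, add_zero, zero_add] at this
    exact this
  set q := wd x z with hq
  set r := wd y z with hr
  set s := wd y x with hs
  have hs0 : s ≠ 0 := fun h => hxy (wd_eq_zero_comm.1 h)
  set t0 : ℂ := -q / r with ht0
  have ht00 : t0 ≠ 0 := by
    rw [ht0]
    exact div_ne_zero (neg_ne_zero.2 hxz) hyz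
  have hD : HasDerivAt (fun t : ℂ => wd a b * (k3 * (q + t * r) ^ d) + wd b c * (k1 * (t * s) ^ d))
      (wd a b * (k3 * (d * (q + t0 * r) ^ (d - 1) * r)) + wd b c * (k1 * (d * (t0 * s) ^ (d - 1) * s)))
      t0 := by
    have g1 : HasDerivAt (fun t : ℂ => q + t * r) r t0 := by
      simpa using ((hasDerivAt_id t0).mul_const r).const_add q
    have g2 : HasDerivAt (fun t : ℂ => t * s) s t0 := by
      simpa using (hasDerivAt_id t0).mul_const s
    exact (((g1.pow d).const_mul k3).const_mul (wd a b)).add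
      (((g2.pow d).const_mul k1).const_mul (wd b c))
  have hD2 : HasDerivAt (fun t : ℂ => wd a b * (k3 * (q + t * r) ^ d) + wd b c * (k1 * (t * s) ^ d))
      0 t0 := by
    have h5 : (fun t : ℂ => wd a b * (k3 * (q + t * r) ^ d) + wd b c * (k1 * (t * s) ^ d)) =
        fun _ => wd a c * (k2 * (wd x y) ^ d) := by
      funext t
      exact (hid2 t).symm
    rw [h5]
    exact hasDerivAt_const _ _
  have h6 := hD.unique hD2
  have h7 : q + t0 * r = 0 := by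
    rw [ht0]
    field_simp
    ring
  rw [h7, zero_pow (by omega : d - 1 ≠ 0)] at h6
  simp only [mul_zero, zero_mul, zero_add] at h6
  have hd0 : (d : ℂ) ≠ 0 := by
    have : d ≠ 0 := by omega
    exact_mod_cast this
  have : wd b c * (k1 * (d * (t0 * s) ^ (d - 1) * s)) ≠ 0 :=
    mul_ne_zero hbc (mul_ne_zero hk1 (mul_ne_zero (mul_ne_zero hd0
      (pow_ne_zero _ (mul_ne_zero ht00 hs0))) hs0))
  exact this h6

lemma only_comp {f g : C2 → C2} {ξ η ζ : C2} (hg : ∀ v, v ≠ 0 → g v ≠ 0) (h1 : Only f ξ η)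
    (h2 : Only g η ζ) : Only (fun v => f (g v)) ξ ζ := by
  intro v hv h
  exact h2 v hv (h1 _ (hg v hv) h)

lemma only_congr {f : C2 → C2} {ξ η ξ' η' : C2} (hξ' : ξ' ≠ 0)
    (hη : η ≠ 0) (h1 : wd ξ ξ' = 0) (h2 : wd η η' = 0) (h : Only f ξ η) : Only f ξ' η' := by
  intro v hv h3
  have h4 : wd (f v) ξ = 0 := par_trans hξ' h3 (wd_eq_zero_comm.1 h1)
  exact par_trans hη (h v hv h4) h2

lemma only_image {d : ℕ} (hd : 1 ≤ d) {f : C2 → C2} (hf : IsLift d f) {ξ η : C2} (hξ : ξ ≠ 0)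
    (h : Only f ξ η) : wd (f η) ξ = 0 := by
  obtain ⟨v, hv, hv1⟩ := exists_pre hd hf hξ
  have h1 := par_lift hf (h v hv hv1)
  exact par_trans (hf.nz v hv) (wd_eq_zero_comm.1 h1) hv1

lemma only_split {a b : ℕ} (hb : 1 ≤ b) {f g : C2 → C2} (ha : 1 ≤ a) (hf : IsLift a f)
    (hg : IsLift b g) {ξ η : C2} (hξ : ξ ≠ 0) (hη : η ≠ 0) (h : Only (fun v => f (g v)) ξ η) :
    Only f ξ (g η) ∧ Only g (g η) η := by
  have h0 : wd (f (g η)) ξ = 0 :=
    only_image (Nat.mul_pos ha hb) (isLift_comp hf hg) hξ h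
  constructor
  · intro v hv hv1
    obtain ⟨w, hw, hw1⟩ := exists_pre hb hg hv
    have h1 : wd (f (g w)) ξ = 0 := par_trans (hf.nz v hv) (par_lift hf hw1) hv1
    have h2 := par_lift hg (h w hw h1)
    exact par_trans (hg.nz w hw) (wd_eq_zero_comm.1 hw1) h2
  · intro w hw hw1
    apply h w hw
    exact par_trans (hf.nz _ (hg.nz η hη)) (par_lift hf hw1) h0

lemma only_iter {f : C2 → C2} (hf : ∀ v, v ≠ 0 → f v ≠ 0) {ξ : C2} (h : Only f ξ ξ) (n : ℕ) :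
    Only (f^[n]) ξ ξ := by
  induction n with
  | zero => intro v _ h1; simpa using h1
  | succ n ih =>
    rw [Function.iterate_succ']
    exact only_comp (f := f) (g := f^[n]) (iterate_nz hf n) h ih

/-- totally ramified values of `f^[6]` are exceptional lines -/
lemma self_only {d : ℕ} (hd : 2 ≤ d) {f : C2 → C2} (hf : IsLift d f) {ξ η : C2} (hξ : ξ ≠ 0)
    (hη : η ≠ 0) (h : Only (f^[6]) ξ η) : Only (f^[6]) ξ ξ := by
  have hi : ∀ n, f^[n] η ≠ 0 := fun n => iterate_nz hf.nz n η hη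
  have hL : ∀ n, IsLift (d ^ n) (f^[n]) := isLift_iterate hf
  have hpos : ∀ n, 1 ≤ d ^ n := fun n => Nat.one_le_pow _ _ (by omega)
  have hd1 : 1 ≤ d := by omega
  obtain ⟨s1, r1⟩ := only_split (f := f) (g := f^[5]) (hpos 5) hd1 hf (hL 5) hξ hη
    (by rw [Function.iterate_succ'] at h; exact h)
  obtain ⟨s2, r2⟩ := only_split (f := f) (g := f^[4]) (hpos 4) hd1 hf (hL 4) (hi 5) hη
    (by rw [Function.iterate_succ' f 4] at r1; rw [Function.iterate_succ' f 4]; exact r1)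
  obtain ⟨s3, r3⟩ := only_split (f := f) (g := f^[3]) (hpos 3) hd1 hf (hL 3) (hi 4) hη
    (by rw [Function.iterate_succ' f 3] at r2; rw [Function.iterate_succ' f 3]; exact r2)
  have hcase1 : wd ξ (f^[5] η) = 0 → Only (f^[6]) ξ ξ := by
    intro hp
    apply only_iter hf.nz
    exact only_congr hξ (hi 5) (wd_self _) (wd_eq_zero_comm.1 hp) s1
  rcases three hd hf hξ (hi 5) (hi 4) (hi 5) (hi 4) (hi 3) s1 s2 s3 with hp | hp | hp
  · exact hcase1 hp
  · have h1 : Only f (f^[5] η) ξ := only_congr (hi 5) (hi 4) (wd_self _) (wd_eq_zero_comm.1 hp) s2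
    have h2 : Only (fun v => f (f v)) ξ ξ := only_comp hf.nz s1 h1
    have h3 : Only (f^[2]) ξ ξ := h2
    have h4 := only_iter (iterate_nz hf.nz 2) h3 3
    rw [← Function.iterate_mul] at h4
    exact h4
  · apply hcase1
    -- f^[5] η ∥ f^[4] η
    have h1 : wd (f (f^[5] η)) ξ = 0 := only_image hd1 hf hξ s1
    have h2 : wd (f (f^[4] η)) (f^[5] η) = 0 := only_image hd1 hf (hi 5) s2
    have h3 := par_lift hf hp
    have h4 : wd ξ (f (f^[4] η)) = 0 := par_trans (hf.nz _ (hi 5)) (wd_eq_zero_comm.1 h1) h3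
    exact par_trans (hf.nz _ (hi 4)) h4 h2

/-- the cone of lines at distance at least `c` from the exceptional lines -/
def XiC (g : C2 → C2) (c : ℝ) : Set C2 :=
  {ξ | ∀ ε, ‖ε‖ = 1 → Only g ε ε → c * ‖ξ‖ ≤ ‖wd ξ ε‖}

lemma exists_test {ε : C2} (h : ‖ε‖ = 1) : ∃ v : C2, ‖v‖ = 1 ∧ ‖wd v ε‖ = 1 := by
  have hm : max ‖ε.1‖ ‖ε.2‖ = 1 := h
  rcases max_choice ‖ε.1‖ ‖ε.2‖ with h1 | h1
  · refine ⟨(0, 1), by simp [Prod.norm_def], ?_⟩
    simp only [wd, zero_mul, one_mul, zero_sub, norm_neg]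
    rw [← h1, hm]
  · refine ⟨(1, 0), by simp [Prod.norm_def], ?_⟩
    simp only [wd, zero_mul, one_mul, sub_zero]
    rw [← h1, hm]

lemma exc_bound {D : ℕ} {g : C2 → C2} (hg : IsLift D g) : ∃ K : ℝ, 0 < K ∧
    ∀ ε, ‖ε‖ = 1 → Only g ε ε → ∀ v, ‖wd (g v) ε‖ ≤ K * ‖wd v ε‖ ^ D ∧
      (‖wd (g v) ε‖ = 0 → ‖wd v ε‖ = 0 ∨ v = 0) := by
  obtain ⟨m, M, hm, hM, hb⟩ := hg.bounds
  refine ⟨2 * M, by positivity, fun ε hε h v => ?_⟩
  obtain ⟨κ, hκ, hpow⟩ := only_pow hg (unit_ne hε) (unit_ne hε) h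
  obtain ⟨t, ht, ht1⟩ := exists_test hε
  have h1 : ‖κ‖ ≤ 2 * M := by
    have h2 : ‖wd (g t) ε‖ = ‖κ‖ := by rw [hpow, norm_mul, norm_pow, ht1, one_pow, mul_one]
    rw [← h2]
    have h3 := norm_wd_le (g t) ε
    have h4 := (hb t).2
    rw [ht, one_pow, mul_one] at h4
    rw [hε, mul_one] at h3
    linarith
  refine ⟨?_, fun h2 => ?_⟩
  · rw [hpow, norm_mul, norm_pow]
    gcongr
  · by_cases hv : v = 0
    · exact Or.inr hv
    · left
      rw [norm_eq_zero] at h2 ⊢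
      exact h v hv h2

lemma xiC_closed (g : C2 → C2) (c : ℝ) : IsClosed (XiC g c) := by
  have : XiC g c = ⋂ (ε : C2) (_ : ‖ε‖ = 1) (_ : Only g ε ε), {ξ | c * ‖ξ‖ ≤ ‖wd ξ ε‖} := by
    ext ξ
    simp only [XiC, mem_iInter, mem_ofPred_eq]
  rw [this]
  refine isClosed_iInter fun ε => isClosed_iInter fun _ => isClosed_iInter fun _ => ?_
  refine isClosed_le (by fun_prop) ?_
  have : Continuous fun ξ : C2 => wd ξ ε := by unfold wd; fun_prop
  exact this.norm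

lemma xiC_cone (g : C2 → C2) (c : ℝ) (t : ℂ) {ξ : C2} (h : ξ ∈ XiC g c) : t • ξ ∈ XiC g c := by
  intro ε hε h1
  have h2 := h ε hε h1
  rw [norm_smul, wd_smul_left, norm_mul]
  calc c * (‖t‖ * ‖ξ‖) = ‖t‖ * (c * ‖ξ‖) := by ring
    _ ≤ _ := by gcongr

lemma xiC_mono {g : C2 → C2} {c c' : ℝ} (h : c ≤ c') : XiC g c' ⊆ XiC g c := by
  intro ξ hξ ε hε h1
  exact (mul_le_mul_of_nonneg_right h (norm_nonneg _)).trans (hξ ε hε h1)

lemma xiC_back {D : ℕ} (hD : 2 ≤ D) {g : C2 → C2} (hg : IsLift D g) :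
    ∃ c0 : ℝ, 0 < c0 ∧ ∀ c, 0 < c → c ≤ c0 → BackInv g (XiC g c) := by
  obtain ⟨m, M, hm, hM, hb⟩ := hg.bounds
  obtain ⟨K, hK, hKb⟩ := exc_bound hg
  refine ⟨min 1 (m / K), by positivity, fun c hc hc0 => ⟨xiC_closed g c, fun t ξ h => xiC_cone g c t h, ?_⟩⟩
  intro η ξ hη hξ hξ0 hp ε hε hE
  obtain ⟨t, ht, hgt⟩ := (par_iff' (hg.nz η hη) hξ0).1 hp
  have h1 : c * ‖g η‖ ≤ ‖wd (g η) ε‖ := by
    have := xiC_cone g c t hξ
    rw [← hgt] at this
    exact this ε hε hE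
  have h2 := (hKb ε hε hE η).1
  have h3 := (hb η).1
  have hn : 0 < ‖η‖ := norm_pos_iff.2 hη
  -- c m ‖η‖^D ≤ K ‖wd η ε‖^D
  have h4 : c * (m * ‖η‖ ^ D) ≤ K * ‖wd η ε‖ ^ D := (mul_le_mul_of_nonneg_left h3 hc.le).trans (h1.trans h2)
  by_contra hcon
  push Not at hcon
  have hc1 : c ≤ 1 := hc0.trans (min_le_left _ _)
  have hc2 : c * K ≤ m := by
    have := hc0.trans (min_le_right _ _)
    rwa [le_div_iff₀ hK] at this
  have h5 : ‖wd η ε‖ ^ D < (c * ‖η‖) ^ D := pow_lt_pow_left₀ hcon (norm_nonneg _) (by omega)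
  have h6 : c ^ D ≤ c ^ 2 := pow_le_pow_of_le_one hc.le hc1 hD
  have hnD : 0 < ‖η‖ ^ D := by positivity
  have h7 : K * (c * ‖η‖) ^ D ≤ c * (m * ‖η‖ ^ D) := by
    rw [mul_pow]
    calc K * (c ^ D * ‖η‖ ^ D) ≤ K * (c ^ 2 * ‖η‖ ^ D) := by gcongr
      _ = c * ((c * K) * ‖η‖ ^ D) := by ring
      _ ≤ _ := by gcongr
  have h8 : K * ‖wd η ε‖ ^ D < K * (c * ‖η‖) ^ D := by gcongr
  linarith

lemma nonpar_exists {ξ : C2} (hξ : ξ ≠ 0) : ∃ ζ : C2, ζ ≠ 0 ∧ wd ζ ξ ≠ 0 := by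
  rcases fst_or_snd hξ with h | h
  · refine ⟨(0, 1), by simp, ?_⟩
    simpa [wd] using h
  · refine ⟨(1, 0), by simp, ?_⟩
    simpa [wd] using h

lemma xiC_ntr {D : ℕ} (hD : 2 ≤ D) {g : C2 → C2} (hg : IsLift D g)
    (hS : ∀ ξ η : C2, ξ ≠ 0 → η ≠ 0 → Only g ξ η → Only g ξ ξ) {c : ℝ} (hc : 0 < c) :
    NTR D g (XiC g c) := by
  rintro ξ hξ hξ0 ⟨κ, η, h⟩
  obtain ⟨ζ, hζ, hζ1⟩ := nonpar_exists hξ0
  obtain ⟨v, hv, hv1⟩ := exists_pre (by omega : 1 ≤ D) hg hζ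
  have hne : wd (g v) ξ ≠ 0 := by
    intro h0
    exact hζ1 (par_trans (hg.nz v hv) (wd_eq_zero_comm.1 hv1) h0)
  have hκ : κ ≠ 0 := by
    rintro rfl
    apply hne
    rw [h, zero_mul]
  have hη : η ≠ 0 := by
    rintro rfl
    apply hne
    rw [h, wd_zero_right, zero_pow (by omega), mul_zero]
  have hO := hS ξ η hξ0 hη (only_of_pow hκ h)
  have hn : 0 < ‖ξ‖ := norm_pos_iff.2 hξ0
  set ε : C2 := ((‖ξ‖ : ℂ)⁻¹) • ξ with hε
  have hεn : ‖ε‖ = 1 := by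
    rw [hε, norm_smul]; simp [hn.ne']
  have hpar : wd ξ ε = 0 := by rw [hε, wd_smul_right, wd_self, mul_zero]
  have hOε : Only g ε ε := only_congr (unit_ne hεn) hξ0 hpar hpar hO
  have := hξ ε hεn hOε
  rw [hpar, norm_zero] at this
  have h1 : 0 < c * ‖ξ‖ := by positivity
  linarith

lemma only_smul_self {g : C2 → C2} {ε : C2} (hε : ε ≠ 0) {ξ : C2} (hξ : ξ ≠ 0) (hp : wd ε ξ = 0)
    (h : Only g ε ε) : Only g ξ ξ := only_congr hξ hε hp hp h

/-- there are at most two exceptional lines -/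
lemma exc_two {D : ℕ} (hD : 2 ≤ D) {g : C2 → C2} (hg : IsLift D g) :
    ∃ e1 e2 : C2, e1 ≠ 0 ∧ e2 ≠ 0 ∧ ∀ ε, ε ≠ 0 → Only g ε ε → wd ε e1 = 0 ∨ wd ε e2 = 0 := by
  by_cases h1 : ∃ e1 : C2, e1 ≠ 0 ∧ Only g e1 e1
  · obtain ⟨e1, he1, hO1⟩ := h1
    by_cases h2 : ∃ e2 : C2, e2 ≠ 0 ∧ Only g e2 e2 ∧ wd e1 e2 ≠ 0
    · obtain ⟨e2, he2, hO2, h12⟩ := h2
      refine ⟨e1, e2, he1, he2, fun ε hε hO => ?_⟩
      rcases three hD hg he1 he2 hε he1 he2 hε hO1 hO2 hO with h | h | h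
      · exact absurd h h12
      · exact Or.inl (wd_eq_zero_comm.1 h)
      · exact Or.inr (wd_eq_zero_comm.1 h)
    · push Not at h2
      exact ⟨e1, e1, he1, he1, fun ε hε hO => Or.inl (wd_eq_zero_comm.1 (h2 ε hε hO))⟩
  · push Not at h1
    exact ⟨(1, 0), (1, 0), by simp, by simp, fun ε hε hO => absurd hO (h1 ε hε)⟩

lemma xiC_mem {D : ℕ} (hD : 2 ≤ D) {g : C2 → C2} (hg : IsLift D g) {ξ : C2} (hξ : ξ ≠ 0)
    (h : ¬ Only g ξ ξ) : ∃ c1 : ℝ, 0 < c1 ∧ ∀ c ≤ c1, ξ ∈ XiC g c := by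
  obtain ⟨e1, e2, he1, he2, hE⟩ := exc_two hD hg
  have hn : 0 < ‖ξ‖ := norm_pos_iff.2 hξ
  -- lower bound for |wd ξ ε| for unit ε parallel to e
  have key : ∀ e : C2, e ≠ 0 → ∃ c1 : ℝ, 0 < c1 ∧
      ∀ ε, ‖ε‖ = 1 → Only g ε ε → wd ε e = 0 → c1 * ‖ξ‖ ≤ ‖wd ξ ε‖ := by
    intro e he
    by_cases hp : wd ξ e = 0
    · refine ⟨1, one_pos, fun ε hε hO hpe => ?_⟩
      exfalso
      apply h
      apply only_smul_self (unit_ne hε) hξ _ hO
      exact par_trans he hpe (wd_eq_zero_comm.1 hp)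
    · have hne : 0 < ‖e‖ := norm_pos_iff.2 he
      have hwp : 0 < ‖wd ξ e‖ := norm_pos_iff.2 hp
      refine ⟨‖wd ξ e‖ / (‖e‖ * ‖ξ‖), by positivity, fun ε hε hO hpe => ?_⟩
      obtain ⟨t, ht⟩ := (par_iff he).1 hpe
      have h1 : ‖t‖ * ‖e‖ = 1 := by rw [← norm_smul, ← ht, hε]
      have h2 : ‖wd ξ ε‖ = ‖t‖ * ‖wd ξ e‖ := by rw [ht, wd_smul_right, norm_mul]
      rw [h2]
      have h3 : ‖t‖ = 1 / ‖e‖ := by field_simp; exact h1
      rw [h3]
      apply le_of_eq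
      field_simp
  obtain ⟨c1, hc1, h1⟩ := key e1 he1
  obtain ⟨c2, hc2, h2⟩ := key e2 he2
  refine ⟨min c1 c2, lt_min hc1 hc2, fun c hc ε hε hO => ?_⟩
  rcases hE ε (unit_ne hε) hO with h3 | h3
  · exact (mul_le_mul_of_nonneg_right (hc.trans (min_le_left _ _)) hn.le).trans (h1 ε hε hO h3)
  · exact (mul_le_mul_of_nonneg_right (hc.trans (min_le_right _ _)) hn.le).trans (h2 ε hε hO h3)

lemma exc_finite {D : ℕ} (hD : 2 ≤ D) {g : C2 → C2} (hg : IsLift D g) :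
    {a : ℂ | Only g (a, 1) (a, 1)}.Finite := by
  obtain ⟨e1, e2, he1, he2, hE⟩ := exc_two hD hg
  have key : ∀ e : C2, e ≠ 0 → {a : ℂ | wd (a, 1) e = 0}.Finite := by
    intro e he
    have : {a : ℂ | wd (a, 1) e = 0} ⊆ {e.1 / e.2} := by
      intro a ha
      have h1 : a * e.2 - 1 * e.1 = 0 := ha
      have h2 : e.2 ≠ 0 := by
        intro h0
        rw [h0] at h1
        have : e.1 = 0 := by linear_combination -h1
        exact he (Prod.ext this h0)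
      rw [mem_singleton_iff, eq_div_iff h2]
      linear_combination h1
    exact (finite_singleton _).subset this
  refine ((key e1 he1).union (key e2 he2)).subset fun a ha => ?_
  exact hE (a, 1) (pt_ne_zero a) ha

lemma wd_big {ε t v : C2} (hε : ‖ε‖ = 1) (ht : ‖t‖ = 1) (h1 : ‖wd t ε‖ = 1) {c : ℝ}
    (hc : c ≤ 1 / 2) (hv : ‖wd v ε‖ ≤ c * ‖v‖) : ‖v‖ / 2 ≤ ‖wd v t‖ := by
  have h2 := wd_plucker v ε t
  -- wd v t • ε = wd v ε • t + wd ε t • v
  have h3 : ‖wd ε t • v‖ ≤ ‖wd v t • ε‖ + ‖wd v ε • t‖ := by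
    have : wd ε t • v = wd v t • ε - wd v ε • t := by rw [h2]; abel
    rw [this]
    exact norm_sub_le _ _
  have h4 : ‖wd ε t‖ = 1 := by rw [wd_swap, norm_neg, h1]
  rw [norm_smul, norm_smul, norm_smul, h4, hε, ht, one_mul, mul_one, mul_one] at h3
  have hn := norm_nonneg v
  nlinarith

lemma xiC_supp {D : ℕ} (hD : 2 ≤ D) {g : C2 → C2} (hg : IsLift D g) {G : C2 → ℝ} (hG : IsGreen G)
    (hGg : ∀ v, v ≠ 0 → G (g v) = D * G v) :
    ∃ c0 : ℝ, 0 < c0 ∧ ∀ c, 0 < c → c ≤ c0 → SuppIn G (XiC g c) := by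
  obtain ⟨m, M, hm, hM, hb⟩ := hg.bounds
  obtain ⟨K, hK, hKb⟩ := exc_bound hg
  obtain ⟨C, hC, hGC⟩ := hG.bound
  refine ⟨min (1 / 2) (m / K), by positivity, fun c hc hc0 => ?_⟩
  have hc1 : c ≤ 1 / 2 := hc0.trans (min_le_left _ _)
  have hc2 : c * K ≤ m := by
    have := hc0.trans (min_le_right _ _)
    rwa [le_div_iff₀ hK] at this
  intro φ x hφ hφ0 hφΞ
  simp only [XiC, mem_ofPred_eq, not_forall, not_le] at hφΞ
  obtain ⟨ε, hε, hO, hlt⟩ := hφΞ
  obtain ⟨t, ht, ht1⟩ := exists_test hε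
  -- invariance
  have hinv : ∀ v : C2, v ≠ 0 → ‖wd v ε‖ < c * ‖v‖ → ‖wd (g v) ε‖ < c * ‖g v‖ := by
    intro v hv hv1
    have hn : 0 < ‖v‖ := norm_pos_iff.2 hv
    have h2 := (hKb ε hε hO v).1
    have h3 := (hb v).1
    have h5 : ‖wd v ε‖ ^ D < (c * ‖v‖) ^ D := pow_lt_pow_left₀ hv1 (norm_nonneg _) (by omega)
    have h6 : c ^ D ≤ c ^ 2 := pow_le_pow_of_le_one hc.le (by linarith) hD
    have h7 : K * (c * ‖v‖) ^ D ≤ c * (m * ‖v‖ ^ D) := by
      rw [mul_pow]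
      calc K * (c ^ D * ‖v‖ ^ D) ≤ K * (c ^ 2 * ‖v‖ ^ D) := by gcongr
        _ = c * ((c * K) * ‖v‖ ^ D) := by ring
        _ ≤ _ := by gcongr
    have h8 : K * ‖wd v ε‖ ^ D < K * (c * ‖v‖) ^ D := by gcongr
    have h9 : c * (m * ‖v‖ ^ D) ≤ c * ‖g v‖ := by gcongr
    linarith
  have hinvn : ∀ (n : ℕ) (v : C2), v ≠ 0 → ‖wd v ε‖ < c * ‖v‖ →
      ‖wd (g^[n] v) ε‖ < c * ‖g^[n] v‖ := by
    intro n
    induction n with
    | zero => intro v _ h; simpa using h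
    | succ n ih =>
      intro v hv h
      rw [Function.iterate_succ_apply']
      exact hinv _ (iterate_nz hg.nz n v hv) (ih v hv h)
  -- a good ball
  have hcont : ContinuousAt φ x := hφ.continuousAt
  have hE1 : ∀ᶠ z in 𝓝 x, φ z ≠ 0 := hcont.eventually_ne hφ0
  have hwdc : ContinuousAt (fun z => ‖wd (φ z) ε‖) x := by
    have : Continuous fun ξ : C2 => wd ξ ε := by unfold wd; fun_prop
    exact (this.norm.continuousAt (x := φ x)).comp hcont
  have hE2 : ∀ᶠ z in 𝓝 x, ‖wd (φ z) ε‖ < c * ‖φ z‖ :=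
    hwdc.eventually_lt (continuousAt_const.mul hcont.norm) hlt
  obtain ⟨r, hr, hball⟩ := Metric.eventually_nhds_iff_ball.1 (hE1.and (hE2.and hφ.eventually_analyticAt))
  have hH : HarmonicOnNhd (fun z => G (φ z)) (ball x r) := by
    apply Pool.Agent.Helper56.Harm.harmonic_of_unif
    intro δ hδ
    have hD0 : (0 : ℝ) < D := by
      have : 0 < D := by omega
      exact_mod_cast this
    have hD1 : (1 : ℝ) < D := by
      have : 1 < D := by omega
      exact_mod_cast this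
    have hlim : Tendsto (fun n : ℕ => (C + Real.log 2) * (1 / (D : ℝ)) ^ n) atTop (𝓝 0) := by
      have := (tendsto_pow_atTop_nhds_zero_of_lt_one (r := 1 / (D : ℝ)) (by positivity)
        (by rw [div_lt_one hD0]; exact hD1)).const_mul (C + Real.log 2)
      simpa using this
    obtain ⟨n, hn⟩ := (hlim.eventually (eventually_le_nhds hδ)).exists
    refine ⟨fun z => (1 / (D : ℝ)) ^ n * Real.log ‖wd (g^[n] (φ z)) t‖, ?_, ?_⟩
    · intro z hz
      obtain ⟨h1, h2, h3⟩ := hball z hz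
      have hne : wd (g^[n] (φ z)) t ≠ 0 := by
        have h4 := wd_big hε ht ht1 hc1 (hinvn n _ h1 h2).le
        have h5 : 0 < ‖g^[n] (φ z)‖ := norm_pos_iff.2 (iterate_nz hg.nz n _ h1)
        intro h6
        rw [h6, norm_zero] at h4
        linarith
      have han : AnalyticAt ℂ (fun z => wd (g^[n] (φ z)) t) z := by
        apply analyticAt_wd _ analyticAt_const
        have hgd : Differentiable ℂ (g^[n]) := (isLift_iterate hg n).diff
        have : AnalyticAt ℂ (fun z => g^[n] (φ z)) z := by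
          have h7 : ∀ᶠ w in 𝓝 z, DifferentiableAt ℂ (fun z => g^[n] (φ z)) w := by
            filter_upwards [h3.eventually_analyticAt] with w hw
            exact (hgd _).comp w hw.differentiableAt
          exact Complex.analyticAt_iff_eventually_differentiableAt.2 h7
        exact this
      have := han.harmonicAt_log_norm hne
      exact this.const_smul (c := (1 / (D : ℝ)) ^ n)
    · intro z hz
      obtain ⟨h1, h2, h3⟩ := hball z hz
      have hvn : g^[n] (φ z) ≠ 0 := iterate_nz hg.nz n _ h1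
      have h4 := wd_big hε ht ht1 hc1 (hinvn n _ h1 h2).le
      have h5 : 0 < ‖g^[n] (φ z)‖ := norm_pos_iff.2 hvn
      have hGn : G (g^[n] (φ z)) = (D : ℝ) ^ n * G (φ z) := by
        clear h2 h4 h5 hvn hn
        induction n with
        | zero => simp
        | succ n ih =>
          rw [Function.iterate_succ_apply', hGg _ (iterate_nz hg.nz n _ h1), ih, pow_succ]
          ring
      have h6 := hGC _ hvn
      have h7 : Real.log ‖g^[n] (φ z)‖ - Real.log 2 ≤ Real.log ‖wd (g^[n] (φ z)) t‖ := by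
        rw [← Real.log_div h5.ne' (by norm_num)]
        exact Real.log_le_log (by positivity) h4
      have hwpos : 0 < ‖wd (g^[n] (φ z)) t‖ := by linarith
      have h8 : Real.log ‖wd (g^[n] (φ z)) t‖ ≤ Real.log 2 + Real.log ‖g^[n] (φ z)‖ := by
        rw [← Real.log_mul (by norm_num) h5.ne']
        apply Real.log_le_log hwpos
        have := norm_wd_le (g^[n] (φ z)) t
        rwa [ht, mul_one] at this
      have hpow : (0 : ℝ) < (D : ℝ) ^ n := by positivity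
      have h9 : G (φ z) = (1 / (D : ℝ)) ^ n * G (g^[n] (φ z)) := by
        rw [hGn, one_div, inv_pow]
        field_simp
      rw [h9, ← mul_sub, abs_mul, abs_of_pos (by positivity)]
      have h10 : |G (g^[n] (φ z)) - Real.log ‖wd (g^[n] (φ z)) t‖| ≤ C + Real.log 2 := by
        rw [abs_le] at h6 ⊢
        constructor <;> linarith [h6.1, h6.2]
      calc (1 / (D : ℝ)) ^ n * |G (g^[n] (φ z)) - Real.log ‖wd (g^[n] (φ z)) t‖|
          ≤ (1 / (D : ℝ)) ^ n * (C + Real.log 2) := by gcongr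
        _ = (C + Real.log 2) * (1 / (D : ℝ)) ^ n := by ring
        _ ≤ δ := hn
  exact hH x (mem_ball_self hr)

end Pool.Agent.Helper59.EP
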