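import Mathlib
import Pool.Agent.Helper65.RatComp
import Pool.Agent.Helper65.RatVal
import Pool.Agent.Helper59.EPDefs

/-! Change of variables for measures with constant Jacobian. -/

open Set MeasureTheory Polynomial Topology Filter
open scoped ENNReal

namespace Pool.Agent.Helper59.EP

open Pool.Agent.Helper65

lemma eval_eq_ev (Q : RatFunc ℂ) (z : ℂ) : Q.eval (RingHom.id ℂ) z = ev Q z := by
  unfold RatFunc.eval ev
  rw [Polynomial.eval₂_id, Polynomial.eval₂_id]

lemma IsMME.jac' {Q : RatFunc ℂ} {μ : Measure ℂ} (h : IsMME Q μ) {A : Set ℂ} (hA : MeasurableSet A)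
    (hr : ∀ z ∈ A, reg Q z) (hi : InjOn (ev Q) A) : μ (ev Q '' A) = deg Q * μ A := by
  have h1 := h.jac A hA hr
  simp only [eval_eq_ev] at h1
  exact h1 hi

lemma IsMME.noAt {Q : RatFunc ℂ} {μ : Measure ℂ} (h : IsMME Q μ) : NullSingletonClass μ :=
  ⟨h.noAtoms⟩

lemma IsMME.isProb {Q : RatFunc ℂ} {μ : Measure ℂ} (h : IsMME Q μ) : IsProbabilityMeasure μ :=
  ⟨h.prob⟩

lemma measurable_ev (Q : RatFunc ℂ) : Measurable (ev Q) := by
  unfold ev
  exact (Q.num.continuous.measurable).div (Q.denom.continuous.measurable)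

/-- fibre polynomial -/
noncomputable def fp (Q : RatFunc ℂ) (a : ℂ) : ℂ[X] := Q.num - C a * Q.denom

/-- Wronskian -/
noncomputable def wr (Q : RatFunc ℂ) : ℂ[X] :=
  derivative Q.num * Q.denom - Q.num * derivative Q.denom

lemma wr_ne {Q : RatFunc ℂ} (hQ : 1 ≤ deg Q) : wr Q ≠ 0 := by
  intro h
  have hc : IsCoprime Q.num Q.denom := RatFunc.isCoprime_num_denom Q
  have h1 : derivative Q.num * Q.denom = Q.num * derivative Q.denom := sub_eq_zero.1 h
  have h2 : Q.denom ∣ derivative Q.denom := by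
    apply hc.symm.dvd_of_dvd_mul_left
    exact ⟨derivative Q.num, by rw [← h1]; ring⟩
  have h3 : derivative Q.denom = 0 := Polynomial.dvd_derivative_iff.1 h2
  rw [h3, mul_zero] at h1
  have h4 : derivative Q.num = 0 := by
    rcases mul_eq_zero.1 h1 with h4 | h4
    · exact h4
    · exact absurd h4 Q.denom_ne_zero
  have h5 := derivative_eq_zero.1 h3
  have h6 := derivative_eq_zero.1 h4
  unfold deg at hQ
  omega

lemma fp_eval_ev {Q : RatFunc ℂ} {z : ℂ} (h : reg Q z) {a : ℂ} :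
    (fp Q a).eval z = 0 ↔ ev Q z = a := by
  unfold fp ev
  rw [eval_sub, eval_mul, eval_C, sub_eq_zero, div_eq_iff h]

lemma reg_of_fp {Q : RatFunc ℂ} {z a : ℂ} (h : (fp Q a).eval z = 0) : reg Q z := by
  intro h0
  unfold fp at h
  rw [eval_sub, eval_mul, h0, mul_zero, sub_zero] at h
  obtain ⟨u, v, huv⟩ := RatFunc.isCoprime_num_denom Q
  have := congrArg (Polynomial.eval z) huv
  simp [h0, h] at this

lemma wr_eval {Q : RatFunc ℂ} {z a : ℂ} (h : (fp Q a).eval z = 0) :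
    (wr Q).eval z = (derivative (fp Q a)).eval z * Q.denom.eval z := by
  unfold fp at h
  unfold fp wr
  rw [eval_sub, eval_mul, eval_C, sub_eq_zero] at h
  simp only [eval_sub, eval_mul, derivative_sub, derivative_mul, derivative_C, zero_mul, zero_add,
    eval_C, h]
  ring

lemma deriv_ev' {Q : RatFunc ℂ} {z : ℂ} (h : reg Q z) :
    deriv (ev Q) z = (wr Q).eval z / (Q.denom.eval z) ^ 2 := by
  have h1 : HasDerivAt (ev Q) (((derivative Q.num).eval z * Q.denom.eval z -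
      Q.num.eval z * (derivative Q.denom).eval z) / (Q.denom.eval z) ^ 2) z :=
    (Q.num.hasDerivAt z).div (Q.denom.hasDerivAt z) h
  rw [h1.deriv]
  unfold wr
  simp

/-- good points -/
def GU (Q : RatFunc ℂ) : Set ℂ := {z | Q.denom.eval z * (wr Q).eval z ≠ 0}

lemma gu_open (Q : RatFunc ℂ) : IsOpen (GU Q) := by
  have : GU Q = (fun z => Q.denom.eval z * (wr Q).eval z) ⁻¹' {0}ᶜ := rfl
  rw [this]
  exact isOpen_compl_singleton.preimage (Q.denom.continuous.mul (wr Q).continuous)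

lemma gu_compl_finite {Q : RatFunc ℂ} (hQ : 1 ≤ deg Q) : (GU Q)ᶜ.Finite := by
  have h : Q.denom * wr Q ≠ 0 := mul_ne_zero Q.denom_ne_zero (wr_ne hQ)
  refine ((Q.denom * wr Q).rootSet_finite ℂ).subset fun z hz => ?_
  rw [Polynomial.mem_rootSet]
  refine ⟨h, ?_⟩
  simp only [GU, mem_compl_iff, mem_ofPred_eq, not_not] at hz
  simpa using hz

lemma gu_reg {Q : RatFunc ℂ} {z : ℂ} (h : z ∈ GU Q) : reg Q z := left_ne_zero_of_mul h

lemma exists_inj {Q : RatFunc ℂ} {z : ℂ} (h : z ∈ GU Q) : ∃ V : Set ℂ, IsOpen V ∧ z ∈ V ∧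
    V ⊆ GU Q ∧ InjOn (ev Q) V := by
  have hr := gu_reg h
  have h1 : HasStrictDerivAt (ev Q) (deriv (ev Q) z) z := (ev_analyticAt hr).hasStrictDerivAt
  have h2 : deriv (ev Q) z ≠ 0 := by
    rw [deriv_ev' hr]
    exact div_ne_zero (right_ne_zero_of_mul h) (pow_ne_zero _ hr)
  let e := (h1.hasStrictFDerivAt_equiv h2).toOpenPartialHomeomorph (ev Q)
  have hsrc : z ∈ e.source := (h1.hasStrictFDerivAt_equiv h2).mem_toOpenPartialHomeomorph_source
  refine ⟨e.source ∩ GU Q, e.open_source.inter (gu_open Q), ⟨hsrc, h⟩, inter_subset_right, ?_⟩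
  exact (e.injOn).mono inter_subset_left

/-- countable measurable partition of the good set into injectivity domains -/
lemma exists_partition (Q : RatFunc ℂ) : ∃ A : ℕ → Set ℂ, (∀ i, MeasurableSet (A i)) ∧
    Pairwise (fun i j => Disjoint (A i) (A j)) ∧ (⋃ i, A i) = GU Q ∧ ∀ i, InjOn (ev Q) (A i) := by
  let 𝒱 : Set (Set ℂ) := {b | b ∈ TopologicalSpace.countableBasis ℂ ∧ b ⊆ GU Q ∧ InjOn (ev Q) b}
  have hc : (insert ∅ 𝒱).Countable :=
    ((TopologicalSpace.countable_countableBasis ℂ).mono fun b hb => hb.1).insert ∅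
  obtain ⟨V, hV⟩ := hc.exists_eq_range (insert_nonempty _ _)
  have hVm : ∀ i, V i = ∅ ∨ V i ∈ 𝒱 := by
    intro i
    have : V i ∈ insert ∅ 𝒱 := by rw [hV]; exact mem_range_self i
    exact this
  have hop : ∀ i, MeasurableSet (V i) := by
    intro i
    rcases hVm i with h | h
    · rw [h]; exact MeasurableSet.empty
    · exact (TopologicalSpace.isOpen_of_mem_countableBasis h.1).measurableSet
  have hsub : ∀ i, V i ⊆ GU Q := by
    intro i
    rcases hVm i with h | h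
    · rw [h]; exact empty_subset _
    · exact h.2.1
  have hinj : ∀ i, InjOn (ev Q) (V i) := by
    intro i
    rcases hVm i with h | h
    · rw [h]; exact injOn_empty _
    · exact h.2.2
  refine ⟨disjointed V, fun i => MeasurableSet.disjointed hop i, disjoint_disjointed V, ?_, fun i => ?_⟩
  · rw [iUnion_disjointed]
    apply Subset.antisymm (iUnion_subset hsub)
    intro z hz
    obtain ⟨W, hW, hzW, hWU, hWi⟩ := exists_inj hz
    obtain ⟨b, hb, hzb, hbW⟩ := (TopologicalSpace.isBasis_countableBasis ℂ).exists_subset_of_mem_open hzW hW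
    have hb' : b ∈ insert ∅ 𝒱 := Or.inr ⟨hb, hbW.trans hWU, hWi.mono hbW⟩
    rw [hV] at hb'
    obtain ⟨i, rfl⟩ := hb'
    exact mem_iUnion.2 ⟨i, hzb⟩
  · exact (hinj i).mono (disjointed_subset V i)

/-- sum over a fibre -/
noncomputable def rsum {M : Type} [AddCommMonoid M] (Q : RatFunc ℂ) (ψ : ℂ → M) (a : ℂ) : M :=
  ((fp Q a).roots.map ψ).sum

/-- exceptional values: images of critical points, and `Q(∞)` -/
def BadV (Q : RatFunc ℂ) : Set ℂ := ev Q '' (GU Q)ᶜ ∪ {a | (fp Q a).natDegree < deg Q}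

lemma fp_lt_finite {Q : RatFunc ℂ} (hQ : 1 ≤ deg Q) : {a | (fp Q a).natDegree < deg Q}.Finite := by
  have : {a | (fp Q a).natDegree < deg Q} ⊆ {Q.num.coeff (deg Q) / Q.denom.coeff (deg Q)} := by
    intro a ha
    have h1 : (fp Q a).coeff (deg Q) = 0 := coeff_eq_zero_of_natDegree_lt ha
    unfold fp at h1
    rw [coeff_sub, coeff_C_mul, sub_eq_zero] at h1
    have h2 : Q.denom.coeff (deg Q) ≠ 0 := by
      intro h0
      rw [h0, mul_zero] at h1
      rcases max_choice Q.num.natDegree Q.denom.natDegree with h | h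
      · have e : deg Q = Q.num.natDegree := h
        rw [e, coeff_natDegree, leadingCoeff_eq_zero] at h1
        rw [e, h1] at hQ
        simp at hQ
      · have e : deg Q = Q.denom.natDegree := h
        rw [e, coeff_natDegree, leadingCoeff_eq_zero] at h0
        exact Q.denom_ne_zero h0
    rw [mem_singleton_iff, eq_div_iff h2, h1]
  exact (finite_singleton _).subset this

lemma badV_finite {Q : RatFunc ℂ} (hQ : 1 ≤ deg Q) : (BadV Q).Finite :=
  ((gu_compl_finite hQ).image _).union (fp_lt_finite hQ)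

lemma fp_ne {Q : RatFunc ℂ} (hQ : 1 ≤ deg Q) {a : ℂ} (ha : a ∉ BadV Q) : fp Q a ≠ 0 := by
  intro h
  apply ha
  right
  rw [mem_ofPred_eq, h]
  simp only [natDegree_zero]
  omega

lemma fp_nodup {Q : RatFunc ℂ} (hQ : 1 ≤ deg Q) {a : ℂ} (ha : a ∉ BadV Q) :
    (fp Q a).roots.Nodup := by
  rw [Multiset.nodup_iff_count_le_one]
  intro z
  rw [count_roots]
  by_contra hcon
  push Not at hcon
  have h1 : 1 < (fp Q a).rootMultiplicity z := hcon
  have h2 := (one_lt_rootMultiplicity_iff_isRoot (fp_ne hQ ha)).1 h1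
  apply ha
  left
  have hr : reg Q z := reg_of_fp h2.1
  refine ⟨z, ?_, (fp_eval_ev hr).1 h2.1⟩
  simp only [GU, mem_compl_iff, mem_ofPred_eq, not_not]
  rw [wr_eval h2.1, h2.2.eq_zero]
  ring

lemma mem_roots_iff {Q : RatFunc ℂ} (hQ : 1 ≤ deg Q) {a : ℂ} (ha : a ∉ BadV Q) {z : ℂ} :
    z ∈ (fp Q a).roots ↔ z ∈ GU Q ∧ ev Q z = a := by
  rw [mem_roots (fp_ne hQ ha)]
  constructor
  · intro h
    have hr := reg_of_fp h
    have h1 := (fp_eval_ev hr).1 h
    refine ⟨?_, h1⟩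
    by_contra hcon
    exact ha (Or.inl ⟨z, hcon, h1⟩)
  · rintro ⟨h1, h2⟩
    exact (fp_eval_ev (gu_reg h1)).2 h2

lemma rsum_eq {M : Type} [AddCommMonoid M] {Q : RatFunc ℂ} (hQ : 1 ≤ deg Q) {a : ℂ}
    (ha : a ∉ BadV Q) (ψ : ℂ → M) : rsum Q ψ a = ∑ z ∈ (fp Q a).roots.toFinset, ψ z := by
  unfold rsum
  rw [Finset.sum_eq_multiset_sum, Multiset.toFinset_val, Multiset.dedup_eq_self.2 (fp_nodup hQ ha)]

variable {Q : RatFunc ℂ} {μ : Measure ℂ}

/-- change of variables on an injectivity domain -/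
lemma change_one (hμ : IsMME Q μ) {A : Set ℂ} (hA : MeasurableSet A) (hAU : A ⊆ GU Q)
    (hinj : InjOn (ev Q) A) {ψ : ℂ → ℝ≥0∞} (hψ : Measurable ψ) :
    ∃ Ψ : ℂ → ℝ≥0∞, Measurable Ψ ∧ (∀ z ∈ A, Ψ (ev Q z) = ψ z) ∧ MeasurableSet (ev Q '' A) ∧
      ∫⁻ a in ev Q '' A, Ψ a ∂μ = deg Q * ∫⁻ z in A, ψ z ∂μ := by
  have hcont : ContinuousOn (ev Q) A := fun z hz =>
    (ev_analyticAt (gu_reg (hAU hz))).continuousAt.continuousWithinAt
  have hemb : MeasurableEmbedding (A.domRestrict (ev Q)) := hcont.measurableEmbedding hA hinj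
  obtain ⟨Ψ, hΨm, hΨ⟩ := hemb.exists_measurable_extend (g := fun z : A => ψ z)
    (hψ.comp measurable_subtype_coe) (fun _ => ⟨0⟩)
  have hBm : MeasurableSet (ev Q '' A) := hA.image_of_continuousOn_injOn hcont hinj
  have hΨ' : ∀ z ∈ A, Ψ (ev Q z) = ψ z := fun z hz => congrFun hΨ ⟨z, hz⟩
  refine ⟨Ψ, hΨm, hΨ', hBm, ?_⟩
  have hmeas : μ.restrict (ev Q '' A) = (deg Q : ℝ≥0∞) • (μ.restrict A).map (ev Q) := by
    ext E hE
    rw [Measure.restrict_apply hE, Measure.smul_apply, Measure.map_apply (measurable_ev Q) hE,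
      Measure.restrict_apply (measurable_ev Q hE), smul_eq_mul]
    rw [← hμ.jac' ((measurable_ev Q hE).inter hA) (fun z hz => gu_reg (hAU hz.2))
      (hinj.mono inter_subset_right)]
    congr 1
    ext a
    constructor
    · rintro ⟨ha, z, hz, rfl⟩
      exact ⟨z, ⟨ha, hz⟩, rfl⟩
    · rintro ⟨z, ⟨hz1, hz2⟩, rfl⟩
      exact ⟨hz1, z, hz2, rfl⟩
  rw [hmeas, lintegral_smul_measure, lintegral_map hΨm (measurable_ev Q), smul_eq_mul]
  congr 1
  exact setLIntegral_congr_fun hA fun z hz => hΨ' z hz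

theorem change (hQ : 1 ≤ deg Q) (hμ : IsMME Q μ) {ψ : ℂ → ℝ≥0∞} (hψ : Measurable ψ) :
    AEMeasurable (rsum Q ψ) μ ∧ ∫⁻ a, rsum Q ψ a ∂μ = deg Q * ∫⁻ z, ψ z ∂μ := by
  have := hμ.noAt
  obtain ⟨A, hAm, hAd, hAU, hAi⟩ := exists_partition Q
  have hAs : ∀ i, A i ⊆ GU Q := fun i => by rw [← hAU]; exact subset_iUnion A i
  choose Ψ hΨm hΨ hBm hΨi using fun i => change_one hμ (hAm i) (hAs i) (hAi i) hψ
  have hae : (fun a => ∑' i, (ev Q '' A i).indicator (Ψ i) a) =ᵐ[μ] rsum Q ψ := by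
    have h0 : μ (BadV Q) = 0 := (badV_finite hQ).measure_zero μ
    have h1 : ∀ᵐ a ∂μ, a ∉ BadV Q := measure_eq_zero_iff_ae_notMem.1 h0
    filter_upwards [h1] with a ha
    rw [rsum_eq hQ ha]
    have h2 : ∀ i, (ev Q '' A i).indicator (Ψ i) a =
        ∑ z ∈ (fp Q a).roots.toFinset, (A i).indicator ψ z := by
      intro i
      by_cases h3 : a ∈ ev Q '' A i
      · obtain ⟨z, hz, hza⟩ := h3
        have h3' : a ∈ ev Q '' A i := ⟨z, hz, hza⟩
        rw [indicator_of_mem h3', Finset.sum_eq_single z]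
        · rw [indicator_of_mem hz, ← hza, hΨ i z hz]
        · intro b hb hbz
          apply indicator_of_notMem
          intro hbA
          rw [Multiset.mem_toFinset, mem_roots_iff hQ ha] at hb
          exact hbz (hAi i hbA hz (hb.2.trans hza.symm))
        · intro h4
          exfalso
          apply h4
          rw [Multiset.mem_toFinset, mem_roots_iff hQ ha]
          exact ⟨hAs i hz, hza⟩
      · rw [indicator_of_notMem h3]
        symm
        apply Finset.sum_eq_zero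
        intro z hz
        apply indicator_of_notMem
        intro hzA
        rw [Multiset.mem_toFinset, mem_roots_iff hQ ha] at hz
        exact h3 ⟨z, hzA, hz.2⟩
    simp only [h2]
    rw [Summable.tsum_finsetSum (fun _ _ => ENNReal.summable)]
    apply Finset.sum_congr rfl
    intro z hz
    rw [Multiset.mem_toFinset, mem_roots_iff hQ ha] at hz
    have hzU := hz.1
    rw [← hAU] at hzU
    obtain ⟨i0, hi0⟩ := mem_iUnion.1 hzU
    rw [tsum_eq_single i0, indicator_of_mem hi0]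
    intro j hj
    apply indicator_of_notMem
    intro hzj
    exact (Set.disjoint_left.1 (hAd hj)) hzj hi0
  have hmeas : Measurable fun a => ∑' i, (ev Q '' A i).indicator (Ψ i) a :=
    Measurable.tsum fun i => (hΨm i).indicator (hBm i)
  refine ⟨⟨_, hmeas, hae.symm⟩, ?_⟩
  rw [← lintegral_congr_ae hae, lintegral_tsum fun i => ((hΨm i).indicator (hBm i)).aemeasurable]
  have h5 : ∀ i, ∫⁻ a, (ev Q '' A i).indicator (Ψ i) a ∂μ = deg Q * ∫⁻ z in A i, ψ z ∂μ := by
    intro i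
    rw [lintegral_indicator (hBm i), hΨi i]
  simp only [h5]
  rw [ENNReal.tsum_mul_left, ← lintegral_iUnion hAm hAd, hAU]
  congr 1
  have h6 : ∀ᵐ z ∂μ, z ∈ GU Q := by
    have : μ (GU Q)ᶜ = 0 := (gu_compl_finite hQ).measure_zero μ
    filter_upwards [measure_eq_zero_iff_ae_notMem.1 this] with z hz
    simpa using hz
  exact (setLIntegral_congr (s := GU Q) (t := univ) (eventuallyEq_univ.2 h6)).trans
    (setLIntegral_univ ψ)

lemma toReal_rsum {ψ : ℂ → ℝ≥0∞} (h : ∀ z, ψ z ≠ ⊤) (a : ℂ) :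
    (rsum Q ψ a).toReal = rsum Q (fun z => (ψ z).toReal) a := by
  unfold rsum
  have key : ∀ s : Multiset ℂ, (s.map ψ).sum ≠ ⊤ ∧
      (s.map ψ).sum.toReal = (s.map fun z => (ψ z).toReal).sum := by
    intro s
    induction s using Multiset.induction_on with
    | empty => simp
    | cons b s ih =>
      simp only [Multiset.map_cons, Multiset.sum_cons]
      refine ⟨ENNReal.add_ne_top.2 ⟨h b, ih.1⟩, ?_⟩
      rw [ENNReal.toReal_add (h b) ih.1, ih.2]
  exact (key _).2

theorem change_real (hQ : 1 ≤ deg Q) (hμ : IsMME Q μ) {ψ : ℂ → ℝ} (hψ : Measurable ψ)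
    (hi : Integrable ψ μ) :
    Integrable (rsum Q ψ) μ ∧ ∫ a, rsum Q ψ a ∂μ = deg Q * ∫ z, ψ z ∂μ := by
  have hp := change hQ hμ (ψ := fun z => ENNReal.ofReal (ψ z)) hψ.ennreal_ofReal
  have hn := change hQ hμ (ψ := fun z => ENNReal.ofReal (-ψ z)) hψ.neg.ennreal_ofReal
  have hfp : ∫⁻ z, ENNReal.ofReal (ψ z) ∂μ ≠ ⊤ :=
    (lt_of_le_of_lt (lintegral_mono fun z => Real.ofReal_le_enorm _) hi.2).ne
  have hfn : ∫⁻ z, ENNReal.ofReal (-ψ z) ∂μ ≠ ⊤ :=
    (lt_of_le_of_lt (lintegral_mono fun z => Real.ofReal_le_enorm _) hi.neg.2).ne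
  have hfp' : ∫⁻ a, rsum Q (fun z => ENNReal.ofReal (ψ z)) a ∂μ ≠ ⊤ := by
    rw [hp.2]; exact ENNReal.mul_ne_top (ENNReal.natCast_ne_top _) hfp
  have hfn' : ∫⁻ a, rsum Q (fun z => ENNReal.ofReal (-ψ z)) a ∂μ ≠ ⊤ := by
    rw [hn.2]; exact ENNReal.mul_ne_top (ENNReal.natCast_ne_top _) hfn
  have hdec : ∀ a, rsum Q ψ a = (rsum Q (fun z => ENNReal.ofReal (ψ z)) a).toReal -
      (rsum Q (fun z => ENNReal.ofReal (-ψ z)) a).toReal := by
    intro a
    rw [toReal_rsum (fun _ => ENNReal.ofReal_ne_top), toReal_rsum (fun _ => ENNReal.ofReal_ne_top)]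
    unfold rsum
    rw [← Multiset.sum_map_sub]
    congr 1
    apply Multiset.map_congr rfl
    intro z _
    rw [ENNReal.toReal_ofReal', ENNReal.toReal_ofReal']
    rcases le_total 0 (ψ z) with h | h
    · rw [max_eq_left h, max_eq_right (by linarith), sub_zero]
    · rw [max_eq_right h, max_eq_left (by linarith)]
      ring
  have hip := integrable_toReal_of_lintegral_ne_top hp.1 hfp'
  have hin := integrable_toReal_of_lintegral_ne_top hn.1 hfn'
  have hfun : rsum Q ψ = fun a => (rsum Q (fun z => ENNReal.ofReal (ψ z)) a).toReal -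
      (rsum Q (fun z => ENNReal.ofReal (-ψ z)) a).toReal := funext hdec
  refine ⟨by rw [hfun]; exact hip.sub hin, ?_⟩
  rw [hfun, integral_sub hip hin, integral_toReal hp.1 (ae_lt_top' hp.1 hfp'),
    integral_toReal hn.1 (ae_lt_top' hn.1 hfn'), hp.2, hn.2, ENNReal.toReal_mul, ENNReal.toReal_mul,
    integral_eq_lintegral_pos_part_sub_lintegral_neg_part hi]
  simp only [ENNReal.toReal_natCast]
  ring

end Pool.Agent.Helper59.EP
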