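import Mathlib
import Pool.Agent.Helper59.EPb

/-! The family of rational functions with a given measure is a semigroup. -/

open Set MeasureTheory Polynomial Topology Filter
open scoped ENNReal

namespace Pool.Agent.Helper59.EP

open Pool.Agent.Helper65

lemma measure_union_fin {μ : Measure ℂ} [NullSingletonClass μ] {S T : Set ℂ} (hT : T.Finite) :
    μ (S ∪ T) = μ S := by
  apply le_antisymm
  · calc μ (S ∪ T) ≤ μ S + μ T := measure_union_le _ _
      _ = μ S := by rw [hT.measure_zero μ, add_zero]
  · exact measure_mono subset_union_left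

lemma nreg_finite (P : RatFunc ℂ) : {z | ¬ reg P z}.Finite := by
  refine (P.denom.rootSet_finite ℂ).subset fun z hz => ?_
  rw [Polynomial.mem_rootSet]
  refine ⟨P.denom_ne_zero, ?_⟩
  simp only [reg, mem_ofPred_eq, not_not] at hz
  simpa using hz

theorem mme_comp {X P : RatFunc ℂ} {μ : Measure ℂ} (hX1 : 1 ≤ deg X) (hP1 : 1 ≤ deg P)
    (hX : IsMME X μ) (hP : IsMME P μ) : IsMME (comp X P) μ where
  prob := hX.prob
  noAtoms := hX.noAtoms
  jac := by
    have := hX.noAt
    intro A hA hreg hinj
    simp only [eval_eq_ev] at hinj ⊢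
    set A1 := A ∩ {z | reg P z} with hA1
    have hfin : (A \ A1).Finite := (nreg_finite P).subset fun z hz => by
      intro h
      exact hz.2 ⟨hz.1, h⟩
    have hop : MeasurableSet {z | reg P z} := by
      have : IsOpen {z | reg P z} :=
        isOpen_compl_singleton.preimage P.denom.continuous
      exact this.measurableSet
    have hA1m : MeasurableSet A1 := hA.inter hop
    have hregX : ∀ z ∈ A1, reg X (ev P z) := by
      intro z hz
      by_contra h
      exact not_reg_comp (nc_of_deg hP1) (reg.val hz.2) h (hreg z hz.1)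
    have hev : ∀ z ∈ A1, ev (comp X P) z = ev X (ev P z) := fun z hz =>
      ev_comp (nc_of_deg hP1) hz.2 (hregX z hz)
    have hinjP : InjOn (ev P) A1 := by
      intro z hz w hw h
      apply hinj hz.1 hw.1
      show ev (comp X P) z = ev (comp X P) w
      rw [hev z hz, hev w hw, h]
    have hcont : ContinuousOn (ev P) A1 := fun z hz =>
      (ev_analyticAt hz.2).continuousAt.continuousWithinAt
    have hBm : MeasurableSet (ev P '' A1) := hA1m.image_of_continuousOn_injOn hcont hinjP
    have hinjX : InjOn (ev X) (ev P '' A1) := by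
      rintro _ ⟨z, hz, rfl⟩ _ ⟨w, hw, rfl⟩ h
      rw [← hev z hz, ← hev w hw] at h
      rw [hinj hz.1 hw.1 h]
    have h1 : μ (ev P '' A1) = deg P * μ A1 := hP.jac' hA1m (fun z hz => hz.2) hinjP
    have h2 : μ (ev X '' (ev P '' A1)) = deg X * μ (ev P '' A1) :=
      hX.jac' hBm (by rintro _ ⟨z, hz, rfl⟩; exact hregX z hz) hinjX
    have h3 : ev (comp X P) '' A = ev X '' (ev P '' A1) ∪ ev (comp X P) '' (A \ A1) := by
      rw [image_image, ← image_congr hev, ← image_union]
      congr 1
      rw [union_sdiff_cancel inter_subset_left]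
    have h4 : A = A1 ∪ (A \ A1) := (union_sdiff_cancel inter_subset_left).symm
    have h5 : μ A = μ A1 := by
      calc μ A = μ (A1 ∪ (A \ A1)) := by rw [← h4]
        _ = μ A1 := measure_union_fin hfin
    rw [h3, measure_union_fin (hfin.image _), h2, h1, h5, deg_comp (nc_of_deg hP1), Nat.cast_mul,
      mul_assoc]

lemma iter_succ (P : RatFunc ℂ) (n : ℕ) : iter P (n + 1) = comp P (iter P n) := by
  unfold iter
  rw [Function.iterate_succ_apply']

lemma nc_iter {P : RatFunc ℂ} (hP : 1 ≤ deg P) (n : ℕ) : NC (iter P n) := by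
  induction n with
  | zero => exact nc_X
  | succ n ih => rw [iter_succ]; exact nc_comp (nc_of_deg hP) ih

lemma deg_iter {P : RatFunc ℂ} (hP : 1 ≤ deg P) (n : ℕ) : deg (iter P n) = deg P ^ n := by
  induction n with
  | zero => simp [iter, deg]
  | succ n ih => rw [iter_succ, deg_comp (nc_iter hP n), ih, pow_succ, mul_comm]

lemma mme_X {μ : Measure ℂ} (h1 : μ univ = 1) (h2 : ∀ z, μ {z} = 0) : IsMME RatFunc.X μ where
  prob := h1
  noAtoms := h2
  jac := by
    intro A hA _ _
    simp only [eval_eq_ev]
    have : ev (RatFunc.X : RatFunc ℂ) = id := by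
      funext z
      simp [ev]
    rw [this, image_id]
    simp [deg]

theorem mme_iter {P : RatFunc ℂ} {μ : Measure ℂ} (hP1 : 1 ≤ deg P) (hP : IsMME P μ) (n : ℕ) :
    IsMME (iter P n) μ := by
  induction n with
  | zero => exact mme_X hP.prob hP.noAtoms
  | succ n ih =>
    rw [iter_succ]
    exact mme_comp hP1 (deg_pos (nc_iter hP1 n)) hP ih

end Pool.Agent.Helper59.EP
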