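import Mathlib
import Pool.Agent.Helper56.Equi.C
import Pool.Agent.Helper56.Harm.L1

/-! Area means of the logarithmic kernel. -/

open Complex Metric Set Filter Topology MeasureTheory
open scoped ENNReal

namespace Pool.Agent.Helper59.EP

open Pool.Agent.Helper56.Harm (polar_circleMap)

/-- polar coordinates for integrable functions on a disc -/
lemma polar_int {v : ℂ → ℝ} (hm : Measurable v) {z : ℂ} {r : ℝ} (hv : IntegrableOn v (ball z r)) :
    ∫ w in ball z r, v w = ∫ s in Ioo 0 r, s * (2 * Real.pi * Real.circleAverage v z s) := by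
  have h1 : ∫ w in ball z r, v w = ∫ w, (ball z r).indicator v (z + w) := by
    rw [← integral_indicator measurableSet_ball, integral_add_left_eq_self]
  rw [h1, ← Complex.integral_comp_polarCoord_symm, polarCoord_target]
  have hd : ∀ p : ℝ × ℝ, 0 < p.1 → dist (circleMap z p.1 p.2) z = p.1 := by
    intro p hp1
    rw [dist_eq_norm, circleMap_sub_center, norm_circleMap_zero, abs_of_pos hp1]
  have h2 : ∫ p in Ioi (0 : ℝ) ×ˢ Ioo (-Real.pi) Real.pi,
      p.1 • (ball z r).indicator v (z + Complex.polarCoord.symm p) =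
      ∫ p in Ioi (0 : ℝ) ×ˢ Ioo (-Real.pi) Real.pi,
        (Iio r ×ˢ univ).indicator (fun p : ℝ × ℝ => p.1 • v (circleMap z p.1 p.2)) p := by
    apply setIntegral_congr_fun (measurableSet_Ioi.prod measurableSet_Ioo)
    intro p hp
    have hp1 : 0 < p.1 := hp.1
    simp only
    rw [polar_circleMap]
    by_cases hpr : p.1 < r
    · rw [indicator_of_mem (show circleMap z p.1 p.2 ∈ ball z r by rw [mem_ball, hd p hp1]; exact hpr),
        indicator_of_mem (show p ∈ Iio r ×ˢ univ from ⟨hpr, mem_univ _⟩)]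
    · rw [indicator_of_notMem (show circleMap z p.1 p.2 ∉ ball z r by rw [mem_ball, hd p hp1]; exact hpr),
        indicator_of_notMem (show p ∉ Iio r ×ˢ univ from fun h => hpr h.1), smul_zero]
  rw [h2, setIntegral_indicator (measurableSet_Iio.prod MeasurableSet.univ), Set.prod_inter_prod,
    Set.Ioi_inter_Iio, inter_univ]
  have hmc : Measurable fun p : ℝ × ℝ => circleMap z p.1 p.2 := by
    apply Continuous.measurable
    unfold circleMap
    fun_prop
  have hint : IntegrableOn (fun p : ℝ × ℝ => p.1 • v (circleMap z p.1 p.2))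
      (Ioo 0 r ×ˢ Ioo (-Real.pi) Real.pi) volume := by
    refine ⟨(measurable_fst.smul (hm.comp hmc)).aestronglyMeasurable, ?_⟩
    unfold HasFiniteIntegral
    have hfin : ∫⁻ w in ball z r, ‖v w‖ₑ < ⊤ := hv.2
    have h3 : ∫⁻ w in ball z r, ‖v w‖ₑ = ∫⁻ w, (ball z r).indicator (fun x => ‖v x‖ₑ) (z + w) := by
      rw [← lintegral_indicator measurableSet_ball, lintegral_add_left_eq_self]
    rw [h3, ← Complex.lintegral_comp_polarCoord_symm, polarCoord_target] at hfin
    refine lt_of_le_of_lt ?_ hfin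
    calc ∫⁻ p in Ioo 0 r ×ˢ Ioo (-Real.pi) Real.pi, ‖p.1 • v (circleMap z p.1 p.2)‖ₑ
        ≤ ∫⁻ p in Ioo 0 r ×ˢ Ioo (-Real.pi) Real.pi, ENNReal.ofReal p.1 •
          (ball z r).indicator (fun x => ‖v x‖ₑ) (z + Complex.polarCoord.symm p) := by
          apply setLIntegral_mono' (measurableSet_Ioo.prod measurableSet_Ioo)
          intro p hp
          have hp1 : 0 < p.1 := hp.1.1
          rw [polar_circleMap, indicator_of_mem (show circleMap z p.1 p.2 ∈ ball z r by
            rw [mem_ball, hd p hp1]; exact hp.1.2), enorm_smul, smul_eq_mul,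
            Real.enorm_eq_ofReal hp1.le]
      _ ≤ _ := lintegral_mono_set (Set.prod_mono Ioo_subset_Ioi_self Subset.rfl)
  rw [Measure.volume_eq_prod] at hint ⊢
  rw [setIntegral_prod _ hint]
  apply setIntegral_congr_fun measurableSet_Ioo
  intro s hs
  simp only [smul_eq_mul]
  rw [integral_const_mul]
  congr 1
  rw [Real.circleAverage, smul_eq_mul, ← mul_assoc, mul_inv_cancel₀ (by positivity), one_mul,
    ← integral_Ioc_eq_integral_Ioo, ← intervalIntegral.integral_of_le (by linarith [Real.pi_pos])]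
  have hper : Function.Periodic (fun θ => v (circleMap z s θ)) (2 * Real.pi) := by
    intro θ
    simp only
    rw [periodic_circleMap z s θ]
  have := hper.intervalIntegral_add_eq (-Real.pi) 0
  rw [zero_add] at this
  rw [← this]
  congr 1
  ring

lemma abs_log_le {t : ℝ} (ht : 0 ≤ t) : |Real.log t| ≤ t + t⁻¹ := by
  rcases ht.eq_or_lt with h | h
  · rw [← h]; simp
  · rw [abs_le]
    have h1 := Real.log_le_sub_one_of_pos h
    have h2 := Real.log_le_sub_one_of_pos (inv_pos.2 h)
    rw [Real.log_inv] at h2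
    have h3 : 0 < t⁻¹ := inv_pos.2 h
    constructor <;> linarith

lemma measurable_log (s : ℂ) : Measurable fun z : ℂ => Real.log ‖z - s‖ :=
  Real.measurable_log.comp (by fun_prop)

lemma log_integrable (s c : ℂ) (R : ℝ) : IntegrableOn (fun z => Real.log ‖z - s‖) (ball c R) := by
  refine ⟨(measurable_log s).aestronglyMeasurable, ?_⟩
  unfold HasFiniteIntegral
  set B : ℝ := |R| + ‖c - s‖ + 1 with hB
  have hpt : ∀ z ∈ ball c R, ‖Real.log ‖z - s‖‖ₑ ≤
      ENNReal.ofReal B + (ball s 1).indicator (fun z => (ENNReal.ofReal ‖z - s‖)⁻¹) z := by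
    intro z hz
    rw [mem_ball, dist_eq_norm] at hz
    have h1 : ‖z - s‖ ≤ |R| + ‖c - s‖ := by
      calc ‖z - s‖ = ‖(z - c) + (c - s)‖ := by ring_nf
        _ ≤ ‖z - c‖ + ‖c - s‖ := norm_add_le _ _
        _ ≤ |R| + ‖c - s‖ := by gcongr; exact hz.le.trans (le_abs_self R)
    have h2 := abs_log_le (norm_nonneg (z - s))
    rw [← ofReal_norm_eq_enorm, Real.norm_eq_abs]
    by_cases hzs : z ∈ ball s 1
    · rw [indicator_of_mem hzs]
      by_cases h0 : ‖z - s‖ = 0
      · rw [h0]; simp
      · have hpos : 0 < ‖z - s‖ := lt_of_le_of_ne (norm_nonneg _) (Ne.symm h0)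
        rw [← ENNReal.ofReal_inv_of_pos hpos, ← ENNReal.ofReal_add (by positivity) (by positivity)]
        apply ENNReal.ofReal_le_ofReal
        linarith
    · rw [indicator_of_notMem hzs, add_zero]
      apply ENNReal.ofReal_le_ofReal
      rw [mem_ball, dist_eq_norm, not_lt] at hzs
      have : ‖z - s‖⁻¹ ≤ 1 := inv_le_one_of_one_le₀ hzs
      linarith
  refine lt_of_le_of_lt (setLIntegral_mono' measurableSet_ball hpt) ?_
  rw [lintegral_add_left measurable_const, setLIntegral_const]
  refine ENNReal.add_lt_top.2 ⟨ENNReal.mul_lt_top ENNReal.ofReal_lt_top measure_ball_lt_top, ?_⟩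
  refine lt_of_le_of_lt (setLIntegral_le_lintegral _ _) ?_
  rw [lintegral_indicator measurableSet_ball]
  exact lt_of_le_of_lt (Pool.Agent.Helper56.Equi.lintegral_inv_ball s) ENNReal.ofReal_lt_top

/-- circle averages of the logarithmic kernel -/
lemma avg_log {c s : ℂ} {ρ : ℝ} (hρ : 0 < ρ) :
    Real.circleAverage (fun z => Real.log ‖z - s‖) c ρ = Real.log (max ρ ‖c - s‖) := by
  have h := circleAverage_log_norm_sub_const_eq_log_radius_add_posLog (R := ρ) (c := c) (a := s) hρ.ne'
  rw [h]
  rcases le_total ‖c - s‖ ρ with h1 | h1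
  · rw [max_eq_left h1, Real.posLog_eq_zero_iff _ |>.2, add_zero]
    rw [abs_of_nonneg (by positivity)]
    rw [inv_mul_le_iff₀ hρ, mul_one]
    exact h1
  · rw [max_eq_right h1, Real.posLog_eq_log, Real.log_mul (inv_ne_zero hρ.ne') (by linarith), Real.log_inv]
    · ring
    · rw [abs_of_nonneg (by positivity), inv_mul_eq_div, le_div_iff₀ hρ, one_mul]
      exact h1

/-- the area mean of the logarithmic kernel -/
noncomputable def kk (R t : ℝ) : ℝ :=
  if t < R then Real.log R - 1 / 2 + t ^ 2 / (2 * R ^ 2) else Real.log t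

lemma integral_mul_log {t R : ℝ} (ht : 0 ≤ t) (htR : t ≤ R) :
    ∫ s in t..R, s * Real.log s = (R * (R * Real.log R) / 2 - R ^ 2 / 4) -
      (t * (t * Real.log t) / 2 - t ^ 2 / 4) := by
  have hc : Continuous fun s : ℝ => s * Real.log s := Real.continuous_mul_log
  apply intervalIntegral.integral_eq_sub_of_hasDerivAt_of_le htR
    (f := fun s => s * (s * Real.log s) / 2 - s ^ 2 / 4)
  · exact (((continuous_id.mul hc).div_const 2).sub ((continuous_pow 2).div_const 4)).continuousOn
  · intro x hx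
    have hx0 : x ≠ 0 := by linarith [hx.1]
    have h1 : HasDerivAt (fun s : ℝ => s * (s * Real.log s) / 2 - s ^ 2 / 4)
        ((1 * (x * Real.log x) + x * (1 * Real.log x + x * x⁻¹)) / 2 - (2 * x) / 4) x := by
      have h2 := (hasDerivAt_id x).mul (Real.hasDerivAt_log hx0)
      have h3 := (hasDerivAt_id x).mul h2
      have h4 : HasDerivAt (fun s : ℝ => s ^ 2) (2 * x) x := by
        simpa using hasDerivAt_pow 2 x
      exact (h3.div_const 2).sub (h4.div_const 4)
    have h5 : (1 * (x * Real.log x) + x * (1 * Real.log x + x * x⁻¹)) / 2 - (2 * x) / 4 =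
        x * Real.log x := by
      rw [mul_inv_cancel₀ hx0]; ring
    rw [h5] at h1
    exact h1
  · exact hc.intervalIntegrable _ _

theorem area_log {c s : ℂ} {R : ℝ} (hR : 0 < R) :
    ∫ z in ball c R, Real.log ‖z - s‖ = Real.pi * R ^ 2 * kk R ‖c - s‖ := by
  rw [polar_int (measurable_log s) (log_integrable s c R)]
  have h1 : ∫ ρ in Ioo 0 R, ρ * (2 * Real.pi *
      Real.circleAverage (fun z => Real.log ‖z - s‖) c ρ) =
      ∫ ρ in (0 : ℝ)..R, ρ * (2 * Real.pi * Real.log (max ρ ‖c - s‖)) := by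
    rw [intervalIntegral.integral_of_le hR.le, integral_Ioc_eq_integral_Ioo]
    apply setIntegral_congr_fun measurableSet_Ioo
    intro ρ hρ
    simp only
    rw [avg_log hρ.1]
  rw [h1]
  set t := ‖c - s‖ with ht
  have ht0 : 0 ≤ t := norm_nonneg _
  unfold kk
  split_ifs with hlt
  · have hc : Continuous fun s : ℝ => s * Real.log s := Real.continuous_mul_log
    have e1 : EqOn (fun ρ : ℝ => ρ * (2 * Real.pi * Real.log (max ρ t)))
        (fun ρ => (2 * Real.pi * Real.log t) * ρ) (uIcc 0 t) := by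
      intro ρ hρ
      rw [uIcc_of_le ht0] at hρ
      simp only
      rw [max_eq_right hρ.2]
      ring
    have e2 : EqOn (fun ρ : ℝ => ρ * (2 * Real.pi * Real.log (max ρ t)))
        (fun ρ => (2 * Real.pi) * (ρ * Real.log ρ)) (uIcc t R) := by
      intro ρ hρ
      rw [uIcc_of_le hlt.le] at hρ
      simp only
      rw [max_eq_left hρ.1]
      ring
    have i1 : IntervalIntegrable (fun ρ : ℝ => ρ * (2 * Real.pi * Real.log (max ρ t))) volume 0 t := by
      rw [intervalIntegrable_congr (e1.mono uIoc_subset_uIcc)]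
      exact Continuous.intervalIntegrable (by fun_prop) _ _
    have i2 : IntervalIntegrable (fun ρ : ℝ => ρ * (2 * Real.pi * Real.log (max ρ t))) volume t R := by
      rw [intervalIntegrable_congr (e2.mono uIoc_subset_uIcc)]
      exact (continuous_const.mul hc).intervalIntegrable _ _
    rw [← intervalIntegral.integral_add_adjacent_intervals i1 i2,
      intervalIntegral.integral_congr e1, intervalIntegral.integral_congr e2,
      intervalIntegral.integral_const_mul, intervalIntegral.integral_const_mul, integral_id,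
      integral_mul_log ht0 hlt.le]
    field_simp
    ring
  · push Not at hlt
    have e1 : EqOn (fun ρ : ℝ => ρ * (2 * Real.pi * Real.log (max ρ t)))
        (fun ρ => (2 * Real.pi * Real.log t) * ρ) (uIcc 0 R) := by
      intro ρ hρ
      rw [uIcc_of_le hR.le] at hρ
      simp only
      rw [max_eq_right (hρ.2.trans hlt)]
      ring
    rw [intervalIntegral.integral_congr e1, intervalIntegral.integral_const_mul, integral_id]
    ring

/-! properties of `kk` -/

lemma kk_of_le {R t : ℝ} (h : R ≤ t) : kk R t = Real.log t := by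
  unfold kk; rw [if_neg (not_lt.2 h)]

lemma kk_of_lt {R t : ℝ} (h : t < R) : kk R t = Real.log R - 1 / 2 + t ^ 2 / (2 * R ^ 2) := by
  unfold kk; rw [if_pos h]

lemma log_sq_le {x : ℝ} (hx : 0 < x) : 2 * Real.log x ≤ x ^ 2 - 1 := by
  have h1 := Real.log_le_sub_one_of_pos (show 0 < x ^ 2 by positivity)
  rw [Real.log_pow] at h1
  push_cast at h1
  exact h1

lemma log_le_kk {R t : ℝ} (hR : 0 < R) (ht : 0 < t) : Real.log t ≤ kk R t := by
  rcases lt_or_ge t R with h | h
  · rw [kk_of_lt h]
    have h1 := log_sq_le (show 0 < t / R by positivity)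
    rw [Real.log_div ht.ne' hR.ne', div_pow] at h1
    have h2 : t ^ 2 / (2 * R ^ 2) = (t ^ 2 / R ^ 2) / 2 := by field_simp
    rw [h2]
    linarith
  · rw [kk_of_le h]

lemma kk_mono {r R t : ℝ} (hr : 0 < r) (hrR : r ≤ R) (ht : 0 ≤ t) : kk r t ≤ kk R t := by
  have hR : 0 < R := by linarith
  rcases lt_or_ge t r with h | h
  · rw [kk_of_lt h, kk_of_lt (lt_of_lt_of_le h hrR)]
    have h1 := log_sq_le (show 0 < r / R by positivity)
    rw [Real.log_div hr.ne' hR.ne', div_pow] at h1
    have h2 : t ^ 2 / (2 * r ^ 2) - t ^ 2 / (2 * R ^ 2) ≤ (1 - r ^ 2 / R ^ 2) / 2 := by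
      have h3 : t ^ 2 / (2 * r ^ 2) - t ^ 2 / (2 * R ^ 2) = (t ^ 2 / r ^ 2) * ((1 - r ^ 2 / R ^ 2) / 2) := by
        field_simp
      have h4 : t ^ 2 / r ^ 2 ≤ 1 := by
        rw [div_le_one (by positivity)]
        gcongr
      have h5 : 0 ≤ (1 - r ^ 2 / R ^ 2) / 2 := by
        have : r ^ 2 / R ^ 2 ≤ 1 := by
          rw [div_le_one (by positivity)]
          gcongr
        linarith
      rw [h3]
      nlinarith
    linarith
  · rw [kk_of_le h]
    exact log_le_kk' hr hR h
where
  log_le_kk' {r R t : ℝ} (hr : 0 < r) (hR : 0 < R) (h : r ≤ t) : Real.log t ≤ kk R t :=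
    log_le_kk hR (lt_of_lt_of_le hr h)

lemma kk_sub_le {r R t : ℝ} (hr : 0 < r) (hrR : r ≤ R) (ht : 0 ≤ t) :
    kk R t - kk r t ≤ Real.log (R / r) := by
  have hR : 0 < R := by linarith
  rw [Real.log_div hR.ne' hr.ne']
  rcases lt_or_ge t r with h | h
  · rw [kk_of_lt h, kk_of_lt (lt_of_lt_of_le h hrR)]
    have h3 : t ^ 2 / (2 * R ^ 2) ≤ t ^ 2 / (2 * r ^ 2) := by gcongr
    linarith
  · rw [kk_of_le h]
    have h0 : Real.log r ≤ Real.log t := Real.log_le_log hr h
    rcases lt_or_ge t R with h1 | h1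
    · rw [kk_of_lt h1]
      have h3 : t ^ 2 / (2 * R ^ 2) ≤ 1 / 2 := by
        rw [div_le_div_iff₀ (by positivity) (by norm_num)]
        nlinarith
      linarith
    · rw [kk_of_le h1]
      have : Real.log r ≤ Real.log R := Real.log_le_log hr hrR
      linarith

lemma kk_measurable (R : ℝ) : Measurable (kk R) := by
  unfold kk
  exact Measurable.ite measurableSet_Iio (by fun_prop) Real.measurable_log

/-- Lipschitz bound -/
lemma kk_lip_aux {R t t' : ℝ} (hR : 0 < R) (ht : 0 ≤ t) (htt : t ≤ t') :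
    kk R t ≤ kk R t' ∧ kk R t' - kk R t ≤ (t' - t) / R := by
  have hlog : ∀ {x y : ℝ}, R ≤ x → x ≤ y → Real.log y - Real.log x ≤ (y - x) / R := by
    intro x y hx hxy
    have hx0 : 0 < x := by linarith
    have hy0 : 0 < y := by linarith
    have h1 := Real.log_le_sub_one_of_pos (show 0 < y / x by positivity)
    rw [Real.log_div hy0.ne' hx0.ne'] at h1
    have h2 : y / x - 1 = (y - x) / x := by field_simp
    rw [h2] at h1
    exact h1.trans (div_le_div_of_nonneg_left (by linarith) hR hx)
  have hquad : ∀ {x y : ℝ}, 0 ≤ x → x ≤ y → y ≤ R →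
      0 ≤ y ^ 2 / (2 * R ^ 2) - x ^ 2 / (2 * R ^ 2) ∧
      y ^ 2 / (2 * R ^ 2) - x ^ 2 / (2 * R ^ 2) ≤ (y - x) / R := by
    intro x y hx hxy hy
    have h1 : y ^ 2 / (2 * R ^ 2) - x ^ 2 / (2 * R ^ 2) = ((y + x) / (2 * R)) * ((y - x) / R) := by
      field_simp
      ring
    rw [h1]
    have h2 : (y + x) / (2 * R) ≤ 1 := by
      rw [div_le_one (by positivity)]
      linarith
    have h3 : 0 ≤ (y - x) / R := div_nonneg (by linarith) hR.le
    have h4 : 0 ≤ (y + x) / (2 * R) := div_nonneg (by linarith) (by positivity)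
    constructor
    · positivity
    · nlinarith
  rcases lt_or_ge t' R with h | h
  · rw [kk_of_lt h, kk_of_lt (lt_of_le_of_lt htt h)]
    obtain ⟨h1, h2⟩ := hquad ht htt h.le
    constructor <;> linarith
  · rcases lt_or_ge t R with h' | h'
    · rw [kk_of_le h, kk_of_lt h']
      obtain ⟨h1, h2⟩ := hquad ht h'.le le_rfl
      have h3 := hlog le_rfl h
      have h5 : Real.log R ≤ Real.log t' := Real.log_le_log hR h
      have h4 : R ^ 2 / (2 * R ^ 2) = 1 / 2 := by field_simp
      rw [h4] at h1 h2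
      have h6 : (t' - t) / R = (t' - R) / R + (R - t) / R := by ring
      constructor
      · linarith
      · rw [h6]; linarith
    · rw [kk_of_le h, kk_of_le h']
      exact ⟨Real.log_le_log (by linarith) htt, hlog h' htt⟩

lemma kk_lip {R t t' : ℝ} (hR : 0 < R) (ht : 0 ≤ t) (ht' : 0 ≤ t') :
    |kk R t - kk R t'| ≤ |t - t'| / R := by
  rcases le_total t t' with h | h
  · obtain ⟨h1, h2⟩ := kk_lip_aux hR ht h
    rw [abs_sub_comm, abs_sub_comm t, abs_of_nonneg (by linarith), abs_of_nonneg (by linarith)]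
    exact h2
  · obtain ⟨h1, h2⟩ := kk_lip_aux hR ht' h
    rw [abs_of_nonneg (by linarith), abs_of_nonneg (by linarith)]
    exact h2

end Pool.Agent.Helper59.EP
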