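import Mathlib
import Pool.Agent.Helper59.EPa
import Pool.Agent.Helper59.EPc
import Pool.Agent.Helper59.EPd
import Pool.Agent.Helper65.Lift
import Pool.Agent.Helper65.Green
import Pool.Agent.Helper56.Equi.D

/-! Equidistribution for the measure of maximal entropy. -/

open Complex Metric Set Filter Topology MeasureTheory Polynomial
open scoped ENNReal

namespace Pool.Agent.Helper59.EP

open Pool.Agent.Helper65

lemma fp_ne0 {Q : RatFunc ℂ} (hQ : 1 ≤ deg Q) (a : ℂ) : fp Q a ≠ 0 := by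
  have := lin_ne_zero hQ (pt_ne_zero a)
  simpa [fp] using this

lemma fp_natDegree_le (Q : RatFunc ℂ) (a : ℂ) : (fp Q a).natDegree ≤ deg Q := by
  unfold fp
  refine (natDegree_sub_le _ _).trans (max_le (natDegree_num_le Q) ?_)
  exact (natDegree_C_mul_le _ _).trans (natDegree_denom_le Q)

lemma fp_eval (Q : RatFunc ℂ) (a z : ℂ) : (fp Q a).eval z = wd (RLift Q (z, 1)) (a, 1) := by
  rw [RLift_pt]
  simp only [fp, wd, eval_sub, eval_mul, eval_C]
  ring

lemma RLift_X (v : C2) : RLift (RatFunc.X : RatFunc ℂ) v = v := by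
  have hd : deg (RatFunc.X : RatFunc ℂ) = 1 := by simp [deg]
  unfold RLift
  rw [hd]
  ext
  · simp [homP, Finset.sum_range_succ]
  · simp [homP, coeff_one]

lemma RLift_iter {P : RatFunc ℂ} (hP : 1 ≤ deg P) (m : ℕ) :
    ∃ c : ℂ, c ≠ 0 ∧ ∀ v, RLift (iter P m) v = c • (RLift P)^[m] v := by
  induction m with
  | zero =>
    refine ⟨1, one_ne_zero, fun v => ?_⟩
    show RLift RatFunc.X v = _
    rw [RLift_X, one_smul]
    rfl
  | succ m ih =>
    obtain ⟨c, hc, h⟩ := ih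
    obtain ⟨c', hc', h'⟩ := RLift_comp hP (deg_pos (nc_iter hP m))
    refine ⟨c'⁻¹ * c ^ deg P, mul_ne_zero (inv_ne_zero hc') (pow_ne_zero _ hc), fun v => ?_⟩
    have h1 := h' v
    rw [h, (isLift_RLift hP).hom] at h1
    rw [iter_succ, Function.iterate_succ_apply', mul_smul, h1, smul_smul, inv_mul_cancel₀ hc',
      one_smul]

lemma roots_finite {p : ℂ[X]} (hp : p ≠ 0) : {z | p.eval z = 0}.Finite := by
  refine (p.rootSet_finite ℂ).subset fun z hz => ?_
  rw [Polynomial.mem_rootSet]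
  exact ⟨hp, by simpa using hz⟩

lemma sum_map_log {p : ℂ[X]} (hp : p ≠ 0) {z : ℂ} (hz : p.eval z ≠ 0) :
    Real.log ‖p.eval z‖ = Real.log ‖p.leadingCoeff‖ +
      (p.roots.map fun ζ => Real.log ‖z - ζ‖).sum := by
  have h1 := (IsAlgClosed.splits p).eval_eq_prod_roots z
  have key : ∀ s : Multiset ℂ, (∀ ζ ∈ s, z - ζ ≠ 0) →
      Real.log ‖(s.map fun ζ => z - ζ).prod‖ = (s.map fun ζ => Real.log ‖z - ζ‖).sum := by
    intro s
    induction s using Multiset.induction_on with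
    | empty => simp
    | cons b s ih =>
      intro h
      simp only [Multiset.map_cons, Multiset.prod_cons, Multiset.sum_cons]
      have hb : z - b ≠ 0 := h b (Multiset.mem_cons_self b s)
      have hs : (s.map fun ζ => z - ζ).prod ≠ 0 := by
        apply Multiset.prod_ne_zero
        intro h0
        obtain ⟨y, hy, hy0⟩ := Multiset.mem_map.1 h0
        exact h y (Multiset.mem_cons_of_mem hy) hy0
      rw [norm_mul, Real.log_mul (norm_ne_zero_iff.2 hb) (norm_ne_zero_iff.2 hs),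
        ih fun ζ hζ => h ζ (Multiset.mem_cons_of_mem hζ)]
  have hne : ∀ ζ ∈ p.roots, z - ζ ≠ 0 := by
    intro ζ hζ h0
    apply hz
    rw [mem_roots hp] at hζ
    rw [sub_eq_zero.1 h0]
    exact hζ
  have hprod : (p.roots.map fun ζ => z - ζ).prod ≠ 0 := by
    intro h0
    apply hz
    rw [h1, h0, mul_zero]
  rw [h1, norm_mul, Real.log_mul (norm_ne_zero_iff.2 (leadingCoeff_ne_zero.2 hp))
    (norm_ne_zero_iff.2 hprod), key _ hne]

lemma ae_ne {p : ℂ[X]} (hp : p ≠ 0) (c : ℂ) (R : ℝ) :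
    ∀ᵐ z ∂(volume.restrict (ball c R)), p.eval z ≠ 0 := by
  apply ae_restrict_of_ae
  exact measure_eq_zero_iff_ae_notMem.1 ((roots_finite hp).measure_zero volume)

lemma sum_integrable (s : Multiset ℂ) (c : ℂ) {R : ℝ} (hR : 0 < R) :
    IntegrableOn (fun z => (s.map fun ζ => Real.log ‖z - ζ‖).sum) (ball c R) ∧
    ∫ z in ball c R, (s.map fun ζ => Real.log ‖z - ζ‖).sum =
      Real.pi * R ^ 2 * (s.map fun ζ => kk R ‖c - ζ‖).sum := by
  induction s using Multiset.induction_on with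
  | empty =>
    simp only [Multiset.map_zero, Multiset.sum_zero, integral_zero, mul_zero, and_true]
    exact integrableOn_zero
  | cons b s ih =>
    simp only [Multiset.map_cons, Multiset.sum_cons]
    refine ⟨(log_integrable b c R).add ih.1, ?_⟩
    rw [integral_add (log_integrable b c R) ih.1, ih.2, area_log hR]
    ring

lemma vol_ball (c : ℂ) {R : ℝ} (hR : 0 ≤ R) : volume.real (ball c R) = Real.pi * R ^ 2 := by
  rw [Measure.real, Complex.volume_ball, ENNReal.toReal_mul, ENNReal.toReal_pow,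
    ENNReal.toReal_ofReal hR]
  simp
  ring

lemma area_poly {p : ℂ[X]} (hp : p ≠ 0) (c : ℂ) {R : ℝ} (hR : 0 < R) :
    IntegrableOn (fun z => Real.log ‖p.eval z‖) (ball c R) ∧
    ∫ z in ball c R, Real.log ‖p.eval z‖ =
      Real.pi * R ^ 2 * (Real.log ‖p.leadingCoeff‖ + (p.roots.map fun ζ => kk R ‖c - ζ‖).sum) := by
  obtain ⟨h1, h2⟩ := sum_integrable p.roots c hR
  have hconst : IntegrableOn (fun _ : ℂ => Real.log ‖p.leadingCoeff‖) (ball c R) :=
    integrableOn_const measure_ball_lt_top.ne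
  have hae : (fun z => Real.log ‖p.eval z‖) =ᵐ[volume.restrict (ball c R)] fun z =>
      Real.log ‖p.leadingCoeff‖ + (p.roots.map fun ζ => Real.log ‖z - ζ‖).sum := by
    filter_upwards [ae_ne hp c R] with z hz
    exact sum_map_log hp hz
  have hsum := hconst.add h1
  refine ⟨hsum.congr_fun_ae hae.symm, ?_⟩
  rw [integral_congr_ae hae, integral_add hconst h1, h2, setIntegral_const, smul_eq_mul,
    vol_ball c hR.le]
  ring

/-- area mean -/
noncomputable def AA (c : ℂ) (R : ℝ) (u : ℂ → ℝ) : ℝ := (Real.pi * R ^ 2)⁻¹ * ∫ z in ball c R, u z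

lemma mean_close {u w : ℂ → ℝ} {c : ℂ} {R R' ε : ℝ} (hu : IntegrableOn u (ball c R))
    (hw : IntegrableOn w (ball c R)) (hsub : ball c R ⊆ ball 0 R') (hε : 0 ≤ ε)
    (h : ∫⁻ z in ball (0 : ℂ) R', ENNReal.ofReal |u z - w z| ≤ ENNReal.ofReal ε) :
    |(∫ z in ball c R, u z) - ∫ z in ball c R, w z| ≤ ε := by
  rw [← integral_sub hu hw]
  have h1 := abs_integral_le_integral_abs (f := fun z => u z - w z) (μ := volume.restrict (ball c R))
  refine h1.trans ?_
  have h2 : Integrable (fun z => |u z - w z|) (volume.restrict (ball c R)) := (hu.sub hw).abs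
  have h3 : ENNReal.ofReal (∫ z in ball c R, |u z - w z|) ≤ ENNReal.ofReal ε := by
    rw [ofReal_integral_eq_lintegral_ofReal h2 (Eventually.of_forall fun z => abs_nonneg _)]
    exact (lintegral_mono_set hsub).trans h
  exact (ENNReal.ofReal_le_ofReal_iff hε).1 h3

/-- the test function -/
noncomputable def psi (c : ℂ) (R r : ℝ) (s : ℂ) : ℝ := kk R ‖c - s‖ - kk r ‖c - s‖

lemma psi_measurable (c : ℂ) (R r : ℝ) : Measurable (psi c R r) := by
  unfold psi
  exact ((kk_measurable R).comp (by fun_prop)).sub ((kk_measurable r).comp (by fun_prop))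

lemma psi_nonneg {c : ℂ} {R r : ℝ} (hr : 0 < r) (hrR : r ≤ R) (s : ℂ) : 0 ≤ psi c R r s :=
  sub_nonneg.2 (kk_mono hr hrR (norm_nonneg _))

lemma psi_le {c : ℂ} {R r : ℝ} (hr : 0 < r) (hrR : r ≤ R) (s : ℂ) : psi c R r s ≤ Real.log (R / r) :=
  kk_sub_le hr hrR (norm_nonneg _)

lemma psi_abs {c : ℂ} {R r : ℝ} (hr : 0 < r) (hrR : r ≤ R) (s : ℂ) :
    |psi c R r s| ≤ Real.log (R / r) := by
  rw [abs_of_nonneg (psi_nonneg hr hrR s)]
  exact psi_le hr hrR s

lemma rsum_bound {Q : RatFunc ℂ} {ψ : ℂ → ℝ} {B : ℝ} (hψ : ∀ s, |ψ s| ≤ B) (hB : 0 ≤ B) (a : ℂ) :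
    |rsum Q ψ a| ≤ deg Q * B := by
  unfold rsum
  have key : ∀ s : Multiset ℂ, |(s.map ψ).sum| ≤ Multiset.card s * B := by
    intro s
    induction s using Multiset.induction_on with
    | empty => simp
    | cons b s ih =>
      simp only [Multiset.map_cons, Multiset.sum_cons, Multiset.card_cons, Nat.cast_add, Nat.cast_one]
      have := abs_add_le (ψ b) (s.map ψ).sum
      have := hψ b
      linarith
  refine (key _).trans ?_
  have h1 : Multiset.card (fp Q a).roots ≤ deg Q := (card_roots' _).trans (fp_natDegree_le Q a)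
  have h2 : ((Multiset.card (fp Q a).roots : ℕ) : ℝ) ≤ deg Q := by exact_mod_cast h1
  gcongr

lemma rsum_psi {Q : RatFunc ℂ} (hQ : 1 ≤ deg Q) (a c : ℂ) {R r : ℝ} (hR : 0 < R) (hr : 0 < r) :
    rsum Q (psi c R r) a = AA c R (fun z => Real.log ‖(fp Q a).eval z‖) -
      AA c r (fun z => Real.log ‖(fp Q a).eval z‖) := by
  unfold AA rsum psi
  rw [(area_poly (fp_ne0 hQ a) c hR).2, (area_poly (fp_ne0 hQ a) c hr).2]
  have h1 : (Real.pi * R ^ 2) ≠ 0 := by positivity
  have h2 : (Real.pi * r ^ 2) ≠ 0 := by positivity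
  rw [inv_mul_cancel_left₀ h1, inv_mul_cancel_left₀ h2, Multiset.sum_map_sub]
  ring

section
variable {P : RatFunc ℂ} {G : C2 → ℝ}

/-- pointwise convergence -/
lemma pointwise (hP : 2 ≤ deg P) (hG : IsGreen G)
    (hGf : ∀ v, v ≠ 0 → G (RLift P v) = deg P * G v) (c : ℂ) {R r : ℝ} (hr : 0 < r) (hrR : r ≤ R)
    {a : ℂ} (ha : ¬ Only ((RLift P)^[6]) (a, 1) (a, 1)) :
    Tendsto (fun n : ℕ => (1 / ((deg P : ℝ) ^ 6) ^ n) * rsum (iter P (6 * n)) (psi c R r) a) atTop
      (𝓝 (AA c R (gu G) - AA c r (gu G))) := by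
  have hR : 0 < R := by linarith
  have hP1 : 1 ≤ deg P := by omega
  have hf := isLift_RLift hP1
  set f := RLift P with hfdef
  set g := f^[6] with hg
  set D := deg P ^ 6 with hD
  have hD2 : 2 ≤ D := by
    calc 2 ≤ deg P := hP
      _ = deg P ^ 1 := (pow_one _).symm
      _ ≤ deg P ^ 6 := Nat.pow_le_pow_right (by omega) (by norm_num)
  have hgL : IsLift D g := isLift_iterate hf 6
  have hGg : ∀ v, v ≠ 0 → G (g v) = D * G v := by
    intro v hv
    rw [hg, Pool.Agent.Helper56.Equi.green_iterate hf hGf 6 hv, hD]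
    push_cast
    ring
  have hS : ∀ ξ η : C2, ξ ≠ 0 → η ≠ 0 → Only g ξ η → Only g ξ ξ := fun ξ η hξ hη h =>
    self_only hP hf hξ hη h
  obtain ⟨c0, hc0, hB⟩ := xiC_back hD2 hgL
  obtain ⟨c1, hc1, hmem⟩ := xiC_mem hD2 hgL (pt_ne_zero a) ha
  set κ := min c0 c1 with hκ
  have hκ0 : 0 < κ := lt_min hc0 hc1
  have hBI := hB κ hκ0 (min_le_left _ _)
  have hNTR := xiC_ntr hD2 hgL hS hκ0
  have haΞ : ((a, 1) : C2) ∈ XiC g κ := hmem κ (min_le_right _ _)
  have hna : 0 < ‖((a, 1) : C2)‖ := norm_pos_iff.2 (pt_ne_zero a)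
  set ξ : C2 := ((‖((a, 1) : C2)‖ : ℂ)⁻¹) • ((a, 1) : C2) with hξ
  have hξΞ : ξ ∈ XiC g κ := hBI.cone _ _ haΞ
  have hξ1 : ‖ξ‖ = 1 := by
    rw [hξ, norm_smul, norm_inv, Complex.norm_real, norm_norm, inv_mul_cancel₀ hna.ne']
  -- radius
  set R' : ℝ := ‖c‖ + R with hR'
  have hsubR : ball c R ⊆ ball 0 R' := by
    intro z hz
    rw [mem_ball, dist_zero_right]
    rw [mem_ball, dist_eq_norm] at hz
    calc ‖z‖ = ‖(z - c) + c‖ := by ring_nf
      _ ≤ ‖z - c‖ + ‖c‖ := norm_add_le _ _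
      _ < R' := by rw [hR']; linarith
  have hsubr : ball c r ⊆ ball 0 R' := (ball_subset_ball hrR).trans hsubR
  have hucont : Continuous (gu G) := Pool.Agent.Helper56.Equi.gu_continuous hG
  have huint : ∀ ρ, IntegrableOn (gu G) (ball c ρ) := fun ρ =>
    (hucont.continuousOn.integrableOn_compact (isCompact_closedBall c ρ)).mono_set
      ball_subset_closedBall
  -- the identity
  have hid : ∀ n : ℕ, (1 / ((deg P : ℝ) ^ 6) ^ n) * rsum (iter P (6 * n)) (psi c R r) a =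
      AA c R (fun z => (1 / (D : ℝ) ^ n) * Real.log ‖wd (g^[n] (z, 1)) ξ‖) -
      AA c r (fun z => (1 / (D : ℝ) ^ n) * Real.log ‖wd (g^[n] (z, 1)) ξ‖) ∧
      (∀ ρ, 0 < ρ → IntegrableOn (fun z => (1 / (D : ℝ) ^ n) * Real.log ‖wd (g^[n] (z, 1)) ξ‖)
        (ball c ρ)) := by
    intro n
    have hQ1 : 1 ≤ deg (iter P (6 * n)) := deg_pos (nc_iter hP1 _)
    obtain ⟨k, hk, hkv⟩ := RLift_iter hP1 (6 * n)
    have hit : f^[6 * n] = g^[n] := by rw [hg, Function.iterate_mul]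
    rw [← hfdef, hit] at hkv
    have hne : ((‖((a, 1) : C2)‖ : ℂ)) ≠ 0 := by exact_mod_cast hna.ne'
    have hax : ((a, 1) : C2) = (‖((a, 1) : C2)‖ : ℂ) • ξ := by
      rw [hξ, smul_smul, mul_inv_cancel₀ hne, one_smul]
    have heval : ∀ z, (fp (iter P (6 * n)) a).eval z = (k * (‖((a, 1) : C2)‖ : ℂ)) *
        wd (g^[n] (z, 1)) ξ := by
      intro z
      rw [fp_eval, hkv, wd_smul_left]
      conv_lhs => rw [hax, wd_smul_right]
      ring
    set q : ℂ := k * (‖((a, 1) : C2)‖ : ℂ) with hq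
    have hq0 : q ≠ 0 := mul_ne_zero hk hne
    have hae : ∀ ρ, (fun z => Real.log ‖wd (g^[n] (z, 1)) ξ‖) =ᵐ[volume.restrict (ball c ρ)]
        fun z => Real.log ‖(fp (iter P (6 * n)) a).eval z‖ - Real.log ‖q‖ := by
      intro ρ
      filter_upwards [ae_ne (fp_ne0 hQ1 a) c ρ] with z hz
      rw [heval] at hz ⊢
      rw [norm_mul, Real.log_mul (norm_ne_zero_iff.2 hq0) (norm_ne_zero_iff.2 (right_ne_zero_of_mul hz))]
      ring
    have hconst : ∀ ρ, IntegrableOn (fun _ : ℂ => Real.log ‖q‖) (ball c ρ) := fun ρ =>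
      integrableOn_const measure_ball_lt_top.ne
    have hA : ∀ ρ, 0 < ρ → AA c ρ (fun z => (1 / (D : ℝ) ^ n) * Real.log ‖wd (g^[n] (z, 1)) ξ‖) =
        (1 / (D : ℝ) ^ n) * (AA c ρ (fun z => Real.log ‖(fp (iter P (6 * n)) a).eval z‖) -
          Real.log ‖q‖) := by
      intro ρ hρ
      unfold AA
      rw [integral_const_mul, integral_congr_ae (hae ρ),
        integral_sub (area_poly (fp_ne0 hQ1 a) c hρ).1 (hconst ρ), setIntegral_const, smul_eq_mul,
        vol_ball c hρ.le]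
      have h4 : (Real.pi * ρ ^ 2) ≠ 0 := by positivity
      field_simp
    refine ⟨?_, fun ρ hρ => ?_⟩
    · rw [rsum_psi hQ1 a c hR hr, hA R hR, hA r hr, hD]
      push_cast
      ring
    · apply Integrable.const_mul
      exact ((area_poly (fp_ne0 hQ1 a) c hρ).1.sub (hconst ρ)).congr (hae ρ).symm
  rw [Metric.tendsto_atTop]
  intro ε hε
  have hpr : 0 < Real.pi * r ^ 2 := by positivity
  have hpR : 0 < Real.pi * R ^ 2 := by positivity
  set ε' : ℝ := ε * (Real.pi * r ^ 2) / 3 with hε'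
  have hε'0 : 0 < ε' := by positivity
  obtain ⟨n0, hn0⟩ := Pool.Agent.Helper56.Equi.equi_L1 hD2 hgL hG hGg hBI hNTR R' hε'0
  refine ⟨n0, fun n hn => ?_⟩
  obtain ⟨h1, h2⟩ := hid n
  rw [h1, Real.dist_eq]
  have h3 := hn0 n hn ξ hξΞ hξ1
  have h4 := mean_close (huint R) (h2 R hR) hsubR hε'0.le h3
  have h5 := mean_close (huint r) (h2 r hr) hsubr hε'0.le h3
  unfold AA
  have h6 : (Real.pi * R ^ 2)⁻¹ * ε' ≤ ε / 3 := by
    rw [inv_mul_le_iff₀ hpR, hε']
    have : Real.pi * r ^ 2 ≤ Real.pi * R ^ 2 := by gcongr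
    nlinarith
  have h7 : (Real.pi * r ^ 2)⁻¹ * ε' ≤ ε / 3 := by
    rw [inv_mul_le_iff₀ hpr, hε']
    apply le_of_eq
    ring
  set IR := ∫ z in ball c R, gu G z
  set Ir := ∫ z in ball c r, gu G z
  set JR := ∫ z in ball c R, (1 / (D : ℝ) ^ n) * Real.log ‖wd (g^[n] (z, 1)) ξ‖
  set Jr := ∫ z in ball c r, (1 / (D : ℝ) ^ n) * Real.log ‖wd (g^[n] (z, 1)) ξ‖
  have h8 : |(Real.pi * R ^ 2)⁻¹ * (IR - JR)| ≤ ε / 3 := by
    rw [abs_mul, abs_of_pos (inv_pos.2 hpR)]
    exact (mul_le_mul_of_nonneg_left h4 (inv_pos.2 hpR).le).trans h6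
  have h9 : |(Real.pi * r ^ 2)⁻¹ * (Ir - Jr)| ≤ ε / 3 := by
    rw [abs_mul, abs_of_pos (inv_pos.2 hpr)]
    exact (mul_le_mul_of_nonneg_left h5 (inv_pos.2 hpr).le).trans h7
  have h10 : (Real.pi * R ^ 2)⁻¹ * JR - (Real.pi * r ^ 2)⁻¹ * Jr -
      ((Real.pi * R ^ 2)⁻¹ * IR - (Real.pi * r ^ 2)⁻¹ * Ir) =
      -((Real.pi * R ^ 2)⁻¹ * (IR - JR)) + (Real.pi * r ^ 2)⁻¹ * (Ir - Jr) := by ring
  rw [h10]
  have h11 := abs_add_le (-((Real.pi * R ^ 2)⁻¹ * (IR - JR))) ((Real.pi * r ^ 2)⁻¹ * (Ir - Jr))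
  rw [abs_neg] at h11
  linarith

theorem star (hP : 2 ≤ deg P) (hG : IsGreen G)
    (hGf : ∀ v, v ≠ 0 → G (RLift P v) = deg P * G v) {μ : Measure ℂ} (hμ : IsMME P μ) (c : ℂ)
    {R r : ℝ} (hr : 0 < r) (hrR : r ≤ R) :
    ∫ s, psi c R r s ∂μ = AA c R (gu G) - AA c r (gu G) := by
  have hP1 : 1 ≤ deg P := by omega
  have := hμ.noAt
  have := hμ.isProb
  have hR : 0 < R := by linarith
  have hlog : 0 ≤ Real.log (R / r) := Real.log_nonneg (by rw [le_div_iff₀ hr]; linarith)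
  have hf := isLift_RLift hP1
  have hD2 : 2 ≤ deg P ^ 6 := by
    calc 2 ≤ deg P := hP
      _ = deg P ^ 1 := (pow_one _).symm
      _ ≤ deg P ^ 6 := Nat.pow_le_pow_right (by omega) (by norm_num)
  have hgL : IsLift (deg P ^ 6) ((RLift P)^[6]) := isLift_iterate hf 6
  have hint : Integrable (psi c R r) μ :=
    (integrable_const (Real.log (R / r))).mono' (psi_measurable c R r).aestronglyMeasurable
      (Eventually.of_forall fun s => by rw [Real.norm_eq_abs]; exact psi_abs hr hrR s)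
  have hch : ∀ n : ℕ, Integrable (rsum (iter P (6 * n)) (psi c R r)) μ ∧
      ∫ a, rsum (iter P (6 * n)) (psi c R r) a ∂μ = ((deg P : ℝ) ^ 6) ^ n * ∫ z, psi c R r z ∂μ := by
    intro n
    have h1 := change_real (deg_pos (nc_iter hP1 (6 * n))) (mme_iter hP1 hμ (6 * n))
      (psi_measurable c R r) hint
    refine ⟨h1.1, ?_⟩
    rw [h1.2, deg_iter hP1, pow_mul]
    push_cast
    ring
  have hdpos : (0 : ℝ) < deg P := by
    have : 0 < deg P := by omega
    exact_mod_cast this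
  have h1 : ∀ n : ℕ, ∫ a, (1 / ((deg P : ℝ) ^ 6) ^ n) * rsum (iter P (6 * n)) (psi c R r) a ∂μ =
      ∫ z, psi c R r z ∂μ := by
    intro n
    rw [integral_const_mul, (hch n).2]
    have : ((deg P : ℝ) ^ 6) ^ n ≠ 0 := by positivity
    field_simp
  have h2 : Tendsto (fun n : ℕ => ∫ a, (1 / ((deg P : ℝ) ^ 6) ^ n) *
      rsum (iter P (6 * n)) (psi c R r) a ∂μ) atTop
      (𝓝 (∫ _, (AA c R (gu G) - AA c r (gu G)) ∂μ)) := by
    apply tendsto_integral_of_dominated_convergence (fun _ => Real.log (R / r))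
    · intro n
      exact ((hch n).1.const_mul _).aestronglyMeasurable
    · exact integrable_const _
    · intro n
      apply Eventually.of_forall
      intro a
      rw [Real.norm_eq_abs, abs_mul, abs_of_pos (by positivity)]
      have h3 := rsum_bound (Q := iter P (6 * n)) (ψ := psi c R r) (psi_abs hr hrR) hlog a
      rw [deg_iter hP1, pow_mul] at h3
      push_cast at h3
      have h4 : (0 : ℝ) < ((deg P : ℝ) ^ 6) ^ n := by positivity
      rw [one_div, inv_mul_le_iff₀ h4]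
      exact h3
    · have hex : (μ {a : ℂ | Only ((RLift P)^[6]) (a, 1) (a, 1)}) = 0 :=
        (exc_finite hD2 hgL).measure_zero μ
      filter_upwards [measure_eq_zero_iff_ae_notMem.1 hex] with a ha
      exact pointwise hP hG hGf c hr hrR ha
  simp only [h1] at h2
  rw [integral_const, probReal_univ, one_smul] at h2
  exact tendsto_nhds_unique tendsto_const_nhds h2

end

end Pool.Agent.Helper59.EP
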