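import Mathlib
import Pool.Agent.Helper59.EPe

/-! Potential representation, and invariance of the Green function under `E(P)`. -/

open Complex Metric Set Filter Topology MeasureTheory Polynomial
open scoped ENNReal

namespace Pool.Agent.Helper59.EP

open Pool.Agent.Helper65

lemma cont_int {u : ℂ → ℝ} (hu : Continuous u) (c : ℂ) (ρ : ℝ) : IntegrableOn u (ball c ρ) :=
  (hu.continuousOn.integrableOn_compact (isCompact_closedBall c ρ)).mono_set ball_subset_closedBall

lemma AA_sub_const {u : ℂ → ℝ} {c : ℂ} {R : ℝ} (hR : 0 < R) (hu : IntegrableOn u (ball c R))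
    (k : ℝ) : AA c R u - k = (Real.pi * R ^ 2)⁻¹ * ∫ z in ball c R, (u z - k) := by
  have hc : IntegrableOn (fun _ : ℂ => k) (ball c R) := integrableOn_const measure_ball_lt_top.ne
  rw [integral_sub hu hc, setIntegral_const, smul_eq_mul, vol_ball c hR.le]
  unfold AA
  have : (Real.pi * R ^ 2) ≠ 0 := by positivity
  field_simp

lemma AA_tendsto_zero {u : ℂ → ℝ} (hu : Continuous u) (c : ℂ) {r : ℕ → ℝ} (hr : ∀ n, 0 < r n)
    (hr0 : Tendsto r atTop (𝓝 0)) : Tendsto (fun n => AA c (r n) u) atTop (𝓝 (u c)) := by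
  rw [Metric.tendsto_atTop]
  intro ε hε
  obtain ⟨δ, hδ, h⟩ := Metric.continuousAt_iff.1 (hu.continuousAt (x := c)) (ε / 2) (by positivity)
  obtain ⟨N, hN⟩ := (hr0.eventually (gt_mem_nhds hδ)).exists_forall_of_atTop
  refine ⟨N, fun n hn => ?_⟩
  rw [Real.dist_eq, AA_sub_const (hr n) (cont_int hu c (r n)), abs_mul,
    abs_of_pos (by have := hr n; positivity)]
  have h1 : ‖∫ z in ball c (r n), (u z - u c)‖ ≤ (ε / 2) * volume.real (ball c (r n)) := by
    apply norm_setIntegral_le_of_norm_le_const measure_ball_lt_top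
    intro z hz
    have := h (show dist z c < δ from lt_trans hz (hN n hn))
    rw [Real.dist_eq] at this
    rw [Real.norm_eq_abs]
    exact this.le
  rw [Real.norm_eq_abs, vol_ball c (hr n).le] at h1
  have h2 : 0 < Real.pi * (r n) ^ 2 := by have := hr n; positivity
  calc (Real.pi * (r n) ^ 2)⁻¹ * |∫ z in ball c (r n), (u z - u c)|
      ≤ (Real.pi * (r n) ^ 2)⁻¹ * ((ε / 2) * (Real.pi * (r n) ^ 2)) := by gcongr
    _ = ε / 2 := by rw [mul_comm (ε / 2), inv_mul_cancel_left₀ h2.ne']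
    _ < ε := by linarith

lemma AA_tendsto_real {w : ℂ → ℝ} (hw : ∀ c R, IntegrableOn w (ball c R)) {κ : ℝ}
    (hlim : Tendsto w (cocompact ℂ) (𝓝 κ)) (c : ℂ) :
    Tendsto (fun R : ℝ => AA c R w) atTop (𝓝 κ) := by
  rw [Metric.tendsto_atTop]
  intro ε hε
  have h1 : ∀ᶠ z in cocompact ℂ, |w z - κ| ≤ ε / 3 := by
    have := (Metric.tendsto_nhds.1 hlim) (ε / 3) (by positivity)
    filter_upwards [this] with z hz
    rw [Real.dist_eq] at hz
    exact hz.le
  obtain ⟨K, hK, hKs⟩ := mem_cocompact.1 h1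
  obtain ⟨ρ, hρ⟩ := hK.isBounded.subset_ball (0 : ℂ)
  have hcst : ∀ ρ' (c' : ℂ), IntegrableOn (fun _ : ℂ => κ) (ball c' ρ') := fun ρ' c' =>
    integrableOn_const measure_ball_lt_top.ne
  set B : ℝ := ∫ z in ball (0 : ℂ) ρ, |w z - κ| with hB
  have hB0 : 0 ≤ B := integral_nonneg fun z => abs_nonneg _
  have hlim2 : Tendsto (fun R : ℝ => (Real.pi * R ^ 2)⁻¹ * B) atTop (𝓝 0) := by
    have h3 : Tendsto (fun R : ℝ => Real.pi * R ^ 2) atTop atTop :=
      (tendsto_pow_atTop (by norm_num)).const_mul_atTop Real.pi_pos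
    simpa using (tendsto_inv_atTop_zero.comp h3).mul_const B
  obtain ⟨N, hN⟩ := ((hlim2.eventually (gt_mem_nhds (show 0 < ε / 3 by positivity))).and
    (eventually_gt_atTop 0)).exists_forall_of_atTop
  refine ⟨N, fun R hn => ?_⟩
  have hR0 : 0 < R := (hN R hn).2
  have hpR : 0 < Real.pi * R ^ 2 := by positivity
  rw [Real.dist_eq, AA_sub_const hR0 (hw c R), abs_mul, abs_of_pos (inv_pos.2 hpR)]
  have hi : IntegrableOn (fun z => |w z - κ|) (ball c R) := ((hw c R).sub (hcst R c)).abs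
  have hi0 : IntegrableOn (fun z => |w z - κ|) (ball 0 ρ) := ((hw 0 ρ).sub (hcst ρ 0)).abs
  have h4 : |∫ z in ball c R, (w z - κ)| ≤ B + (ε / 3) * (Real.pi * R ^ 2) := by
    refine (abs_integral_le_integral_abs (f := fun z => w z - κ)).trans ?_
    have hg : Integrable (fun z => (ball (0 : ℂ) ρ).indicator (fun z => |w z - κ|) z) volume :=
      (integrable_indicator_iff measurableSet_ball).2 hi0
    have h5 : ∫ z in ball c R, |w z - κ| ≤ ∫ z in ball c R,
        ((ball (0 : ℂ) ρ).indicator (fun z => |w z - κ|) z + ε / 3) := by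
      apply integral_mono hi
      · exact (hg.integrableOn).add (integrableOn_const measure_ball_lt_top.ne)
      · intro z
        simp only
        by_cases hz : z ∈ ball (0 : ℂ) ρ
        · rw [indicator_of_mem hz]; linarith
        · rw [indicator_of_notMem hz, zero_add]
          exact hKs fun hzK => hz (hρ hzK)
    refine h5.trans ?_
    rw [integral_add hg.integrableOn (integrableOn_const measure_ball_lt_top.ne), setIntegral_const,
      smul_eq_mul, vol_ball c hR0.le]
    have h6 : ∫ z in ball c R, (ball (0 : ℂ) ρ).indicator (fun z => |w z - κ|) z ≤ B := by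
      have hB' : B = ∫ z, (ball (0 : ℂ) ρ).indicator (fun z => |w z - κ|) z :=
        (integral_indicator measurableSet_ball).symm
      rw [hB']
      apply setIntegral_le_integral hg
      apply Eventually.of_forall
      intro z
      simp only [Pi.zero_apply]
      apply indicator_nonneg
      intro _ _
      exact abs_nonneg _
    linarith
  calc (Real.pi * R ^ 2)⁻¹ * |∫ z in ball c R, (w z - κ)|
      ≤ (Real.pi * R ^ 2)⁻¹ * (B + (ε / 3) * (Real.pi * R ^ 2)) := by gcongr
    _ = (Real.pi * R ^ 2)⁻¹ * B + ε / 3 := by field_simp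
    _ < ε / 3 + ε / 3 := by have := (hN R hn).1; linarith
    _ < ε := by linarith

lemma AA_tendsto_top {w : ℂ → ℝ} (hw : ∀ c R, IntegrableOn w (ball c R)) {κ : ℝ}
    (hlim : Tendsto w (cocompact ℂ) (𝓝 κ)) (c : ℂ) :
    Tendsto (fun n : ℕ => AA c (n + 1) w) atTop (𝓝 κ) :=
  (AA_tendsto_real hw hlim c).comp
    (tendsto_atTop_add_const_right _ _ tendsto_natCast_atTop_atTop)

section
variable {G : C2 → ℝ}

lemma gu_hom (hG : IsGreen G) {v : C2} (hv : v.2 ≠ 0) :
    G v = gu G (v.1 / v.2) + Real.log ‖v.2‖ := by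
  have h1 : v = v.2 • ((v.1 / v.2, 1) : C2) := by
    ext
    · simp; field_simp
    · simp
  conv_lhs => rw [h1]
  rw [hG.hom _ _ hv (pt_ne_zero _)]
  rfl

lemma gu_infty (hG : IsGreen G) :
    Tendsto (fun z : ℂ => gu G z - Real.log ‖z - 0‖) (cocompact ℂ) (𝓝 (G (1, 0))) := by
  have h10 : ((1, 0) : C2) ≠ 0 := by simp
  have hcont : ContinuousAt G (1, 0) :=
    hG.cont.continuousAt (isOpen_compl_singleton.mem_nhds h10)
  have h1 : Tendsto (fun z : ℂ => ((1, z⁻¹) : C2)) (cocompact ℂ) (𝓝 (1, 0)) := by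
    apply Tendsto.prodMk_nhds tendsto_const_nhds
    rw [← Metric.cobounded_eq_cocompact]
    exact tendsto_inv₀_cobounded
  have h2 := hcont.tendsto.comp h1
  refine h2.congr' ?_
  have h3 : ∀ᶠ z : ℂ in cocompact ℂ, z ≠ 0 := by
    have : ({0}ᶜ : Set ℂ) ∈ cocompact ℂ := isCompact_singleton.compl_mem_cocompact
    exact this
  filter_upwards [h3] with z hz
  simp only [Function.comp_apply, gu, sub_zero]
  have h4 : ((z, 1) : C2) = z • ((1, z⁻¹) : C2) := by
    ext
    · simp
    · simp [hz]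
  have h5 : ((1, z⁻¹) : C2) ≠ 0 := by
    intro h
    have := congrArg Prod.fst h
    simp at this
  rw [h4, hG.hom _ _ hz h5]
  ring

lemma AA_gu (hG : IsGreen G) (c : ℂ) {R : ℝ} (hR : 0 < R) :
    AA c R (gu G) = AA c R (fun z => gu G z - Real.log ‖z - 0‖) + kk R ‖c‖ := by
  unfold AA
  rw [integral_sub (cont_int (Pool.Agent.Helper56.Equi.gu_continuous hG) c R) (log_integrable 0 c R),
    area_log hR, sub_zero]
  have : (Real.pi * R ^ 2) ≠ 0 := by positivity
  field_simp
  ring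

lemma AA_gu_diff (hG : IsGreen G) (c c' : ℂ) :
    Tendsto (fun n : ℕ => AA c (n + 1) (gu G) - AA c' (n + 1) (gu G)) atTop (𝓝 0) := by
  have hw : ∀ c R, IntegrableOn (fun z => gu G z - Real.log ‖z - 0‖) (ball c R) := fun c R =>
    (cont_int (Pool.Agent.Helper56.Equi.gu_continuous hG) c R).sub (log_integrable 0 c R)
  have h1 := AA_tendsto_top hw (gu_infty hG) c
  have h2 := AA_tendsto_top hw (gu_infty hG) c'
  have h3 : Tendsto (fun n : ℕ => kk ((n : ℝ) + 1) ‖c‖ - kk ((n : ℝ) + 1) ‖c'‖) atTop (𝓝 0) := by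
    have h4 : Tendsto (fun n : ℕ => |‖c‖ - ‖c'‖| / ((n : ℝ) + 1)) atTop (𝓝 0) :=
      Tendsto.div_atTop tendsto_const_nhds
        (tendsto_atTop_add_const_right _ _ tendsto_natCast_atTop_atTop)
    apply squeeze_zero_norm _ h4
    intro n
    rw [Real.norm_eq_abs]
    exact kk_lip (by positivity) (norm_nonneg _) (norm_nonneg _)
  have h5 := (h1.sub h2).add h3
  rw [sub_self, add_zero] at h5
  refine h5.congr fun n => ?_
  have hn : (0 : ℝ) < (n : ℝ) + 1 := by positivity
  rw [AA_gu hG c hn, AA_gu hG c' hn]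
  ring

variable {P : RatFunc ℂ} {μ : Measure ℂ}

lemma phi_int (hP : 2 ≤ deg P) (hG : IsGreen G)
    (hGf : ∀ v, v ≠ 0 → G (RLift P v) = deg P * G v) (hμ : IsMME P μ) (c : ℂ) {R : ℝ} (hR : 0 < R) :
    Integrable (fun s => kk R ‖c - s‖ - Real.log ‖c - s‖) μ ∧
      ∫ s, (kk R ‖c - s‖ - Real.log ‖c - s‖) ∂μ = AA c R (gu G) - gu G c := by
  have := hμ.noAt
  have := hμ.isProb
  set r : ℕ → ℝ := fun n => R / ((n : ℝ) + 1) with hr
  have hr0 : ∀ n, 0 < r n := fun n => by rw [hr]; positivity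
  have hrR : ∀ n, r n ≤ R := by
    intro n
    rw [hr]
    apply div_le_self hR.le
    have : (0 : ℝ) ≤ n := by positivity
    linarith
  have hrl : Tendsto r atTop (𝓝 0) := Tendsto.div_atTop tendsto_const_nhds
    (tendsto_atTop_add_const_right _ _ tendsto_natCast_atTop_atTop)
  have hanti : ∀ {m n : ℕ}, m ≤ n → r n ≤ r m := by
    intro m n hmn
    rw [hr]
    apply div_le_div_of_nonneg_left hR.le (by positivity)
    have : (m : ℝ) ≤ n := by exact_mod_cast hmn
    linarith
  have hst : ∀ n, ∫ s, psi c R (r n) s ∂μ = AA c R (gu G) - AA c (r n) (gu G) := fun n =>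
    star hP hG hGf hμ c (hr0 n) (hrR n)
  have hpint : ∀ n, Integrable (psi c R (r n)) μ := fun n =>
    (integrable_const (Real.log (R / r n))).mono' (psi_measurable c R (r n)).aestronglyMeasurable
      (Eventually.of_forall fun s => by rw [Real.norm_eq_abs]; exact psi_abs (hr0 n) (hrR n) s)
  have hne : ∀ᵐ s ∂μ, s ≠ c := by
    have : μ {c} = 0 := hμ.noAtoms c
    filter_upwards [measure_eq_zero_iff_ae_notMem.1 this] with s hs
    simpa using hs
  have hmeas : Measurable fun s : ℂ => kk R ‖c - s‖ - Real.log ‖c - s‖ :=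
    ((kk_measurable R).comp (by fun_prop)).sub (Real.measurable_log.comp (by fun_prop))
  have hlim1 : Tendsto (fun n => ∫⁻ s, ENNReal.ofReal (psi c R (r n) s) ∂μ) atTop
      (𝓝 (∫⁻ s, ENNReal.ofReal (kk R ‖c - s‖ - Real.log ‖c - s‖) ∂μ)) := by
    apply lintegral_tendsto_of_tendsto_of_monotone
    · intro n
      exact (psi_measurable c R (r n)).ennreal_ofReal.aemeasurable
    · apply Eventually.of_forall
      intro s m n hmn
      apply ENNReal.ofReal_le_ofReal
      unfold psi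
      have := kk_mono (hr0 n) (hanti hmn) (norm_nonneg (c - s))
      linarith
    · filter_upwards [hne] with s hs
      have hpos : 0 < ‖c - s‖ := norm_pos_iff.2 (sub_ne_zero.2 (Ne.symm hs))
      refine tendsto_const_nhds.congr' ?_
      filter_upwards [hrl.eventually (ge_mem_nhds hpos)] with n hn
      unfold psi
      rw [kk_of_le (R := r n) hn]
  have hval : ∀ n, ∫⁻ s, ENNReal.ofReal (psi c R (r n) s) ∂μ =
      ENNReal.ofReal (AA c R (gu G) - AA c (r n) (gu G)) := by
    intro n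
    rw [← hst n, ofReal_integral_eq_lintegral_ofReal (hpint n)
      (Eventually.of_forall fun s => psi_nonneg (hr0 n) (hrR n) s)]
  have hAA : Tendsto (fun n => AA c R (gu G) - AA c (r n) (gu G)) atTop
      (𝓝 (AA c R (gu G) - gu G c)) :=
    (AA_tendsto_zero (Pool.Agent.Helper56.Equi.gu_continuous hG) c hr0 hrl).const_sub _
  have hlim2 : Tendsto (fun n => ∫⁻ s, ENNReal.ofReal (psi c R (r n) s) ∂μ) atTop
      (𝓝 (ENNReal.ofReal (AA c R (gu G) - gu G c))) := by
    simp only [hval]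
    exact ENNReal.tendsto_ofReal hAA
  have hEq := tendsto_nhds_unique hlim1 hlim2
  have hnn : 0 ≤ AA c R (gu G) - gu G c := by
    apply ge_of_tendsto' hAA
    intro n
    rw [← hst n]
    exact integral_nonneg fun s => psi_nonneg (hr0 n) (hrR n) s
  have hpos : 0 ≤ᵐ[μ] fun s => kk R ‖c - s‖ - Real.log ‖c - s‖ := by
    filter_upwards [hne] with s hs
    have hpos : 0 < ‖c - s‖ := norm_pos_iff.2 (sub_ne_zero.2 (Ne.symm hs))
    simp only [Pi.zero_apply]
    have := log_le_kk hR hpos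
    linarith
  have hi : Integrable (fun s => kk R ‖c - s‖ - Real.log ‖c - s‖) μ := by
    refine ⟨hmeas.aestronglyMeasurable, ?_⟩
    rw [hasFiniteIntegral_iff_ofReal hpos, hEq]
    exact ENNReal.ofReal_lt_top
  refine ⟨hi, ?_⟩
  rw [integral_eq_lintegral_of_nonneg_ae hpos hmeas.aestronglyMeasurable, hEq,
    ENNReal.toReal_ofReal hnn]

/-- the potential of the measure of maximal entropy -/
theorem potential (hP : 2 ≤ deg P) (hG : IsGreen G)
    (hGf : ∀ v, v ≠ 0 → G (RLift P v) = deg P * G v) (hμ : IsMME P μ) (c c' : ℂ) :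
    Integrable (fun s => Real.log ‖c - s‖ - Real.log ‖c' - s‖) μ ∧
      ∫ s, (Real.log ‖c - s‖ - Real.log ‖c' - s‖) ∂μ = gu G c - gu G c' := by
  have := hμ.isProb
  have hDm : ∀ R, Measurable fun s : ℂ => kk R ‖c - s‖ - kk R ‖c' - s‖ := fun R =>
    ((kk_measurable R).comp (by fun_prop)).sub ((kk_measurable R).comp (by fun_prop))
  have hDb : ∀ R, 0 < R → ∀ s : ℂ, |kk R ‖c - s‖ - kk R ‖c' - s‖| ≤ ‖c - c'‖ / R := by
    intro R hR s
    refine (kk_lip hR (norm_nonneg _) (norm_nonneg _)).trans ?_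
    have : |‖c - s‖ - ‖c' - s‖| ≤ ‖(c - s) - (c' - s)‖ := abs_norm_sub_norm_le _ _
    have e : (c - s) - (c' - s) = c - c' := by ring
    rw [e] at this
    gcongr
  have hDi : ∀ R, 0 < R → Integrable (fun s : ℂ => kk R ‖c - s‖ - kk R ‖c' - s‖) μ := fun R hR =>
    (integrable_const (‖c - c'‖ / R)).mono' (hDm R).aestronglyMeasurable
      (Eventually.of_forall fun s => by rw [Real.norm_eq_abs]; exact hDb R hR s)
  have hfun : ∀ R, (fun s => Real.log ‖c - s‖ - Real.log ‖c' - s‖) = fun s =>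
      (kk R ‖c - s‖ - kk R ‖c' - s‖) - (kk R ‖c - s‖ - Real.log ‖c - s‖) +
        (kk R ‖c' - s‖ - Real.log ‖c' - s‖) := by
    intro R
    funext s
    ring
  have hI : Integrable (fun s => Real.log ‖c - s‖ - Real.log ‖c' - s‖) μ := by
    rw [hfun 1]
    exact ((hDi 1 one_pos).sub (phi_int hP hG hGf hμ c one_pos).1).add
      (phi_int hP hG hGf hμ c' one_pos).1
  refine ⟨hI, ?_⟩
  have hval : ∀ R, 0 < R → ∫ s, (Real.log ‖c - s‖ - Real.log ‖c' - s‖) ∂μ =
      (∫ s, (kk R ‖c - s‖ - kk R ‖c' - s‖) ∂μ) - (AA c R (gu G) - AA c' R (gu G)) +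
        (gu G c - gu G c') := by
    intro R hR
    have hsub : Integrable (fun s => (kk R ‖c - s‖ - kk R ‖c' - s‖) -
        (kk R ‖c - s‖ - Real.log ‖c - s‖)) μ := (hDi R hR).sub (phi_int hP hG hGf hμ c hR).1
    rw [hfun R, integral_add hsub
      (phi_int hP hG hGf hμ c' hR).1, integral_sub (hDi R hR) (phi_int hP hG hGf hμ c hR).1,
      (phi_int hP hG hGf hμ c hR).2, (phi_int hP hG hGf hμ c' hR).2]
    ring
  have hlimD : Tendsto (fun n : ℕ => ∫ s, (kk ((n : ℝ) + 1) ‖c - s‖ - kk ((n : ℝ) + 1) ‖c' - s‖) ∂μ)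
      atTop (𝓝 0) := by
    have h4 : Tendsto (fun n : ℕ => ‖c - c'‖ / ((n : ℝ) + 1)) atTop (𝓝 0) :=
      Tendsto.div_atTop tendsto_const_nhds
        (tendsto_atTop_add_const_right _ _ tendsto_natCast_atTop_atTop)
    apply squeeze_zero_norm _ h4
    intro n
    have h5 := norm_integral_le_of_norm_le_const (μ := μ)
      (f := fun s => kk ((n : ℝ) + 1) ‖c - s‖ - kk ((n : ℝ) + 1) ‖c' - s‖)
      (C := ‖c - c'‖ / ((n : ℝ) + 1))
      (Eventually.of_forall fun s => by rw [Real.norm_eq_abs]; exact hDb _ (by positivity) s)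
    simpa using h5
  have h6 := (hlimD.sub (AA_gu_diff hG c c')).add_const (gu G c - gu G c')
  rw [sub_zero, zero_add] at h6
  refine tendsto_nhds_unique ?_ h6
  refine tendsto_const_nhds.congr fun n => ?_
  exact hval _ (by positivity)

/-- the Green function of `P` along `X ∈ E(P)` -/
lemma ginv_reg (hP : 2 ≤ deg P) (hG : IsGreen G)
    (hGf : ∀ v, v ≠ 0 → G (RLift P v) = deg P * G v) (hμ : IsMME P μ) {X : RatFunc ℂ}
    (hX1 : 1 ≤ deg X) (hX : IsMME X μ) {z z' : ℂ} (hz : reg X z) (hz' : reg X z') :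
    G (RLift X (z, 1)) - G (RLift X (z', 1)) = deg X * (gu G z - gu G z') := by
  have := hμ.isProb
  have hmeas : Measurable fun s : ℂ => Real.log ‖z - s‖ - Real.log ‖z' - s‖ :=
    (Real.measurable_log.comp (by fun_prop)).sub (Real.measurable_log.comp (by fun_prop))
  obtain ⟨hI, hV⟩ := potential hP hG hGf hμ z z'
  have h1 := (change_real hX1 hX hmeas hI).2
  rw [hV] at h1
  rw [← h1]
  have hgr : ∀ {y : ℂ}, reg X y → G (RLift X (y, 1)) =
      gu G (ev X y) + Real.log ‖X.denom.eval y‖ := by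
    intro y hy
    have : (RLift X (y, 1)).2 ≠ 0 := by rw [RLift_pt]; exact hy
    rw [gu_hom hG this, RLift_pt]
    rfl
  rw [hgr hz, hgr hz']
  have hnull : ∀ w : ℂ, ∀ᵐ a ∂μ, a ≠ w := by
    intro w
    filter_upwards [measure_eq_zero_iff_ae_notMem.1 (hμ.noAtoms w)] with s hs
    simpa using hs
  have hev : ∀ {y a : ℂ}, reg X y → a ≠ ev X y → (fp X a).eval y ≠ 0 ∧
      Real.log ‖(fp X a).eval y‖ = Real.log ‖X.denom.eval y‖ + Real.log ‖ev X y - a‖ := by
    intro y a hy ha
    have hy' : X.denom.eval y ≠ 0 := hy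
    have h2 : (fp X a).eval y = X.denom.eval y * (ev X y - a) := by
      unfold fp ev
      rw [eval_sub, eval_mul, eval_C]
      field_simp
    have h3 : ev X y - a ≠ 0 := sub_ne_zero.2 (Ne.symm ha)
    rw [h2]
    refine ⟨mul_ne_zero hy' h3, ?_⟩
    rw [norm_mul, Real.log_mul (norm_ne_zero_iff.2 hy') (norm_ne_zero_iff.2 h3)]
  have hae : (fun a => rsum X (fun s => Real.log ‖z - s‖ - Real.log ‖z' - s‖) a) =ᵐ[μ] fun a =>
      (Real.log ‖X.denom.eval z‖ - Real.log ‖X.denom.eval z'‖) +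
        (Real.log ‖ev X z - a‖ - Real.log ‖ev X z' - a‖) := by
    filter_upwards [hnull (ev X z), hnull (ev X z')] with a ha ha'
    obtain ⟨e1, e2⟩ := hev hz ha
    obtain ⟨e3, e4⟩ := hev hz' ha'
    have e5 := sum_map_log (fp_ne0 hX1 a) e1
    have e6 := sum_map_log (fp_ne0 hX1 a) e3
    unfold rsum
    rw [Multiset.sum_map_sub]
    linarith
  rw [integral_congr_ae hae, integral_add (integrable_const _) (potential hP hG hGf hμ _ _).1,
    (potential hP hG hGf hμ _ _).2, integral_const, probReal_univ, one_smul]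
  ring

theorem ginv_of_mme (hP : 2 ≤ deg P) (hG : IsGreen G)
    (hGf : ∀ v, v ≠ 0 → G (RLift P v) = deg P * G v) (hμ : IsMME P μ) {X : RatFunc ℂ}
    (hX1 : 1 ≤ deg X) (hX : IsMME X μ) : GInv G (deg X) (RLift X) := by
  have hL := isLift_RLift hX1
  have hregd : Dense {z | reg X z} := by
    have h1 : {z | reg X z} = {z | ¬ reg X z}ᶜ := by
      ext z; simp
    rw [h1]
    exact (nreg_finite X).countable.dense_compl ℂ
  obtain ⟨z0, hz0⟩ := hregd.nonempty
  have hcG : ContinuousOn G {0}ᶜ := hG.cont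
  have hcL : Continuous (RLift X) := hL.diff.continuous
  have hca : ∀ v : C2, v ≠ 0 → ContinuousAt G v := fun v hv =>
    hcG.continuousAt (isOpen_compl_singleton.mem_nhds hv)
  have h2 : ∀ z, G (RLift X (z, 1)) = deg X * gu G z +
      (G (RLift X (z0, 1)) - deg X * gu G z0) := by
    have hc1 : Continuous fun z : ℂ => G (RLift X (z, 1)) :=
      hcG.comp_continuous (hcL.comp (by fun_prop)) fun z => hL.nz _ (pt_ne_zero z)
    have hc2 : Continuous fun z : ℂ => deg X * gu G z + (G (RLift X (z0, 1)) - deg X * gu G z0) :=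
      ((Pool.Agent.Helper56.Equi.gu_continuous hG).const_mul _).add_const _
    have := hc1.ext_on hregd hc2 fun z hz => by
      have h3 := ginv_reg hP hG hGf hμ hX1 hX hz hz0
      simp only
      linarith
    exact fun z => congrFun this z
  refine ⟨G (RLift X (z0, 1)) - deg X * gu G z0, fun v hv => ?_⟩
  set k := G (RLift X (z0, 1)) - deg X * gu G z0 with hk
  have h4 : ∀ v : C2, v.2 ≠ 0 → G (RLift X v) = deg X * G v + k := by
    intro v hv2
    have h1 : v = v.2 • ((v.1 / v.2, 1) : C2) := by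
      ext
      · simp; field_simp
      · simp
    have h5 : RLift X v = v.2 ^ deg X • RLift X (v.1 / v.2, 1) := by
      conv_lhs => rw [h1]
      rw [hL.hom]
    rw [h5, hG.hom _ _ (pow_ne_zero _ hv2) (hL.nz _ (pt_ne_zero _)), h2, gu_hom hG hv2, norm_pow,
      Real.log_pow]
    ring
  have hne : (𝓝[{v : C2 | v.2 ≠ 0}] v).NeBot := mem_closure_iff_nhdsWithin_neBot.1 (dense_snd_ne v)
  have ht1 : Tendsto (fun v => G (RLift X v)) (𝓝[{v : C2 | v.2 ≠ 0}] v) (𝓝 (G (RLift X v))) :=
    (((hca _ (hL.nz v hv)).comp hcL.continuousAt).tendsto).mono_left nhdsWithin_le_nhds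
  have ht2 : Tendsto (fun v => deg X * G v + k) (𝓝[{v : C2 | v.2 ≠ 0}] v)
      (𝓝 (deg X * G v + k)) :=
    (((hca v hv).tendsto.const_mul _).add_const _).mono_left nhdsWithin_le_nhds
  refine tendsto_nhds_unique ht1 (ht2.congr' ?_)
  filter_upwards [self_mem_nhdsWithin] with w hw
  exact (h4 w hw).symm

end

end Pool.Agent.Helper59.EP
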