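import Mathlib
import Pool.Agent.Helper65.Base

/-! Wedge algebra, parallel holomorphic curves, normalised lifts. -/

open Complex Metric Set Filter Topology InnerProductSpace

namespace Pool.Agent.Helper59.Fam

open Pool.Agent.Helper65

theorem wd_self (v : C2) : wd v v = 0 := by simp only [wd]; ring

theorem wd_comm (v w : C2) : wd v w = - wd w v := by simp only [wd]; ring

theorem wd_smul_left (c : ℂ) (v w : C2) : wd (c • v) w = c * wd v w := by
  simp only [wd, Prod.smul_fst, Prod.smul_snd, smul_eq_mul]; ring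

theorem wd_smul_right (c : ℂ) (v w : C2) : wd v (c • w) = c * wd v w := by
  simp only [wd, Prod.smul_fst, Prod.smul_snd, smul_eq_mul]; ring

theorem wd_zero_comm {v w : C2} : wd v w = 0 ↔ wd w v = 0 := by
  rw [wd_comm, neg_eq_zero]

theorem ne_zero_iff {v : C2} : v ≠ 0 ↔ v.1 ≠ 0 ∨ v.2 ≠ 0 := by
  constructor
  · intro h
    by_contra h2
    push Not at h2
    exact h (Prod.ext h2.1 h2.2)
  · rintro (h | h) h2
    · exact h (by rw [h2]; rfl)
    · exact h (by rw [h2]; rfl)

theorem exists_smul {v w : C2} (hv : v ≠ 0) (h : wd v w = 0) : ∃ c : ℂ, w = c • v := by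
  simp only [wd] at h
  rcases ne_zero_iff.1 hv with h1 | h1
  · refine ⟨w.1 / v.1, Prod.ext ?_ ?_⟩
    · simp only [Prod.smul_fst, smul_eq_mul]; field_simp
    · simp only [Prod.smul_snd, smul_eq_mul]; field_simp; linear_combination h
  · refine ⟨w.2 / v.2, Prod.ext ?_ ?_⟩
    · simp only [Prod.smul_fst, smul_eq_mul]; field_simp; linear_combination -h
    · simp only [Prod.smul_snd, smul_eq_mul]; field_simp

theorem par_trans {u v w : C2} (hv : v ≠ 0) (h1 : wd u v = 0) (h2 : wd v w = 0) : wd u w = 0 := by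
  obtain ⟨c, rfl⟩ := exists_smul hv h2
  rw [wd_smul_right, h1, mul_zero]

theorem par_lift {b : ℕ} {B : C2 → C2} (hB : IsLift b B) {v w : C2} (h : wd v w = 0) :
    wd (B v) (B w) = 0 := by
  by_cases hv : v = 0
  · have : v = (0 : ℂ) • w := by rw [hv, zero_smul]
    rw [this, hB.hom, wd_smul_left, wd_self, mul_zero]
  · obtain ⟨c, rfl⟩ := exists_smul hv h
    rw [hB.hom, wd_smul_right, wd_self, mul_zero]

/-- Plücker identity -/
theorem plucker (u v ξ η : C2) :
    wd u ξ * wd v η - wd v ξ * wd u η = wd u v * wd ξ η := by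
  simp only [wd]; ring

theorem analyticAt_fst {K : ℂ → C2} {z0 : ℂ} (hK : AnalyticAt ℂ K z0) :
    AnalyticAt ℂ (fun z => (K z).1) z0 :=
  ((ContinuousLinearMap.fst ℂ ℂ ℂ).analyticAt (K z0)).comp hK

theorem analyticAt_snd {K : ℂ → C2} {z0 : ℂ} (hK : AnalyticAt ℂ K z0) :
    AnalyticAt ℂ (fun z => (K z).2) z0 :=
  ((ContinuousLinearMap.snd ℂ ℂ ℂ).analyticAt (K z0)).comp hK

theorem analyticAt_wd {K H : ℂ → C2} {z0 : ℂ} (hK : AnalyticAt ℂ K z0) (hH : AnalyticAt ℂ H z0) :
    AnalyticAt ℂ (fun z => wd (K z) (H z)) z0 := by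
  have := ((analyticAt_fst hK).mul (analyticAt_snd hH)).sub
    ((analyticAt_snd hK).mul (analyticAt_fst hH))
  exact this

theorem exists_ratio {K H : ℂ → C2} {z0 : ℂ} (hK : AnalyticAt ℂ K z0) (hH : AnalyticAt ℂ H z0)
    (hK0 : K z0 ≠ 0) (hH0 : H z0 ≠ 0) (hp : ∀ᶠ z in 𝓝 z0, wd (K z) (H z) = 0) :
    ∃ c : ℂ → ℂ, AnalyticAt ℂ c z0 ∧ c z0 ≠ 0 ∧ ∀ᶠ z in 𝓝 z0, K z = c z • H z := by
  rcases ne_zero_iff.1 hH0 with h1 | h1
  · have hc : AnalyticAt ℂ (fun z => (K z).1 / (H z).1) z0 :=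
      (analyticAt_fst hK).div (analyticAt_fst hH) h1
    have hne : ∀ᶠ z in 𝓝 z0, (H z).1 ≠ 0 :=
      (analyticAt_fst hH).continuousAt.eventually_ne h1
    have heq : ∀ᶠ z in 𝓝 z0, K z = ((K z).1 / (H z).1) • H z := by
      filter_upwards [hne, hp] with z h2 h3
      simp only [wd] at h3
      refine Prod.ext ?_ ?_
      · simp only [Prod.smul_fst, smul_eq_mul]; field_simp
      · simp only [Prod.smul_snd, smul_eq_mul]; field_simp; linear_combination -h3
    refine ⟨_, hc, ?_, heq⟩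
    intro h0
    have := heq.self_of_nhds
    rw [h0, zero_smul] at this
    exact hK0 this
  · have hc : AnalyticAt ℂ (fun z => (K z).2 / (H z).2) z0 :=
      (analyticAt_snd hK).div (analyticAt_snd hH) h1
    have hne : ∀ᶠ z in 𝓝 z0, (H z).2 ≠ 0 :=
      (analyticAt_snd hH).continuousAt.eventually_ne h1
    have heq : ∀ᶠ z in 𝓝 z0, K z = ((K z).2 / (H z).2) • H z := by
      filter_upwards [hne, hp] with z h2 h3
      simp only [wd] at h3
      refine Prod.ext ?_ ?_
      · simp only [Prod.smul_fst, smul_eq_mul]; field_simp; linear_combination h3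
      · simp only [Prod.smul_snd, smul_eq_mul]; field_simp
    refine ⟨_, hc, ?_, heq⟩
    intro h0
    have := heq.self_of_nhds
    rw [h0, zero_smul] at this
    exact hK0 this

/-- `G` along two parallel curves differs by a harmonic function. -/
theorem par_harmonic {G : C2 → ℝ} (hG : IsGreen G) {K H : ℂ → C2} {z0 : ℂ}
    (hK : AnalyticAt ℂ K z0) (hH : AnalyticAt ℂ H z0)
    (hK0 : K z0 ≠ 0) (hH0 : H z0 ≠ 0) (hp : ∀ᶠ z in 𝓝 z0, wd (K z) (H z) = 0) :
    HarmonicAt (fun z => G (K z) - G (H z)) z0 := by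
  obtain ⟨c, hc, hc0, hcK⟩ := exists_ratio hK hH hK0 hH0 hp
  have h1 : HarmonicAt (fun z => Real.log ‖c z‖) z0 := hc.harmonicAt_log_norm hc0
  refine (harmonicAt_congr_nhds ?_).2 h1
  have hHne : ∀ᶠ z in 𝓝 z0, H z ≠ 0 := hH.continuousAt.eventually_ne hH0
  have hcne : ∀ᶠ z in 𝓝 z0, c z ≠ 0 := hc.continuousAt.eventually_ne hc0
  filter_upwards [hcK, hHne, hcne] with z h2 h3 h4
  rw [h2, hG.hom _ _ h4 h3]
  ring

theorem harmonicAt_comp' {u : ℂ → ℝ} {h : ℂ → ℂ} {z : ℂ} (hu : HarmonicAt u (h z))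
    (hh : AnalyticAt ℂ h z) : HarmonicAt (fun x => u (h x)) z := by
  obtain ⟨ε, h₁ε, h₂ε⟩ := isOpen_iff.1 (isOpen_setOfPred_harmonicAt (f := u)) (h z) hu
  obtain ⟨F, h₁F, h₂F⟩ := InnerProductSpace.HarmonicOnNhd.exists_analyticOnNhd_ball_re_eq
    (fun _ hy ↦ h₂ε hy)
  have h1 : AnalyticAt ℂ (fun x => F (h x)) z := (h₁F (h z) (mem_ball_self h₁ε)).comp hh
  refine (harmonicAt_congr_nhds ?_).2 h1.harmonicAt_re
  have h2 : ∀ᶠ x in 𝓝 z, h x ∈ ball (h z) ε := hh.continuousAt.eventually (ball_mem_nhds _ h₁ε)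
  filter_upwards [h2] with x hx
  exact (h₂F hx).symm

section
variable {G : C2 → ℝ} {F : C2 → C2} {w : ℕ} {h : ℂ → C2} {lam : ℂ}

theorem cont_green (hG : IsGreen G) {h : ℂ → C2} (hh : Continuous h) (hnz : ∀ z, h z ≠ 0) :
    Continuous (fun z => G (h z)) := by
  rw [continuous_iff_continuousAt]
  intro z
  have h1 : ContinuousAt G (h z) :=
    hG.cont.continuousAt (isOpen_compl_singleton.mem_nhds (by simpa using hnz z))
  exact ContinuousAt.comp (f := h) h1 hh.continuousAt

theorem lam_ne (D : LinData G F w h lam) : lam ≠ 0 := by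
  have := D.hl
  intro h0
  rw [h0, norm_zero] at this
  linarith

theorem sc (D : LinData G F w h lam) :
    HarmonicOnNhd (fun z => G (h (lam * z)) - w * G (h z)) univ := by
  obtain ⟨k, hk⟩ := D.ginv
  intro z _
  have hha : ∀ z, AnalyticAt ℂ h z := fun z => D.diff.analyticAt z
  have h1 : HarmonicAt (fun z => G (h (lam * z)) - G (F (h z))) z := by
    apply par_harmonic D.green
    · exact (hha _).comp (by fun_prop)
    · exact (D.lift.diff.comp D.diff).analyticAt z
    · exact D.nz _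
    · exact D.lift.nz _ (D.nz _)
    · exact Eventually.of_forall fun z => wd_zero_comm.1 (D.fe z)
  have h2 := h1.add (harmonicAt_const k)
  refine (harmonicAt_congr_nhds (Eventually.of_forall fun z => ?_)).2 h2
  simp only [Pi.add_apply]
  rw [hk _ (D.nz z)]
  ring

theorem symG (D : LinData G F w h lam) : SymG (fun z => G (h z)) lam w where
  cont := cont_green D.green D.diff.continuous D.nz
  nh := D.nh
  hl := D.hl
  hw := by
    have := D.hw
    have h2 : (2 : ℝ) ≤ w := by exact_mod_cast this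
    linarith
  sc := sc D

theorem sc_pow (D : LinData G F w h lam) (m : ℕ) :
    HarmonicOnNhd (fun z => G (h (lam ^ m * z)) - (w : ℝ) ^ m * G (h z)) univ := by
  induction m with
  | zero =>
    intro z _
    refine (harmonicAt_congr_nhds (Eventually.of_forall fun z => ?_)).2 (harmonicAt_const (0 : ℝ))
    simp
  | succ m ih =>
    intro z _
    have h1 : HarmonicAt (fun z => G (h (lam * (lam ^ m * z))) - w * G (h (lam ^ m * z))) z :=
      harmonicAt_comp' (u := fun z => G (h (lam * z)) - w * G (h z)) (h := fun z => lam ^ m * z)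
        (sc D _ (mem_univ _)) (by fun_prop)
    have h2 := (ih z (mem_univ _)).const_smul (c := (w : ℝ))
    refine (harmonicAt_congr_nhds (Eventually.of_forall fun z => ?_)).2 (h1.add h2)
    simp only [Pi.add_apply, Pi.smul_apply, smul_eq_mul]
    rw [pow_succ', pow_succ', mul_assoc]
    ring

/-- normalised lift of `B ∘ h (lam^{-m} ·)` -/
theorem exists_norm_lift (D : LinData G F w h lam) {b : ℕ} {B : C2 → C2}
    (hB : IsLift b B) (hGB : GInv G b B) (m : ℕ) :
    ∃ H : ℂ → C2, Differentiable ℂ H ∧ (∀ z, H z ≠ 0) ∧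
      (∀ z, wd (H z) (B (h ((lam ^ m)⁻¹ * z))) = 0) ∧
      ∀ z, G (H z) = (b / (w : ℝ) ^ m) * G (h z) := by
  obtain ⟨k, hk⟩ := hGB
  have hlam := lam_ne D
  have hw0 : (0 : ℝ) < w := by
    have := D.hw
    have h2 : (2 : ℝ) ≤ w := by exact_mod_cast this
    linarith
  set K : ℂ → C2 := fun z => B (h ((lam ^ m)⁻¹ * z)) with hKdef
  have hKd : Differentiable ℂ K := hB.diff.comp (D.diff.comp (by fun_prop))
  have hKnz : ∀ z, K z ≠ 0 := fun z => hB.nz _ (D.nz _)
  have hharm : HarmonicOnNhd (fun z => G (K z) - (b / (w : ℝ) ^ m) * G (h z)) univ := by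
    intro z _
    have h1 : HarmonicAt (fun z => G (h (lam ^ m * ((lam ^ m)⁻¹ * z)))
        - (w : ℝ) ^ m * G (h ((lam ^ m)⁻¹ * z))) z :=
      harmonicAt_comp' (u := fun z => G (h (lam ^ m * z)) - (w : ℝ) ^ m * G (h z))
        (h := fun z => (lam ^ m)⁻¹ * z) (sc_pow D m _ (mem_univ _)) (by fun_prop)
    have h2 := (h1.const_smul (c := -(b / (w : ℝ) ^ m))).add (harmonicAt_const k)
    refine (harmonicAt_congr_nhds (Eventually.of_forall fun z => ?_)).2 h2
    simp only [Pi.add_apply, Pi.smul_apply, smul_eq_mul, hKdef]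
    have h3 : lam ^ m * ((lam ^ m)⁻¹ * z) = z := by
      rw [← mul_assoc, mul_inv_cancel₀ (pow_ne_zero _ hlam), one_mul]
    rw [h3, hk _ (D.nz _)]
    field_simp
    ring
  obtain ⟨ψ, hψ, hψr⟩ := InnerProductSpace.HarmonicOnNhd.exists_analyticOnNhd_univ_re_eq hharm
  have hψd : Differentiable ℂ ψ := fun z => (hψ z (mem_univ _)).differentiableAt
  refine ⟨fun z => Complex.exp (-ψ z) • K z, ?_, ?_, ?_, ?_⟩
  · exact (hψd.neg.cexp).smul hKd
  · intro z
    exact smul_ne_zero (Complex.exp_ne_zero _) (hKnz z)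
  · intro z
    rw [wd_smul_left]
    simp only [hKdef, wd_self, mul_zero]
  · intro z
    rw [D.green.hom _ _ (Complex.exp_ne_zero _) (hKnz z), Complex.norm_exp, Real.log_exp,
      Complex.neg_re]
    have h5 : (ψ z).re = G (K z) - (b / (w : ℝ) ^ m) * G (h z) := congrFun hψr z
    rw [h5]
    ring

theorem green_bound (hG : IsGreen G) : ∃ C : ℝ, ∀ v : C2, v ≠ 0 → |G v - Real.log ‖v‖| ≤ C := by
  have hcomp : IsCompact (sphere (0 : C2) 1) := isCompact_sphere 0 1
  have hcont : ContinuousOn G (sphere (0 : C2) 1) := by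
    apply hG.cont.mono
    intro v hv h0
    simp only [mem_singleton_iff] at h0
    rw [h0] at hv
    simp at hv
  obtain ⟨C, hC⟩ := hcomp.exists_bound_of_continuousOn hcont
  refine ⟨C, fun v hv => ?_⟩
  have hn : 0 < ‖v‖ := norm_pos_iff.2 hv
  set u : C2 := ((‖v‖⁻¹ : ℝ) : ℂ) • v with hu
  have hu1 : ‖u‖ = 1 := by
    rw [hu, norm_smul, Complex.norm_real, Real.norm_of_nonneg (by positivity)]
    field_simp
  have hu0 : u ≠ 0 := by
    intro h0
    rw [h0, norm_zero] at hu1
    norm_num at hu1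
  have hvu : v = ((‖v‖ : ℝ) : ℂ) • u := by
    rw [hu, smul_smul, ← Complex.ofReal_mul, mul_inv_cancel₀ hn.ne']
    simp
  have h1 := hC u (by simpa using hu1)
  rw [Real.norm_eq_abs] at h1
  have h2 : G v = G u + Real.log ‖v‖ := by
    conv_lhs => rw [hvu]
    rw [hG.hom _ _ (by exact_mod_cast hn.ne') hu0, Complex.norm_real, Real.norm_of_nonneg hn.le]
  rw [h2]
  simpa using h1

theorem fe_pow (D : LinData G F w h lam) (m : ℕ) (z : ℂ) :
    wd (F^[m] (h z)) (h (lam ^ m * z)) = 0 := by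
  induction m with
  | zero => simp [wd_self]
  | succ m ih =>
    rw [Function.iterate_succ_apply']
    have h1 := par_lift D.lift ih
    have h2 := D.fe (lam ^ m * z)
    rw [← mul_assoc, ← pow_succ'] at h2
    exact par_trans (D.lift.nz _ (D.nz _)) h1 h2

end

end Pool.Agent.Helper59.Fam
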