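import Mathlib
import Pool.Agent.Helper59.FamA

/-! Parallel curves give relations between lifts; local inverses. -/

open Complex Metric Set Filter Topology InnerProductSpace

namespace Pool.Agent.Helper59.Fam

open Pool.Agent.Helper65

section
variable {G : C2 → ℝ} {F : C2 → C2} {w : ℕ} {h : ℂ → C2} {lam : ℂ}

theorem iterate_hom {F : C2 → C2} {w : ℕ} (hF : IsLift w F) (m : ℕ) (t : ℂ) (v : C2) :
    F^[m] (t • v) = t ^ (w ^ m) • F^[m] v := by
  induction m with
  | zero => simp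
  | succ m ih =>
    rw [Function.iterate_succ_apply', ih, hF.hom, Function.iterate_succ_apply', ← pow_mul,
      ← pow_succ]

theorem iterate_diff {F : C2 → C2} {w : ℕ} (hF : IsLift w F) (m : ℕ) :
    Differentiable ℂ (F^[m]) := hF.diff.iterate m

theorem differentiable_wd {E : Type*} [NormedAddCommGroup E] [NormedSpace ℂ E] {K H : E → C2}
    (hK : Differentiable ℂ K) (hH : Differentiable ℂ H) :
    Differentiable ℂ (fun z => wd (K z) (H z)) := by
  have h1 : Differentiable ℂ fun z => (K z).1 := hK.fst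
  have h2 : Differentiable ℂ fun z => (K z).2 := hK.snd
  have h3 : Differentiable ℂ fun z => (H z).1 := hH.fst
  have h4 : Differentiable ℂ fun z => (H z).2 := hH.snd
  exact (h1.mul h4).sub (h2.mul h3)

/-- the cone over the curve `h` is a neighbourhood of `h 0` -/
theorem zero_of_cone (D : LinData G F w h lam) {Q : C2 → ℂ} (hQ : Differentiable ℂ Q)
    (h0 : ∀ (t : ℂ) (z : ℂ), Q (t • h z) = 0) : ∀ v, Q v = 0 := by
  set Ψ : ℂ × ℂ → C2 := fun p => p.1 • h p.2 with hΨ
  have hha : HasStrictDerivAt h (deriv h 0) 0 := (D.diff.analyticAt 0).hasStrictDerivAt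
  set L : ℂ × ℂ →L[ℂ] C2 :=
    (ContinuousLinearMap.fst ℂ ℂ ℂ).smulRight (h 0) +
      (ContinuousLinearMap.snd ℂ ℂ ℂ).smulRight (deriv h 0) with hL
  have hΨd : HasStrictFDerivAt Ψ L (1, 0) := by
    have h1 : HasStrictFDerivAt (fun p : ℂ × ℂ => p.1) (ContinuousLinearMap.fst ℂ ℂ ℂ) (1, 0) :=
      hasStrictFDerivAt_fst
    have h2 : HasStrictFDerivAt (fun p : ℂ × ℂ => h p.2)
        ((ContinuousLinearMap.snd ℂ ℂ ℂ).smulRight (deriv h 0)) (1, 0) := by
      have h3 : HasStrictFDerivAt h (ContinuousLinearMap.toSpanSingleton ℂ (deriv h 0))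
          ((1 : ℂ), (0 : ℂ)).2 := hha.hasStrictFDerivAt
      have h4 := h3.comp ((1 : ℂ), (0 : ℂ)) (hasStrictFDerivAt_snd (𝕜 := ℂ) (E := ℂ) (F := ℂ))
      refine h4.congr_fderiv ?_
      ext <;> simp
    have h5 := h1.smul h2
    refine h5.congr_fderiv ?_
    ext <;> simp [hL]
  have hsurj : L.range = ⊤ := by
    rw [LinearMap.range_eq_top]
    intro v
    have himm := D.imm
    refine ⟨(wd v (deriv h 0) / wd (h 0) (deriv h 0), wd (h 0) v / wd (h 0) (deriv h 0)), ?_⟩
    simp only [hL, ContinuousLinearMap.coe_coe, add_apply,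
      ContinuousLinearMap.smulRight_apply, ContinuousLinearMap.coe_fst', ContinuousLinearMap.coe_snd']
    simp only [wd] at himm ⊢
    refine Prod.ext ?_ ?_
    · simp only [Prod.fst_add, Prod.smul_fst, smul_eq_mul]
      rw [div_mul_eq_mul_div, div_mul_eq_mul_div, ← add_div, div_eq_iff himm]
      ring
    · simp only [Prod.snd_add, Prod.smul_snd, smul_eq_mul]
      rw [div_mul_eq_mul_div, div_mul_eq_mul_div, ← add_div, div_eq_iff himm]
      ring
  have hmap := hΨd.map_nhds_eq_of_surj hsurj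
  have hnear : ∀ᶠ v in 𝓝 (h 0), Q v = 0 := by
    have : Ψ (1, 0) = h 0 := by simp [hΨ]
    rw [← this, ← hmap, eventually_map]
    exact Eventually.of_forall fun p => h0 p.1 p.2
  intro v
  set q : ℂ → ℂ := fun s => Q (h 0 + s • (v - h 0)) with hq
  have hqd : Differentiable ℂ q := hQ.comp (by fun_prop)
  have hq0 : ∀ᶠ s in 𝓝 (0 : ℂ), q s = 0 := by
    have hc : Tendsto (fun s : ℂ => h 0 + s • (v - h 0)) (𝓝 0) (𝓝 (h 0)) := by
      have : Continuous (fun s : ℂ => h 0 + s • (v - h 0)) := by fun_prop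
      have h2 := this.tendsto 0
      simpa using h2
    exact hc.eventually hnear
  have hqa : AnalyticOnNhd ℂ q univ := fun z _ => hqd.analyticAt z
  have := hqa.eqOn_zero_of_preconnected_of_eventuallyEq_zero isPreconnected_univ (mem_univ 0) hq0
    (mem_univ 1)
  simpa [hq] using this

theorem rel_of_par (D : LinData G F w h lam) {b1 b2 : ℕ} {B1 B2 : C2 → C2}
    (hB1 : IsLift b1 B1) (hB2 : IsLift b2 B2) {m1 m2 : ℕ} (hle : m1 ≤ m2)
    (hpar : ∀ z, wd (B1 (h ((lam ^ m1)⁻¹ * z))) (B2 (h ((lam ^ m2)⁻¹ * z))) = 0) :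
    ∀ v, wd (B2 v) (B1 (F^[m2 - m1] v)) = 0 := by
  have hlam := lam_ne D
  set m := m2 - m1 with hm
  apply zero_of_cone D
    (differentiable_wd hB2.diff (hB1.diff.comp (iterate_diff D.lift m)))
  intro t z
  have h1 : wd (B2 (h z)) (B1 (F^[m] (h z))) = 0 := by
    have h2 := hpar (lam ^ m2 * z)
    have h3 : (lam ^ m2)⁻¹ * (lam ^ m2 * z) = z := by
      rw [← mul_assoc, inv_mul_cancel₀ (pow_ne_zero _ hlam), one_mul]
    have h4 : (lam ^ m1)⁻¹ * (lam ^ m2 * z) = lam ^ m * z := by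
      have : lam ^ m2 = lam ^ m1 * lam ^ m := by rw [← pow_add]; congr 1; omega
      rw [this]
      field_simp
    rw [h3, h4] at h2
    have h5 := par_lift hB1 (fe_pow D m z)
    rw [wd_zero_comm]
    exact par_trans (hB1.nz _ (D.nz _)) h5 h2
  rw [Function.comp_apply, hB2.hom, iterate_hom D.lift, hB1.hom, wd_smul_left, wd_smul_right, h1, mul_zero, mul_zero]

end

end Pool.Agent.Helper59.Fam
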