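import Mathlib
import Pool.Agent.Helper59.FamB

/-! Local inverses: curves converging to an immersed curve are reparametrisations of it. -/

open Complex Metric Set Filter Topology InnerProductSpace

namespace Pool.Agent.Helper59.Fam

open Pool.Agent.Helper65

theorem lu_tendsto {β : Type*} [UniformSpace β] {H : ℕ → ℂ → β} {H0 : ℂ → β} {s : Set ℂ}
    (hs : IsOpen s) (hlu : TendstoLocallyUniformlyOn H H0 atTop s) (hc : ContinuousOn H0 s) {x : ℂ}
    (hx : x ∈ s) : Tendsto (fun y : ℕ × ℂ => H y.1 y.2) (atTop ×ˢ 𝓝 x) (𝓝 (H0 x)) := by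
  have h1 := hs.tendstoLocallyUniformlyOn_iff_forall_tendsto.1 hlu x hx
  have h2 : Tendsto (fun y : ℕ × ℂ => H0 y.2) (atTop ×ˢ 𝓝 x) (𝓝 (H0 x)) :=
    (hc.continuousAt (hs.mem_nhds hx)).tendsto.comp tendsto_snd
  rw [Uniform.tendsto_nhds_right] at h2 ⊢
  exact h2.uniformity_trans h1

theorem lu_of_tendsto {σ : ℕ → ℂ → ℂ} {s : Set ℂ} (hs : IsOpen s)
    (h : ∀ x ∈ s, Tendsto (fun y : ℕ × ℂ => σ y.1 y.2) (atTop ×ˢ 𝓝 x) (𝓝 x)) :
    TendstoLocallyUniformlyOn σ id atTop s := by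
  rw [hs.tendstoLocallyUniformlyOn_iff_forall_tendsto]
  intro x hx
  have h1 : Tendsto (fun y : ℕ × ℂ => id y.2) (atTop ×ˢ 𝓝 x) (𝓝 x) := tendsto_snd
  have h2 := h1.prodMk_nhds (h x hx)
  exact h2.mono_right (nhds_le_uniformity x)

theorem eventually_forall_compact {K : Set ℂ} (hK : IsCompact K) {P : ℕ → ℂ → Prop}
    (h : ∀ x ∈ K, ∀ᶠ y : ℕ × ℂ in atTop ×ˢ 𝓝 x, P y.1 y.2) : ∀ᶠ j in atTop, ∀ z ∈ K, P j z := by
  have h1 : {y : ℕ × ℂ | P y.1 y.2} ∈ (atTop : Filter ℕ) ×ˢ 𝓝ˢ K :=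
    hK.mem_prod_nhdsSet_of_forall h
  obtain ⟨A, hA, B, hB, hAB⟩ := mem_prod_iff.1 h1
  filter_upwards [hA] with j hj z hz
  exact hAB (mk_mem_prod hj (subset_of_mem_nhdsSet hB hz))

theorem exists_sigma {H : ℕ → ℂ → C2} {H0 : ℂ → C2} {U : Set ℂ} (hU : IsOpen U)
    (hHd : ∀ j, DifferentiableOn ℂ (H j) U) (hH0d : DifferentiableOn ℂ H0 U)
    (hlu : TendstoLocallyUniformlyOn H H0 atTop U) {x0 : ℂ} (hx0 : x0 ∈ U)
    (himm : wd (H0 x0) (deriv H0 x0) ≠ 0) :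
    ∃ ρ > 0, closedBall x0 ρ ⊆ U ∧ ∃ (σ : ℕ → ℂ → ℂ) (J : ℕ),
      TendstoUniformlyOn σ id atTop (closedBall x0 ρ) ∧
      ∀ j ≥ J, DifferentiableOn ℂ (σ j) (ball x0 ρ) ∧ ∀ z ∈ ball x0 ρ, σ j z ∈ U ∧
        wd (H j z) (H0 (σ j z)) = 0 := by
  set ξ := H0 x0 with hξ
  set η := deriv H0 x0 with hη
  have hH0a : AnalyticAt ℂ H0 x0 := hH0d.analyticAt (hU.mem_nhds hx0)
  have hcu : ∀ v : C2, Continuous fun u : C2 => wd u v := by
    intro v; unfold wd; fun_prop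
  set Φ : C2 → ℂ := fun u => wd u ξ / wd u η with hΦ
  have hΦc : ∀ u : C2, wd u η ≠ 0 → ContinuousAt Φ u := fun u hu =>
    (hcu ξ).continuousAt.div (hcu η).continuousAt hu
  have hwa : ∀ v : C2, ∀ z ∈ U, AnalyticAt ℂ (fun z => wd (H0 z) v) z := fun v z hz =>
    analyticAt_wd (hH0d.analyticAt (hU.mem_nhds hz)) analyticAt_const
  set L : ℂ → ℂ := fun z => Φ (H0 z) with hL
  have hLa : AnalyticAt ℂ L x0 := (hwa ξ x0 hx0).div (hwa η x0 hx0) himm
  have hderw : ∀ v : C2, HasDerivAt (fun z => wd (H0 z) v) (wd η v) x0 := by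
    intro v
    have h1 : HasDerivAt H0 η x0 := hH0a.differentiableAt.hasDerivAt
    have h2 : HasDerivAt (fun z => (H0 z).1) η.1 x0 := h1.fst
    have h3 : HasDerivAt (fun z => (H0 z).2) η.2 x0 := h1.snd
    exact (h2.mul_const v.2).sub (h3.mul_const v.1)
  have hLd : deriv L x0 = -1 := by
    have h1 := (hderw ξ).div (hderw η) himm
    have h2 : deriv L x0 = (wd η ξ * wd (H0 x0) η - wd (H0 x0) ξ * wd η η) / wd (H0 x0) η ^ 2 :=
      h1.deriv
    rw [h2, ← hξ, wd_self, wd_self, wd_comm η ξ]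
    field_simp
    ring
  have hLd0 : deriv L x0 ≠ 0 := by rw [hLd]; norm_num
  have hL0 : L x0 = 0 := by
    simp only [hL, hΦ]
    rw [← hξ, wd_self, zero_div]
  set M := hLa.hasStrictDerivAt.localInverse _ _ _ hLd0 with hM
  have hMa : AnalyticAt ℂ M 0 := by
    have := hLa.analyticAt_localInverse hLd0
    rwa [hL0] at this
  have hML : ∀ᶠ z in 𝓝 x0, M (L z) = z := HasStrictDerivAt.eventually_left_inverse ..
  have hLM : ∀ᶠ y in 𝓝 0, L (M y) = y := by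
    have := HasStrictDerivAt.eventually_right_inverse hLa.hasStrictDerivAt hLd0
    rwa [hL0] at this
  have hM0 : M 0 = x0 := by
    have := hML.self_of_nhds
    rwa [hL0] at this
  -- good radius in the target
  have hgood : ∀ᶠ y in 𝓝 (0 : ℂ), AnalyticAt ℂ M y ∧ L (M y) = y ∧ M y ∈ U ∧
      wd (H0 (M y)) η ≠ 0 := by
    have h1 := hMa.eventually_analyticAt
    have hMc : Tendsto M (𝓝 0) (𝓝 x0) := by
      have := hMa.continuousAt.tendsto
      rwa [hM0] at this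
    have h2 : ∀ᶠ y in 𝓝 (0 : ℂ), M y ∈ U := hMc.eventually (hU.mem_nhds hx0)
    have h3 : ∀ᶠ y in 𝓝 (0 : ℂ), wd (H0 (M y)) η ≠ 0 := by
      have h4 : ∀ᶠ z in 𝓝 x0, wd (H0 z) η ≠ 0 :=
        (hwa η x0 hx0).continuousAt.eventually_ne himm
      exact hMc.eventually h4
    filter_upwards [h1, hLM, h2, h3] with y a b c d using ⟨a, b, c, d⟩
  obtain ⟨r1, hr1, hr1g⟩ := Metric.eventually_nhds_iff_ball.1 hgood
  -- good radius in the source
  have hgood2 : ∀ᶠ z in 𝓝 x0, z ∈ U ∧ wd (H0 z) η ≠ 0 ∧ L z ∈ ball (0 : ℂ) r1 ∧ M (L z) = z := by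
    have h1 : ∀ᶠ z in 𝓝 x0, z ∈ U := hU.mem_nhds hx0
    have h4 : ∀ᶠ z in 𝓝 x0, wd (H0 z) η ≠ 0 :=
      (hwa η x0 hx0).continuousAt.eventually_ne himm
    have h5 : ∀ᶠ z in 𝓝 x0, L z ∈ ball (0 : ℂ) r1 := by
      have := hLa.continuousAt.tendsto
      rw [hL0] at this
      exact this.eventually (ball_mem_nhds _ hr1)
    filter_upwards [h1, h4, h5, hML] with z a b c d using ⟨a, b, c, d⟩
  obtain ⟨ρ', hρ', hρg⟩ := Metric.eventually_nhds_iff_ball.1 hgood2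
  have hρ2 : 0 < ρ' / 2 := by positivity
  have hcb : closedBall x0 (ρ' / 2) ⊆ ball x0 ρ' := closedBall_subset_ball (by linarith)
  refine ⟨ρ' / 2, hρ2, fun z hz => (hρg z (hcb hz)).1, fun j z => M (Φ (H j z)), ?_⟩
  have htend : ∀ x ∈ ball x0 ρ', Tendsto (fun y : ℕ × ℂ => H y.1 y.2) (atTop ×ˢ 𝓝 x)
      (𝓝 (H0 x)) := fun x hx => lu_tendsto hU hlu hH0d.continuousOn (hρg x hx).1
  have hP : ∀ᶠ j in atTop, ∀ z ∈ closedBall x0 (ρ' / 2), wd (H j z) η ≠ 0 ∧
      Φ (H j z) ∈ ball (0 : ℂ) r1 := by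
    apply eventually_forall_compact (isCompact_closedBall _ _)
      (P := fun j z => wd (H j z) η ≠ 0 ∧ Φ (H j z) ∈ ball (0 : ℂ) r1)
    intro x hx
    have hx' := hcb hx
    have h1 : ∀ᶠ u in 𝓝 (H0 x), wd u η ≠ 0 ∧ Φ u ∈ ball (0 : ℂ) r1 := by
      have h2 := (hcu η).continuousAt.eventually_ne (hρg x hx').2.1
      have h3 : ∀ᶠ u in 𝓝 (H0 x), Φ u ∈ ball (0 : ℂ) r1 :=
        (hΦc _ (hρg x hx').2.1).eventually (isOpen_ball.mem_nhds (hρg x hx').2.2.1)
      exact h2.and h3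
    exact (htend x hx').eventually h1
  obtain ⟨J, hJ⟩ := eventually_atTop.1 hP
  refine ⟨J, ?_, ?_⟩
  · have hlu2 : TendstoLocallyUniformlyOn (fun j z => M (Φ (H j z))) id atTop (ball x0 ρ') := by
      apply lu_of_tendsto isOpen_ball
      intro x hx
      obtain ⟨_, h2, h3, h4⟩ := hρg x hx
      have hMc : ContinuousAt M (Φ (H0 x)) := (hr1g _ h3).1.continuousAt
      have hcomp : ContinuousAt (fun u => M (Φ u)) (H0 x) :=
        ContinuousAt.comp (f := Φ) hMc (hΦc _ h2)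
      have h5 : Tendsto (fun u => M (Φ u)) (𝓝 (H0 x)) (𝓝 x) := by
        have := hcomp.tendsto
        have h6 : M (Φ (H0 x)) = x := h4
        rwa [h6] at this
      exact h5.comp (htend x hx)
    exact (tendstoLocallyUniformlyOn_iff_tendstoUniformlyOn_of_compact
      (isCompact_closedBall _ _)).1 (hlu2.mono hcb)
  · intro j hj
    have hJj := hJ j hj
    constructor
    · intro z hz
      have hz' := ball_subset_closedBall hz
      have hzU : z ∈ U := (hρg z (hcb hz')).1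
      have hHa : AnalyticAt ℂ (H j) z := (hHd j).analyticAt (hU.mem_nhds hzU)
      have h1 : AnalyticAt ℂ (fun z => Φ (H j z)) z :=
        (analyticAt_wd hHa analyticAt_const).div (analyticAt_wd hHa analyticAt_const) (hJj z hz').1
      have h2 : AnalyticAt ℂ M (Φ (H j z)) := (hr1g _ (hJj z hz').2).1
      have h3 : AnalyticAt ℂ (fun z => M (Φ (H j z))) z :=
        AnalyticAt.comp (f := fun z => Φ (H j z)) h2 h1
      exact h3.differentiableAt.differentiableWithinAt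
    · intro z hz
      have hz' := ball_subset_closedBall hz
      obtain ⟨h1, h2⟩ := hJj z hz'
      obtain ⟨_, h3, h4, h5⟩ := hr1g _ h2
      refine ⟨h4, ?_⟩
      have h6 : Φ (H0 (M (Φ (H j z)))) = Φ (H j z) := h3
      set u := H j z with hu
      set v := H0 (M (Φ u)) with hv
      have h7 : wd v ξ / wd v η = wd u ξ / wd u η := h6
      rw [div_eq_div_iff h5 h1] at h7
      have h8 := plucker u v ξ η
      have h9 : wd u ξ * wd v η - wd v ξ * wd u η = 0 := by rw [h7]; ring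
      rw [h9] at h8
      rcases mul_eq_zero.1 h8.symm with h | h
      · exact h
      · exact absurd h himm

end Pool.Agent.Helper59.Fam
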