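import Mathlib
import Pool.Agent.Helper59.FamC

/-! Finiteness of the family of symmetries when there are no translations. -/

open Complex Metric Set Filter Topology InnerProductSpace

namespace Pool.Agent.Helper59.Fam

open Pool.Agent.Helper65

/-- Montel's theorem for curves in `ℂ²`. -/
def MontelStmt : Prop :=
  ∀ (f : ℕ → ℂ → C2) (c : ℂ) (R M : ℝ), (∀ n, DifferentiableOn ℂ (f n) (ball c R)) →
    (∀ n, ∀ z ∈ ball c R, ‖f n z‖ ≤ M) →
    ∃ φ : ℕ → ℕ, StrictMono φ ∧ ∃ g : ℂ → C2, DifferentiableOn ℂ g (ball c R) ∧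
      TendstoLocallyUniformlyOn (fun n => f (φ n)) g atTop (ball c R)

/-- nearby symmetries give translations -/
def TrStmt (g : ℂ → ℝ) : Prop :=
  ∀ (δ : ℂ → ℂ), AnalyticAt ℂ δ 0 → δ 0 ≠ 0 → deriv δ 0 ≠ 0 →
    HarmonicAt (fun z => g (δ z) - g z) 0 →
    ∀ (β : ℂ → ℂ), AnalyticAt ℂ β 0 → deriv β 0 ≠ 0 → ∀ (s : ℝ), s ≠ 0 →
    HarmonicAt (fun z => g (β z) - s * g z) 0 →
    ∀ (ρ : ℝ), 0 < ρ → ∀ (σ : ℕ → ℂ → ℂ), (∀ j, DifferentiableOn ℂ (σ j) (ball (β 0) ρ)) →
    TendstoUniformlyOn σ id atTop (ball (β 0) ρ) → (∀ j, ∃ z ∈ ball (β 0) ρ, σ j z ≠ z) →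
    ∀ (t : ℕ → ℝ), Tendsto t atTop (𝓝 1) →
    (∀ j, HarmonicOnNhd (fun z => g (σ j z) - t j * g z) (ball (β 0) ρ)) →
    ∃ c ∈ Tr g, c ≠ 0

theorem not_par_of_nonharmonic {G : C2 → ℝ} (hG : IsGreen G) {H0 : ℂ → C2} {x : ℂ}
    (hH0 : AnalyticAt ℂ H0 x) (hne : H0 x ≠ 0) (hnh : ¬ HarmonicAt (fun z => G (H0 z)) x) :
    ∀ᶠ z in 𝓝[≠] x, wd (H0 z) (deriv H0 z) ≠ 0 := by
  have hW : AnalyticAt ℂ (fun z => wd (H0 z) (deriv H0 z)) x := analyticAt_wd hH0 hH0.deriv
  rcases hW.eventually_eq_zero_or_eventually_ne_zero with h0 | h0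
  · exfalso
    apply hnh
    set v := H0 x with hv
    -- a vector not parallel to v
    obtain ⟨u, hu⟩ : ∃ u : C2, wd v u ≠ 0 := by
      rcases ne_zero_iff.1 hne with h1 | h1
      · exact ⟨(0, 1), by simpa [wd] using h1⟩
      · exact ⟨(1, 0), by simpa [wd] using h1⟩
    have hgood : ∀ᶠ z in 𝓝 x, AnalyticAt ℂ H0 z ∧ wd (H0 z) u ≠ 0 ∧
        wd (H0 z) (deriv H0 z) = 0 := by
      have h1 := hH0.eventually_analyticAt
      have h2 : ∀ᶠ z in 𝓝 x, wd (H0 z) u ≠ 0 :=
        (analyticAt_wd hH0 analyticAt_const).continuousAt.eventually_ne hu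
      filter_upwards [h1, h2, h0] with z a b c using ⟨a, b, c⟩
    obtain ⟨ρ, hρ, hρg⟩ := Metric.eventually_nhds_iff_ball.1 hgood
    set q : ℂ → ℂ := fun z => wd (H0 z) v / wd (H0 z) u with hq
    have hder : ∀ z ∈ ball x ρ, HasDerivAt q 0 z := by
      intro z hz
      obtain ⟨ha, hb, hc⟩ := hρg z hz
      have hderw : ∀ v : C2, HasDerivAt (fun z => wd (H0 z) v) (wd (deriv H0 z) v) z := by
        intro v
        have h1 : HasDerivAt H0 (deriv H0 z) z := ha.differentiableAt.hasDerivAt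
        have h2 : HasDerivAt (fun z => (H0 z).1) (deriv H0 z).1 z := h1.fst
        have h3 : HasDerivAt (fun z => (H0 z).2) (deriv H0 z).2 z := h1.snd
        exact (h2.mul_const v.2).sub (h3.mul_const v.1)
      have h1 := (hderw v).div (hderw u) hb
      refine h1.congr_deriv ?_
      have h2 := plucker (deriv H0 z) (H0 z) v u
      rw [wd_comm (deriv H0 z) (H0 z), hc, neg_zero, zero_mul] at h2
      rw [div_eq_zero_iff]
      left
      rw [← h2]
    have hconst : ∀ z ∈ ball x ρ, q z = q x := by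
      intro z hz
      apply isOpen_ball.is_const_of_deriv_eq_zero (convex_ball x ρ).isPreconnected
        (fun y hy => (hder y hy).differentiableAt.differentiableWithinAt) _ hz
        (mem_ball_self hρ)
      intro y hy
      exact (hder y hy).deriv
    have hq0 : q x = 0 := by simp [hq, ← hv, wd_self]
    have hpar : ∀ᶠ z in 𝓝 x, wd (H0 z) v = 0 := by
      filter_upwards [ball_mem_nhds x hρ] with z hz
      have h1 := hconst z hz
      rw [hq0] at h1
      rcases div_eq_zero_iff.1 h1 with h | h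
      · exact h
      · exact absurd h (hρg z hz).2.1
    have h1 := par_harmonic hG hH0 (analyticAt_const (v := v)) hne hne hpar
    have h2 := h1.add (harmonicAt_const (G v))
    refine (harmonicAt_congr_nhds (Eventually.of_forall fun z => ?_)).2 h2
    simp only [Pi.add_apply]
    ring
  · exact h0

section
variable {G : C2 → ℝ} {F : C2 → C2} {w : ℕ} {h : ℂ → C2} {lam : ℂ}

theorem fin_core (hmontel : MontelStmt) (D : LinData G F w h lam)
    (hT : ∀ c ∈ Tr (fun z => G (h z)), c = 0) (htr : TrStmt (fun z => G (h z)))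
    (b : ℕ → ℕ) (B : ℕ → C2 → C2) (hb : ∀ j, 1 ≤ b j) (hB : ∀ j, IsLift (b j) (B j))
    (hG : ∀ j, GInv G (b j) (B j)) :
    ∃ i j m, i ≠ j ∧ ∀ v, wd (B j v) (B i (F^[m] v)) = 0 := by
  by_contra hcon
  push Not at hcon
  set g : ℂ → ℝ := fun z => G (h z) with hg
  have hgc : Continuous g := cont_green D.green D.diff.continuous D.nz
  have hw2 : 2 ≤ w := D.hw
  have hw0 : (0 : ℝ) < w := by exact_mod_cast (by omega : 0 < w)
  have hlam := lam_ne D
  set m : ℕ → ℕ := fun j => Nat.log w (b j) with hm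
  set t : ℕ → ℝ := fun j => (b j : ℝ) / (w : ℝ) ^ m j with ht
  have ht1 : ∀ j, 1 ≤ t j := by
    intro j
    simp only [ht]
    rw [le_div_iff₀ (by positivity), one_mul]
    have := Nat.pow_log_le_self w (x := b j) (by have := hb j; omega)
    exact_mod_cast this
  have ht2 : ∀ j, t j ≤ w := by
    intro j
    simp only [ht]
    rw [div_le_iff₀ (by positivity), ← pow_succ']
    have := (Nat.lt_pow_succ_log_self (by omega : 1 < w) (b j)).le
    exact_mod_cast this
  choose H hHd hHnz hHpar hHG using fun j => exists_norm_lift D (hB j) (hG j) (m j)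
  have hHG' : ∀ j z, G (H j z) = t j * g z := hHG
  -- non parallel
  have hnp : ∀ i j, i ≠ j → ¬ ∀ z, wd (H i z) (H j z) = 0 := by
    intro i j hij hpar
    have h1 : ∀ z, wd (B i (h ((lam ^ m i)⁻¹ * z))) (B j (h ((lam ^ m j)⁻¹ * z))) = 0 := by
      intro z
      have h2 := wd_zero_comm.1 (hHpar i z)
      exact par_trans (hHnz j z) (par_trans (hHnz i z) h2 (hpar z)) (hHpar j z)
    rcases le_total (m i) (m j) with hle | hle
    · obtain ⟨v, hv⟩ := hcon i j (m j - m i) hij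
      exact hv (rel_of_par D (hB i) (hB j) hle h1 v)
    · obtain ⟨v, hv⟩ := hcon j i (m i - m j) hij.symm
      exact hv (rel_of_par D (hB j) (hB i) hle (fun z => wd_zero_comm.1 (h1 z)) v)
  have hnp' : ∀ i j, i ≠ j → ∀ (x : ℂ) (ρ : ℝ), 0 < ρ →
      ¬ ∀ z ∈ ball x ρ, wd (H i z) (H j z) = 0 := by
    intro i j hij x ρ hρ hpar
    apply hnp i j hij
    have hd : Differentiable ℂ fun z => wd (H i z) (H j z) := differentiable_wd (hHd i) (hHd j)
    have ha : AnalyticOnNhd ℂ (fun z => wd (H i z) (H j z)) univ := fun z _ => hd.analyticAt z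
    have hev : ∀ᶠ z in 𝓝 x, wd (H i z) (H j z) = 0 := by
      filter_upwards [ball_mem_nhds x hρ] with z hz using hpar z hz
    intro z
    exact ha.eqOn_zero_of_preconnected_of_eventuallyEq_zero isPreconnected_univ (mem_univ x) hev
      (mem_univ z)
  -- subsequence of t
  obtain ⟨T, hTmem, φ1, hφ1, htT⟩ := (isCompact_Icc (a := (1 : ℝ)) (b := w)).tendsto_subseq
    (fun j => (⟨ht1 j, ht2 j⟩ : t j ∈ Icc (1 : ℝ) w))
  have hT1 : 1 ≤ T := hTmem.1
  -- bounds
  obtain ⟨C, hC⟩ := green_bound D.green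
  obtain ⟨Mg, hMg⟩ := (isCompact_closedBall (0 : ℂ) 2).exists_bound_of_continuousOn hgc.continuousOn
  have hMg0 : 0 ≤ Mg := (norm_nonneg _).trans (hMg 0 (by simp))
  have hbound : ∀ j, ∀ z ∈ ball (0 : ℂ) 2, Real.exp (-(w * Mg) - C) ≤ ‖H j z‖ ∧
      ‖H j z‖ ≤ Real.exp (w * Mg + C) := by
    intro j z hz
    have h1 := hC (H j z) (hHnz j z)
    rw [hHG', abs_le] at h1
    have h2 := hMg z (ball_subset_closedBall hz)
    rw [Real.norm_eq_abs] at h2
    have h3 : |t j * g z| ≤ w * Mg := by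
      rw [abs_mul, abs_of_pos (by linarith [ht1 j])]
      exact mul_le_mul (ht2 j) h2 (abs_nonneg _) hw0.le
    rw [abs_le] at h3
    have hpos : 0 < ‖H j z‖ := norm_pos_iff.2 (hHnz j z)
    constructor
    · rw [← Real.le_log_iff_exp_le hpos]
      linarith [h1.2, h3.1]
    · rw [← Real.log_le_iff_le_exp hpos]
      linarith [h1.1, h3.2]
  obtain ⟨φ2, hφ2, H0, hH0d, hlu⟩ := hmontel (fun n => H (φ1 n)) 0 2 (Real.exp (w * Mg + C))
    (fun n => (hHd _).differentiableOn) (fun n z hz => (hbound _ z hz).2)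
  set J : ℕ → ℕ := fun n => φ1 (φ2 n) with hJ
  have hJm : StrictMono J := hφ1.comp hφ2
  have htJ : Tendsto (fun n => t (J n)) atTop (𝓝 T) := htT.comp hφ2.tendsto_atTop
  have hpt : ∀ z ∈ ball (0 : ℂ) 2, Tendsto (fun n => H (J n) z) atTop (𝓝 (H0 z)) :=
    fun z hz => hlu.tendsto_at hz
  have hH0nz : ∀ z ∈ ball (0 : ℂ) 2, H0 z ≠ 0 := by
    intro z hz h0
    have h1 := (hpt z hz).norm
    rw [h0, norm_zero] at h1
    have h2 : Real.exp (-(w * Mg) - C) ≤ 0 := ge_of_tendsto' h1 fun n => (hbound _ z hz).1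
    linarith [Real.exp_pos (-(w * Mg) - C)]
  have hH0G : ∀ z ∈ ball (0 : ℂ) 2, G (H0 z) = T * g z := by
    intro z hz
    have hGc : ContinuousAt G (H0 z) :=
      D.green.cont.continuousAt (isOpen_compl_singleton.mem_nhds (by simpa using hH0nz z hz))
    have h1 : Tendsto (fun n => G (H (J n) z)) atTop (𝓝 (G (H0 z))) := hGc.tendsto.comp (hpt z hz)
    have h2 : Tendsto (fun n => G (H (J n) z)) atTop (𝓝 (T * g z)) := by
      simp_rw [hHG']
      exact htJ.mul_const _
    exact tendsto_nhds_unique h1 h2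
  have hH0a : ∀ z ∈ ball (0 : ℂ) 2, AnalyticAt ℂ H0 z := fun z hz =>
    hH0d.analyticAt (isOpen_ball.mem_nhds hz)
  have h02 : (0 : ℂ) ∈ ball (0 : ℂ) 2 := mem_ball_self (by norm_num)
  -- H0 is immersed near 0
  have hnh0 : ¬ HarmonicAt (fun z => G (H0 z)) 0 := by
    intro hh
    apply D.nh
    have h1 := hh.const_smul (c := T⁻¹)
    refine (harmonicAt_congr_nhds ?_).2 h1
    filter_upwards [isOpen_ball.mem_nhds h02] with z hz
    simp only [Pi.smul_apply, smul_eq_mul]
    rw [hH0G z hz]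
    field_simp
    rfl
  have himm := not_par_of_nonharmonic D.green (hH0a 0 h02) (hH0nz 0 h02) hnh0
  obtain ⟨δ, hδa, hδ0, hδ', hδp⟩ := D.ret
  have hha : ∀ z, AnalyticAt ℂ h z := fun z => D.diff.analyticAt z
  have hδg : HarmonicAt (fun z => g (δ z) - g z) 0 :=
    par_harmonic D.green (K := fun z => h (δ z)) ((hha _).comp hδa) (hha 0) (D.nz _) (D.nz _) hδp
  -- base point
  have hinv : Tendsto (fun n : ℕ => (lam ^ n)⁻¹ * δ 0) atTop (𝓝[≠] 0) := by
    rw [tendsto_nhdsWithin_iff]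
    constructor
    · have h1 : Tendsto (fun n : ℕ => (lam⁻¹) ^ n) atTop (𝓝 0) := by
        apply tendsto_pow_atTop_nhds_zero_of_norm_lt_one
        rw [norm_inv]
        exact inv_lt_one_of_one_lt₀ D.hl
      have h2 := h1.mul_const (δ 0)
      rw [zero_mul] at h2
      refine h2.congr fun n => ?_
      rw [inv_pow]
    · refine Eventually.of_forall fun n => ?_
      exact mul_ne_zero (inv_ne_zero (pow_ne_zero _ hlam)) hδ0
  obtain ⟨n, hn1, hn2⟩ := ((hinv.eventually himm).and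
    ((hinv.mono_right nhdsWithin_le_nhds).eventually (isOpen_ball.mem_nhds h02))).exists
  set β : ℂ → ℂ := fun z => (lam ^ n)⁻¹ * δ z with hβ
  have hβa : AnalyticAt ℂ β 0 := analyticAt_const.mul hδa
  have hβ' : deriv β 0 ≠ 0 := by
    have h1 : HasDerivAt β ((lam ^ n)⁻¹ * deriv δ 0) 0 :=
      (hδa.differentiableAt.hasDerivAt).const_mul _
    rw [h1.deriv]
    exact mul_ne_zero (inv_ne_zero (pow_ne_zero _ hlam)) hδ'
  have hβ0 : β 0 = (lam ^ n)⁻¹ * δ 0 := rfl
  rw [← hβ0] at hn1 hn2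
  have hs0 : ((w : ℝ) ^ n)⁻¹ ≠ 0 := by positivity
  have hβg : HarmonicAt (fun z => g (β z) - ((w : ℝ) ^ n)⁻¹ * g z) 0 := by
    have h1 : HarmonicAt (fun z => g (lam ^ n * β z) - (w : ℝ) ^ n * g (β z)) 0 :=
      harmonicAt_comp' (u := fun z => G (h (lam ^ n * z)) - (w : ℝ) ^ n * G (h z)) (h := β)
        (sc_pow D n _ (mem_univ _)) hβa
    have h2 := (h1.sub hδg).const_smul (c := -((w : ℝ) ^ n)⁻¹)
    refine (harmonicAt_congr_nhds (Eventually.of_forall fun z => ?_)).2 h2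
    simp only [Pi.sub_apply, Pi.smul_apply, smul_eq_mul]
    have h3 : lam ^ n * β z = δ z := by
      simp only [hβ]
      rw [← mul_assoc, mul_inv_cancel₀ (pow_ne_zero _ hlam), one_mul]
    rw [h3]
    have hwn : (w : ℝ) ^ n ≠ 0 := by positivity
    field_simp
    ring
  obtain ⟨ρ, hρ, hρU, σ, J0, hunif, hσ⟩ := exists_sigma isOpen_ball
    (fun k => (hHd (J k)).differentiableOn) hH0d hlu hn2 hn1
  -- eventually not the identity
  obtain ⟨J1, hJ1, hnid⟩ : ∃ J1 ≥ J0, ∀ k ≥ J1, ∃ z ∈ ball (β 0) ρ, σ k z ≠ z := by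
    by_cases hid : ∃ k1 ≥ J0, ∀ z ∈ ball (β 0) ρ, σ k1 z = z
    · obtain ⟨k1, hk1, hk1i⟩ := hid
      refine ⟨k1 + 1, by omega, fun k hk => ?_⟩
      by_contra hno
      push Not at hno
      apply hnp' (J k) (J k1) (hJm.injective.ne (by omega)) (β 0) ρ hρ
      intro z hz
      have h1 := ((hσ k (by omega)).2 z hz).2
      have h2 := ((hσ k1 hk1).2 z hz)
      rw [hno z hz] at h1
      rw [hk1i z hz] at h2
      exact par_trans (hH0nz z h2.1) h1 (wd_zero_comm.1 h2.2)
    · push Not at hid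
      exact ⟨J0, le_rfl, hid⟩
  obtain ⟨c, hcT, hc0⟩ := htr δ hδa hδ0 hδ' hδg β hβa hβ' _ hs0 hβg ρ hρ
    (fun k => σ (k + J1)) (fun k => (hσ (k + J1) (by omega)).1)
    (by
      have h1 : TendstoUniformlyOn σ id atTop (ball (β 0) ρ) := hunif.mono ball_subset_closedBall
      intro u hu
      exact (tendsto_add_atTop_nat J1).eventually (h1 u hu))
    (fun k => hnid (k + J1) (by omega))
    (fun k => t (J (k + J1)) / T)
    (by
      have h1 : Tendsto (fun k => t (J (k + J1))) atTop (𝓝 T) :=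
        htJ.comp (tendsto_add_atTop_nat J1)
      have h2 := h1.div_const T
      rwa [div_self (by linarith : T ≠ 0)] at h2)
    (by
      intro k z hz
      obtain ⟨hs1, hs2⟩ := hσ (k + J1) (by omega)
      have hsa : AnalyticAt ℂ (σ (k + J1)) z := hs1.analyticAt (isOpen_ball.mem_nhds hz)
      have hsU := (hs2 z hz).1
      have h1 : HarmonicAt (fun z => G (H (J (k + J1)) z) - G (H0 (σ (k + J1) z))) z := by
        apply par_harmonic D.green
        · exact (hHd _).analyticAt z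
        · exact AnalyticAt.comp (f := σ (k + J1)) (hH0a _ hsU) hsa
        · exact hHnz _ _
        · exact hH0nz _ hsU
        · filter_upwards [isOpen_ball.mem_nhds hz] with z' hz' using (hs2 z' hz').2
      have h2 := h1.const_smul (c := -T⁻¹)
      refine (harmonicAt_congr_nhds ?_).2 h2
      filter_upwards [isOpen_ball.mem_nhds hz] with z' hz'
      simp only [Pi.smul_apply, smul_eq_mul]
      rw [hHG', hH0G _ (hs2 z' hz').1]
      have hT0 : T ≠ 0 := by linarith
      field_simp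
      ring)
  exact hc0 (hT c hcT)

end

end Pool.Agent.Helper59.Fam
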