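import Mathlib
import Pool.Agent.Helper59.FamD

/-! Semigroup algebra of lifts up to parallelism. -/

open Complex Metric Set Filter Topology InnerProductSpace

namespace Pool.Agent.Helper59.Fam

open Pool.Agent.Helper65

/-- parallel maps -/
def Par (X Y : C2 → C2) : Prop := ∀ v, v ≠ 0 → wd (X v) (Y v) = 0

/-- a symmetry of `G` of degree `b` -/
structure Sy (G : C2 → ℝ) (b : ℕ) (B : C2 → C2) : Prop where
  one_le : 1 ≤ b
  lift : IsLift b B
  ginv : GInv G b B

theorem isLift_comp {a b : ℕ} {A B : C2 → C2} (hA : IsLift a A) (hB : IsLift b B) :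
    IsLift (a * b) (A ∘ B) where
  diff := hA.diff.comp hB.diff
  hom t v := by
    simp only [Function.comp_apply]
    rw [hB.hom, hA.hom, ← pow_mul, mul_comm b a]
  nz v hv := hA.nz _ (hB.nz _ hv)
  fac ξ hξ := by
    obtain ⟨κ, η, hκ, hη, h⟩ := hA.fac ξ hξ
    have hη0 : ∀ i, η i ≠ 0 := by
      intro i h0
      have := hη i
      rw [h0, norm_zero] at this
      norm_num at this
    choose κ' η' hκ' hη' h' using fun i => hB.fac (η i) (hη0 i)
    refine ⟨κ * ∏ i, κ' i, fun k => η' (finProdFinEquiv.symm k).1 (finProdFinEquiv.symm k).2,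
      ?_, ?_, ?_⟩
    · exact mul_ne_zero hκ (Finset.prod_ne_zero_iff.2 fun i _ => hκ' i)
    · intro k
      exact hη' _ _
    · intro v
      simp only [Function.comp_apply]
      rw [h, mul_assoc]
      congr 1
      rw [← Equiv.prod_comp finProdFinEquiv]
      simp only [Equiv.symm_apply_apply]
      rw [Fintype.prod_prod_type, ← Finset.prod_mul_distrib]
      apply Finset.prod_congr rfl
      intro i _
      exact h' i v

theorem isLift_id : IsLift 1 id where
  diff := differentiable_id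
  hom t v := by simp
  nz v hv := hv
  fac ξ hξ := by
    have hn : 0 < ‖ξ‖ := norm_pos_iff.2 hξ
    refine ⟨((‖ξ‖ : ℝ) : ℂ), fun _ => ((‖ξ‖⁻¹ : ℝ) : ℂ) • ξ, ?_, ?_, ?_⟩
    · exact_mod_cast hn.ne'
    · intro i
      rw [norm_smul, Complex.norm_real, Real.norm_of_nonneg (by positivity)]
      field_simp
    · intro v
      simp only [id, Finset.univ_unique, Finset.prod_const, Finset.card_singleton, pow_one]
      rw [wd_smul_right, ← mul_assoc, ← Complex.ofReal_mul, mul_inv_cancel₀ hn.ne']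
      simp

theorem Sy.comp {G : C2 → ℝ} {a b : ℕ} {A B : C2 → C2} (hA : Sy G a A) (hB : Sy G b B) :
    Sy G (a * b) (A ∘ B) where
  one_le := Nat.mul_pos hA.one_le hB.one_le
  lift := isLift_comp hA.lift hB.lift
  ginv := by
    obtain ⟨k, hk⟩ := hA.ginv
    obtain ⟨l, hl⟩ := hB.ginv
    refine ⟨a * l + k, fun v hv => ?_⟩
    rw [Function.comp_apply, hk _ (hB.lift.nz _ hv), hl _ hv]
    push_cast
    ring

theorem sy_id (G : C2 → ℝ) : Sy G 1 id where
  one_le := le_rfl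
  lift := isLift_id
  ginv := ⟨0, fun v _ => by simp⟩

theorem Sy.iter {G : C2 → ℝ} {b : ℕ} {B : C2 → C2} (hB : Sy G b B) (n : ℕ) :
    Sy G (b ^ n) (B^[n]) := by
  induction n with
  | zero => simpa using sy_id G
  | succ n ih =>
    rw [pow_succ, Function.iterate_succ]
    exact ih.comp hB

theorem Par.symm {X Y : C2 → C2} (h : Par X Y) : Par Y X := fun v hv => wd_zero_comm.1 (h v hv)

theorem Par.refl (X : C2 → C2) : Par X X := fun _ _ => wd_self _

theorem Par.trans {G : C2 → ℝ} {b : ℕ} {X Y Z : C2 → C2} (h1 : Par X Y) (h2 : Par Y Z)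
    (hY : Sy G b Y) : Par X Z :=
  fun v hv => par_trans (hY.lift.nz v hv) (h1 v hv) (h2 v hv)

theorem Par.left {G : C2 → ℝ} {b : ℕ} {A X Y : C2 → C2} (h : Par X Y) (hA : Sy G b A) :
    Par (A ∘ X) (A ∘ Y) := fun v hv => par_lift hA.lift (h v hv)

theorem Par.right {G : C2 → ℝ} {b : ℕ} {A X Y : C2 → C2} (h : Par X Y) (hA : Sy G b A) :
    Par (X ∘ A) (Y ∘ A) := fun v hv => h _ (hA.lift.nz v hv)

theorem Par.cancel {G : C2 → ℝ} {a b c : ℕ} {A X Y : C2 → C2} (hA : Sy G a A) (hX : Sy G b X)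
    (hY : Sy G c Y) (h : Par (X ∘ A) (Y ∘ A)) : Par X Y := by
  intro u hu
  obtain ⟨κ, η, hκ, hη, hfac⟩ := hA.lift.fac u hu
  have ha := hA.one_le
  set v := η ⟨0, by omega⟩ with hv
  have hv0 : v ≠ 0 := by
    intro h0
    have := hη ⟨0, by omega⟩
    rw [← hv, h0, norm_zero] at this
    norm_num at this
  have h1 : wd (A v) u = 0 := by
    rw [hfac, Finset.prod_eq_zero (Finset.mem_univ ⟨0, by omega⟩) (by rw [← hv, wd_self]), mul_zero]
  obtain ⟨c', hc'⟩ := exists_smul (hA.lift.nz v hv0) h1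
  rw [hc', hX.lift.hom, hY.lift.hom, wd_smul_left, wd_smul_right]
  have h2 : wd (X (A v)) (Y (A v)) = 0 := h v hv0
  rw [h2, mul_zero, mul_zero]

theorem Sy.zero {G : C2 → ℝ} {b : ℕ} {X : C2 → C2} (hX : Sy G b X) : X 0 = 0 := by
  have h := hX.lift.hom 0 0
  rw [zero_smul, zero_pow (by have := hX.one_le; omega), zero_smul] at h
  exact h

theorem Par.all {G : C2 → ℝ} {b : ℕ} {X Y : C2 → C2} (h : Par X Y) (hX : Sy G b X) :
    ∀ v, wd (X v) (Y v) = 0 := by
  intro v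
  by_cases hv : v = 0
  · rw [hv, hX.zero]
    simp [wd]
  · exact h v hv

section
variable {G : C2 → ℝ} {F : C2 → C2} {w : ℕ} {h : ℂ → C2} {lam : ℂ}

theorem syF (D : LinData G F w h lam) : Sy G w F :=
  ⟨by have := D.hw; omega, D.lift, D.ginv⟩

theorem deg_eq (D : LinData G F w h lam) {a b : ℕ} {X Y : C2 → C2} (hX : Sy G a X) (hY : Sy G b Y)
    (hp : Par X Y) : a = b := by
  by_contra hne
  apply D.nh
  obtain ⟨k, hk⟩ := hX.ginv
  obtain ⟨l, hl⟩ := hY.ginv
  have h1 : HarmonicAt (fun z => G (X (h z)) - G (Y (h z))) 0 := by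
    apply par_harmonic D.green (K := fun z => X (h z)) (H := fun z => Y (h z))
    · exact (hX.lift.diff.comp D.diff).analyticAt 0
    · exact (hY.lift.diff.comp D.diff).analyticAt 0
    · exact hX.lift.nz _ (D.nz _)
    · exact hY.lift.nz _ (D.nz _)
    · exact Eventually.of_forall fun z => hp _ (D.nz z)
  have hab : (a : ℝ) - b ≠ 0 := by
    intro h0
    apply hne
    have : (a : ℝ) = b := by linarith
    exact_mod_cast this
  have h2 := (h1.add (harmonicAt_const (l - k))).const_smul (c := ((a : ℝ) - b)⁻¹)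
  refine (harmonicAt_congr_nhds (Eventually.of_forall fun z => ?_)).2 h2
  simp only [Pi.add_apply, Pi.smul_apply, smul_eq_mul]
  rw [hk _ (D.nz z), hl _ (D.nz z)]
  field_simp
  ring

/-- every symmetry satisfies a relation with `F` -/
def FinStmt (G : C2 → ℝ) (F : C2 → C2) : Prop :=
  ∀ (b : ℕ → ℕ) (B : ℕ → C2 → C2), (∀ j, Sy G (b j) (B j)) →
    ∃ i j m, i ≠ j ∧ Par (B j) (B i ∘ F^[m])

theorem finStmt (hmontel : MontelStmt) (D : LinData G F w h lam)
    (hT : ∀ c ∈ Tr (fun z => G (h z)), c = 0) (htr : TrStmt (fun z => G (h z))) :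
    FinStmt G F := by
  intro b B hB
  obtain ⟨i, j, m, hij, h1⟩ := fin_core hmontel D hT htr b B (fun j => (hB j).one_le)
    (fun j => (hB j).lift) (fun j => (hB j).ginv)
  exact ⟨i, j, m, hij, fun v _ => h1 v⟩

theorem rel_self (D : LinData G F w h lam) (hfin : FinStmt G F) {b : ℕ} {B : C2 → C2}
    (hB : Sy G b B) (hb : 2 ≤ b) :
    ∃ p a m, 1 ≤ a ∧ 1 ≤ m ∧ b ^ a = w ^ m ∧ Par (B^[p + a]) (B^[p] ∘ F^[m]) := by
  obtain ⟨i, j, m, hij, hp⟩ := hfin (fun j => b ^ j) (fun j => B^[j]) (fun j => hB.iter j)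
  have hdeg : b ^ j = b ^ i * w ^ m :=
    deg_eq D (hB.iter j) ((hB.iter i).comp ((syF D).iter m)) hp
  have hw := D.hw
  have hlt : i < j := by
    by_contra hle
    have hlt : j < i := by omega
    have h1 : b ^ j < b ^ i := Nat.pow_lt_pow_right (by omega) hlt
    have h2 : 1 ≤ w ^ m := Nat.one_le_pow _ _ (by omega)
    have h3 : b ^ i * 1 ≤ b ^ i * w ^ m := Nat.mul_le_mul_left _ h2
    omega
  refine ⟨i, j - i, m, by omega, ?_, ?_, ?_⟩
  · by_contra hm
    have hm0 : m = 0 := by omega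
    rw [hm0, pow_zero, mul_one] at hdeg
    exact hij (Nat.pow_right_injective hb hdeg).symm
  · have h1 : b ^ j = b ^ i * b ^ (j - i) := by rw [← pow_add]; congr 1; omega
    rw [h1] at hdeg
    exact Nat.eq_of_mul_eq_mul_left (Nat.pow_pos (by omega)) hdeg
  · have h1 : i + (j - i) = j := by omega
    rw [h1]
    exact hp

theorem rel_iter (D : LinData G F w h lam) {b : ℕ} {B : C2 → C2} (hB : Sy G b B) {p a m : ℕ}
    (hp : Par (B^[p + a]) (B^[p] ∘ F^[m])) {q : ℕ} (hq : p ≤ q) (k : ℕ) :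
    Par (B^[q + a * k]) (B^[q] ∘ F^[m * k]) := by
  have hF := syF D
  have step : ∀ q, p ≤ q → Par (B^[q + a]) (B^[q] ∘ F^[m]) := by
    intro q hq
    have h1 := hp.left (hB.iter (q - p))
    have h2 : B^[q - p] ∘ B^[p + a] = B^[q + a] := by
      rw [← Function.iterate_add]; congr 1; omega
    have h3 : B^[q - p] ∘ (B^[p] ∘ F^[m]) = B^[q] ∘ F^[m] := by
      rw [← Function.comp_assoc, ← Function.iterate_add]; congr 2; omega
    rwa [h2, h3] at h1
  induction k with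
  | zero =>
    intro v hv
    simp [wd_self]
  | succ k ih =>
    have h1 : Par (B^[q + a * (k + 1)]) (B^[q + a * k] ∘ F^[m]) := by
      have := step (q + a * k) (by omega)
      have h2 : q + a * k + a = q + a * (k + 1) := by ring
      rwa [h2] at this
    have h2 : Par (B^[q + a * k] ∘ F^[m]) ((B^[q] ∘ F^[m * k]) ∘ F^[m]) := ih.right (hF.iter m)
    have h3 : (B^[q] ∘ F^[m * k]) ∘ F^[m] = B^[q] ∘ F^[m * (k + 1)] := by
      rw [Function.comp_assoc, ← Function.iterate_add]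
      congr 2
    rw [h3] at h2
    exact h1.trans h2 ((hB.iter _).comp (hF.iter m))

theorem relation_core (D : LinData G F w h lam) (hfin : FinStmt G F) {b1 b2 : ℕ}
    (hb1 : 2 ≤ b1) (hb2 : 2 ≤ b2) {B1 B2 : C2 → C2} (h1 : Sy G b1 B1) (h2 : Sy G b2 B2) :
    ∃ i j n : ℕ, 1 ≤ j ∧ 1 ≤ n ∧ Par (B1^[i + j]) (B1^[i] ∘ B2^[n]) := by
  have hF := syF D
  obtain ⟨p1, a1, m1, ha1, hm1, hd1, hr1⟩ := rel_self D hfin h1 hb1
  obtain ⟨p2, a2, m2, ha2, hm2, hd2, hr2⟩ := rel_self D hfin h2 hb2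
  have hw := D.hw
  -- Φ = F^[m1 m2], V = B2^[a2 m1], U = B1^[a1 m2]
  set M := m1 * m2 with hM
  -- relation Φ^{k+r} ∥ Φ^k V^r
  obtain ⟨i, j, m, hij, hp⟩ := hfin (fun k => w ^ (M * k) * b2 ^ p2) (fun k => F^[M * k] ∘ B2^[p2])
    (fun k => (hF.iter _).comp (h2.iter p2))
  have hdeg : w ^ (M * j) * b2 ^ p2 = w ^ (M * i) * b2 ^ p2 * w ^ m :=
    deg_eq D ((hF.iter _).comp (h2.iter p2)) (((hF.iter _).comp (h2.iter p2)).comp (hF.iter m)) hp
  have hdeg2 : w ^ (M * j) = w ^ (M * i + m) := by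
    have h3 : w ^ (M * j) * b2 ^ p2 = w ^ (M * i + m) * b2 ^ p2 := by
      rw [hdeg, pow_add]; ring
    exact Nat.eq_of_mul_eq_mul_right (Nat.pow_pos (by omega)) h3
  have hexp : M * j = M * i + m := Nat.pow_right_injective hw hdeg2
  have hMpos : 1 ≤ M := Nat.mul_pos hm1 hm2
  have hlt : i < j := by
    by_contra hle
    have hlt : j < i := by omega
    have : M * j < M * i := Nat.mul_lt_mul_of_pos_left hlt hMpos
    omega
  set r := j - i with hr
  have hmr : m = M * r := by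
    have : M * j = M * i + M * r := by rw [← mul_add]; congr 1; omega
    omega
  -- F^[M j] ∘ B2^[p2] ∥ F^[M i] ∘ B2^[p2] ∘ F^[M r]
  have hV : Par (B2^[p2 + a2 * (m1 * r)]) (B2^[p2] ∘ F^[M * r]) := by
    have := rel_iter D h2 hr2 (le_refl p2) (m1 * r)
    have h3 : m2 * (m1 * r) = M * r := by rw [hM]; ring
    rwa [h3] at this
  have hstep1 : Par (F^[M * j] ∘ B2^[p2]) (F^[M * i] ∘ B2^[p2 + a2 * (m1 * r)]) := by
    have h4 : Par (F^[M * i] ∘ (B2^[p2] ∘ F^[M * r])) (F^[M * i] ∘ B2^[p2 + a2 * (m1 * r)]) :=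
      (hV.symm).left (hF.iter _)
    rw [hmr] at hp
    have h5 : (F^[M * i] ∘ B2^[p2]) ∘ F^[M * r] = F^[M * i] ∘ (B2^[p2] ∘ F^[M * r]) :=
      Function.comp_assoc _ _ _
    have h6 : Par (F^[M * j] ∘ B2^[p2]) (F^[M * i] ∘ (B2^[p2] ∘ F^[M * r])) := by
      rw [← h5]; exact hp
    exact h6.trans h4 ((hF.iter _).comp ((h2.iter _).comp (hF.iter _)))
  have hstep2 : Par (F^[M * j]) (F^[M * i] ∘ B2^[a2 * (m1 * r)]) := by
    apply Par.cancel (h2.iter p2) (hF.iter _) ((hF.iter _).comp (h2.iter _))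
    have h3 : (F^[M * i] ∘ B2^[a2 * (m1 * r)]) ∘ B2^[p2] = F^[M * i] ∘ B2^[p2 + a2 * (m1 * r)] := by
      rw [Function.comp_assoc, ← Function.iterate_add]
      congr 2
      omega
    rw [h3]
    exact hstep1
  -- now left-multiply by B1^[p1]
  have hU : ∀ k, Par (B1^[p1 + a1 * (m2 * k)]) (B1^[p1] ∘ F^[M * k]) := by
    intro k
    have := rel_iter D h1 hr1 (le_refl p1) (m2 * k)
    have h3 : m1 * (m2 * k) = M * k := by rw [hM]; ring
    rwa [h3] at this
  refine ⟨p1 + a1 * (m2 * i), a1 * (m2 * r), a2 * (m1 * r), ?_, ?_, ?_⟩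
  · have : 1 ≤ r := by omega
    exact Nat.mul_pos ha1 (Nat.mul_pos hm2 this)
  · have : 1 ≤ r := by omega
    exact Nat.mul_pos ha2 (Nat.mul_pos hm1 this)
  · have e1 : p1 + a1 * (m2 * i) + a1 * (m2 * r) = p1 + a1 * (m2 * j) := by
      have : j = i + r := by omega
      rw [this]; ring
    rw [e1]
    have s1 := hU j
    have s2 : Par (B1^[p1] ∘ F^[M * j]) (B1^[p1] ∘ (F^[M * i] ∘ B2^[a2 * (m1 * r)])) :=
      hstep2.left (h1.iter p1)
    have s3 : Par ((B1^[p1] ∘ F^[M * i]) ∘ B2^[a2 * (m1 * r)])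
        (B1^[p1 + a1 * (m2 * i)] ∘ B2^[a2 * (m1 * r)]) := ((hU i).symm).right (h2.iter _)
    have s12 := s1.trans s2 ((h1.iter _).comp (hF.iter _))
    exact s12.trans s3 ((h1.iter _).comp ((hF.iter _).comp (h2.iter _)))

end

end Pool.Agent.Helper59.Fam
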