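import Mathlib
import Pool.Agent.Helper59.EPf
import Pool.Agent.Helper65.FLink
import Pool.Agent.Helper65.Koe
import Pool.Agent.Helper17.Dyn.Cls4

/-! Finite description of `E(P)`. -/

open Complex Metric Set Filter Topology MeasureTheory InnerProductSpace

namespace Pool.Agent.Helper59.EP

open Pool.Agent.Helper65

theorem exists_fin {P : RatFunc ℂ} (hP : 2 ≤ deg P) (hs : ¬ Special P) :
    ∃ (G : C2 → ℝ) (M : ℕ), IsGreen G ∧ (∀ v, v ≠ 0 → G (RLift P v) = deg P * G v) ∧ 1 ≤ M ∧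
      Helper59.Fam.FinStmt G ((RLift P)^[M]) := by
  have hP1 : 1 ≤ deg P := by omega
  have hf := isLift_RLift hP1
  obtain ⟨G, hG, hGf⟩ := exists_green hP hf
  set f := RLift P with hfdef
  set g := f^[6] with hg
  set D := deg P ^ 6 with hD
  have hD2 : 2 ≤ D := by
    calc 2 ≤ deg P := hP
      _ = deg P ^ 1 := (pow_one _).symm
      _ ≤ deg P ^ 6 := Nat.pow_le_pow_right (by omega) (by norm_num)
  have hgL : IsLift D g := isLift_iterate hf 6
  have hGg : ∀ v, v ≠ 0 → G (g v) = D * G v := by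
    intro v hv
    rw [hg, Pool.Agent.Helper56.Equi.green_iterate hf hGf 6 hv, hD]
    push_cast
    ring
  have hS : ∀ ξ η : C2, ξ ≠ 0 → η ≠ 0 → Only g ξ η → Only g ξ ξ := fun ξ η hξ hη h =>
    self_only hP hf hξ hη h
  obtain ⟨c0, hc0, hB⟩ := xiC_back hD2 hgL
  obtain ⟨c1, hc1, hSu⟩ := xiC_supp hD2 hgL hG hGg
  set κ := min c0 c1 with hκ
  have hκ0 : 0 < κ := lt_min hc0 hc1
  have hBI := hB κ hκ0 (min_le_left _ _)
  have hNTR := xiC_ntr hD2 hgL hS hκ0
  have hMix := Pool.Agent.Helper56.Equi.mixing_of_ntr hD2 hgL hG hGg hBI hNTR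
  obtain ⟨N, h, lam, hN, D'⟩ := exists_linData hD2 hgL hG hGg hMix (hSu κ hκ0 (min_le_right _ _))
  have hT : ∀ c ∈ Tr (fun z => G (h z)), c = 0 := by
    intro c hc
    by_contra hc0
    exact hs (Helper17.Dyn.special_of_tr D' hc hc0 hP ⟨0, fun v hv => by rw [hGf v hv, add_zero]⟩)
  have hmontel : Helper59.Fam.MontelStmt := fun f c R M hd hb => montel f hd hb
  have htr : Helper59.Fam.TrStmt (fun z => G (h z)) := by
    intro δ hδ hδ0 hδ' hδg β hβ hβ' s hs hβg ρ hρ σ hσ hσ1 hσ2 t ht hσg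
    exact Helper17.Dyn.exists_tr (Helper59.Fam.symG D') hδ hδ0 hδ' hδg hβ hβ' hs hβg hρ hσ hσ1
      hσ2 ht hσg
  have hfin := Helper59.Fam.finStmt hmontel D' hT htr
  refine ⟨G, 6 * N, hG, hGf, by omega, ?_⟩
  rw [Function.iterate_mul]
  exact hfin

/-- the rational functions of degree at least two sharing the measure of maximal entropy with `P` -/
def E (P : RatFunc ℂ) : Set (RatFunc ℂ) := {X | 2 ≤ deg X ∧ ∃ μ, IsMME P μ ∧ IsMME X μ}

lemma E_comp_iter {P X : RatFunc ℂ} (hP : 2 ≤ deg P) (hX : X ∈ E P) (k : ℕ) :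
    comp X (iter P k) ∈ E P := by
  have hP1 : 1 ≤ deg P := by omega
  obtain ⟨h2, μ, hμP, hμX⟩ := hX
  refine ⟨?_, μ, hμP, mme_comp (by omega) (deg_pos (nc_iter hP1 k)) hμX (mme_iter hP1 hμP k)⟩
  rw [deg_comp (nc_iter hP1 k)]
  exact h2.trans (Nat.le_mul_of_pos_right _ (deg_pos (nc_iter hP1 k)))

lemma iter_succ' {P : RatFunc ℂ} (hP : 1 ≤ deg P) (n : ℕ) :
    iter P (n + 1) = comp (iter P n) P := by
  have h1 := NCRat.coe_pow ⟨P, nc_of_deg hP⟩ (n + 1)
  rw [pow_succ, NCRat.coe_mul, NCRat.coe_pow] at h1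
  exact h1.symm

lemma comp_iter_succ {P Y : RatFunc ℂ} (hP : 1 ≤ deg P) (n : ℕ) :
    comp Y (iter P (n + 1)) = comp (comp Y (iter P n)) P := by
  rw [iter_succ' hP, comp_assoc _ (nc_iter hP n) (nc_of_deg hP)]

theorem finite_description {P : RatFunc ℂ} (hP : 2 ≤ deg P) (hs : ¬ Special P) :
    ∃ S : Finset (RatFunc ℂ), ∀ X, X ∈ E P ↔ ∃ Y ∈ S, ∃ k : ℕ, X = comp Y (iter P k) := by
  have hP1 : 1 ≤ deg P := by omega
  obtain ⟨G, M, hG, hGf, hM, hfin⟩ := exists_fin hP hs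
  set 𝓜 : Set (RatFunc ℂ) := {X | X ∈ E P ∧ ∀ Z ∈ E P, X ≠ comp Z P} with h𝓜
  have hsy : ∀ X ∈ E P, Helper59.Fam.Sy G (deg X) (RLift X) := by
    rintro X ⟨h2, μ, hμP, hμX⟩
    exact ⟨by omega, isLift_RLift (by omega), ginv_of_mme hP hG hGf hμP (by omega) hμX⟩
  have hfinM : 𝓜.Finite := by
    by_contra hinf
    have hinf' : 𝓜.Infinite := hinf
    set e := hinf'.natEmbedding with he
    have hX : ∀ j, (e j : RatFunc ℂ) ∈ 𝓜 := fun j => (e j).2
    obtain ⟨i, j, m, hij, hpar⟩ := hfin (fun j => deg (e j : RatFunc ℂ))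
      (fun j => RLift (e j : RatFunc ℂ)) (fun j => hsy _ (hX j).1)
    have hXi1 : 1 ≤ deg (e i : RatFunc ℂ) := by have := (hX i).1.1; omega
    have hXj1 : 1 ≤ deg (e j : RatFunc ℂ) := by have := (hX j).1.1; omega
    have hnc := nc_iter hP1 (M * m)
    have hcomp1 : 1 ≤ deg (comp (e i : RatFunc ℂ) (iter P (M * m))) := by
      rw [deg_comp hnc]
      exact Nat.mul_pos hXi1 (deg_pos hnc)
    have heq : (e j : RatFunc ℂ) = comp (e i : RatFunc ℂ) (iter P (M * m)) := by
      apply eq_of_RLift_par (U := univ) infinite_univ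
      intro z _
      have h1 := hpar (z, 1) (pt_ne_zero z)
      obtain ⟨c, hc, hcv⟩ := RLift_iter hP1 (M * m)
      obtain ⟨c', hc', hcv'⟩ := RLift_comp hXi1 (deg_pos hnc)
      simp only [Function.comp_apply] at h1
      rw [← Function.iterate_mul] at h1
      have h2 := hcv' (z, 1)
      rw [hcv, (isLift_RLift hXi1).hom] at h2
      have h3 : RLift (comp (e i : RatFunc ℂ) (iter P (M * m))) (z, 1) =
          (c'⁻¹ * c ^ deg (e i : RatFunc ℂ)) • RLift (e i : RatFunc ℂ) ((RLift P)^[M * m] (z, 1)) := by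
        rw [mul_smul, h2, smul_smul, inv_mul_cancel₀ hc', one_smul]
      rw [h3, wd_smul_right, h1, mul_zero]
    rcases Nat.eq_zero_or_pos (M * m) with h0 | h0
    · rw [h0] at heq
      have h1 : (e j : RatFunc ℂ) = (e i : RatFunc ℂ) := by
        rw [heq]
        exact comp_X _
      exact hij (e.injective (Subtype.ext h1)).symm
    · obtain ⟨k, hk⟩ := Nat.exists_eq_succ_of_ne_zero h0.ne'
      rw [hk, Nat.succ_eq_add_one, comp_iter_succ hP1] at heq
      exact (hX j).2 _ (E_comp_iter hP (hX i).1 k) heq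
  refine ⟨hfinM.toFinset, fun X => ⟨?_, ?_⟩⟩
  · intro hX
    have key : ∀ n : ℕ, ∀ X ∈ E P, deg X = n → ∃ Y ∈ hfinM.toFinset, ∃ k : ℕ,
        X = comp Y (iter P k) := by
      intro n
      induction n using Nat.strong_induction_on with
      | _ n ih =>
        intro X hX hn
        by_cases hXM : X ∈ 𝓜
        · refine ⟨X, by simpa using hXM, 0, ?_⟩
          show X = comp X RatFunc.X
          rw [comp_X]
        · have : ∃ Z ∈ E P, X = comp Z P := by
            by_contra hcon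
            push Not at hcon
            exact hXM ⟨hX, hcon⟩
          obtain ⟨Z, hZ, hXZ⟩ := this
          have hdeg : deg X = deg Z * deg P := by rw [hXZ, deg_comp (nc_of_deg hP1)]
          have hZ2 := hZ.1
          have hlt : deg Z < n := by
            rw [← hn, hdeg]
            calc deg Z < deg Z * 2 := by omega
              _ ≤ deg Z * deg P := Nat.mul_le_mul_left _ hP
          obtain ⟨Y, hY, k, hk⟩ := ih (deg Z) hlt Z hZ rfl
          exact ⟨Y, hY, k + 1, by rw [comp_iter_succ hP1, ← hk, hXZ]⟩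
    exact key _ X hX rfl
  · rintro ⟨Y, hY, k, rfl⟩
    have : Y ∈ 𝓜 := by simpa using hY
    exact E_comp_iter hP this.1 k

end Pool.Agent.Helper59.EP
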