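import Mathlib
import Pool.Agent.Helper59.EPe

/-! A measure is determined by the area means of its potential. -/

open Complex Metric Set Filter Topology MeasureTheory BoundedContinuousFunction
open scoped ENNReal

namespace Pool.Agent.Helper59.EP

/-- difference kernel -/
noncomputable def kd (ρ : ℝ) (w : ℂ) : ℝ := kk (2 * ρ) ‖w‖ - kk ρ ‖w‖

lemma kd_measurable (ρ : ℝ) : Measurable (kd ρ) := by
  unfold kd
  exact ((kk_measurable _).comp (by fun_prop)).sub ((kk_measurable _).comp (by fun_prop))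

lemma kd_nonneg {ρ : ℝ} (hρ : 0 < ρ) (w : ℂ) : 0 ≤ kd ρ w :=
  sub_nonneg.2 (kk_mono hρ (by linarith) (norm_nonneg _))

lemma kd_le {ρ : ℝ} (hρ : 0 < ρ) (w : ℂ) : kd ρ w ≤ Real.log 2 := by
  have := kk_sub_le hρ (show ρ ≤ 2 * ρ by linarith) (norm_nonneg w)
  have e : 2 * ρ / ρ = 2 := by field_simp
  rw [e] at this
  exact this

lemma kd_zero {ρ : ℝ} (hρ : 0 < ρ) {w : ℂ} (hw : 2 * ρ ≤ ‖w‖) : kd ρ w = 0 := by
  unfold kd
  rw [kk_of_le hw, kk_of_le (by linarith), sub_self]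

lemma kd_integrable {ρ : ℝ} (hρ : 0 < ρ) : Integrable (kd ρ) volume := by
  have h1 : Integrable ((ball (0 : ℂ) (2 * ρ)).indicator fun _ => Real.log 2) volume :=
    (integrable_indicator_iff measurableSet_ball).2 (integrableOn_const measure_ball_lt_top.ne)
  refine h1.mono' (kd_measurable ρ).aestronglyMeasurable (Eventually.of_forall fun w => ?_)
  rw [Real.norm_eq_abs, abs_of_nonneg (kd_nonneg hρ w)]
  by_cases hw : w ∈ ball (0 : ℂ) (2 * ρ)
  · rw [indicator_of_mem hw]; exact kd_le hρ w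
  · rw [indicator_of_notMem hw]
    rw [mem_ball, dist_zero_right, not_lt] at hw
    exact (kd_zero hρ hw).le

lemma kd_pos {ρ : ℝ} (hρ : 0 < ρ) : 0 < ∫ w, kd ρ w := by
  have h1 : Integrable ((ball (0 : ℂ) ρ).indicator fun _ => (1 / 10 : ℝ)) volume :=
    (integrable_indicator_iff measurableSet_ball).2 (integrableOn_const measure_ball_lt_top.ne)
  have h2 : ∫ w, (ball (0 : ℂ) ρ).indicator (fun _ => (1 / 10 : ℝ)) w ≤ ∫ w, kd ρ w := by
    apply integral_mono h1 (kd_integrable hρ)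
    intro w
    by_cases hw : w ∈ ball (0 : ℂ) ρ
    · simp only [indicator_of_mem hw]
      rw [mem_ball, dist_zero_right] at hw
      unfold kd
      rw [kk_of_lt hw, kk_of_lt (by linarith), Real.log_mul (by norm_num) hρ.ne']
      have h3 := Real.log_two_gt_d9
      have h4 : ‖w‖ ^ 2 / (2 * ρ ^ 2) - ‖w‖ ^ 2 / (2 * (2 * ρ) ^ 2) ≤ 3 / 8 := by
        have h5 : ‖w‖ ^ 2 / (2 * ρ ^ 2) - ‖w‖ ^ 2 / (2 * (2 * ρ) ^ 2) = (3 / 8) * (‖w‖ / ρ) ^ 2 := by
          field_simp
          ring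
        have h6 : (‖w‖ / ρ) ^ 2 ≤ 1 := by
          apply pow_le_one₀ (by positivity)
          rw [div_le_one hρ]
          exact hw.le
        rw [h5]
        linarith
      linarith
    · simp only [indicator_of_notMem hw]
      exact kd_nonneg hρ w
  refine lt_of_lt_of_le ?_ h2
  rw [integral_indicator measurableSet_ball, setIntegral_const, smul_eq_mul, vol_ball 0 hρ.le]
  positivity

/-- smoothing -/
noncomputable def sm (φ : ℂ → ℝ) (ρ : ℝ) (s : ℂ) : ℝ := (∫ w, kd ρ w)⁻¹ * ∫ c, φ c * kd ρ (c - s)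

lemma sm_eq (φ : ℂ → ℝ) (ρ : ℝ) (s : ℂ) :
    sm φ ρ s = (∫ w, kd ρ w)⁻¹ * ∫ w, φ (w + s) * kd ρ w := by
  unfold sm
  rw [← integral_add_right_eq_self (fun c => φ c * kd ρ (c - s)) s]
  simp only [add_sub_cancel_right]

lemma sm_close {φ : ℂ → ℝ} (hφ : Continuous φ) {B : ℝ} (hB : ∀ z, |φ z| ≤ B) {ρ : ℝ} (hρ : 0 < ρ)
    {s : ℂ} {ε : ℝ} (h : ∀ w : ℂ, ‖w‖ < 2 * ρ → |φ (w + s) - φ s| ≤ ε) : |sm φ ρ s - φ s| ≤ ε := by
  have hM := kd_pos hρ
  set M := ∫ w, kd ρ w with hMdef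
  have hi1 : Integrable (fun w => φ (w + s) * kd ρ w) volume := by
    refine ((kd_integrable hρ).const_mul B).mono' ?_ (Eventually.of_forall fun w => ?_)
    · exact ((hφ.comp (continuous_add_const s)).measurable.mul (kd_measurable ρ)).aestronglyMeasurable
    · rw [Real.norm_eq_abs, abs_mul, abs_of_nonneg (kd_nonneg hρ w)]
      exact mul_le_mul_of_nonneg_right (hB _) (kd_nonneg hρ w)
  have hi2 : Integrable (fun w => φ s * kd ρ w) volume := (kd_integrable hρ).const_mul _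
  have h1 : sm φ ρ s - φ s = M⁻¹ * ∫ w, (φ (w + s) * kd ρ w - φ s * kd ρ w) := by
    rw [sm_eq, integral_sub hi1 hi2, integral_const_mul, ← hMdef]
    field_simp
  rw [h1, abs_mul, abs_of_pos (inv_pos.2 hM), inv_mul_le_iff₀ hM]
  refine (abs_integral_le_integral_abs (f := fun w => φ (w + s) * kd ρ w - φ s * kd ρ w)).trans ?_
  rw [mul_comm, hMdef, ← integral_const_mul]
  apply integral_mono (hi1.sub hi2).abs ((kd_integrable hρ).const_mul _)
  intro w
  show |φ (w + s) * kd ρ w - φ s * kd ρ w| ≤ ε * kd ρ w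
  rw [← sub_mul, abs_mul, abs_of_nonneg (kd_nonneg hρ w)]
  rcases lt_or_ge ‖w‖ (2 * ρ) with hw | hw
  · exact mul_le_mul_of_nonneg_right (h w hw) (kd_nonneg hρ w)
  · rw [kd_zero hρ hw, mul_zero, mul_zero]

lemma sm_bound {φ : ℂ → ℝ} (hφ : Continuous φ) {B : ℝ} (hB : ∀ z, |φ z| ≤ B) {ρ : ℝ} (hρ : 0 < ρ)
    (s : ℂ) : |sm φ ρ s| ≤ 3 * B := by
  have h1 := sm_close hφ hB hρ (s := s) (ε := 2 * B) (fun w _ => by
    have := abs_sub (φ (w + s)) (φ s)
    have := hB (w + s)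
    have := hB s
    linarith)
  have h2 := hB s
  have h3 : sm φ ρ s = (sm φ ρ s - φ s) + φ s := by ring
  rw [h3]
  have := abs_add_le (sm φ ρ s - φ s) (φ s)
  linarith

lemma sm_integral {φ : ℂ → ℝ} (hφ : Continuous φ) {B : ℝ} (hB : ∀ z, |φ z| ≤ B) {ρ : ℝ}
    (hρ : 0 < ρ) {μ : Measure ℂ} [IsProbabilityMeasure μ] :
    AEStronglyMeasurable (sm φ ρ) μ ∧
    ∫ s, sm φ ρ s ∂μ = (∫ w, kd ρ w)⁻¹ * ∫ c, φ c * ∫ s, psi c (2 * ρ) ρ s ∂μ := by
  have hpsi : ∀ c s, psi c (2 * ρ) ρ s = kd ρ (c - s) := fun c s => rfl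
  have hmk : Measurable fun p : ℂ × ℂ => kd ρ (p.2 - p.1) :=
    (kd_measurable ρ).comp (measurable_snd.sub measurable_fst)
  have hI0 : ∀ s, Integrable (fun c => kd ρ (c - s)) volume := fun s =>
    (kd_integrable hρ).comp_sub_right s
  have hk : Integrable (fun p : ℂ × ℂ => kd ρ (p.2 - p.1)) (μ.prod volume) := by
    rw [integrable_prod_iff hmk.aestronglyMeasurable]
    refine ⟨Eventually.of_forall fun s => hI0 s, ?_⟩
    have : (fun s : ℂ => ∫ c, ‖kd ρ (c - s)‖) = fun _ => ∫ c, ‖kd ρ c‖ := by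
      funext s
      exact integral_sub_right_eq_self (fun c => ‖kd ρ c‖) s
    simp only [this]
    exact integrable_const _
  have hF : Integrable (fun p : ℂ × ℂ => φ p.2 * kd ρ (p.2 - p.1)) (μ.prod volume) := by
    refine (hk.norm.const_mul B).mono' ?_ (Eventually.of_forall fun p => ?_)
    · exact ((hφ.measurable.comp measurable_snd).mul hmk).aestronglyMeasurable
    · rw [norm_mul]
      exact mul_le_mul_of_nonneg_right (hB _) (norm_nonneg _)
  refine ⟨?_, ?_⟩
  · have h1 := hF.integral_prod_left.aestronglyMeasurable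
    exact h1.const_mul _
  · unfold sm
    rw [integral_const_mul]
    congr 1
    have h2 := integral_integral_swap (μ := μ) (ν := (volume : Measure ℂ))
      (f := fun s c => φ c * kd ρ (c - s)) hF
    rw [h2]
    apply integral_congr_ae
    apply Eventually.of_forall
    intro c
    simp only
    rw [integral_const_mul]
    rfl

/-- uniqueness -/
theorem unique_of_star {μ ν : Measure ℂ} [IsProbabilityMeasure μ] [IsProbabilityMeasure ν]
    (h : ∀ (c : ℂ) (R r : ℝ), 0 < r → r ≤ R → ∫ s, psi c R r s ∂μ = ∫ s, psi c R r s ∂ν) :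
    μ = ν := by
  apply ext_of_forall_integral_eq_of_IsFiniteMeasure
  intro φ
  have hφ : Continuous φ := φ.continuous
  have hB : ∀ z, |φ z| ≤ ‖φ‖ := fun z => φ.norm_coe_le_norm z
  set ρ : ℕ → ℝ := fun n => 1 / ((n : ℝ) + 1) with hρ
  have hρ0 : ∀ n, 0 < ρ n := fun n => by rw [hρ]; positivity
  have hρl : Tendsto ρ atTop (𝓝 0) := tendsto_one_div_add_atTop_nhds_zero_nat
  have hpt : ∀ s, Tendsto (fun n => sm φ (ρ n) s) atTop (𝓝 (φ s)) := by
    intro s
    rw [Metric.tendsto_atTop]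
    intro ε hε
    obtain ⟨δ, hδ, hδ'⟩ := Metric.continuousAt_iff.1 (hφ.continuousAt (x := s)) (ε / 2) (by positivity)
    have h2 : Tendsto (fun n => 2 * ρ n) atTop (𝓝 0) := by simpa using hρl.const_mul 2
    obtain ⟨N, hN⟩ := (h2.eventually (gt_mem_nhds hδ)).exists_forall_of_atTop
    refine ⟨N, fun n hn => ?_⟩
    rw [Real.dist_eq]
    refine lt_of_le_of_lt (sm_close hφ hB (hρ0 n) (ε := ε / 2) ?_) (by linarith)
    intro w hw
    have h3 : dist (w + s) s < δ := by
      rw [dist_eq_norm, add_sub_cancel_right]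
      exact hw.trans (hN n hn)
    have h4 := hδ' h3
    rw [Real.dist_eq] at h4
    exact h4.le
  have hlim : ∀ (m : Measure ℂ) [IsProbabilityMeasure m],
      Tendsto (fun n => ∫ s, sm φ (ρ n) s ∂m) atTop (𝓝 (∫ s, φ s ∂m)) := by
    intro m _
    apply tendsto_integral_of_dominated_convergence (fun _ => 3 * ‖φ‖)
    · intro n
      exact (sm_integral hφ hB (hρ0 n)).1
    · exact integrable_const _
    · intro n
      exact Eventually.of_forall fun s => by
        rw [Real.norm_eq_abs]; exact sm_bound hφ hB (hρ0 n) s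
    · exact Eventually.of_forall hpt
  refine tendsto_nhds_unique (hlim μ) ((hlim ν).congr fun n => ?_)
  rw [(sm_integral hφ hB (hρ0 n)).2, (sm_integral hφ hB (hρ0 n)).2]
  congr 1
  apply integral_congr_ae
  apply Eventually.of_forall
  intro c
  simp only
  have h5 := hρ0 n
  rw [h c (2 * ρ n) (ρ n) (hρ0 n) (by linarith)]

end Pool.Agent.Helper59.EP
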