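import Mathlib
import Pool.Agent.Helper59.EPf

/-! Generic base points and the averages over iterated preimages. -/

open Complex Metric Set Filter Topology MeasureTheory Polynomial
open scoped ENNReal

namespace Pool.Agent.Helper59.EP

open Pool.Agent.Helper65

lemma fp_deg {Q : RatFunc ℂ} {a : ℂ} (ha : a ∉ BadV Q) : (fp Q a).natDegree = deg Q := by
  apply le_antisymm (fp_natDegree_le Q a)
  by_contra h
  push Not at h
  exact ha (Or.inr h)

lemma card_fib {Q : RatFunc ℂ} (hQ : 1 ≤ deg Q) {a : ℂ} (ha : a ∉ BadV Q) :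
    (fp Q a).roots.toFinset.card = deg Q := by
  rw [Multiset.toFinset_card_of_nodup (fp_nodup hQ ha), ← fp_deg ha]
  exact (IsAlgClosed.splits (fp Q a)).natDegree_eq_card_roots.symm

lemma mem_fib {Q : RatFunc ℂ} (hQ : 1 ≤ deg Q) {a : ℂ} (ha : a ∉ BadV Q) {z : ℂ} :
    z ∈ (fp Q a).roots.toFinset ↔ z ∈ GU Q ∧ ev Q z = a := by
  rw [Multiset.mem_toFinset, mem_roots_iff hQ ha]

lemma rsum_comp {M : Type} [AddCommMonoid M] {A B : RatFunc ℂ} (hA : 1 ≤ deg A) (hB : 1 ≤ deg B)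
    {a : ℂ} (h1 : a ∉ BadV A) (h2 : a ∉ BadV (comp A B))
    (h3 : ∀ b, b ∈ (fp A a).roots.toFinset → b ∉ BadV B) (ψ : ℂ → M) :
    rsum (comp A B) ψ a = rsum A (rsum B ψ) a := by
  classical
  have hdeg : deg (comp A B) = deg A * deg B := deg_comp (nc_of_deg hB)
  have hC : 1 ≤ deg (comp A B) := by rw [hdeg]; exact Nat.mul_pos hA hB
  rw [rsum_eq hC h2, rsum_eq hA h1]
  have e1 : ∑ b ∈ (fp A a).roots.toFinset, rsum B ψ b =
      ∑ b ∈ (fp A a).roots.toFinset, ∑ z ∈ (fp B b).roots.toFinset, ψ z :=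
    Finset.sum_congr rfl fun b hb => rsum_eq hB (h3 b hb) ψ
  have hdisj : ((fp A a).roots.toFinset : Set ℂ).PairwiseDisjoint
      fun b => (fp B b).roots.toFinset := by
    intro b hb b' hb' hne
    rw [Function.onFun, Finset.disjoint_left]
    intro z hz hz'
    apply hne
    rw [← ((mem_fib hB (h3 b hb)).1 hz).2, ← ((mem_fib hB (h3 b' hb')).1 hz').2]
  have hset : (fp A a).roots.toFinset.biUnion (fun b => (fp B b).roots.toFinset) =
      (fp (comp A B) a).roots.toFinset := by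
    apply Finset.eq_of_subset_of_card_le
    · intro z hz
      rw [Finset.mem_biUnion] at hz
      obtain ⟨b, hb, hz⟩ := hz
      obtain ⟨hz1, hz2⟩ := (mem_fib hB (h3 b hb)).1 hz
      obtain ⟨hb1, hb2⟩ := (mem_fib hA h1).1 hb
      rw [Multiset.mem_toFinset, mem_roots (fp_ne hC h2)]
      have hrA : reg A (ev B z) := by rw [hz2]; exact gu_reg hb1
      have hr := reg_comp (A := A) (nc_of_deg hB) (gu_reg hz1) hrA
      apply (fp_eval_ev hr).2
      rw [ev_comp (nc_of_deg hB) (gu_reg hz1) hrA, hz2, hb2]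
    · rw [card_fib hC h2, hdeg, Finset.card_biUnion (fun b hb b' hb' hne => hdisj hb hb' hne),
        Finset.sum_congr rfl fun b hb => card_fib hB (h3 b hb), Finset.sum_const, card_fib hA h1,
        smul_eq_mul]
  rw [e1, ← hset, Finset.sum_biUnion hdisj]

lemma iter_add {P : RatFunc ℂ} (hP : 1 ≤ deg P) (m n : ℕ) :
    iter P (m + n) = comp (iter P m) (iter P n) := by
  have h1 := NCRat.coe_pow ⟨P, nc_of_deg hP⟩ (m + n)
  rw [pow_add, NCRat.coe_mul, NCRat.coe_pow, NCRat.coe_pow] at h1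
  exact h1.symm

lemma iter_one (P : RatFunc ℂ) : iter P 1 = P := by
  show comp P RatFunc.X = P
  exact comp_X P

/-- bad points -/
def Bad (P : RatFunc ℂ) : Set ℂ :=
  {a | Only ((RLift P)^[6]) (a, 1) (a, 1)} ∪ ⋃ m, BadV (iter P m)

lemma bad_countable {P : RatFunc ℂ} (hP : 2 ≤ deg P) : (Bad P).Countable := by
  have hP1 : 1 ≤ deg P := by omega
  have hD2 : 2 ≤ deg P ^ 6 := by
    calc 2 ≤ deg P := hP
      _ = deg P ^ 1 := (pow_one _).symm
      _ ≤ deg P ^ 6 := Nat.pow_le_pow_right (by omega) (by norm_num)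
  refine (exc_finite hD2 (isLift_iterate (isLift_RLift hP1) 6)).countable.union ?_
  exact countable_iUnion fun m => (badV_finite (deg_pos (nc_iter hP1 m))).countable

/-- a generic point -/
structure Gen (P : RatFunc ℂ) (a : ℂ) : Prop where
  good : a ∉ Bad P
  pre : ∀ n, ∀ b ∈ (fp (iter P n) a).roots.toFinset, b ∉ Bad P

lemma Gen.notBad {P : RatFunc ℂ} {a : ℂ} (h : Gen P a) (n : ℕ) : a ∉ BadV (iter P n) := fun hb =>
  h.good (Or.inr (mem_iUnion.2 ⟨n, hb⟩))

lemma exists_gen {P : RatFunc ℂ} (hP : 2 ≤ deg P) : ∃ a, Gen P a := by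
  have hP1 : 1 ≤ deg P := by omega
  have hc : (Bad P ∪ ⋃ n, ev (iter P n) '' Bad P).Countable :=
    (bad_countable hP).union (countable_iUnion fun n => (bad_countable hP).image _)
  obtain ⟨a, ha⟩ := (hc.dense_compl ℂ).nonempty
  have h1 : a ∉ Bad P := fun h => ha (Or.inl h)
  refine ⟨a, h1, fun n b hb hbB => ?_⟩
  apply ha
  right
  have h2 : a ∉ BadV (iter P n) := fun hb => h1 (Or.inr (mem_iUnion.2 ⟨n, hb⟩))
  exact mem_iUnion.2 ⟨n, b, hbB, ((mem_fib (deg_pos (nc_iter hP1 n)) h2).1 hb).2⟩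

/-- averages over iterated preimages -/
noncomputable def T (P : RatFunc ℂ) (a : ℂ) (n : ℕ) (ψ : ℂ → ℝ) : ℝ :=
  (1 / (deg P : ℝ) ^ n) * rsum (iter P n) ψ a

lemma T_succ {P : RatFunc ℂ} (hP : 2 ≤ deg P) {a : ℂ} (h : Gen P a) (n : ℕ) (ψ : ℂ → ℝ) :
    T P a (n + 1) ψ = (1 / (deg P : ℝ)) * T P a n (rsum P ψ) := by
  have hP1 : 1 ≤ deg P := by omega
  unfold T
  have h1 := h.notBad (n + 1)
  rw [iter_add hP1 n 1, iter_one] at h1
  rw [iter_add hP1 n 1, iter_one, rsum_comp (deg_pos (nc_iter hP1 n)) hP1 (h.notBad n) h1]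
  · rw [pow_succ]
    have : (deg P : ℝ) ≠ 0 := by
      have : deg P ≠ 0 := by omega
      exact_mod_cast this
    field_simp
  · intro b hb hbB
    apply h.pre n b hb
    right
    rw [← iter_one P] at hbB
    exact mem_iUnion.2 ⟨1, hbB⟩

variable {P : RatFunc ℂ} {G : C2 → ℝ}

lemma T_tendsto_aux (hP : 2 ≤ deg P) (hG : IsGreen G)
    (hGf : ∀ v, v ≠ 0 → G (RLift P v) = deg P * G v) (c : ℂ) {R r : ℝ} (hr : 0 < r) (hrR : r ≤ R)
    {a : ℂ} (h : Gen P a) (j : ℕ) :
    Tendsto (fun m : ℕ => T P a (j + 6 * m) (psi c R r)) atTop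
      (𝓝 (AA c R (gu G) - AA c r (gu G))) := by
  have hP1 : 1 ≤ deg P := by omega
  set L := AA c R (gu G) - AA c r (gu G) with hL
  have hd0 : (deg P : ℝ) ≠ 0 := by
    have : deg P ≠ 0 := by omega
    exact_mod_cast this
  have hnj := h.notBad j
  have hcj := deg_pos (nc_iter hP1 j)
  have heq : ∀ m, T P a (j + 6 * m) (psi c R r) = (1 / (deg P : ℝ) ^ j) *
      ∑ b ∈ (fp (iter P j) a).roots.toFinset,
        (1 / ((deg P : ℝ) ^ 6) ^ m) * rsum (iter P (6 * m)) (psi c R r) b := by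
    intro m
    unfold T
    have h1 := h.notBad (j + 6 * m)
    rw [iter_add hP1 j (6 * m)] at h1
    rw [iter_add hP1 j (6 * m), rsum_comp hcj (deg_pos (nc_iter hP1 _)) hnj h1]
    · rw [rsum_eq hcj hnj, ← Finset.mul_sum, pow_add, pow_mul]
      field_simp
    · intro b hb hbB
      exact h.pre j b hb (Or.inr (mem_iUnion.2 ⟨_, hbB⟩))
  have hlim : Tendsto (fun m : ℕ => (1 / (deg P : ℝ) ^ j) *
      ∑ b ∈ (fp (iter P j) a).roots.toFinset,
        (1 / ((deg P : ℝ) ^ 6) ^ m) * rsum (iter P (6 * m)) (psi c R r) b) atTop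
      (𝓝 ((1 / (deg P : ℝ) ^ j) * ∑ b ∈ (fp (iter P j) a).roots.toFinset, L)) := by
    apply Tendsto.const_mul
    apply tendsto_finsetSum
    intro b hb
    apply pointwise hP hG hGf c hr hrR
    intro hO
    exact h.pre j b hb (Or.inl hO)
  have hval : (1 / (deg P : ℝ) ^ j) * ∑ b ∈ (fp (iter P j) a).roots.toFinset, L = L := by
    rw [Finset.sum_const, card_fib hcj hnj, deg_iter hP1, nsmul_eq_mul]
    push_cast
    field_simp
  rw [hval] at hlim
  exact hlim.congr fun m => (heq m).symm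

lemma tendsto_of_residues {x : ℕ → ℝ} {L : ℝ}
    (h : ∀ j, Tendsto (fun m => x (j + 6 * m)) atTop (𝓝 L)) : Tendsto x atTop (𝓝 L) := by
  rw [Metric.tendsto_atTop]
  intro ε hε
  have h1 : ∀ j, ∃ N, ∀ m ≥ N, dist (x (j + 6 * m)) L < ε := fun j =>
    Metric.tendsto_atTop.1 (h j) ε hε
  choose N hN using h1
  refine ⟨6 * (∑ j ∈ Finset.range 6, N j) + 6, fun n hn => ?_⟩
  have h2 : n % 6 + 6 * (n / 6) = n := Nat.mod_add_div n 6
  have h3 : N (n % 6) ≤ n / 6 := by
    have h4 : N (n % 6) ≤ ∑ j ∈ Finset.range 6, N j :=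
      Finset.single_le_sum (f := N) (fun _ _ => Nat.zero_le _)
        (Finset.mem_range.2 (Nat.mod_lt _ (by norm_num)))
    omega
  have h5 := hN (n % 6) (n / 6) h3
  rwa [h2] at h5

lemma T_tendsto (hP : 2 ≤ deg P) (hG : IsGreen G)
    (hGf : ∀ v, v ≠ 0 → G (RLift P v) = deg P * G v) (c : ℂ) {R r : ℝ} (hr : 0 < r) (hrR : r ≤ R)
    {a : ℂ} (h : Gen P a) :
    Tendsto (fun n : ℕ => T P a n (psi c R r)) atTop (𝓝 (AA c R (gu G) - AA c r (gu G))) :=
  tendsto_of_residues fun j => T_tendsto_aux hP hG hGf c hr hrR h j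

/-- the normalised counting measure on the `n`-th preimages of `a` -/
noncomputable def sig (P : RatFunc ℂ) (a : ℂ) (n : ℕ) : Measure ℂ :=
  ENNReal.ofReal (1 / (deg P : ℝ) ^ n) • ∑ z ∈ (fp (iter P n) a).roots.toFinset, Measure.dirac z

lemma sig_int (hP : 2 ≤ deg P) {a : ℂ} (h : Gen P a) (n : ℕ) (ψ : ℂ → ℝ) :
    ∫ z, ψ z ∂(sig P a n) = T P a n ψ := by
  have hP1 : 1 ≤ deg P := by omega
  unfold sig T
  rw [integral_smul_measure, integral_finsetSum_measure]
  · rw [rsum_eq (deg_pos (nc_iter hP1 n)) (h.notBad n), ENNReal.toReal_ofReal (by positivity),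
      smul_eq_mul]
    congr 1
    apply Finset.sum_congr rfl
    intro z _
    exact integral_dirac _ _
  · intro z _
    exact integrable_dirac (by simp)

lemma sig_prob (hP : 2 ≤ deg P) {a : ℂ} (h : Gen P a) (n : ℕ) :
    IsProbabilityMeasure (sig P a n) := by
  have hP1 : 1 ≤ deg P := by omega
  constructor
  unfold sig
  rw [Measure.smul_apply, Measure.finsetSum_apply]
  simp only [measure_univ, Finset.sum_const, nsmul_eq_mul, mul_one, smul_eq_mul]
  rw [card_fib (deg_pos (nc_iter hP1 n)) (h.notBad n), deg_iter hP1]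
  have hd0 : (0 : ℝ) < (deg P : ℝ) ^ n := by
    have : 0 < deg P := by omega
    positivity
  have h1 : ((deg P ^ n : ℕ) : ℝ≥0∞) = ENNReal.ofReal ((deg P : ℝ) ^ n) := by
    rw [← ENNReal.ofReal_natCast]
    push_cast
    rfl
  rw [h1, ← ENNReal.ofReal_mul (by positivity)]
  have : 1 / (deg P : ℝ) ^ n * (deg P : ℝ) ^ n = 1 := by field_simp
  rw [this, ENNReal.ofReal_one]

end Pool.Agent.Helper59.EP
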