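import Mathlib
import Pool.Agent.Helper59.EPh
import Pool.Agent.Helper59.EPi

/-! Weak convergence of the averages over iterated preimages. -/

open Complex Metric Set Filter Topology MeasureTheory Polynomial BoundedContinuousFunction
open scoped ENNReal

namespace Pool.Agent.Helper59.EP

open Pool.Agent.Helper65

lemma kk_cont {R : ℝ} (hR : 0 < R) (c : ℂ) : Continuous fun s : ℂ => kk R ‖c - s‖ := by
  have : LipschitzWith (Real.toNNReal (1 / R)) fun s : ℂ => kk R ‖c - s‖ := by
    apply LipschitzWith.of_dist_le_mul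
    intro s s'
    rw [Real.dist_eq, dist_eq_norm, Real.coe_toNNReal _ (by positivity)]
    refine (kk_lip hR (norm_nonneg _) (norm_nonneg _)).trans ?_
    have h1 : |‖c - s‖ - ‖c - s'‖| ≤ ‖(c - s) - (c - s')‖ := abs_norm_sub_norm_le _ _
    have e : (c - s) - (c - s') = -(s - s') := by ring
    rw [e, norm_neg] at h1
    rw [one_div, inv_mul_eq_div]
    gcongr
  exact this.continuous

lemma psi_cont (c : ℂ) {R r : ℝ} (hR : 0 < R) (hr : 0 < r) : Continuous (psi c R r) :=
  (kk_cont hR c).sub (kk_cont hr c)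

/-- the test function as a bounded continuous function -/
noncomputable def psiB (c : ℂ) {R r : ℝ} (hr : 0 < r) (hrR : r ≤ R) : ℂ →ᵇ ℝ :=
  BoundedContinuousFunction.ofNormedAddCommGroup (psi c R r) (psi_cont c (by linarith) hr)
    (Real.log (R / r)) (fun s => by rw [Real.norm_eq_abs]; exact psi_abs hr hrR s)

lemma psiB_apply (c : ℂ) {R r : ℝ} (hr : 0 < r) (hrR : r ≤ R) (s : ℂ) :
    psiB c hr hrR s = psi c R r s := rfl

variable {P : RatFunc ℂ} {G : C2 → ℝ}

lemma psi_far {r : ℝ} (hr : 1 < r) {s : ℂ} (hs : r < ‖s‖) : psi 0 r 1 s = 0 := by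
  unfold psi
  rw [zero_sub, norm_neg, kk_of_le hs.le, kk_of_le (by linarith), sub_self]

lemma sig_tail (hP : 2 ≤ deg P) {a : ℂ} (h : Gen P a) (n : ℕ) {r : ℝ} (hr : 1 < r) :
    sig P a n {x | r < ‖x‖} ≤ ENNReal.ofReal (1 - T P a n (psi 0 r 1) / Real.log r) := by
  have := sig_prob hP h n
  have hlog : 0 < Real.log r := Real.log_pos hr
  have hr1 : (1 : ℝ) ≤ r := hr.le
  have hm : MeasurableSet {x : ℂ | r < ‖x‖} := (isOpen_lt continuous_const continuous_norm).measurableSet
  have hpi : Integrable (psi 0 r 1) (sig P a n) :=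
    (integrable_const (Real.log (r / 1))).mono' (psi_measurable 0 r 1).aestronglyMeasurable
      (Eventually.of_forall fun s => by rw [Real.norm_eq_abs]; exact psi_abs one_pos hr1 s)
  have h1 : ∫ x, {x : ℂ | r < ‖x‖}.indicator (fun _ => (1 : ℝ)) x ∂(sig P a n) ≤
      ∫ x, (1 - psi 0 r 1 x / Real.log r) ∂(sig P a n) := by
    apply integral_mono
    · exact (integrable_const (1 : ℝ)).indicator hm
    · exact (integrable_const (1 : ℝ)).sub (hpi.div_const _)
    · intro x
      simp only
      by_cases hx : r < ‖x‖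
      · rw [indicator_of_mem (show x ∈ {x : ℂ | r < ‖x‖} from hx), psi_far hr hx]
        simp
      · rw [indicator_of_notMem (show x ∉ {x : ℂ | r < ‖x‖} from hx), sub_nonneg, div_le_one hlog]
        have := psi_le (c := 0) one_pos hr1 x
        rwa [div_one] at this
  rw [integral_indicator hm, setIntegral_const, smul_eq_mul, mul_one,
    integral_sub (integrable_const _) (hpi.div_const _), integral_const, probReal_univ, one_smul,
    integral_div, sig_int hP h] at h1
  rw [← ENNReal.ofReal_toReal (measure_ne_top (sig P a n) {x | r < ‖x‖})]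
  exact ENNReal.ofReal_le_ofReal h1

lemma ratio_tendsto (hG : IsGreen G) :
    Tendsto (fun r : ℝ => 1 - (AA 0 r (gu G) - AA 0 1 (gu G)) / Real.log r) atTop (𝓝 0) := by
  have hw : ∀ c R, IntegrableOn (fun z => gu G z - Real.log ‖z - 0‖) (ball c R) := fun c R =>
    (cont_int (Pool.Agent.Helper56.Equi.gu_continuous hG) c R).sub (log_integrable 0 c R)
  have h1 := AA_tendsto_real hw (gu_infty hG) 0
  have h2 : Tendsto (fun r : ℝ => -(AA 0 r (fun z => gu G z - Real.log ‖z - 0‖) - 1 / 2 -
      AA 0 1 (gu G)) / Real.log r) atTop (𝓝 0) :=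
    Tendsto.div_atTop ((h1.sub_const _).sub_const _).neg Real.tendsto_log_atTop
  refine h2.congr' ?_
  filter_upwards [eventually_gt_atTop 1] with r hr
  have hlog : 0 < Real.log r := Real.log_pos hr
  have hr0 : 0 < r := by linarith
  rw [AA_gu hG 0 hr0, norm_zero, kk_of_lt hr0]
  field_simp
  ring

lemma sig_tight (hP : 2 ≤ deg P) (hG : IsGreen G)
    (hGf : ∀ v, v ≠ 0 → G (RLift P v) = deg P * G v) {a : ℂ} (h : Gen P a) :
    IsTightMeasureSet (range (sig P a)) := by
  have := fun n => sig_prob hP h n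
  apply isTightMeasureSet_range_of_tendsto_limsup_measure_norm_gt
  have h1 : Tendsto (fun r : ℝ => ENNReal.ofReal
      (1 - (AA 0 r (gu G) - AA 0 1 (gu G)) / Real.log r)) atTop (𝓝 0) := by
    have := ENNReal.tendsto_ofReal (ratio_tendsto hG)
    rwa [ENNReal.ofReal_zero] at this
  refine tendsto_of_tendsto_of_tendsto_of_le_of_le' tendsto_const_nhds h1
    (Eventually.of_forall fun _ => zero_le) ?_
  filter_upwards [eventually_gt_atTop 1] with r hr
  have h2 : Tendsto (fun n => ENNReal.ofReal (1 - T P a n (psi 0 r 1) / Real.log r)) atTop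
      (𝓝 (ENNReal.ofReal (1 - (AA 0 r (gu G) - AA 0 1 (gu G)) / Real.log r))) :=
    ENNReal.tendsto_ofReal (((T_tendsto hP hG hGf 0 one_pos hr.le h).div_const _).const_sub _)
  rw [← h2.limsup_eq]
  apply limsup_le_limsup
  · exact Eventually.of_forall fun n => sig_tail hP h n hr
  · isBoundedDefault
  · isBoundedDefault

/-- the averages as probability measures -/
noncomputable def sigP (hP : 2 ≤ deg P) {a : ℂ} (h : Gen P a) (n : ℕ) : ProbabilityMeasure ℂ :=
  ⟨sig P a n, sig_prob hP h n⟩

/-- existence of the limit -/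
theorem exists_limit (hP : 2 ≤ deg P) (hG : IsGreen G)
    (hGf : ∀ v, v ≠ 0 → G (RLift P v) = deg P * G v) {a : ℂ} (h : Gen P a) :
    ∃ ν : ProbabilityMeasure ℂ, Tendsto (sigP hP h) atTop (𝓝 ν) ∧
      ∀ (c : ℂ) (R r : ℝ), 0 < r → r ≤ R →
        ∫ s, psi c R r s ∂(ν : Measure ℂ) = AA c R (gu G) - AA c r (gu G) := by
  have hK : IsCompact (closure (range (sigP hP h))) := by
    apply isCompact_closure_of_isTightMeasureSet
    have e : {((μ : ProbabilityMeasure ℂ) : Measure ℂ) | μ ∈ range (sigP hP h)} =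
        range (sig P a) := by
      ext m
      constructor
      · rintro ⟨μ, ⟨n, rfl⟩, rfl⟩
        exact ⟨n, rfl⟩
      · rintro ⟨n, rfl⟩
        exact ⟨sigP hP h n, ⟨n, rfl⟩, rfl⟩
    rw [e]
    exact sig_tight hP hG hGf h
  have hmem : closure (range (sigP hP h)) ∈ map (sigP hP h) atTop := by
    rw [mem_map]
    exact Eventually.of_forall fun n => subset_closure ⟨n, rfl⟩
  have hstar : ∀ ν : ProbabilityMeasure ℂ, ClusterPt ν (map (sigP hP h) atTop) →
      ∀ (c : ℂ) (R r : ℝ), 0 < r → r ≤ R →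
        ∫ s, psi c R r s ∂(ν : Measure ℂ) = AA c R (gu G) - AA c r (gu G) := by
    intro ν hν c R r hr hrR
    have hc : Continuous fun μ : ProbabilityMeasure ℂ => ∫ x, psiB c hr hrR x ∂(μ : Measure ℂ) :=
      ProbabilityMeasure.continuous_integral_boundedContinuousFunction _
    have h1 : Tendsto (fun n => ∫ x, psiB c hr hrR x ∂((sigP hP h n : ProbabilityMeasure ℂ) :
        Measure ℂ)) atTop (𝓝 (AA c R (gu G) - AA c r (gu G))) := by
      refine (T_tendsto hP hG hGf c hr hrR h).congr fun n => ?_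
      exact (sig_int hP h n (psi c R r)).symm
    have h2 : MapClusterPt (∫ x, psiB c hr hrR x ∂(ν : Measure ℂ)) atTop
        (fun n => ∫ x, psiB c hr hrR x ∂((sigP hP h n : ProbabilityMeasure ℂ) : Measure ℂ)) := by
      have h3 : MapClusterPt ν atTop (sigP hP h) := hν
      exact h3.continuousAt_comp hc.continuousAt
    have h4 : (𝓝 (∫ x, psiB c hr hrR x ∂(ν : Measure ℂ)) ⊓
        𝓝 (AA c R (gu G) - AA c r (gu G))).NeBot := Filter.NeBot.mono h2 (inf_le_inf_left _ h1)
    exact eq_of_nhds_neBot h4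
  obtain ⟨ν, hνK, hν⟩ := hK.exists_clusterPt (f := map (sigP hP h) atTop) (le_principal_iff.2 hmem)
  refine ⟨ν, ?_, hstar ν hν⟩
  have h5 : map (sigP hP h) atTop ≤ 𝓝 ν := by
    apply hK.le_nhds_of_unique_clusterPt hmem
    intro ν' _ hν'
    apply Subtype.ext
    have := ν.2
    have := ν'.2
    apply unique_of_star
    intro c R r hr hrR
    have h6 := hstar ν' hν' c R r hr hrR
    have h7 := hstar ν hν c R r hr hrR
    exact h6.trans h7.symm
  exact h5

end Pool.Agent.Helper59.EP
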