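import Mathlib
import Pool.Agent.Helper59.EPj

/-! Existence of the measure with constant Jacobian. -/

open Complex Metric Set Filter Topology MeasureTheory Polynomial BoundedContinuousFunction
open scoped ENNReal NNReal

namespace Pool.Agent.Helper59.EP

open Pool.Agent.Helper65

/-- the balanced pull-back of a measure, as a measure -/
lemma exists_pull {Q : RatFunc ℂ} (hQ : 1 ≤ deg Q) (μ : Measure ℂ) [NullSingletonClass μ] :
    ∃ m : Measure ℂ, ∀ ψ : ℂ → ℝ≥0∞, Measurable ψ →
      AEMeasurable (rsum Q ψ) μ ∧ ∫⁻ z, ψ z ∂m = ∫⁻ a, rsum Q ψ a ∂μ := by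
  obtain ⟨A, hAm, hAd, hAU, hAi⟩ := exists_partition Q
  have hAs : ∀ i, A i ⊆ GU Q := fun i => by rw [← hAU]; exact subset_iUnion A i
  have hcont : ∀ i, ContinuousOn (ev Q) (A i) := fun i z hz =>
    (ev_analyticAt (gu_reg (hAs i hz))).continuousAt.continuousWithinAt
  have hemb : ∀ i, MeasurableEmbedding ((A i).domRestrict (ev Q)) := fun i =>
    (hcont i).measurableEmbedding (hAm i) (hAi i)
  have hBm : ∀ i, MeasurableSet (ev Q '' A i) := fun i =>
    (hAm i).image_of_continuousOn_injOn (hcont i) (hAi i)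
  refine ⟨Measure.sum fun i => (Measure.comap ((A i).domRestrict (ev Q)) μ).map Subtype.val,
    fun ψ hψ => ?_⟩
  choose Ψ hΨm hΨ using fun i => (hemb i).exists_measurable_extend (g := fun z : A i => ψ z)
    (hψ.comp measurable_subtype_coe) (fun _ => ⟨0⟩)
  have hΨ' : ∀ i, ∀ z ∈ A i, Ψ i (ev Q z) = ψ z := fun i z hz => congrFun (hΨ i) ⟨z, hz⟩
  have hone : ∀ i, ∫⁻ z, ψ z ∂((Measure.comap ((A i).domRestrict (ev Q)) μ).map Subtype.val) =
      ∫⁻ a in ev Q '' A i, Ψ i a ∂μ := by
    intro i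
    rw [lintegral_map hψ measurable_subtype_coe]
    have h1 : (fun z : A i => ψ z) = fun z : A i => Ψ i ((A i).domRestrict (ev Q) z) := (hΨ i).symm
    rw [h1, ← lintegral_map (hΨm i) (hemb i).measurable, (hemb i).map_comap]
    congr 2
    ext a
    simp
  have hae : (fun a => ∑' i, (ev Q '' A i).indicator (Ψ i) a) =ᵐ[μ] rsum Q ψ := by
    have h0 : μ (BadV Q) = 0 := (badV_finite hQ).measure_zero μ
    have h1 : ∀ᵐ a ∂μ, a ∉ BadV Q := measure_eq_zero_iff_ae_notMem.1 h0
    filter_upwards [h1] with a ha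
    rw [rsum_eq hQ ha]
    have h2 : ∀ i, (ev Q '' A i).indicator (Ψ i) a =
        ∑ z ∈ (fp Q a).roots.toFinset, (A i).indicator ψ z := by
      intro i
      by_cases h3 : a ∈ ev Q '' A i
      · obtain ⟨z, hz, hza⟩ := h3
        have h3' : a ∈ ev Q '' A i := ⟨z, hz, hza⟩
        rw [indicator_of_mem h3', Finset.sum_eq_single z]
        · rw [indicator_of_mem hz, ← hza, hΨ' i z hz]
        · intro b hb hbz
          apply indicator_of_notMem
          intro hbA
          rw [mem_fib hQ ha] at hb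
          exact hbz (hAi i hbA hz (hb.2.trans hza.symm))
        · intro h4
          exfalso
          apply h4
          rw [mem_fib hQ ha]
          exact ⟨hAs i hz, hza⟩
      · rw [indicator_of_notMem h3]
        symm
        apply Finset.sum_eq_zero
        intro z hz
        apply indicator_of_notMem
        intro hzA
        rw [mem_fib hQ ha] at hz
        exact h3 ⟨z, hzA, hz.2⟩
    simp only [h2]
    rw [Summable.tsum_finsetSum (fun _ _ => ENNReal.summable)]
    apply Finset.sum_congr rfl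
    intro z hz
    rw [mem_fib hQ ha] at hz
    have hzU := hz.1
    rw [← hAU] at hzU
    obtain ⟨i0, hi0⟩ := mem_iUnion.1 hzU
    rw [tsum_eq_single i0, indicator_of_mem hi0]
    intro j hj
    apply indicator_of_notMem
    intro hzj
    exact (Set.disjoint_left.1 (hAd hj)) hzj hi0
  have hmeas : Measurable fun a => ∑' i, (ev Q '' A i).indicator (Ψ i) a :=
    Measurable.tsum fun i => (hΨm i).indicator (hBm i)
  refine ⟨⟨_, hmeas, hae.symm⟩, ?_⟩
  rw [← lintegral_congr_ae hae, lintegral_tsum fun i => ((hΨm i).indicator (hBm i)).aemeasurable,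
    lintegral_sum_measure]
  apply tsum_congr
  intro i
  rw [lintegral_indicator (hBm i), hone i]

/-- local inverse branches -/
lemma local_inv {Q : RatFunc ℂ} {z : ℂ} (hz : z ∈ GU Q) : ∃ g : ℂ → ℂ,
    ContinuousAt g (ev Q z) ∧ g (ev Q z) = z ∧ ∀ᶠ b in 𝓝 (ev Q z), ev Q (g b) = b := by
  have hr := gu_reg hz
  have h1 : HasStrictDerivAt (ev Q) (deriv (ev Q) z) z := (ev_analyticAt hr).hasStrictDerivAt
  have h2 : deriv (ev Q) z ≠ 0 := by
    rw [deriv_ev' hr]
    exact div_ne_zero (right_ne_zero_of_mul hz) (pow_ne_zero _ hr)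
  have h3 := h1.hasStrictFDerivAt_equiv h2
  exact ⟨h3.localInverse _ _ _, h3.localInverse_continuousAt, h3.localInverse_apply_image,
    h3.eventually_right_inverse⟩

/-- continuity of fibre sums -/
lemma rsum_cont {Q : RatFunc ℂ} (hQ : 1 ≤ deg Q) {φ : ℂ → ℝ} (hφ : Continuous φ) {b : ℂ}
    (hb : b ∉ BadV Q) : ContinuousAt (rsum Q φ) b := by
  classical
  set S := (fp Q b).roots.toFinset with hS
  have hmem : ∀ z ∈ S, z ∈ GU Q ∧ ev Q z = b := fun z hz => (mem_fib hQ hb).1 hz
  have hex : ∀ z, ∃ g : ℂ → ℂ, z ∈ S → ContinuousAt g b ∧ g b = z ∧ ∀ᶠ b' in 𝓝 b, ev Q (g b') = b' := by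
    intro z
    by_cases hz : z ∈ S
    · obtain ⟨h1, h2⟩ := hmem z hz
      obtain ⟨g, h3, h4, h5⟩ := local_inv h1
      rw [h2] at h3 h4 h5
      exact ⟨g, fun _ => ⟨h3, h4, h5⟩⟩
    · exact ⟨id, fun h => absurd h hz⟩
  choose g hg using hex
  have e1 : ∀ᶠ b' in 𝓝 b, ∀ z ∈ S, ev Q (g z b') = b' := by
    rw [Filter.eventually_all_finset]
    exact fun z hz => (hg z hz).2.2
  have e2 : ∀ᶠ b' in 𝓝 b, ∀ z ∈ S, g z b' ∈ GU Q := by
    rw [Filter.eventually_all_finset]
    intro z hz
    apply (hg z hz).1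
    rw [(hg z hz).2.1]
    exact (gu_open Q).mem_nhds (hmem z hz).1
  have e3 : ∀ᶠ b' in 𝓝 b, ∀ z ∈ S, ∀ z' ∈ S, z ≠ z' → g z b' ≠ g z' b' := by
    rw [Filter.eventually_all_finset]
    intro z hz
    rw [Filter.eventually_all_finset]
    intro z' hz'
    by_cases hne : z = z'
    · exact Eventually.of_forall fun _ h => absurd hne h
    · have h1 : g z b ≠ g z' b := by rw [(hg z hz).2.1, (hg z' hz').2.1]; exact hne
      filter_upwards [((hg z hz).1.tendsto.prodMk_nhds (hg z' hz').1.tendsto).eventually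
        (isOpen_ne_fun continuous_fst continuous_snd |>.mem_nhds h1)] with b' hb' _
      exact hb'
  have e4 : ∀ᶠ b' in 𝓝 b, b' ∉ BadV Q :=
    (badV_finite hQ).isClosed.isOpen_compl.mem_nhds hb
  have heq : ∀ᶠ b' in 𝓝 b, rsum Q φ b' = ∑ z ∈ S, φ (g z b') := by
    filter_upwards [e1, e2, e3, e4] with b' h1 h2 h3 h4
    rw [rsum_eq hQ h4]
    have hinj : Set.InjOn (fun z => g z b') S := by
      intro z hz z' hz' h
      by_contra hne
      exact h3 z hz z' hz' hne h
    have hset : S.image (fun z => g z b') = (fp Q b').roots.toFinset := by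
      apply Finset.eq_of_subset_of_card_le
      · intro y hy
        rw [Finset.mem_image] at hy
        obtain ⟨z, hz, rfl⟩ := hy
        rw [mem_fib hQ h4]
        exact ⟨h2 z hz, h1 z hz⟩
      · rw [card_fib hQ h4, Finset.card_image_of_injOn hinj, hS, card_fib hQ hb]
    rw [← hset, Finset.sum_image hinj]
  have hval : rsum Q φ b = ∑ z ∈ S, φ z := rsum_eq hQ hb φ
  have hc : ContinuousAt (fun b' => ∑ z ∈ S, φ (g z b')) b :=
    tendsto_finsetSum _ fun z hz => (hφ.continuousAt.comp (hg z hz).1).tendsto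
  refine ContinuousAt.congr hc ?_
  filter_upwards [heq] with b' hb'
  exact hb'.symm

variable {P : RatFunc ℂ} {G : C2 → ℝ}

lemma sig_integrable (_hP : 2 ≤ deg P) (a : ℂ) (n : ℕ) (ψ : ℂ → ℝ) : Integrable ψ (sig P a n) := by
  unfold sig
  apply Integrable.smul_measure _ ENNReal.ofReal_ne_top
  rw [integrable_finsetSum_measure]
  intro z _
  exact integrable_dirac (by simp)

lemma star_noAtoms (hG : IsGreen G) {ν : Measure ℂ} [IsProbabilityMeasure ν]
    (hst : ∀ (c : ℂ) (R r : ℝ), 0 < r → r ≤ R →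
      ∫ s, psi c R r s ∂ν = AA c R (gu G) - AA c r (gu G)) (c : ℂ) : ν {c} = 0 := by
  set r : ℕ → ℝ := fun n => 1 / ((n : ℝ) + 1) with hr
  have hr0 : ∀ n, 0 < r n := fun n => by rw [hr]; positivity
  have hr1 : ∀ n, r n ≤ 1 := by
    intro n
    rw [hr]
    apply div_le_one_of_le₀ _ (by positivity)
    have : (0 : ℝ) ≤ n := by positivity
    linarith
  have hrl : Tendsto r atTop (𝓝 0) := tendsto_one_div_add_atTop_nhds_zero_nat
  have h1 : ∀ n : ℕ, ν.real {c} * Real.log ((n : ℝ) + 1) ≤ AA c 1 (gu G) - AA c (r n) (gu G) := by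
    intro n
    rw [← hst c 1 (r n) (hr0 n) (hr1 n)]
    have hpi : Integrable (psi c 1 (r n)) ν :=
      (integrable_const (Real.log (1 / r n))).mono' (psi_measurable c 1 (r n)).aestronglyMeasurable
        (Eventually.of_forall fun s => by rw [Real.norm_eq_abs]; exact psi_abs (hr0 n) (hr1 n) s)
    have h2 : ∫ s, ({c} : Set ℂ).indicator (fun _ => Real.log ((n : ℝ) + 1)) s ∂ν ≤
        ∫ s, psi c 1 (r n) s ∂ν := by
      apply integral_mono
      · exact (integrable_const _).indicator (measurableSet_singleton c)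
      · exact hpi
      · intro s
        simp only
        by_cases hs : s ∈ ({c} : Set ℂ)
        · rw [indicator_of_mem hs]
          rw [mem_singleton_iff] at hs
          rw [hs]
          unfold psi
          rw [sub_self, norm_zero, kk_of_lt one_pos, kk_of_lt (hr0 n), Real.log_one, hr]
          rw [Real.log_div one_ne_zero (by positivity), Real.log_one]
          apply le_of_eq
          ring
        · rw [indicator_of_notMem hs]
          exact psi_nonneg (hr0 n) (hr1 n) s
    rw [integral_indicator (measurableSet_singleton c), setIntegral_const, smul_eq_mul] at h2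
    exact h2
  have hlim1 : Tendsto (fun n => (AA c 1 (gu G) - AA c (r n) (gu G)) / Real.log ((n : ℝ) + 1)) atTop
      (𝓝 0) := by
    apply Tendsto.div_atTop
      ((AA_tendsto_zero (Pool.Agent.Helper56.Equi.gu_continuous hG) c hr0 hrl).const_sub _)
    exact Real.tendsto_log_atTop.comp
      (tendsto_atTop_add_const_right _ _ tendsto_natCast_atTop_atTop)
  have h3 : ν.real {c} ≤ 0 := by
    apply ge_of_tendsto hlim1
    filter_upwards [eventually_gt_atTop 0] with n hn
    have hlog : 0 < Real.log ((n : ℝ) + 1) := by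
      apply Real.log_pos
      have : (0 : ℝ) < n := by exact_mod_cast hn
      linarith
    rw [le_div_iff₀ hlog]
    exact h1 n
  have h4 : ν.real {c} = 0 := le_antisymm h3 measureReal_nonneg
  rwa [measureReal_eq_zero_iff] at h4

/-- balancedness of the limit measure -/
lemma balanced (hP : 2 ≤ deg P) {a : ℂ} (h : Gen P a) {ν : ProbabilityMeasure ℂ}
    (hν : Tendsto (sigP hP h) atTop (𝓝 ν)) (hna : ∀ c, (ν : Measure ℂ) {c} = 0) {φ : ℂ → ℝ}
    (hφ : Continuous φ) {B : ℝ} (hB : ∀ z, |φ z| ≤ B) :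
    ∫ b, rsum P φ b ∂(ν : Measure ℂ) = deg P * ∫ z, φ z ∂(ν : Measure ℂ) := by
  have hP1 : 1 ≤ deg P := by omega
  have : NullSingletonClass (ν : Measure ℂ) := ⟨hna⟩
  have hB0 : 0 ≤ B := (abs_nonneg _).trans (hB 0)
  have hd0 : (0 : ℝ) < deg P := by
    have : 0 < deg P := by omega
    exact_mod_cast this
  set F := BadV P with hF
  have hFfin : F.Finite := badV_finite hP1
  have hFc : IsClosed F := hFfin.isClosed
  have hweak : ∀ f : ℂ →ᵇ ℝ, Tendsto (fun n => T P a n f) atTop (𝓝 (∫ z, f z ∂(ν : Measure ℂ))) := by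
    intro f
    have h1 := (ProbabilityMeasure.tendsto_iff_forall_integral_tendsto.1 hν) f
    refine h1.congr fun n => ?_
    exact sig_int hP h n f
  set δ : ℕ → ℝ := fun n => 1 / ((n : ℝ) + 1) with hδ
  have hδ0 : ∀ n, 0 < δ n := fun n => by rw [hδ]; positivity
  have hδl : Tendsto δ atTop (𝓝 0) := tendsto_one_div_add_atTop_nhds_zero_nat
  -- cut-offs
  have hη1 : ∀ k x, ((thickenedIndicator (hδ0 k) F x : ℝ≥0) : ℝ) ≤ 1 := fun k x => by
    exact_mod_cast thickenedIndicator_le_one (hδ0 k) F x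
  have hη0 : ∀ k x, 0 ≤ ((thickenedIndicator (hδ0 k) F x : ℝ≥0) : ℝ) := fun k x => NNReal.coe_nonneg _
  have hηc : ∀ k, Continuous fun x => ((thickenedIndicator (hδ0 k) F x : ℝ≥0) : ℝ) := fun k =>
    NNReal.continuous_coe.comp (thickenedIndicator (hδ0 k) F).continuous
  have hrb : ∀ b, |rsum P φ b| ≤ deg P * B := fun b => rsum_bound hB hB0 b
  set hh : ℕ → ℂ → ℝ := fun k b => rsum P φ b * (1 - (thickenedIndicator (hδ0 k) F b : ℝ≥0)) with hhh
  have hhc : ∀ k, Continuous (hh k) := by
    intro k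
    rw [continuous_iff_continuousAt]
    intro b
    by_cases hb : b ∈ F
    · have hv : hh k b = 0 := by
        rw [hhh]
        simp only
        rw [thickenedIndicator_one (hδ0 k) F hb]
        simp
      unfold ContinuousAt
      rw [hv]
      have h2 : Tendsto (fun b' => (deg P * B) * (1 - (thickenedIndicator (hδ0 k) F b' : ℝ≥0) : ℝ))
          (𝓝 b) (𝓝 0) := by
        have h3 := ((hηc k).tendsto b).const_sub 1
        rw [thickenedIndicator_one (hδ0 k) F hb] at h3
        simpa using h3.const_mul (deg P * B)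
      apply squeeze_zero_norm _ h2
      intro b'
      rw [hhh]
      simp only
      rw [norm_mul, Real.norm_eq_abs, Real.norm_eq_abs,
        abs_of_nonneg (sub_nonneg.2 (hη1 k b'))]
      exact mul_le_mul_of_nonneg_right (hrb b') (sub_nonneg.2 (hη1 k b'))
    · exact (rsum_cont hP1 hφ hb).mul ((hηc k).continuousAt.const_sub 1)
  have hhb : ∀ k b, |hh k b| ≤ deg P * B := by
    intro k b
    rw [hhh]
    simp only
    rw [abs_mul]
    have h3 : |1 - ((thickenedIndicator (hδ0 k) F b : ℝ≥0) : ℝ)| ≤ 1 := by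
      rw [abs_le]
      constructor <;> linarith [hη1 k b, hη0 k b]
    calc |rsum P φ b| * |1 - ((thickenedIndicator (hδ0 k) F b : ℝ≥0) : ℝ)|
        ≤ (deg P * B) * 1 := mul_le_mul (hrb b) h3 (abs_nonneg _) (by positivity)
      _ = _ := mul_one _
  -- key inequality
  have key : ∀ k, |deg P * (∫ z, φ z ∂(ν : Measure ℂ)) - ∫ b, hh k b ∂(ν : Measure ℂ)| ≤
      deg P * B * ∫ b, ((thickenedIndicator (hδ0 k) F b : ℝ≥0) : ℝ) ∂(ν : Measure ℂ) := by
    intro k
    let φB : ℂ →ᵇ ℝ := BoundedContinuousFunction.ofNormedAddCommGroup φ hφ B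
      (fun s => by rw [Real.norm_eq_abs]; exact hB s)
    let hB' : ℂ →ᵇ ℝ := BoundedContinuousFunction.ofNormedAddCommGroup (hh k) (hhc k) (deg P * B)
      (fun s => by rw [Real.norm_eq_abs]; exact hhb k s)
    let ηB : ℂ →ᵇ ℝ := BoundedContinuousFunction.ofNormedAddCommGroup
      (fun b => ((thickenedIndicator (hδ0 k) F b : ℝ≥0) : ℝ)) (hηc k) 1
      (fun s => by rw [Real.norm_eq_abs, abs_of_nonneg (hη0 k s)]; exact hη1 k s)
    have l1 : Tendsto (fun n => (deg P : ℝ) * T P a (n + 1) φ) atTop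
        (𝓝 (deg P * ∫ z, φ z ∂(ν : Measure ℂ))) :=
      ((hweak φB).comp (tendsto_add_atTop_nat 1)).const_mul _
    have l2 : Tendsto (fun n => T P a n (hh k)) atTop (𝓝 (∫ b, hh k b ∂(ν : Measure ℂ))) :=
      hweak hB'
    have l3 : Tendsto (fun n => T P a n (fun b => ((thickenedIndicator (hδ0 k) F b : ℝ≥0) : ℝ)))
        atTop (𝓝 (∫ b, ((thickenedIndicator (hδ0 k) F b : ℝ≥0) : ℝ) ∂(ν : Measure ℂ))) :=
      hweak ηB
    refine le_of_tendsto_of_tendsto' (l1.sub l2).abs (l3.const_mul (deg P * B)) fun n => ?_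
    have e1 : (deg P : ℝ) * T P a (n + 1) φ = T P a n (rsum P φ) := by
      rw [T_succ hP h]
      field_simp
    rw [e1, ← sig_int hP h n, ← sig_int hP h n, ← sig_int hP h n, ← integral_sub
      (sig_integrable hP a n _) (sig_integrable hP a n _), ← integral_const_mul]
    refine (abs_integral_le_integral_abs (f := fun b => rsum P φ b - hh k b)).trans ?_
    apply integral_mono (sig_integrable hP a n _) (sig_integrable hP a n _)
    intro b
    simp only
    have e2 : rsum P φ b - hh k b = rsum P φ b * ((thickenedIndicator (hδ0 k) F b : ℝ≥0) : ℝ) := by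
      rw [hhh]
      simp only
      ring
    rw [e2, abs_mul, abs_of_nonneg (hη0 k b)]
    exact mul_le_mul_of_nonneg_right (hrb b) (hη0 k b)
  have lη : Tendsto (fun k => ∫ b, ((thickenedIndicator (hδ0 k) F b : ℝ≥0) : ℝ) ∂(ν : Measure ℂ))
      atTop (𝓝 0) := by
    have h4 := tendsto_integral_thickenedIndicator_of_isClosed (ν : Measure ℂ) hFc hδ0 hδl
    have h5 : (ν : Measure ℂ).real F = 0 := by
      rw [measureReal_eq_zero_iff]
      exact hFfin.measure_zero _
    rwa [h5] at h4
  have lh : Tendsto (fun k => ∫ b, hh k b ∂(ν : Measure ℂ)) atTop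
      (𝓝 (∫ b, rsum P φ b ∂(ν : Measure ℂ))) := by
    apply tendsto_integral_of_dominated_convergence (fun _ => deg P * B)
    · intro k
      exact (hhc k).aestronglyMeasurable
    · exact integrable_const _
    · intro k
      exact Eventually.of_forall fun b => by rw [Real.norm_eq_abs]; exact hhb k b
    · have h6 : ∀ᵐ b ∂(ν : Measure ℂ), b ∉ F :=
        measure_eq_zero_iff_ae_notMem.1 (hFfin.measure_zero _)
      filter_upwards [h6] with b hb
      have h7 := thickenedIndicator_tendsto_indicator_closure hδ0 hδl F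
      rw [hFc.closure_eq] at h7
      have h8 := (tendsto_pi_nhds.1 h7) b
      rw [indicator_of_notMem hb] at h8
      have h9 : Tendsto (fun k => ((thickenedIndicator (hδ0 k) F b : ℝ≥0) : ℝ)) atTop (𝓝 0) := by
        have h10 := (NNReal.continuous_coe.tendsto 0).comp h8
        rw [NNReal.coe_zero] at h10
        exact h10
      have h10 := (h9.const_sub 1).const_mul (rsum P φ b)
      rw [sub_zero, mul_one] at h10
      exact h10
  have l4 : Tendsto (fun k => |deg P * (∫ z, φ z ∂(ν : Measure ℂ)) - ∫ b, hh k b ∂(ν : Measure ℂ)|)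
      atTop (𝓝 0) := by
    apply squeeze_zero (fun k => abs_nonneg _) key
    simpa using lη.const_mul (deg P * B)
  have l5 := (lh.const_sub (deg P * ∫ z, φ z ∂(ν : Measure ℂ))).abs
  have l6 := tendsto_nhds_unique l5 l4
  rw [abs_eq_zero, sub_eq_zero] at l6
  exact l6.symm

lemma rsum_coe {Q : RatFunc ℂ} (f : ℂ → ℝ≥0) (a : ℂ) :
    rsum Q (fun z => ((f z : ℝ≥0) : ℝ≥0∞)) a = ENNReal.ofReal (rsum Q (fun z => ((f z : ℝ≥0) : ℝ)) a) := by
  unfold rsum
  have key : ∀ s : Multiset ℂ, 0 ≤ (s.map fun z => ((f z : ℝ≥0) : ℝ)).sum ∧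
      (s.map fun z => ((f z : ℝ≥0) : ℝ≥0∞)).sum =
      ENNReal.ofReal (s.map fun z => ((f z : ℝ≥0) : ℝ)).sum := by
    intro s
    induction s using Multiset.induction_on with
    | empty => simp
    | cons b s ih =>
      simp only [Multiset.map_cons, Multiset.sum_cons]
      refine ⟨add_nonneg (NNReal.coe_nonneg _) ih.1, ?_⟩
      rw [ih.2, ENNReal.ofReal_add (NNReal.coe_nonneg _) ih.1, ENNReal.ofReal_coe_nnreal]
  exact (key _).2

theorem exists_mme (hP : 2 ≤ deg P) : ∃ μ : Measure ℂ, IsMME P μ := by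
  have hP1 : 1 ≤ deg P := by omega
  obtain ⟨G, hG, hGf⟩ := exists_green hP (isLift_RLift hP1)
  obtain ⟨a, h⟩ := exists_gen hP
  obtain ⟨ν, hν, hst⟩ := exists_limit hP hG hGf h
  have hprob : IsProbabilityMeasure (ν : Measure ℂ) := ν.2
  have hna : ∀ c, (ν : Measure ℂ) {c} = 0 := star_noAtoms hG hst
  have : NullSingletonClass (ν : Measure ℂ) := ⟨hna⟩
  obtain ⟨m, hm⟩ := exists_pull hP1 (ν : Measure ℂ)
  have hm2 : m = (deg P : ℝ≥0∞) • (ν : Measure ℂ) := by
    have hfin : IsFiniteMeasure ((deg P : ℝ≥0∞) • (ν : Measure ℂ)) := by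
      constructor
      rw [Measure.smul_apply, smul_eq_mul, measure_univ, mul_one]
      exact ENNReal.natCast_lt_top _
    symm
    apply ext_of_forall_lintegral_eq_of_IsFiniteMeasure
    intro f
    have hfc : Continuous fun z => ((f z : ℝ≥0) : ℝ) := NNReal.continuous_coe.comp f.continuous
    obtain ⟨B, hB⟩ : ∃ B : ℝ, ∀ z, |((f z : ℝ≥0) : ℝ)| ≤ B := by
      obtain ⟨B, hB⟩ := f.bounded
      refine ⟨B + (f 0 : ℝ), fun z => ?_⟩
      rw [abs_of_nonneg (NNReal.coe_nonneg _)]
      have h1 := hB z 0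
      rw [NNReal.dist_eq] at h1
      have h2 := le_abs_self (((f z : ℝ≥0) : ℝ) - ((f 0 : ℝ≥0) : ℝ))
      linarith
    have hbal := balanced hP h hν hna hfc hB
    have hme : Measurable fun z => ((f z : ℝ≥0) : ℝ≥0∞) :=
      (measurable_coe_nnreal_ennreal).comp f.continuous.measurable
    obtain ⟨h3, h4⟩ := hm _ hme
    rw [h4, lintegral_smul_measure, smul_eq_mul]
    have hB0 : 0 ≤ B := (abs_nonneg _).trans (hB 0)
    have hrn : ∀ a, 0 ≤ rsum P (fun z => ((f z : ℝ≥0) : ℝ)) a := by
      intro a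
      unfold rsum
      apply Multiset.sum_nonneg
      intro x hx
      obtain ⟨y, _, rfl⟩ := Multiset.mem_map.1 hx
      exact NNReal.coe_nonneg _
    have hrm : AEStronglyMeasurable (rsum P (fun z => ((f z : ℝ≥0) : ℝ))) (ν : Measure ℂ) := by
      have h5 : (rsum P (fun z => ((f z : ℝ≥0) : ℝ))) = fun a =>
          (rsum P (fun z => ((f z : ℝ≥0) : ℝ≥0∞)) a).toReal := by
        funext a
        rw [rsum_coe, ENNReal.toReal_ofReal (hrn a)]
      rw [h5]
      exact h3.ennreal_toReal.aestronglyMeasurable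
    have hri : Integrable (rsum P (fun z => ((f z : ℝ≥0) : ℝ))) (ν : Measure ℂ) :=
      (integrable_const ((deg P : ℝ) * B)).mono' hrm
        (Eventually.of_forall fun a => by rw [Real.norm_eq_abs]; exact rsum_bound hB hB0 a)
    have hfi : Integrable (fun z => ((f z : ℝ≥0) : ℝ)) (ν : Measure ℂ) :=
      (integrable_const B).mono' hfc.aestronglyMeasurable
        (Eventually.of_forall fun a => by rw [Real.norm_eq_abs]; exact hB a)
    simp only [rsum_coe]
    rw [← ofReal_integral_eq_lintegral_ofReal hri (Eventually.of_forall hrn), hbal,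
      ENNReal.ofReal_mul (by positivity), ENNReal.ofReal_natCast,
      ofReal_integral_eq_lintegral_ofReal hfi (Eventually.of_forall fun z => NNReal.coe_nonneg _)]
    simp only [ENNReal.ofReal_coe_nnreal]
  refine ⟨ν, hprob.measure_univ, hna, ?_⟩
  intro A hA hreg hinj
  simp only [eval_eq_ev] at hinj ⊢
  have hcont : ContinuousOn (ev P) A := fun z hz =>
    (ev_analyticAt (hreg z hz)).continuousAt.continuousWithinAt
  have hBm : MeasurableSet (ev P '' A) := hA.image_of_continuousOn_injOn hcont hinj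
  have hme : Measurable (A.indicator fun _ => (1 : ℝ≥0∞)) := measurable_const.indicator hA
  obtain ⟨h3, h4⟩ := hm _ hme
  rw [hm2, lintegral_smul_measure, lintegral_indicator hA, setLIntegral_one, smul_eq_mul] at h4
  rw [h4]
  have hae : (rsum P (A.indicator fun _ => (1 : ℝ≥0∞))) =ᵐ[(ν : Measure ℂ)]
      (ev P '' A).indicator fun _ => (1 : ℝ≥0∞) := by
    filter_upwards [measure_eq_zero_iff_ae_notMem.1 ((badV_finite hP1).measure_zero (ν : Measure ℂ))]
      with b hb
    rw [rsum_eq hP1 hb]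
    by_cases hbA : b ∈ ev P '' A
    · obtain ⟨z, hz, hzb⟩ := hbA
      have hbA' : b ∈ ev P '' A := ⟨z, hz, hzb⟩
      rw [indicator_of_mem hbA', Finset.sum_eq_single z, indicator_of_mem hz]
      · intro z' hz' hne
        apply indicator_of_notMem
        intro hz'A
        rw [mem_fib hP1 hb] at hz'
        exact hne (hinj hz'A hz (hz'.2.trans hzb.symm))
      · intro h5
        exfalso
        apply h5
        rw [Multiset.mem_toFinset, mem_roots (fp_ne hP1 hb)]
        exact (fp_eval_ev (hreg z hz)).2 hzb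
    · rw [indicator_of_notMem hbA]
      apply Finset.sum_eq_zero
      intro z hz
      apply indicator_of_notMem
      intro hzA
      rw [mem_fib hP1 hb] at hz
      exact hbA ⟨z, hzA, hz.2⟩
  rw [lintegral_congr_ae hae, lintegral_indicator hBm, setLIntegral_one]

theorem unique_mme (hP : 2 ≤ deg P) {μ ν : Measure ℂ} (hμ : IsMME P μ) (hν : IsMME P ν) :
    μ = ν := by
  have hP1 : 1 ≤ deg P := by omega
  obtain ⟨G, hG, hGf⟩ := exists_green hP (isLift_RLift hP1)
  have := hμ.isProb
  have := hν.isProb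
  apply unique_of_star
  intro c R r hr hrR
  rw [star hP hG hGf hμ c hr hrR, star hP hG hGf hν c hr hrR]

end Pool.Agent.Helper59.EP
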