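import Mathlib
import Pool.Agent.Helper59.EPg
import Pool.Agent.Helper59.EPk

/-! Final form of the finite description of `E(P)`. -/

open MeasureTheory

namespace Pool.Agent.Helper59.EP

open Pool.Agent.Helper65

theorem finite_description' {P : RatFunc ℂ} (hP : 2 ≤ deg P) (hs : ¬ Special P) :
    ∃ μ : Measure ℂ, (∀ ν, IsMME P ν ↔ ν = μ) ∧ ∃ S : Finset (RatFunc ℂ), ∀ X,
      (2 ≤ deg X ∧ IsMME X μ) ↔ ∃ Y ∈ S, ∃ k : ℕ, X = comp Y (iter P k) := by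
  obtain ⟨μ, hμ⟩ := exists_mme hP
  refine ⟨μ, fun ν => ⟨fun hν => unique_mme hP hν hμ, fun h => h ▸ hμ⟩, ?_⟩
  obtain ⟨S, hS⟩ := finite_description hP hs
  refine ⟨S, fun X => ?_⟩
  rw [← hS X]
  constructor
  · rintro ⟨h1, h2⟩
    exact ⟨h1, μ, hμ, h2⟩
  · rintro ⟨h1, ν, h2, h3⟩
    rw [unique_mme hP h2 hμ] at h3
    exact ⟨h1, h3⟩

end Pool.Agent.Helper59.EP
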