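import Mathlib

/-! Fourier coefficients of continuous 1-periodic functions on `ℝ`. -/

namespace Pool.Agent.Helper59.NilMin

open Set Topology Filter Complex MeasureTheory

/-- `e t = exp (2π i t)` -/
noncomputable def e (t : ℝ) : ℂ := exp (2 * Real.pi * I * t)

theorem e_add (s t : ℝ) : e (s + t) = e s * e t := by
  unfold e; rw [← Complex.exp_add]; congr 1; push_cast; ring

theorem e_zero : e 0 = 1 := by simp [e]

theorem norm_e (t : ℝ) : ‖e t‖ = 1 := by
  unfold e; rw [Complex.norm_exp]; simp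

theorem e_ne (t : ℝ) : e t ≠ 0 := Complex.exp_ne_zero _

theorem e_neg (t : ℝ) : e (-t) = (e t)⁻¹ := by
  unfold e; rw [← Complex.exp_neg]; congr 1; push_cast; ring

theorem continuous_e : Continuous e := by unfold e; fun_prop

theorem e_eq_one_iff {t : ℝ} : e t = 1 ↔ ∃ n : ℤ, t = n := by
  unfold e
  rw [Complex.exp_eq_one_iff]
  constructor
  · rintro ⟨n, hn⟩
    refine ⟨n, ?_⟩
    have h1 : (2 * Real.pi * I : ℂ) ≠ 0 := Complex.two_pi_I_ne_zero
    have : (t : ℂ) = n := by
      apply mul_left_cancel₀ h1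
      rw [hn]; ring
    exact_mod_cast this
  · rintro ⟨n, rfl⟩
    exact ⟨n, by push_cast; ring⟩

theorem e_int (n : ℤ) : e n = 1 := e_eq_one_iff.2 ⟨n, rfl⟩

/-- Fourier coefficient -/
noncomputable def cf (h : ℝ → ℂ) (n : ℤ) : ℂ := ∫ x in (0:ℝ)..1, e (-(n * x)) * h x

theorem cf_eq (h : ℝ → ℂ) (n : ℤ) : fourierCoeffOn (zero_lt_one' ℝ) h n = cf h n := by
  rw [fourierCoeffOn_eq_integral]
  unfold cf
  simp only [sub_zero, div_one, one_smul]
  apply intervalIntegral.integral_congr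
  intro x _
  simp only [smul_eq_mul]
  rw [fourier_coe_apply]
  unfold e
  congr 2
  push_cast
  ring

theorem hasSum_cf {h : ℝ → ℂ} (hc : Continuous h) :
    HasSum (fun n : ℤ => ‖cf h n‖ ^ 2) (∫ x in (0:ℝ)..1, ‖h x‖ ^ 2) := by
  have hm : MemLp h 2 (volume.restrict (Ioc (0:ℝ) 1)) := by
    obtain ⟨C, hC⟩ := (isCompact_Icc (a := (0:ℝ)) (b := 1)).exists_bound_of_continuousOn
      hc.continuousOn
    refine MemLp.of_bound hc.aestronglyMeasurable C ?_
    filter_upwards [ae_restrict_mem measurableSet_Ioc] with x hx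
    exact hC x (Ioc_subset_Icc_self hx)
  have := hasSum_sq_fourierCoeffOn (zero_lt_one' ℝ) hm
  simpa [cf_eq] using this

theorem bessel {h : ℝ → ℂ} (hc : Continuous h) (s : Finset ℤ) :
    ∑ n ∈ s, ‖cf h n‖ ^ 2 ≤ ∫ x in (0:ℝ)..1, ‖h x‖ ^ 2 :=
  sum_le_hasSum s (fun _ _ => by positivity) (hasSum_cf hc)

theorem eq_zero_of_cf {h : ℝ → ℂ} (hc : Continuous h) (hper : ∀ x, h (x + 1) = h x)
    (h0 : ∀ n, cf h n = 0) : ∀ x, h x = 0 := by
  have h1 : ∫ x in (0:ℝ)..1, ‖h x‖ ^ 2 = 0 := by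
    have := hasSum_cf hc
    simp only [h0, norm_zero] at this
    norm_num at this
    exact (this.unique hasSum_zero)
  have hcont : Continuous fun x => ‖h x‖ ^ 2 := by fun_prop
  have h2 : ∀ x ∈ Icc (0:ℝ) 1, h x = 0 := by
    intro x hx
    by_contra hne
    have h3 := intervalIntegral.integral_pos (a := (0:ℝ)) (b := 1) (f := fun x => ‖h x‖ ^ 2)
      zero_lt_one hcont.continuousOn (fun x _ => by positivity)
      ⟨x, hx, by positivity⟩
    linarith
  intro x
  have hp : Function.Periodic h 1 := hper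
  rw [← hp.sub_zsmul_eq ⌊x⌋]
  apply h2
  simp only [zsmul_eq_mul, mul_one]
  exact ⟨Int.fract_nonneg x, (Int.fract_lt_one x).le⟩

theorem cf_translate {h : ℝ → ℂ} (hper : ∀ x, h (x + 1) = h x) (a : ℝ) (n : ℤ) :
    cf (fun x => h (x + a)) n = e (n * a) * cf h n := by
  unfold cf
  rw [← intervalIntegral.integral_const_mul]
  have h1 : ∀ x : ℝ, e (-(n * x)) * h (x + a) = (fun y => e (n * a) * (e (-(n * y)) * h y)) (x + a) := by
    intro x
    simp only
    rw [← mul_assoc, ← e_add]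
    congr 2
    ring
  simp_rw [h1]
  rw [intervalIntegral.integral_comp_add_right (fun y => e (n * a) * (e (-(n * y)) * h y))]
  have hp : Function.Periodic (fun y => e (n * a) * (e (-(n * y)) * h y)) 1 := by
    intro y
    simp only
    rw [hper]
    congr 2
    rw [mul_add, neg_add, e_add, mul_one]
    have : e (-(n:ℝ)) = 1 := by rw [e_neg, e_int, inv_one]
    rw [this, mul_one]
  rw [zero_add, add_comm 1 a]
  have := hp.intervalIntegral_add_eq a 0
  rw [zero_add] at this
  exact this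

theorem cf_mul_e (h : ℝ → ℂ) (k n : ℤ) : cf (fun x => e (k * x) * h x) n = cf h (n - k) := by
  unfold cf
  congr 1
  ext x
  rw [← mul_assoc, ← e_add]
  congr 2
  push_cast; ring

theorem cf_const_mul (c : ℂ) (h : ℝ → ℂ) (n : ℤ) : cf (fun x => c * h x) n = c * cf h n := by
  unfold cf
  rw [← intervalIntegral.integral_const_mul]
  congr 1
  ext x
  ring

end Pool.Agent.Helper59.NilMin
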