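import Pool.Agent.Helper59.HExist
import Pool.Agent.Helper59.Schw
import Pool.Agent.Helper59.H2Ops

/-! The involution `C_{b_w}` -/

open Complex MeasureTheory Set Filter Topology Metric
open scoped Real ComplexConjugate InnerProductSpace

namespace Pool.Agent.Helper59.Hardy

theorem ev_ker {w z : ℂ} (hw : ‖w‖ < 1) (hz : ‖z‖ < 1) : ev (ker w) z = (1 - conj w * z)⁻¹ := by
  unfold ev
  have h : ‖conj w * z‖ < 1 := by
    rw [norm_mul, RCLike.norm_conj]
    nlinarith [norm_nonneg w, norm_nonneg z]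
  rw [← tsum_geometric_of_norm_lt_one h]
  apply tsum_congr
  intro n
  rw [ker_apply hw, mul_pow]

theorem exists_invol {w : ℂ} (hw : ‖w‖ < 1) : ∃ U : H2 →L[ℂ] H2, IsComp (b w) U := by
  obtain ⟨M, hM1, hM2, -⟩ := exists_mulB hw
  set Mi : H2 →ₗᵢ[ℂ] H2 := ⟨M.toLinearMap, hM1⟩ with hMi
  have hMia : ∀ f, Mi f = M f := fun f => rfl
  have hinn : ∀ f g, ⟪M f, M g⟫_ℂ = ⟪f, g⟫_ℂ := fun f g => Mi.inner_map_map f g
  have hinn' : ∀ (n : ℕ) f g, ⟪(M ^ n) f, (M ^ n) g⟫_ℂ = ⟪f, g⟫_ℂ := by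
    intro n
    induction n with
    | zero => intro f g; simp
    | succ n ih =>
      intro f g
      rw [pow_succ', mul_apply_eq_comp, mul_apply_eq_comp, hinn, ih]
  have hev : ∀ (n : ℕ) g z, ‖z‖ < 1 → ev ((M ^ n) g) z = b w z ^ n * ev g z := by
    intro n
    induction n with
    | zero => intro g z _; simp
    | succ n ih =>
      intro g z hz
      rw [pow_succ', mul_apply_eq_comp, hM2 _ _ hz, ih _ _ hz]
      ring
  have hk : 0 < ‖ker w‖ := by
    have h1 := norm_ker_sq hw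
    have h2 : 0 < (1 - ‖w‖ ^ 2)⁻¹ := by
      apply inv_pos.2
      nlinarith [norm_nonneg w]
    rw [← h1] at h2
    by_contra h3
    have : ‖ker w‖ = 0 := le_antisymm (not_lt.1 h3) (norm_nonneg _)
    rw [this] at h2
    norm_num at h2
  set κ : H2 := ((‖ker w‖⁻¹ : ℝ) : ℂ) • ker w with hκ
  have hκ1 : ‖κ‖ = 1 := by
    rw [hκ, norm_smul, Complex.norm_real, Real.norm_of_nonneg (by positivity)]
    field_simp
  have hκe : ∀ g, ⟪κ, g⟫_ℂ = ((‖ker w‖⁻¹ : ℝ) : ℂ) * ev g w := by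
    intro g
    rw [hκ, inner_smul_left, inner_ker hw, Complex.conj_ofReal]
  set e : ℕ → H2 := fun n => (M ^ n) κ with he
  have hlt : ∀ n m : ℕ, n < m → ⟪e n, e m⟫_ℂ = 0 := by
    intro n m hnm
    obtain ⟨k, rfl⟩ := Nat.exists_eq_add_of_lt hnm
    have h1 : e (n + k + 1) = (M ^ n) ((M ^ (k + 1)) κ) := by
      simp only [he]
      rw [← mul_apply_eq_comp, ← pow_add]
      rfl
    rw [h1]
    simp only [he]
    rw [hinn', hκe, hev _ _ _ hw, b_self]
    simp
  have hON : Orthonormal ℂ e := by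
    constructor
    · intro n
      have h2 : ∀ n : ℕ, ‖(M ^ n) κ‖ = 1 := by
        intro n
        induction n with
        | zero => simpa using hκ1
        | succ n ih => rw [pow_succ', mul_apply_eq_comp, hM1, ih]
      exact h2 n
    · intro n m hnm
      rcases lt_or_gt_of_ne hnm with h | h
      · exact hlt n m h
      · change ⟪e n, e m⟫_ℂ = 0
        rw [← inner_conj_symm, hlt m n h, map_zero]
  set V := hON.orthogonalFamily.linearIsometry with hV
  have hVs : ∀ f : H2, HasSum (fun n => f n • e n) (V f) := by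
    intro f
    exact hON.orthogonalFamily.hasSum_linearIsometry f
  have hVev : ∀ (f : H2) (z : ℂ), ‖z‖ < 1 → ev (V f) z = ev f (b w z) * ev κ z := by
    intro f z hz
    have h1 := (hVs f).mapL (innerSL ℂ (ker z))
    simp only [innerSL_apply_apply, inner_ker hz] at h1
    have h2 := (hasSum_ev f (norm_b_lt hw hz)).mul_right (ev κ z)
    refine h1.unique (h2.congr_fun ?_)
    intro n
    simp only [he]
    rw [ev_smul hz, hev n κ z hz]
    ring
  refine ⟨((‖ker w‖ : ℝ) : ℂ) • ((1 - (conj w) • Sh.toContinuousLinearMap) * V.toContinuousLinearMap), ?_⟩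
  intro f z hz
  have h1 : (((‖ker w‖ : ℝ) : ℂ) • ((1 - (conj w) • Sh.toContinuousLinearMap) *
      V.toContinuousLinearMap) : H2 →L[ℂ] H2) f
      = ((‖ker w‖ : ℝ) : ℂ) • (V f - conj w • Sh (V f)) := rfl
  rw [h1, ev_smul hz, ev_sub hz, ev_smul hz, ev_Sh _ hz, hVev f z hz, hκ, ev_smul hz, ev_ker hw hz]
  have h2 := one_sub_ne hw hz
  have h3 : ((‖ker w‖ : ℝ) : ℂ) ≠ 0 := by
    exact_mod_cast hk.ne'
  push_cast
  field_simp

end Pool.Agent.Helper59.Hardy
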