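import Pool.Agent.Helper59.H2Comp

/-! Existence of composition operators for symbols fixing the origin (Littlewood). -/

open Complex MeasureTheory Set Filter Topology Metric
open scoped Real ComplexConjugate

namespace Pool.Agent.Helper59.Hardy

theorem exists_of_avg {F : ℂ → ℂ} (hF : DifferentiableOn ℂ F (ball 0 1)) {A : ℝ}
    (hA : ∀ r : ℝ, 0 < r → r < 1 → Real.circleAverage (fun z => ‖F z‖ ^ 2) 0 r ≤ A) :
    ∃ f : H2, (∀ z, ‖z‖ < 1 → ev f z = F z) ∧ ‖f‖ ^ 2 ≤ A := by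
  set c : ℕ → ℂ := fun n => (n.factorial : ℂ)⁻¹ * iteratedDeriv n F 0 with hc
  have hsum : ∀ z : ℂ, ‖z‖ < 1 → HasSum (fun n => c n * z ^ n) (F z) := by
    intro z hz
    have h := Complex.hasSum_taylorSeries_on_ball hF (z := z) (by simpa using hz)
    refine h.congr_fun ?_
    intro n
    simp only [hc, smul_eq_mul, sub_zero]
    ring
  have habs : ∀ r : ℝ, 0 < r → r < 1 → Summable fun n => ‖c n‖ * r ^ n := by
    intro r hr0 hr1
    have h := (hsum (r : ℂ) (by rw [Complex.norm_real, Real.norm_of_nonneg hr0.le]; exact hr1)).summable.norm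
    simpa [norm_mul, norm_pow, abs_of_pos hr0] using h
  have hpar : ∀ r : ℝ, 0 < r → r < 1 → ∀ N : ℕ,
      ∑ n ∈ Finset.range N, ‖c n‖ ^ 2 * r ^ (2 * n) ≤ A := by
    intro r hr0 hr1 N
    have h1 := circleAverage_norm_sq_tsum hr0.le (habs r hr0 hr1)
    have h2 : Real.circleAverage (fun z => ‖∑' n, c n * z ^ n‖ ^ 2) 0 r
        = Real.circleAverage (fun z => ‖F z‖ ^ 2) 0 r := by
      apply Real.circleAverage_congr_sphere
      intro z hz
      have hz' : ‖z‖ < 1 := by
        have : ‖z‖ = |r| := by simpa using hz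
        rw [this, abs_of_pos hr0]; exact hr1
      beta_reduce
      rw [(hsum z hz').tsum_eq]
    have h3 : Summable fun n => ‖c n‖ ^ 2 * r ^ (2 * n) := by
      have h4 := habs r hr0 hr1
      have h5 : ∀ᶠ n in atTop, ‖c n‖ * r ^ n < 1 :=
        (tendsto_order.1 h4.tendsto_atTop_zero).2 1 one_pos
      refine Summable.of_norm_bounded_eventually_nat h4 ?_
      filter_upwards [h5] with n hn
      rw [Real.norm_of_nonneg (by positivity)]
      have h6 : ‖c n‖ ^ 2 * r ^ (2 * n) = (‖c n‖ * r ^ n) ^ 2 := by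
        rw [mul_pow, ← pow_mul, mul_comm n 2]
      rw [h6]
      have h7 : 0 ≤ ‖c n‖ * r ^ n := by positivity
      nlinarith
    calc ∑ n ∈ Finset.range N, ‖c n‖ ^ 2 * r ^ (2 * n) ≤ ∑' n, ‖c n‖ ^ 2 * r ^ (2 * n) :=
          h3.sum_le_tsum _ (fun n _ => by positivity)
      _ = Real.circleAverage (fun z => ‖F z‖ ^ 2) 0 r := by rw [← h1, h2]
      _ ≤ A := hA r hr0 hr1
  have hfin : ∀ N : ℕ, ∑ n ∈ Finset.range N, ‖c n‖ ^ 2 ≤ A := by
    intro N
    have ht : Tendsto (fun r : ℝ => ∑ n ∈ Finset.range N, ‖c n‖ ^ 2 * r ^ (2 * n)) (𝓝[<] 1)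
        (𝓝 (∑ n ∈ Finset.range N, ‖c n‖ ^ 2)) := by
      have hcont : Continuous fun r : ℝ => ∑ n ∈ Finset.range N, ‖c n‖ ^ 2 * r ^ (2 * n) := by
        fun_prop
      have := (hcont.tendsto 1).mono_left (nhdsWithin_le_nhds (s := Iio 1))
      simpa using this
    refine le_of_tendsto ht ?_
    have : Ioo (0 : ℝ) 1 ∈ 𝓝[<] (1 : ℝ) := Ioo_mem_nhdsLT one_pos
    filter_upwards [this] with r hr
    exact hpar r hr.1 hr.2 N
  have hsq : Summable fun n => ‖c n‖ ^ 2 :=
    summable_of_sum_range_le (fun n => by positivity) hfin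
  refine ⟨mk c hsq, ?_, ?_⟩
  · intro z hz
    unfold ev
    simp only [mk_apply]
    exact (hsum z hz).tsum_eq
  · rw [norm_sq]
    simp only [mk_apply]
    exact hsq.tsum_le_of_sum_range_le hfin

theorem avg_add_const {H : ℂ → ℂ} (hH : DifferentiableOn ℂ H (ball 0 1)) (h0 : H 0 = 0) (a : ℂ)
    {r : ℝ} (hr0 : 0 < r) (hr1 : r < 1) :
    Real.circleAverage (fun z => ‖a + H z‖ ^ 2) 0 r
      = ‖a‖ ^ 2 + Real.circleAverage (fun z => ‖H z‖ ^ 2) 0 r := by
  have hsub : closedBall (0 : ℂ) r ⊆ ball 0 1 := closedBall_subset_ball hr1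
  have hsph : sphere (0 : ℂ) |r| ⊆ ball 0 1 := by
    rw [abs_of_pos hr0]; exact sphere_subset_closedBall.trans hsub
  have hc : ContinuousOn H (sphere 0 |r|) := hH.continuousOn.mono hsph
  have hmean : Real.circleAverage H 0 r = 0 := by
    have hme : Real.circleAverage H 0 r = H 0 := by
      apply circleAverage_of_differentiable_on_off_countable (s := ∅) countable_empty
      · rw [abs_of_pos hr0]; exact hH.continuousOn.mono hsub
      · intro z hz
        rw [abs_of_pos hr0] at hz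
        exact hH.differentiableAt (isOpen_ball.mem_nhds (hsub (ball_subset_closedBall hz.1)))
    rw [hme, h0]
  have hHi : CircleIntegrable H 0 r := by
    apply ContinuousOn.circleIntegrable'
    exact hc
  set L : ℂ →L[ℝ] ℝ := Complex.reCLM.comp ((ContinuousLinearMap.mul ℝ ℂ) (2 * conj a)) with hL
  have hLi : Real.circleAverage (L ∘ H) 0 r = 0 := by
    rw [ContinuousLinearMap.circleAverage_comp_comm L hHi, hmean, map_zero]
  have heq : (fun z => ‖a + H z‖ ^ 2) = fun z => (‖a‖ ^ 2 + ‖H z‖ ^ 2) + (L ∘ H) z := by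
    ext z
    simp only [hL, Function.comp_apply, ContinuousLinearMap.comp_apply, Complex.reCLM_apply,
      ContinuousLinearMap.mul_apply']
    rw [← Complex.normSq_eq_norm_sq, ← Complex.normSq_eq_norm_sq, ← Complex.normSq_eq_norm_sq,
      Complex.normSq_add]
    simp [Complex.normSq_apply]
    ring
  have hcs : ContinuousOn (fun z => ‖H z‖ ^ 2) (sphere 0 |r|) := by
    exact (hc.norm).pow 2
  rw [heq, Real.circleAverage_fun_add, Real.circleAverage_fun_add, Real.circleAverage_const, hLi,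
    add_zero]
  · exact ContinuousOn.circleIntegrable' continuousOn_const
  · exact ContinuousOn.circleIntegrable' hcs
  · exact ContinuousOn.circleIntegrable' (continuousOn_const.add hcs)
  · exact ContinuousOn.circleIntegrable' (L.continuous.comp_continuousOn hc)

theorem ev_eq_add (f : H2) {z : ℂ} (hz : ‖z‖ < 1) : ev f z = f 0 + z * ev (Bh f) z := by
  have h := congrArg (fun g => ev g z) (Sh_Bh f)
  simp only at h
  rw [ev_Sh _ hz, ev_sub hz, ev_smul hz, ev_one, mul_one] at h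
  rw [h]
  ring

theorem tendsto_Bh_iter (f : H2) : Tendsto (fun N => ‖Bh^[N] f‖ ^ 2) atTop (𝓝 0) := by
  have h1 : ∀ N n, (Bh^[N] f) n = f (n + N) := by
    intro N
    induction N with
    | zero => intro n; simp
    | succ N ih =>
      intro n
      rw [Function.iterate_succ_apply', Bh_apply, ih, Nat.add_right_comm, Nat.add_assoc]
  have h2 : ∀ N, ‖Bh^[N] f‖ ^ 2 = ∑' n, ‖f (n + N)‖ ^ 2 := by
    intro N
    rw [norm_sq]
    simp_rw [h1]
  simp_rw [h2]
  exact tendsto_sum_nat_add fun n => ‖f n‖ ^ 2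

theorem exists_comp0 {φ : ℂ → ℂ} (hφ : DifferentiableOn ℂ φ (ball 0 1))
    (hm : ∀ z, ‖z‖ < 1 → ‖φ z‖ < 1) (h0 : φ 0 = 0) : ∃ C : H2 →L[ℂ] H2, IsComp φ C := by
  have hle : ∀ z, ‖z‖ < 1 → ‖φ z‖ ≤ ‖z‖ := by
    intro z hz
    have hmaps : MapsTo φ (ball 0 1) (closedBall 0 1) := fun u hu => by
      simpa using (hm u (by simpa using hu)).le
    exact Complex.norm_le_norm_of_mapsTo_ball hφ hmaps h0 hz
  have hmapsTo : MapsTo φ (ball 0 1) (ball 0 1) := fun u hu => by
      simpa using hm u (by simpa using hu)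
  -- the functions `ev g ∘ φ`
  have hd : ∀ g : H2, DifferentiableOn ℂ (fun z => ev g (φ z)) (ball 0 1) := fun g =>
    (differentiableOn_ev g).comp hφ hmapsTo
  have hstep : ∀ (g : H2) (r : ℝ), 0 < r → r < 1 →
      Real.circleAverage (fun z => ‖ev g (φ z)‖ ^ 2) 0 r
        ≤ ‖g 0‖ ^ 2 + Real.circleAverage (fun z => ‖ev (Bh g) (φ z)‖ ^ 2) 0 r := by
    intro g r hr0 hr1
    have hsph : sphere (0 : ℂ) |r| ⊆ ball 0 1 := by
      rw [abs_of_pos hr0]; exact sphere_subset_closedBall.trans (closedBall_subset_ball hr1)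
    have hHd : DifferentiableOn ℂ (fun z => φ z * ev (Bh g) (φ z)) (ball 0 1) := hφ.mul (hd (Bh g))
    have h1 := avg_add_const hHd (by simp [h0]) (g 0) hr0 hr1
    have h2 : Real.circleAverage (fun z => ‖ev g (φ z)‖ ^ 2) 0 r
        = Real.circleAverage (fun z => ‖g 0 + φ z * ev (Bh g) (φ z)‖ ^ 2) 0 r := by
      apply Real.circleAverage_congr_sphere
      intro z hz
      have hz' : ‖z‖ < 1 := by simpa using hsph hz
      beta_reduce
      rw [ev_eq_add g (hm z hz')]
    rw [h2, h1]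
    apply add_le_add le_rfl
    apply Real.circleAverage_mono
    · exact ContinuousOn.circleIntegrable' ((hHd.continuousOn.mono hsph).norm.pow 2)
    · exact ContinuousOn.circleIntegrable' (((hd (Bh g)).continuousOn.mono hsph).norm.pow 2)
    · intro z hz
      have hz' : ‖z‖ < 1 := by simpa using hsph hz
      gcongr
      rw [norm_mul]
      have := hm z hz'
      nlinarith [norm_nonneg (ev (Bh g) (φ z)), norm_nonneg (φ z)]
  have hiter : ∀ (g : H2) (r : ℝ), 0 < r → r < 1 → ∀ N : ℕ,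
      Real.circleAverage (fun z => ‖ev g (φ z)‖ ^ 2) 0 r
        ≤ ‖g‖ ^ 2 + Real.circleAverage (fun z => ‖ev (Bh^[N] g) (φ z)‖ ^ 2) 0 r := by
    intro g r hr0 hr1 N
    have key : Real.circleAverage (fun z => ‖ev g (φ z)‖ ^ 2) 0 r
        ≤ (‖g‖ ^ 2 - ‖Bh^[N] g‖ ^ 2)
          + Real.circleAverage (fun z => ‖ev (Bh^[N] g) (φ z)‖ ^ 2) 0 r := by
      induction N with
      | zero => simp
      | succ N ih =>
        have h1 := hstep (Bh^[N] g) r hr0 hr1
        have h2 : ‖Bh^[N] g‖ ^ 2 = ‖(Bh^[N] g) 0‖ ^ 2 + ‖Bh^[N + 1] g‖ ^ 2 := by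
          rw [Function.iterate_succ_apply', norm_sq, norm_sq, (summable_sq _).tsum_eq_zero_add]
          rfl
        rw [Function.iterate_succ_apply'] at h2 ⊢
        linarith
    nlinarith [sq_nonneg ‖Bh^[N] g‖]
  have havg : ∀ (g : H2) (r : ℝ), 0 < r → r < 1 →
      Real.circleAverage (fun z => ‖ev g (φ z)‖ ^ 2) 0 r ≤ ‖g‖ ^ 2 := by
    intro g r hr0 hr1
    have hsph : sphere (0 : ℂ) |r| ⊆ ball 0 1 := by
      rw [abs_of_pos hr0]; exact sphere_subset_closedBall.trans (closedBall_subset_ball hr1)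
    have hb : ∀ N : ℕ, Real.circleAverage (fun z => ‖ev g (φ z)‖ ^ 2) 0 r
        ≤ ‖g‖ ^ 2 + (1 - r ^ 2)⁻¹ * ‖Bh^[N] g‖ ^ 2 := by
      intro N
      refine (hiter g r hr0 hr1 N).trans ?_
      gcongr
      apply Real.circleAverage_mono_on_of_le_circle
      · exact ContinuousOn.circleIntegrable' (((hd (Bh^[N] g)).continuousOn.mono hsph).norm.pow 2)
      · intro z hz
        have hz' : ‖z‖ < 1 := by simpa using hsph hz
        have hzr : ‖z‖ = r := by
          have : ‖z‖ = |r| := by simpa using hz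
          rw [this, abs_of_pos hr0]
        have h1 := ev_bound (Bh^[N] g) (hm z hz')
        have h2 : ‖ker (φ z)‖ ^ 2 ≤ (1 - r ^ 2)⁻¹ := by
          rw [norm_ker_sq (hm z hz')]
          have h3 := hle z hz'
          rw [hzr] at h3
          have h4 : 0 < 1 - r ^ 2 := by nlinarith
          apply inv_anti₀ h4
          nlinarith [norm_nonneg (φ z)]
        calc ‖ev (Bh^[N] g) (φ z)‖ ^ 2 ≤ (‖ker (φ z)‖ * ‖Bh^[N] g‖) ^ 2 := by gcongr
          _ = ‖ker (φ z)‖ ^ 2 * ‖Bh^[N] g‖ ^ 2 := by ring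
          _ ≤ _ := by gcongr
    have ht : Tendsto (fun N => ‖g‖ ^ 2 + (1 - r ^ 2)⁻¹ * ‖Bh^[N] g‖ ^ 2) atTop
        (𝓝 (‖g‖ ^ 2 + (1 - r ^ 2)⁻¹ * 0)) :=
      tendsto_const_nhds.add ((tendsto_Bh_iter g).const_mul _)
    rw [mul_zero, add_zero] at ht
    exact ge_of_tendsto' ht hb
  have hex : ∀ g : H2, ∃ f : H2, (∀ z, ‖z‖ < 1 → ev f z = ev g (φ z)) ∧ ‖f‖ ^ 2 ≤ ‖g‖ ^ 2 :=
    fun g => exists_of_avg (hd g) (havg g)
  choose T hT1 hT2 using hex
  refine ⟨LinearMap.mkContinuous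
    { toFun := T
      map_add' := fun f g => by
        apply ext_ev
        intro z hz
        rw [hT1 _ z hz, ev_add hz, hT1 _ z hz, hT1 _ z hz, ev_add (hm z hz)]
      map_smul' := fun c f => by
        apply ext_ev
        intro z hz
        rw [RingHom.id_apply, hT1 _ z hz, ev_smul hz, hT1 _ z hz, ev_smul (hm z hz)] } 1 ?_, ?_⟩
  · intro f
    rw [one_mul]
    exact (sq_le_sq₀ (norm_nonneg _) (norm_nonneg _)).1 (hT2 f)
  · intro f z hz
    exact hT1 f z hz

end Pool.Agent.Helper59.Hardy
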