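import Mathlib
import Pool.Agent.Helper59.H2Low

/-! Compact operators and truncations. -/

namespace Pool.Agent.Helper59.Hardy

open Complex Set Filter Topology Metric
open scoped ComplexConjugate InnerProductSpace

theorem compact_tail {R : H2 →L[ℂ] H2} (hR : IsCompactOperator R) {ε : ℝ} (hε : 0 < ε) :
    ∃ K, ∀ x, ‖P K (R x)‖ ≤ ε * ‖x‖ := by
  obtain ⟨Q, hQ, hsub⟩ := hR.image_closedBall_subset_compact (𝕜₁ := ℂ) (f := (R : H2 →ₗ[ℂ] H2)) 1
  obtain ⟨t, htQ, htf, hcov⟩ := hQ.finite_cover_balls (half_pos hε)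
  have h1 : ∀ᶠ K in atTop, ∀ y ∈ t, ‖P K y‖ < ε / 2 := by
    rw [eventually_all_finite htf]
    intro y _
    have := (tendsto_P y).norm
    rw [norm_zero] at this
    exact (tendsto_order.1 this).2 _ (half_pos hε)
  obtain ⟨K, hK⟩ := h1.exists
  have h2 : ∀ x, ‖x‖ ≤ 1 → ‖P K (R x)‖ ≤ ε := by
    intro x hx
    have hx' : R x ∈ Q := hsub ⟨x, by simpa using hx, rfl⟩
    obtain ⟨y, hy, hxy⟩ := mem_iUnion₂.1 (hcov hx')
    rw [mem_ball, dist_eq_norm] at hxy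
    calc ‖P K (R x)‖ = ‖P K (R x - y) + P K y‖ := by rw [← map_add, sub_add_cancel]
      _ ≤ ‖P K (R x - y)‖ + ‖P K y‖ := norm_add_le _ _
      _ ≤ ‖R x - y‖ + ‖P K y‖ := by gcongr; exact P_norm_apply_le _ _
      _ ≤ ε / 2 + ε / 2 := add_le_add hxy.le (hK y hy).le
      _ = ε := by ring
  refine ⟨K, fun x => ?_⟩
  rcases eq_or_ne x 0 with rfl | hx
  · simp
  · have hn : 0 < ‖x‖ := norm_pos_iff.2 hx
    have h3 := h2 ((((‖x‖)⁻¹ : ℝ) : ℂ) • x) (by
      rw [norm_smul, Complex.norm_real, norm_inv, norm_norm, inv_mul_cancel₀ hn.ne'])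
    rw [map_smul, map_smul, norm_smul, Complex.norm_real, norm_inv, norm_norm,
      inv_mul_le_iff₀ hn] at h3
    linarith

theorem norm_sub_P_le (K : ℕ) (x : H2) : ‖x - P K x‖ ≤ ∑ i ∈ Finset.range K, ‖x i‖ := by
  have : x - P K x = ∑ n ∈ Finset.range K, x n • (mon n) := by
    apply ext_coeff
    intro m
    have h2 : (∑ n ∈ Finset.range K, x n • (mon n)) m = ∑ n ∈ Finset.range K, x n * (mon n) m := by
      rw [lp.coeFn_sum, Finset.sum_apply]
      apply Finset.sum_congr rfl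
      intro n _
      simp
    rw [h2, lp.coeFn_sub, Pi.sub_apply, P_apply]
    split_ifs with hm
    · rw [Finset.sum_eq_zero, sub_self]
      intro n hn
      rw [mon_ne, mul_zero]
      have := Finset.mem_range.1 hn
      omega
    · rw [Finset.sum_eq_single m, mon_self, mul_one, sub_zero]
      · intro n _ hn
        rw [mon_ne (Ne.symm hn), mul_zero]
      · intro h
        exact absurd (Finset.mem_range.2 (not_le.1 hm)) h
  rw [this]
  refine (norm_sum_le _ _).trans (Finset.sum_le_sum fun n _ => ?_)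
  rw [norm_smul, norm_mon, mul_one]

theorem inner_mon (n : ℕ) (f : H2) : ⟪mon n, f⟫_ℂ = f n := by
  unfold mon
  rw [lp.inner_single_left]
  simp

theorem compact_tail_right {R : H2 →L[ℂ] H2} (hR : IsCompactOperator R) {ε : ℝ} (hε : 0 < ε) :
    ∃ K, ∀ x, (∀ n < K, x n = 0) → ‖R x‖ ≤ ε * ‖x‖ := by
  obtain ⟨K₁, hK₁⟩ := compact_tail hR (half_pos hε)
  -- the finitely many vectors `R† mon i`
  have h1 : ∀ᶠ K in atTop, ∀ i ∈ Finset.range K₁, ‖P K (R.adjoint (mon i))‖ < ε / (2 * (K₁ + 1)) := by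
    have h2 := (eventually_all_finite (Finset.finite_toSet (Finset.range K₁)) (l := atTop)
      (p := fun i K => ‖P K (R.adjoint (mon i))‖ < ε / (2 * (K₁ + 1)))).2 (by
        intro i _
        have := (tendsto_P (R.adjoint (mon i))).norm
        rw [norm_zero] at this
        exact (tendsto_order.1 this).2 _ (by positivity))
    simpa using h2
  obtain ⟨K, hK⟩ := h1.exists
  refine ⟨K, fun x hx => ?_⟩
  have hxP : P K x = x := P_eq_self hx
  have h3 : ‖R x - P K₁ (R x)‖ ≤ ε / 2 * ‖x‖ := by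
    refine (norm_sub_P_le _ _).trans ?_
    calc ∑ i ∈ Finset.range K₁, ‖(R x) i‖
        ≤ ∑ i ∈ Finset.range K₁, ε / (2 * (K₁ + 1)) * ‖x‖ := by
          apply Finset.sum_le_sum
          intro i hi
          have h4 : (R x) i = ⟪P K (R.adjoint (mon i)), x⟫_ℂ := by
            rw [inner_P_left, hxP, ContinuousLinearMap.adjoint_inner_left, inner_mon]
          rw [h4]
          refine (norm_inner_le_norm _ _).trans ?_
          gcongr
          exact (hK i hi).le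
      _ = K₁ * (ε / (2 * (K₁ + 1)) * ‖x‖) := by
          rw [Finset.sum_const, Finset.card_range, nsmul_eq_mul]
      _ ≤ ε / 2 * ‖x‖ := by
          have h5 : (K₁ : ℝ) * (ε / (2 * (K₁ + 1))) ≤ ε / 2 := by
            rw [← mul_div_assoc, div_le_div_iff₀ (by positivity) (by norm_num)]
            nlinarith
          calc (K₁ : ℝ) * (ε / (2 * (K₁ + 1)) * ‖x‖) = (K₁ : ℝ) * (ε / (2 * (K₁ + 1))) * ‖x‖ := by ring
            _ ≤ _ := by gcongr
  calc ‖R x‖ = ‖(R x - P K₁ (R x)) + P K₁ (R x)‖ := by rw [sub_add_cancel]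
    _ ≤ ‖R x - P K₁ (R x)‖ + ‖P K₁ (R x)‖ := norm_add_le _ _
    _ ≤ ε / 2 * ‖x‖ + ε / 2 * ‖x‖ := add_le_add h3 (hK₁ x)
    _ = _ := by ring

/-- coercivity of the adjoint from a right parametrix -/
theorem coercive_adj {A S : H2 →L[ℂ] H2} (h : IsCompactOperator (A * S - 1 : H2 →L[ℂ] H2)) :
    ∃ (K : ℕ) (s : ℝ), 0 < s ∧ ∀ x : H2, (∀ j < K, x j = 0) → ‖x‖ ≤ s * ‖A.adjoint x‖ := by
  obtain ⟨K, hK⟩ := compact_tail h (ε := 1 / 2) (by norm_num)
  refine ⟨K, 2 * ‖S‖ + 1, by positivity, fun x hx => ?_⟩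
  have hxP : P K x = x := P_eq_self hx
  have h1 : ⟪x, x⟫_ℂ = ⟪A.adjoint x, S x⟫_ℂ - ⟪x, P K ((A * S - 1 : H2 →L[ℂ] H2) x)⟫_ℂ := by
    rw [ContinuousLinearMap.adjoint_inner_left, ← inner_P_left, hxP]
    have : (A * S - 1 : H2 →L[ℂ] H2) x = A (S x) - x := rfl
    rw [this, inner_sub_right]
    ring
  have h2 : ‖x‖ ^ 2 ≤ ‖A.adjoint x‖ * (‖S‖ * ‖x‖) + ‖x‖ * (1 / 2 * ‖x‖) := by
    have h3 := congrArg norm h1
    rw [inner_self_eq_norm_sq_to_K] at h3
    have h4 : ‖x‖ ^ 2 = ‖⟪A.adjoint x, S x⟫_ℂ - ⟪x, P K ((A * S - 1 : H2 →L[ℂ] H2) x)⟫_ℂ‖ := by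
      simpa using h3
    rw [h4]
    refine (norm_sub_le _ _).trans (add_le_add ?_ ?_)
    · refine (norm_inner_le_norm _ _).trans ?_
      gcongr
      exact S.le_opNorm x
    · refine (norm_inner_le_norm _ _).trans ?_
      gcongr
      exact hK x
  rcases (norm_nonneg x).eq_or_lt with h5 | h5
  · rw [← h5]; positivity
  · have h6 : ‖x‖ * (1 / 2 * ‖x‖) ≤ ‖x‖ * (‖A.adjoint x‖ * ‖S‖) := by nlinarith
    have h7 := le_of_mul_le_mul_left h6 h5
    nlinarith [norm_nonneg (A.adjoint x)]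

/-- lower bound from a left parametrix -/
theorem coercive {A S : H2 →L[ℂ] H2} (h : IsCompactOperator (S * A - 1 : H2 →L[ℂ] H2)) :
    ∃ (K : ℕ) (s : ℝ), 0 < s ∧ ∀ x : H2, (∀ j < K, x j = 0) → ‖x‖ ≤ s * ‖A x‖ := by
  obtain ⟨K, hK⟩ := compact_tail_right h (ε := 1 / 2) (by norm_num)
  refine ⟨K, 2 * ‖S‖ + 1, by positivity, fun x hx => ?_⟩
  have h1 : x = S (A x) - (S * A - 1 : H2 →L[ℂ] H2) x := by
    have : (S * A - 1 : H2 →L[ℂ] H2) x = S (A x) - x := rfl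
    rw [this]; abel
  have h2 : ‖x‖ ≤ ‖S‖ * ‖A x‖ + 1 / 2 * ‖x‖ := by
    conv_lhs => rw [h1]
    refine (norm_sub_le _ _).trans (add_le_add (S.le_opNorm _) (hK x hx))
  nlinarith [norm_nonneg (A x)]

end Pool.Agent.Helper59.Hardy
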