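import Pool.Agent.Helper59.HardyEss
import Mathlib
import Pool.Agent.Helper59.Tail

/-! Invertibility and essential invertibility of `C - μ` outside the essential spectral radius. -/

namespace Pool.Agent.Helper59.Hardy

open Complex Set Filter Topology Metric
open scoped ComplexConjugate InnerProductSpace

instance : Nontrivial H2 := ⟨⟨one, 0, fun h => by
  have h1 := norm_one
  rw [h] at h1
  simp at h1⟩⟩

section
variable {φ : ℂ → ℂ} {C : H2 →L[ℂ] H2}

theorem isUnit_CP (hC : IsComp φ C) (hle : ∀ z, ‖z‖ < 1 → ‖φ z‖ ≤ ‖z‖) {K n : ℕ} {μ : ℂ}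
    (h : ‖C ^ (n + 1) * P K‖ < ‖μ‖ ^ (n + 1)) :
    IsUnit (C * P K - algebraMap ℂ (H2 →L[ℂ] H2) μ) := by
  by_contra hcon
  have h1 : μ ∈ spectrum ℂ (C * P K) := by
    rw [spectrum.mem_iff]
    intro h2
    apply hcon
    rw [← neg_sub]
    exact h2.neg
  have h2 : μ ^ (n + 1) ∈ spectrum ℂ ((C * P K) ^ (n + 1)) := spectrum.pow_mem_pow _ _ h1
  have h3 := spectrum.norm_le_norm_of_mem h2
  rw [hC.mul_pow hle, norm_pow] at h3
  linarith

theorem essInvertible_of_unit {A B : H2 →L[ℂ] H2} (hA : IsUnit A)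
    (hB : IsCompactOperator B) : EssInvertible (A + B) := by
  obtain ⟨U, rfl⟩ := hA
  refine ⟨(U⁻¹ : (H2 →L[ℂ] H2)ˣ).1, ?_, ?_⟩
  · have h1 : ((U : H2 →L[ℂ] H2) + B) * (U⁻¹ : (H2 →L[ℂ] H2)ˣ).1 - 1 = B * (U⁻¹ : (H2 →L[ℂ] H2)ˣ).1 := by
      rw [add_mul, U.mul_inv, add_sub_cancel_left]
    rw [h1]
    exact hB.comp_clm _
  · have h1 : (U⁻¹ : (H2 →L[ℂ] H2)ˣ).1 * ((U : H2 →L[ℂ] H2) + B) - 1 = (U⁻¹ : (H2 →L[ℂ] H2)ˣ).1 * B := by
      rw [mul_add, U.inv_mul, add_sub_cancel_left]
    rw [h1]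
    exact hB.clm_comp _

theorem essInvertible_of (hC : IsComp φ C) (hle : ∀ z, ‖z‖ < 1 → ‖φ z‖ ≤ ‖z‖) {K n : ℕ} {μ : ℂ}
    (h : ‖C ^ (n + 1) * P K‖ < ‖μ‖ ^ (n + 1)) :
    EssInvertible (C - algebraMap ℂ (H2 →L[ℂ] H2) μ) := by
  have h1 := isUnit_CP hC hle h
  have h2 : C - algebraMap ℂ (H2 →L[ℂ] H2) μ =
      (C * P K - algebraMap ℂ (H2 →L[ℂ] H2) μ) + C * (1 - P K) := by
    rw [mul_sub, mul_one]; abel
  rw [h2]
  apply essInvertible_of_unit h1
  exact (compact_one_sub_P K).clm_comp C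

theorem mem_split {f : H2} {j : ℕ} (hf : ∀ n < j, f n = 0) :
    ∀ n < j + 1, (f - f j • mon j) n = 0 := by
  intro n hn
  rw [lp.coeFn_sub, Pi.sub_apply, lp.coeFn_smul, Pi.smul_apply, smul_eq_mul]
  rcases Nat.lt_succ_iff_lt_or_eq.1 hn with h | rfl
  · rw [hf n h, mon_ne h.ne, mul_zero, sub_zero]
  · rw [mon_self, mul_one, sub_self]

theorem W_apply (μ : ℂ) (f : H2) : (C - algebraMap ℂ (H2 →L[ℂ] H2) μ) f = C f - μ • f := rfl

theorem isUnit_of (hC : IsComp φ C) (hle : ∀ z, ‖z‖ < 1 → ‖φ z‖ ≤ ‖z‖) (h0 : φ 0 = 0) {a : ℂ}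
    (hd : HasDerivAt φ a 0) {K n : ℕ} {μ : ℂ}
    (h : ‖C ^ (n + 1) * P K‖ < ‖μ‖ ^ (n + 1)) (hμ : ∀ j < K, μ ≠ a ^ j) :
    IsUnit (C - algebraMap ℂ (H2 →L[ℂ] H2) μ) := by
  have hU := isUnit_CP hC hle h
  have hμ0 : μ ≠ 0 := by
    rintro rfl
    rw [norm_zero, zero_pow (Nat.succ_ne_zero n)] at h
    exact absurd h (not_lt.2 (norm_nonneg _))
  set W := C - algebraMap ℂ (H2 →L[ℂ] H2) μ with hW
  have hWP : ∀ f : H2, (∀ n < K, f n = 0) → W f = (C * P K - algebraMap ℂ (H2 →L[ℂ] H2) μ) f := by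
    intro f hf
    rw [hW, W_apply]
    change _ = C (P K f) - μ • f
    rw [P_eq_self hf]
  have hWlow : ∀ j, ∀ f : H2, (∀ n < j, f n = 0) → ∀ n < j, W f n = 0 := by
    intro j f hf n hn
    rw [hW, W_apply, lp.coeFn_sub, Pi.sub_apply, lp.coeFn_smul, Pi.smul_apply, hf n hn,
      hC.low hle hf n hn]
    simp
  have key : ∀ i ≤ K, (∀ f : H2, (∀ n < K - i, f n = 0) → W f = 0 → f = 0) ∧
      (∀ g : H2, (∀ n < K - i, g n = 0) → ∃ f : H2, (∀ n < K - i, f n = 0) ∧ W f = g) := by
    intro i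
    induction i with
    | zero =>
      intro _
      simp only [Nat.sub_zero]
      have hbij := ContinuousLinearMap.isUnit_iff_bijective.1 hU
      constructor
      · intro f hf hWf
        rw [hWP f hf] at hWf
        apply hbij.1
        rw [hWf, map_zero]
      · intro g hg
        obtain ⟨f, hf⟩ := hbij.2 g
        have h1 : C (P K f) - μ • f = g := hf
        have h2 : ∀ n < K, f n = 0 := by
          intro n hn
          have h3 := hC.low hle (f := P K f) (K := K) (fun n hn => by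
            rw [P_apply, if_neg (not_le.2 hn)]) n hn
          have h4 := congrArg (fun x : H2 => x n) h1
          simp only [lp.coeFn_sub, Pi.sub_apply, lp.coeFn_smul, Pi.smul_apply, smul_eq_mul] at h4
          rw [h3, hg n hn, zero_sub, neg_eq_zero] at h4
          exact (mul_eq_zero.1 h4).resolve_left hμ0
        exact ⟨f, h2, by rw [hWP f h2]; exact hf⟩
    | succ i ih =>
      intro hi
      obtain ⟨ih1, ih2⟩ := ih (by omega)
      set j := K - (i + 1) with hj
      have hj1 : K - i = j + 1 := by omega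
      rw [hj1] at ih1 ih2
      have hμj : a ^ j - μ ≠ 0 := sub_ne_zero.2 (hμ j (by omega)).symm
      -- `W mon j = (a^j - μ) mon j + (higher)`
      have hWmon : ∀ n < j + 1, (W (mon j) - (a ^ j - μ) • mon j) n = 0 := by
        intro n hn
        have h3 := hC.mon h0 hd j n (by omega)
        have h4 : W (mon j) - (a ^ j - μ) • mon j = C (mon j) - a ^ j • mon j := by
          rw [hW, W_apply, sub_smul]; abel
        rw [h4]; exact h3
      have hcoef : ∀ f : H2, (∀ n < j, f n = 0) → W f j = (a ^ j - μ) * f j := by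
        intro f hf
        have h5 := mem_split hf
        have h6 := hWlow (j + 1) _ h5 j (by omega)
        have h7 := hWmon j (by omega)
        have h8 : W f = W (f - f j • mon j) + f j • (W (mon j) - (a ^ j - μ) • mon j) +
            (f j * (a ^ j - μ)) • mon j := by
          rw [map_sub, map_smul, smul_sub, smul_smul]
          abel
        rw [h8, lp.coeFn_add, Pi.add_apply, lp.coeFn_add, Pi.add_apply, h6, lp.coeFn_smul,
          Pi.smul_apply, h7, lp.coeFn_smul, Pi.smul_apply, mon_self]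
        simp
        ring
      constructor
      · intro f hf hWf
        have h9 := hcoef f hf
        rw [hWf] at h9
        have h10 : f j = 0 := by
          have : (a ^ j - μ) * f j = 0 := by rw [← h9]; rfl
          exact (mul_eq_zero.1 this).resolve_left hμj
        apply ih1 f _ hWf
        intro n hn
        rcases Nat.lt_succ_iff_lt_or_eq.1 hn with h | rfl
        · exact hf n h
        · exact h10
      · intro g hg
        set c := g j / (a ^ j - μ) with hc
        obtain ⟨f', hf'1, hf'2⟩ := ih2 (g - c • W (mon j)) (by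
          intro n hn
          rw [lp.coeFn_sub, Pi.sub_apply, lp.coeFn_smul, Pi.smul_apply, smul_eq_mul]
          have hmj : ∀ n < j, (mon j) n = 0 := fun n hn => mon_ne hn.ne
          rcases Nat.lt_succ_iff_lt_or_eq.1 hn with h | h
          · rw [hg n h, hWlow j (mon j) hmj n h, mul_zero, sub_zero]
          · rw [h, hcoef (mon j) hmj, mon_self, mul_one, hc, div_mul_cancel₀ _ hμj, sub_self])
        refine ⟨f' + c • mon j, ?_, ?_⟩
        · intro n hn
          rw [lp.coeFn_add, Pi.add_apply, lp.coeFn_smul, Pi.smul_apply, hf'1 n (by omega),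
            mon_ne hn.ne]
          simp
        · rw [map_add, map_smul, hf'2]
          abel
  have h3 := key K le_rfl
  rw [Nat.sub_self] at h3
  rw [ContinuousLinearMap.isUnit_iff_bijective]
  constructor
  · intro f g hfg
    have h4 := h3.1 (f - g) (by simp) (by rw [map_sub, hfg, sub_self])
    exact sub_eq_zero.1 h4
  · intro g
    obtain ⟨f, _, hf⟩ := h3.2 g (by simp)
    exact ⟨f, hf⟩

/-- the numbers `a^j` are in the spectrum -/
theorem pow_mem_spectrum (hC : IsComp φ C) (hle : ∀ z, ‖z‖ < 1 → ‖φ z‖ ≤ ‖z‖) (h0 : φ 0 = 0) {a : ℂ}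
    (hd : HasDerivAt φ a 0) (j : ℕ) : a ^ j ∈ spectrum ℂ C := by
  rw [spectrum.mem_iff]
  intro hunit
  have hW : IsUnit (C - algebraMap ℂ (H2 →L[ℂ] H2) (a ^ j)) := by
    rw [← neg_sub]; exact hunit.neg
  set W := C - algebraMap ℂ (H2 →L[ℂ] H2) (a ^ j) with hWdef
  obtain ⟨hinj, hsurj⟩ := ContinuousLinearMap.isUnit_iff_bijective.1 hW
  have hWlow : ∀ f : H2, (∀ n < j + 1, f n = 0) → ∀ n < j + 1, W f n = 0 := by
    intro f hf n hn
    rw [hWdef, W_apply, lp.coeFn_sub, Pi.sub_apply, lp.coeFn_smul, Pi.smul_apply, hf n hn,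
      hC.low hle hf n hn]
    simp
  -- finite dimensional compression
  let ι : (Fin (j + 1) → ℂ) →ₗ[ℂ] H2 :=
    { toFun := fun v => ∑ i, v i • mon (i : ℕ)
      map_add' := fun v w => by simp [add_smul, Finset.sum_add_distrib]
      map_smul' := fun c v => by simp [smul_smul, Finset.smul_sum] }
  let π : H2 →ₗ[ℂ] (Fin (j + 1) → ℂ) :=
    { toFun := fun f i => f i
      map_add' := fun f g => by ext i; simp
      map_smul' := fun c f => by ext i; simp }
  have hπι : ∀ v, π (ι v) = v := by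
    intro v
    ext i
    change (∑ i', v i' • mon (i' : ℕ)) (i : ℕ) = v i
    rw [lp.coeFn_sum, Finset.sum_apply, Finset.sum_eq_single i]
    · rw [lp.coeFn_smul, Pi.smul_apply, mon_self]; simp
    · intro i' _ hne
      rw [lp.coeFn_smul, Pi.smul_apply, mon_ne, smul_zero]
      intro h
      exact hne (Fin.ext h.symm)
    · intro h; exact absurd (Finset.mem_univ i) h
  let Λ : (Fin (j + 1) → ℂ) →ₗ[ℂ] (Fin (j + 1) → ℂ) := π ∘ₗ (W : H2 →ₗ[ℂ] H2) ∘ₗ ι
  have hΛs : Function.Surjective Λ := by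
    intro u
    obtain ⟨f, hf⟩ := hsurj (ι u)
    refine ⟨π f, ?_⟩
    have h1 : ∀ n < j + 1, (f - ι (π f)) n = 0 := by
      intro n hn
      have h2 := congrFun (hπι (π f)) ⟨n, hn⟩
      rw [lp.coeFn_sub, Pi.sub_apply]
      have h3 : (ι (π f)) n = f n := h2
      rw [h3, sub_self]
    have h4 : π (W (f - ι (π f))) = 0 := by
      ext i
      exact hWlow _ h1 i i.2
    change π (W (ι (π f))) = u
    rw [map_sub, map_sub, sub_eq_zero, hf, hπι] at h4
    exact h4.symm
  have hΛi : Function.Injective Λ := LinearMap.injective_iff_surjective.2 hΛs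
  have hz : Λ (Pi.single (Fin.last j) 1) = 0 := by
    have h5 : ι (Pi.single (Fin.last j) 1) = mon j := by
      change ∑ i, (Pi.single (Fin.last j) (1 : ℂ) : Fin (j + 1) → ℂ) i • mon (i : ℕ) = mon j
      rw [Finset.sum_eq_single (Fin.last j)]
      · simp
      · intro i _ hne
        rw [Pi.single_eq_of_ne hne, zero_smul]
      · intro h; exact absurd (Finset.mem_univ _) h
    ext i
    change (W (ι (Pi.single (Fin.last j) 1))) (i : ℕ) = 0
    rw [h5]
    have h6 := hC.mon h0 hd j i (by omega)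
    exact h6
  have h7 : (Pi.single (Fin.last j) 1 : Fin (j + 1) → ℂ) = 0 := hΛi (by rw [hz, map_zero])
  have h8 := congrFun h7 (Fin.last j)
  simp at h8

end

end Pool.Agent.Helper59.Hardy
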