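import Mathlib
import Pool.Agent.Helper59.Spec
import Pool.Agent.Helper59.ClaimA2

/-! The essential spectrum and the spectrum for symbols fixing the origin. -/

namespace Pool.Agent.Helper59.Hardy

open Complex Set Filter Topology Metric
open scoped ComplexConjugate InnerProductSpace

theorem adj_sub (C : H2 →L[ℂ] H2) (lam : ℂ) (x : H2) :
    (C - algebraMap ℂ (H2 →L[ℂ] H2) lam).adjoint x = C.adjoint x - conj lam • x := by
  apply ext_inner_right ℂ
  intro y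
  rw [ContinuousLinearMap.adjoint_inner_left, W_apply, inner_sub_right, inner_sub_left,
    ContinuousLinearMap.adjoint_inner_left, inner_smul_right, inner_smul_left, RCLike.conj_conj]

theorem ess_open {A : H2 →L[ℂ] H2} (h : EssInvertible A) :
    ∃ δ > 0, ∀ lam : ℂ, ‖lam‖ < δ → EssInvertible (A - algebraMap ℂ (H2 →L[ℂ] H2) lam) := by
  obtain ⟨S, h1, h2⟩ := h
  refine ⟨1 / (‖S‖ + 1), by positivity, fun lam hlam => ?_⟩
  have hlt : ‖lam • S‖ < 1 := by
    rw [norm_smul]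
    rw [lt_div_iff₀ (by positivity)] at hlam
    have := norm_nonneg lam
    nlinarith
  set U : (H2 →L[ℂ] H2)ˣ := Units.oneSub (lam • S) hlt with hU
  have hUval : (U : H2 →L[ℂ] H2) = 1 - lam • S := rfl
  have hcomm : S * (U⁻¹ : (H2 →L[ℂ] H2)ˣ).1 = (U⁻¹ : (H2 →L[ℂ] H2)ˣ).1 * S := by
    have h3 : (U : H2 →L[ℂ] H2) * S = S * (U : H2 →L[ℂ] H2) := by
      rw [hUval, sub_mul, mul_sub, one_mul, mul_one, smul_mul_assoc, mul_smul_comm]
    calc S * (U⁻¹ : (H2 →L[ℂ] H2)ˣ).1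
        = (U⁻¹ : (H2 →L[ℂ] H2)ˣ).1 * ((U : H2 →L[ℂ] H2) * S) * (U⁻¹ : (H2 →L[ℂ] H2)ˣ).1 := by
          rw [← mul_assoc, U.inv_mul, one_mul]
      _ = (U⁻¹ : (H2 →L[ℂ] H2)ˣ).1 * (S * ((U : H2 →L[ℂ] H2) * (U⁻¹ : (H2 →L[ℂ] H2)ˣ).1)) := by
          rw [h3]; simp only [mul_assoc]
      _ = _ := by rw [U.mul_inv, mul_one]
  refine ⟨S * (U⁻¹ : (H2 →L[ℂ] H2)ˣ).1, ?_, ?_⟩
  · have h4 : (A - algebraMap ℂ (H2 →L[ℂ] H2) lam) * (S * (U⁻¹ : (H2 →L[ℂ] H2)ˣ).1) - 1 =
        (A * S - 1) * (U⁻¹ : (H2 →L[ℂ] H2)ˣ).1 := by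
      have h5 : (A - algebraMap ℂ (H2 →L[ℂ] H2) lam) * S = (A * S - 1) + (U : H2 →L[ℂ] H2) := by
        rw [hUval, sub_mul, Algebra.algebraMap_eq_smul_one, smul_mul_assoc, one_mul]; abel
      rw [← mul_assoc, h5, add_mul, U.mul_inv, add_sub_cancel_right]
    rw [h4]
    exact h1.comp_clm _
  · have h4 : S * (U⁻¹ : (H2 →L[ℂ] H2)ˣ).1 * (A - algebraMap ℂ (H2 →L[ℂ] H2) lam) - 1 =
        (U⁻¹ : (H2 →L[ℂ] H2)ˣ).1 * (S * A - 1) := by
      have h5 : S * (A - algebraMap ℂ (H2 →L[ℂ] H2) lam) = (S * A - 1) + (U : H2 →L[ℂ] H2) := by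
        rw [hUval, mul_sub, Algebra.algebraMap_eq_smul_one, mul_smul_comm, mul_one]; abel
      rw [hcomm, mul_assoc, h5, mul_add, U.inv_mul, add_sub_cancel_right]
    rw [h4]
    exact h2.clm_comp _

theorem isClosed_ess (C : H2 →L[ℂ] H2) : IsClosed (essSpectrum C) := by
  rw [← isOpen_compl_iff, Metric.isOpen_iff]
  intro lam hlam
  have h1 : EssInvertible (C - algebraMap ℂ (H2 →L[ℂ] H2) lam) := by
    by_contra h; exact hlam h
  obtain ⟨δ, hδ, h2⟩ := ess_open h1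
  refine ⟨δ, hδ, fun mu hmu => ?_⟩
  rw [mem_ball, dist_eq_norm] at hmu
  intro h3
  apply h3
  have h4 := h2 (mu - lam) hmu
  have h5 : C - algebraMap ℂ (H2 →L[ℂ] H2) lam - algebraMap ℂ (H2 →L[ℂ] H2) (mu - lam) =
      C - algebraMap ℂ (H2 →L[ℂ] H2) mu := by
    rw [map_sub]; abel
  rw [h5] at h4
  exact h4

theorem ess_subset (C : H2 →L[ℂ] H2) : essSpectrum C ⊆ spectrum ℂ C := by
  intro lam hlam
  rw [spectrum.mem_iff]
  intro hu
  apply hlam
  have hW : IsUnit (C - algebraMap ℂ (H2 →L[ℂ] H2) lam) := by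
    rw [← neg_sub]; exact hu.neg
  have := essInvertible_of_unit hW (B := 0) isCompactOperator_zero
  rwa [add_zero] at this

section
variable {φ : ℂ → ℂ} {k θ : ℝ} {C : H2 →L[ℂ] H2} (G : Growth φ k θ)
include G

theorem Growth.decay (hC : IsComp φ C) {lam : ℂ} (hlam : lam ≠ 0) (h : lam ∉ essSpectrum C) :
    ∃ C' > 0, ∀ n : ℕ, ∃ K, ‖C ^ n * P K‖ ≤ C' * ‖lam‖ ^ n := by
  have h1 : EssInvertible (C - algebraMap ℂ (H2 →L[ℂ] H2) lam) := by
    by_contra h2; exact h h2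
  obtain ⟨S, hS, _⟩ := h1
  obtain ⟨K₀, s₀, hs₀, hco⟩ := coercive_adj hS
  obtain ⟨C', hC', hA⟩ := G.claimA hC hlam hs₀ (K₀ := K₀) (fun x hx => by
    have := hco x hx
    rwa [adj_sub] at this)
  have hlampos : 0 < ‖lam‖ := norm_pos_iff.2 hlam
  refine ⟨2 * C', by positivity, fun n => ?_⟩
  by_contra hcon
  push Not at hcon
  set α := ⨅ K, ‖C ^ n * P K‖ with hα
  have hbdd : BddBelow (range fun K => ‖C ^ n * P K‖) := ⟨0, by
    rintro _ ⟨K, rfl⟩; exact norm_nonneg _⟩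
  have hle : 2 * C' * ‖lam‖ ^ n ≤ α := le_ciInf fun K => (hcon K).le
  have hpos : 0 < C' * ‖lam‖ ^ n := by positivity
  have hαpos : 0 < α := by linarith
  obtain ⟨K, hK⟩ := exists_lt_of_ciInf_lt (show α < 14 / 10 * α by linarith)
  have h3 := hA n α hαpos (fun K => ciInf_le hbdd K) ⟨K, by
    have h4 : ‖C ^ n * P K‖ ^ 2 ≤ (14 / 10 * α) ^ 2 := pow_le_pow_left₀ (norm_nonneg _) hK.le 2
    nlinarith [sq_nonneg α]⟩
  linarith

theorem Growth.small_of (hC : IsComp φ C) {lam μ : ℂ} (hlam : lam ≠ 0) (h : lam ∉ essSpectrum C)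
    (hlt : ‖lam‖ < ‖μ‖) : ∃ n K, ‖C ^ (n + 1) * P K‖ < ‖μ‖ ^ (n + 1) := by
  obtain ⟨C', hC', hd⟩ := G.decay hC hlam h
  have hlampos : 0 < ‖lam‖ := norm_pos_iff.2 hlam
  have hμ : 0 < ‖μ‖ := hlampos.trans hlt
  have hr : ‖lam‖ / ‖μ‖ < 1 := by rwa [div_lt_one hμ]
  obtain ⟨n, hn⟩ := exists_pow_lt_of_lt_one (show 0 < 1 / C' by positivity) hr
  have hn1 : (‖lam‖ / ‖μ‖) ^ (n + 1) < 1 / C' := by
    refine lt_of_le_of_lt ?_ hn
    exact pow_le_pow_of_le_one (by positivity) hr.le (by omega)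
  obtain ⟨K, hK⟩ := hd (n + 1)
  refine ⟨n, K, hK.trans_lt ?_⟩
  rw [div_pow, div_lt_div_iff₀ (by positivity) hC'] at hn1
  linarith

theorem Growth.mem_of_lt (hC : IsComp φ C) {lam μ : ℂ} (hlam : lam ≠ 0) (hμ : μ ∈ essSpectrum C)
    (hlt : ‖lam‖ < ‖μ‖) : lam ∈ essSpectrum C := by
  by_contra h
  obtain ⟨n, K, hnK⟩ := G.small_of hC hlam h hlt
  exact hμ (essInvertible_of hC G.le hnK)

theorem Growth.zero_mem (hC : IsComp φ C) : (0 : ℂ) ∈ essSpectrum C := by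
  by_contra h
  have h1 : EssInvertible C := by
    have : EssInvertible (C - algebraMap ℂ (H2 →L[ℂ] H2) 0) := by
      by_contra h2; exact h h2
    rwa [map_zero, sub_zero] at this
  obtain ⟨δ, hδ, hop⟩ := ess_open h1
  obtain ⟨S, _, hS⟩ := h1
  obtain ⟨K₁, s₁, hs₁, hco⟩ := coercive hS
  have hpow : ∀ (n : ℕ) (x : H2), (∀ j < K₁, x j = 0) → ‖x‖ ≤ s₁ ^ n * ‖(C ^ n) x‖ := by
    intro n
    induction n with
    | zero => intro x _; simp
    | succ n ih =>
      intro x hx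
      have h2 := hC.low G.le hx
      have h3 := ih (C x) h2
      have h4 := hco x hx
      rw [pow_succ C, mul_apply_eq_comp]
      calc ‖x‖ ≤ s₁ * ‖C x‖ := h4
        _ ≤ s₁ * (s₁ ^ n * ‖(C ^ n) (C x)‖) := by gcongr
        _ = _ := by ring
  have hlow : ∀ n K, 1 ≤ s₁ ^ n * ‖C ^ n * P K‖ := by
    intro n K
    set m := max K K₁ with hm
    have h5 := hpow n (mon m) (fun j hj => mon_ne (by
      have : K₁ ≤ m := le_max_right _ _
      omega))
    rw [norm_mon] at h5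
    have h6 : P K (mon m) = mon m := by
      apply P_eq_self
      intro j hj
      apply mon_ne
      have : K ≤ m := le_max_left _ _
      omega
    refine h5.trans ?_
    gcongr
    have h7 := (C ^ n * P K).le_opNorm (mon m)
    rw [mul_apply_eq_comp, h6, norm_mon, mul_one] at h7
    exact h7
  set t : ℝ := min (δ / 2) (1 / (2 * s₁)) with ht
  have htpos : 0 < t := by positivity
  have ht1 : t < δ := lt_of_le_of_lt (min_le_left _ _) (by linarith)
  have ht2 : t ≤ 1 / (2 * s₁) := min_le_right _ _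
  have hnorm : ‖(t : ℂ)‖ = t := by rw [Complex.norm_real, Real.norm_of_nonneg htpos.le]
  have hnot : (t : ℂ) ∉ essSpectrum C := fun h => h (hop t (by rw [hnorm]; exact ht1))
  obtain ⟨C', hC', hd⟩ := G.decay hC (lam := (t : ℂ)) (by
    rw [← norm_pos_iff, hnorm]; exact htpos) hnot
  obtain ⟨n, hn⟩ := pow_unbounded_of_one_lt C' (show (1 : ℝ) < 2 by norm_num)
  obtain ⟨K, hK⟩ := hd n
  rw [hnorm] at hK
  have h8 := hlow n K
  have h9 : s₁ ^ n * ‖C ^ n * P K‖ ≤ C' * (1 / 2) ^ n := by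
    calc s₁ ^ n * ‖C ^ n * P K‖ ≤ s₁ ^ n * (C' * t ^ n) := by gcongr
      _ ≤ s₁ ^ n * (C' * (1 / (2 * s₁)) ^ n) := by gcongr
      _ = C' * (s₁ * (1 / (2 * s₁))) ^ n := by rw [mul_pow]; ring
      _ = C' * (1 / 2) ^ n := by
          congr 2
          field_simp
  have h10 : C' * (1 / 2) ^ n < 1 := by
    rw [one_div, inv_pow, ← div_eq_mul_inv, div_lt_one (by positivity)]
    exact hn
  linarith

theorem Growth.main0 (hC : IsComp φ C) : ∃ ρ : ℝ, 0 ≤ ρ ∧ essSpectrum C = closedBall 0 ρ ∧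
    spectrum ℂ C = closedBall 0 ρ ∪ {lam | ∃ n : ℕ, 1 ≤ n ∧ lam = (deriv φ 0) ^ n} ∪ {1} := by
  have hcl := isClosed_ess C
  have hbd : essSpectrum C ⊆ closedBall 0 ‖C‖ := by
    intro lam hlam
    have := spectrum.norm_le_norm_of_mem (ess_subset C hlam)
    simpa using this
  have hcomp : IsCompact (essSpectrum C) :=
    (isCompact_closedBall (0 : ℂ) ‖C‖).of_isClosed_subset hcl hbd
  obtain ⟨μ₀, hμ₀, hmax⟩ := hcomp.exists_isMaxOn ⟨0, G.zero_mem hC⟩ (continuous_norm.continuousOn)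
  have hmax' : ∀ μ ∈ essSpectrum C, ‖μ‖ ≤ ‖μ₀‖ := fun μ hμ => hmax hμ
  have hball : ball (0 : ℂ) ‖μ₀‖ ⊆ essSpectrum C := by
    intro lam hlam
    rcases eq_or_ne lam 0 with rfl | hne
    · exact G.zero_mem hC
    · exact G.mem_of_lt hC hne hμ₀ (by simpa using hlam)
  have hE : essSpectrum C = closedBall 0 ‖μ₀‖ := by
    apply Subset.antisymm
    · intro μ hμ
      simpa using hmax' μ hμ
    · rcases eq_or_ne ‖μ₀‖ 0 with h0 | h0
      · rw [h0, closedBall_zero]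
        intro x hx
        rw [mem_singleton_iff] at hx
        rw [hx]
        exact G.zero_mem hC
      · rw [← closure_ball (0 : ℂ) h0]
        exact closure_minimal hball hcl
  have hdiff : HasDerivAt φ (deriv φ 0) 0 :=
    (G.diff.differentiableAt (isOpen_ball.mem_nhds (mem_ball_self one_pos))).hasDerivAt
  refine ⟨‖μ₀‖, norm_nonneg _, hE, ?_⟩
  apply Subset.antisymm
  · intro lam hlam
    by_cases hin : lam ∈ closedBall (0 : ℂ) ‖μ₀‖
    · exact Or.inl (Or.inl hin)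
    · have hgt : ‖μ₀‖ < ‖lam‖ := by simpa using hin
      obtain ⟨t, ht1, ht2⟩ := exists_between hgt
      have ht0 : 0 < t := (norm_nonneg _).trans_lt ht1
      have hnorm : ‖(t : ℂ)‖ = t := by rw [Complex.norm_real, Real.norm_of_nonneg ht0.le]
      have hnot : (t : ℂ) ∉ essSpectrum C := by
        rw [hE]
        simp only [mem_closedBall, dist_zero_right, not_le]
        rw [hnorm]; exact ht1
      obtain ⟨n, K, hnK⟩ := G.small_of hC (lam := (t : ℂ)) (μ := lam) (by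
        rw [← norm_pos_iff, hnorm]; exact ht0) hnot (by rw [hnorm]; exact ht2)
      by_contra hcon
      have hne : ∀ j < K, lam ≠ (deriv φ 0) ^ j := by
        intro j _ hj
        apply hcon
        rcases Nat.eq_zero_or_pos j with h0 | h0
        · right
          rw [hj, h0]; simp
        · exact Or.inl (Or.inr ⟨j, h0, hj⟩)
      have hunit := isUnit_of hC G.le G.zero hdiff hnK hne
      rw [spectrum.mem_iff] at hlam
      apply hlam
      rw [← neg_sub]; exact hunit.neg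
  · rintro lam ((h | ⟨n, _, rfl⟩) | h)
    · rw [← hE] at h
      exact ess_subset C h
    · exact pow_mem_spectrum hC G.le G.zero hdiff n
    · rw [mem_singleton_iff] at h
      rw [h]
      have := pow_mem_spectrum hC G.le G.zero hdiff 0
      simpa using this

end

end Pool.Agent.Helper59.Hardy
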