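import Pool.Agent.Helper59.HConj
import Pool.Agent.Helper59.Spec2

/-! Composition operators with an interior fixed point: the main theorem. -/

open Complex MeasureTheory Set Filter Topology Metric
open scoped Real ComplexConjugate InnerProductSpace

namespace Pool.Agent.Helper59.Hardy

/-- a non-automorphic self-map fixing the origin has derivative of modulus `< 1` there -/
theorem norm_deriv_lt {φ : ℂ → ℂ} (hφ : DifferentiableOn ℂ φ (ball 0 1))
    (hm : MapsTo φ (ball 0 1) (ball 0 1)) (h0 : φ 0 = 0) (hb : ¬ BijOn φ (ball 0 1) (ball 0 1)) :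
    ‖deriv φ 0‖ < 1 := by
  by_contra hge
  push Not at hge
  have hmaps : MapsTo φ (ball 0 1) (closedBall (φ 0) 1) := by
    intro z hz
    rw [h0]
    exact ball_subset_closedBall (hm hz)
  have hle : ‖dslope φ 0 0‖ ≤ 1 / 1 :=
    norm_dslope_le_div_of_mapsTo_ball hφ hmaps (mem_ball_self one_pos)
  rw [dslope_same, div_one] at hle
  have heq : ‖deriv φ 0‖ = 1 := le_antisymm hle hge
  have haff := affine_of_mapsTo_ball_of_norm_dslope_eq_div (z₀ := 0) hφ hmaps
    (mem_ball_self one_pos) (by rw [dslope_same, div_one, heq])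
  have hform : EqOn φ (fun z => z * deriv φ 0) (ball 0 1) := by
    intro z hz
    rw [haff hz]
    simp [h0, dslope_same]
  have hne : deriv φ 0 ≠ 0 := by
    intro h
    rw [h, norm_zero] at heq
    norm_num at heq
  apply hb
  refine BijOn.congr ⟨?_, ?_, ?_⟩ hform.symm
  · intro z hz
    have hz' : ‖z‖ < 1 := by simpa using hz
    simpa [norm_mul, heq] using hz'
  · intro z _ z' _ h
    exact mul_right_cancel₀ hne h
  · intro z hz
    have hz' : ‖z‖ < 1 := by simpa using hz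
    refine ⟨z / deriv φ 0, ?_, ?_⟩
    · simpa [norm_div, heq] using hz'
    · exact div_mul_cancel₀ z hne

theorem radius_unique {r ρ : ℝ} {S : Set ℂ} (hS : S.Countable) (hr : 0 ≤ r)
    (h : closedBall (0 : ℂ) ρ ⊆ closedBall 0 r ∪ S) : ρ ≤ r := by
  by_contra hlt
  push Not at hlt
  have hsub : Ioc r ρ ⊆ (fun t : ℝ => (t : ℂ)) ⁻¹' S := by
    intro t ht
    have ht0 : 0 < t := lt_of_le_of_lt hr ht.1
    have h1 : (t : ℂ) ∈ closedBall (0 : ℂ) ρ := by
      simpa [abs_of_pos ht0] using ht.2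
    rcases h h1 with h2 | h2
    · exfalso
      have : t ≤ r := by simpa [abs_of_pos ht0] using h2
      linarith [ht.1]
    · exact h2
  have hc : (Ioc r ρ).Countable :=
    (hS.preimage_of_injOn (fun x _ y _ h => by exact_mod_cast h)).mono hsub
  have h0 := hc.measure_zero volume
  rw [Real.volume_Ioc, ENNReal.ofReal_eq_zero] at h0
  linarith

theorem sch_countable (a : ℂ) : ({lam : ℂ | ∃ n : ℕ, 1 ≤ n ∧ lam = a ^ n}).Countable := by
  refine (countable_range fun n : ℕ => a ^ n).mono ?_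
  rintro _ ⟨n, _, rfl⟩
  exact ⟨n, rfl⟩

theorem essInvertible_conj {U T : H2 →L[ℂ] H2} (hU : U * U = 1) (h : EssInvertible T) :
    EssInvertible (U * T * U) := by
  obtain ⟨S, h1, h2⟩ := h
  refine ⟨U * S * U, ?_, ?_⟩
  · have : U * T * U * (U * S * U) - 1 = U * (T * S - 1) * U := by
      have h3 : U * T * U * (U * S * U) = U * T * (U * U) * S * U := by simp only [mul_assoc]
      rw [h3, hU, mul_one, mul_sub, sub_mul, mul_one, hU]
      simp only [mul_assoc]
    rw [this]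
    exact (h1.comp_clm U).clm_comp U
  · have : U * S * U * (U * T * U) - 1 = U * (S * T - 1) * U := by
      have h3 : U * S * U * (U * T * U) = U * S * (U * U) * T * U := by simp only [mul_assoc]
      rw [h3, hU, mul_one, mul_sub, sub_mul, mul_one, hU]
      simp only [mul_assoc]
    rw [this]
    exact (h2.comp_clm U).clm_comp U

theorem conj_sub {U T : H2 →L[ℂ] H2} (hU : U * U = 1) (lam : ℂ) :
    U * T * U - algebraMap ℂ (H2 →L[ℂ] H2) lam
      = U * (T - algebraMap ℂ (H2 →L[ℂ] H2) lam) * U := by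
  rw [mul_sub, sub_mul, ← Algebra.commutes, mul_assoc _ U U, hU, mul_one]

theorem essSpectrum_conj {U T : H2 →L[ℂ] H2} (hU : U * U = 1) :
    essSpectrum (U * T * U) = essSpectrum T := by
  have key : ∀ T : H2 →L[ℂ] H2, essSpectrum (U * T * U) ⊆ essSpectrum T := by
    intro T lam hlam h
    apply hlam
    rw [conj_sub hU]
    exact essInvertible_conj hU h
  apply Subset.antisymm (key T)
  have h1 := key (U * T * U)
  have h2 : U * (U * T * U) * U = T := by
    have h3 : U * (U * T * U) * U = (U * U) * T * (U * U) := by simp only [mul_assoc]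
    rw [h3, hU, one_mul, mul_one]
  rwa [h2] at h1

theorem spectrum_conj {U T : H2 →L[ℂ] H2} (hU : U * U = 1) :
    spectrum ℂ (U * T * U) = spectrum ℂ T :=
  spectrum.units_conjugate (a := T) (u := ⟨U, U, hU, hU⟩)

theorem b_bijOn {w : ℂ} (hw : ‖w‖ < 1) : BijOn (b w) (ball 0 1) (ball 0 1) := by
  refine InvOn.bijOn (f' := b w) ⟨?_, ?_⟩ (mapsTo_b hw) (mapsTo_b hw)
  · intro z hz
    exact b_b hw (by simpa using hz)
  · intro z hz
    exact b_b hw (by simpa using hz)

theorem deriv_b_mul {w : ℂ} (hw : ‖w‖ < 1) : deriv (b w) w * deriv (b w) 0 = 1 := by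
  have h1 : HasDerivAt (b w) (deriv (b w) 0) 0 := (differentiableAt_b hw (by simp)).hasDerivAt
  have h2 : HasDerivAt (b w) (deriv (b w) w) (b w 0) := by
    rw [b_zero]
    exact (differentiableAt_b hw hw).hasDerivAt
  have h3 := h2.comp (0 : ℂ) h1
  have h4 : HasDerivAt (b w ∘ b w) 1 0 := by
    refine (hasDerivAt_id (0 : ℂ)).congr_of_eventuallyEq ?_
    filter_upwards [ball_mem_nhds (0 : ℂ) one_pos] with z hz
    simp only [Function.comp_apply, id]
    exact b_b hw (by simpa using hz)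
  exact h3.unique h4

/-- the main theorem -/
theorem main_theorem {φ : ℂ → ℂ} (hφ : DifferentiableOn ℂ φ (ball 0 1))
    (hm : MapsTo φ (ball 0 1) (ball 0 1)) (hb : ¬ BijOn φ (ball 0 1) (ball 0 1))
    {w : ℂ} (hw : w ∈ ball (0 : ℂ) 1) (hfix : φ w = w) :
    ∃ C : H2 →L[ℂ] H2, IsComp φ C ∧ (∀ C', IsComp φ C' → C' = C) ∧
      (∃ ρ : ℝ, 0 ≤ ρ ∧ essSpectrum C = closedBall 0 ρ ∧
        spectrum ℂ C = closedBall 0 ρ ∪ {lam | ∃ n : ℕ, 1 ≤ n ∧ lam = (deriv φ w) ^ n} ∪ {1}) ∧
      ∀ r : ℝ, 0 ≤ r →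
        spectrum ℂ C = closedBall 0 r ∪ {lam | ∃ n : ℕ, 1 ≤ n ∧ lam = (deriv φ w) ^ n} ∪ {1} →
        essSpectrum C = closedBall 0 r := by
  have hw1 : ‖w‖ < 1 := by simpa using hw
  set ψ : ℂ → ℂ := b w ∘ φ ∘ b w with hψ
  have hbm := mapsTo_b hw1
  have hψm : MapsTo ψ (ball 0 1) (ball 0 1) := hbm.comp (hm.comp hbm)
  have hψd : DifferentiableOn ℂ ψ (ball 0 1) :=
    (differentiableOn_b hw1).comp (hφ.comp (differentiableOn_b hw1) hbm) (hm.comp hbm)
  have hψ0 : ψ 0 = 0 := by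
    simp only [hψ, Function.comp_apply, b_zero, hfix, b_self]
  have hφψ : ∀ z, ‖z‖ < 1 → φ z = b w (ψ (b w z)) := by
    intro z hz
    have h1 : ‖φ z‖ < 1 := by simpa using hm (show z ∈ ball (0 : ℂ) 1 by simpa using hz)
    simp only [hψ, Function.comp_apply]
    rw [b_b hw1 hz, b_b hw1 h1]
  have hψb : ¬ BijOn ψ (ball 0 1) (ball 0 1) := by
    intro h
    apply hb
    have h1 := (b_bijOn hw1).comp (h.comp (b_bijOn hw1))
    refine h1.congr ?_
    intro z hz
    exact (hφψ z (by simpa using hz)).symm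
  have hder : deriv ψ 0 = deriv φ w := by
    have h1 : HasDerivAt (b w) (deriv (b w) 0) 0 := (differentiableAt_b hw1 (by simp)).hasDerivAt
    have h2 : HasDerivAt φ (deriv φ w) (b w 0) := by
      rw [b_zero]
      exact (hφ.differentiableAt (isOpen_ball.mem_nhds hw)).hasDerivAt
    have h3 : HasDerivAt (b w) (deriv (b w) w) ((φ ∘ b w) 0) := by
      simp only [Function.comp_apply, b_zero, hfix]
      exact (differentiableAt_b hw1 hw1).hasDerivAt
    have h4 := h3.comp (0 : ℂ) (h2.comp (0 : ℂ) h1)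
    have h5 : deriv ψ 0 = deriv (b w) w * (deriv φ w * deriv (b w) 0) := h4.deriv
    rw [h5]
    have h6 := deriv_b_mul hw1
    linear_combination (deriv φ w) * h6
  have hψm' : ∀ z, ‖z‖ < 1 → ‖ψ z‖ < 1 := fun z hz => by
    simpa using hψm (show z ∈ ball (0 : ℂ) 1 by simpa using hz)
  obtain ⟨D, hD⟩ := exists_comp0 hψd hψm' hψ0
  obtain ⟨k, θ, G⟩ := exists_growth hψd hψm' hψ0 (norm_deriv_lt hψd hψm hψ0 hψb)
  obtain ⟨ρ, hρ, hess, hspec⟩ := G.main0 hD
  obtain ⟨U, hU⟩ := exists_invol hw1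
  have hUU : U * U = 1 := by
    ext1 f
    apply ext_ev
    intro z hz
    rw [mul_apply_eq_comp, hU _ z hz, hU _ _ (norm_b_lt hw1 hz), b_b hw1 hz]
    rfl
  set C := U * D * U with hC
  have hCc : IsComp φ C := by
    intro f z hz
    have h1 := norm_b_lt hw1 hz
    rw [hC, mul_apply_eq_comp, mul_apply_eq_comp, hU _ z hz, hD _ _ h1, hU _ _ (hψm' _ h1),
      ← hφψ z hz]
  have hess' : essSpectrum C = closedBall 0 ρ := by rw [hC, essSpectrum_conj hUU, hess]
  have hspec' : spectrum ℂ C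
      = closedBall 0 ρ ∪ {lam | ∃ n : ℕ, 1 ≤ n ∧ lam = (deriv φ w) ^ n} ∪ {1} := by
    rw [hC, spectrum_conj hUU, hspec, hder]
  refine ⟨C, hCc, ?_, ⟨ρ, hρ, hess', hspec'⟩, ?_⟩
  · intro C' hC'
    ext1 f
    apply ext_ev
    intro z hz
    rw [hC' f z hz, hCc f z hz]
  · intro r hr h
    have hcount : ({lam | ∃ n : ℕ, 1 ≤ n ∧ lam = (deriv φ w) ^ n} ∪ {1} : Set ℂ).Countable :=
      (sch_countable _).union (countable_singleton _)
    have h1 : closedBall (0 : ℂ) ρ ∪ ({lam | ∃ n : ℕ, 1 ≤ n ∧ lam = (deriv φ w) ^ n} ∪ {1})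
        = closedBall 0 r ∪ ({lam | ∃ n : ℕ, 1 ≤ n ∧ lam = (deriv φ w) ^ n} ∪ {1}) := by
      rw [← union_assoc, ← union_assoc, ← h, ← hspec']
    have h2 : ρ ≤ r := radius_unique hcount hr (h1 ▸ subset_union_left)
    have h3 : r ≤ ρ := radius_unique hcount hρ (h1.symm ▸ subset_union_left)
    rw [hess', le_antisymm h2 h3]

end Pool.Agent.Helper59.Hardy
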