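import Mathlib
import Pool.Agent.Helper59.HardyDefs

/-! The essential spectrum, in terms of the ring of bounded operators. -/

namespace Pool.Agent.Helper59.Hardy

/-- `A` is invertible modulo the compact operators. -/
def EssInvertible (A : Op) : Prop :=
  ∃ S : Op, IsCompactOperator (A * S - 1 : H2 →L[ℂ] H2) ∧
    IsCompactOperator (S * A - 1 : H2 →L[ℂ] H2)

/-- The essential spectrum. -/
def essSpectrum (A : Op) : Set ℂ :=
  {lam | ¬ EssInvertible (A - algebraMap ℂ (H2 →L[ℂ] H2) lam)}

theorem shift_eq (A : Op) (lam : ℂ) (f : H2) :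
    shift A lam f = (A - algebraMap ℂ (H2 →L[ℂ] H2) lam) f := by
  rw [Algebra.algebraMap_eq_smul_one]
  rfl

theorem essSpec_eq (A : Op) : essSpec A = essSpectrum A := by
  ext lam
  unfold essSpec essSpectrum EssInvertible
  simp only [Set.mem_ofPred_eq]
  apply not_congr
  apply exists_congr
  intro S
  have h1 : (fun f => S (shift A lam f) - f)
      = ⇑(S * (A - algebraMap ℂ (H2 →L[ℂ] H2) lam) - 1 : H2 →L[ℂ] H2) := by
    ext1 f
    rw [shift_eq]
    rfl
  have h2 : (fun f => shift A lam (S f) - f)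
      = ⇑((A - algebraMap ℂ (H2 →L[ℂ] H2) lam) * S - 1 : H2 →L[ℂ] H2) := by
    ext1 f
    rw [shift_eq]
    rfl
  rw [h1, h2]
  exact and_comm

theorem spec_eq (A : Op) : spec A = spectrum ℂ A := by
  ext lam
  rw [spectrum.mem_iff, ← neg_sub, IsUnit.neg_iff]
  unfold spec
  simp only [Set.mem_ofPred_eq]
  apply not_congr
  constructor
  · rintro ⟨S, hS⟩
    have h1 : S * (A - algebraMap ℂ (H2 →L[ℂ] H2) lam) = 1 := by
      ext1 f
      have := (hS f).1
      rw [shift_eq] at this
      exact this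
    have h2 : (A - algebraMap ℂ (H2 →L[ℂ] H2) lam) * S = 1 := by
      ext1 f
      have := (hS f).2
      rw [shift_eq] at this
      exact this
    exact ⟨⟨_, S, h2, h1⟩, rfl⟩
  · rintro ⟨u, hu⟩
    refine ⟨(↑u⁻¹ : H2 →L[ℂ] H2), fun f => ?_⟩
    rw [shift_eq, shift_eq, ← hu]
    constructor
    · have h := u.inv_mul
      exact congrArg (fun T : H2 →L[ℂ] H2 => T f) h
    · have h := u.mul_inv
      exact congrArg (fun T : H2 →L[ℂ] H2 => T f) h

end Pool.Agent.Helper59.Hardy
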