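import Mathlib

/-! The Heisenberg group and its lattices `Γ L = {(a, L b, c)}`. -/

namespace Pool.Agent.Helper59.NilMin

open Set Topology Filter
open scoped Manifold ContDiff

/-- The real Heisenberg group, with underlying space `ℝ × ℝ × ℝ`. -/
def Heis : Type := ℝ × ℝ × ℝ

instance : TopologicalSpace Heis := inferInstanceAs (TopologicalSpace (ℝ × ℝ × ℝ))
instance : PolishSpace Heis := inferInstanceAs (PolishSpace (ℝ × ℝ × ℝ))
instance : T2Space Heis := inferInstanceAs (T2Space (ℝ × ℝ × ℝ))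
instance : ContractibleSpace Heis := inferInstanceAs (ContractibleSpace (ℝ × ℝ × ℝ))
instance : ChartedSpace (ℝ × ℝ × ℝ) Heis :=
  inferInstanceAs (ChartedSpace (ℝ × ℝ × ℝ) (ℝ × ℝ × ℝ))

/-- the element `(x, y, z)` -/
def H (x y z : ℝ) : Heis := (x, y, z)

noncomputable instance : Group Heis where
  mul p q := (p.1 + q.1, p.2.1 + q.2.1, p.2.2 + q.2.2 + p.1 * q.2.1)
  one := ((0 : ℝ), (0 : ℝ), (0 : ℝ))
  inv p := (-p.1, -p.2.1, -p.2.2 + p.1 * p.2.1)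
  mul_assoc p q r := by
    change ((_ : ℝ), (_ : ℝ), (_ : ℝ)) = (_, _, _)
    refine Prod.ext ?_ (Prod.ext ?_ ?_)
    · change p.1 + q.1 + r.1 = p.1 + (q.1 + r.1); ring
    · change p.2.1 + q.2.1 + r.2.1 = p.2.1 + (q.2.1 + r.2.1); ring
    · change p.2.2 + q.2.2 + p.1 * q.2.1 + r.2.2 + (p.1 + q.1) * r.2.1 =
        p.2.2 + (q.2.2 + r.2.2 + q.1 * r.2.1) + p.1 * (q.2.1 + r.2.1)
      ring
  one_mul p := by
    refine Prod.ext ?_ (Prod.ext ?_ ?_)
    · change 0 + p.1 = p.1; ring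
    · change 0 + p.2.1 = p.2.1; ring
    · change 0 + p.2.2 + 0 * p.2.1 = p.2.2; ring
  mul_one p := by
    refine Prod.ext ?_ (Prod.ext ?_ ?_)
    · change p.1 + 0 = p.1; ring
    · change p.2.1 + 0 = p.2.1; ring
    · change p.2.2 + 0 + p.1 * 0 = p.2.2; ring
  inv_mul_cancel p := by
    refine Prod.ext ?_ (Prod.ext ?_ ?_)
    · change -p.1 + p.1 = 0; ring
    · change -p.2.1 + p.2.1 = 0; ring
    · change -p.2.2 + p.1 * p.2.1 + p.2.2 + (-p.1) * p.2.1 = 0; ring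

theorem H_mul (x y z x' y' z' : ℝ) :
    H x y z * H x' y' z' = H (x + x') (y + y') (z + z' + x * y') := rfl

theorem H_one : (1 : Heis) = H 0 0 0 := rfl

theorem H_inv (x y z : ℝ) : (H x y z)⁻¹ = H (-x) (-y) (-z + x * y) := rfl

theorem H_inj {x y z x' y' z' : ℝ} : H x y z = H x' y' z' ↔ x = x' ∧ y = y' ∧ z = z' := by
  constructor
  · intro h
    exact ⟨congrArg (fun p : ℝ × ℝ × ℝ => p.1) h, congrArg (fun p : ℝ × ℝ × ℝ => p.2.1) h,
      congrArg (fun p : ℝ × ℝ × ℝ => p.2.2) h⟩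
  · rintro ⟨rfl, rfl, rfl⟩; rfl

theorem exists_H (g : Heis) : ∃ x y z, g = H x y z := ⟨g.1, g.2.1, g.2.2, rfl⟩

theorem continuous_H : Continuous fun p : ℝ × ℝ × ℝ => H p.1 p.2.1 p.2.2 := continuous_id

theorem continuous_H' {X : Type*} [TopologicalSpace X] {f g h : X → ℝ} (hf : Continuous f)
    (hg : Continuous g) (hh : Continuous h) : Continuous fun x => H (f x) (g x) (h x) :=
  hf.prodMk (hg.prodMk hh)

instance : LieGroup 𝓘(ℝ, ℝ × ℝ × ℝ) ⊤ Heis where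
  toIsManifold := inferInstanceAs (IsManifold 𝓘(ℝ, ℝ × ℝ × ℝ) ⊤ (ℝ × ℝ × ℝ))
  contMDiff_mul := by
    have h : ContDiff ℝ ⊤ (fun p : (ℝ × ℝ × ℝ) × (ℝ × ℝ × ℝ) =>
        (p.1.1 + p.2.1, p.1.2.1 + p.2.2.1, p.1.2.2 + p.2.2.2 + p.1.1 * p.2.2.1)) := by
      fun_prop
    have h2 := h.contMDiff
    rw [modelWithCornersSelf_prod, ← chartedSpaceSelf_prod] at h2
    exact h2
  contMDiff_inv := by
    have h : ContDiff ℝ ⊤ (fun p : (ℝ × ℝ × ℝ) =>
        (-p.1, -p.2.1, -p.2.2 + p.1 * p.2.1)) := by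
      fun_prop
    exact h.contMDiff

instance : IsTopologicalGroup Heis where
  continuous_mul := by
    have : Continuous (fun p : (ℝ × ℝ × ℝ) × (ℝ × ℝ × ℝ) =>
        (p.1.1 + p.2.1, p.1.2.1 + p.2.2.1, p.1.2.2 + p.2.2.2 + p.1.1 * p.2.2.1)) := by
      fun_prop
    exact this
  continuous_inv := by
    have : Continuous (fun p : (ℝ × ℝ × ℝ) => (-p.1, -p.2.1, -p.2.2 + p.1 * p.2.1)) := by
      fun_prop
    exact this

instance : Group.IsNilpotent Heis := by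
  let f : Heis →* Multiplicative (ℝ × ℝ) :=
    { toFun := fun p => Multiplicative.ofAdd (p.1, p.2.1)
      map_one' := rfl
      map_mul' := fun p q => rfl }
  apply Subgroup.isNilpotent_of_ker_le_center f
  intro p hp
  rw [MonoidHom.mem_ker] at hp
  obtain ⟨x, y, z, rfl⟩ := exists_H p
  have h1 : x = 0 := congrArg (fun q : Multiplicative (ℝ × ℝ) => q.toAdd.1) hp
  have h2 : y = 0 := congrArg (fun q : Multiplicative (ℝ × ℝ) => q.toAdd.2) hp
  subst h1 h2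
  rw [Subgroup.mem_center_iff]
  intro q
  obtain ⟨x', y', z', rfl⟩ := exists_H q
  rw [H_mul, H_mul, H_inj]
  refine ⟨?_, ?_, ?_⟩ <;> ring

/-- The lattice `{(a, L b, c) : a, b, c ∈ ℤ}`. -/
def Γ (L : ℕ) : Subgroup Heis where
  carrier := {g | ∃ a b c : ℤ, g = H a (L * b) c}
  one_mem' := ⟨0, 0, 0, by rw [H_one, H_inj]; simp⟩
  mul_mem' := by
    rintro _ _ ⟨a, b, c, rfl⟩ ⟨a', b', c', rfl⟩
    refine ⟨a + a', b + b', c + c' + a * (L * b'), ?_⟩
    rw [H_mul, H_inj]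
    push_cast
    refine ⟨?_, ?_, ?_⟩ <;> ring
  inv_mem' := by
    rintro _ ⟨a, b, c, rfl⟩
    refine ⟨-a, -b, -c + a * (L * b), ?_⟩
    rw [H_inv, H_inj]
    push_cast
    refine ⟨?_, ?_, ?_⟩ <;> ring

theorem mem_Γ {L : ℕ} {g : Heis} : g ∈ Γ L ↔ ∃ a b c : ℤ, g = H a (L * b) c := Iff.rfl

/-- the projection to the quotient -/
noncomputable def P (L : ℕ) (x y z : ℝ) : Heis ⧸ Γ L := (H x y z : Heis)

theorem continuous_P {X : Type*} [TopologicalSpace X] {L : ℕ} {f g h : X → ℝ} (hf : Continuous f)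
    (hg : Continuous g) (hh : Continuous h) : Continuous fun x => P L (f x) (g x) (h x) :=
  QuotientGroup.continuous_mk.comp (continuous_H' hf hg hh)

theorem exists_P {L : ℕ} (p : Heis ⧸ Γ L) : ∃ x y z, p = P L x y z := by
  obtain ⟨g, rfl⟩ := QuotientGroup.mk_surjective p
  obtain ⟨x, y, z, rfl⟩ := exists_H g
  exact ⟨x, y, z, rfl⟩

theorem H_smul_P {L : ℕ} (x y z x' y' z' : ℝ) :
    H x y z • P L x' y' z' = P L (x + x') (y + y') (z + z' + x * y') := rfl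

theorem P_eq_iff {L : ℕ} {x y z x' y' z' : ℝ} :
    P L x y z = P L x' y' z' ↔ ∃ a b c : ℤ, x' = x + a ∧ y' = y + L * b ∧ z' = z + c + x * (L * b) := by
  unfold P
  rw [QuotientGroup.eq, mem_Γ]
  constructor
  · rintro ⟨a, b, c, h⟩
    refine ⟨a, b, c, ?_⟩
    rw [inv_mul_eq_iff_eq_mul, H_mul, H_inj] at h
    exact h
  · rintro ⟨a, b, c, h⟩
    refine ⟨a, b, c, ?_⟩
    rw [inv_mul_eq_iff_eq_mul, H_mul, H_inj]
    exact h

theorem P_shift {L : ℕ} (x y z : ℝ) (a b c : ℤ) :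
    P L (x + a) (y + L * b) (z + c + x * (L * b)) = P L x y z :=
  (P_eq_iff.2 ⟨a, b, c, rfl, rfl, rfl⟩).symm

end Pool.Agent.Helper59.NilMin
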