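import Mathlib
import Pool.Agent.Helper59.HeisDefs

/-! Topological facts on the nilmanifolds `Heis ⧸ Γ L`. -/

namespace Pool.Agent.Helper59.NilMin

open Set Topology Filter

theorem isClosed_Γ {L : ℕ} (hL : 0 < L) : IsClosed (Γ L : Set Heis) := by
  have hR : IsClosed (range ((↑) : ℤ → ℝ)) := Int.isClosedEmbedding_coe_real.isClosed_range
  have h : (Γ L : Set Heis) = (fun g : Heis => g.1) ⁻¹' (range ((↑) : ℤ → ℝ)) ∩
      ((fun g : Heis => g.2.1 / L) ⁻¹' (range ((↑) : ℤ → ℝ)) ∩
      (fun g : Heis => g.2.2) ⁻¹' (range ((↑) : ℤ → ℝ))) := by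
    have hL' : (L : ℝ) ≠ 0 := by positivity
    ext g
    obtain ⟨x, y, z, rfl⟩ := exists_H g
    constructor
    · rintro ⟨a, b, c, h⟩
      rw [H_inj] at h
      obtain ⟨rfl, rfl, rfl⟩ := h
      refine ⟨⟨a, rfl⟩, ⟨b, ?_⟩, ⟨c, rfl⟩⟩
      change (b : ℝ) = L * b / L
      field_simp
    · rintro ⟨⟨a, ha⟩, ⟨b, hb⟩, ⟨c, hc⟩⟩
      change (a : ℝ) = x at ha
      change (b : ℝ) = y / L at hb
      change (c : ℝ) = z at hc
      refine ⟨a, b, c, ?_⟩
      rw [H_inj]
      refine ⟨ha.symm, ?_, hc.symm⟩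
      rw [hb]; field_simp
  rw [h]
  have c1 : Continuous fun g : Heis => g.1 := continuous_fst
  have c2 : Continuous fun g : Heis => g.2.1 / (L : ℝ) :=
    (continuous_fst.comp continuous_snd).div_const (L : ℝ)
  have c3 : Continuous fun g : Heis => g.2.2 := continuous_snd.comp continuous_snd
  exact (hR.preimage c1).inter ((hR.preimage c2).inter (hR.preimage c3))

theorem t2_quot {L : ℕ} (hL : 0 < L) : T2Space (Heis ⧸ Γ L) := by
  have := isClosed_Γ hL
  infer_instance

theorem int_eq_zero_of_abs_lt {a : ℤ} (h : |(a : ℝ)| < 1) : a = 0 := by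
  rw [← Int.cast_abs] at h
  have : |a| < 1 := by exact_mod_cast h
  exact Int.abs_lt_one_iff.1 this

theorem discrete_Γ {L : ℕ} (hL : 0 < L) : DiscreteTopology (Γ L) := by
  apply discreteTopology_of_isOpen_singleton_one
  have c1 : Continuous fun g : Heis => |g.1| := (continuous_fst : Continuous fun g : ℝ × ℝ × ℝ => g.1).abs
  have c2 : Continuous fun g : Heis => |g.2.1| :=
    (continuous_fst.comp continuous_snd : Continuous fun g : ℝ × ℝ × ℝ => g.2.1).abs
  have c3 : Continuous fun g : Heis => |g.2.2| :=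
    (continuous_snd.comp continuous_snd : Continuous fun g : ℝ × ℝ × ℝ => g.2.2).abs
  have hO : IsOpen {g : Heis | |g.1| < 1 ∧ |g.2.1| < 1 ∧ |g.2.2| < 1} :=
    (isOpen_lt c1 continuous_const).inter ((isOpen_lt c2 continuous_const).inter
      (isOpen_lt c3 continuous_const))
  have : ({1} : Set (Γ L)) = Subtype.val ⁻¹' {g : Heis | |g.1| < 1 ∧ |g.2.1| < 1 ∧ |g.2.2| < 1} := by
    ext ⟨g, hg⟩
    simp only [mem_singleton_iff, mem_preimage]
    constructor
    · intro h
      have h1 : g = 1 := congrArg Subtype.val h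
      rw [h1, H_one]
      simp [H]
    · obtain ⟨a, b, c, rfl⟩ := mem_Γ.1 hg
      rintro ⟨h1, h2, h3⟩
      change |(a : ℝ)| < 1 at h1
      change |(L * b : ℝ)| < 1 at h2
      change |(c : ℝ)| < 1 at h3
      have ha := int_eq_zero_of_abs_lt h1
      have hc := int_eq_zero_of_abs_lt h3
      have hb : b = 0 := by
        apply int_eq_zero_of_abs_lt
        rw [abs_mul, Nat.abs_cast] at h2
        have : (1 : ℝ) ≤ L := by exact_mod_cast hL
        nlinarith [abs_nonneg (b : ℝ)]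
      subst ha hb hc
      apply Subtype.ext
      change H _ _ _ = 1
      rw [H_one, H_inj]
      simp
  rw [this]
  exact hO.preimage continuous_subtype_val

theorem compact_quot {L : ℕ} (hL : 0 < L) : CompactSpace (Heis ⧸ Γ L) := by
  have hK : IsCompact ((Icc (0:ℝ) 1) ×ˢ ((Icc (0:ℝ) L) ×ˢ (Icc (0:ℝ) 1))) :=
    isCompact_Icc.prod (isCompact_Icc.prod isCompact_Icc)
  have hc : Continuous fun p : ℝ × ℝ × ℝ => P L p.1 p.2.1 p.2.2 :=
    continuous_P continuous_fst (continuous_fst.comp continuous_snd)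
      (continuous_snd.comp continuous_snd)
  constructor
  have : (univ : Set (Heis ⧸ Γ L)) = (fun p : ℝ × ℝ × ℝ => P L p.1 p.2.1 p.2.2) ''
      ((Icc (0:ℝ) 1) ×ˢ ((Icc (0:ℝ) L) ×ˢ (Icc (0:ℝ) 1))) := by
    symm
    rw [eq_univ_iff_forall]
    intro p
    obtain ⟨x, y, z, rfl⟩ := exists_P p
    have hL' : (0 : ℝ) < L := by exact_mod_cast hL
    set a := -⌊x⌋ with ha
    set b := -⌊y / L⌋ with hb
    set w := z + x * (L * b) with hw
    set c := -⌊w⌋ with hc
    refine ⟨(x + a, y + L * b, z + c + x * (L * b)), ?_, P_shift x y z a b c⟩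
    refine ⟨?_, ?_, ?_⟩
    · change x + a ∈ Icc (0:ℝ) 1
      rw [ha]; push_cast
      exact ⟨by linarith [Int.floor_le x], by linarith [Int.lt_floor_add_one x]⟩
    · change y + L * b ∈ Icc (0:ℝ) L
      rw [hb]; push_cast
      have h1 := Int.floor_le (y / L)
      have h2 := Int.lt_floor_add_one (y / L)
      rw [le_div_iff₀ hL'] at h1
      rw [div_lt_iff₀ hL'] at h2
      exact ⟨by linarith, by linarith⟩
    · change z + c + x * (L * b) ∈ Icc (0:ℝ) 1
      have : z + c + x * (L * b) = w - ⌊w⌋ := by rw [hc, hw]; push_cast; ring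
      rw [this]
      exact ⟨by linarith [Int.floor_le w], by linarith [Int.lt_floor_add_one w]⟩
  rw [this]
  exact hK.image hc

end Pool.Agent.Helper59.NilMin
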