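import Mathlib
import Pool.Agent.Helper59.CircleExt
import Pool.Agent.Helper59.Fourier1

/-! Minimality of an irrational rotation of the two-torus, in the form of closed invariant
subsets of the plane. -/

namespace Pool.Agent.Helper59.NilMin

open Set Topology Filter

theorem line_min {α : ℝ} (hα : Irrational α) {D : Set ℝ} (hD : IsClosed D) (hne : D.Nonempty)
    (h1 : ∀ x, x + 1 ∈ D ↔ x ∈ D) (h2 : ∀ x, x + α ∈ D ↔ x ∈ D) : D = univ := by
  obtain ⟨x₀, hx₀⟩ := hne
  have hd : Dense (AddSubgroup.closure {α, 1} : Set ℝ) := by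
    rw [dense_addSubgroupClosure_pair_iff]
    simpa using hα
  let S : AddSubgroup ℝ :=
    { carrier := {t | ∀ x, x + t ∈ D ↔ x ∈ D}
      zero_mem' := by intro x; simp
      add_mem' := by
        intro s t hs ht x
        rw [← add_assoc]
        exact (ht _).trans (hs _)
      neg_mem' := by
        intro t ht x
        rw [← ht (x + -t)]
        simp }
  have hS : AddSubgroup.closure {α, 1} ≤ S := by
    rw [AddSubgroup.closure_le]
    intro t ht
    rcases ht with rfl | ht
    · exact h2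
    · rw [mem_singleton_iff] at ht
      subst ht
      exact h1
  rw [← hD.closure_eq]
  apply Dense.closure_eq
  have h3 : Dense ((fun t => x₀ + t) '' (AddSubgroup.closure {α, 1} : Set ℝ)) :=
    (Homeomorph.addLeft x₀).surjective.denseRange.dense_image (by fun_prop) hd
  apply h3.mono
  rintro _ ⟨t, ht, rfl⟩
  exact (hS ht x₀).2 hx₀

/-- the torus -/
abbrev Tor := UnitAddCircle × UnitAddCircle

theorem torus_min' {α γ : ℝ} (hα : Irrational α)
    (hind : ∀ n k l : ℤ, k ≠ 0 → n * α + k * γ ≠ l) {C : Set Tor} (hC : IsClosed C)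
    (hne : C.Nonempty)
    (hT : (fun p : Tor => (p.1 + (α : UnitAddCircle), p.2 + (γ : UnitAddCircle))) ⁻¹' C = C) :
    C = univ := by
  by_contra hCu
  set T : Tor → Tor := fun p : Tor => (p.1 + (α : UnitAddCircle), p.2 + (γ : UnitAddCircle)) with hTdef
  set ρ : ℝ → Tor → Tor := fun t p => (p.1, p.2 + (t : UnitAddCircle)) with hρ
  have hcoe : Continuous fun t : ℝ => (t : UnitAddCircle) := AddCircle.continuous_mk' 1
  have h1 : ((1 : ℝ) : UnitAddCircle) = 0 := AddCircle.coe_period 1
  have hcoe1 : ∀ x : ℝ, ((x + 1 : ℝ) : UnitAddCircle) = x := by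
    intro x
    rw [AddCircle.coe_add, h1, add_zero]
  obtain ⟨k, hk, F, hFc, hF1, hFT, hFρ⟩ := circle_ext T ρ (by
      rw [hρ]
      have := hcoe.comp (continuous_fst : Continuous fun p : ℝ × Tor => p.1)
      exact (continuous_fst.comp continuous_snd).prodMk
        ((continuous_snd.comp continuous_snd).add this)) (by
      intro x; simp [hρ]) (by
      intro s t x
      simp only [hρ, AddCircle.coe_add]
      rw [add_comm (s : UnitAddCircle), add_assoc]) (by
      intro x
      simp only [hρ, h1, add_zero]) (by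
      intro t x
      simp only [hρ, hTdef]
      rw [add_assoc, add_assoc, add_comm (t : UnitAddCircle)]) (by
      intro C hC hne hT hρC
      have hD : {x : ℝ | ((x : UnitAddCircle), (0 : UnitAddCircle)) ∈ C} = univ := by
        apply line_min hα
        · exact hC.preimage (hcoe.prodMk continuous_const)
        · obtain ⟨⟨x, y⟩, hxy⟩ := hne
          obtain ⟨x, rfl⟩ := QuotientAddGroup.mk_surjective x
          obtain ⟨y, rfl⟩ := QuotientAddGroup.mk_surjective y
          refine ⟨x, ?_⟩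
          rw [mem_ofPred_eq, ← hρC y]
          change (_, 0 + (y : UnitAddCircle)) ∈ C
          rw [zero_add]; exact hxy
        · intro x
          rw [mem_ofPred_eq, mem_ofPred_eq, hcoe1]
        · intro x
          rw [mem_ofPred_eq, mem_ofPred_eq, AddCircle.coe_add]
          have h6 : ((x : UnitAddCircle) + (α : UnitAddCircle), (0 : UnitAddCircle)) ∈ C ↔
              ((x : UnitAddCircle) + (α : UnitAddCircle), (0 : UnitAddCircle)) ∈ ρ γ ⁻¹' C := by
            rw [hρC]
          have h7 : ((x : UnitAddCircle), (0 : UnitAddCircle)) ∈ C ↔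
              ((x : UnitAddCircle), (0 : UnitAddCircle)) ∈ T ⁻¹' C := by rw [hT]
          rw [h6, h7]
          simp only [mem_preimage, hTdef, hρ]
      rw [eq_univ_iff_forall]
      rintro ⟨x, y⟩
      obtain ⟨x, rfl⟩ := QuotientAddGroup.mk_surjective x
      obtain ⟨y, rfl⟩ := QuotientAddGroup.mk_surjective y
      have h2 : x ∈ {x : ℝ | ((x : UnitAddCircle), (0 : UnitAddCircle)) ∈ C} := by
        rw [hD]; trivial
      rw [mem_ofPred_eq, ← hρC y] at h2
      change (_, 0 + (y : UnitAddCircle)) ∈ C at h2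
      rw [zero_add] at h2; exact h2) hC hne hT hCu
  set h : ℝ → ℂ := fun x => F ((x : UnitAddCircle), 0) with hh
  have hhc : Continuous h := hFc.comp (hcoe.prodMk continuous_const)
  have hper : ∀ x, h (x + 1) = h x := by
    intro x; simp only [hh]; rw [hcoe1]
  have hα : ∀ x, h x = e (k * γ) * h (x + α) := by
    intro x
    simp only [hh]
    have h2 := hFρ γ (((x + α : ℝ) : UnitAddCircle), 0)
    have h3 := hFT ((x : UnitAddCircle), 0)
    have h4 : T ((x : UnitAddCircle), 0) = ρ γ (((x + α : ℝ) : UnitAddCircle), 0) := by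
      simp only [hTdef, hρ, AddCircle.coe_add]
    rw [← h3, h4, h2]
    congr 1
    unfold e
    congr 1
    push_cast; ring
  have hcf : ∀ n, cf h n = 0 := by
    intro n
    have h5 := cf_translate hper α n
    have h6 : cf h n = e (k * γ) * cf (fun x => h (x + α)) n := by
      rw [← cf_const_mul]
      congr 1
      ext x
      exact hα x
    rw [h5] at h6
    by_contra hne0
    have h7 : e (n * α + k * γ) = 1 := by
      rw [e_add]
      apply mul_right_cancel₀ hne0
      rw [one_mul]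
      conv_rhs => rw [h6]
      ring
    obtain ⟨l, hl⟩ := e_eq_one_iff.1 h7
    exact hind n k l (by exact_mod_cast hk.ne') (by exact_mod_cast hl)
  have h8 := eq_zero_of_cf hhc hper hcf 0
  have h9 := hF1 (((0:ℝ) : UnitAddCircle), 0)
  simp only [hh] at h8
  rw [h8] at h9
  simp at h9

theorem torus_min {α γ : ℝ} (hα : Irrational α)
    (hind : ∀ n k l : ℤ, k ≠ 0 → n * α + k * γ ≠ l) {D : Set (ℝ × ℝ)} (hD : IsClosed D)
    (hne : D.Nonempty)
    (h1 : ∀ x y, (x + 1, y) ∈ D ↔ (x, y) ∈ D) (h2 : ∀ x y, (x, y + 1) ∈ D ↔ (x, y) ∈ D)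
    (h3 : ∀ x y, (x + α, y + γ) ∈ D ↔ (x, y) ∈ D) : D = univ := by
  have hcoe : Continuous fun t : ℝ => (t : UnitAddCircle) := AddCircle.continuous_mk' 1
  have hcoei : ∀ (x y : ℝ), (x : UnitAddCircle) = y → ∃ n : ℤ, x = y + n := by
    intro x y hxy
    obtain ⟨n, hn⟩ := AddCircle.coe_eq_zero_iff (p := (1:ℝ)) (x := x - y) |>.1 (by
      rw [AddCircle.coe_sub, hxy, sub_self])
    refine ⟨n, ?_⟩
    simp at hn
    linarith
  have h1n : ∀ (n : ℕ) (x y : ℝ), (x + n, y) ∈ D ↔ (x, y) ∈ D := by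
    intro n
    induction n with
    | zero => intro x y; simp
    | succ n ih => intro x y; rw [Nat.cast_succ, ← add_assoc, h1, ih]
  have h2n : ∀ (n : ℕ) (x y : ℝ), (x, y + n) ∈ D ↔ (x, y) ∈ D := by
    intro n
    induction n with
    | zero => intro x y; simp
    | succ n ih => intro x y; rw [Nat.cast_succ, ← add_assoc, h2, ih]
  have h1z : ∀ (n : ℤ) (x y : ℝ), (x + n, y) ∈ D ↔ (x, y) ∈ D := by
    intro n x y
    rcases Int.eq_nat_or_neg n with ⟨j, rfl | rfl⟩
    · exact_mod_cast h1n j x y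
    · rw [← h1n j (x + ((-(j:ℤ) : ℤ) : ℝ)) y]
      simp
  have h2z : ∀ (n : ℤ) (x y : ℝ), (x, y + n) ∈ D ↔ (x, y) ∈ D := by
    intro n x y
    rcases Int.eq_nat_or_neg n with ⟨j, rfl | rfl⟩
    · exact_mod_cast h2n j x y
    · rw [← h2n j x (y + ((-(j:ℤ) : ℤ) : ℝ))]
      simp
  set q : ℝ × ℝ → Tor := Prod.map (fun t : ℝ => (t : UnitAddCircle)) (fun t : ℝ => (t : UnitAddCircle))
    with hq
  have hqq : IsOpenQuotientMap q :=
    (QuotientAddGroup.isOpenQuotientMap_mk).prodMap (QuotientAddGroup.isOpenQuotientMap_mk)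
  have hpre : q ⁻¹' (q '' D) = D := by
    apply Subset.antisymm _ (subset_preimage_image _ _)
    rintro ⟨x, y⟩ ⟨⟨x', y'⟩, hd, heq⟩
    simp only [hq, Prod.map_apply, Prod.mk.injEq] at heq
    obtain ⟨n, hn⟩ := hcoei _ _ heq.1
    obtain ⟨m, hm⟩ := hcoei _ _ heq.2
    subst hn hm
    rwa [h1z, h2z] at hd
  have hcl : IsClosed (q '' D) := by
    rw [← hqq.isQuotientMap.isClosed_preimage, hpre]
    exact hD
  have huniv : q '' D = univ := by
    apply torus_min' hα hind hcl (hne.image _)
    ext ⟨x, y⟩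
    obtain ⟨x, rfl⟩ := QuotientAddGroup.mk_surjective x
    obtain ⟨y, rfl⟩ := QuotientAddGroup.mk_surjective y
    have e1 : ((x, y) : ℝ × ℝ) ∈ q ⁻¹' (q '' D) ↔ (x, y) ∈ D := by rw [hpre]
    have e2 : ((x + α, y + γ) : ℝ × ℝ) ∈ q ⁻¹' (q '' D) ↔ (x + α, y + γ) ∈ D := by rw [hpre]
    exact e2.trans ((h3 x y).trans e1.symm)
  rw [← hpre, huniv, preimage_univ]

end Pool.Agent.Helper59.NilMin
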