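import Mathlib
import Pool.Agent.Helper59.Fourier1

/-! Vanishing of functions with non-zero vertical frequency. -/

namespace Pool.Agent.Helper59.NilMin

open Set Topology Filter Complex MeasureTheory

theorem continuous_cf {g : ℝ → ℝ → ℂ} (hc : Continuous fun p : ℝ × ℝ => g p.1 p.2) (n : ℤ) :
    Continuous fun y => cf (fun x => g x y) n := by
  unfold cf
  apply intervalIntegral.continuous_parametric_intervalIntegral_of_continuous'
  have h1 : Continuous fun p : ℝ × ℝ => e (-(n * p.2)) := continuous_e.comp (by fun_prop)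
  have h2 : Continuous fun p : ℝ × ℝ => g p.2 p.1 := hc.comp (by fun_prop : Continuous fun p : ℝ × ℝ => (p.2, p.1))
  exact h1.mul h2

theorem vert {g : ℝ → ℝ → ℂ} (hc : Continuous fun p : ℝ × ℝ => g p.1 p.2)
    (hx : ∀ x y, g (x + 1) y = g x y) {k : ℤ} (hk : k ≠ 0) {L : ℕ} (hL : 0 < L)
    (hy : ∀ x y, g x (y + L) = e (-(k * L * x)) * g x y) {α β : ℝ} (hβ : 0 < β)
    {lam : ℂ} (hl : ‖lam‖ = 1)
    (hT : ∀ x y, e (k * α * y) * g (x + α) (y + β) = lam * g x y) : ∀ x y, g x y = 0 := by
  have hgy : ∀ y, Continuous fun x => g x y := fun y =>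
    hc.comp (by fun_prop : Continuous fun x : ℝ => (x, y))
  suffices hmain : ∀ n y, cf (fun x => g x y) n = 0 by
    intro x y
    exact eq_zero_of_cf (hgy y) (fun x => hx x y) (fun n => hmain n y) x
  intro n
  set G : ℤ → ℝ → ℝ := fun n y => ‖cf (fun x => g x y) n‖ ^ 2 with hG
  have hGc : ∀ n, Continuous (G n) := fun n => ((continuous_cf hc n).norm).pow 2
  have hG0 : ∀ n y, 0 ≤ G n y := fun n y => by positivity
  -- shift in y
  have hshift : ∀ n y, G n (y + L) = G (n + k * L) y := by
    intro n y
    simp only [hG]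
    congr 2
    have h1 : (fun x => g x (y + L)) = fun x => e (((-(k * L) : ℤ) : ℝ) * x) * g x y := by
      ext x
      rw [hy]
      congr 2
      push_cast; ring
    rw [h1, cf_mul_e]
    congr 1
    ring
  have hshift' : ∀ (j : ℕ) n y, G n (y + j * L) = G (n + k * L * j) y := by
    intro j
    induction j with
    | zero => intro n y; simp
    | succ j ih =>
      intro n y
      have : y + (j + 1 : ℕ) * L = (y + j * L) + L := by push_cast; ring
      rw [this, hshift, ih]
      congr 1
      push_cast; ring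
  -- β-periodicity
  have hper : ∀ n y, G n (y + β) = G n y := by
    intro n y
    simp only [hG]
    congr 1
    have h1 : cf (fun x => (fun x => g x (y + β)) (x + α)) n
        = e (n * α) * cf (fun x => g x (y + β)) n :=
      cf_translate (h := fun x => g x (y + β)) (fun x => hx x (y + β)) α n
    have h2 : (fun x => (fun x => g x (y + β)) (x + α))
        = fun x => (lam * (e (k * α * y))⁻¹) * g x y := by
      ext x
      have := hT x y
      have h3 := e_ne (k * α * y)
      have h4 : g (x + α) (y + β) = (e (k * α * y))⁻¹ * (e (k * α * y) * g (x + α) (y + β)) := by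
        rw [← mul_assoc, inv_mul_cancel₀ h3, one_mul]
      simp only
      rw [h4, this]
      ring
    rw [h2, cf_const_mul] at h1
    have h3 := congrArg norm h1
    rw [norm_mul, norm_mul, norm_mul, norm_inv, norm_e, norm_e, hl] at h3
    simpa using h3.symm
  -- bound
  set C : ℝ := ∫ y in (0:ℝ)..L, ∫ x in (0:ℝ)..1, ‖g x y‖ ^ 2 with hC
  have hinner : Continuous fun y => ∫ x in (0:ℝ)..1, ‖g x y‖ ^ 2 := by
    apply intervalIntegral.continuous_parametric_intervalIntegral_of_continuous'
    have h2 : Continuous fun p : ℝ × ℝ => g p.2 p.1 := hc.comp (by fun_prop : Continuous fun p : ℝ × ℝ => (p.2, p.1))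
    exact (h2.norm).pow 2
  have hbound : ∀ (n : ℤ) (N : ℕ), ∫ y in (0:ℝ)..(N * L), G n y ≤ C := by
    intro n N
    have h1 := intervalIntegral.sum_integral_adjacent_intervals (a := fun j : ℕ => (j : ℝ) * L)
      (n := N) (f := G n) (μ := volume) (fun j _ => (hGc n).intervalIntegrable _ _)
    simp only [Nat.cast_zero, zero_mul] at h1
    rw [← h1]
    have h2 : ∀ j : ℕ, ∫ y in ((j : ℝ) * L)..(((j + 1 : ℕ) : ℝ) * L), G n y
        = ∫ y in (0:ℝ)..L, G (n + k * L * j) y := by
      intro j
      have h3 := intervalIntegral.integral_comp_add_right (G n) ((j : ℝ) * L) (a := 0) (b := (L:ℝ))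
      have h4 : (L : ℝ) + j * L = ((j + 1 : ℕ) : ℝ) * L := by push_cast; ring
      rw [zero_add, h4] at h3
      rw [← h3]
      congr 1
      ext y
      rw [hshift']
    simp_rw [h2]
    rw [← intervalIntegral.integral_finsetSum (fun j _ => (hGc _).intervalIntegrable _ _)]
    apply intervalIntegral.integral_mono_on (by positivity)
    · exact (continuous_finsetSum _ fun j _ => hGc _).intervalIntegrable _ _
    · exact hinner.intervalIntegrable _ _
    · intro y _
      have hinj : ∀ i ∈ Finset.range N, ∀ j ∈ Finset.range N,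
          n + k * L * (i : ℤ) = n + k * L * (j : ℤ) → i = j := by
        intro i _ j _ hij
        have h5 : k * L ≠ 0 := mul_ne_zero hk (by exact_mod_cast hL.ne')
        have h6 : k * L * (i : ℤ) = k * L * (j : ℤ) := by linarith
        exact_mod_cast mul_left_cancel₀ h5 h6
      have h7 := bessel (hgy y) ((Finset.range N).image fun j : ℕ => n + k * L * (j : ℤ))
      rw [Finset.sum_image hinj] at h7
      exact h7
  -- conclude
  intro y
  have hβint : ∫ y in (0:ℝ)..β, G n y = 0 := by
    have hp : Function.Periodic (G n) β := hper n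
    have hnn : 0 ≤ ∫ y in (0:ℝ)..β, G n y :=
      intervalIntegral.integral_nonneg hβ.le fun y _ => hG0 n y
    by_contra hne
    have hpos : 0 < ∫ y in (0:ℝ)..β, G n y := lt_of_le_of_ne hnn (Ne.symm hne)
    obtain ⟨m, hm⟩ := exists_nat_gt (C / ∫ y in (0:ℝ)..β, G n y)
    rw [div_lt_iff₀ hpos] at hm
    have h1 := hp.intervalIntegral_add_zsmul_eq m 0 (fun _ _ => (hGc n).intervalIntegrable _ _)
    rw [zero_add, zero_add] at h1
    simp only [zsmul_eq_mul, Int.cast_natCast] at h1
    obtain ⟨N, hN⟩ := exists_nat_gt (m * β)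
    have hNL : m * β ≤ N * L := by
      have : (1:ℝ) ≤ L := by exact_mod_cast hL
      have h0 : (0:ℝ) ≤ N := Nat.cast_nonneg N
      nlinarith
    have h2 : ∫ y in (0:ℝ)..(m * β), G n y ≤ ∫ y in (0:ℝ)..(N * L), G n y := by
      apply intervalIntegral.integral_mono_interval le_rfl (by positivity) hNL
      · exact Eventually.of_forall fun y => hG0 n y
      · exact (hGc n).intervalIntegrable _ _
    have h3 := hbound n N
    linarith
  have hzero : ∀ y ∈ Icc (0:ℝ) β, G n y = 0 := by
    intro y hy
    by_contra hne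
    have h3 := intervalIntegral.integral_pos (a := (0:ℝ)) (b := β) (f := G n)
      hβ (hGc n).continuousOn (fun x _ => hG0 n x)
      ⟨y, hy, lt_of_le_of_ne (hG0 n y) (Ne.symm hne)⟩
    linarith
  have hp : Function.Periodic (G n) β := hper n
  have hGy : G n y = 0 := by
    have h1 := toIcoMod_mem_Ico' hβ y
    have h2 : G n (toIcoMod hβ 0 y) = G n y := by
      rw [toIcoMod, hp.sub_zsmul_eq]
    rw [← h2]
    exact hzero _ ⟨h1.1, h1.2.le⟩
  simpa [hG] using hGy

end Pool.Agent.Helper59.NilMin
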