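import Mathlib
import Pool.Agent.Helper59.HeisTop
import Pool.Agent.Helper59.TorusMin
import Pool.Agent.Helper59.Vert

/-! Minimality of the nilrotation by `τ = (√2, √3, 0)` on `Heis ⧸ Γ L`. -/

namespace Pool.Agent.Helper59.NilMin

open Set Topology Filter

noncomputable def τ : Heis := H (√2) (√3) 0

theorem irr6 : Irrational √6 := by
  have h : ¬ IsSquare (6 : ℕ) := by
    rintro ⟨r, hr⟩
    have : r < 3 := by nlinarith
    interval_cases r <;> omega
  have := irrational_sqrt_natCast_iff.2 h
  simpa using this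

theorem irr3 : Irrational √3 := by
  have := Nat.Prime.irrational_sqrt (p := 3) (by norm_num)
  simpa using this

theorem indep (m n l : ℤ) (hn : n ≠ 0) : (m : ℝ) * √2 + n * √3 ≠ l := by
  intro h
  have h2 : (√2 : ℝ) ^ 2 = 2 := Real.sq_sqrt (by norm_num)
  have h3 : (√3 : ℝ) ^ 2 = 3 := Real.sq_sqrt (by norm_num)
  have h6 : (√6 : ℝ) ^ 2 = 6 := Real.sq_sqrt (by norm_num)
  have h4 : 2 * (l : ℝ) * m * √2 = l ^ 2 + 2 * m ^ 2 - 3 * n ^ 2 := by
    have h5 : (n : ℝ) * √3 = l - m * √2 := by linarith
    have h7 : ((n : ℝ) * √3) ^ 2 = (l - m * √2) ^ 2 := by rw [h5]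
    nlinarith
  by_cases hlm : l * m = 0
  · have h5 : ((l : ℝ) ^ 2 + 2 * m ^ 2 = 3 * n ^ 2) := by
      have : (l : ℝ) * m = 0 := by exact_mod_cast hlm
      have h7 : 2 * (l : ℝ) * m * √2 = 0 := by
        calc 2 * (l : ℝ) * m * √2 = 2 * (l * m) * √2 := by ring
          _ = 0 := by rw [this]; ring
      linarith
    rcases mul_eq_zero.1 hlm with rfl | rfl
    · -- 2 m^2 = 3 n^2
      have hn' : (n : ℝ) ≠ 0 := by exact_mod_cast hn
      have h8 : (|2 * m / n| : ℝ) = √6 := by
        rw [← abs_of_nonneg (Real.sqrt_nonneg 6), ← sq_eq_sq_iff_abs_eq_abs, h6, div_pow]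
        simp only [Int.cast_zero] at h5
        field_simp
        linarith
      apply irr6
      refine ⟨|2 * m / n|, ?_⟩
      rw [← h8]
      push_cast
      rfl
    · have hn' : (n : ℝ) ≠ 0 := by exact_mod_cast hn
      have h8 : (|l / n| : ℝ) = √3 := by
        rw [← abs_of_nonneg (Real.sqrt_nonneg 3), ← sq_eq_sq_iff_abs_eq_abs, h3, div_pow]
        simp only [Int.cast_zero] at h5
        field_simp
        linarith
      apply irr3
      refine ⟨|l / n|, ?_⟩
      rw [← h8]
      push_cast
      rfl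
  · have hlm' : (l : ℝ) * m ≠ 0 := by exact_mod_cast hlm
    apply irrational_sqrt_two
    refine ⟨(l ^ 2 + 2 * m ^ 2 - 3 * n ^ 2) / (2 * (l * m)), ?_⟩
    push_cast
    rw [← h4]
    have hl : (l : ℝ) ≠ 0 := left_ne_zero_of_mul hlm'
    have hm : (m : ℝ) ≠ 0 := right_ne_zero_of_mul hlm'
    field_simp

theorem indepL {L : ℕ} (hL : 0 < L) (n k l : ℤ) (hk : k ≠ 0) :
    (n : ℝ) * √2 + k * (√3 / L) ≠ l := by
  intro h
  have hL' : (L : ℝ) ≠ 0 := by positivity
  apply indep (n * L) k (l * L) hk
  push_cast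
  rw [← h]
  field_simp

section
variable {L : ℕ}

theorem cen_smul (z : ℝ) (x y w : ℝ) : H 0 0 z • P L x y w = P L x y (z + w) := by
  rw [H_smul_P]
  simp

theorem tau_smul (x y z : ℝ) : τ • P L x y z = P L (x + √2) (y + √3) (z + √2 * y) := by
  rw [τ, H_smul_P]
  congr 1 <;> ring

theorem P_x (x y z : ℝ) : P L (x + 1) y z = P L x y z := by
  have := P_shift (L := L) x y z 1 0 0
  simpa using this

theorem P_y (x y z : ℝ) : P L x (y + L) z = P L x y (z - x * L) := by
  have := P_shift (L := L) x y (z - x * L) 0 1 0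
  simpa using this

theorem P_z (x y z : ℝ) : P L x y (z + 1) = P L x y z := by
  have := P_shift (L := L) x y z 0 0 1
  simpa using this

theorem min_closed (hL : 0 < L) {C : Set (Heis ⧸ Γ L)} (hC : IsClosed C) (hne : C.Nonempty)
    (hT : (fun x => τ • x) ⁻¹' C = C) : C = univ := by
  have := t2_quot hL
  have := compact_quot hL
  by_contra hCu
  obtain ⟨k, hk, F, hFc, hF1, hFT, hFρ⟩ := circle_ext (fun x : Heis ⧸ Γ L => τ • x)
    (fun t x => H 0 0 t • x) (by
      exact (continuous_H' continuous_const continuous_const continuous_fst).smul continuous_snd)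
    (by
      intro x
      rw [← H_one, one_smul]) (by
      intro s t x
      rw [← mul_smul, H_mul]
      simp) (by
      intro x
      obtain ⟨x, y, z, rfl⟩ := exists_P x
      rw [cen_smul, add_comm, P_z]) (by
      intro t x
      rw [← mul_smul, ← mul_smul, τ, H_mul, H_mul]
      simp [add_comm]) (by
      intro C hC hne hT hρC
      have hz : ∀ x y z z', P L x y z ∈ C ↔ P L x y z' ∈ C := by
        intro x y z z'
        have h1 : P L x y z' ∈ C ↔ P L x y z' ∈ (fun x => H 0 0 (z - z') • x) ⁻¹' C := by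
          rw [hρC]
        rw [h1, mem_preimage, cen_smul]
        simp
      have hL' : (L : ℝ) ≠ 0 := by positivity
      have hD : {p : ℝ × ℝ | P L p.1 (L * p.2) 0 ∈ C} = univ := by
        apply torus_min irrational_sqrt_two (indepL hL)
        · exact hC.preimage (continuous_P continuous_fst (continuous_const.mul continuous_snd)
            continuous_const)
        · obtain ⟨p, hp⟩ := hne
          obtain ⟨x, y, z, rfl⟩ := exists_P p
          refine ⟨(x, y / L), ?_⟩
          change P L x (L * (y / L)) 0 ∈ C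
          rw [mul_div_cancel₀ _ hL', hz x y 0 z]
          exact hp
        · intro x y
          change P L (x + 1) (L * y) 0 ∈ C ↔ P L x (L * y) 0 ∈ C
          rw [P_x]
        · intro x y
          change P L x (L * (y + 1)) 0 ∈ C ↔ P L x (L * y) 0 ∈ C
          rw [mul_add, mul_one, P_y, hz]
        · intro x y
          change P L (x + √2) (L * (y + √3 / L)) 0 ∈ C ↔ P L x (L * y) 0 ∈ C
          have h2 : P L x (L * y) 0 ∈ C ↔ P L x (L * y) 0 ∈ (fun x => τ • x) ⁻¹' C := by
            rw [hT]
          rw [h2, mem_preimage, tau_smul, mul_add, mul_div_cancel₀ _ hL', hz]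
      rw [eq_univ_iff_forall]
      intro p
      obtain ⟨x, y, z, rfl⟩ := exists_P p
      have h3 : (x, y / L) ∈ {p : ℝ × ℝ | P L p.1 (L * p.2) 0 ∈ C} := by
        rw [hD]; trivial
      change P L x (L * (y / L)) 0 ∈ C at h3
      rw [mul_div_cancel₀ _ hL', hz x y 0 z] at h3
      exact h3) hC hne hT hCu
  have hFz : ∀ x y z, F (P L x y z) = e (k * z) * F (P L x y 0) := by
    intro x y z
    have h4 := hFρ z (P L x y 0)
    simp only [cen_smul, add_zero] at h4
    rw [h4]
    unfold e
    push_cast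
    rfl
  have hv := vert (g := fun x y => F (P L x y 0)) (k := k) (L := L) (α := √2) (β := √3) (lam := 1)
    (hFc.comp (continuous_P continuous_fst continuous_snd continuous_const))
    (by intro x y; simp only [P_x]) (by exact_mod_cast hk.ne') hL
    (by
      intro x y
      rw [P_y, hFz]
      congr 2
      push_cast
      ring)
    (by positivity) (by simp)
    (by
      intro x y
      have h5 := hFT (P L x y 0)
      simp only [tau_smul] at h5
      rw [hFz] at h5
      rw [one_mul, ← h5]
      congr 2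
      push_cast
      ring) 0 0
  have h6 := hF1 (P L 0 0 0)
  rw [hv] at h6
  simp at h6

theorem minimal (hL : 0 < L) (x : Heis ⧸ Γ L) : Dense (range fun n : ℤ => τ ^ n • x) := by
  rw [dense_iff_closure_eq]
  apply min_closed hL isClosed_closure
  · exact ⟨x, subset_closure ⟨0, by simp⟩⟩
  · have h1 : (fun y : Heis ⧸ Γ L => τ • y) ⁻¹' (range fun n : ℤ => τ ^ n • x) =
        range fun n : ℤ => τ ^ n • x := by
      ext y
      constructor
      · rintro ⟨n, hn⟩
        refine ⟨n - 1, ?_⟩
        simp only at hn ⊢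
        rw [zpow_sub_one, (Commute.refl τ).zpow_left n |>.inv_right.eq, mul_smul, hn, ← mul_smul, inv_mul_cancel, one_smul]
      · rintro ⟨n, rfl⟩
        refine ⟨n + 1, ?_⟩
        simp only
        rw [add_comm, zpow_one_add, mul_smul]
    have h2 := (Homeomorph.smul (α := Heis ⧸ Γ L) τ).preimage_closure (range fun n : ℤ => τ ^ n • x)
    have h3 : (⇑(Homeomorph.smul (α := Heis ⧸ Γ L) τ)) = fun y => τ • y := rfl
    rw [h3, h1] at h2
    exact h2

end

end Pool.Agent.Helper59.NilMin
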