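import Mathlib
import Pool.Agent.Helper59.HeisMin

/-! `e(√3/2)` is an eigenvalue of the nilrotation on `Heis ⧸ Γ 2` but not on `Heis ⧸ Γ 1`. -/

namespace Pool.Agent.Helper59.NilMin

open Set Topology Filter

/-- no continuous eigenfunction with eigenvalue `e(√3/2)` on `Heis ⧸ Γ 1` -/
theorem no_eigen {F : Heis ⧸ Γ 1 → ℂ} (hF : Continuous F)
    (hT : ∀ x, F (τ • x) = e (√3 / 2) * F x) : ∀ x, F x = 0 := by
  have hcz : ∀ x y, Continuous fun z => F (P 1 x y z) := fun x y =>
    hF.comp (continuous_P continuous_const continuous_const continuous_id)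
  have hperz : ∀ x y z, F (P 1 x y (z + 1)) = F (P 1 x y z) := fun x y z => by rw [P_z]
  have htau : ∀ x y z, F (P 1 (x + √2) (y + √3) (z + √2 * y)) = e (√3 / 2) * F (P 1 x y z) := by
    intro x y z
    rw [← tau_smul, hT]
  have hcg : ∀ k : ℤ, Continuous fun p : ℝ × ℝ => cf (fun z => F (P 1 p.1 p.2 z)) k := by
    intro k
    unfold cf
    apply intervalIntegral.continuous_parametric_intervalIntegral_of_continuous'
    have h1 : Continuous fun p : (ℝ × ℝ) × ℝ => e (-(k * p.2)) := continuous_e.comp (by fun_prop)
    have h2 : Continuous fun p : (ℝ × ℝ) × ℝ => F (P 1 p.1.1 p.1.2 p.2) :=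
      hF.comp (continuous_P (by fun_prop) (by fun_prop) (by fun_prop))
    exact h1.mul h2
  -- the equation on the coefficients
  have hTk : ∀ (k : ℤ) x y, e (k * √2 * y) * cf (fun z => F (P 1 (x + √2) (y + √3) z)) k
      = e (√3 / 2) * cf (fun z => F (P 1 x y z)) k := by
    intro k x y
    have h1 := cf_translate (h := fun z => F (P 1 (x + √2) (y + √3) z))
      (fun z => hperz _ _ z) (√2 * y) k
    rw [mul_assoc, ← h1, ← cf_const_mul]
    congr 1
    ext z
    exact htau x y z
  have hk : ∀ k : ℤ, k ≠ 0 → ∀ x y, cf (fun z => F (P 1 x y z)) k = 0 := by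
    intro k hk
    apply vert (g := fun x y => cf (fun z => F (P 1 x y z)) k) (k := k) (L := 1) (α := √2)
      (β := √3) (lam := e (√3 / 2)) (hcg k)
    · intro x y; simp only [P_x]
    · exact hk
    · exact one_pos
    · intro x y
      have h1 := cf_translate (h := fun z => F (P 1 x y z)) (fun z => hperz _ _ z) (-x) k
      have h2 : (fun z => F (P 1 x (y + (1 : ℕ)) z)) = fun z => F (P 1 x y (z + -x)) := by
        ext z
        rw [P_y]
        congr 2
        push_cast; ring
      rw [h2, h1]
      congr 2
      push_cast; ring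
    · positivity
    · exact norm_e _
    · exact hTk k
  have hz : ∀ x y z, F (P 1 x y z) = cf (fun z => F (P 1 x y z)) 0 := by
    intro x y
    have h1 := eq_zero_of_cf (h := fun z => F (P 1 x y z) - cf (fun z => F (P 1 x y z)) 0)
      ((hcz x y).sub continuous_const) (fun z => by simp only [hperz]) (by
        intro n
        have h2 : cf (fun z => F (P 1 x y z) - cf (fun z => F (P 1 x y z)) 0) n
            = cf (fun z => F (P 1 x y z)) n - cf (fun _ => cf (fun z => F (P 1 x y z)) 0) n := by
          conv_lhs => unfold cf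
          conv_rhs => unfold cf
          rw [← intervalIntegral.integral_sub]
          · congr 1
            ext z
            exact mul_sub _ _ _
          · apply Continuous.intervalIntegrable
            have : Continuous fun z : ℝ => e (-(n * z)) := continuous_e.comp (by fun_prop)
            exact this.mul (hcz x y)
          · apply Continuous.intervalIntegrable
            have : Continuous fun z : ℝ => e (-(n * z)) := continuous_e.comp (by fun_prop)
            exact this.mul continuous_const
        rw [h2]
        by_cases hn : n = 0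
        · subst hn
          have h3 : ∀ c : ℂ, cf (fun _ => c) 0 = c := by
            intro c
            unfold cf
            simp [e_zero]
          rw [h3, sub_self]
        · rw [hk n hn]
          have h3 : ∀ c : ℂ, cf (fun _ => c) n = 0 := by
            intro c
            have h4 := cf_translate (h := fun _ : ℝ => c) (fun _ => rfl) (1 / (2 * n)) n
            have h5 : (n : ℝ) * (1 / (2 * n)) = 1 / 2 := by
              have : (n : ℝ) ≠ 0 := by exact_mod_cast hn
              field_simp
            rw [h5] at h4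
            have h6 : e (1 / 2) ≠ 1 := by
              rw [Ne, e_eq_one_iff]
              rintro ⟨m, hm⟩
              have : (1 : ℝ) = 2 * m := by linarith
              have h7 : (1 : ℤ) = 2 * m := by exact_mod_cast this
              omega
            by_contra hne
            apply h6
            apply mul_right_cancel₀ hne
            rw [← h4, one_mul]
          rw [h3, sub_self])
    intro z
    exact sub_eq_zero.1 (h1 z)
  -- the function on the torus
  set g : ℝ → ℝ → ℂ := fun x y => cf (fun z => F (P 1 x y z)) 0 with hg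
  have hgc : Continuous fun p : ℝ × ℝ => g p.1 p.2 := hcg 0
  have hgx : ∀ x y, g (x + 1) y = g x y := by
    intro x y; simp only [hg, P_x]
  have hgy : ∀ x y, g x (y + 1) = g x y := by
    intro x y
    simp only [hg]
    rw [← hz x (y + 1) 0, ← hz x y (0 - x * 1)]
    have := P_y (L := 1) x y 0
    rw [Nat.cast_one] at this
    rw [this]
  have hgT : ∀ x y, g (x + √2) (y + √3) = e (√3 / 2) * g x y := by
    intro x y
    have := hTk 0 x y
    simpa [e_zero] using this
  have hm : ∀ (m : ℤ) y, cf (fun x => g x y) m = 0 := by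
    intro m
    apply eq_zero_of_cf (continuous_cf hgc m) (fun y => by simp only [hgy])
    have h8 : ∀ y, e (m * √2) * cf (fun x => g x (y + √3)) m = e (√3 / 2) * cf (fun x => g x y) m := by
      intro y
      rw [← cf_translate (h := fun x => g x (y + √3)) (fun x => hgx x _), ← cf_const_mul]
      congr 1
      ext x
      exact hgT x y
    intro n
    have h9 := cf_translate (h := fun y => cf (fun x => g x y) m) (fun y => by simp only [hgy]) (√3) n
    have h10 : e (m * √2) * cf (fun y => cf (fun x => g x (y + √3)) m) n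
        = e (√3 / 2) * cf (fun y => cf (fun x => g x y) m) n := by
      rw [← cf_const_mul, ← cf_const_mul]
      congr 1
      ext y
      exact h8 y
    rw [h9] at h10
    by_contra hne
    have h11 : e (m * √2 + n * √3 - √3 / 2) = 1 := by
      rw [sub_eq_add_neg, e_add, e_add, e_neg]
      have h12 := e_ne (√3 / 2)
      apply mul_right_cancel₀ hne
      rw [one_mul]
      calc e (m * √2) * e (n * √3) * (e (√3 / 2))⁻¹ * cf (fun y => cf (fun x => g x y) m) n
          = (e (√3 / 2))⁻¹ * (e (m * √2) * (e (n * √3) * cf (fun y => cf (fun x => g x y) m) n)) := by ring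
        _ = cf (fun y => cf (fun x => g x y) m) n := by
            rw [h10, ← mul_assoc, inv_mul_cancel₀ h12, one_mul]
    obtain ⟨l, hl⟩ := e_eq_one_iff.1 h11
    apply indep (2 * m) (2 * n - 1) (2 * l) (by omega)
    push_cast
    linarith
  intro p
  obtain ⟨x, y, z, rfl⟩ := exists_P p
  rw [hz x y z]
  exact eq_zero_of_cf (h := fun x => g x y) (hgc.comp (by fun_prop : Continuous fun x : ℝ => (x, y)))
    (fun x => hgx x y) (fun n => hm n y) x

/-- a continuous eigenfunction on `Heis ⧸ Γ 2` -/
theorem eigen2 : ∃ E : Heis ⧸ Γ 2 → ℂ, Continuous E ∧ (∀ x, ‖E x‖ = 1) ∧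
    ∀ x, E (τ • x) = e (√3 / 2) * E x := by
  have hlift : ∀ a b : Heis, QuotientGroup.leftRel (Γ 2) a b → e (a.2.1 / 2) = e (b.2.1 / 2) := by
    intro g g' h
    rw [QuotientGroup.leftRel_apply, mem_Γ] at h
    obtain ⟨x, y, z, rfl⟩ := exists_H g
    obtain ⟨a, b, c, h⟩ := h
    rw [inv_mul_eq_iff_eq_mul, H_mul] at h
    rw [h]
    change e (y / 2) = e ((y + (2 : ℕ) * b) / 2)
    have : (y + (2 : ℕ) * b) / 2 = y / 2 + b := by push_cast; ring
    rw [this, e_add, e_int, mul_one]
  refine ⟨Quotient.lift (fun g : Heis => e (g.2.1 / 2)) hlift, ?_, ?_, ?_⟩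
  · apply Continuous.quotient_lift
    have : Continuous fun g : ℝ × ℝ × ℝ => e (g.2.1 / 2) := continuous_e.comp (by fun_prop)
    exact this
  · intro p
    obtain ⟨x, y, z, rfl⟩ := exists_P p
    exact norm_e _
  · intro p
    obtain ⟨x, y, z, rfl⟩ := exists_P p
    rw [tau_smul]
    change e ((y + √3) / 2) = e (√3 / 2) * e (y / 2)
    rw [← e_add]
    congr 1
    ring

theorem not_iso : ¬ ∃ φ : (Heis ⧸ Γ 2) ≃ₜ (Heis ⧸ Γ 1), ∀ x, φ (τ • x) = τ • φ x := by
  rintro ⟨φ, hφ⟩
  obtain ⟨E, hEc, hE1, hE⟩ := eigen2
  have h1 := no_eigen (F := fun x => E (φ.symm x)) (hEc.comp φ.symm.continuous) (by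
    intro x
    rw [← hE]
    congr 1
    rw [Homeomorph.symm_apply_eq, hφ, Homeomorph.apply_symm_apply]) (P 1 0 0 0)
  have h2 := hE1 (φ.symm (P 1 0 0 0))
  rw [h1] at h2
  simp at h2

end Pool.Agent.Helper59.NilMin
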