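import Mathlib
import Pool.Agent.Helper59.HeisTop

/-! The open sets with asymmetric closure. -/

namespace Pool.Agent.Helper59.NilMin

open Set Topology Filter

/-- projection in coordinates -/
noncomputable def Q (p : ℝ × ℝ × ℝ) : Heis ⧸ Γ 1 := P 1 p.1 p.2.1 p.2.2

theorem continuous_Q : Continuous Q :=
  continuous_P continuous_fst (continuous_fst.comp continuous_snd)
    (continuous_snd.comp continuous_snd)

theorem isOpenMap_Q : IsOpenMap Q := by
  have h : IsOpenMap (QuotientGroup.mk : Heis → Heis ⧸ Γ 1) := QuotientGroup.isOpenMap_coe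
  exact h

/-- the open box -/
def box : Set (ℝ × ℝ × ℝ) := Ioo 0 (1 / 2) ×ˢ (Ioo 0 (1 / 2) ×ˢ Ioo 0 (1 / 2))

/-- the closed box -/
def cbox : Set (ℝ × ℝ × ℝ) := Icc 0 (1 / 2) ×ˢ (Icc 0 (1 / 2) ×ˢ Icc 0 (1 / 2))

theorem closure_box : closure box = cbox := by
  unfold box cbox
  rw [closure_prod_eq, closure_prod_eq, closure_Ioo (by norm_num)]

/-- the open set in `Heis ⧸ Γ 1` -/
noncomputable def V : Set (Heis ⧸ Γ 1) := Q '' box

theorem isOpen_V : IsOpen V :=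
  isOpenMap_Q _ (isOpen_Ioo.prod (isOpen_Ioo.prod isOpen_Ioo))

theorem closure_V : closure V = Q '' cbox := by
  have := t2_quot one_pos
  apply Subset.antisymm
  · apply closure_minimal
    · apply image_mono
      rw [← closure_box]
      exact subset_closure
    · have : IsCompact cbox := isCompact_Icc.prod (isCompact_Icc.prod isCompact_Icc)
      exact (this.image continuous_Q).isClosed
  · rw [← closure_box]
    exact image_closure_subset_closure_image continuous_Q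

theorem mem_closure_V {x y z : ℝ} : P 1 x y z ∈ closure V ↔ ∃ a b c : ℤ,
    x + a ∈ Icc (0:ℝ) (1/2) ∧ y + b ∈ Icc (0:ℝ) (1/2) ∧ z + c + x * b ∈ Icc (0:ℝ) (1/2) := by
  rw [closure_V]
  constructor
  · rintro ⟨⟨x', y', z'⟩, ⟨h1, h2, h3⟩, h4⟩
    obtain ⟨a, b, c, ha, hb, hc⟩ := P_eq_iff.1 h4.symm
    simp only at ha hb hc h1 h2 h3
    subst ha hb hc
    refine ⟨a, b, c, h1, ?_, ?_⟩
    · simpa using h2
    · simpa using h3
  · rintro ⟨a, b, c, h1, h2, h3⟩
    refine ⟨(x + a, y + b, z + c + x * b), ⟨h1, h2, h3⟩, ?_⟩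
    have := P_shift (L := 1) x y z a b c
    simp only [Nat.cast_one, one_mul] at this
    exact this

/-- if `p + [0,1/2] ⊆ [0,1/2] + ℤ` then `p` is an integer -/
theorem int_of_shift {p : ℝ} (h : ∀ x ∈ Icc (0:ℝ) (1/2), ∃ a : ℤ, p + x + a ∈ Icc (0:ℝ) (1/2)) :
    ∃ m : ℤ, p = m := by
  obtain ⟨a₀, ha₀⟩ := h 0 ⟨le_rfl, by norm_num⟩
  rw [add_zero] at ha₀
  set f := p + a₀ with hf
  by_cases hf0 : f = 0
  · exact ⟨-a₀, by push_cast; linarith⟩
  exfalso
  have hpos : 0 < f := lt_of_le_of_ne ha₀.1 (Ne.symm hf0)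
  obtain ⟨a, ha⟩ := h (1 / 2 - f / 2) ⟨by linarith [ha₀.2], by linarith⟩
  have h1 : p + (1 / 2 - f / 2) + a = 1 / 2 + f / 2 + (a - a₀ : ℤ) := by
    push_cast; linarith
  rw [h1] at ha
  rcases le_or_gt 0 (a - a₀) with h2 | h2
  · have : (0 : ℝ) ≤ (a - a₀ : ℤ) := by exact_mod_cast h2
    linarith [ha.2]
  · have h3 : a - a₀ ≤ -1 := by omega
    have : ((a - a₀ : ℤ) : ℝ) ≤ -1 := by exact_mod_cast h3
    linarith [ha.1, ha₀.2]

theorem zero_of_half {m : ℤ} {x : ℝ} (hx : x ∈ Icc (0:ℝ) (1/2)) (hm : x + m ∈ Icc (0:ℝ) (1/2)) :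
    m = 0 := by
  rcases lt_trichotomy m 0 with h | h | h
  · have h3 : m ≤ -1 := by omega
    have : (m : ℝ) ≤ -1 := by exact_mod_cast h3
    linarith [hm.1, hx.2]
  · exact h
  · have h3 : 1 ≤ m := by omega
    have : (1 : ℝ) ≤ m := by exact_mod_cast h3
    linarith [hm.2, hx.1]

theorem int_zero_of_mul {p : ℤ} (h : ∀ y ∈ Icc (0:ℝ) (1/2), ∃ m : ℤ, (p : ℝ) * y = m) : p = 0 := by
  obtain ⟨m, hm⟩ := h (1 / (2 * (|(p : ℝ)| + 1))) ⟨by positivity, by
    apply one_div_le_one_div_of_le (by norm_num)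
    linarith [abs_nonneg (p : ℝ)]⟩
  have h1 : |(m : ℝ)| < 1 := by
    rw [← hm, abs_mul, abs_of_pos (by positivity : 0 < 1 / (2 * (|(p : ℝ)| + 1)))]
    rw [mul_one_div, div_lt_one (by positivity)]
    linarith [abs_nonneg (p : ℝ)]
  have h2 := int_eq_zero_of_abs_lt h1
  subst h2
  simp only [Int.cast_zero, mul_eq_zero] at hm
  rcases hm with h | h
  · exact_mod_cast h
  · exfalso
    have : 0 < 1 / (2 * (|(p : ℝ)| + 1)) := by positivity
    linarith

theorem stab_V {g : Heis} (hg : (fun x : Heis ⧸ Γ 1 => g • x) '' closure V = closure V) :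
    ∃ r : ℤ, g = H 0 0 r := by
  obtain ⟨p, q, r, rfl⟩ := exists_H g
  have key : ∀ x ∈ Icc (0:ℝ) (1/2), ∀ y ∈ Icc (0:ℝ) (1/2), ∀ z ∈ Icc (0:ℝ) (1/2),
      ∃ a b c : ℤ, p + x + a ∈ Icc (0:ℝ) (1/2) ∧ q + y + b ∈ Icc (0:ℝ) (1/2) ∧
        r + z + p * y + c + (p + x) * b ∈ Icc (0:ℝ) (1/2) := by
    intro x hx y hy z hz
    have h1 : P 1 x y z ∈ closure V := by
      rw [mem_closure_V]
      exact ⟨0, 0, 0, by simpa using hx, by simpa using hy, by simpa using hz⟩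
    have h2 : H p q r • P 1 x y z ∈ closure V := by
      rw [← hg]
      exact ⟨_, h1, rfl⟩
    rw [H_smul_P, mem_closure_V] at h2
    exact h2
  have h0 : (0 : ℝ) ∈ Icc (0:ℝ) (1/2) := ⟨le_rfl, by norm_num⟩
  obtain ⟨p', hp⟩ := int_of_shift (p := p) (fun x hx => by
    obtain ⟨a, b, c, h1, h2, h3⟩ := key x hx 0 h0 0 h0
    exact ⟨a, h1⟩)
  obtain ⟨q', hq⟩ := int_of_shift (p := q) (fun y hy => by
    obtain ⟨a, b, c, h1, h2, h3⟩ := key 0 h0 y hy 0 h0
    exact ⟨b, h2⟩)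
  subst hp hq
  have hr : ∀ x ∈ Icc (0:ℝ) (1/2), ∀ y ∈ Icc (0:ℝ) (1/2),
      ∃ m : ℤ, r + p' * y - (p' + x) * q' = m := by
    intro x hx y hy
    apply int_of_shift
    intro z hz
    obtain ⟨a, b, c, h1, h2, h3⟩ := key x hx y hy z hz
    have hb : q' + b = 0 := by
      apply zero_of_half hy
      push_cast
      have : y + (q' + b) = q' + y + b := by ring
      rw [this]; exact h2
    have hb' : (b : ℝ) = -q' := by
      have : (q' : ℝ) + b = 0 := by exact_mod_cast hb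
      linarith
    refine ⟨c, ?_⟩
    have : r + ↑p' * y - (↑p' + x) * ↑q' + z + ↑c = r + z + p' * y + c + (p' + x) * b := by
      rw [hb']; ring
    rw [this]
    exact h3
  obtain ⟨m₀, hm₀⟩ := hr 0 h0 0 h0
  have hr' : r = (m₀ + p' * q' : ℤ) := by
    push_cast
    linarith
  have hp0 : p' = 0 := by
    apply int_zero_of_mul
    intro y hy
    obtain ⟨m, hm⟩ := hr 0 h0 y hy
    refine ⟨m - m₀, ?_⟩
    push_cast
    linarith
  have hq0 : q' = 0 := by
    apply int_zero_of_mul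
    intro x hx
    obtain ⟨m, hm⟩ := hr x hx 0 h0
    refine ⟨m₀ - m, ?_⟩
    push_cast
    linarith
  subst hp0 hq0
  refine ⟨m₀ + 0 * 0, ?_⟩
  rw [hr', H_inj]
  simp

theorem triv_smul {L : ℕ} (r : ℤ) (x : Heis ⧸ Γ L) : H 0 0 r • x = x := by
  obtain ⟨x, y, z, rfl⟩ := exists_P x
  rw [H_smul_P]
  have := P_shift (L := L) x y z 0 0 r
  simp only [Int.cast_zero, add_zero, mul_zero, zero_mul] at this ⊢
  rw [zero_add, zero_add, add_comm]
  exact this

theorem Γ21 : Γ 2 ≤ Γ 1 := by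
  rintro _ ⟨a, b, c, rfl⟩
  refine ⟨a, 2 * b, c, ?_⟩
  rw [H_inj]
  push_cast
  refine ⟨rfl, ?_, rfl⟩
  ring

/-- the factor map -/
noncomputable def pr : Heis ⧸ Γ 2 → Heis ⧸ Γ 1 := Subgroup.quotientMapOfLE Γ21

theorem pr_P (x y z : ℝ) : pr (P 2 x y z) = P 1 x y z := rfl

theorem pr_mk (g : Heis) : pr (g : Heis ⧸ Γ 2) = (g : Heis ⧸ Γ 1) := rfl

theorem pr_smul (g : Heis) (x : Heis ⧸ Γ 2) : pr (g • x) = g • pr x := by
  obtain ⟨h, rfl⟩ := QuotientGroup.mk_surjective x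
  rfl

theorem pr_surj : Function.Surjective pr := by
  intro x
  obtain ⟨h, rfl⟩ := QuotientGroup.mk_surjective x
  exact ⟨h, rfl⟩

theorem continuous_pr : Continuous pr := by
  rw [(QuotientGroup.isQuotientMap_mk (Γ 2)).continuous_iff]
  exact QuotientGroup.continuous_mk

theorem isOpenMap_pr : IsOpenMap pr := by
  intro s hs
  have : pr '' s = (QuotientGroup.mk : Heis → Heis ⧸ Γ 1) '' ((QuotientGroup.mk : Heis → Heis ⧸ Γ 2) ⁻¹' s) := by
    ext x
    constructor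
    · rintro ⟨y, hy, rfl⟩
      obtain ⟨h, rfl⟩ := QuotientGroup.mk_surjective y
      exact ⟨h, hy, rfl⟩
    · rintro ⟨h, hh, rfl⟩
      exact ⟨(h : Heis ⧸ Γ 2), hh, rfl⟩
  rw [this]
  exact QuotientGroup.isOpenMap_coe _ (hs.preimage QuotientGroup.continuous_mk)

theorem closure_pre : closure (pr ⁻¹' V) = pr ⁻¹' closure V :=
  (isOpenMap_pr.preimage_closure_eq_closure_preimage continuous_pr V).symm

theorem stab_W {g : Heis}
    (hg : (fun x : Heis ⧸ Γ 2 => g • x) '' closure (pr ⁻¹' V) = closure (pr ⁻¹' V)) :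
    (fun x : Heis ⧸ Γ 1 => g • x) '' closure V = closure V := by
  rw [closure_pre] at hg
  have h1 : closure V = pr '' (pr ⁻¹' closure V) := (image_preimage_eq _ pr_surj).symm
  conv_rhs => rw [h1, ← hg]
  conv_lhs => rw [h1]
  rw [image_image, image_image]
  apply image_congr
  intro x _
  exact (pr_smul g x).symm

end Pool.Agent.Helper59.NilMin
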