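import Mathlib

/-! Hypothesis (H) for one homogeneous system. -/

namespace Pool.Agent.Helper59.NilMinDefs

/-- The standing hypotheses on one system: `Γ` is a discrete cocompact subgroup of `G`, the
translation `x ↦ τ • x` of the (compact metrizable) space `G ⧸ Γ` is minimal, and `U` is an open
subset with asymmetric closure. -/
structure Hyp {G : Type} [Group G] [TopologicalSpace G] (Γ : Subgroup G) (τ : G)
    (U : Set (G ⧸ Γ)) : Prop where
  discrete : DiscreteTopology Γ
  compact : CompactSpace (G ⧸ Γ)
  metrizable : TopologicalSpace.MetrizableSpace (G ⧸ Γ)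
  minimal : ∀ x : G ⧸ Γ, Dense (Set.range fun n : ℤ => τ ^ n • x)
  isOpen : IsOpen U
  asymmetric : ∀ g : G, (fun x : G ⧸ Γ => g • x) '' closure U = closure U →
    ∀ x : G ⧸ Γ, g • x = x

end Pool.Agent.Helper59.NilMinDefs
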