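import Mathlib
import Pool.Agent.Helper59.NilMinDefs
import Pool.Agent.Helper59.HeisNI
import Pool.Agent.Helper59.HeisU

/-! Minimal nilsystems are not determined by return times. -/

namespace Pool.Agent.Helper59.NilMin

open Set Topology Filter Pool.Agent.Helper59.NilMinDefs
open scoped Manifold ContDiff

theorem metr {L : ℕ} (hL : 0 < L) : TopologicalSpace.MetrizableSpace (Heis ⧸ Γ L) := by
  have := t2_quot hL
  have := compact_quot hL
  infer_instance

theorem hyp1 : Hyp (Γ 1) τ V where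
  discrete := discrete_Γ one_pos
  compact := compact_quot one_pos
  metrizable := metr one_pos
  minimal := minimal one_pos
  isOpen := isOpen_V
  asymmetric := by
    intro g hg x
    obtain ⟨r, rfl⟩ := stab_V hg
    exact triv_smul r x

theorem hyp2 : Hyp (Γ 2) τ (pr ⁻¹' V) where
  discrete := discrete_Γ two_pos
  compact := compact_quot two_pos
  metrizable := metr two_pos
  minimal := minimal two_pos
  isOpen := isOpen_V.preimage continuous_pr
  asymmetric := by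
    intro g hg x
    obtain ⟨r, rfl⟩ := stab_V (stab_W hg)
    exact triv_smul r x

theorem main :
    ∃ (G : Type) (_ : Group G) (_ : TopologicalSpace G) (_ : ChartedSpace (ℝ × ℝ × ℝ) G)
      (Γ₁ Γ₂ : Subgroup G) (τ : G) (U₁ : Set (G ⧸ Γ₁)) (U₂ : Set (G ⧸ Γ₂))
      (x₁ : G ⧸ Γ₁) (x₂ : G ⧸ Γ₂),
      LieGroup 𝓘(ℝ, ℝ × ℝ × ℝ) ⊤ G ∧ IsTopologicalGroup G ∧ PolishSpace G ∧
      ContractibleSpace G ∧ Group.IsNilpotent G ∧
      Hyp Γ₁ τ U₁ ∧ Hyp Γ₂ τ U₂ ∧
      {n : ℤ | τ ^ n • x₁ ∈ U₁} = {n : ℤ | τ ^ n • x₂ ∈ U₂} ∧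
      ¬ ∃ φ : (G ⧸ Γ₁) ≃ₜ (G ⧸ Γ₂), ∀ x, φ (τ • x) = τ • φ x := by
  refine ⟨Heis, inferInstance, inferInstance, inferInstance, Γ 2, Γ 1, τ, pr ⁻¹' V, V,
    P 2 0 0 0, P 1 0 0 0, inferInstance, inferInstance, inferInstance, inferInstance,
    inferInstance, hyp2, hyp1, ?_, not_iso⟩
  ext n
  rw [mem_ofPred_eq, mem_ofPred_eq, mem_preimage, pr_smul, pr_P]

end Pool.Agent.Helper59.NilMin
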