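import Mathlib

/-! Definitions for MP_2eb075_an: mappings with A-parametric representation on the unit ball
of `ℂ²`, where `A = diag(lam, 1)`. -/

open MeasureTheory Filter Metric

namespace Pool.Agent.Helper59.SuppDefs

/-- `ℂ²` with the Euclidean norm. -/
abbrev C2 : Type := EuclideanSpace ℂ (Fin 2)

/-- The class `N_A`: holomorphic `h` on the ball with `h(0)=0`, `Dh(0)=A=diag(lam,1)` and
`Re ⟨h(z),z⟩ > 0` for `z ≠ 0`. -/
def InN (lam : ℝ) (h : C2 → C2) : Prop :=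
  DifferentiableOn ℂ h (ball 0 1) ∧ h 0 = 0 ∧
  (∀ w : C2, fderiv ℂ h 0 w = !₂[(lam : ℂ) * w 0, w 1]) ∧
  ∀ z ∈ ball (0 : C2) 1, z ≠ 0 → 0 < (inner ℂ z (h z)).re

/-- Herglotz vector fields `h(z,t) = A z + ⋯`. -/
def IsHerglotz (lam : ℝ) (h : C2 → ℝ → C2) : Prop :=
  (∀ᵐ t ∂(volume.restrict (Set.Ici (0 : ℝ))), InN lam (fun z => h z t)) ∧
  ∀ z ∈ ball (0 : C2) 1, Measurable (fun t : Set.Ici (0 : ℝ) => h z t)

/-- `e^{tA}` for `A = diag(lam,1)`. -/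
noncomputable def expA (lam t : ℝ) (w : C2) : C2 :=
  !₂[(Real.exp (lam * t) : ℂ) * w 0, (Real.exp t : ℂ) * w 1]

/-- `f` is a normalized holomorphic mapping on the ball having A-parametric representation:
`f(z) = lim e^{tA} v(z,t)` locally uniformly, where `∂_t v = -h(v,t)` a.e., `v(z,0)=z`, for a
Herglotz vector field `h`. -/
def HasParamRep (lam : ℝ) (f : C2 → C2) : Prop :=
  DifferentiableOn ℂ f (ball 0 1) ∧ f 0 = 0 ∧ fderiv ℂ f 0 = ContinuousLinearMap.id ℂ C2 ∧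
  ∃ (h : C2 → ℝ → C2) (v : C2 → ℝ → C2), IsHerglotz lam h ∧
    (∀ z ∈ ball (0 : C2) 1, v z 0 = z ∧ (∀ t : ℝ, 0 ≤ t → v z t ∈ ball (0 : C2) 1) ∧
      (∀ T : ℝ, 0 < T → AbsolutelyContinuousOnInterval (v z) 0 T) ∧
      ∀ᵐ t ∂(volume.restrict (Set.Ici (0 : ℝ))), HasDerivAt (v z) (-(h (v z t) t)) t) ∧
    TendstoLocallyUniformlyOn (fun (t : ℝ) (z : C2) => expA lam t (v z t)) f atTop (ball 0 1)

/-- The class `S_A^0(𝔹²)`, as a set of functions on the unit ball. -/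
def SA0 (lam : ℝ) : Set (ball (0 : C2) 1 → C2) :=
  {f | ∃ g : C2 → C2, HasParamRep lam g ∧ ∀ z : ball (0 : C2) 1, f z = g z}

/-- `a₀ = max {a > 0 : lam x² + y² - a x y² ≥ 0 for all x, y ≥ 0 with x² + y² ≤ 1}`. -/
noncomputable def a0 (lam : ℝ) : ℝ :=
  sSup {a : ℝ | 0 < a ∧ ∀ x y : ℝ, 0 ≤ x → 0 ≤ y → x ^ 2 + y ^ 2 ≤ 1 →
    0 ≤ lam * x ^ 2 + y ^ 2 - a * x * y ^ 2}

/-- `F(z) = (z₁ + a₀/(2-lam) z₂², z₂)` on the ball. -/
noncomputable def F (lam : ℝ) (z : ball (0 : C2) 1) : C2 :=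
  !₂[z.1 0 + ((a0 lam / (2 - lam) : ℝ) : ℂ) * z.1 1 ^ 2, z.1 1]

end Pool.Agent.Helper59.SuppDefs
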