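import Mathlib

/-! Quadratic root with parameters. -/

namespace Pool.Agent.Helper59.Supp

open Complex

theorem sqrt_sq' (D : ℂ) : Complex.sqrt D ^ 2 = D := by
  unfold Complex.sqrt
  rw [← Complex.cpow_nat_mul]
  norm_num

theorem mem_slit {D : ℂ} (h : ‖D - 1‖ < 1) : D ∈ slitPlane := by
  left
  have h1 : |(D - 1).re| < 1 := lt_of_le_of_lt (abs_re_le_norm _) h
  rw [sub_re, one_re] at h1
  linarith [(abs_lt.1 h1).1]

theorem sqrt_re_pos {D : ℂ} (h : ‖D - 1‖ < 1) : 0 < (Complex.sqrt D).re := by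
  unfold Complex.sqrt
  rw [cpow_inv_two_re]
  apply Real.sqrt_pos.2
  have h1 : |(D - 1).re| < 1 := lt_of_le_of_lt (abs_re_le_norm _) h
  rw [sub_re, one_re] at h1
  have h2 := norm_nonneg D
  linarith [(abs_lt.1 h1).1]

theorem eq_sqrt {D T : ℂ} (h : ‖D - 1‖ < 1) (hT : T ^ 2 = D) (hre : 0 < T.re) :
    T = Complex.sqrt D := by
  have h1 := sqrt_re_pos h
  have h2 := sqrt_sq' D
  have h3 : (T - Complex.sqrt D) * (T + Complex.sqrt D) = 0 := by
    linear_combination hT - h2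
  rcases mul_eq_zero.1 h3 with h4 | h4
  · exact sub_eq_zero.1 h4
  · exfalso
    have : (T + Complex.sqrt D).re = 0 := by rw [h4]; simp
    rw [add_re] at this
    linarith

/-- root of `α w² + β w = γ` -/
noncomputable def qroot (α β γ : ℂ) : ℂ := 2 * γ / (β + Complex.sqrt (β ^ 2 + 4 * α * γ))

variable {α β γ : ℂ}

theorem den_ne (hβ : 0 < β.re) (hD : ‖β ^ 2 + 4 * α * γ - 1‖ < 1) :
    β + Complex.sqrt (β ^ 2 + 4 * α * γ) ≠ 0 := by
  intro h
  have h1 := sqrt_re_pos hD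
  have h2 : (β + Complex.sqrt (β ^ 2 + 4 * α * γ)).re = 0 := by rw [h]; simp
  rw [add_re] at h2
  linarith

theorem sqrt_ne (hD : ‖β ^ 2 + 4 * α * γ - 1‖ < 1) :
    Complex.sqrt (β ^ 2 + 4 * α * γ) ≠ 0 := by
  intro h
  have h1 := sqrt_re_pos hD
  rw [h] at h1
  simp at h1

theorem qroot_eq (hβ : 0 < β.re) (hD : ‖β ^ 2 + 4 * α * γ - 1‖ < 1) :
    α * qroot α β γ ^ 2 + β * qroot α β γ = γ := by
  have h1 := den_ne hβ hD
  have h2 := sqrt_sq' (β ^ 2 + 4 * α * γ)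
  unfold qroot
  generalize Complex.sqrt (β ^ 2 + 4 * α * γ) = S at *
  field_simp
  linear_combination (-γ) * h2

theorem qroot_sqrt (hβ : 0 < β.re) (hD : ‖β ^ 2 + 4 * α * γ - 1‖ < 1) :
    β + 2 * α * qroot α β γ = Complex.sqrt (β ^ 2 + 4 * α * γ) := by
  have h1 := den_ne hβ hD
  have h2 := sqrt_sq' (β ^ 2 + 4 * α * γ)
  unfold qroot
  generalize Complex.sqrt (β ^ 2 + 4 * α * γ) = S at *
  field_simp
  linear_combination (-1) * h2

theorem eq_qroot {w : ℂ} (hβ : 0 < β.re) (hD : ‖β ^ 2 + 4 * α * γ - 1‖ < 1)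
    (hw : α * w ^ 2 + β * w = γ) (hre : 0 < (β + 2 * α * w).re) : w = qroot α β γ := by
  have h1 : β + 2 * α * w = Complex.sqrt (β ^ 2 + 4 * α * γ) := by
    apply eq_sqrt hD _ hre
    rw [← hw]; ring
  have h2 := den_ne hβ hD
  unfold qroot
  rw [eq_div_iff h2, ← h1, ← hw]
  ring

theorem norm_qroot_le (hβ : 1 / 2 ≤ β.re) (hD : ‖β ^ 2 + 4 * α * γ - 1‖ < 1) :
    ‖qroot α β γ‖ ≤ 4 * ‖γ‖ := by
  have h1 := sqrt_re_pos hD
  have h2 : 1 / 2 ≤ ‖β + Complex.sqrt (β ^ 2 + 4 * α * γ)‖ := by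
    refine le_trans ?_ (re_le_norm _)
    rw [add_re]; linarith
  unfold qroot
  rw [norm_div, div_le_iff₀ (by linarith), norm_mul, Complex.norm_ofNat]
  nlinarith [norm_nonneg γ]

theorem hasDerivAt_qroot {α : ℂ} {β γ : ℝ → ℂ} {β' γ' : ℂ} {t : ℝ}
    (hβt : HasDerivAt β β' t) (hγt : HasDerivAt γ γ' t)
    (hβ : 0 < (β t).re) (hD : ‖β t ^ 2 + 4 * α * γ t - 1‖ < 1) :
    HasDerivAt (fun t => qroot α (β t) (γ t))
      ((γ' - β' * qroot α (β t) (γ t)) / Complex.sqrt (β t ^ 2 + 4 * α * γ t)) t := by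
  have hden := den_ne hβ hD
  have hS0 := sqrt_ne hD
  have hDd : HasDerivAt (fun t => β t ^ 2 + 4 * α * γ t) (2 * β t * β' + 4 * α * γ') t := by
    have h1 := (hβt.pow 2).add (hγt.const_mul (4 * α))
    refine h1.congr_deriv ?_
    norm_num
  have hSd := (Complex.hasDerivAt_sqrt (mem_slit hD)).scomp t hDd
  have hnum : HasDerivAt (fun t => 2 * γ t) (2 * γ') t := hγt.const_mul 2
  have h3 := hnum.div (hβt.add hSd) hden
  refine h3.congr_deriv ?_
  have hpow : (β t ^ 2 + 4 * α * γ t) ^ (-1 / 2 : ℂ)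
      = (Complex.sqrt (β t ^ 2 + 4 * α * γ t))⁻¹ := by
    unfold Complex.sqrt
    rw [← Complex.cpow_neg]
    congr 1
    norm_num
  have h2 := sqrt_sq' (β t ^ 2 + 4 * α * γ t)
  simp only [Function.comp, smul_eq_mul, Pi.add_apply] at *
  rw [hpow]
  unfold qroot
  generalize Complex.sqrt (β t ^ 2 + 4 * α * γ t) = S at *
  field_simp
  linear_combination (γ') * h2

end Pool.Agent.Helper59.Supp
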