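import Mathlib

/-! Real inequalities for MP_2eb075_an. -/

namespace Pool.Agent.Helper59.Supp

open Real

/-- the set whose maximum is `a₀` -/
def aSet (lam : ℝ) : Set ℝ :=
  {a : ℝ | 0 < a ∧ ∀ x y : ℝ, 0 ≤ x → 0 ≤ y → x ^ 2 + y ^ 2 ≤ 1 →
    0 ≤ lam * x ^ 2 + y ^ 2 - a * x * y ^ 2}

/-- data: the parameters attached to `lam` -/
structure Par (lam : ℝ) where
  x0 : ℝ
  hx0 : 0 < x0
  hs : x0 ^ 2 ≤ 1 / 3
  hquad : (lam - 1) * (x0 ^ 2) ^ 2 + (lam + 2) * x0 ^ 2 - 1 = 0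
  hlam : 1 ≤ lam

theorem exists_par {lam : ℝ} (h1 : 1 ≤ lam) : Nonempty (Par lam) := by
  set d := √(lam ^ 2 + 8 * lam) with hd
  have hd0 : 0 < d := Real.sqrt_pos.2 (by positivity)
  have hd2 : d ^ 2 = lam ^ 2 + 8 * lam := Real.sq_sqrt (by positivity)
  have hpos : 0 < lam + 2 + d := by positivity
  set s := 2 / (lam + 2 + d) with hs
  have hs0 : 0 < s := by positivity
  have hd3 : 3 ≤ d := by
    rw [hd]
    apply Real.le_sqrt_of_sq_le
    nlinarith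
  refine ⟨⟨√s, Real.sqrt_pos.2 hs0, ?_, ?_, h1⟩⟩
  · rw [Real.sq_sqrt hs0.le, hs, div_le_div_iff₀ hpos (by norm_num)]
    linarith
  · rw [Real.sq_sqrt hs0.le, hs]
    field_simp
    nlinarith [hd2]

theorem Q_aux {lam x0 : ℝ} (x : ℝ) (hx0 : 0 < x0)
    (hquad : (lam - 1) * (x0 ^ 2) ^ 2 + (lam + 2) * x0 ^ 2 - 1 = 0) :
    lam * x ^ 2 + (1 - x ^ 2) * (1 - 2 / (x0 * (1 + x0 ^ 2)) * x)
    = (x - x0) ^ 2 * (2 / (x0 * (1 + x0 ^ 2)) * x + 1 / x0 ^ 2) := by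
  have h1 : (1 + x0 ^ 2) ≠ 0 := by positivity
  obtain rfl : lam = (1 - x0 ^ 2) ^ 2 / (x0 ^ 2 * (1 + x0 ^ 2)) := by
    rw [eq_div_iff (by positivity)]
    linarith
  field_simp
  ring

namespace Par

variable {lam : ℝ} (p : Par lam)

noncomputable def a0 : ℝ := 2 / (p.x0 * (1 + p.x0 ^ 2))
noncomputable def κ : ℝ := p.x0 / (1 - p.x0 ^ 2)

theorem s_pos : 0 < p.x0 ^ 2 := by have := p.hx0; positivity

theorem a0_pos : 0 < p.a0 := by
  have := p.hx0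
  unfold a0; positivity

theorem one_sub_pos : 0 < 1 - p.x0 ^ 2 := by have := p.hs; linarith

theorem κ_pos : 0 < p.κ := div_pos p.hx0 p.one_sub_pos

theorem x0_eq : p.κ * (1 - p.x0 ^ 2) = p.x0 := by
  unfold κ
  field_simp [p.one_sub_pos.ne']

theorem x0_lt : p.x0 < 3 / 5 := by
  have := p.hs; have := p.hx0
  nlinarith

theorem κ_le : p.κ ≤ 7 / 8 := by
  have h1 := p.hs
  have h2 := p.hx0
  have h3 := p.x0_eq
  have h4 := p.κ_pos
  have h5 : p.κ * (2 / 3) ≤ p.x0 := by nlinarith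
  nlinarith

theorem Q_eq (x : ℝ) : lam * x ^ 2 + (1 - x ^ 2) * (1 - p.a0 * x)
    = (x - p.x0) ^ 2 * (p.a0 * x + 1 / p.x0 ^ 2) := Q_aux x p.hx0 p.hquad

theorem inv_s : 3 ≤ 1 / p.x0 ^ 2 := by
  rw [le_div_iff₀ p.s_pos]
  have := p.hs
  linarith

theorem κ_le_a0 : p.κ ≤ p.a0 := by
  have h1 := p.κ_le
  have h2 := p.hs
  have h3 := p.x0_lt
  have h4 := p.hx0
  have : 1 ≤ p.a0 := by
    unfold a0
    rw [le_div_iff₀ (by positivity)]
    nlinarith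
  linarith

theorem Q_ge {x : ℝ} (hx : 0 ≤ x) (hx1 : x ≤ 1) :
    (x - p.κ * (1 - x ^ 2)) ^ 2 / 2 ≤ lam * x ^ 2 + (1 - x ^ 2) * (1 - p.a0 * x) := by
  rw [p.Q_eq]
  have h1 : x - p.κ * (1 - x ^ 2) = (x - p.x0) * (1 + p.κ * (x + p.x0)) := by
    have := p.x0_eq
    linear_combination -this
  rw [h1, mul_pow]
  have h2 : (1 + p.κ * (x + p.x0)) ^ 2 / 2 ≤ 3 := by
    have hκ := p.κ_le
    have hκ0 := p.κ_pos
    have hx0 := p.hx0
    have hs := p.hs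
    have e1 : p.κ * (x + p.x0) ≤ 7 / 8 * (1 + p.x0) := by
      apply mul_le_mul hκ (by linarith) (by linarith) (by norm_num)
    have e2 : p.x0 ≤ 0.5774 := by nlinarith
    have e3 : p.κ * (x + p.x0) ≤ 1.381 := by linarith
    have e4 : 0 ≤ p.κ * (x + p.x0) := by positivity
    nlinarith
  have h3 : 0 ≤ p.a0 * x := mul_nonneg p.a0_pos.le hx
  have h4 := p.inv_s
  have h5 : 0 ≤ (x - p.x0) ^ 2 := sq_nonneg _
  nlinarith

theorem P_ge {x Y : ℝ} (hx : 0 ≤ x) (hY : 0 ≤ Y) (hxY : x ^ 2 + Y ≤ 1) :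
    (x - p.κ * Y) ^ 2 / 2 ≤ lam * x ^ 2 + Y * (1 - p.a0 * x) := by
  have hl := p.hlam
  have hx1 : x ≤ 1 := by nlinarith
  rcases eq_or_lt_of_le (show x ^ 2 ≤ 1 by nlinarith) with h | h
  · have hY0 : Y = 0 := by linarith
    subst hY0
    nlinarith [sq_nonneg x]
  · set m := 1 - x ^ 2 with hm
    have hm0 : 0 < m := by linarith
    have hYm : Y ≤ m := by linarith
    have key := p.Q_ge hx hx1
    rw [← hm] at key
    have hid : m * (lam * x ^ 2 + Y * (1 - p.a0 * x) - (x - p.κ * Y) ^ 2 / 2)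
        = (m - Y) * (lam * x ^ 2 - x ^ 2 / 2)
          + Y * (lam * x ^ 2 + m * (1 - p.a0 * x) - (x - p.κ * m) ^ 2 / 2)
          + p.κ ^ 2 / 2 * (m * (Y * (m - Y))) := by ring
    have h1 : 0 ≤ (m - Y) * (lam * x ^ 2 - x ^ 2 / 2) := by
      apply mul_nonneg (by linarith)
      nlinarith [sq_nonneg x]
    have h2 : 0 ≤ Y * (lam * x ^ 2 + m * (1 - p.a0 * x) - (x - p.κ * m) ^ 2 / 2) :=
      mul_nonneg hY (by linarith)
    have h3 : 0 ≤ p.κ ^ 2 / 2 * (m * (Y * (m - Y))) := by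
      have : 0 ≤ m - Y := by linarith
      positivity
    have h4 : 0 ≤ m * (lam * x ^ 2 + Y * (1 - p.a0 * x) - (x - p.κ * Y) ^ 2 / 2) := by
      rw [hid]; linarith
    have := nonneg_of_mul_nonneg_right h4 hm0
    linarith

theorem Q_nonneg {x : ℝ} (hx : 0 ≤ x) : 0 ≤ lam * x ^ 2 + (1 - x ^ 2) * (1 - p.a0 * x) := by
  rw [p.Q_eq]
  have := p.a0_pos
  have := p.inv_s
  positivity

theorem P_pos {x Y : ℝ} (hx : 0 ≤ x) (hY : 0 ≤ Y) (hxY : x ^ 2 + Y < 1)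
    (hne : 0 < x ^ 2 + Y) :
    0 < lam * x ^ 2 + Y * (1 - p.a0 * x) := by
  have hl := p.hlam
  set m := 1 - x ^ 2 with hm
  have hm0 : 0 < m := by nlinarith
  have hYm : Y < m := by linarith
  have key := p.Q_nonneg hx
  rw [← hm] at key
  have hid : m * (lam * x ^ 2 + Y * (1 - p.a0 * x))
      = (m - Y) * (lam * x ^ 2) + Y * (lam * x ^ 2 + m * (1 - p.a0 * x)) := by ring
  rcases eq_or_lt_of_le hx with h | h
  · subst h
    simp
    nlinarith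
  · have h1 : 0 < (m - Y) * (lam * x ^ 2) := by
      apply mul_pos (by linarith) (by positivity)
    have h2 : 0 ≤ Y * (lam * x ^ 2 + m * (1 - p.a0 * x)) := mul_nonneg hY key
    have h4 : 0 < m * (lam * x ^ 2 + Y * (1 - p.a0 * x)) := by
      rw [hid]; linarith
    exact (mul_pos_iff_of_pos_left hm0).1 h4

theorem isGreatest_a0 : IsGreatest (aSet lam) p.a0 := by
  constructor
  · refine ⟨p.a0_pos, fun x y hx hy hxy => ?_⟩
    have := p.P_ge hx (sq_nonneg y) hxy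
    nlinarith [sq_nonneg (x - p.κ * y ^ 2)]
  · rintro a ⟨ha, h⟩
    have hs := p.one_sub_pos
    have h1 := h p.x0 √(1 - p.x0 ^ 2) p.hx0.le (Real.sqrt_nonneg _)
      (by rw [Real.sq_sqrt hs.le]; linarith)
    rw [Real.sq_sqrt hs.le] at h1
    have h2 := p.Q_eq p.x0
    rw [sub_self] at h2
    have h3 : (a - p.a0) * (p.x0 * (1 - p.x0 ^ 2)) ≤ 0 := by nlinarith
    have h4 : 0 < p.x0 * (1 - p.x0 ^ 2) := mul_pos p.hx0 hs
    by_contra hc
    push Not at hc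
    have : 0 < (a - p.a0) * (p.x0 * (1 - p.x0 ^ 2)) := mul_pos (by linarith) h4
    linarith

theorem sSup_eq : sSup (aSet lam) = p.a0 := p.isGreatest_a0.csSup_eq

end Par

end Pool.Agent.Helper59.Supp
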