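import Mathlib
import Pool.Agent.Helper59.SuppDefs
import Pool.Agent.Helper59.SuppReal
import Pool.Agent.Helper59.SuppFlow

namespace Pool.Agent.Helper59.Supp

open Complex MeasureTheory Filter Metric Set Topology SuppDefs

variable {lam : ℝ} (p : Par lam)

namespace Par

noncomputable def b : ℝ := p.a0 / (2 - lam)
noncomputable def c : ℝ := p.κ + p.b
noncomputable def B : ℝ := 1 + p.b + p.c

/-- the polynomial `Δ₁` -/
noncomputable def PP (w1 w2 : ℂ) : ℂ :=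
  -w1 ^ 2 / lam + p.c * w1 * w2 ^ 2 - p.c ^ 2 * w2 ^ 4 / (4 - lam)

noncomputable def PP1 (w1 w2 : ℂ) : ℂ := -2 * w1 / lam + p.c * w2 ^ 2

/-- first coordinate of `F` -/
noncomputable def W (z : C2) : ℂ := z 0 + p.b * z 1 ^ 2

noncomputable def f1 (ε : ℝ) (z : C2) : ℂ := p.W z + ε * p.PP (p.W z) (z 1)

noncomputable def f (ε : ℝ) (z : C2) : C2 := !₂[p.f1 ε z, z 1]

noncomputable def ψ (z : C2) : ℂ := z 0 - p.κ * z 1 ^ 2

noncomputable def h (ε : ℝ) (z : C2) : C2 :=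
  !₂[lam * z 0 - p.a0 * z 1 ^ 2 + ε * p.ψ z ^ 2 / (1 + ε * p.PP1 (p.W z) (z 1)), z 1]

theorem norm_coord_sq (z : C2) : ‖z‖ ^ 2 = ‖z 0‖ ^ 2 + ‖z 1‖ ^ 2 := by
  rw [EuclideanSpace.norm_sq_eq, Fin.sum_univ_two]

theorem norm0_le {z : C2} (hz : ‖z‖ ≤ 1) : ‖z 0‖ ≤ 1 := by
  have := norm_coord_sq z
  nlinarith [norm_nonneg (z 0), norm_nonneg (z 1), norm_nonneg z]

theorem norm1_le {z : C2} (hz : ‖z‖ ≤ 1) : ‖z 1‖ ≤ 1 := by
  have := norm_coord_sq z
  nlinarith [norm_nonneg (z 0), norm_nonneg (z 1), norm_nonneg z]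

theorem norm0_le' (z : C2) : ‖z 0‖ ≤ ‖z‖ := by
  have := norm_coord_sq z
  nlinarith [norm_nonneg (z 0), norm_nonneg (z 1), norm_nonneg z]

theorem norm1_le' (z : C2) : ‖z 1‖ ≤ ‖z‖ := by
  have := norm_coord_sq z
  nlinarith [norm_nonneg (z 0), norm_nonneg (z 1), norm_nonneg z]

section
variable (h2 : lam < 2)
include h2

theorem b_pos : 0 < p.b := div_pos p.a0_pos (by linarith)
theorem c_pos : 0 < p.c := by have := p.κ_pos; have := p.b_pos h2; unfold c; positivity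
theorem one_le_B : 1 ≤ p.B := by
  have := p.b_pos h2; have := p.c_pos h2; unfold B; linarith
theorem c_le_B : p.c ≤ p.B := by
  have := p.b_pos h2; unfold B; linarith
theorem W_le {z : C2} (hz : ‖z‖ ≤ 1) : ‖p.W z‖ ≤ p.B := by
  have h0 := norm0_le hz
  have h1 := norm1_le hz
  have hb := p.b_pos h2
  have hc := p.c_pos h2
  calc ‖p.W z‖ ≤ ‖z 0‖ + ‖(p.b : ℂ) * z 1 ^ 2‖ := norm_add_le _ _
    _ = ‖z 0‖ + p.b * ‖z 1‖ ^ 2 := by
        rw [norm_mul, norm_pow, Complex.norm_real, Real.norm_of_nonneg hb.le]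
    _ ≤ 1 + p.b * 1 := by
        gcongr
        nlinarith [norm_nonneg (z 1)]
    _ ≤ p.B := by unfold B; linarith

theorem PP1_le {w1 w2 : ℂ} (hw1 : ‖w1‖ ≤ p.B) (hw2 : ‖w2‖ ≤ 1) : ‖p.PP1 w1 w2‖ ≤ 3 * p.B ^ 2 := by
  have hl := p.hlam
  have hB := p.one_le_B h2
  have hc := p.c_pos h2
  have hcB := p.c_le_B h2
  have e1 : ‖-2 * w1 / (lam : ℂ)‖ ≤ 2 * p.B := by
    rw [norm_div, norm_mul, norm_neg, Complex.norm_ofNat, Complex.norm_real,
      Real.norm_of_nonneg (by linarith)]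
    rw [div_le_iff₀ (by linarith)]
    nlinarith [norm_nonneg w1]
  have e2 : ‖(p.c : ℂ) * w2 ^ 2‖ ≤ p.B := by
    rw [norm_mul, norm_pow, Complex.norm_real, Real.norm_of_nonneg hc.le]
    have : ‖w2‖ ^ 2 ≤ 1 := by nlinarith [norm_nonneg w2]
    nlinarith
  calc ‖p.PP1 w1 w2‖ ≤ _ := norm_add_le _ _
    _ ≤ 2 * p.B + p.B := add_le_add e1 e2
    _ ≤ 3 * p.B ^ 2 := by nlinarith

theorem PP_bound {w1 w2 : ℂ} : ‖p.PP w1 w2‖ ≤ ‖w1‖ ^ 2 + p.B * ‖w1‖ * ‖w2‖ ^ 2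
    + p.B ^ 2 * ‖w2‖ ^ 4 := by
  have hl := p.hlam
  have hB := p.one_le_B h2
  have hc := p.c_pos h2
  have hcB := p.c_le_B h2
  have e1 : ‖-w1 ^ 2 / (lam : ℂ)‖ ≤ ‖w1‖ ^ 2 := by
    rw [norm_div, norm_neg, norm_pow, Complex.norm_real, Real.norm_of_nonneg (by linarith)]
    rw [div_le_iff₀ (by linarith)]
    nlinarith [norm_nonneg w1, sq_nonneg ‖w1‖]
  have e2 : ‖(p.c : ℂ) * w1 * w2 ^ 2‖ ≤ p.B * ‖w1‖ * ‖w2‖ ^ 2 := by
    rw [norm_mul, norm_mul, norm_pow, Complex.norm_real, Real.norm_of_nonneg hc.le]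
    gcongr
  have e3 : ‖(p.c : ℂ) ^ 2 * w2 ^ 4 / (4 - lam)‖ ≤ p.B ^ 2 * ‖w2‖ ^ 4 := by
    have : ((4 : ℂ) - lam) = ((4 - lam : ℝ) : ℂ) := by push_cast; ring
    rw [norm_div, norm_mul, norm_pow, norm_pow, Complex.norm_real, Real.norm_of_nonneg hc.le,
      this, Complex.norm_real, Real.norm_of_nonneg (by linarith)]
    rw [div_le_iff₀ (by linarith)]
    have h1 : p.c ^ 2 ≤ p.B ^ 2 := by nlinarith
    have h3 : 0 ≤ ‖w2‖ ^ 4 := by positivity
    have h4 : 0 ≤ p.B ^ 2 * ‖w2‖ ^ 4 := by positivity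
    nlinarith [mul_le_mul_of_nonneg_right h1 h3]
  calc ‖p.PP w1 w2‖ ≤ ‖-w1 ^ 2 / (lam : ℂ) + (p.c : ℂ) * w1 * w2 ^ 2‖
        + ‖(p.c : ℂ) ^ 2 * w2 ^ 4 / (4 - lam)‖ := norm_sub_le _ _
    _ ≤ (‖-w1 ^ 2 / (lam : ℂ)‖ + ‖(p.c : ℂ) * w1 * w2 ^ 2‖)
        + ‖(p.c : ℂ) ^ 2 * w2 ^ 4 / (4 - lam)‖ := by gcongr; exact norm_add_le _ _
    _ ≤ _ := by linarith

theorem PP_le {w1 w2 : ℂ} (hw1 : ‖w1‖ ≤ p.B) (hw2 : ‖w2‖ ≤ 1) : ‖p.PP w1 w2‖ ≤ 3 * p.B ^ 2 := by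
  refine (p.PP_bound h2).trans ?_
  have hB := p.one_le_B h2
  have e2 : ‖w2‖ ^ 2 ≤ 1 := by nlinarith [norm_nonneg w2]
  have e4 : ‖w2‖ ^ 4 ≤ 1 := by
    have : ‖w2‖ ^ 4 = (‖w2‖ ^ 2) ^ 2 := by ring
    rw [this]; nlinarith [sq_nonneg ‖w2‖]
  have e1 : ‖w1‖ ^ 2 ≤ p.B ^ 2 := by nlinarith [norm_nonneg w1]
  have e3 : p.B * ‖w1‖ * ‖w2‖ ^ 2 ≤ p.B * p.B * 1 := by gcongr
  have e5 : p.B ^ 2 * ‖w2‖ ^ 4 ≤ p.B ^ 2 * 1 := by gcongr
  nlinarith

/-- the denominators are bounded below -/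
theorem den_ge {ε : ℝ} (hε : |ε| * p.B ^ 2 ≤ 1 / 32) {w1 w2 : ℂ} (hw1 : ‖w1‖ ≤ p.B)
    (hw2 : ‖w2‖ ≤ 1) : ‖(ε : ℂ) * p.PP1 w1 w2‖ ≤ 3 / 32 := by
  rw [norm_mul, Complex.norm_real, Real.norm_eq_abs]
  have := p.PP1_le h2 hw1 hw2
  have h0 := abs_nonneg ε
  nlinarith

end

theorem inner_h (ε : ℝ) (z : C2) : (inner ℂ z (p.h ε z)).re
    = lam * ‖z 0‖ ^ 2 + ‖z 1‖ ^ 2 - p.a0 * (z 1 ^ 2 * (starRingEnd ℂ) (z 0)).re
      + (ε * p.ψ z ^ 2 / (1 + ε * p.PP1 (p.W z) (z 1)) * (starRingEnd ℂ) (z 0)).re := by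
  rw [PiLp.inner_apply, Fin.sum_univ_two]
  simp only [h, RCLike.inner_apply, PiLp.toLp_apply, Matrix.cons_val_zero, Matrix.cons_val_one,
    Matrix.cons_val_fin_one]
  have e0 : ∀ w : ℂ, w * (starRingEnd ℂ) w = ((‖w‖ ^ 2 : ℝ) : ℂ) := by
    intro w; rw [Complex.mul_conj, Complex.normSq_eq_norm_sq]
  have e1 : (lam * z 0 - p.a0 * z 1 ^ 2 + ε * p.ψ z ^ 2 / (1 + ε * p.PP1 (p.W z) (z 1)))
      * (starRingEnd ℂ) (z 0)
      = ((lam * ‖z 0‖ ^ 2 : ℝ) : ℂ) - p.a0 * (z 1 ^ 2 * (starRingEnd ℂ) (z 0))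
        + ε * p.ψ z ^ 2 / (1 + ε * p.PP1 (p.W z) (z 1)) * (starRingEnd ℂ) (z 0) := by
    have := e0 (z 0)
    push_cast at this ⊢
    linear_combination (lam : ℂ) * this
  rw [e1, e0]
  simp only [add_re, sub_re, ofReal_re, re_ofReal_mul]
  ring

theorem norm_ψ_sq (z : C2) : ‖p.ψ z‖ ^ 2 = ‖z 0‖ ^ 2 + p.κ ^ 2 * (‖z 1‖ ^ 2) ^ 2
    - 2 * p.κ * (z 1 ^ 2 * (starRingEnd ℂ) (z 0)).re := by
  unfold ψ
  rw [← Complex.normSq_eq_norm_sq, Complex.normSq_sub, Complex.normSq_eq_norm_sq,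
    Complex.normSq_eq_norm_sq, norm_mul, norm_pow, Complex.norm_real,
    Real.norm_of_nonneg p.κ_pos.le]
  have : (z 0 * (starRingEnd ℂ) (p.κ * z 1 ^ 2)).re
      = p.κ * (z 1 ^ 2 * (starRingEnd ℂ) (z 0)).re := by
    have h1 : (starRingEnd ℂ) (z 0 * (starRingEnd ℂ) (p.κ * z 1 ^ 2))
        = p.κ * (z 1 ^ 2 * (starRingEnd ℂ) (z 0)) := by
      simp only [map_mul, Complex.conj_conj, conj_ofReal]
      ring
    rw [← Complex.conj_re, h1, re_ofReal_mul]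
  rw [this]
  ring

theorem re_le (z : C2) : (z 1 ^ 2 * (starRingEnd ℂ) (z 0)).re ≤ ‖z 0‖ * ‖z 1‖ ^ 2 := by
  refine (re_le_norm _).trans (le_of_eq ?_)
  rw [norm_mul, norm_pow, RCLike.norm_conj]
  ring

/-- main lower bound -/
theorem base_ge {z : C2} (hz : ‖z‖ ≤ 1) :
    ‖p.ψ z‖ ^ 2 / 2 ≤ lam * ‖z 0‖ ^ 2 + ‖z 1‖ ^ 2
      - p.a0 * (z 1 ^ 2 * (starRingEnd ℂ) (z 0)).re := by
  have hn := norm_coord_sq z
  have h1 := p.P_ge (norm_nonneg (z 0)) (sq_nonneg ‖z 1‖) (by nlinarith [norm_nonneg z])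
  have h2 := re_le z
  have h3 := p.κ_le_a0
  rw [p.norm_ψ_sq]
  nlinarith

theorem base_pos {z : C2} (hz : ‖z‖ < 1) (hz0 : z ≠ 0) :
    0 < lam * ‖z 0‖ ^ 2 + ‖z 1‖ ^ 2
      - p.a0 * (z 1 ^ 2 * (starRingEnd ℂ) (z 0)).re := by
  have hn := norm_coord_sq z
  have hpos : 0 < ‖z‖ := norm_pos_iff.2 hz0
  have h1 := p.P_pos (norm_nonneg (z 0)) (sq_nonneg ‖z 1‖) (by nlinarith [norm_nonneg z])
    (by rw [← hn]; positivity)
  have h2 := re_le z
  have h3 := p.a0_pos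
  nlinarith

theorem inner_pos (h2 : lam < 2) {ε : ℝ} (hε : |ε| * p.B ^ 2 ≤ 1 / 32) {z : C2} (hz : ‖z‖ < 1)
    (hz0 : z ≠ 0) : 0 < (inner ℂ z (p.h ε z)).re := by
  rw [p.inner_h]
  have h1 := p.base_ge hz.le
  have h3 := p.base_pos hz hz0
  have hB := p.one_le_B h2
  have hε' : |ε| ≤ 1 / 32 := by
    have := abs_nonneg ε
    have h1B : 1 ≤ p.B ^ 2 := by nlinarith
    nlinarith
  have hden : 1 / 2 ≤ ‖1 + (ε : ℂ) * p.PP1 (p.W z) (z 1)‖ := by
    have h4 := p.den_ge h2 hε (p.W_le h2 hz.le) (norm1_le hz.le)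
    have h5 : ‖(1 : ℂ)‖ ≤ ‖1 + (ε : ℂ) * p.PP1 (p.W z) (z 1)‖ + ‖(ε : ℂ) * p.PP1 (p.W z) (z 1)‖ := by
      have := norm_sub_le (1 + (ε : ℂ) * p.PP1 (p.W z) (z 1)) ((ε : ℂ) * p.PP1 (p.W z) (z 1))
      simpa using this
    rw [norm_one] at h5
    linarith
  have h6 : -(‖p.ψ z‖ ^ 2 / 16) ≤
      (ε * p.ψ z ^ 2 / (1 + ε * p.PP1 (p.W z) (z 1)) * (starRingEnd ℂ) (z 0)).re := by
    have h7 : ‖ε * p.ψ z ^ 2 / (1 + ε * p.PP1 (p.W z) (z 1)) * (starRingEnd ℂ) (z 0)‖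
        ≤ ‖p.ψ z‖ ^ 2 / 16 := by
      rw [norm_mul, norm_div, norm_mul, norm_pow, RCLike.norm_conj, Complex.norm_real,
        Real.norm_eq_abs]
      have h8 := norm0_le hz.le
      have h9 : |ε| * ‖p.ψ z‖ ^ 2 / ‖1 + (ε : ℂ) * p.PP1 (p.W z) (z 1)‖ ≤ ‖p.ψ z‖ ^ 2 / 16 := by
        rw [div_le_iff₀ (by linarith)]
        nlinarith [sq_nonneg ‖p.ψ z‖, mul_le_mul_of_nonneg_right hε' (sq_nonneg ‖p.ψ z‖),
          mul_le_mul_of_nonneg_left hden (sq_nonneg ‖p.ψ z‖)]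
      have h10 : 0 ≤ ‖p.ψ z‖ ^ 2 / 16 := by positivity
      calc _ ≤ ‖p.ψ z‖ ^ 2 / 16 * 1 := by gcongr
        _ = _ := mul_one _
    have := abs_re_le_norm (ε * p.ψ z ^ 2 / (1 + ε * p.PP1 (p.W z) (z 1)) * (starRingEnd ℂ) (z 0))
    have := (abs_le.1 this).1
    linarith
  nlinarith [sq_nonneg ‖p.ψ z‖]

theorem coord_hasFDerivAt (i : Fin 2) (z : C2) :
    HasFDerivAt (fun z : C2 => z i) (EuclideanSpace.proj i : C2 →L[ℂ] ℂ) z :=
  (EuclideanSpace.proj i : C2 →L[ℂ] ℂ).hasFDerivAt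

theorem coord_differentiableAt (i : Fin 2) (z : C2) :
    DifferentiableAt ℂ (fun z : C2 => z i) z := (coord_hasFDerivAt i z).differentiableAt

theorem differentiableAt_mk {u v : C2 → ℂ} {z : C2} (hu : DifferentiableAt ℂ u z)
    (hv : DifferentiableAt ℂ v z) : DifferentiableAt ℂ (fun z => (!₂[u z, v z] : C2)) z := by
  rw [differentiableAt_euclidean]
  intro i
  fin_cases i
  · simpa using hu
  · simpa using hv

theorem fderiv_mk {u v : C2 → ℂ} {u' v' : C2 →L[ℂ] ℂ} {z : C2} (hu : HasFDerivAt u u' z)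
    (hv : HasFDerivAt v v' z) (w : C2) :
    fderiv ℂ (fun z => (!₂[u z, v z] : C2)) z w = !₂[u' w, v' w] := by
  have hd : DifferentiableAt ℂ (fun z => (!₂[u z, v z] : C2)) z :=
    differentiableAt_mk hu.differentiableAt hv.differentiableAt
  have h0 := ((EuclideanSpace.proj 0 : C2 →L[ℂ] ℂ).hasFDerivAt.comp z hd.hasFDerivAt).unique
    (by simpa [Function.comp_def] using hu)
  have h1 := ((EuclideanSpace.proj 1 : C2 →L[ℂ] ℂ).hasFDerivAt.comp z hd.hasFDerivAt).unique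
    (by simpa [Function.comp_def] using hv)
  ext i
  fin_cases i
  · have := congrArg (fun L : C2 →L[ℂ] ℂ => L w) h0
    simpa using this
  · have := congrArg (fun L : C2 →L[ℂ] ℂ => L w) h1
    simpa using this

theorem mul_hasFDerivAt_zero {u v : C2 → ℂ} {u' v' : C2 →L[ℂ] ℂ} (hu : HasFDerivAt u u' 0)
    (hv : HasFDerivAt v v' 0) (hu0 : u 0 = 0) (hv0 : v 0 = 0 ∨ u' = 0) :
    HasFDerivAt (fun z => u z * v z) (0 : C2 →L[ℂ] ℂ) 0 := by
  refine (hu.mul hv).congr_fderiv ?_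
  rcases hv0 with h | h
  · ext; simp [hu0, h]
  · subst h; ext; simp [hu0]

@[fun_prop]
theorem W_diff (z : C2) : DifferentiableAt ℂ p.W z := by
  unfold W; fun_prop

@[fun_prop]
theorem ψ_diff (z : C2) : DifferentiableAt ℂ p.ψ z := by
  unfold ψ; fun_prop

theorem W_zero : p.W 0 = 0 := by simp [W]

theorem ψ_zero : p.ψ 0 = 0 := by simp [ψ]

@[fun_prop]
theorem PP1_diff (z : C2) : DifferentiableAt ℂ (fun z : C2 => p.PP1 (p.W z) (z 1)) z := by
  unfold PP1; fun_prop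

@[fun_prop]
theorem PP_diff (z : C2) : DifferentiableAt ℂ (fun z : C2 => p.PP (p.W z) (z 1)) z := by
  unfold PP; fun_prop

theorem sq1_zero : HasFDerivAt (fun z : C2 => z 1 ^ 2) (0 : C2 →L[ℂ] ℂ) 0 := by
  have := mul_hasFDerivAt_zero (coord_hasFDerivAt 1 0) (coord_hasFDerivAt 1 0) (by simp)
    (Or.inl (by simp))
  simpa [pow_two] using this

theorem W_hasFDerivAt : HasFDerivAt p.W (EuclideanSpace.proj 0 : C2 →L[ℂ] ℂ) 0 := by
  refine ((coord_hasFDerivAt 0 (0 : C2)).add ((sq1_zero).const_mul (p.b : ℂ))).congr_fderiv ?_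
  ext; simp

theorem PP_hasFDerivAt : HasFDerivAt (fun z : C2 => p.PP (p.W z) (z 1)) (0 : C2 →L[ℂ] ℂ) 0 := by
  have h1 : HasFDerivAt (fun z : C2 => p.W z ^ 2) (0 : C2 →L[ℂ] ℂ) 0 := by
    have := mul_hasFDerivAt_zero p.W_hasFDerivAt p.W_hasFDerivAt p.W_zero (Or.inl p.W_zero)
    simpa [pow_two] using this
  have h2 : HasFDerivAt (fun z : C2 => p.W z * z 1 ^ 2) (0 : C2 →L[ℂ] ℂ) 0 :=
    mul_hasFDerivAt_zero p.W_hasFDerivAt sq1_zero p.W_zero (Or.inl (by simp))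
  have h3 : HasFDerivAt (fun z : C2 => z 1 ^ 2 * z 1 ^ 2) (0 : C2 →L[ℂ] ℂ) 0 :=
    mul_hasFDerivAt_zero sq1_zero sq1_zero (by simp) (Or.inl (by simp))
  have h4 := ((h1.const_mul (-(lam : ℂ)⁻¹)).add (h2.const_mul (p.c : ℂ))).sub
    (h3.const_mul ((p.c : ℂ) ^ 2 / (4 - lam)))
  refine (h4.congr_fderiv (by ext; simp)).congr_of_eventuallyEq
    (Filter.Eventually.of_forall fun z => ?_)
  simp only [PP, Pi.add_apply, Pi.sub_apply]
  ring

theorem f_diff (ε : ℝ) (z : C2) : DifferentiableAt ℂ (p.f ε) z := by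
  apply differentiableAt_mk _ (coord_differentiableAt 1 z)
  unfold f1
  fun_prop

theorem f_fderiv (ε : ℝ) : fderiv ℂ (p.f ε) 0 = ContinuousLinearMap.id ℂ C2 := by
  ext1 w
  have h1 : HasFDerivAt (p.f1 ε) (EuclideanSpace.proj 0 : C2 →L[ℂ] ℂ) 0 := by
    refine (p.W_hasFDerivAt.add (p.PP_hasFDerivAt.const_mul (ε : ℂ))).congr_fderiv ?_
    ext; simp
  have := fderiv_mk h1 (coord_hasFDerivAt 1 0) w
  unfold f
  rw [this]
  ext i
  fin_cases i <;> simp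

theorem f_zero (ε : ℝ) : p.f ε 0 = 0 := by
  ext i
  fin_cases i <;> simp [f, f1, PP, p.W_zero]

theorem h_zero (ε : ℝ) : p.h ε 0 = 0 := by
  ext i
  fin_cases i <;> simp [h, p.ψ_zero]

section
variable (h2 : lam < 2) {ε : ℝ} (hε : |ε| * p.B ^ 2 ≤ 1 / 32)
include h2 hε

theorem den_ne {z : C2} (hz : ‖z‖ ≤ 1) : 1 + (ε : ℂ) * p.PP1 (p.W z) (z 1) ≠ 0 := by
  intro h
  have h4 := p.den_ge h2 hε (p.W_le h2 hz) (norm1_le hz)
  have : (ε : ℂ) * p.PP1 (p.W z) (z 1) = -1 := by linear_combination h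
  rw [this, norm_neg, norm_one] at h4
  norm_num at h4

theorem inv_diff {z : C2} (hz : ‖z‖ ≤ 1) :
    DifferentiableAt ℂ (fun z : C2 => (1 + (ε : ℂ) * p.PP1 (p.W z) (z 1))⁻¹) z := by
  apply DifferentiableAt.fun_inv
  · fun_prop
  · exact p.den_ne h2 hε hz

theorem h_diff {z : C2} (hz : ‖z‖ ≤ 1) : DifferentiableAt ℂ (p.h ε) z := by
  apply differentiableAt_mk _ (coord_differentiableAt 1 z)
  have := p.inv_diff h2 hε hz
  simp only [div_eq_mul_inv]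
  fun_prop

theorem h_fderiv (w : C2) : fderiv ℂ (p.h ε) 0 w = !₂[(lam : ℂ) * w 0, w 1] := by
  have hd := p.inv_diff h2 hε (z := 0) (by simp)
  have hψ : HasFDerivAt (fun z => p.ψ z ^ 2) (0 : C2 →L[ℂ] ℂ) 0 := by
    have := mul_hasFDerivAt_zero (p.ψ_diff 0).hasFDerivAt (p.ψ_diff 0).hasFDerivAt p.ψ_zero
      (Or.inl p.ψ_zero)
    simpa [pow_two] using this
  have h3 := mul_hasFDerivAt_zero hψ hd.hasFDerivAt (by simp [p.ψ_zero]) (Or.inr rfl)
  have h1 : HasFDerivAt (fun z : C2 => (lam : ℂ) * z 0 - p.a0 * z 1 ^ 2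
      + ε * p.ψ z ^ 2 / (1 + ε * p.PP1 (p.W z) (z 1)))
      ((lam : ℂ) • (EuclideanSpace.proj 0 : C2 →L[ℂ] ℂ)) 0 := by
    have := (((coord_hasFDerivAt 0 (0:C2)).const_mul (lam : ℂ)).sub
      (sq1_zero.const_mul (p.a0 : ℂ))).add (h3.const_mul (ε : ℂ))
    refine (this.congr_fderiv (by ext; simp)).congr_of_eventuallyEq
      (Filter.Eventually.of_forall fun z => ?_)
    simp only [Pi.add_apply, Pi.sub_apply]
    ring
  have := fderiv_mk h1 (coord_hasFDerivAt 1 0) w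
  unfold h
  rw [this]
  simp

theorem inN : InN lam (p.h ε) := by
  refine ⟨?_, p.h_zero ε, p.h_fderiv h2 hε, ?_⟩
  · intro z hz
    have : ‖z‖ < 1 := by simpa using hz
    exact (p.h_diff h2 hε this.le).differentiableWithinAt
  · intro z hz hz0
    exact p.inner_pos h2 hε (by simpa using hz) hz0

end

section flow

variable (ε : ℝ) (z : C2)

/-- second coordinate of the flow -/
noncomputable def w2 (z : C2) (t : ℝ) : ℂ := (Real.exp (-t) : ℂ) * z 1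

noncomputable def al (ε : ℝ) : ℂ := -(ε : ℂ) / lam

noncomputable def be (t : ℝ) : ℂ := 1 + ε * p.c * w2 z t ^ 2

noncomputable def ga (t : ℝ) : ℂ := (Real.exp (-(lam * t)) : ℂ) * p.f1 ε z
  + ε * p.c ^ 2 * w2 z t ^ 4 / (4 - lam)

noncomputable def w1 (t : ℝ) : ℂ := qroot (al (lam := lam) ε) (p.be ε z t) (p.ga ε z t)

noncomputable def v (t : ℝ) : C2 := !₂[p.w1 ε z t - p.b * w2 z t ^ 2, w2 z t]

theorem exp_hasDerivAt (k t : ℝ) :
    HasDerivAt (fun t : ℝ => ((Real.exp (-(k * t)) : ℝ) : ℂ)) (-k * (Real.exp (-(k * t)) : ℝ)) t := by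
  have h1 : HasDerivAt (fun t : ℝ => Real.exp (-(k * t))) (Real.exp (-(k * t)) * (-k)) t := by
    have h0 : HasDerivAt (fun t : ℝ => -(k * t)) (-k) t :=
      (((hasDerivAt_id' t).const_mul k).fun_neg).congr_deriv (by ring)
    exact h0.exp
  refine (h1.ofReal_comp).congr_deriv ?_
  push_cast
  ring

theorem w2_hasDerivAt (t : ℝ) : HasDerivAt (w2 z) (-w2 z t) t := by
  have h := (exp_hasDerivAt 1 t).mul_const (z 1)
  simp only [one_mul] at h
  refine h.congr_deriv ?_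
  simp only [w2]
  push_cast
  ring

variable {ε z}

theorem norm_w2 (z : C2) (t : ℝ) : ‖w2 z t‖ = Real.exp (-t) * ‖z 1‖ := by
  unfold w2
  rw [norm_mul, Complex.norm_real, Real.norm_of_nonneg (Real.exp_pos _).le]

theorem norm_w2_le (hz : ‖z‖ ≤ 1) {t : ℝ} (ht : 0 ≤ t) : ‖w2 z t‖ ≤ 1 := by
  rw [norm_w2]
  have h1 : Real.exp (-t) ≤ 1 := Real.exp_le_one_iff.2 (by linarith)
  have h2 := norm1_le hz
  calc _ ≤ 1 * 1 := mul_le_mul h1 h2 (norm_nonneg _) zero_le_one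
    _ = 1 := one_mul 1

section
variable (h2 : lam < 2) (hε : |ε| * p.B ^ 2 ≤ 1 / 32)
include h2 hε

theorem norm_f1 (hz : ‖z‖ ≤ 1) : ‖p.f1 ε z‖ ≤ p.B + 3 / 32 := by
  have h1 := p.W_le h2 hz
  have h3 := p.PP_le h2 h1 (norm1_le hz)
  calc ‖p.f1 ε z‖ ≤ ‖p.W z‖ + ‖(ε : ℂ) * p.PP (p.W z) (z 1)‖ := norm_add_le _ _
    _ = ‖p.W z‖ + |ε| * ‖p.PP (p.W z) (z 1)‖ := by
        rw [norm_mul, Complex.norm_real, Real.norm_eq_abs]
    _ ≤ p.B + |ε| * (3 * p.B ^ 2) := by gcongr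
    _ ≤ _ := by linarith

theorem norm_be (hz : ‖z‖ ≤ 1) {t : ℝ} (ht : 0 ≤ t) : ‖p.be ε z t - 1‖ ≤ 1 / 32 := by
  have h1 := norm_w2_le hz ht
  have hB := p.one_le_B h2
  have hc := p.c_pos h2
  have hcB := p.c_le_B h2
  have : p.be ε z t - 1 = ε * p.c * w2 z t ^ 2 := by unfold be; ring
  rw [this, norm_mul, norm_mul, norm_pow, Complex.norm_real, Complex.norm_real,
    Real.norm_eq_abs, Real.norm_of_nonneg hc.le]
  have h3 : ‖w2 z t‖ ^ 2 ≤ 1 := by nlinarith [norm_nonneg (w2 z t)]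
  calc |ε| * p.c * ‖w2 z t‖ ^ 2 ≤ |ε| * p.B ^ 2 * 1 := by
        gcongr
        nlinarith
    _ ≤ _ := by linarith

theorem be_re (hz : ‖z‖ ≤ 1) {t : ℝ} (ht : 0 ≤ t) : 31 / 32 ≤ (p.be ε z t).re := by
  have h1 := p.norm_be h2 hε hz ht
  have h3 := abs_re_le_norm (p.be ε z t - 1)
  rw [sub_re, one_re] at h3
  have := (abs_le.1 (h3.trans h1)).1
  linarith

theorem norm_ga (hz : ‖z‖ ≤ 1) {t : ℝ} (ht : 0 ≤ t) :
    ‖p.ga ε z t‖ ≤ 2 * p.B * Real.exp (-(lam * t)) := by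
  have hl := p.hlam
  have h1 := norm_w2 z t
  have hz1 := norm1_le hz
  have hB := p.one_le_B h2
  have hc := p.c_pos h2
  have hcB := p.c_le_B h2
  have h3 := p.norm_f1 h2 hε hz
  have e1 : ‖(Real.exp (-(lam * t)) : ℂ) * p.f1 ε z‖ ≤ Real.exp (-(lam * t)) * (p.B + 3 / 32) := by
    rw [norm_mul, Complex.norm_real, Real.norm_of_nonneg (Real.exp_pos _).le]
    gcongr
  have e2 : ‖(ε : ℂ) * p.c ^ 2 * w2 z t ^ 4 / (4 - lam)‖ ≤ Real.exp (-(lam * t)) * (1 / 32) := by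
    have : ((4 : ℂ) - lam) = ((4 - lam : ℝ) : ℂ) := by push_cast; ring
    rw [norm_div, norm_mul, norm_mul, norm_pow, norm_pow, Complex.norm_real,
      Real.norm_eq_abs, Complex.norm_real, Real.norm_of_nonneg hc.le,
      this, Complex.norm_real, Real.norm_of_nonneg (by linarith), h1]
    rw [div_le_iff₀ (by linarith)]
    have h5 : (Real.exp (-t) * ‖z 1‖) ^ 4 ≤ Real.exp (-(lam * t)) := by
      calc (Real.exp (-t) * ‖z 1‖) ^ 4 ≤ (Real.exp (-t) * 1) ^ 4 := by gcongr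
        _ = Real.exp (-(4 * t)) := by rw [mul_one, ← Real.exp_nat_mul]; norm_num
        _ ≤ Real.exp (-(lam * t)) := by
            apply Real.exp_le_exp.2
            nlinarith
    have h6 : |ε| * p.c ^ 2 ≤ 1 / 32 := by
      have : |ε| * p.c ^ 2 ≤ |ε| * p.B ^ 2 := by gcongr
      linarith
    have h7 : 0 ≤ |ε| * p.c ^ 2 := by positivity
    calc |ε| * p.c ^ 2 * (Real.exp (-t) * ‖z 1‖) ^ 4 ≤ 1 / 32 * Real.exp (-(lam * t)) := by
          gcongr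
      _ ≤ Real.exp (-(lam * t)) * (1 / 32) * (4 - lam) := by
          have := Real.exp_pos (-(lam * t))
          nlinarith
  calc ‖p.ga ε z t‖ ≤ _ := norm_add_le _ _
    _ ≤ Real.exp (-(lam * t)) * (p.B + 3 / 32) + Real.exp (-(lam * t)) * (1 / 32) :=
        add_le_add e1 e2
    _ ≤ _ := by
        have := Real.exp_pos (-(lam * t))
        nlinarith

theorem norm_D (hz : ‖z‖ ≤ 1) {t : ℝ} (ht : 0 ≤ t) :
    ‖p.be ε z t ^ 2 + 4 * al (lam := lam) ε * p.ga ε z t - 1‖ < 1 := by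
  have hl := p.hlam
  have h1 := p.norm_be h2 hε hz ht
  have h3 := p.norm_ga h2 hε hz ht
  have hB := p.one_le_B h2
  have h4 : Real.exp (-(lam * t)) ≤ 1 := Real.exp_le_one_iff.2 (by nlinarith)
  have e1 : ‖p.be ε z t ^ 2 - 1‖ ≤ 3 / 32 := by
    have : p.be ε z t ^ 2 - 1 = (p.be ε z t - 1) * (p.be ε z t - 1 + 2) := by ring
    rw [this, norm_mul]
    have h5 : ‖p.be ε z t - 1 + 2‖ ≤ 1 / 32 + 2 := by
      refine (norm_add_le _ _).trans ?_
      rw [Complex.norm_ofNat]; linarith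
    have h6 : ‖p.be ε z t - 1‖ * ‖p.be ε z t - 1 + 2‖ ≤ 1 / 32 * (1 / 32 + 2) :=
      mul_le_mul h1 h5 (norm_nonneg _) (by norm_num)
    exact h6.trans (by norm_num)
  have e2 : ‖4 * al (lam := lam) ε * p.ga ε z t‖ ≤ 1 / 4 := by
    unfold al
    rw [norm_mul, norm_mul, norm_div, norm_neg, Complex.norm_real, Complex.norm_real,
      Real.norm_eq_abs, Real.norm_of_nonneg (by linarith : (0:ℝ) ≤ lam), Complex.norm_ofNat]
    have h5 : |ε| / lam ≤ |ε| := div_le_self (abs_nonneg _) hl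
    have h6 : ‖p.ga ε z t‖ ≤ 2 * p.B := by nlinarith
    calc 4 * (|ε| / lam) * ‖p.ga ε z t‖ ≤ 4 * |ε| * (2 * p.B) := by gcongr
      _ ≤ 8 * (|ε| * p.B ^ 2) := by
          have := abs_nonneg ε
          nlinarith [mul_nonneg this (mul_nonneg (by linarith : (0:ℝ) ≤ p.B) (by linarith : (0:ℝ) ≤ p.B - 1))]
      _ ≤ 1 / 4 := by linarith
  have : p.be ε z t ^ 2 + 4 * al (lam := lam) ε * p.ga ε z t - 1
      = (p.be ε z t ^ 2 - 1) + 4 * al (lam := lam) ε * p.ga ε z t := by ring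
  rw [this]
  refine (norm_add_le _ _).trans_lt ?_
  linarith

/-- conserved quantity -/
theorem w1_eq (hz : ‖z‖ ≤ 1) {t : ℝ} (ht : 0 ≤ t) :
    p.w1 ε z t + ε * p.PP (p.w1 ε z t) (w2 z t) = (Real.exp (-(lam * t)) : ℂ) * p.f1 ε z := by
  have hb := p.be_re h2 hε hz ht
  have h := qroot_eq (α := al (lam := lam) ε) (β := p.be ε z t) (γ := p.ga ε z t)
    (by linarith) (p.norm_D h2 hε hz ht)
  change al (lam := lam) ε * p.w1 ε z t ^ 2 + p.be ε z t * p.w1 ε z t = p.ga ε z t at h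
  unfold al be ga at h
  unfold PP
  linear_combination h

theorem w1_sqrt (hz : ‖z‖ ≤ 1) {t : ℝ} (ht : 0 ≤ t) :
    1 + ε * p.PP1 (p.w1 ε z t) (w2 z t)
      = Complex.sqrt (p.be ε z t ^ 2 + 4 * al (lam := lam) ε * p.ga ε z t) := by
  have hb := p.be_re h2 hε hz ht
  have h := qroot_sqrt (α := al (lam := lam) ε) (β := p.be ε z t) (γ := p.ga ε z t)
    (by linarith) (p.norm_D h2 hε hz ht)
  rw [← h]
  change _ = p.be ε z t + 2 * al (lam := lam) ε * p.w1 ε z t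
  unfold al be PP1
  ring

theorem w1_ne (hz : ‖z‖ ≤ 1) {t : ℝ} (ht : 0 ≤ t) :
    1 + (ε : ℂ) * p.PP1 (p.w1 ε z t) (w2 z t) ≠ 0 := by
  rw [p.w1_sqrt h2 hε hz ht]
  exact sqrt_ne (p.norm_D h2 hε hz ht)

theorem w1_zero (hz : ‖z‖ ≤ 1) : p.w1 ε z 0 = p.W z := by
  have hb := p.be_re h2 hε hz le_rfl
  have hw : w2 z 0 = z 1 := by simp [w2]
  symm
  apply eq_qroot (by linarith) (p.norm_D h2 hε hz le_rfl)
  · unfold al be ga f1 PP
    rw [hw]
    simp only [mul_zero, neg_zero, Real.exp_zero, ofReal_one, one_mul]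
    ring
  · have h4 := p.den_ge h2 hε (p.W_le h2 hz) (norm1_le hz)
    have : p.be ε z 0 + 2 * al (lam := lam) ε * p.W z = 1 + ε * p.PP1 (p.W z) (z 1) := by
      unfold al be PP1
      rw [hw]; ring
    rw [this, add_re, one_re]
    have h5 := abs_re_le_norm ((ε : ℂ) * p.PP1 (p.W z) (z 1))
    have := (abs_le.1 (h5.trans h4)).1
    linarith

theorem v_zero (hz : ‖z‖ ≤ 1) : p.v ε z 0 = z := by
  have hw : w2 z 0 = z 1 := by simp [w2]
  ext i
  fin_cases i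
  · simp [v, p.w1_zero h2 hε hz, hw, W]
  · simp [v, hw]

end

end flow

section flow2

variable {ε : ℝ} {z : C2} (h2 : lam < 2) (hε : |ε| * p.B ^ 2 ≤ 1 / 32)
include h2 hε

theorem w1_hasDerivAt (hz : ‖z‖ ≤ 1) {t : ℝ} (ht : 0 ≤ t) :
    HasDerivAt (p.w1 ε z)
      (-(lam : ℂ) * p.w1 ε z t - ε * (p.w1 ε z t - p.c * w2 z t ^ 2) ^ 2
        / (1 + ε * p.PP1 (p.w1 ε z t) (w2 z t))) t := by
  have hb := p.be_re h2 hε hz ht
  have hD := p.norm_D h2 hε hz ht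
  have hw := w2_hasDerivAt z t
  have hbe : HasDerivAt (p.be ε z) (-2 * ε * p.c * w2 z t ^ 2) t := by
    have := ((hw.fun_pow 2).const_mul ((ε : ℂ) * p.c)).const_add 1
    refine this.congr_deriv ?_
    norm_num
    ring
  have hga : HasDerivAt (p.ga ε z) (-(lam : ℂ) * ((Real.exp (-(lam * t)) : ℂ) * p.f1 ε z)
      - 4 * ε * p.c ^ 2 * w2 z t ^ 4 / (4 - lam)) t := by
    have h1 := (exp_hasDerivAt lam t).mul_const (p.f1 ε z)
    have h3 := ((hw.fun_pow 4).const_mul ((ε : ℂ) * p.c ^ 2)).div_const (4 - (lam : ℂ))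
    refine (h1.add h3).congr_deriv ?_
    norm_num
    ring
  have hmain := hasDerivAt_qroot (α := al (lam := lam) ε) hbe hga (by linarith) hD
  refine hmain.congr_deriv ?_
  have hS := p.w1_sqrt h2 hε hz ht
  have hS0 := p.w1_ne h2 hε hz ht
  have hc := p.w1_eq h2 hε hz ht
  rw [← hS]
  change (_ - _ * p.w1 ε z t) / _ = _
  have h4 : (4 : ℂ) - lam ≠ 0 := by
    have : ((4 : ℂ) - lam) = ((4 - lam : ℝ) : ℂ) := by push_cast; ring
    rw [this]
    exact_mod_cast (by linarith : (4 : ℝ) - lam ≠ 0)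
  have hl0 : (lam : ℂ) ≠ 0 := by
    have := p.hlam
    exact_mod_cast (by linarith : lam ≠ 0)
  rw [div_eq_iff hS0, sub_mul, div_mul_cancel₀ _ hS0, ← hc]
  unfold PP PP1
  generalize p.w1 ε z t = w
  generalize w2 z t = y
  field_simp
  ring

theorem v_hasDerivAt (hz : ‖z‖ ≤ 1) {t : ℝ} (ht : 0 ≤ t) :
    HasDerivAt (p.v ε z) (-(p.h ε (p.v ε z t))) t := by
  have hw := w2_hasDerivAt z t
  have hw1 := p.w1_hasDerivAt h2 hε hz ht
  have h0 : HasDerivAt (fun t => p.w1 ε z t - p.b * w2 z t ^ 2)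
      (-(lam : ℂ) * p.w1 ε z t - ε * (p.w1 ε z t - p.c * w2 z t ^ 2) ^ 2
        / (1 + ε * p.PP1 (p.w1 ε z t) (w2 z t)) + 2 * p.b * w2 z t ^ 2) t := by
    refine (hw1.sub ((hw.fun_pow 2).const_mul (p.b : ℂ))).congr_deriv ?_
    norm_num
    ring
  have hW : p.W (p.v ε z t) = p.w1 ε z t := by
    unfold W v; simp
  have hv1 : (p.v ε z t) 1 = w2 z t := by unfold v; simp
  have hv0 : (p.v ε z t) 0 = p.w1 ε z t - p.b * w2 z t ^ 2 := by unfold v; simp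
  have hψ : p.ψ (p.v ε z t) = p.w1 ε z t - p.c * w2 z t ^ 2 := by
    unfold ψ; rw [hv0, hv1]; unfold c; push_cast; ring
  have hab : (p.a0 : ℂ) = (2 - lam) * p.b := by
    have : p.a0 = (2 - lam) * p.b := by
      unfold b; field_simp [(by linarith : (2 - lam) ≠ 0)]
    rw [this]; push_cast; ring
  have key : ∀ i, HasDerivAt (fun t => p.v ε z t i) ((-(p.h ε (p.v ε z t))) i) t := by
    intro i
    fin_cases i
    · refine (h0.congr_deriv ?_)
      simp only [h, hW, hψ, hv1, hv0]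
      simp only [Fin.zero_eta, Fin.isValue, PiLp.neg_apply, Matrix.cons_val_zero]
      rw [hab]
      ring
    · refine (hw.congr_deriv ?_)
      simp only [h, hv1]
      simp
  have hpi := hasDerivAt_pi.2 key
  have := ((PiLp.continuousLinearEquiv 2 ℝ (fun _ : Fin 2 => ℂ)).symm :
    (Fin 2 → ℂ) →L[ℝ] C2).hasFDerivAt.comp_hasDerivAt t hpi
  exact this

end flow2

section flow3

variable {ε : ℝ} {z : C2} (h2 : lam < 2) (hε : |ε| * p.B ^ 2 ≤ 1 / 32)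
include h2 hε

theorem v_ball (hz : ‖z‖ < 1) {t : ℝ} (ht : 0 ≤ t) : ‖p.v ε z t‖ < 1 := by
  set R : ℝ := (‖z‖ ^ 2 + 1) / 2 with hR
  have hR0 : 0 < R := by positivity
  have hz2 : ‖z‖ ^ 2 < 1 := by nlinarith [norm_nonneg z]
  have hR1 : R < 1 := by rw [hR]; linarith
  have hd : ∀ s, 0 ≤ s → HasDerivAt (fun t => ‖p.v ε z t‖ ^ 2)
      (-2 * (inner ℂ (p.v ε z s) (p.h ε (p.v ε z s))).re) s := by
    intro s hs
    have h1 := (p.v_hasDerivAt h2 hε hz.le hs).norm_sq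
    refine h1.congr_deriv ?_
    rw [inner_neg_right, PiLp.inner_apply, PiLp.inner_apply, Fin.sum_univ_two, Fin.sum_univ_two,
      add_re]
    have key : ∀ a b : ℂ, (inner ℝ a b : ℝ) = (inner ℂ a b).re := fun a b => rfl
    rw [key, key]
    ring
  have hle : ‖p.v ε z t‖ ^ 2 ≤ R := by
    have := image_le_of_deriv_right_lt_deriv_boundary (f := fun t => ‖p.v ε z t‖ ^ 2)
      (f' := fun s => -2 * (inner ℂ (p.v ε z s) (p.h ε (p.v ε z s))).re) (a := 0) (b := t)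
      (B := fun _ => R) (B' := fun _ => 0)
      (fun s hs => (hd s hs.1).continuousAt.continuousWithinAt)
      (fun s hs => (hd s hs.1).hasDerivWithinAt)
      (by simp only [p.v_zero h2 hε hz.le]; rw [hR]; linarith)
      (fun s => hasDerivAt_const s R)
      (by
        intro s hs hs2
        replace hs2 : ‖p.v ε z s‖ ^ 2 = R := hs2
        have h3 : ‖p.v ε z s‖ < 1 := by nlinarith [norm_nonneg (p.v ε z s)]
        have h4 : p.v ε z s ≠ 0 := by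
          intro h
          rw [h] at hs2
          simp at hs2
          linarith
        have := p.inner_pos h2 hε h3 h4
        linarith)
    exact this ⟨ht, le_rfl⟩
  nlinarith [norm_nonneg (p.v ε z t)]

theorem v_ac (hz : ‖z‖ < 1) {T : ℝ} (hT : 0 < T) :
    AbsolutelyContinuousOnInterval (p.v ε z) 0 T := by
  have hcont : ContinuousOn (p.v ε z) (Icc 0 T) := fun s hs =>
    (p.v_hasDerivAt h2 hε hz.le hs.1).continuousAt.continuousWithinAt
  have hcont' : ContinuousOn (fun s => -(p.h ε (p.v ε z s))) (Icc 0 T) := by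
    intro s hs
    have h1 := (p.h_diff h2 hε (p.v_ball h2 hε hz hs.1).le).continuousAt
    exact (h1.comp_continuousWithinAt (hcont s hs)).neg
  obtain ⟨C, hC⟩ := isCompact_Icc.exists_bound_of_continuousOn hcont'
  have hlip : LipschitzOnWith (Real.toNNReal C) (p.v ε z) (uIcc 0 T) := by
    rw [uIcc_of_le hT.le]
    apply (convex_Icc 0 T).lipschitzOnWith_of_nnnorm_hasDerivWithin_le
      (f' := fun s => -(p.h ε (p.v ε z s)))
    · intro s hs
      exact (p.v_hasDerivAt h2 hε hz.le hs.1).hasDerivWithinAt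
    · intro s hs
      rw [← NNReal.coe_le_coe, coe_nnnorm]
      exact (hC s hs).trans (Real.le_coe_toNNReal C)
  exact hlip.absolutelyContinuousOnInterval

theorem conv_bound (hz : ‖z‖ < 1) {t : ℝ} (ht : 0 ≤ t) :
    ‖expA lam t (p.v ε z t) - p.f ε z‖ ≤ (91 * p.B ^ 2 + p.b) * Real.exp ((lam - 2) * t) := by
  have hl := p.hlam
  have hB := p.one_le_B h2
  have hb := p.b_pos h2
  have hg := p.norm_ga h2 hε hz.le ht
  have hw1 : ‖p.w1 ε z t‖ ≤ 9 * p.B * Real.exp (-(lam * t)) := by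
    have h1 := norm_qroot_le (α := al (lam := lam) ε) (β := p.be ε z t) (γ := p.ga ε z t)
      (by have := p.be_re h2 hε hz.le ht; linarith) (p.norm_D h2 hε hz.le ht)
    change ‖p.w1 ε z t‖ ≤ _ at h1
    have := Real.exp_pos (-(lam * t))
    nlinarith
  have hw2 : ‖w2 z t‖ ≤ Real.exp (-t) := by
    rw [norm_w2]
    have := norm1_le hz.le
    have := Real.exp_pos (-t)
    nlinarith
  have hPP : ‖p.PP (p.w1 ε z t) (w2 z t)‖ ≤ 91 * p.B ^ 2 * Real.exp ((lam - 2) * t)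
      * Real.exp (-(lam * t)) := by
    refine (p.PP_bound h2).trans ?_
    have e1 : ‖p.w1 ε z t‖ ^ 2 ≤ 81 * p.B ^ 2 * (Real.exp ((lam - 2) * t)
      * Real.exp (-(lam * t))) := by
      calc ‖p.w1 ε z t‖ ^ 2 ≤ (9 * p.B * Real.exp (-(lam * t))) ^ 2 := by gcongr
        _ = 81 * p.B ^ 2 * (Real.exp (-(lam * t)) * Real.exp (-(lam * t))) := by ring
        _ ≤ _ := by
            have : Real.exp (-(lam * t)) ≤ Real.exp ((lam - 2) * t) := by
              apply Real.exp_le_exp.2; nlinarith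
            gcongr
    have e2 : p.B * ‖p.w1 ε z t‖ * ‖w2 z t‖ ^ 2 ≤ 9 * p.B ^ 2 * (Real.exp ((lam - 2) * t)
      * Real.exp (-(lam * t))) := by
      calc p.B * ‖p.w1 ε z t‖ * ‖w2 z t‖ ^ 2
          ≤ p.B * (9 * p.B * Real.exp (-(lam * t))) * Real.exp (-t) ^ 2 := by gcongr
        _ = 9 * p.B ^ 2 * (Real.exp (-t) ^ 2 * Real.exp (-(lam * t))) := by ring
        _ ≤ _ := by
            have : Real.exp (-t) ^ 2 ≤ Real.exp ((lam - 2) * t) := by
              rw [← Real.exp_nat_mul]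
              apply Real.exp_le_exp.2; push_cast; nlinarith
            gcongr
    have e3 : p.B ^ 2 * ‖w2 z t‖ ^ 4 ≤ p.B ^ 2 * (Real.exp ((lam - 2) * t)
      * Real.exp (-(lam * t))) := by
      calc p.B ^ 2 * ‖w2 z t‖ ^ 4 ≤ p.B ^ 2 * Real.exp (-t) ^ 4 := by gcongr
        _ ≤ _ := by
            have : Real.exp (-t) ^ 4 ≤ Real.exp ((lam - 2) * t) * Real.exp (-(lam * t)) := by
              rw [← Real.exp_nat_mul, ← Real.exp_add]
              apply Real.exp_le_exp.2; push_cast; nlinarith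
            gcongr
    linarith
  have hv1 : (p.v ε z t) 1 = w2 z t := by unfold v; simp
  have hv0 : (p.v ε z t) 0 = p.w1 ε z t - p.b * w2 z t ^ 2 := by unfold v; simp
  have hexp1 : (Real.exp t : ℂ) * (Real.exp (-t) : ℂ) = 1 := by
    rw [← ofReal_mul, ← Real.exp_add]; simp
  have hexp2 : (Real.exp (lam * t) : ℂ) * (Real.exp (-(lam * t)) : ℂ) = 1 := by
    rw [← ofReal_mul, ← Real.exp_add]; simp
  have hexp3 : (Real.exp (lam * t) : ℂ) * (Real.exp (-t) : ℂ) ^ 2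
      = (Real.exp ((lam - 2) * t) : ℂ) := by
    rw [← ofReal_pow, ← ofReal_mul, ← Real.exp_nat_mul, ← Real.exp_add]
    congr 2; push_cast; ring
  have c1 : (expA lam t (p.v ε z t) - p.f ε z) 1 = 0 := by
    simp only [expA, f, hv1, PiLp.sub_apply]
    simp only [Matrix.cons_val_one, Matrix.cons_val_fin_one]
    unfold w2
    linear_combination (z 1) * hexp1
  have c0 : (expA lam t (p.v ε z t) - p.f ε z) 0
      = -(ε * ((Real.exp (lam * t) : ℂ) * p.PP (p.w1 ε z t) (w2 z t)))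
        - p.b * (Real.exp ((lam - 2) * t) : ℂ) * z 1 ^ 2 := by
    simp only [expA, f, hv0, PiLp.sub_apply]
    simp only [Matrix.cons_val_zero]
    have hc := p.w1_eq h2 hε hz.le ht
    have hw : w2 z t = (Real.exp (-t) : ℂ) * z 1 := rfl
    rw [← hexp3]
    rw [show (p.b : ℂ) * w2 z t ^ 2 = p.b * ((Real.exp (-t) : ℂ) ^ 2 * z 1 ^ 2) by rw [hw]; ring]
    linear_combination (Real.exp (lam * t) : ℂ) * hc + p.f1 ε z * hexp2
  have hnorm : ‖expA lam t (p.v ε z t) - p.f ε z‖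
      = ‖(expA lam t (p.v ε z t) - p.f ε z) 0‖ := by
    have h1 := norm_coord_sq (expA lam t (p.v ε z t) - p.f ε z)
    rw [c1, norm_zero] at h1
    have h3 : ‖expA lam t (p.v ε z t) - p.f ε z‖ ^ 2
      = ‖(expA lam t (p.v ε z t) - p.f ε z) 0‖ ^ 2 := by rw [h1]; ring
    exact (sq_eq_sq₀ (norm_nonneg _) (norm_nonneg _)).1 h3
  rw [hnorm, c0]
  have hε' : |ε| ≤ 1 := by
    have := abs_nonneg ε
    have h1B : 1 ≤ p.B ^ 2 := by nlinarith
    nlinarith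
  have t1 : ‖-((ε : ℂ) * ((Real.exp (lam * t) : ℂ) * p.PP (p.w1 ε z t) (w2 z t)))‖
      ≤ 91 * p.B ^ 2 * Real.exp ((lam - 2) * t) := by
    rw [norm_neg, norm_mul, norm_mul, Complex.norm_real, Complex.norm_real, Real.norm_eq_abs,
      Real.norm_of_nonneg (Real.exp_pos _).le]
    have h3 : Real.exp (lam * t) * ‖p.PP (p.w1 ε z t) (w2 z t)‖
        ≤ 91 * p.B ^ 2 * Real.exp ((lam - 2) * t) := by
      calc Real.exp (lam * t) * ‖p.PP (p.w1 ε z t) (w2 z t)‖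
          ≤ Real.exp (lam * t) * (91 * p.B ^ 2 * Real.exp ((lam - 2) * t)
            * Real.exp (-(lam * t))) := by gcongr
        _ = 91 * p.B ^ 2 * Real.exp ((lam - 2) * t)
            * (Real.exp (lam * t) * Real.exp (-(lam * t))) := by ring
        _ = _ := by rw [← Real.exp_add]; simp
    calc _ ≤ 1 * (91 * p.B ^ 2 * Real.exp ((lam - 2) * t)) :=
          mul_le_mul hε' h3 (by positivity) zero_le_one
      _ = _ := one_mul _
  have t2 : ‖(p.b : ℂ) * (Real.exp ((lam - 2) * t) : ℂ) * z 1 ^ 2‖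
      ≤ p.b * Real.exp ((lam - 2) * t) := by
    rw [norm_mul, norm_mul, norm_pow, Complex.norm_real, Complex.norm_real,
      Real.norm_of_nonneg hb.le, Real.norm_of_nonneg (Real.exp_pos _).le]
    have h3 : ‖z 1‖ ^ 2 ≤ 1 := by
      have := norm1_le hz.le
      nlinarith [norm_nonneg (z 1)]
    calc _ ≤ p.b * Real.exp ((lam - 2) * t) * 1 := by gcongr
      _ = _ := mul_one _
  calc _ ≤ _ := norm_sub_le _ _
    _ ≤ 91 * p.B ^ 2 * Real.exp ((lam - 2) * t) + p.b * Real.exp ((lam - 2) * t) :=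
        add_le_add t1 t2
    _ = _ := by ring

theorem hasParamRep : HasParamRep lam (p.f ε) := by
  refine ⟨fun z _ => (p.f_diff ε z).differentiableWithinAt, p.f_zero ε, p.f_fderiv ε,
    fun z _ => p.h ε z, p.v ε, ⟨?_, ?_⟩, ?_, ?_⟩
  · exact Filter.Eventually.of_forall fun t => p.inN h2 hε
  · intro z _
    exact measurable_const
  · intro z hz
    have hz1 : ‖z‖ < 1 := by simpa using hz
    refine ⟨p.v_zero h2 hε hz1.le, ?_, ?_, ?_⟩
    · intro t ht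
      simpa using p.v_ball h2 hε hz1 ht
    · intro T hT
      exact p.v_ac h2 hε hz1 hT
    · filter_upwards [ae_restrict_mem measurableSet_Ici] with t ht
      exact p.v_hasDerivAt h2 hε hz1.le ht
  · apply TendstoUniformlyOn.tendstoLocallyUniformlyOn
    rw [Metric.tendstoUniformlyOn_iff]
    intro δ hδ
    have hlim : Tendsto (fun t : ℝ => (91 * p.B ^ 2 + p.b) * Real.exp ((lam - 2) * t)) atTop
        (𝓝 0) := by
      have h0 : Tendsto (fun t : ℝ => (lam - 2) * t) atTop atBot :=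
        tendsto_id.const_mul_atTop_of_neg (by linarith)
      have := (Real.tendsto_exp_atBot.comp h0).const_mul (91 * p.B ^ 2 + p.b)
      simpa using this
    filter_upwards [(tendsto_order.1 hlim).2 δ hδ, eventually_ge_atTop 0] with t ht1 ht0 z hz
    rw [dist_comm, dist_eq_norm]
    exact (p.conv_bound h2 hε (by simpa using hz) ht0).trans_lt ht1

end flow3

end Par

theorem main (lam : ℝ) (h1 : 1 ≤ lam) (h2 : lam < 2) :
    SuppDefs.F lam ∈ SA0 lam ∧ SuppDefs.F lam ∉ (SA0 lam).extremePoints ℝ := by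
  obtain ⟨p⟩ := exists_par h1
  have ha : SuppDefs.a0 lam = p.a0 := p.sSup_eq
  have hB := p.one_le_B h2
  have hBpos : 0 < p.B ^ 2 := by positivity
  have hF : ∀ z : ball (0 : C2) 1, SuppDefs.F lam z = p.f 0 z := by
    intro z
    unfold SuppDefs.F Par.f Par.f1 Par.W Par.b
    rw [ha]
    simp
  set ε : ℝ := 1 / (32 * p.B ^ 2) with hε
  have hεpos : 0 < ε := by positivity
  have hε1 : |ε| * p.B ^ 2 ≤ 1 / 32 := by
    rw [abs_of_pos hεpos, hε]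
    field_simp
    norm_num
  have hε2 : |-ε| * p.B ^ 2 ≤ 1 / 32 := by rwa [abs_neg]
  have hε0 : |(0 : ℝ)| * p.B ^ 2 ≤ 1 / 32 := by simp
  refine ⟨⟨p.f 0, p.hasParamRep h2 hε0, hF⟩, ?_⟩
  intro hmem
  rw [mem_extremePoints] at hmem
  set g1 : ball (0 : C2) 1 → C2 := fun z => p.f ε z with hg1
  set g2 : ball (0 : C2) 1 → C2 := fun z => p.f (-ε) z with hg2
  have hseg : SuppDefs.F lam ∈ openSegment ℝ g1 g2 := by
    refine ⟨1 / 2, 1 / 2, by norm_num, by norm_num, by norm_num, ?_⟩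
    ext z i
    rw [hF z]
    fin_cases i
    · simp [hg1, hg2, Par.f, Par.f1]
      ring
    · simp [hg1, hg2, Par.f]
      ring
  have := (hmem.2 g1 ⟨p.f ε, p.hasParamRep h2 hε1, fun _ => rfl⟩ g2
    ⟨p.f (-ε), p.hasParamRep h2 hε2, fun _ => rfl⟩ hseg).1
  set z0 : C2 := !₂[1 / 2, 0] with hz0
  have hz0n : z0 ∈ ball (0 : C2) 1 := by
    have h3 := Par.norm_coord_sq z0
    have h4 : ‖z0‖ ^ 2 = 1 / 4 := by
      rw [h3, hz0]; norm_num
    have : ‖z0‖ < 1 := by nlinarith [norm_nonneg z0]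
    simpa using this
  have h5 := congrFun this ⟨z0, hz0n⟩
  rw [hF, hg1] at h5
  have h6 := congrArg (fun w : C2 => w 0) h5
  have hW : p.W z0 = 1 / 2 := by
    simp [Par.W, hz0]
  have h10 : z0 1 = 0 := by simp [hz0]
  simp only [Par.f, Par.f1, hW, h10] at h6
  simp only [Matrix.cons_val_zero, ofReal_zero, zero_mul, add_zero] at h6
  have h7 : (ε : ℂ) * p.PP (1 / 2) 0 = 0 := by linear_combination h6
  have h8 : p.PP (1 / 2) 0 ≠ 0 := by
    unfold Par.PP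
    have hl : (lam : ℂ) ≠ 0 := by exact_mod_cast (by linarith : lam ≠ 0)
    simp [hl]
  have h9 : (ε : ℂ) ≠ 0 := by exact_mod_cast hεpos.ne'
  exact (mul_ne_zero h9 h8) h7

end Pool.Agent.Helper59.Supp
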